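import Pool.Agent.Lib.MP_6e5bed_ag_GG.GB

set_option autoImplicit false
set_option linter.unusedSectionVars false
set_option linter.unusedVariables false

/-!
# MP_6e5bed_ag, THEOREM G: sheaves with coefficients given by two commuting actions
-/

noncomputable section

namespace Pool.Agent.MP_6e5bed_ag_GG

open scoped TensorProduct

universe u

variable {k : Type u} [Field k] {j : Type} [Fintype j]

/-! ### Construction of sheaves over `bsS T A'` -/

/-- A sheaf over `bsS T A'` given by two commuting actions. -/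
structure PreS (T : Type u) [Ring T] [Algebra k T] (A' : CA k j) where
  E : Ch j → Type u
  [grp : ∀ c, AddCommGroup (E c)]
  [modk : ∀ c, Module k (E c)]
  l : ∀ c, T →ₐ[k] Module.End k (E c)
  r : ∀ c, (A'.A c)ᵐᵒᵖ →ₐ[k] Module.End k (E c)
  comm : ∀ c t b x, l c t (r c b x) = r c b (l c t x)
  res : ∀ {c d : Ch j}, c ≤ d → E c →ₗ[k] E d
  res_l : ∀ {c d : Ch j} (h : c ≤ d) (t : T) (x : E c), res h (l c t x) = l d t (res h x)
  res_r : ∀ {c d : Ch j} (h : c ≤ d) (b : (A'.A c)ᵐᵒᵖ) (x : E c),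
    res h (r c b x) = r d (MulOpposite.op (A'.res h b.unop)) (res h x)
  res_id : ∀ {c : Ch j} (h : c ≤ c) (x : E c), res h x = x
  res_res : ∀ {c d e : Ch j} (h : c ≤ d) (h' : d ≤ e) (x : E c),
    res h' (res h x) = res (h.trans h') x
  surj : ∀ {c d : Ch j} (h : c ≤ d) {g : j} (hg : g ∈ c.1) (l : j), d.1 ⊆ insert l c.1 →
    ∀ y : E d, ∃ (n : ℕ) (x : E c), res h x =
      r d (MulOpposite.op (algebraMap (RR k d.1) (A'.A d) (tt k l (h hg) ^ n))) y
  inj : ∀ {c d : Ch j} (h : c ≤ d) {g : j} (hg : g ∈ c.1) (l : j), d.1 ⊆ insert l c.1 →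
    ∀ x : E c, res h x = 0 → ∃ n : ℕ,
      r c (MulOpposite.op (algebraMap (RR k c.1) (A'.A c) (tt k l hg ^ n))) x = 0

attribute [instance] PreS.grp PreS.modk

namespace PreS

variable {T : Type u} [Ring T] [Algebra k T] {A' : CA k j} (W : PreS T A')

/-- the action of the tensor product -/
def act (c : Ch j) : bsSB T A' c →ₐ[k] Module.End k (W.E c) :=
  Algebra.TensorProduct.lift (W.l c) (W.r c) (fun t b => LinearMap.ext fun x => W.comm c t b x)

theorem act_tmul (c : Ch j) (t : T) (b : (A'.A c)ᵐᵒᵖ) (x : W.E c) :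
    W.act c (t ⊗ₜ[k] b) x = W.l c t (W.r c b x) := by
  unfold act
  rw [Algebra.TensorProduct.lift_tmul]
  rfl

/-- the sections -/
def ES (W : PreS T A') (c : Ch j) : Type u := W.E c

instance (c : Ch j) : AddCommGroup (W.ES c) := inferInstanceAs (AddCommGroup (W.E c))

instance (c : Ch j) : Module k (W.ES c) := inferInstanceAs (Module k (W.E c))

instance (c : Ch j) : Module (bsSB T A' c) (W.ES c) :=
  Module.compHom (W.E c) (W.act c).toRingHom

theorem ES_smul (c : Ch j) (b : bsSB T A' c) (x : W.ES c) : b • x = W.act c b x := rfl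

instance (c : Ch j) : IsScalarTower k (bsSB T A' c) (W.ES c) :=
  ⟨fun a b x => by
    rw [ES_smul, ES_smul, map_smul]
    rfl⟩

/-- The sheaf. -/
def sh : Sh (bsS T A') where
  E := W.ES
  mod := fun c => inferInstanceAs (Module (bsSB T A' c) (W.ES c))
  tow := fun c => inferInstanceAs (IsScalarTower k (bsSB T A' c) (W.ES c))
  res := fun h => W.res h
  res_smul := fun {c d} h b x => by
    change W.res h (W.act c b x) = W.act d (bsSr T A' h b) (W.res h x)
    induction b using TensorProduct.induction_on with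
    | zero => rw [map_zero, map_zero, map_zero, LinearMap.zero_apply, LinearMap.zero_apply,
        map_zero]
    | tmul t b => rw [act_tmul, bsSr_tmul, act_tmul, W.res_l, W.res_r]
    | add b b' hb hb' =>
      rw [map_add, map_add, map_add, LinearMap.add_apply, map_add, hb, hb', LinearMap.add_apply]
  res_id := fun h x => W.res_id h x
  res_res := fun h h' x => W.res_res h h' x
  surj := fun {c d t} h y => by
    obtain ⟨h0, l, g, hg, h2, rfl⟩ := h
    obtain ⟨n, x, hx⟩ := W.surj h0 hg l h2 y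
    refine ⟨n, x, hx.trans ?_⟩
    change _ = W.act d (bsSr T A' h0 _ ^ n) y
    rw [bsSr_tmul, Algebra.TensorProduct.tmul_pow, one_pow, act_tmul, map_one,
      MulOpposite.unop_op, A'.res_R, map_pow]
    rfl
  inj := fun {c d t} h x hx => by
    obtain ⟨h0, l, g, hg, h2, rfl⟩ := h
    obtain ⟨n, hn⟩ := W.inj h0 hg l h2 x hx
    refine ⟨n, ?_⟩
    change W.act c (_ ^ n) x = 0
    rw [Algebra.TensorProduct.tmul_pow, one_pow, act_tmul, map_one]
    rw [map_pow] at hn
    exact hn

end PreS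

/-! ### The two actions of a sheaf over `bsS T A'` -/

section acts

variable {T : Type u} [Ring T] [Algebra k T] {A' : CA k j} (V : Sh (bsS T A'))

/-- the left action -/
def shl (c : Ch j) : T →ₐ[k] Module.End k (V.E c) where
  toFun t :=
    { toFun := fun x => Zact V (t ⊗ₜ[k] 1 : bsSB T A' c) x
      map_add' := fun x y => Zact_addr V _ x y
      map_smul' := fun a x => by
        have h := smul_algebra_smul_comm (A := (bsS T A').B c) (M := V.E c) a
          (t ⊗ₜ[k] 1 : bsSB T A' c) x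
        exact h }
  map_one' := LinearMap.ext fun x => Zact_one V x
  map_mul' := fun t t' => LinearMap.ext fun x => by
    refine Eq.trans ?_ (Zact_mul V _ _ x)
    change Zact V _ x = _
    rw [Algebra.TensorProduct.tmul_mul_tmul, one_mul]
  map_zero' := LinearMap.ext fun x => by
    change Zact V ((0 : T) ⊗ₜ[k] 1) x = 0
    rw [TensorProduct.zero_tmul, Zact_zero]
  map_add' := fun t t' => LinearMap.ext fun x => by
    change Zact V ((t + t') ⊗ₜ[k] 1) x = _
    rw [TensorProduct.add_tmul, Zact_add]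
    rfl
  commutes' := fun a => LinearMap.ext fun x => by
    change Zact V (algebraMap k T a ⊗ₜ[k] 1) x = a • x
    exact algebraMap_smul ((bsS T A').B c) a x

/-- the right action -/
def shr (c : Ch j) : (A'.A c)ᵐᵒᵖ →ₐ[k] Module.End k (V.E c) where
  toFun b :=
    { toFun := fun x => Zact V ((1 : T) ⊗ₜ[k] b : bsSB T A' c) x
      map_add' := fun x y => Zact_addr V _ x y
      map_smul' := fun a x => by
        have h := smul_algebra_smul_comm (A := (bsS T A').B c) (M := V.E c) a
          ((1 : T) ⊗ₜ[k] b : bsSB T A' c) x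
        exact h }
  map_one' := LinearMap.ext fun x => Zact_one V x
  map_mul' := fun t t' => LinearMap.ext fun x => by
    refine Eq.trans ?_ (Zact_mul V _ _ x)
    change Zact V _ x = _
    rw [Algebra.TensorProduct.tmul_mul_tmul, one_mul]
  map_zero' := LinearMap.ext fun x => by
    change Zact V ((1 : T) ⊗ₜ[k] 0) x = 0
    rw [TensorProduct.tmul_zero, Zact_zero]
  map_add' := fun t t' => LinearMap.ext fun x => by
    change Zact V ((1 : T) ⊗ₜ[k] (t + t')) x = _
    rw [TensorProduct.tmul_add, Zact_add]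
    rfl
  commutes' := fun a => LinearMap.ext fun x => by
    change Zact V ((1 : T) ⊗ₜ[k] algebraMap k (A'.A c)ᵐᵒᵖ a) x = a • x
    have h : ((1 : T) ⊗ₜ[k] algebraMap k (A'.A c)ᵐᵒᵖ a : bsSB T A' c) = algebraMap k _ a := by
      rw [Algebra.TensorProduct.algebraMap_apply, Algebra.algebraMap_eq_smul_one,
        Algebra.algebraMap_eq_smul_one, TensorProduct.tmul_smul, TensorProduct.smul_tmul']
    rw [h]
    exact algebraMap_smul ((bsS T A').B c) a x

variable {V}

theorem shl_apply (c : Ch j) (t : T) (x : V.E c) :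
    shl V c t x = Zact V (t ⊗ₜ[k] 1 : bsSB T A' c) x := rfl

theorem shr_apply (c : Ch j) (b : (A'.A c)ᵐᵒᵖ) (x : V.E c) :
    shr V c b x = Zact V ((1 : T) ⊗ₜ[k] b : bsSB T A' c) x := rfl

theorem shl_shr (c : Ch j) (t : T) (b : (A'.A c)ᵐᵒᵖ) (x : V.E c) :
    shl V c t (shr V c b x) = Zact V (t ⊗ₜ[k] b : bsSB T A' c) x := by
  rw [shl_apply, shr_apply, ← Zact_mul, Algebra.TensorProduct.tmul_mul_tmul, mul_one, one_mul]

theorem shr_shl (c : Ch j) (t : T) (b : (A'.A c)ᵐᵒᵖ) (x : V.E c) :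
    shr V c b (shl V c t x) = Zact V (t ⊗ₜ[k] b : bsSB T A' c) x := by
  rw [shl_apply, shr_apply, ← Zact_mul, Algebra.TensorProduct.tmul_mul_tmul, mul_one, one_mul]

theorem sh_comm (c : Ch j) (t : T) (b : (A'.A c)ᵐᵒᵖ) (x : V.E c) :
    shl V c t (shr V c b x) = shr V c b (shl V c t x) := by
  rw [shl_shr, shr_shl]

theorem res_shl {c d : Ch j} (h : c ≤ d) (t : T) (x : V.E c) :
    V.res h (shl V c t x) = shl V d t (V.res h x) := by
  refine (res_Zact V h _ x).trans ?_
  rw [bsSr_tmul, MulOpposite.unop_one, map_one]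
  rfl

theorem res_shr {c d : Ch j} (h : c ≤ d) (b : (A'.A c)ᵐᵒᵖ) (x : V.E c) :
    V.res h (shr V c b x) = shr V d (MulOpposite.op (A'.res h b.unop)) (V.res h x) := by
  refine (res_Zact V h _ x).trans ?_
  rw [bsSr_tmul]
  rfl

theorem sh_surj {c d : Ch j} (h : c ≤ d) {g : j} (hg : g ∈ c.1) (l : j)
    (h2 : d.1 ⊆ insert l c.1) (y : V.E d) : ∃ (n : ℕ) (x : V.E c), V.res h x =
      shr V d (MulOpposite.op (algebraMap (RR k d.1) (A'.A d) (tt k l (h hg) ^ n))) y := by
  obtain ⟨n, x, hx⟩ := V.surj (p := c) (q := d) ⟨h, l, g, hg, h2, rfl⟩ y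
  refine ⟨n, x, hx.trans ?_⟩
  rw [shr_apply]
  change Zact V (bsSr T A' h _ ^ n) y = _
  rw [bsSr_tmul, Algebra.TensorProduct.tmul_pow, one_pow, MulOpposite.unop_op, A'.res_R, map_pow]
  rfl

theorem sh_inj {c d : Ch j} (h : c ≤ d) {g : j} (hg : g ∈ c.1) (l : j)
    (h2 : d.1 ⊆ insert l c.1) (x : V.E c) (hx : V.res h x = 0) : ∃ n : ℕ,
      shr V c (MulOpposite.op (algebraMap (RR k c.1) (A'.A c) (tt k l hg ^ n))) x = 0 := by
  obtain ⟨n, hn⟩ := V.inj (p := c) (q := d) ⟨h, l, g, hg, h2, rfl⟩ x hx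
  refine ⟨n, Eq.trans ?_ hn⟩
  rw [shr_apply]
  change _ = Zact V (_ ^ n) x
  rw [Algebra.TensorProduct.tmul_pow, one_pow, map_pow]
  rfl

end acts

end Pool.Agent.MP_6e5bed_ag_GG
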