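import Pool.Agent.Lib.MP_6e5bed_ag_GG.Defs

set_option autoImplicit false

/-!
# MP_6e5bed_ag, THEOREM G: constructions with sheaves over a site (text, section 2)
-/

noncomputable section

namespace Pool.Agent.MP_6e5bed_ag_GG

universe u

variable {k : Type u} [Field k] {S : Site k} {E F G : Sh S}

/-- the natural maps are compatible with the powers of a central element -/
theorem Site.pow_comm {p q : S.P} {t : S.B p} (h : S.Loc p q t) (n : ℕ) (b : S.B p) :
    t ^ n * b = b * t ^ n := by
  have h1 : Commute t b := S.comm h b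
  exact h1.pow_left n

theorem Sh.res_pow (E : Sh S) {p q : S.P} (h : p ≤ q) (t : S.B p) (n : ℕ) (x : E.E p) :
    E.res h (t ^ n • x) = S.r h t ^ n • E.res h x := by
  rw [E.res_smul, map_pow]

/-! ### Morphisms -/

namespace ShH

/-- a morphism is injective on all sections -/
def Inj (f : ShH E F) : Prop := ∀ p, Function.Injective (f.f p)

/-- a morphism is surjective on all sections -/
def Surj (f : ShH E F) : Prop := ∀ p, Function.Surjective (f.f p)

/-- an isomorphism -/
def Bij (f : ShH E F) : Prop := ∀ p, Function.Bijective (f.f p)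

/-- the identity -/
protected def id (E : Sh S) : ShH E E where
  f := fun _ => LinearMap.id
  nat := fun _ _ => rfl

/-- composition -/
def comp (g : ShH F G) (f : ShH E F) : ShH E G where
  f := fun p => g.f p ∘ₗ f.f p
  nat := fun {p q} h x => by
    change G.res h (g.f p (f.f p x)) = g.f q (f.f q (E.res h x))
    rw [g.nat, f.nat]

theorem id_bij (E : Sh S) : (ShH.id E).Bij := fun _ => Function.bijective_id

/-- the inverse of an isomorphism -/
def symm (f : ShH E F) (h : f.Bij) : ShH F E where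
  f := fun p => (LinearEquiv.ofBijective (f.f p) (h p)).symm
  nat := fun {p q} hp x => by
    refine (h q).1 ?_
    change f.f q (E.res hp _) = f.f q ((LinearEquiv.ofBijective (f.f q) (h q)).symm _)
    rw [← f.nat]
    have h1 : ∀ y : F.E p, f.f p ((LinearEquiv.ofBijective (f.f p) (h p)).symm y) = y :=
      fun y => (LinearEquiv.ofBijective (f.f p) (h p)).apply_symm_apply y
    have h2 : ∀ y : F.E q, f.f q ((LinearEquiv.ofBijective (f.f q) (h q)).symm y) = y :=
      fun y => (LinearEquiv.ofBijective (f.f q) (h q)).apply_symm_apply y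
    exact (congrArg (F.res hp) (h1 x)).trans (h2 _).symm

theorem symm_bij (f : ShH E F) (h : f.Bij) : (f.symm h).Bij :=
  fun p => (LinearEquiv.ofBijective (f.f p) (h p)).symm.bijective

/-- the kernel -/
def ker (f : ShH E F) : Sub E where
  N := fun p => LinearMap.ker (f.f p)
  mono := fun {p q} h x hx => by
    rw [LinearMap.mem_ker] at hx ⊢
    rw [← f.nat, hx, map_zero]
  sat := fun {p q t} h x hx => by
    rw [LinearMap.mem_ker, ← f.nat] at hx
    obtain ⟨n, hn⟩ := F.inj h _ hx
    refine ⟨n, ?_⟩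
    rw [LinearMap.mem_ker, map_smul, hn]

theorem mem_ker {f : ShH E F} {p : S.P} {x : E.E p} : x ∈ f.ker.N p ↔ f.f p x = 0 :=
  LinearMap.mem_ker

/-- the image -/
def range (f : ShH E F) : Sub F where
  N := fun p => LinearMap.range (f.f p)
  mono := fun {p q} h x hx => by
    obtain ⟨y, rfl⟩ := hx
    exact ⟨E.res h y, (f.nat h y).symm⟩
  sat := fun {p q t} h x hx => by
    obtain ⟨y, hy⟩ := hx
    obtain ⟨n, z, hz⟩ := E.surj h y
    have h1 : F.res (S.le h) (t ^ n • x - f.f p z) = 0 := by
      rw [map_sub, F.res_pow, ← hy, f.nat, hz, map_smul, sub_self]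
    obtain ⟨m, hm⟩ := F.inj h _ h1
    refine ⟨m + n, t ^ m • z, ?_⟩
    rw [smul_sub, sub_eq_zero] at hm
    rw [map_smul, ← hm, pow_add, mul_smul]

theorem mem_range {f : ShH E F} {p : S.P} {x : F.E p} :
    x ∈ f.range.N p ↔ ∃ y, f.f p y = x := LinearMap.mem_range

end ShH

/-! ### Subsheaves -/

namespace Sub

/-- the inclusion of a subsheaf -/
def incl (N : Sub E) : ShH N.sh E where
  f := fun p => (N.N p).subtype
  nat := fun _ _ => rfl

/-- the projection to the quotient -/
def proj (N : Sub E) : ShH E N.quot where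
  f := fun p => (N.N p).mkQ
  nat := fun _ _ => rfl

theorem incl_inj (N : Sub E) : N.incl.Inj := fun p => (N.N p).injective_subtype

theorem proj_surj (N : Sub E) : N.proj.Surj := fun p => (N.N p).mkQ_surjective

theorem proj_eq_zero (N : Sub E) {p : S.P} {x : E.E p} : N.proj.f p x = 0 ↔ x ∈ N.N p := by
  change (N.N p).mkQ x = 0 ↔ _
  rw [Submodule.mkQ_apply, Submodule.Quotient.mk_eq_zero]

/-- the inverse image of a subsheaf -/
def comap (f : ShH E F) (N : Sub F) : Sub E where
  N := fun p => (N.N p).comap (f.f p)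
  mono := fun {p q} h x hx => by
    rw [Submodule.mem_comap] at hx ⊢
    rw [← f.nat]
    exact N.mono h hx
  sat := fun {p q t} h x hx => by
    rw [Submodule.mem_comap, ← f.nat] at hx
    obtain ⟨n, hn⟩ := N.sat h hx
    refine ⟨n, ?_⟩
    rw [Submodule.mem_comap, map_smul]
    exact hn

theorem mem_comap {f : ShH E F} {N : Sub F} {p : S.P} {x : E.E p} :
    x ∈ (comap f N).N p ↔ f.f p x ∈ N.N p := Iff.rfl

/-- the intersection of two subsheaves -/
def inf (N N' : Sub E) : Sub E where
  N := fun p => N.N p ⊓ N'.N p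
  mono := fun h _ hx => ⟨N.mono h hx.1, N'.mono h hx.2⟩
  sat := fun {p q t} h x hx => by
    obtain ⟨n, hn⟩ := N.sat h hx.1
    obtain ⟨m, hm⟩ := N'.sat h hx.2
    refine ⟨m + n, ?_, ?_⟩
    · rw [pow_add, mul_smul]
      exact (N.N p).smul_mem _ hn
    · rw [pow_add, S.pow_comm h, mul_smul]
      exact (N'.N p).smul_mem _ hm

theorem mem_inf {N N' : Sub E} {p : S.P} {x : E.E p} :
    x ∈ (inf N N').N p ↔ x ∈ N.N p ∧ x ∈ N'.N p := Iff.rfl

/-- `N'` as a subsheaf of `N` (the part which is contained in `N`) -/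
def restr (N N' : Sub E) : Sub N.sh := comap N.incl N'

theorem mem_restr {N N' : Sub E} {p : S.P} {x : N.sh.E p} :
    x ∈ (restr N N').N p ↔ N.incl.f p x ∈ N'.N p := Iff.rfl

/-- the zero subsheaf -/
def bot (E : Sh S) : Sub E where
  N := fun _ => ⊥
  mono := fun {p q} h x hx => by
    rw [Submodule.mem_bot] at hx ⊢
    rw [hx, map_zero]
  sat := fun {p q t} h x hx => by
    obtain ⟨n, hn⟩ := E.inj h x ((Submodule.mem_bot _).1 hx)
    exact ⟨n, (Submodule.mem_bot _).2 hn⟩

/-- the whole sheaf as a subsheaf -/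
def top (E : Sh S) : Sub E where
  N := fun _ => ⊤
  mono := fun _ _ _ => Submodule.mem_top
  sat := fun _ _ _ => ⟨0, Submodule.mem_top⟩

end Sub

/-- A morphism to a sheaf with values in a subsheaf. -/
def ShH.codRestr (f : ShH E F) (N : Sub F) (h : ∀ p x, f.f p x ∈ N.N p) : ShH E N.sh where
  f := fun p => (f.f p).codRestrict (N.N p) (h p)
  nat := fun {_ _} hp x => Subtype.ext (f.nat hp x)

/-- A morphism from a quotient. -/
def ShH.desc (f : ShH E F) (N : Sub E) (h : ∀ p, ∀ x ∈ N.N p, f.f p x = 0) :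
    ShH N.quot F where
  f := fun p => (N.N p).liftQ (f.f p) (fun x hx => LinearMap.mem_ker.2 (h p x hx))
  nat := fun {p q} hp x => by
    obtain ⟨x, rfl⟩ := (N.N p).mkQ_surjective x
    exact f.nat hp x

/-- `E / ker f = range f` -/
def ShH.quotKer (f : ShH E F) : ShH f.ker.quot f.range.sh :=
  (f.codRestr f.range (fun _ x => ⟨x, rfl⟩)).desc f.ker
    (fun _ _ hx => Subtype.ext (ShH.mem_ker.1 hx))

theorem ShH.quotKer_bij (f : ShH E F) : f.quotKer.Bij := by
  intro p
  constructor
  · intro x y hxy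
    obtain ⟨x, rfl⟩ := (f.ker.N p).mkQ_surjective x
    obtain ⟨y, rfl⟩ := (f.ker.N p).mkQ_surjective y
    have h1 : f.f p x = f.f p y := congrArg Subtype.val hxy
    have h2 : x - y ∈ f.ker.N p := by
      rw [ShH.mem_ker, map_sub, h1, sub_self]
    exact (Submodule.Quotient.eq (f.ker.N p)).2 h2
  · rintro ⟨_, y, rfl⟩
    exact ⟨(f.ker.N p).mkQ y, rfl⟩

/-- `(N ∩ N')` as a subsheaf of `N` and as a subsheaf of `E` -/
def Sub.infIso (N N' : Sub E) : ShH (Sub.restr N N').sh (Sub.inf N N').sh :=
  (N.incl.comp (Sub.restr N N').incl).codRestr (Sub.inf N N')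
    (fun _ x => ⟨x.1.2, x.2⟩)

theorem Sub.infIso_bij (N N' : Sub E) : (Sub.infIso N N').Bij := by
  intro p
  constructor
  · intro x y hxy
    exact Subtype.ext (Subtype.ext (congrArg (fun z : (Sub.inf N N').sh.E p => z.1) hxy))
  · rintro ⟨x, h1, h2⟩
    exact ⟨⟨⟨x, h1⟩, h2⟩, rfl⟩

/-- `N ∩ N' = N' ∩ N` -/
def Sub.infComm (N N' : Sub E) : ShH (Sub.inf N N').sh (Sub.inf N' N).sh :=
  (Sub.inf N N').incl.codRestr (Sub.inf N' N) (fun _ x => ⟨x.2.2, x.2.1⟩)

theorem Sub.infComm_bij (N N' : Sub E) : (Sub.infComm N N').Bij := by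
  intro p
  constructor
  · intro x y hxy
    exact Subtype.ext (congrArg (fun z : (Sub.inf N' N).sh.E p => z.1) hxy)
  · rintro ⟨x, h1, h2⟩
    exact ⟨⟨x, h2, h1⟩, rfl⟩

/-! ### Powers -/

/-- The direct sum of `n` copies of a sheaf. -/
def Sh.pow (n : ℕ) (E : Sh S) : Sh S where
  E := fun p => Fin n → E.E p
  res := fun {p q} h => LinearMap.pi (fun i => E.res h ∘ₗ LinearMap.proj i)
  res_smul := fun h b x => funext fun i => E.res_smul h b (x i)
  res_id := fun h x => funext fun i => E.res_id h (x i)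
  res_res := fun h h' x => funext fun i => E.res_res h h' (x i)
  surj := fun {p q t} h y => by
    choose m z hz using fun i : Fin n => E.surj h (y i)
    refine ⟨∑ i, m i, fun i : Fin n => (t ^ (∑ j, m j - m i) • z i : E.E p),
      funext fun i => ?_⟩
    change E.res (S.le h) (t ^ (∑ j, m j - m i) • z i) = S.r (S.le h) t ^ (∑ j, m j) • y i
    rw [E.res_pow, hz, ← mul_smul, ← pow_add,
      Nat.sub_add_cancel (Finset.single_le_sum (fun _ _ => Nat.zero_le _) (Finset.mem_univ i))]
  inj := fun {p q t} h x hx => by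
    choose m hm using fun i : Fin n => E.inj h (x i) (congrFun hx i)
    refine ⟨∑ i, m i, funext fun i => ?_⟩
    change t ^ (∑ j, m j) • x i = 0
    have h1 : ∑ j, m j = (∑ j, m j - m i) + m i :=
      (Nat.sub_add_cancel (Finset.single_le_sum (fun _ _ => Nat.zero_le _)
        (Finset.mem_univ i))).symm
    rw [h1, pow_add, mul_smul, hm, smul_zero]

/-- The powers of a morphism. -/
def ShH.pow (n : ℕ) (f : ShH E F) : ShH (E.pow n) (F.pow n) where
  f := fun p => LinearMap.pi (fun i => f.f p ∘ₗ LinearMap.proj i)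
  nat := fun {_ _} h x => funext fun i => f.nat h (x i)

theorem ShH.pow_apply (n : ℕ) (f : ShH E F) {p : S.P} (x : (E.pow n).E p) (i : Fin n) :
    ((f.pow n).f p x : Fin n → F.E p) i = f.f p (x i) := rfl

/-! ### Coherence -/

/-- all algebras of the site are left Noetherian -/
def Site.Noe (S : Site k) : Prop := ∀ p, IsNoetherianRing (S.B p)

theorem Sh.Coh.sub (hS : S.Noe) (h : E.Coh) (N : Sub E) : N.sh.Coh := by
  intro p
  have := hS p
  have := h p
  exact (inferInstance : Module.Finite (S.B p) (N.N p))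

theorem Sh.Coh.quot (h : E.Coh) (N : Sub E) : N.quot.Coh := by
  intro p
  have := h p
  exact (inferInstance : Module.Finite (S.B p) (E.E p ⧸ N.N p))

theorem Sh.Coh.of_surj (h : E.Coh) (f : ShH E F) (hf : f.Surj) : F.Coh := by
  intro p
  have := h p
  exact Module.Finite.of_surjective (f.f p) (hf p)

theorem Sh.Coh.of_inj (hS : S.Noe) (h : F.Coh) (f : ShH E F) (hf : f.Inj) : E.Coh := by
  intro p
  have := hS p
  have := h p
  exact Module.Finite.of_injective (f.f p) (hf p)

theorem Sh.Coh.pow (h : E.Coh) (n : ℕ) : (E.pow n).Coh := by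
  intro p
  have := h p
  exact (inferInstance : Module.Finite (S.B p) (Fin n → E.E p))

/-! ### Additive functions -/

/-- A class of coherent sheaves which is closed under subsheaves and quotients. -/
structure SCls (C : Sh S → Prop) : Prop where
  coh : ∀ E, C E → E.Coh
  sub : ∀ E, C E → ∀ N : Sub E, C N.sh
  quot : ∀ E, C E → ∀ N : Sub E, C N.quot
  iso : ∀ (E F : Sh S) (f : ShH E F), f.Bij → C E → C F
  pow : ∀ E, C E → ∀ n, C (E.pow n)

/-- the coherent sheaves -/
theorem scls_coh (hS : S.Noe) : SCls (S := S) Sh.Coh where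
  coh := fun _ h => h
  sub := fun _ h N => h.sub hS N
  quot := fun _ h N => h.quot N
  iso := fun _ _ f hf h => h.of_surj f (fun p => (hf p).2)
  pow := fun _ h n => h.pow n

/-- An additive function on a class of sheaves. -/
structure AddFn (C : Sh S → Prop) (V : Type*) [AddCommGroup V] where
  cl : Sh S → V
  iso : ∀ (E F : Sh S) (f : ShH E F), f.Bij → C E → cl E = cl F
  add : ∀ E, C E → ∀ N : Sub E, cl E = cl N.sh + cl N.quot

namespace AddFn

variable {C : Sh S → Prop} {V : Type*} [AddCommGroup V] (cl : AddFn C V)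

include cl in
/-- the class of a zero sheaf -/
theorem zero (hC : SCls C) (hE : C E) (h : ∀ p, Subsingleton (E.E p)) : cl.cl E = 0 := by
  have h1 := cl.add E hE (Sub.top E)
  have h2 : cl.cl (Sub.top E).sh = cl.cl E := by
    refine cl.iso _ _ (Sub.top E).incl (fun p => ⟨Sub.incl_inj _ p, fun x => ?_⟩)
      (hC.sub E hE _)
    exact ⟨⟨x, Submodule.mem_top⟩, rfl⟩
  have h3 : cl.cl (Sub.top E).quot = cl.cl E := by
    refine (cl.iso _ _ (Sub.top E).proj (fun p => ⟨fun x y _ => ?_, Sub.proj_surj _ p⟩)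
      hE).symm
    exact (h p).elim x y
  rw [h2, h3] at h1
  have h4 : cl.cl E + 0 = cl.cl E + cl.cl E := by
    rw [add_zero]
    exact h1
  exact (add_left_cancel h4).symm

include cl in
/-- additivity for short exact sequences -/
theorem ses (hC : SCls C) {E' : Sh S} (hE : C E) (f : ShH E' E) (g : ShH E F) (hf : f.Inj)
    (hg : g.Surj) (h : ∀ p x, g.f p x = 0 ↔ ∃ y, f.f p y = x) :
    cl.cl E = cl.cl E' + cl.cl F := by
  have h1 := cl.add E hE g.ker
  have h2 : cl.cl g.ker.sh = cl.cl E' := by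
    let φ : ShH E' g.ker.sh := f.codRestr g.ker (fun p x => ShH.mem_ker.2 ((h p _).2 ⟨x, rfl⟩))
    have hφ : φ.Bij := by
      intro p
      constructor
      · intro x y hxy
        exact hf p (congrArg (fun z : g.ker.sh.E p => z.1) hxy)
      · rintro ⟨x, hx⟩
        obtain ⟨y, hy⟩ := (h p x).1 (ShH.mem_ker.1 hx)
        exact ⟨y, Subtype.ext hy⟩
    exact cl.iso _ _ (φ.symm hφ) (φ.symm_bij hφ) (hC.sub E hE _)
  have h3 : cl.cl g.ker.quot = cl.cl F := by
    have h4 := cl.iso _ _ g.quotKer g.quotKer_bij (hC.quot E hE _)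
    rw [h4]
    refine cl.iso _ _ g.range.incl (fun p => ⟨Sub.incl_inj _ p, fun x => ?_⟩)
      (hC.iso _ _ _ g.quotKer_bij (hC.quot E hE _))
    obtain ⟨y, hy⟩ := hg p x
    exact ⟨⟨x, y, hy⟩, rfl⟩
  rw [h1, h2, h3]

include cl in
/-- the class of a power -/
theorem pow (hC : SCls C) (hE : C E) : ∀ n : ℕ, cl.cl (E.pow n) = n • cl.cl E
  | 0 => by
    rw [zero_smul]
    exact cl.zero hC (hC.pow E hE 0) (fun p =>
      (inferInstance : Subsingleton (Fin 0 → E.E p)))
  | n + 1 => by
    let f : ShH E (E.pow (n + 1)) :=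
      { f := fun p => LinearMap.pi (Fin.cons LinearMap.id (fun _ => 0))
        nat := fun {p q} h x => by
          refine funext fun i => ?_
          refine Fin.cases ?_ (fun i => ?_) i
          · rfl
          · change E.res h 0 = 0
            exact map_zero _ }
    let g : ShH (E.pow (n + 1)) (E.pow n) :=
      { f := fun p => LinearMap.pi (fun i => LinearMap.proj i.succ)
        nat := fun _ _ => rfl }
    have h1 := cl.ses hC (hC.pow E hE (n + 1)) f g ?_ ?_ ?_
    · rw [h1, pow hC hE n, succ_nsmul, add_comm]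
    · intro p x y hxy
      exact congrFun hxy 0
    · intro p x
      exact ⟨Fin.cons 0 x, funext fun i => rfl⟩
    · intro p x
      constructor
      · intro hx
        refine ⟨x 0, funext fun i => ?_⟩
        refine Fin.cases ?_ (fun i => ?_) i
        · rfl
        · exact (congrFun hx i).symm
      · rintro ⟨y, rfl⟩
        exact funext fun i => rfl

end AddFn

end Pool.Agent.MP_6e5bed_ag_GG
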