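import Pool.Agent.Lib.MP_6e5bed_ag_GG.Cmp
import Pool.Agent.Lib.MP_6e5bed_ag_GG.ShA

set_option autoImplicit false
set_option linter.unusedVariables false

/-!
# MP_6e5bed_ag, THEOREM G, section 5: maps of cohomology bisheaves
-/

noncomputable section

namespace Pool.Agent.MP_6e5bed_ag_GG

open Pool.Agent.MP_6e5bed_ag_NC Pool.Agent.MP_6e5bed_ag_PN
open Pool.Agent.MP_6e5bed_ag_NS (Cx CHom ringH)
open scoped TensorProduct

universe u

variable {k : Type u} [Field k]

theorem gmap_bact {R R' : Type u} [Ring R] [Algebra k R] [Ring R'] [Algebra k R']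
    {X Y : Bim (MP_6e5bed_ag_NC.ring k R) (MP_6e5bed_ag_NC.ring k R')} (f : GMap 0 X Y)
    (b : R ⊗[k] R'ᵐᵒᵖ) (x : X.M) : f.f (bact X b x) = bact Y b (f.f x) := by
  induction b using TensorProduct.induction_on with
  | zero => simp only [map_zero, LinearMap.zero_apply]
  | tmul a b =>
    rw [bact_tmul, bact_tmul]
    refine (f.map_l a _).trans ?_
    rw [Dg.sp_zero]
    exact congrArg (Y.l a) (f.map_r b.unop x)
  | add a b ha hb => simp only [map_add, LinearMap.add_apply, ha, hb]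

variable {i j : Type} [Fintype i] [Fintype j] {A : CA k i} {A' : CA k j}

/-- the action of `A_c ⊗ A'_{c'}ᵒᵖ` on a bisheaf -/
theorem Sh.bact_bp (E : BS A A') {p : Ch i × Ch j} (t : A.A p.1 ⊗[k] (A'.A p.2)ᵐᵒᵖ)
    (x : E.E p) : bact (E.bp.F p) t x = t • x := by
  induction t using TensorProduct.induction_on with
  | zero =>
    have h0 : (0 : A.A p.1 ⊗[k] (A'.A p.2)ᵐᵒᵖ) = (0 : A.A p.1) ⊗ₜ[k] (1 : (A'.A p.2)ᵐᵒᵖ) :=
      (TensorProduct.zero_tmul _ _).symm
    rw [h0, tmul_smul_eq]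
    rfl
  | tmul a b => exact (tmul_smul_eq a b x).symm
  | add a b ha hb =>
    rw [map_add, add_smul, LinearMap.add_apply, ha, hb]
    rfl

/-- a morphism on the charts, as a morphism of complexes -/
def BPH.ch {F G : BPB A A'} (φ : BPH F G) (p : Ch i × Ch j) :
    CHom (bcx (F.F p)) (bcx (G.F p)) where
  f := (φ.f p).f
  deg := fun {n x} hx => by
    have h1 := (φ.f p).deg hx
    rwa [add_zero] at h1
  d := fun x => GMap.d_f_zero (φ.dd p) x

/-- The map of the cohomology bisheaves. -/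
def BPH.H {F G : BPB A A'} (φ : BPH F G) (hF : F.QC) (hG : G.QC) (n : ℤ) :
    ShH (F.H hF n) (G.H hG n) where
  f := fun p =>
    { toFun := (F.ca p).map (G.ca p) (φ.ch p) n
      map_add' := map_add _
      map_smul' := fun b x => by
        obtain ⟨x, h1, h2, rfl⟩ := (F.ca p).cl_surj x
        exact (G.ca p).cl_ext (h1 := (φ.ch p).deg ((F.ca p).deg b h1))
          (h2 := chom_cyc _ ((F.ca p).cyc b h2)) (h3 := (G.ca p).deg _ ((φ.ch p).deg h1))
          (h4 := (G.ca p).cyc _ (chom_cyc _ h2)) (gmap_bact (φ.f p) b x) }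
  nat := fun {p q} h x => by
    obtain ⟨x, h1, h2, rfl⟩ := (F.ca p).cl_surj x
    exact (G.ca q).cl_ext (h1 := (G.rho h).deg ((φ.ch p).deg h1))
      (h2 := chom_cyc _ (chom_cyc _ h2)) (h3 := (φ.ch q).deg ((F.rho h).deg h1))
      (h4 := chom_cyc _ (chom_cyc _ h2)) (φ.nat h x)

theorem BPH.H_cl {F G : BPB A A'} (φ : BPH F G) (hF : F.QC) (hG : G.QC) (n : ℤ)
    {p : Ch i × Ch j} {x : (F.F p).M} (h1 : (F.F p).dg.IsDeg n x) (h2 : (F.F p).dg.d x = 0) :
    (φ.H hF hG n).f p (F.cl hF n x h1 h2) =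
      G.cl hG n ((φ.f p).f x) ((φ.ch p).deg h1) (chom_cyc (φ.ch p) h2) := rfl

/-- A morphism to a bisheaf in degree zero, on the cohomology of degree zero. -/
def BPH.toH0 {F : BPB A A'} {E : BS A A'} (φ : BPH F E.bp) (hF : F.QC) :
    ShH (F.H hF 0) E where
  f := fun p => Submodule.liftQ ((F.ca p).B.comap ((F.ca p).Z 0).subtype)
    ({ toFun := fun x => (φ.f p).f x.1
       map_add' := fun x y => map_add (φ.f p).f x.1 y.1
       map_smul' := fun b x => (gmap_bact (φ.f p) b x.1).trans (E.bact_bp b _) } :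
      (F.ca p).Z 0 →ₗ[bsB A A' p] E.E p)
    (fun x hx => by
      obtain ⟨y, hy⟩ := hx
      change (φ.f p).f x.1 = 0
      have h1 : (φ.f p).f x.1 = (φ.f p).f ((F.F p).dg.d y) := congrArg (φ.f p).f hy.symm
      rw [h1, ← GMap.d_f_zero (φ.dd p)]
      rfl)
  nat := fun {p q} h x => by
    obtain ⟨x, h1, h2, rfl⟩ := (F.ca p).cl_surj x
    exact φ.nat h x

theorem BPH.toH0_cl {F : BPB A A'} {E : BS A A'} (φ : BPH F E.bp) (hF : F.QC)
    {p : Ch i × Ch j} {x : (F.F p).M} (h1 : (F.F p).dg.IsDeg 0 x) (h2 : (F.F p).dg.d x = 0) :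
    (φ.toH0 hF).f p (F.cl hF 0 x h1 h2) = (φ.f p).f x := rfl

end Pool.Agent.MP_6e5bed_ag_GG
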