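import Pool.Agent.Lib.MP_6e5bed_ag_GG.GC

set_option autoImplicit false
set_option linter.unusedSectionVars false
set_option linter.unusedVariables false

/-!
# MP_6e5bed_ag, THEOREM G: existence of the generic data of a reduced bisheaf (text, (7.4))
-/

noncomputable section

namespace Pool.Agent.MP_6e5bed_ag_GG

open scoped TensorProduct

universe u

variable {k : Type u} [Field k] {i j : Type} [Fintype i] [Fintype j] {A : CA k i} {A' : CA k j}
  {E : BS A A'} {m : Ch i}

/-- The functions `x_l / x_g`, `l ∉ m`, are in the annihilator of a reduced bisheaf. -/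
theorem Red.tt_mem (hR : Red E m) {g : i} (hg : g ∈ m.1) (l : i) (hl : l ∉ m.1) :
    algebraMap (RR k m.1) (A.A m) (tt k l hg) ∈ ann E m := by
  by_contra hcon
  refine hR.one fun c' e => ?_
  have hd : m ≤ m.sup (Ch.sgl l) := Ch.le_supL _ _
  have hL : (bs A A').Loc (m, c') (m.sup (Ch.sgl l), c') (cl1 A A' (m, c') (tt k l hg)) :=
    ⟨⟨hd, le_rfl⟩, Or.inl ⟨l, g, hg, by
      change m.1 ∪ {l} ⊆ insert l m.1
      rw [Set.union_singleton], le_rfl, rfl⟩⟩
  obtain ⟨n, hn⟩ := E.inj hL e (hR.z _ c' (fun h => hl (h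
    (Set.mem_union_right m.1 (Set.mem_singleton l)))) _)
  have key : ∀ (n : ℕ) (x : E.E (m, c')), cl1 A A' (m, c') (tt k l hg) ^ n • x = 0 → x = 0 := by
    intro n
    induction n with
    | zero =>
      intro x hx
      rwa [pow_zero, one_smul] at hx
    | succ n ih =>
      intro x hx
      rw [pow_succ, mul_smul] at hx
      exact hR.tf _ hcon c' x (ih _ hx)
  rw [key n e hn, smul_zero]

section

variable (hR : Red E m)

/-- the functions which are inverted -/
abbrev Red.sg (hR : Red E m) : Submonoid (RR k m.1) :=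
  Pool.Agent.MP_6e5bed_ag_GG.sg E m hR.one hR.pr

theorem Red.ι_zero {c' : Ch j} {x : Sec E m c'} (h : LV.ι E m hR.sg c' x = 0) : x = 0 := by
  obtain ⟨s, hs, hx⟩ := LV.ι_zero.1 h
  exact hR.tf s hs c' x hx

theorem Red.psi_zero (a : A.A m) : LS.psi E m hR.sg a = 0 ↔ a ∈ ann E m := by
  constructor
  · intro h c' x
    refine hR.ι_zero ?_
    have h1 : LV.act E m hR.sg c' (lo A A' (m, c') a) (LV.ι E m hR.sg c' x) = 0 := by
      rw [← LS.psi_apply, h]
      rfl
    rw [LV.act_ι] at h1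
    exact h1
  · intro h
    refine Subtype.ext (funext fun c' => LinearMap.ext fun v => ?_)
    rw [LS.psi_apply]
    obtain ⟨s, hs, x, hx⟩ := LV.surj v
    refine LV.inj hs ?_
    rw [← map_smul, hx, LV.act_ι]
    have h1 : bend E m c' (lo A A' (m, c') a) x = 0 := h c' x
    rw [h1, map_zero]
    exact (smul_zero s).symm

/-- division by a function -/
def Red.inv {s : RR k m.1} (hs : s ∈ hR.sg) : LS E m hR.sg :=
  ⟨fun c' => (LinearEquiv.ofBijective (LinearMap.lsmul (RR k m.1) (LV E m hR.sg c') s)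
    ⟨fun v w h => LV.inj hs h, fun v => LV.div hs v⟩).symm.toLinearMap,
    s, hs, 1, fun c' v => by
      rw [map_one, map_one]
      exact (LinearEquiv.ofBijective (LinearMap.lsmul (RR k m.1) (LV E m hR.sg c') s)
        ⟨fun v w h => LV.inj hs h, fun v => LV.div hs v⟩).apply_symm_apply v⟩

theorem Red.inv_apply {s : RR k m.1} (hs : s ∈ hR.sg) (c' : Ch j) (v : LV E m hR.sg c') :
    s • (hR.inv hs).1 c' v = v :=
  (LinearEquiv.ofBijective (LinearMap.lsmul (RR k m.1) (LV E m hR.sg c') s)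
    ⟨fun v w h => LV.inj hs h, fun v => LV.div hs v⟩).apply_symm_apply v

theorem Red.fn_unit {s : RR k m.1} (hs : s ∈ hR.sg) :
    IsUnit (LS.psi E m hR.sg (algebraMap _ _ s)) := by
  refine ⟨⟨_, hR.inv hs, ?_, ?_⟩, rfl⟩
  · refine Subtype.ext (funext fun c' => LinearMap.ext fun v => ?_)
    change (LS.psi E m hR.sg (algebraMap _ _ s)).1 c' ((hR.inv hs).1 c' v) = v
    rw [LS.fn_apply, hR.inv_apply]
  · refine Subtype.ext (funext fun c' => LinearMap.ext fun v => ?_)
    change (hR.inv hs).1 c' ((LS.psi E m hR.sg (algebraMap _ _ s)).1 c' v) = v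
    rw [LS.fn_apply]
    refine LV.inj hs ?_
    rw [hR.inv_apply]

theorem Red.exists_frac (φ : LS E m hR.sg) : ∃ s ∈ hR.sg, ∃ a,
    LS.psi E m hR.sg a = LS.psi E m hR.sg (algebraMap _ _ s) * φ := by
  obtain ⟨s, hs, a, h⟩ := φ.2
  refine ⟨s, hs, a, Subtype.ext (funext fun c' => LinearMap.ext fun v => ?_)⟩
  change (LS.psi E m hR.sg a).1 c' v = (LS.psi E m hR.sg (algebraMap _ _ s)).1 c' (φ.1 c' v)
  rw [LS.fn_apply, h]
  rfl

theorem Red.mem_sg {s : RR k m.1} : s ∈ hR.sg ↔ algebraMap _ (A.A m) s ∉ ann E m := Iff.rfl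

/-- THE GENERIC DATA of a reduced bisheaf. -/
def Red.gd : GD A m where
  S := LS E m hR.sg
  psi := LS.psi E m hR.sg
  zero := fun {g} hg l hl => (hR.psi_zero _).2 (hR.tt_mem hg l hl)
  unit := fun f hf => hR.fn_unit (fun h => hf ((hR.psi_zero _).2 h))
  surj := fun φ => by
    obtain ⟨s, hs, a, h⟩ := hR.exists_frac φ
    exact ⟨s, fun h0 => hs ((hR.psi_zero _).1 h0), a, h⟩
  pr := fun x y hxy => by
    obtain ⟨s, hs, a, ha⟩ := hR.exists_frac x
    obtain ⟨s', hs', a', ha'⟩ := hR.exists_frac y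
    have hc : ∀ (f : RR k m.1) (b : A.A m), LS.psi E m hR.sg b *
        LS.psi E m hR.sg (algebraMap _ _ f) =
        LS.psi E m hR.sg (algebraMap _ _ f) * LS.psi E m hR.sg b := fun f b => by
      rw [← map_mul, ← map_mul, Algebra.commutes]
    have h1 : ∀ b, a * b * a' ∈ ann E m := fun b => by
      rw [← hR.psi_zero, map_mul, map_mul, ha, ha']
      have h2 : LS.psi E m hR.sg (algebraMap _ _ s) * x * LS.psi E m hR.sg b *
          (LS.psi E m hR.sg (algebraMap _ _ s') * y) =
          LS.psi E m hR.sg (algebraMap _ _ s) * (x * (LS.psi E m hR.sg b *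
            LS.psi E m hR.sg (algebraMap _ _ s')) * y) := by
        simp only [mul_assoc]
      rw [h2, hxy, mul_zero]
    rcases hR.pr a a' h1 with h2 | h2
    · left
      rw [← hR.psi_zero, ha] at h2
      exact (hR.fn_unit hs).mul_right_eq_zero.1 h2
    · right
      rw [← hR.psi_zero, ha'] at h2
      exact (hR.fn_unit hs').mul_right_eq_zero.1 h2
  ne := fun h => hR.one ((hR.psi_zero 1).1 (by rw [map_one]; exact h))

theorem Red.gd_psi (a : A.A m) : hR.gd.psi a = 0 ↔ a ∈ ann E m := hR.psi_zero a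

theorem Red.gd_fn (f : RR k m.1) : hR.gd.fn f ≠ 0 ↔ algebraMap _ (A.A m) f ∉ ann E m :=
  not_congr (hR.psi_zero _)

/-! ### The generic fibre -/

/-- the action as a homomorphism of algebras -/
def LV.actA (E : BS A A') (m : Ch i) (Sg : Submonoid (RR k m.1)) (c' : Ch j) :
    (bs A A').B (m, c') →ₐ[k] Module.End (RR k m.1) (LV E m Sg c') :=
  { LV.act E m Sg c' with
    commutes' := fun c => LinearMap.ext fun v => by
      refine (LV.act_algebraMap c v).trans ?_
      rfl }

/-- the action of `S ⊗ A'_{c'}ᵒᵖ` on the localised sections -/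
def vS (E : BS A A') (m : Ch i) (Sg : Submonoid (RR k m.1)) (c' : Ch j) :
    bsSB (LS E m Sg) A' c' →ₐ[k] Module.End (RR k m.1) (LV E m Sg c') :=
  Algebra.TensorProduct.lift
    ((Pi.evalAlgHom k (fun c' : Ch j => Module.End (RR k m.1) (LV E m Sg c')) c').comp
      (LS E m Sg).val)
    ((LV.actA E m Sg c').comp (ro A A' (m, c')))
    (fun φ b => LinearMap.ext fun v => LS.comm φ b v)

theorem vS_tmul (Sg : Submonoid (RR k m.1)) (c' : Ch j) (φ : LS E m Sg)
    (b : (A'.A c')ᵐᵒᵖ) (v : LV E m Sg c') :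
    vS E m Sg c' (φ ⊗ₜ[k] b) v = φ.1 c' (LV.act E m Sg c' (ro A A' (m, c') b) v) := by
  unfold vS
  rw [Algebra.TensorProduct.lift_tmul]
  rfl

instance (Sg : Submonoid (RR k m.1)) (c' : Ch j) :
    Module (bsSB (LS E m Sg) A' c') (LV E m Sg c') :=
  Module.compHom _ (vS E m Sg c').toRingHom

theorem vS_smul (Sg : Submonoid (RR k m.1)) (c' : Ch j) (b : bsSB (LS E m Sg) A' c')
    (v : LV E m Sg c') : b • v = vS E m Sg c' b v := rfl

instance (Sg : Submonoid (RR k m.1)) (c' : Ch j) :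
    IsScalarTower k (bsSB (LS E m Sg) A' c') (LV E m Sg c') :=
  ⟨fun c b v => by
    rw [vS_smul, vS_smul, map_smul]
    rfl⟩

/-- the generic fibre as a sheaf -/
def LVs (Sg : Submonoid (RR k m.1)) : Sh (bsS (LS E m Sg) A') where
  E := LV E m Sg
  mod := fun c' => inferInstanceAs (Module (bsSB (LS E m Sg) A' c') (LV E m Sg c'))
  tow := fun c' => inferInstanceAs (IsScalarTower k (bsSB (LS E m Sg) A' c') (LV E m Sg c'))
  res := fun {c' d'} h => (LV.r E m Sg h).restrictScalars k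
  res_smul := fun {c' d'} h b v => by
    change LV.r E m Sg h (vS E m Sg c' b v) =
      vS E m Sg d' (bsSr (LS E m Sg) A' h b) (LV.r E m Sg h v)
    induction b using TensorProduct.induction_on with
    | zero =>
      rw [map_zero, map_zero, map_zero]
      exact map_zero _
    | tmul φ b =>
      rw [vS_tmul, bsSr_tmul, vS_tmul, LS.nat, LV.r_act, ro_r]
    | add b b' hb hb' =>
      rw [map_add, map_add, map_add, LinearMap.add_apply, map_add, hb, hb', LinearMap.add_apply]
  res_id := fun h x => LV.r_id h x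
  res_res := fun h h' x => LV.r_r h h' x
  surj := fun {c' d' t} h y => by
    obtain ⟨h0, l, g, hg, h2, rfl⟩ := h
    obtain ⟨s, hs, x, hx⟩ := LV.surj y
    have hL : (bs A A').Loc (m, c') (m, d') (ro A A' (m, c')
        (MulOpposite.op (algebraMap (RR k c'.1) (A'.A c') (tt k l hg)))) :=
      ⟨⟨le_rfl, h0⟩, Or.inr ⟨l, g, hg, h2, le_rfl, rfl⟩⟩
    obtain ⟨n, x', hx'⟩ := E.surj hL x
    obtain ⟨w, hw⟩ := LV.div hs (LV.ι E m Sg c' x')
    refine ⟨n, w, LV.inj hs ?_⟩
    have h3 : s • LV.r E m Sg h0 w = LV.ι E m Sg d' (rend E m h0 x') := by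
      rw [← map_smul, hw, LV.r_ι]
    refine h3.trans ?_
    have h4 : rend E m h0 x' = bend E m d' (ro A A' (m, d') (MulOpposite.op
        (A'.res h0 (algebraMap (RR k c'.1) (A'.A c') (tt k l hg)))) ^ n) x := by
      refine hx'.trans ?_
      rw [ro_r]
      rfl
    rw [h4, ← LV.act_ι, ← hx, map_smul]
    congr 1
    change _ = vS E m Sg d' (bsSr (LS E m Sg) A' h0 ((1 : LS E m Sg) ⊗ₜ[k]
      MulOpposite.op (algebraMap (RR k c'.1) (A'.A c') (tt k l hg))) ^ n) y
    rw [bsSr_tmul, Algebra.TensorProduct.tmul_pow, one_pow, vS_tmul, map_pow (ro A A' (m, d'))]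
    rfl
  inj := fun {c' d' t} h v hv => by
    obtain ⟨h0, l, g, hg, h2, rfl⟩ := h
    obtain ⟨s, hs, x, hx⟩ := LV.surj v
    have h3 : LV.ι E m Sg d' (rend E m h0 x) = 0 := by
      rw [← LV.r_ι, ← hx, map_smul]
      refine (congrArg (s • ·) hv).trans ?_
      exact smul_zero s
    obtain ⟨s', hs', hx'⟩ := LV.ι_zero.1 h3
    have hL : (bs A A').Loc (m, c') (m, d') (ro A A' (m, c')
        (MulOpposite.op (algebraMap (RR k c'.1) (A'.A c') (tt k l hg)))) :=
      ⟨⟨le_rfl, h0⟩, Or.inr ⟨l, g, hg, h2, le_rfl, rfl⟩⟩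
    obtain ⟨n, hn⟩ := E.inj hL (show E.E (m, c') from (s' • x : Sec E m c')) (by
      refine Eq.trans ?_ hx'
      exact map_smul (rend E m h0) s' x)
    refine ⟨n, LV.inj hs (LV.inj hs' ?_)⟩
    have h5 : ((1 : LS E m Sg) ⊗ₜ[k] MulOpposite.op (algebraMap (RR k c'.1) (A'.A c')
        (tt k l hg)) : bsSB (LS E m Sg) A' c') ^ n • v =
        LV.act E m Sg c' (ro A A' (m, c')
          (MulOpposite.op (algebraMap (RR k c'.1) (A'.A c') (tt k l hg))) ^ n) v := by
      rw [vS_smul, Algebra.TensorProduct.tmul_pow, one_pow, vS_tmul, map_pow (ro A A' (m, c'))]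
      rfl
    have h6 : s' • s • LV.act E m Sg c' (ro A A' (m, c')
          (MulOpposite.op (algebraMap (RR k c'.1) (A'.A c') (tt k l hg))) ^ n) v = 0 := by
      rw [← map_smul, hx, LV.act_ι, ← map_smul, ← map_smul]
      refine Eq.trans ?_ (map_zero (LV.ι E m Sg c'))
      congr 1
    refine Eq.trans ?_ (h6.trans ?_)
    · exact congrArg (fun z => s' • s • z) h5
    · exact ((congrArg (s' • ·) (smul_zero s)).trans (smul_zero s')).symm

theorem Sec_k {c' : Ch j} (c : k) (x : E.E (m, c')) : (c • x : E.E (m, c')) =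
    (algebraMap k (RR k m.1) c • (show Sec E m c' from x) : Sec E m c') := by
  change c • x = cl1 A A' (m, c') (algebraMap k (RR k m.1) c) • x
  unfold cl1
  rw [← IsScalarTower.algebraMap_apply, AlgHom.commutes, algebraMap_smul]

/-- THE GENERIC FIBRE of a reduced bisheaf. -/
def Red.gv : GV E hR.gd where
  V := LVs hR.sg
  ε := fun c' =>
    { toFun := fun x => LV.ι E m hR.sg c' x
      map_add' := fun x y => map_add (LV.ι E m hR.sg c') _ _
      map_smul' := fun c x => by
        refine Eq.trans ?_ (map_smul (LV.ι E m hR.sg c') (algebraMap k (RR k m.1) c)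
          (show Sec E m c' from x))
        exact congrArg (LV.ι E m hR.sg c') (Sec_k c x) }
  ε_smul := fun c' a b x => by
    refine ((LV.act_ι (E := E) (m := m) (Sg := hR.sg)
      (lo A A' (m, c') a * ro A A' (m, c') b) x).symm).trans ?_
    rw [map_mul]
    exact (vS_tmul hR.sg c' (LS.psi E m hR.sg a) b (LV.ι E m hR.sg c' x)).symm
  nat := fun {c' d'} h x => LV.r_ι h x
  inj := fun c' x h => hR.ι_zero h
  surj := fun c' v => by
    obtain ⟨s, hs, x, hx⟩ := LV.surj v
    refine ⟨s, (hR.gd_fn s).2 hs, x, ?_⟩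
    refine hx.symm.trans ?_
    refine Eq.trans ?_ (vS_tmul hR.sg c' (LS.psi E m hR.sg (algebraMap _ _ s)) 1 v).symm
    rw [LS.fn_apply, map_one, map_one]
    rfl

end

end Pool.Agent.MP_6e5bed_ag_GG
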