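import Pool.Agent.Lib.MP_6e5bed_ag_GG.Psi
import Pool.Agent.Lib.MP_6e5bed_ag_PN.Two2

set_option autoImplicit false
set_option linter.unusedVariables false

/-!
# MP_6e5bed_ag, THEOREM G, (8.3): the pairing of the Čech complexes of two bisheaves given by a
pairing at one chart
-/

noncomputable section

namespace Pool.Agent.MP_6e5bed_ag_GG

open Pool.Agent.MP_6e5bed_ag_NC Pool.Agent.MP_6e5bed_ag_NS Pool.Agent.MP_6e5bed_ag_PN
open scoped TensorProduct

universe u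

variable {k : Type u} [Field k] {i x j : Type} [Fintype i] [Fintype x] [Fintype j]
  {A : CA k i} {B : CA k x} {A' : CA k j}

/-- the bimodule of the sections of a bisheaf -/
def Sh.kb (E : BS A A') (p : Ch i × Ch j) : KBi k (A.A p.1) (A'.A p.2) :=
  kbim k (A.A p.1) (A'.A p.2) (E.E p)

/-- A balanced pairing of two bisheaves at the chart `a` of the middle space. -/
structure Pr3 (N1 : BS A B) (N2 : BS B A') (Z : BS A A') (a : Ch x) where
  β : ∀ (c : Ch i) (c' : Ch j), (N1.kb (c, a)).M →ₗ[k] (N2.kb (a, c')).M →ₗ[k] (Z.kb (c, c')).M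
  mid : ∀ c c' u w v, β c c' ((N1.kb (c, a)).r w u) v = β c c' u ((N2.kb (a, c')).l w v)
  left : ∀ c c' d u v, β c c' ((N1.kb (c, a)).l d u) v = (Z.kb (c, c')).l d (β c c' u v)
  right : ∀ c c' d u v, β c c' u ((N2.kb (a, c')).r d v) = (Z.kb (c, c')).r d (β c c' u v)
  nat : ∀ {c d : Ch i} {c' d' : Ch j} (h : c ≤ d) (h' : c' ≤ d') (u : N1.E (c, a))
    (v : N2.E (a, c')), Z.res (p := (c, c')) (q := (d, d')) ⟨h, h'⟩ (β c c' u v) =
      β d d' (N1.res (p := (c, a)) (q := (d, a)) ⟨h, le_refl a⟩ u)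
        (N2.res (p := (a, c')) (q := (a, d')) ⟨le_refl a, h'⟩ v)

variable {N1 : BS A B} {N2 : BS B A'} {Z : BS A A'}

/-- the Čech complexes of the first bisheaf in the middle variable -/
def Sh.bx (N : BS A B) : PB A.pa (PA.con i (TT B)) := N.bp.two.push2 (LL x) (FS.e x)

/-- the Čech complexes of the second bisheaf in the middle variable -/
def Sh.by' (N : BS B A') : PB (PA.con j (TT B)) A'.pa := N.bp.two.push (LL x) (FS.e x)

/-- the evaluation of the Čech complex of the first bisheaf at a chart -/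
def Sh.evx (N : BS A B) {l : x} (q : Ptr (LL x) l) (c : Ch i) :
    GMap 0 (N.bx.M c) (MP_6e5bed_ag_NC.res (DHom.id _) (evA B.pa q (FS.e x)) (N.kb (c, (FS.e x).ins l)).bim) :=
  evL q (FS.e x) (N.bp.two.snd c)

/-- the evaluation of the Čech complex of the second bisheaf at a chart -/
def Sh.evy (N : BS B A') {l : x} (q : Ptr (LL x) l) (c' : Ch j) :
    GMap 0 (N.by'.M c') (MP_6e5bed_ag_NC.res (evA B.pa q (FS.e x)) (DHom.id _) (N.kb ((FS.e x).ins l, c')).bim) :=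
  evR q (FS.e x) (N.bp.two.fst c')

theorem Sh.evx_dd (N : BS A B) {l : x} (q : Ptr (LL x) l) (c : Ch i) : (N.evx q c).dd = 0 :=
  evL_dd q (FS.e x) (N.bp.two.snd c)

theorem Sh.evy_dd (N : BS B A') {l : x} (q : Ptr (LL x) l) (c' : Ch j) : (N.evy q c').dd = 0 :=
  evR_dd q (FS.e x) (N.bp.two.fst c')

theorem Sh.evx_nat (N : BS A B) {l : x} (q : Ptr (LL x) l) {c d : Ch i} (h : c ≤ d)
    (u : (N.bx.M c).M) : (N.evx q d).f ((N.bx.ρ h).f u) =
      N.res (p := (c, (FS.e x).ins l)) (q := (d, (FS.e x).ins l)) ⟨h, le_refl _⟩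
        ((N.evx q c).f u) :=
  ev_nat (N.bp.two.fn h) q (FS.e x) u

theorem Sh.evy_nat (N : BS B A') {l : x} (q : Ptr (LL x) l) {c d : Ch j} (h : c ≤ d)
    (u : (N.by'.M c).M) : (N.evy q d).f ((N.by'.ρ h).f u) =
      N.res (p := ((FS.e x).ins l, c)) (q := ((FS.e x).ins l, d)) ⟨le_refl _, h⟩
        ((N.evy q c).f u) :=
  ev_nat (N.bp.two.sn h) q (FS.e x) u

/-- The pairing of the Čech complexes. -/
def Pr3.bpr {l : x} (q : Ptr (LL x) l) (P : Pr3 N1 N2 Z ((FS.e x).ins l)) :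
    BPrP N1.bx N2.by' Z.bp where
  b := fun p => BPr.pull (BPr.conc (X := N1.kb (p.1, (FS.e x).ins l))
      (Y := N2.kb ((FS.e x).ins l, p.2)) (Z := Z.kb p) (P.β p.1 p.2) (P.mid p.1 p.2)
      (P.left p.1 p.2) (P.right p.1 p.2)) (evA B.pa q (FS.e x)) (N1.evx q p.1)
      (N1.evx_dd q p.1) (N2.evy q p.2) (N2.evy_dd q p.2)
  nat := fun {p p'} h u v => by
    refine (P.nat h.1 h.2 ((N1.evx q p.1).f u) ((N2.evy q p.2).f v)).trans ?_
    refine Eq.trans ?_ (congrArg₂ (fun a b => P.β p'.1 p'.2 a b) (N1.evx_nat q h.1 u)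
      (N2.evy_nat q h.2 v)).symm
    rfl

theorem Pr3.bpr_v {l : x} (q : Ptr (LL x) l) (P : Pr3 N1 N2 Z ((FS.e x).ins l))
    (p : Ch i × Ch j) (u : (N1.bx.M p.1).M) (v : (N2.by'.M p.2).M) :
    (((P.bpr q).b p).v u v : Z.E p) =
      P.β p.1 p.2 ((N1.evx q p.1).f u) ((N2.evy q p.2).f v) := rfl

end Pool.Agent.MP_6e5bed_ag_GG
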