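import Pool.Agent.Lib.MP_6e5bed_ag_GG.CLoc2
import Pool.Agent.Lib.MP_6e5bed_ag_GG.CbT
import Pool.Agent.Lib.MP_6e5bed_ag_GG.GD
import Pool.Agent.Lib.MP_6e5bed_ag_GG.GF
import Pool.Agent.Lib.MP_6e5bed_ag_GG.PsiN

set_option autoImplicit false
set_option linter.unusedVariables false

/-!
# MP_6e5bed_ag, THEOREM G: lemmas for the main step
-/

noncomputable section

namespace Pool.Agent.MP_6e5bed_ag_GG

open Pool.Agent.MP_6e5bed_ag_NC Pool.Agent.MP_6e5bed_ag_PN
open scoped TensorProduct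

universe u

variable {k : Type u} [Field k] {i x j : Type} [Fintype i] [Fintype x] [Fintype j]
  {A : CA k i} {B : CA k x} {A' : CA k j}

theorem Sh.bx_qcl (N : BS A B) : QCl (N.bx) := qcl_push2 N.bp_qc _ _

theorem Sh.by_qcr (N : BS B A') : QCr (N.by') := qcr_push N.bp_qc _ _

/-! ### Annihilators -/

/-- an element which acts as zero acts as zero on the Čech complex -/
theorem cBL_l_zero {ι : Type} {R : Type u} [Ring R] [Algebra k R] {P : PA k ι}
    {M : PB (PA.con ι (MP_6e5bed_ag_NC.ring k R)) P} (a : R) (h : ∀ c, (M.M c).l a = 0) :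
    ∀ (L : List ι) (c : FS ι), (cBL M L c).l a = 0
  | [], c => rfl
  | l :: L, c => LinearMap.ext fun x => by
    obtain ⟨⟨x0, x1⟩, ξ⟩ := x
    refine (cBL_l M l L c a x0 x1 ξ).trans ?_
    have h0 := LinearMap.congr_fun (cBL_l_zero a h L c) x0
    have h1 := LinearMap.congr_fun (h (c.ins l)) x1
    have h2 : (cBL M L (c.ins l).fs).l ((MP_6e5bed_ag_NC.ring k R).dg.s a) ξ = 0 :=
      (congrArg (fun z : R => (cBL M L (c.ins l).fs).l z ξ) (ring_s (k := k) a)).trans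
        (LinearMap.congr_fun (cBL_l_zero a h L (c.ins l).fs) ξ)
    exact Prod.ext (Prod.ext h0 h1) h2

theorem tb_l_zero {D D' W : DGA k} {X : Bim D W} {Y : Bim W D'} {a : D.A} (h : X.l a = 0) :
    (tb X Y).l a = 0 := by
  refine tb_hom_ext (fun x y => ?_)
  rw [tb_l, h, LinearMap.zero_apply, LinearMap.zero_apply]
  exact tm_zero_left y

/-- an element which acts as zero on the sections acts as zero on the cohomology -/
theorem H_lo_zero (F : BPB A A') (hQ : F.QC) (n : ℤ) {p : Ch i × Ch j} {a : A.A p.1}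
    (h : ∀ e, (F.F p).l a e = 0) (e : (F.H hQ n).E p) : lo A A' p a • e = 0 := by
  obtain ⟨e, h1, h2, rfl⟩ := BPB.cl_surj e
  have h3 : bact (F.F p) (a ⊗ₜ[k] 1) e = 0 := (bact_l (F.F p) a e).trans (h e)
  have h4 : lo A A' p a • F.cl hQ n e h1 h2 = F.cl hQ n (bact (F.F p) (a ⊗ₜ[k] 1) e)
      (bact_deg _ _ h1) (by rw [bact_d, h2, map_zero]) := rfl
  rw [h4]
  exact BPB.cl_eq_zero.2 ⟨0, (map_zero _).trans h3.symm⟩

/-- an element which acts as zero on `X_c` is in the annihilator of the cohomology bisheaves -/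
theorem cmp_ann {W : DGA k} {X : PB A.pa (PA.con i W)} {V : Bim W W}
    {Y : PB (PA.con j W) A'.pa} (hQ : (BPB.cmp X V Y).QC) (n : ℤ) {c : Ch i} {a : A.A c}
    (h : (X.M c).l a = 0) : a ∈ ann ((BPB.cmp X V Y).H hQ n) c := by
  rw [mem_ann]
  intro c' e
  have h1 : (tb (X.M c) (tb V (Y.M c'))).l a = 0 :=
    tb_l_zero (X := X.M c) (Y := tb V (Y.M c')) h
  exact H_lo_zero (BPB.cmp X V Y) hQ n (p := (c, c')) (a := a)
    (fun e => LinearMap.congr_fun h1 e) e

/-- restriction of annihilators to smaller open sets -/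
theorem ann_res {E : BS A A'} {c m : Ch i} (h : c ≤ m) {a : A.A c} (ha : a ∈ ann E c) :
    A.res h a ∈ ann E m := by
  rw [mem_ann]
  intro c' e
  obtain ⟨u, y, hu, hy⟩ := E.gen1 h e
  have h2 := E.res_lo (p := (c, c')) (q := (m, c')) ⟨h, le_rfl⟩ a y
  rw [mem_ann.1 ha c' y, map_zero, hy] at h2
  have h3 : cl1 A A' (m, c') u • lo A A' (m, c') (A.res h a) • e = 0 := by
    rw [← mul_smul, cl1_comm, mul_smul]
    exact h2.symm
  exact E.unit_smul (p := (m, c')) (u := u) hu (x := lo A A' (m, c') (A.res h a) • e) h3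

/-- the action on a bisheaf which is constant along a cone -/
theorem Zs_lo {T : Type u} [Ring T] [Algebra k T] (κ : Cone A T) (P : PreS T A') {c : Ch i}
    {c' : Ch j} (a : A.A c) (f : (Zs κ P.sh).E (c, c')) (h : PLift (κ.D c)) :
    ((lo A A' (c, c') a • f : (Zs κ P.sh).E (c, c')) : ZE κ P.sh (c, c')) h =
      P.l c' (κ.psi c h.down a) ((f : ZE κ P.sh (c, c')) h) := by
  change P.act c' (κ.ph A' (c, c') h.down (a ⊗ₜ[k] 1)) _ = _
  rw [Cone.ph_tmul, PreS.act_tmul, map_one]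
  rfl

theorem Zs_ro {T : Type u} [Ring T] [Algebra k T] (κ : Cone A T) (P : PreS T A') {c : Ch i}
    {c' : Ch j} (b : (A'.A c')ᵐᵒᵖ) (f : (Zs κ P.sh).E (c, c')) (h : PLift (κ.D c)) :
    ((ro A A' (c, c') b • f : (Zs κ P.sh).E (c, c')) : ZE κ P.sh (c, c')) h =
      P.r c' b ((f : ZE κ P.sh (c, c')) h) := by
  change P.act c' (κ.ph A' (c, c') h.down (1 ⊗ₜ[k] b)) _ = _
  rw [Cone.ph_tmul, PreS.act_tmul, map_one, map_one]
  rfl

theorem Zs_lo_zero {T : Type u} [Ring T] [Algebra k T] (κ : Cone A T) (P : PreS T A') {c : Ch i}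
    {c' : Ch j} {a : A.A c} (ha : ∀ h, κ.psi c h a = 0) (f : (Zs κ P.sh).E (c, c')) :
    lo A A' (c, c') a • f = 0 := ZE_ext κ P.sh fun h => by
  refine (Zs_lo κ P a f ⟨h⟩).trans ?_
  rw [ha, map_zero]
  rfl

/-- the annihilator of a bisheaf with an injection to a bisheaf which is constant along a cone -/
theorem ann_Zs {T : Type u} [Ring T] [Algebra k T] (κ : Cone A T) (P : PreS T A') {F : BS A A'}
    (f : ShH F (Zs κ P.sh)) (hf : f.Inj) {c : Ch i} {a : A.A c} (ha : ∀ h, κ.psi c h a = 0) :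
    a ∈ ann F c := ann_of_inj f hf c (fun c' e => Zs_lo_zero κ P ha e)

/-- the elements of the annihilator act as zero on the Čech complexes -/
theorem bx_l_zero {N : BS A B} {c : Ch i} {a : A.A c} (ha : a ∈ ann N c) :
    (N.bx.M c).l a = 0 :=
  cBL_l_zero (M := N.bp.two.snd c) a (fun b => LinearMap.ext fun y => ha b y) (LL x) (FS.e x)

theorem Red.psi_res {E : BS A A'} {m : Ch i} (hR : Red E m) {c : Ch i} {a : A.A c}
    (ha : a ∈ ann E c) (h : hR.gd.cone.D c) : hR.gd.cone.psi c h a = 0 :=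
  (hR.gd_psi _).2 (ann_res h ha)

/-- the annihilators of the cohomology bisheaves of the composition -/
theorem ann_cmp {E : BS A A'} {m : Ch i} (hR : Red E m) {P : PreS hR.gd.S B} {N : BS A B}
    (f : ShH N (Zs hR.gd.cone P.sh)) (hf : f.Inj) {V : Bim (TT B) (TT B)} {j' : Type}
    [Fintype j'] {A'' : CA k j'} {Y : PB (PA.con j' (TT B)) A''.pa}
    (hQ : (BPB.cmp N.bx V Y).QC) (n : ℤ) :
    ann E ≤ ann ((BPB.cmp N.bx V Y).H hQ n) := fun c a ha =>
  cmp_ann hQ n (bx_l_zero (ann_Zs hR.gd.cone P f hf (fun h => hR.psi_res ha h)))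

/-! ### The map from a reduced bisheaf to its generic fibre -/

theorem GV.map_hi {E : BS A A'} {m : Ch i} {g : GD A m} (v : GV E g) (c' : Ch j)
    (e : E.E (m, c')) (h : v.map.f (m, c') e = 0) : e = 0 := by
  have h1 : v.ε c' (E.res (p := (m, c')) (q := (m, c')) ⟨le_rfl, le_rfl⟩ e) = 0 :=
    congrFun h ⟨le_rfl⟩
  rw [E.res_id] at h1
  exact v.inj c' e h1

theorem GV.map_hs {E : BS A A'} {m : Ch i} (hR : Red E m) (v : GV E hR.gd) (c' : Ch j)
    (z : (Zs hR.gd.cone v.V).E (m, c')) : ∃ f ∈ sg E m hR.one hR.pr,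
      ∃ e, v.map.f (m, c') e = cl1 A A' (m, c') f • z := by
  obtain ⟨f, hf, e, he⟩ := v.surj c' ((z : ZE hR.gd.cone v.V (m, c')) ⟨le_rfl⟩)
  refine ⟨f, (hR.gd_fn f).1 hf, e, ZE_ext hR.gd.cone v.V fun h => ?_⟩
  have h1 : (v.map.f (m, c') e : ZE hR.gd.cone v.V (m, c')) ⟨h⟩ = v.ε c' e := by
    rw [v.map_apply, E.res_id]
  have h2 : hR.gd.cone.psi m h (algebraMap (RR k m.1) (A.A m) f) = hR.gd.fn f := by
    change hR.gd.psi (A.res h (algebraMap (RR k m.1) (A.A m) f)) = _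
    rw [A.res_id]
    rfl
  refine h1.trans (he.trans ?_)
  change _ = Zact v.V (hR.gd.cone.ph A' (m, c') h
    (algebraMap (RR k m.1) (A.A m) f ⊗ₜ[k] 1)) ((z : ZE hR.gd.cone v.V (m, c')) ⟨h⟩)
  rw [Cone.ph_tmul, h2]

end Pool.Agent.MP_6e5bed_ag_GG
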