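import Pool.Agent.Lib.MP_6e5bed_ag_GG.Ev
import Pool.Agent.Lib.MP_6e5bed_ag_PN.ExtP
import Pool.Agent.Lib.MP_6e5bed_ag_NC.TbUnitA
import Pool.Agent.Lib.MP_6e5bed_ag_CV.Ring0

set_option autoImplicit false
set_option linter.unusedVariables false

/-!
# MP_6e5bed_ag, THEOREM G, (8.3): maps `X ⊗_W V ⊗_W Y → Z` given by pairings
-/

noncomputable section

namespace Pool.Agent.MP_6e5bed_ag_GG

open Pool.Agent.MP_6e5bed_ag_NC Pool.Agent.MP_6e5bed_ag_NS Pool.Agent.MP_6e5bed_ag_PN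

universe u

variable {k : Type u} [CommRing k] {D D' W W0 : DGA k}

/-- Balanced pairings of dg bimodules. -/
structure BPr (X : Bim D W) (Y : Bim W D') (Z : Bim D D') where
  p : CPr (bcx X) (bcx Y) (bcx Z)
  mid : ∀ (x : X.M) (w : W.A) (y : Y.M), (p.m (X.r w x) y : Z.M) = p.m x (Y.l w y)
  left : ∀ (d : D.A) (x : X.M) (y : Y.M), (p.m (X.l d x) y : Z.M) = Z.l d (p.m x y)
  right : ∀ (d : D'.A) (x : X.M) (y : Y.M), (p.m x (Y.r d y) : Z.M) = Z.r d (p.m x y)

namespace BPr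

variable {X : Bim D W} {Y : Bim W D'} {Z : Bim D D'} (P : BPr X Y Z)

/-- the value of the pairing -/
def v (x : X.M) (y : Y.M) : Z.M := P.p.m x y

theorem v_add_left (x x' : X.M) (y : Y.M) : P.v (x + x') y = P.v x y + P.v x' y :=
  LinearMap.congr_fun (map_add (show X.M →ₗ[k] Y.M →ₗ[k] Z.M from P.p.m) x x') y

theorem v_add_right (x : X.M) (y y' : Y.M) : P.v x (y + y') = P.v x y + P.v x y' :=
  map_add (P.p.m x) y y'

/-- the underlying linear map -/
def gf : (tb X Y).M →ₗ[k] Z.M :=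
  tlift (show X.M →ₗ[k] Y.M →ₗ[k] Z.M from P.p.m) (fun x w y => P.mid x w y)

theorem gf_tm (x : X.M) (y : Y.M) : P.gf (tm x y) = P.v x y := tlift_tm _ _ x y

/-- The map `X ⊗_W Y → Z`. -/
def gm : GMap 0 (tb X Y) Z where
  f := P.gf
  deg := fun {i x} hx => by
    refine tb_degMap (Z := Z.dg) (n := 0) P.gf (fun {i j v w} hv hw => ?_) hx
    rw [gf_tm, add_zero]
    exact P.p.deg hv hw
  map_l := fun d x => by
    rw [Dg.sp_zero]
    refine tb_ind (P := fun x => P.gf ((tb X Y).l d x) = Z.l d (P.gf x)) ?_ ?_ ?_ x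
    · simp only [map_zero]
    · intro x y hx hy
      rw [map_add, map_add, map_add, map_add, hx, hy]
    · intro m n
      rw [tb_l, gf_tm, gf_tm]
      exact P.left d m n
  map_r := fun d x => by
    refine tb_ind (P := fun x => P.gf ((tb X Y).r d x) = Z.r d (P.gf x)) ?_ ?_ ?_ x
    · simp only [map_zero]
    · intro x y hx hy
      rw [map_add, map_add, map_add, map_add, hx, hy]
    · intro m n
      rw [tb_r, gf_tm, gf_tm]
      exact P.right d m n

theorem gm_tm (x : X.M) (y : Y.M) : P.gm.f (tm x y) = P.v x y := P.gf_tm x y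

theorem gm_dd : P.gm.dd = 0 := by
  refine LinearMap.ext (fun x => ?_)
  rw [GMap.dd_apply, sg_zero, one_smul, LinearMap.zero_apply, sub_eq_zero]
  change Z.dg.d (P.gf x) = P.gf ((tb X Y).dg.d x)
  refine tb_ind (P := fun x => Z.dg.d (P.gf x) = P.gf ((tb X Y).dg.d x)) ?_ ?_ ?_ x
  · simp only [map_zero]
  · intro x y hx hy
    rw [map_add, map_add, map_add, map_add, hx, hy]
  · intro m n
    rw [tb_d, map_add, gf_tm, gf_tm, gf_tm]
    exact P.p.d m n

end BPr

/-- The map `V ⊗_W Y → Y` given by a map from `V` to the diagonal bimodule. -/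
def midm {V : Bim W W} (ω : GMap 0 V (diag W)) (Y : Bim W D') : GMap 0 (tb V Y) Y :=
  (ω.tbR Y).comp (TbUnitA.φL Y) (add_zero 0)

theorem midm_tm {V : Bim W W} (ω : GMap 0 V (diag W)) (Y : Bim W D') (v : V.M) (y : Y.M) :
    (midm ω Y).f (tm v y) = Y.l (ω.f v) y := by
  unfold midm
  rw [GMap.comp_f, GMap.tbR_tm]
  exact TbUnitA.fL_tm Y (ω.f v) y

theorem comp_closed {A B : DGA k} {M N P : Bim A B} {φ : GMap 0 M N} {ψ : GMap 0 N P}
    (h : φ.dd = 0) (h' : ψ.dd = 0) : (φ.comp ψ (add_zero 0)).dd = 0 := by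
  refine LinearMap.ext (fun x => ?_)
  rw [GMap.dd_apply, sg_zero, one_smul, LinearMap.zero_apply, sub_eq_zero, GMap.comp_f,
    GMap.comp_f, GMap.d_f_zero h', GMap.d_f_zero h]

theorem midm_dd {V : Bim W W} {ω : GMap 0 V (diag W)} (h : ω.dd = 0) (Y : Bim W D') :
    (midm ω Y).dd = 0 :=
  comp_closed ((MP_6e5bed_ag_NC.tbR W Y).closed h) (TbUnitA.φL_d Y)

/-- The map `X ⊗_W V ⊗_W Y → X ⊗_W Y`. -/
def mid3 (X : Bim D W) {V : Bim W W} (ω : GMap 0 V (diag W)) (Y : Bim W D') :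
    GMap 0 (tb X (tb V Y)) (tb X Y) := (midm ω Y).tbL X

theorem mid3_tm (X : Bim D W) {V : Bim W W} (ω : GMap 0 V (diag W)) (Y : Bim W D') (x : X.M)
    (v : V.M) (y : Y.M) : (mid3 X ω Y).f (tm x (tm v y)) = tm x (Y.l (ω.f v) y) := by
  unfold mid3
  rw [GMap.tbL_tm, Dg.sp_zero, midm_tm]

theorem mid3_dd (X : Bim D W) {V : Bim W W} {ω : GMap 0 V (diag W)} (h : ω.dd = 0)
    (Y : Bim W D') : (mid3 X ω Y).dd = 0 :=
  (MP_6e5bed_ag_NC.tbL X D').closed (midm_dd h Y)

namespace BPr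

variable {X : Bim D W} {Y : Bim W D'} {Z : Bim D D'} (P : BPr X Y Z) {V : Bim W W}
  (ω : GMap 0 V (diag W))

/-- The map `X ⊗_W V ⊗_W Y → Z`. -/
def psi : GMap 0 (tb X (tb V Y)) Z := (mid3 X ω Y).comp P.gm (add_zero 0)

theorem psi_tm (x : X.M) (v : V.M) (y : Y.M) :
    (P.psi ω).f (tm x (tm v y)) = P.v x (Y.l (ω.f v) y) := by
  unfold psi
  rw [GMap.comp_f, mid3_tm, gm_tm]

theorem psi_dd (h : ω.dd = 0) : (P.psi ω).dd = 0 :=
  comp_closed (mid3_dd X h Y) P.gm_dd

/-- Pullback of a pairing along maps which are semilinear over `e : W → W0`. -/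
def pull {N : Bim D W0} {N' : Bim W0 D'} (Q : BPr N N' Z) (e : DHom W W0)
    (ex : GMap 0 X (res (DHom.id D) e N)) (hx : ex.dd = 0)
    (ey : GMap 0 Y (res e (DHom.id D') N')) (hy : ey.dd = 0) : BPr X Y Z where
  p :=
    { m := (show N.M →ₗ[k] N'.M →ₗ[k] Z.M from Q.p.m).compl₁₂ ex.f ey.f
      deg := fun {i j x y} h h' => by
        refine Q.p.deg ?_ ?_
        · have h1 := ex.deg h
          rw [add_zero] at h1
          exact h1
        · have h1 := ey.deg h'
          rw [add_zero] at h1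
          exact h1
      d := fun x y => by
        have h1 : N.dg.d (ex.f x) = ex.f (X.dg.d x) := GMap.d_f_zero hx x
        have h2 : N'.dg.d (ey.f y) = ey.f (Y.dg.d y) := GMap.d_f_zero hy y
        have h3 : N.dg.s (ex.f x) = ex.f (X.dg.s x) := by
          have h4 := GMap.s_f ex x
          rw [sg_zero, one_smul] at h4
          exact h4
        have h5 := Q.p.d (ex.f x) (ey.f y)
        refine h5.trans ?_
        exact congrArg₂ (fun a b => (Q.p.m a (ey.f y) : Z.M) + b) h1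
          (congrArg₂ (fun a b => (Q.p.m a b : Z.M)) h3 h2) }
  mid := fun x w y => by
    have h1 : ex.f (X.r w x) = N.r (e.f w) (ex.f x) := ex.map_r w x
    have h2 : ey.f (Y.l w y) = N'.l (e.f w) (ey.f y) := by
      have h3 := ey.map_l w y
      rw [Dg.sp_zero] at h3
      exact h3
    exact (congrArg (fun z => (Q.p.m z (ey.f y) : Z.M)) h1).trans
      ((Q.mid (ex.f x) (e.f w) (ey.f y)).trans
        (congrArg (fun z => (Q.p.m (ex.f x) z : Z.M)) h2).symm)
  left := fun d x y => by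
    have h1 : ex.f (X.l d x) = N.l d (ex.f x) := by
      have h3 := ex.map_l d x
      rw [Dg.sp_zero] at h3
      exact h3
    exact (congrArg (fun z => (Q.p.m z (ey.f y) : Z.M)) h1).trans (Q.left d (ex.f x) (ey.f y))
  right := fun d x y => by
    have h1 : ey.f (Y.r d y) = N'.r d (ey.f y) := ey.map_r d y
    exact (congrArg (fun z => (Q.p.m (ex.f x) z : Z.M)) h1).trans
      (Q.right d (ex.f x) (ey.f y))

theorem pull_v {N : Bim D W0} {N' : Bim W0 D'} (Q : BPr N N' Z) (e : DHom W W0)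
    (ex : GMap 0 X (res (DHom.id D) e N)) (hx : ex.dd = 0)
    (ey : GMap 0 Y (res e (DHom.id D') N')) (hy : ey.dd = 0) (x : X.M) (y : Y.M) :
    (pull Q e ex hx ey hy).v x y = Q.v (ex.f x) (ey.f y) := rfl

end BPr

/-! ### Pairings of bimodules over rings -/

section ring

variable {R R' R'' : Type u} [Ring R] [Algebra k R] [Ring R'] [Algebra k R'] [Ring R'']
  [Algebra k R'']

/-- Balanced pairings of bimodules over rings, as pairings of dg bimodules. -/
def BPr.conc {X : KBi k R R'} {Y : KBi k R' R''} {Z : KBi k R R''} (β : X.M →ₗ[k] Y.M →ₗ[k] Z.M)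
    (h1 : ∀ x w y, β (X.r w x) y = β x (Y.l w y)) (h2 : ∀ d x y, β (X.l d x) y = Z.l d (β x y))
    (h3 : ∀ d x y, β x (Y.r d y) = Z.r d (β x y)) : BPr X.bim Y.bim Z.bim where
  p :=
    { m := β
      deg := fun h h' => Dg.conc_bil β h h'
      d := fun x y => by
        change (0 : Z.M) = β 0 y + β _ (0 : Y.M)
        rw [map_zero, map_zero, LinearMap.zero_apply, add_zero] }
  mid := h1
  left := h2
  right := h3

theorem BPr.conc_v {X : KBi k R R'} {Y : KBi k R' R''} {Z : KBi k R R''}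
    (β : X.M →ₗ[k] Y.M →ₗ[k] Z.M) (h1 : ∀ x w y, β (X.r w x) y = β x (Y.l w y))
    (h2 : ∀ d x y, β (X.l d x) y = Z.l d (β x y)) (h3 : ∀ d x y, β x (Y.r d y) = Z.r d (β x y))
    (x : X.M) (y : Y.M) : (BPr.conc β h1 h2 h3).v x y = β x y := rfl

end ring

end Pool.Agent.MP_6e5bed_ag_GG
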