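import Pool.Agent.Lib.MP_6e5bed_ag_PN.Two

set_option autoImplicit false
set_option linter.unusedVariables false

/-!
# MP_6e5bed_ag, THEOREM G: maps of Čech bimodules which are semilinear in the constant algebra
-/

noncomputable section

namespace Pool.Agent.MP_6e5bed_ag_GG

open Pool.Agent.MP_6e5bed_ag_NC Pool.Agent.MP_6e5bed_ag_NS Pool.Agent.MP_6e5bed_ag_PN

universe u

variable {k : Type u} [CommRing k] {ι : Type} {A B : PA k ι} {C C' : DGA k} (φ : DHom C C')

/-- Maps of presheaves of bimodules which are semilinear over `φ` on the left. -/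
structure PBL (M : PB (PA.con ι C) B) (M' : PB (PA.con ι C') B) where
  f : ∀ c, GMap 0 (M.M c) (res φ (DHom.id _) (M'.M c))
  dd : ∀ c, (f c).dd = 0
  nat : ∀ {c d : Ch ι} (h : c ≤ d) x, (M'.ρ h).f ((f c).f x) = (f d).f ((M.ρ h).f x)

/-- Maps of presheaves of bimodules which are semilinear over `φ` on the right. -/
structure PBRm (M : PB A (PA.con ι C)) (M' : PB A (PA.con ι C')) where
  f : ∀ c, GMap 0 (M.M c) (res (DHom.id _) φ (M'.M c))
  dd : ∀ c, (f c).dd = 0
  nat : ∀ {c d : Ch ι} (h : c ≤ d) x, (M'.ρ h).f ((f c).f x) = (f d).f ((M.ρ h).f x)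

/-- a homomorphism as a map of constant presheaves -/
def cst (ι : Type) : PCH (PC.con ι (acx C)) (PC.con ι (acx C')) where
  f := fun _ => dch φ
  nat := fun _ _ => rfl

namespace PBL

variable {φ} {M : PB (PA.con ι C) B} {M' : PB (PA.con ι C') B} (F : PBL φ M M')

/-- the map of presheaves of complexes -/
def pch : PCH M.pc M'.pc where
  f := fun c => gch (F.f c) (F.dd c)
  nat := fun h x => F.nat h x

theorem gm_l' (L : List ι) (c : FS ι) (r : C.A) (x : (cBL M L c).M) :
    ((cH F.pch L).g c).f ((cBL M L c).l r x) =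
      (cBL M' L c).l (φ.f r) (((cH F.pch L).g c).f x) := by
  refine (cH_mul (p := M.pl) (q := M'.pl) (cst φ ι) F.pch F.pch (fun b r x => ?_) L c
    ((kX (acx C) L c).f r) x).trans ?_
  · exact gm_l (F.f b) r x
  · exact congrArg (fun z => ((cP M'.pl L).q c).m z (((cH F.pch L).g c).f x))
      (kX_nat (dch φ) (cst φ ι) (fun _ _ => rfl) L c r)

theorem gm_r' (L : List ι) (c : FS ι) (r : (cA B L c).A) (x : (cBL M L c).M) :
    ((cH F.pch L).g c).f ((cBL M L c).r r x) =
      (cBL M' L c).r r (((cH F.pch L).g c).f x) := by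
  refine (cH_mul (p := M.pr) (q := M'.pr) F.pch (PCH.id B.pc) F.pch
    (fun b x r => ?_) L c x r).trans ?_
  · exact gm_r (F.f b) r x
  · exact congrArg (fun z => ((cP M'.pr L).q c).m (((cH F.pch L).g c).f x) z)
      (cH_id B.pc L c r)

/-- The map of Čech bimodules. -/
def gm (L : List ι) (c : FS ι) : GMap 0 (cBL M L c) (res φ (DHom.id _) (cBL M' L c)) :=
  cgm φ (DHom.id _) ((cH F.pch L).g c) (F.gm_l' L c) (F.gm_r' L c)

theorem gm_f (L : List ι) (c : FS ι) (x : (cBL M L c).M) :
    (F.gm L c).f x = ((cH F.pch L).g c).f x := rfl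

theorem gm_dd (L : List ι) (c : FS ι) : (F.gm L c).dd = 0 := cgm_dd _ _ _ _ _

theorem gm_bij (h : ∀ c, Function.Bijective (F.f c).f) (L : List ι) (c : FS ι) :
    Function.Bijective (F.gm L c).f :=
  ⟨cH_inj F.pch (fun c => (h c).1) L c, cH_surj F.pch (fun c => (h c).2) L c⟩

end PBL

namespace PBRm

variable {φ} {M : PB A (PA.con ι C)} {M' : PB A (PA.con ι C')} (F : PBRm φ M M')

/-- the map of presheaves of complexes -/
def pch : PCH M.pc M'.pc where
  f := fun c => gch (F.f c) (F.dd c)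
  nat := fun h x => F.nat h x

theorem gm_r' (L : List ι) (c : FS ι) (r : C.A) (x : (cBR M L c).M) :
    ((cH F.pch L).g c).f ((cBR M L c).r r x) =
      (cBR M' L c).r (φ.f r) (((cH F.pch L).g c).f x) := by
  refine (cH_mul (p := M.pr) (q := M'.pr) F.pch (cst φ ι) F.pch (fun b x r => ?_) L c
    x ((kX (acx C) L c).f r)).trans ?_
  · exact gm_r (F.f b) r x
  · exact congrArg (fun z => ((cP M'.pr L).q c).m (((cH F.pch L).g c).f x) z)
      (kX_nat (dch φ) (cst φ ι) (fun _ _ => rfl) L c r)

theorem gm_l' (L : List ι) (c : FS ι) (r : (cA A L c).A) (x : (cBR M L c).M) :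
    ((cH F.pch L).g c).f ((cBR M L c).l r x) =
      (cBR M' L c).l r (((cH F.pch L).g c).f x) := by
  refine (cH_mul (p := M.pl) (q := M'.pl) (PCH.id A.pc) F.pch F.pch
    (fun b r x => ?_) L c r x).trans ?_
  · exact gm_l (F.f b) r x
  · exact congrArg (fun z => ((cP M'.pl L).q c).m z (((cH F.pch L).g c).f x))
      (cH_id A.pc L c r)

/-- The map of Čech bimodules. -/
def gm (L : List ι) (c : FS ι) : GMap 0 (cBR M L c) (res (DHom.id _) φ (cBR M' L c)) :=
  cgm (DHom.id _) φ ((cH F.pch L).g c) (F.gm_l' L c) (F.gm_r' L c)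

theorem gm_f (L : List ι) (c : FS ι) (x : (cBR M L c).M) :
    (F.gm L c).f x = ((cH F.pch L).g c).f x := rfl

theorem gm_dd (L : List ι) (c : FS ι) : (F.gm L c).dd = 0 := cgm_dd _ _ _ _ _

theorem gm_bij (h : ∀ c, Function.Bijective (F.f c).f) (L : List ι) (c : FS ι) :
    Function.Bijective (F.gm L c).f :=
  ⟨cH_inj F.pch (fun c => (h c).1) L c, cH_surj F.pch (fun c => (h c).2) L c⟩

end PBRm

/-! ### Bijective maps of tensor products -/

section bij

variable {A A' W B B' : DGA k} {α : DHom A A'} {β : DHom B B'} {M : Bim A W} {M' : Bim A' W}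
  {N : Bim W B} {N' : Bim W B'}

theorem gT_bij (f : GMap 0 M (res α (DHom.id W) M')) (g : GMap 0 N (res (DHom.id W) β N'))
    (hf : Function.Bijective f.f) (hg : Function.Bijective g.f) :
    Function.Bijective (gT (γ := DHom.id W) f g).f := by
  let f' : M.M →ₗ[k] M'.M := f.f
  let g' : N.M →ₗ[k] N'.M := g.f
  let ef : M.M ≃ₗ[k] M'.M := LinearEquiv.ofBijective f' hf
  let eg : N.M ≃ₗ[k] N'.M := LinearEquiv.ofBijective g' hg
  have h1 : ∀ x, ef.symm (f' x) = x := ef.symm_apply_apply
  have h2 : ∀ x, eg.symm (g' x) = x := eg.symm_apply_apply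
  have h3 : ∀ x, f' (ef.symm x) = x := ef.apply_symm_apply
  have h4 : ∀ x, g' (eg.symm x) = x := eg.apply_symm_apply
  let b : M'.M →ₗ[k] N'.M →ₗ[k] (tb M N).M :=
    (tmB M N).compl₁₂ ef.symm.toLinearMap eg.symm.toLinearMap
  have hb : ∀ x w y, b (M'.r w x) y = b x (N'.l w y) := fun x w y => by
    have e1 : ef.symm (M'.r w x) = M.r w (ef.symm x) := by
      refine ef.injective ?_
      refine (ef.apply_symm_apply _).trans ?_
      refine Eq.trans ?_ (gm_r f w (ef.symm x)).symm
      exact (congrArg (M'.r w) (h3 x)).symm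
    have e2 : eg.symm (N'.l w y) = N.l w (eg.symm y) := by
      refine eg.injective ?_
      refine (eg.apply_symm_apply _).trans ?_
      refine Eq.trans ?_ (gm_l g w (eg.symm y)).symm
      exact (congrArg (N'.l w) (h4 y)).symm
    refine (congrArg (fun z => tm (M := M) (N := N) z (eg.symm y)) e1).trans
      ((tm_r_l (M := M) (N := N) _ w _).trans ?_)
    exact (congrArg (fun z => tm (M := M) (N := N) (ef.symm x) z) e2).symm
  let G : (tb M N).M →ₗ[k] (tb M' N').M := (gT (γ := DHom.id W) f g).f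
  have hG : ∀ x y, G (tm x y) = tm (f' x) (g' y) := fun x y => gT_tm f g x y
  refine Function.bijective_iff_has_inverse.2 ⟨tlift b hb, fun x => ?_, fun x => ?_⟩
  · refine tb_ind (P := fun x => tlift b hb (G x) = x) ?_ ?_ ?_ x
    · simp only [map_zero]
    · intro x y hx hy
      simp only [map_add, hx, hy]
    · intro x y
      rw [hG, tlift_tm]
      exact congrArg₂ (fun a b => tm (M := M) (N := N) a b) (h1 x) (h2 y)
  · refine tb_ind (M := M') (N := N') (P := fun x => G (tlift b hb x) = x) ?_ ?_ ?_ x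
    · simp only [map_zero]
    · intro x y hx hy
      simp only [map_add, hx, hy]
    · intro x y
      rw [tlift_tm]
      refine (hG (ef.symm x) (eg.symm y)).trans ?_
      exact congrArg₂ (fun a b => tm (M := M') (N := N') a b) (h3 x) (h4 y)

end bij

end Pool.Agent.MP_6e5bed_ag_GG
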