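import Mathlib

set_option autoImplicit false
set_option linter.unusedVariables false
set_option linter.unusedSectionVars false

/-!
# MP_6e5bed_ag, THEOREM G, (7.4): a prime ring which is generated over a field of central fractions

`R` a commutative algebra, `S` a prime ring, `fn : R → S` with central image such that all `fn f ≠ 0`
are invertible and `S` is finitely generated over the fractions: `S` is simple, finite over its
centre, and the centre is a field.
-/

noncomputable section

namespace Pool.Agent.MP_6e5bed_ag_GG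

universe u

/-- an Artinian prime ring is simple -/
theorem simple_of_prime_artinian (S : Type u) [Ring S] [IsArtinianRing S]
    (pr : ∀ x y : S, (∀ z, x * z * y = 0) → x = 0 ∨ y = 0) (ne : (1 : S) ≠ 0) :
    IsSimpleRing S := by
  have hnt : Nontrivial S := ⟨1, 0, ne⟩
  have hJ : Ring.jacobson S = ⊥ := by
    obtain ⟨n, hn⟩ := IsSemiprimaryRing.isNilpotent (R := S)
    have key : ∀ n : ℕ, Ring.jacobson S ^ n = 0 → Ring.jacobson S = ⊥ := by
      intro n
      induction n with
      | zero =>
        intro h
        exfalso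
        rw [Submodule.pow_zero] at h
        have h1 : (1 : S) ∈ (1 : Ideal S) := by
          rw [Ideal.one_eq_top]
          exact Submodule.mem_top
        rw [h] at h1
        exact ne h1
      | succ n ih =>
        intro h
        by_cases h0 : Ring.jacobson S ^ n = 0
        · exact ih h0
        · rw [eq_bot_iff]
          intro y hy
          obtain ⟨x, hx, hx0⟩ := Submodule.exists_mem_ne_zero_of_ne_bot h0
          rcases pr x y (fun z => by
            have h1 : x * (z * y) ∈ Ring.jacobson S ^ n * Ring.jacobson S :=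
              Ideal.mul_mem_mul hx ((Ring.jacobson S).mul_mem_left z hy)
            rw [← Submodule.pow_succ, h] at h1
            rw [mul_assoc]
            exact h1) with h2 | h2
          · exact absurd h2 hx0
          · exact h2
    exact key n hn
  have hss : IsSemisimpleRing S := IsArtinianRing.isSemisimpleRing_iff_jacobson.2 hJ
  rw [isSimpleRing_iff_isTwoSided_imp]
  refine ⟨hnt, fun I hI => ?_⟩
  by_cases h0 : I = ⊥
  · exact Or.inl h0
  right
  obtain ⟨i, hi, hi0⟩ := Submodule.exists_mem_ne_zero_of_ne_bot h0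
  obtain ⟨J, hJI⟩ := exists_isCompl I
  have hJ0 : J = ⊥ := by
    rw [eq_bot_iff]
    intro j hj
    rcases pr i j (fun z => by
      have h1 : i * z * j ∈ I := by
        rw [mul_assoc]
        exact hI.mul_mem_of_left _ hi
      have h2 : i * z * j ∈ J := J.mul_mem_left _ hj
      have h3 : i * z * j ∈ I ⊓ J := ⟨h1, h2⟩
      rw [hJI.inf_eq_bot] at h3
      exact h3) with h4 | h4
    · exact absurd h4 hi0
    · exact h4
  have h5 := hJI.sup_eq_top
  rwa [hJ0, sup_bot_eq] at h5

section

variable {k : Type u} [Field k] (S : Type u) [Ring S] [Algebra k S]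

/-- a ring is an algebra over its centre -/
instance cenAlg : Algebra (Subalgebra.center k S) S where
  algebraMap := (Subalgebra.center k S).val.toRingHom
  commutes' := fun x s => (Subalgebra.mem_center_iff.1 x.2 s).symm
  smul_def' := fun _ _ => rfl

theorem cenAlg_coe (x : Subalgebra.center k S) : algebraMap (Subalgebra.center k S) S x = x := rfl

instance cenTower : IsScalarTower k (Subalgebra.center k S) S :=
  ⟨fun c x s => by
    change (c • (x : S)) * s = c • ((x : S) * s)
    rw [smul_mul_assoc]⟩

end

section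

variable {k : Type u} [Field k] {R S : Type u} [CommRing R] [Algebra k R] [Ring S] [Algebra k S]
  (fn : R →ₐ[k] S) (hc : ∀ f s, fn f * s = s * fn f)

/-- the map to the centre -/
def toCen : R →ₐ[k] Subalgebra.center k S :=
  fn.codRestrict (Subalgebra.center k S) fun f => by
    rw [Subalgebra.mem_center_iff]
    intro s
    exact (hc f s).symm

theorem toCen_coe (f : R) : (toCen fn hc f : S) = fn f := rfl

theorem unit_ne {T : Type u} [Ring T] (ne : (1 : T) ≠ 0) {x : T} (hx : IsUnit x) : x ≠ 0 := by
  have : Nontrivial T := ⟨1, 0, ne⟩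
  exact hx.ne_zero

/-- a central element which is a unit is a unit of the centre -/
theorem cen_unit {z : Subalgebra.center k S} (hz : IsUnit (z : S)) : IsUnit z := by
  obtain ⟨⟨a, b, hab, hba⟩, rfl : a = z⟩ := hz
  have hzc := Subalgebra.mem_center_iff.1 z.2
  have hb : b ∈ Subalgebra.center k S := by
    rw [Subalgebra.mem_center_iff]
    intro s
    calc s * b = b * (z : S) * (s * b) := by rw [hba, one_mul]
      _ = b * ((z : S) * s) * b := by rw [mul_assoc b, mul_assoc b, mul_assoc (z : S)]
      _ = b * (s * (z : S)) * b := by rw [hzc s]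
      _ = b * s := by rw [mul_assoc b, mul_assoc s, hab, mul_one]
  exact ⟨⟨z, ⟨b, hb⟩, Subtype.ext hab, Subtype.ext hba⟩, rfl⟩

/-- the fractions -/
def fracs (hu : ∀ f, fn f ≠ 0 → IsUnit (fn f)) (ne : (1 : S) ≠ 0) :
    Subalgebra k (Subalgebra.center k S) where
  carrier := {x | ∃ f h : R, fn h ≠ 0 ∧ toCen fn hc h * x = toCen fn hc f}
  mul_mem' := by
    rintro x y ⟨f, h, hh, hx⟩ ⟨f', h', hh', hy⟩
    refine ⟨f * f', h * h', ?_, ?_⟩
    · rw [map_mul]
      exact unit_ne ne ((hu h hh).mul (hu h' hh'))
    · rw [map_mul, map_mul, ← hx, ← hy]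
      ring
  add_mem' := by
    rintro x y ⟨f, h, hh, hx⟩ ⟨f', h', hh', hy⟩
    refine ⟨f * h' + f' * h, h * h', ?_, ?_⟩
    · rw [map_mul]
      exact unit_ne ne ((hu h hh).mul (hu h' hh'))
    · rw [map_add, map_mul, map_mul, map_mul, ← hx, ← hy]
      ring
  algebraMap_mem' := by
    intro c
    refine ⟨algebraMap k R c, 1, ?_, ?_⟩
    · rw [map_one]
      exact ne
    · rw [map_one, one_mul, AlgHom.commutes]

variable (hu : ∀ f, fn f ≠ 0 → IsUnit (fn f)) (ne : (1 : S) ≠ 0)

include hu in
theorem toCen_unit {f : R} (hf : fn f ≠ 0) : IsUnit (toCen fn hc f) :=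
  cen_unit (hu f hf)

theorem toCen_mem (f : R) : toCen fn hc f ∈ fracs fn hc hu ne :=
  ⟨f, 1, by rw [map_one]; exact ne, by rw [map_one, one_mul]⟩

/-- the inverses are fractions -/
theorem exists_inv {f : R} (hf : fn f ≠ 0) (r : R) :
    ∃ x ∈ fracs fn hc hu ne, toCen fn hc f * x = toCen fn hc r := by
  obtain ⟨v, hv⟩ := (toCen_unit fn hc hu hf).exists_right_inv
  refine ⟨v * toCen fn hc r, ⟨r, f, hf, ?_⟩, ?_⟩
  · rw [← mul_assoc, hv, one_mul]
  · rw [← mul_assoc, hv, one_mul]

theorem fracs_isField : IsField (fracs fn hc hu ne) where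
  exists_pair_ne := ⟨1, 0, fun h => ne (congrArg
    (fun x : fracs fn hc hu ne => ((x : Subalgebra.center k S) : S)) h)⟩
  mul_comm := mul_comm
  mul_inv_cancel := by
    rintro ⟨x, f, h, hh, hx⟩ hx0
    have hf : fn f ≠ 0 := by
      intro h0
      apply hx0
      have h1 : toCen fn hc f = 0 := Subtype.ext h0
      rw [h1] at hx
      obtain ⟨v, hv⟩ := (toCen_unit fn hc hu hh).exists_left_inv
      have h2 : x = 0 := by rw [← one_mul x, ← hv, mul_assoc, hx, mul_zero]
      exact Subtype.ext h2
    obtain ⟨y, hy, hfy⟩ := exists_inv fn hc hu ne hf h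
    refine ⟨⟨y, hy⟩, Subtype.ext ?_⟩
    change x * y = 1
    obtain ⟨v, hv⟩ := (toCen_unit fn hc hu hh).exists_left_inv
    have h3 : toCen fn hc h * (x * y) = toCen fn hc h * 1 := by
      rw [← mul_assoc, hx, hfy, mul_one]
    rw [← one_mul (x * y), ← hv, mul_assoc, h3, ← mul_assoc, hv, one_mul]

/-- the centre of a simple ring is a field -/
theorem cen_isField [IsSimpleRing S] : IsField (Subalgebra.center k S) := by
  refine MulEquiv.isField (IsSimpleRing.isField_center S)
    { toFun := fun x => ⟨x.1, ?_⟩, invFun := fun x => ⟨x.1, ?_⟩, left_inv := fun x => rfl,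
      right_inv := fun x => rfl, map_mul' := fun x y => rfl }
  · rw [Subring.mem_center_iff]
    exact Subalgebra.mem_center_iff.1 x.2
  · rw [Subalgebra.mem_center_iff]
    exact Subring.mem_center_iff.1 x.2

theorem cen_isCentral : Algebra.IsCentral (Subalgebra.center k S) S where
  out := by
    intro x hx
    rw [Algebra.mem_bot]
    refine ⟨⟨x, ?_⟩, rfl⟩
    rw [Subalgebra.mem_center_iff]
    exact Subalgebra.mem_center_iff.1 hx

include hc hu ne in
/-- **The result.** -/
theorem prime_fin [Algebra.FiniteType k R] {n : ℕ} (a : Fin n → S)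
    (ha : ∀ s, ∃ f, fn f ≠ 0 ∧ ∃ r : Fin n → R, fn f * s = ∑ t, fn (r t) * a t)
    (pr : ∀ x y : S, (∀ z, x * z * y = 0) → x = 0 ∨ y = 0) :
    IsSimpleRing S ∧ Module.Finite (Subalgebra.center k S) S ∧
      Algebra.EssFiniteType k (Subalgebra.center k S) := by
  classical
  let K := fracs fn hc hu ne
  have hK : IsField K := fracs_isField fn hc hu ne
  have hart : IsArtinianRing K := by
    let _ := hK.toField
    infer_instance
  have hnoe : IsNoetherianRing K := by
    let _ := hK.toField
    infer_instance
  -- `S` is finitely generated over the fractions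
  have hspan : Submodule.span K (Set.range a) = ⊤ := by
    rw [eq_top_iff]
    intro s _
    obtain ⟨f, hf, r, hr⟩ := ha s
    choose x hx hxr using fun t => exists_inv fn hc hu ne hf (r t)
    have h1 : s = ∑ t, (⟨x t, hx t⟩ : K) • a t := by
      obtain ⟨v, hv⟩ := (hu f hf).exists_left_inv
      have h2 : fn f * s = fn f * ∑ t, (⟨x t, hx t⟩ : K) • a t := by
        rw [hr, Finset.mul_sum]
        refine Finset.sum_congr rfl fun t _ => ?_
        change fn (r t) * a t = fn f * ((x t : S) * a t)
        rw [← mul_assoc]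
        have h3 := congrArg (Subtype.val) (hxr t)
        have h4 : fn f * (x t : S) = fn (r t) := h3
        rw [h4]
      rw [← one_mul s, ← hv, mul_assoc, h2, ← mul_assoc, hv, one_mul]
    rw [h1]
    exact Submodule.sum_mem _ fun t _ =>
      Submodule.smul_mem _ _ (Submodule.subset_span (Set.mem_range_self t))
  have hfin : Module.Finite K S := ⟨⟨Finset.univ.image a, by
    rw [Finset.coe_image, Finset.coe_univ, Set.image_univ, hspan]⟩⟩
  have hartS : IsArtinianRing S := isArtinian_of_tower K inferInstance
  have hsimple : IsSimpleRing S := simple_of_prime_artinian S pr ne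
  have hfinL : Module.Finite (Subalgebra.center k S) S :=
    Module.Finite.of_restrictScalars_finite K (Subalgebra.center k S) S
  refine ⟨hsimple, hfinL, ?_⟩
  -- the centre is finite over the fractions
  have hnS : IsNoetherian K S := inferInstance
  have hL : Module.Finite K (Subalgebra.center k S) := by
    let ι : Subalgebra.center k S →ₗ[K] S :=
      { toFun := fun x => x.1, map_add' := fun _ _ => rfl, map_smul' := fun _ _ => rfl }
    have : IsNoetherian K (Subalgebra.center k S) :=
      isNoetherian_of_injective ι (fun x y h => Subtype.ext h)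
    infer_instance
  obtain ⟨B, hB⟩ := hL
  obtain ⟨G, hG⟩ := ‹Algebra.FiniteType k R›
  rw [Algebra.essFiniteType_iff]
  refine ⟨G.image (toCen fn hc) ∪ B, fun s => ?_⟩
  let T := Algebra.adjoin k ((G.image (toCen fn hc) ∪ B : Finset (Subalgebra.center k S)) :
    Set (Subalgebra.center k S))
  change ∃ t ∈ T, IsUnit t ∧ s * t ∈ T
  have hR : ∀ f, toCen fn hc f ∈ T := by
    intro f
    have h1 : f ∈ Algebra.adjoin k (G : Set R) := by
      rw [hG]
      exact Algebra.mem_top
    have h2 : toCen fn hc f ∈ (Algebra.adjoin k (G : Set R)).map (toCen fn hc) := ⟨f, h1, rfl⟩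
    rw [AlgHom.map_adjoin] at h2
    refine Algebra.adjoin_mono ?_ h2
    intro x hx
    rw [Finset.coe_union, Finset.coe_image]
    exact Or.inl hx
  have hs : s ∈ Submodule.span K (B : Set (Subalgebra.center k S)) := by
    rw [hB]
    exact Submodule.mem_top
  induction hs using Submodule.span_induction with
  | mem x hx =>
    refine ⟨1, T.one_mem, isUnit_one, ?_⟩
    rw [mul_one]
    refine Algebra.subset_adjoin ?_
    rw [Finset.coe_union]
    exact Or.inr hx
  | zero => exact ⟨1, T.one_mem, isUnit_one, by rw [zero_mul]; exact T.zero_mem⟩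
  | add x y _ _ hx hy =>
    obtain ⟨t, ht, htu, hxt⟩ := hx
    obtain ⟨t', ht', htu', hyt⟩ := hy
    refine ⟨t * t', T.mul_mem ht ht', htu.mul htu', ?_⟩
    have h1 : (x + y) * (t * t') = x * t * t' + y * t' * t := by ring
    rw [h1]
    exact T.add_mem (T.mul_mem hxt ht') (T.mul_mem hyt ht)
  | smul c x _ hx =>
    obtain ⟨t, ht, htu, hxt⟩ := hx
    obtain ⟨c, f, h, hh, hcf⟩ := c
    refine ⟨t * toCen fn hc h, T.mul_mem ht (hR h), htu.mul (toCen_unit fn hc hu hh), ?_⟩
    have h1 : (c * x) * (t * toCen fn hc h) = toCen fn hc f * (x * t) := by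
      rw [← hcf]
      ring
    change (c * x) * (t * toCen fn hc h) ∈ T
    rw [h1]
    exact T.mul_mem (hR f) hxt

end

end Pool.Agent.MP_6e5bed_ag_GG
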