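import Pool.Agent.Lib.MP_6e5bed_ag_GG.ShA

set_option autoImplicit false

/-!
# MP_6e5bed_ag, THEOREM G: the coordinate rings are Noetherian (text, (0.1), (1.1))
-/

noncomputable section

namespace Pool.Agent.MP_6e5bed_ag_GG

open scoped TensorProduct

universe u

variable {k : Type u} [Field k] {i j : Type} [Fintype i] [Fintype j]

omit [Fintype i] in
theorem mon_zero : mon k (0 : i → ℤ) = 1 := rfl

omit [Fintype i] in
theorem mon_pow (e : i → ℤ) (n : ℕ) : mon k e ^ n = mon k (n • e) := by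
  induction n with
  | zero => rw [pow_zero, zero_smul, mon_zero]
  | succ n ih => rw [pow_succ, ih, mon_mul, succ_nsmul]

omit [Fintype i] in
theorem mon_sum {I : Type*} (S : Finset I) (e : I → i → ℤ) :
    ∏ a ∈ S, mon k (e a) = mon k (∑ a ∈ S, e a) := by
  classical
  induction S using Finset.induction_on with
  | empty => rw [Finset.prod_empty, Finset.sum_empty, mon_zero]
  | insert a S ha ih => rw [Finset.prod_insert ha, Finset.sum_insert ha, ih, mon_mul]

/-- an exponent of degree zero is a sum of the exponents of the `x_l / x_g` -/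
theorem ex_sum (e : i → ℤ) (he : ∑ l, e l = 0) (g : i) : e = ∑ l, e l • ex l g := by
  classical
  funext m
  rw [Finset.sum_apply]
  have h1 : ∀ l, (e l • ex l g) m = (if m = l then e l else 0) - e l * (if m = g then 1 else 0) := by
    intro l
    simp only [ex, Pi.smul_apply, Pi.sub_apply, Pi.single_apply, smul_eq_mul, mul_sub, mul_ite,
      mul_one, mul_zero]
  rw [Finset.sum_congr rfl (fun l _ => h1 l), Finset.sum_sub_distrib, ← Finset.sum_mul, he,
    zero_mul, sub_zero, Finset.sum_ite_eq Finset.univ m e, if_pos (Finset.mem_univ m)]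

omit [Fintype i] in
theorem ex_neg (l g : i) : -ex l g = ex g l := by
  unfold ex
  rw [neg_sub]

/-- The generators of the coordinate ring of a chart. -/
def rgen (k : Type u) [Field k] {i : Type} [Fintype i] (c : Set i) : Set (RR k c) :=
  {t | ∃ (l g : i) (hg : g ∈ c), t = tt k l hg}

theorem rgen_finite (c : Set i) : (rgen k c).Finite := by
  have h : rgen k c ⊆ Set.range (fun p : i × c => tt k p.1 p.2.2) := by
    rintro _ ⟨l, g, hg, rfl⟩
    exact ⟨(l, ⟨g, hg⟩), rfl⟩
  exact (Set.toFinite _).subset h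

/-- The coordinate ring of a chart is generated by the functions `x_l / x_g` (0.1). -/
theorem rgen_adjoin {c : Set i} (hc : c.Nonempty) : Algebra.adjoin k (rgen k c) = ⊤ := by
  obtain ⟨g, hg⟩ := hc
  refine eq_top_iff.2 ?_
  rintro ⟨f, hf⟩ -
  have hle : OO k 0 c ≤ (Subalgebra.map (RR k c).val (Algebra.adjoin k (rgen k c))).toSubmodule := by
    refine Submodule.span_le.2 ?_
    rintro _ ⟨e, he, rfl⟩
    rw [SetLike.mem_coe, Subalgebra.mem_toSubmodule]
    have h1 : mon k e = ∏ l, mon k (e l • ex l g) := by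
      rw [mon_sum, ← ex_sum e he.1 g]
    rw [h1]
    refine Subalgebra.prod_mem _ fun l _ => ?_
    by_cases hl : 0 ≤ e l
    · obtain ⟨n, hn⟩ := Int.eq_ofNat_of_zero_le hl
      have h2 : mon k (e l • ex l g) = (mon k (ex l g)) ^ n := by
        rw [mon_pow, hn, natCast_zsmul]
      rw [h2]
      have h3 : mon k (ex l g) ∈ Subalgebra.map (RR k c).val (Algebra.adjoin k (rgen k c)) :=
        ⟨tt k l hg, Algebra.subset_adjoin ⟨l, g, hg, rfl⟩, rfl⟩
      exact Subalgebra.pow_mem _ h3 n
    · have hlc : l ∈ c := by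
        by_contra hcon
        exact hl (he.2 l hcon)
      obtain ⟨n, hn⟩ := Int.eq_ofNat_of_zero_le (a := -e l) (by omega)
      have h2 : mon k (e l • ex l g) = (mon k (ex g l)) ^ n := by
        rw [mon_pow, ← ex_neg, ← natCast_zsmul, ← hn, smul_neg, neg_smul]
      rw [h2]
      have h3 : mon k (ex g l) ∈ Subalgebra.map (RR k c).val (Algebra.adjoin k (rgen k c)) :=
        ⟨tt k g hlc, Algebra.subset_adjoin ⟨g, l, hlc, rfl⟩, rfl⟩
      exact Subalgebra.pow_mem _ h3 n
  obtain ⟨x, hx, hx'⟩ := hle hf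
  have h3 : x = ⟨f, hf⟩ := Subtype.ext hx'
  rw [← h3]
  exact hx

theorem rr_finiteType {c : Set i} (hc : c.Nonempty) : Algebra.FiniteType k (RR k c) := by
  refine ⟨⟨(rgen_finite (k := k) c).toFinset, ?_⟩⟩
  rw [Set.Finite.coe_toFinset]
  exact rgen_adjoin hc

instance rr_ft (c : Ch i) : Algebra.FiniteType k (RR k c.1) := rr_finiteType c.2.1

instance rr_noe (c : Ch i) : IsNoetherianRing (RR k c.1) :=
  Algebra.FiniteType.isNoetherianRing k _

instance rr2_ft (c : Ch i) (c' : Ch j) : Algebra.FiniteType k (RR k c.1 ⊗[k] RR k c'.1) :=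
  Algebra.FiniteType.trans (S := RR k c.1) inferInstance inferInstance

instance rr2_noe (c : Ch i) (c' : Ch j) : IsNoetherianRing (RR k c.1 ⊗[k] RR k c'.1) :=
  Algebra.FiniteType.isNoetherianRing k (RR k c.1 ⊗[k] RR k c'.1)

/-- The algebras of sections of a coherent algebra are Noetherian. -/
instance CA.noe (A : CA k i) (c : Ch i) : IsNoetherianRing (A.A c) := by
  have := A.fin c
  exact isNoetherian_of_tower (RR k c.1) inferInstance

instance CA.noe_op (A : CA k i) (c : Ch i) : IsNoetherianRing (A.A c)ᵐᵒᵖ := by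
  have := A.fin c
  have : Module.Finite (RR k c.1) (A.A c)ᵐᵒᵖ :=
    Module.Finite.equiv (MulOpposite.opLinearEquiv (RR k c.1))
  exact isNoetherian_of_tower (RR k c.1) inferInstance

section bs

variable (A : CA k i) (A' : CA k j)

/-- The central subalgebra `R_c ⊗ R_{c'}` of `A_c ⊗ A'_{c'}ᵒᵖ`. -/
def rB (p : Ch i × Ch j) : RR k p.1.1 ⊗[k] RR k p.2.1 →ₐ[k] bsB A A' p :=
  Algebra.TensorProduct.map (IsScalarTower.toAlgHom k (RR k p.1.1) (A.A p.1))
    (IsScalarTower.toAlgHom k (RR k p.2.1) (A'.A p.2)ᵐᵒᵖ)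

theorem rB_tmul (p : Ch i × Ch j) (r : RR k p.1.1) (r' : RR k p.2.1) :
    rB A A' p (r ⊗ₜ r') = algebraMap (RR k p.1.1) (A.A p.1) r ⊗ₜ
      MulOpposite.op (algebraMap (RR k p.2.1) (A'.A p.2) r') := rfl

theorem rB_comm (p : Ch i × Ch j) (r : RR k p.1.1 ⊗[k] RR k p.2.1) (b : bsB A A' p) :
    rB A A' p r * b = b * rB A A' p r := by
  induction r using TensorProduct.induction_on with
  | zero => rw [map_zero, zero_mul, mul_zero]
  | add r r' h h' => rw [map_add, add_mul, mul_add, h, h']
  | tmul r r' =>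
    induction b using TensorProduct.induction_on with
    | zero => rw [zero_mul, mul_zero]
    | add b b' h h' => rw [mul_add, add_mul, h, h']
    | tmul a a' =>
      rw [rB_tmul, Algebra.TensorProduct.tmul_mul_tmul, Algebra.TensorProduct.tmul_mul_tmul,
        Algebra.commutes]
      congr 1
      refine MulOpposite.unop_injective ?_
      rw [MulOpposite.unop_mul, MulOpposite.unop_mul, MulOpposite.unop_op, Algebra.commutes]

/-- `A_c ⊗ A'_{c'}ᵒᵖ` is a finitely generated module over `R_c ⊗ R_{c'}`. -/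
theorem rB_span (p : Ch i × Ch j) : ∃ (n m : ℕ) (s : Fin n × Fin m → bsB A A' p),
    ∀ x : bsB A A' p, ∃ r : Fin n × Fin m → RR k p.1.1 ⊗[k] RR k p.2.1,
      x = ∑ q, rB A A' p (r q) * s q := by
  obtain ⟨n, a, ha⟩ := (Submodule.fg_iff_exists_fin_generating_family).1 (A.fin p.1).fg_top
  obtain ⟨m, b, hb⟩ := (Submodule.fg_iff_exists_fin_generating_family).1 (A'.fin p.2).fg_top
  refine ⟨n, m, fun q => a q.1 ⊗ₜ MulOpposite.op (b q.2), fun x => ?_⟩
  induction x using TensorProduct.induction_on with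
  | zero =>
    refine ⟨0, ?_⟩
    simp only [Pi.zero_apply, map_zero, zero_mul, Finset.sum_const_zero]
  | add x y hx hy =>
    obtain ⟨r, hr⟩ := hx
    obtain ⟨r', hr'⟩ := hy
    refine ⟨r + r', ?_⟩
    simp only [Pi.add_apply, map_add, add_mul, Finset.sum_add_distrib, ← hr, ← hr']
  | tmul x y =>
    have hx : x ∈ Submodule.span (RR k p.1.1) (Set.range a) := by
      rw [ha]
      exact Submodule.mem_top
    have hy : y.unop ∈ Submodule.span (RR k p.2.1) (Set.range b) := by
      rw [hb]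
      exact Submodule.mem_top
    obtain ⟨r, hr⟩ := (Submodule.mem_span_range_iff_exists_fun _).1 hx
    obtain ⟨r', hr'⟩ := (Submodule.mem_span_range_iff_exists_fun _).1 hy
    refine ⟨fun q => r q.1 ⊗ₜ r' q.2, ?_⟩
    have h1 : ∀ q : Fin n × Fin m, rB A A' p (r q.1 ⊗ₜ r' q.2) *
        (a q.1 ⊗ₜ[k] MulOpposite.op (b q.2)) =
        (r q.1 • a q.1) ⊗ₜ[k] MulOpposite.op (r' q.2 • b q.2) := by
      intro q
      rw [rB_tmul, Algebra.TensorProduct.tmul_mul_tmul, ← Algebra.smul_def, ← MulOpposite.op_mul,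
        ← Algebra.commutes, ← Algebra.smul_def]
    rw [Finset.sum_congr rfl (fun q _ => h1 q), Fintype.sum_prod_type]
    have h2 : y = MulOpposite.op (∑ l, r' l • b l) := by
      rw [hr', MulOpposite.op_unop]
    rw [h2, ← hr, TensorProduct.sum_tmul]
    refine Finset.sum_congr rfl fun q _ => ?_
    have h3 : MulOpposite.op (∑ l, r' l • b l) = ∑ l, MulOpposite.op (r' l • b l) :=
      map_sum MulOpposite.opAddEquiv _ _
    rw [h3, TensorProduct.tmul_sum]

end bs

theorem noe_of_central {R B : Type*} [CommRing R] [IsNoetherianRing R] [Ring B] (f : R →+* B)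
    (hf : ∀ r b, f r * b = b * f r) {I : Type*} [Fintype I] (s : I → B)
    (hs : ∀ x, ∃ r : I → R, x = ∑ m, f (r m) * s m) : IsNoetherianRing B := by
  let _ : Algebra R B := f.toAlgebra' hf
  have h1 : Module.Finite R B := by
    refine ⟨Submodule.fg_def.2 ⟨Set.range s, Set.finite_range s, eq_top_iff.2 fun x _ => ?_⟩⟩
    obtain ⟨r, rfl⟩ := hs x
    exact Submodule.sum_mem _ fun m _ => Submodule.smul_mem _ (r m)
      (Submodule.subset_span ⟨m, rfl⟩)
  exact isNoetherian_of_tower R inferInstance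

theorem bsB_noe (A : CA k i) (A' : CA k j) (p : Ch i × Ch j) : IsNoetherianRing (bsB A A' p) := by
  obtain ⟨n, m, s, hs⟩ := rB_span A A' p
  exact noe_of_central (R := RR k p.1.1 ⊗[k] RR k p.2.1) (B := bsB A A' p)
    (rB A A' p : RR k p.1.1 ⊗[k] RR k p.2.1 →+* bsB A A' p) (fun r b => rB_comm A A' p r b) s hs

theorem bs_noe (A : CA k i) (A' : CA k j) : (bs A A').Noe := fun p => bsB_noe A A' p

end Pool.Agent.MP_6e5bed_ag_GG
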