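import Pool.Agent.Lib.MP_6e5bed_ag_GG.GB
import Pool.Agent.Lib.MP_6e5bed_ag_GG.Noe
import Pool.Agent.Lib.MP_6e5bed_ag_GG.GEa

set_option autoImplicit false
set_option linter.unusedSectionVars false
set_option linter.unusedVariables false

/-!
# MP_6e5bed_ag, THEOREM G: the algebra of the generic data is central simple over its centre
-/

noncomputable section

namespace Pool.Agent.MP_6e5bed_ag_GG

universe u

variable {k : Type u} [Field k] {i : Type} [Fintype i] {A : CA k i} {m : Ch i}

namespace GD

variable (g : GD A m)

/-- the functions on the chart as a homomorphism of algebras -/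
def fnA : RR k m.1 →ₐ[k] g.S :=
  g.psi.comp (IsScalarTower.toAlgHom k (RR k m.1) (A.A m))

theorem fnA_apply (f : RR k m.1) : g.fnA f = g.fn f := rfl

theorem main : IsSimpleRing g.S ∧ Module.Finite (Subalgebra.center k g.S) g.S ∧
    Algebra.EssFiniteType k (Subalgebra.center k g.S) := by
  have := A.fin m
  obtain ⟨n, a, ha⟩ := Module.Finite.exists_fin (R := RR k m.1) (M := A.A m)
  refine prime_fin g.fnA (fun f s => g.fn_comm f s) (fun f hf => g.unit f hf) g.ne
    (fun t => g.psi (a t)) (fun s => ?_) g.pr
  obtain ⟨f, hf, b, hb⟩ := g.surj s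
  refine ⟨f, hf, ?_⟩
  have hb' : b ∈ Submodule.span (RR k m.1) (Set.range a) := by
    rw [ha]
    exact Submodule.mem_top
  obtain ⟨r, hr⟩ := (Submodule.mem_span_range_iff_exists_fun _).1 hb'
  refine ⟨r, ?_⟩
  change g.psi (algebraMap _ _ f) * s = ∑ t, g.psi (algebraMap _ _ (r t)) * g.psi (a t)
  rw [← hb, ← hr, map_sum]
  refine Finset.sum_congr rfl fun t _ => ?_
  rw [Algebra.smul_def, map_mul]

instance simple : IsSimpleRing g.S := g.main.1

instance finite : Module.Finite (Subalgebra.center k g.S) g.S := g.main.2.1

instance ess : Algebra.EssFiniteType k (Subalgebra.center k g.S) := g.main.2.2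

instance central : Algebra.IsCentral (Subalgebra.center k g.S) g.S := cen_isCentral

theorem isField : IsField (Subalgebra.center k g.S) := cen_isField

/-- the centre as a field -/
@[implicit_reducible]
def fieldC : Field (Subalgebra.center k g.S) := g.isField.toField

/-- everything about the centre, with an abstract field -/
theorem exists_L : ∃ (L : Type u) (_ : Field L) (_ : Algebra k L) (_ : Algebra L g.S)
    (_ : IsScalarTower k L g.S), Algebra.IsCentral L g.S ∧ Module.Finite L g.S ∧
    Algebra.EssFiniteType k L ∧
    ∀ P : ∀ (Z : Type u) [CommRing Z] [Algebra k Z], Prop, P (Subalgebra.center k g.S) → P L := by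
  let _ := g.fieldC
  exact ⟨Subalgebra.center k g.S, g.fieldC, inferInstanceAs (Algebra k (Subalgebra.center k g.S)),
    cenAlg g.S, cenTower g.S, g.central, g.finite, g.ess, fun P h => h⟩

end GD

end Pool.Agent.MP_6e5bed_ag_GG
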