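import Pool.Agent.Lib.MP_6e5bed_ag_GG.TLocS
import Pool.Agent.Lib.MP_6e5bed_ag_PN.ExtP

set_option autoImplicit false
set_option linter.unusedVariables false

/-!
# MP_6e5bed_ag, THEOREM G, section 6: the presheaf `X_c ⊗_W V ⊗_W Y_{c'}` and its quasi-coherence
-/

noncomputable section

namespace Pool.Agent.MP_6e5bed_ag_GG

open Pool.Agent.MP_6e5bed_ag_NC Pool.Agent.MP_6e5bed_ag_PN
open Pool.Agent.MP_6e5bed_ag_NS (Cx CHom ringH)
open scoped TensorProduct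

universe u

variable {k : Type u} [Field k] {i j : Type} [Fintype i] [Fintype j] {A : CA k i} {A' : CA k j}
  {W W' : DGA k}

/-- a presheaf of bimodules in two variables as a complex of bisheaves -/
def BPB.ofTwo (M : PB2 A.pa A'.pa) : BPB A A' where
  F := fun p => M.M p.1 p.2
  ρ := fun h => M.ρ h.1 h.2
  dd := fun h => M.dd h.1 h.2
  ρ_id := fun h x => M.ρ_id h.1 h.2 x
  ρ_ρ := fun h h' x => M.ρ_ρ h.1 h.2 h'.1 h'.2 x

theorem BPB.ofTwo_two (M : PB2 A.pa A'.pa) : (BPB.ofTwo M).two = M := rfl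

/-- The presheaf `X_c ⊗_W V ⊗_W Y_{c'}`. -/
def BPB.cmp (X : PB A.pa (PA.con i W)) (V : Bim W W') (Y : PB (PA.con j W') A'.pa) : BPB A A' :=
  BPB.ofTwo (PB.ext X (PB.tbL V Y))

theorem BPB.cmp_two (X : PB A.pa (PA.con i W)) (V : Bim W W') (Y : PB (PA.con j W') A'.pa) :
    (BPB.cmp X V Y).two = PB.ext X (PB.tbL V Y) := rfl

theorem BPB.cmp_BB (X : PB A.pa (PA.con i W)) (V : Bim W W') (Y : PB (PA.con j W') A'.pa) :
    (BPB.cmp X V Y).BB =
      cB2 (PB.ext X (PB.tbL V Y)) (LL i) (FS.e i) (LL j) (FS.e j) := rfl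

theorem BPB.cmp_F (X : PB A.pa (PA.con i W)) (V : Bim W W') (Y : PB (PA.con j W') A'.pa)
    (p : Ch i × Ch j) : (BPB.cmp X V Y).F p = tb (X.M p.1) (tb V (Y.M p.2)) := rfl

theorem BPB.cmp_ρ (X : PB A.pa (PA.con i W)) (V : Bim W W') (Y : PB (PA.con j W') A'.pa)
    {p q : Ch i × Ch j} (h : p ≤ q) (x : (X.M p.1).M) (v : V.M) (y : (Y.M p.2).M) :
    ((BPB.cmp X V Y).ρ h).f (tm x (tm v y)) =
      tm (M := X.M q.1) (N := tb V (Y.M q.2)) ((X.ρ h.1).f x)
        (tm (M := V) (N := Y.M q.2) v ((Y.ρ h.2).f y)) := by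
  refine (PB.ext_ρ X (PB.tbL V Y) h.1 h.2 x _).trans ?_
  exact congrArg (fun z => tm (M := X.M q.1) (N := tb V (Y.M q.2)) ((X.ρ h.1).f x) z)
    (PB.tbL_ρ V Y h.2 v y)

/-- Quasi-coherence in the first variable, for the left action. -/
def QCl (X : PB A.pa (PA.con i W)) : Prop := ∀ {c d : Ch i} (h : c ≤ d) {g : i} (hg : g ∈ c.1)
  (l : i), d.1 ⊆ insert l c.1 → LocP (V := (X.M c).M) (V' := (X.M d).M) (X.ρ h).f
    ((X.M c).l (algebraMap (RR k c.1) (A.A c) (tt k l hg)))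
    ((X.M d).l (algebraMap (RR k d.1) (A.A d) (tt k l (h hg))))

/-- Quasi-coherence in the second variable, for the right action. -/
def QCr (Y : PB (PA.con j W) A'.pa) : Prop := ∀ {c d : Ch j} (h : c ≤ d) {g : j} (hg : g ∈ c.1)
  (l : j), d.1 ⊆ insert l c.1 → LocP (V := (Y.M c).M) (V' := (Y.M d).M) (Y.ρ h).f
    ((Y.M c).r (algebraMap (RR k c.1) (A'.A c) (tt k l hg)))
    ((Y.M d).r (algebraMap (RR k d.1) (A'.A d) (tt k l (h hg))))

/-- it suffices to know quasi-coherence in each variable -/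
theorem BPB.QC.of_two (F : BPB A A')
    (h1 : ∀ (b : Ch j) {c d : Ch i} (h : c ≤ d) {g : i} (hg : g ∈ c.1) (l : i),
      d.1 ⊆ insert l c.1 → LocP (V := (F.F (c, b)).M) (V' := (F.F (d, b)).M)
        (F.two.ρ h (le_refl b)).f
        ((F.F (c, b)).l (algebraMap (RR k c.1) (A.A c) (tt k l hg)))
        ((F.F (d, b)).l (algebraMap (RR k d.1) (A.A d) (tt k l (h hg)))))
    (h2 : ∀ (a : Ch i) {c d : Ch j} (h : c ≤ d) {g : j} (hg : g ∈ c.1) (l : j),
      d.1 ⊆ insert l c.1 → LocP (V := (F.F (a, c)).M) (V' := (F.F (a, d)).M)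
        (F.two.ρ (le_refl a) h).f
        ((F.F (a, c)).r (algebraMap (RR k c.1) (A'.A c) (tt k l hg)))
        ((F.F (a, d)).r (algebraMap (RR k d.1) (A'.A d) (tt k l (h hg))))) : F.QC := by
  intro p q t h
  obtain ⟨a, b⟩ := p
  obtain ⟨a', b'⟩ := q
  obtain ⟨hpq, ⟨l, g, hg, hd, hle, rfl⟩ | ⟨l, g, hg, hd, hle, rfl⟩⟩ := h
  · have e : b = b' := le_antisymm hpq.2 hle
    subst e
    have e1 : bact (F.F (a, b)) (algebraMap (RR k a.1) (A.A a) (tt k l hg) ⊗ₜ[k] 1) =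
        (F.F (a, b)).l (algebraMap (RR k a.1) (A.A a) (tt k l hg)) :=
      LinearMap.ext (fun x => bact_l _ _ x)
    have e2 : bsr A A' hpq (algebraMap (RR k a.1) (A.A a) (tt k l hg) ⊗ₜ[k] 1) =
        algebraMap (RR k a'.1) (A.A a') (tt k l (hpq.1 hg)) ⊗ₜ[k] 1 := by
      rw [bsr_tmul, A.res_R, MulOpposite.unop_one, map_one]
      rfl
    have e3 : bact (F.F (a', b)) (algebraMap (RR k a'.1) (A.A a') (tt k l (hpq.1 hg)) ⊗ₜ[k] 1) =
        (F.F (a', b)).l (algebraMap (RR k a'.1) (A.A a') (tt k l (hpq.1 hg))) :=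
      LinearMap.ext (fun x => bact_l _ _ x)
    have h3 := h1 b hpq.1 hg l hd
    rw [← e1, ← e3, ← e2] at h3
    exact h3
  · have e : a = a' := le_antisymm hpq.1 hle
    subst e
    have e1 : bact (F.F (a, b)) (1 ⊗ₜ[k] MulOpposite.op
        (algebraMap (RR k b.1) (A'.A b) (tt k l hg))) =
        (F.F (a, b)).r (algebraMap (RR k b.1) (A'.A b) (tt k l hg)) :=
      LinearMap.ext (fun x => bact_r _ _ x)
    have e2 : bsr A A' hpq (1 ⊗ₜ[k] MulOpposite.op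
        (algebraMap (RR k b.1) (A'.A b) (tt k l hg))) =
        1 ⊗ₜ[k] MulOpposite.op (algebraMap (RR k b'.1) (A'.A b') (tt k l (hpq.2 hg))) := by
      rw [bsr_tmul, MulOpposite.unop_op, A'.res_R, map_one]
      rfl
    have e3 : bact (F.F (a, b')) (1 ⊗ₜ[k] MulOpposite.op
        (algebraMap (RR k b'.1) (A'.A b') (tt k l (hpq.2 hg)))) =
        (F.F (a, b')).r (algebraMap (RR k b'.1) (A'.A b') (tt k l (hpq.2 hg))) :=
      LinearMap.ext (fun x => bact_r _ _ x)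
    have h3 := h2 a hpq.2 hg l hd
    rw [← e1, ← e3, ← e2] at h3
    exact h3

/-- and conversely -/
theorem BPB.QC.fst {F : BPB A A'} (hF : F.QC) (b : Ch j) {c d : Ch i} (h : c ≤ d) {g : i}
    (hg : g ∈ c.1) (l : i) (hd : d.1 ⊆ insert l c.1) :
    LocP (V := (F.F (c, b)).M) (V' := (F.F (d, b)).M) (F.two.ρ h (le_refl b)).f
      ((F.F (c, b)).l (algebraMap (RR k c.1) (A.A c) (tt k l hg)))
      ((F.F (d, b)).l (algebraMap (RR k d.1) (A.A d) (tt k l (h hg)))) := by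
  have h3 := hF (p := (c, b)) (q := (d, b)) ⟨⟨h, le_refl b⟩, Or.inl ⟨l, g, hg, hd, le_refl b, rfl⟩⟩
  have e1 : bact (F.F (c, b)) (algebraMap (RR k c.1) (A.A c) (tt k l hg) ⊗ₜ[k] 1) =
      (F.F (c, b)).l (algebraMap (RR k c.1) (A.A c) (tt k l hg)) :=
    LinearMap.ext (fun x => bact_l _ _ x)
  have e2 : bsr A A' (p := (c, b)) (q := (d, b)) ⟨h, le_refl b⟩
      (algebraMap (RR k c.1) (A.A c) (tt k l hg) ⊗ₜ[k] 1) =
      algebraMap (RR k d.1) (A.A d) (tt k l (h hg)) ⊗ₜ[k] 1 := by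
    rw [bsr_tmul, A.res_R, MulOpposite.unop_one, map_one]
    rfl
  have e3 : bact (F.F (d, b)) (algebraMap (RR k d.1) (A.A d) (tt k l (h hg)) ⊗ₜ[k] 1) =
      (F.F (d, b)).l (algebraMap (RR k d.1) (A.A d) (tt k l (h hg))) :=
    LinearMap.ext (fun x => bact_l _ _ x)
  rw [e1, e2, e3] at h3
  exact h3

theorem BPB.QC.snd {F : BPB A A'} (hF : F.QC) (a : Ch i) {c d : Ch j} (h : c ≤ d) {g : j}
    (hg : g ∈ c.1) (l : j) (hd : d.1 ⊆ insert l c.1) :
    LocP (V := (F.F (a, c)).M) (V' := (F.F (a, d)).M) (F.two.ρ (le_refl a) h).f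
      ((F.F (a, c)).r (algebraMap (RR k c.1) (A'.A c) (tt k l hg)))
      ((F.F (a, d)).r (algebraMap (RR k d.1) (A'.A d) (tt k l (h hg)))) := by
  have h3 := hF (p := (a, c)) (q := (a, d)) ⟨⟨le_refl a, h⟩, Or.inr ⟨l, g, hg, hd, le_refl a, rfl⟩⟩
  have e1 : bact (F.F (a, c)) (1 ⊗ₜ[k] MulOpposite.op
      (algebraMap (RR k c.1) (A'.A c) (tt k l hg))) =
      (F.F (a, c)).r (algebraMap (RR k c.1) (A'.A c) (tt k l hg)) :=
    LinearMap.ext (fun x => bact_r _ _ x)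
  have e2 : bsr A A' (p := (a, c)) (q := (a, d)) ⟨le_refl a, h⟩ (1 ⊗ₜ[k] MulOpposite.op
      (algebraMap (RR k c.1) (A'.A c) (tt k l hg))) =
      1 ⊗ₜ[k] MulOpposite.op (algebraMap (RR k d.1) (A'.A d) (tt k l (h hg))) := by
    rw [bsr_tmul, MulOpposite.unop_op, A'.res_R, map_one]
    rfl
  have e3 : bact (F.F (a, d)) (1 ⊗ₜ[k] MulOpposite.op
      (algebraMap (RR k d.1) (A'.A d) (tt k l (h hg)))) =
      (F.F (a, d)).r (algebraMap (RR k d.1) (A'.A d) (tt k l (h hg))) :=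
    LinearMap.ext (fun x => bact_r _ _ x)
  rw [e1, e2, e3] at h3
  exact h3

/-- (6.1) -/
theorem BPB.cmp_qc {X : PB A.pa (PA.con i W)} {V : Bim W W'} {Y : PB (PA.con j W') A'.pa}
    (hX : QCl X) (hY : QCr Y) : (BPB.cmp X V Y).QC := by
  refine BPB.QC.of_two _ ?_ ?_
  · intro b c d h g hg l hd
    refine LocP.tbR (X := X.M c) (X' := X.M d) (Q := tb V (Y.M b)) (hX h hg l hd)
      (fun w x => gm_r (X.ρ h) w x) (fun w x => (X.M c).l_r _ w x) (fun w x => (X.M d).l_r _ w x)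
      ?_ ?_ ?_
    · intro x q
      refine (PB.ext_ρ X (PB.tbL V Y) h (le_refl b) x q).trans ?_
      exact congrArg (fun z => tm (M := X.M d) (N := tb V (Y.M b)) ((X.ρ h).f x) z)
        ((PB.tbL V Y).ρ_id (le_refl b) q)
    · intro x q
      exact tb_l (M := X.M c) (N := tb V (Y.M b)) _ x q
    · intro x q
      exact tb_l (M := X.M d) (N := tb V (Y.M b)) _ x q
  · intro a c d h g hg l hd
    have h1 : LocP (V := (tb V (Y.M c)).M) (V' := (tb V (Y.M d)).M) ((PB.tbL V Y).ρ h).f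
        ((tb V (Y.M c)).r (algebraMap (RR k c.1) (A'.A c) (tt k l hg)))
        ((tb V (Y.M d)).r (algebraMap (RR k d.1) (A'.A d) (tt k l (h hg)))) := by
      refine LocP.tbL (Y := Y.M c) (Y' := Y.M d) (Q := V) (hY h hg l hd)
        (fun w x => gm_l (Y.ρ h) w x) (fun w x => ((Y.M c).l_r w _ x).symm)
        (fun w x => ((Y.M d).l_r w _ x).symm) ?_ ?_ ?_
      · intro v y
        exact PB.tbL_ρ V Y h v y
      · intro v y
        exact tb_r (M := V) (N := Y.M c) _ v y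
      · intro v y
        exact tb_r (M := V) (N := Y.M d) _ v y
    refine LocP.tbL (Y := tb V (Y.M c)) (Y' := tb V (Y.M d)) (Q := X.M a) h1
      (fun w x => gm_l ((PB.tbL V Y).ρ h) w x) (fun w x => ((tb V (Y.M c)).l_r w _ x).symm)
      (fun w x => ((tb V (Y.M d)).l_r w _ x).symm) ?_ ?_ ?_
    · intro x q
      refine (PB.ext_ρ X (PB.tbL V Y) (le_refl a) h x q).trans ?_
      exact congrArg (fun z => tm (M := X.M a) (N := tb V (Y.M d)) z
        (((PB.tbL V Y).ρ h).f q)) (X.ρ_id (le_refl a) x)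
    · intro x q
      exact tb_r (M := X.M a) (N := tb V (Y.M c)) _ x q
    · intro x q
      exact tb_r (M := X.M a) (N := tb V (Y.M d)) _ x q

/-- a bisheaf is quasi-coherent -/
theorem Sh.bp_qc (E : BS A A') : E.bp.QC := by
  have hb : ∀ {p : Ch i × Ch j} (t : bsB A A' p) (x : E.E p), bact (E.bp.F p) t x = t • x := by
    intro p t x
    induction t using TensorProduct.induction_on with
    | zero =>
      have h0 : (0 : A.A p.1 ⊗[k] (A'.A p.2)ᵐᵒᵖ) = (0 : A.A p.1) ⊗ₜ[k] (1 : (A'.A p.2)ᵐᵒᵖ) :=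
        (TensorProduct.zero_tmul _ _).symm
      rw [h0, tmul_smul_eq]
      rfl
    | tmul a b => exact (tmul_smul_eq a b x).symm
    | add a b ha hb =>
      rw [map_add, add_smul, LinearMap.add_apply, ha, hb]
      rfl
  have hbn : ∀ {p : Ch i × Ch j} (t : bsB A A' p) (n : ℕ) (x : E.E p),
      (bact (E.bp.F p) t ^ n) x = t ^ n • x := by
    intro p t n x
    rw [← map_pow, hb]
  intro p q t h
  refine ⟨E.bp.rho_act h.1 _, fun y => ?_, fun x hx => ?_⟩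
  · obtain ⟨n, x, hx⟩ := E.surj h y
    exact ⟨n, x, hx.trans (hbn _ n y).symm⟩
  · obtain ⟨n, hn⟩ := E.inj h x hx
    exact ⟨n, (hbn _ n x).trans hn⟩

end Pool.Agent.MP_6e5bed_ag_GG
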