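import Pool.Agent.Lib.MP_6e5bed_ag_GG.Cb
import Pool.Agent.Lib.MP_6e5bed_ag_PN.Kun

set_option autoImplicit false
set_option linter.unusedVariables false

/-!
# MP_6e5bed_ag, THEOREM G, section (6.2): `X ⊗_W (W ⊗ W') ⊗_{W'} Y = X ⊗ Y`
-/

noncomputable section

namespace Pool.Agent.MP_6e5bed_ag_GG

open Pool.Agent.MP_6e5bed_ag_NC Pool.Agent.MP_6e5bed_ag_PN
open Pool.Agent.MP_6e5bed_ag_NS (Cx CHom)
open scoped TensorProduct

universe u

variable {k : Type u} [Field k] {A W W' C : DGA k} (X : Bim A W) (Y : Bim W' C)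

/-- `x ⊗ y ↦ x ⊗ (1 ⊗ 1) ⊗ y` -/
def frF : X.M ⊗[k] Y.M →ₗ[k] (tb X (tb (free W W') Y)).M :=
  TensorProduct.lift ((tmB X (tb (free W W') Y)).compl₂
    (tmB (free W W') Y (show W.A ⊗[k] W'.A from W.one ⊗ₜ[k] W'.one)))

/-- the unit of the free bimodule -/
def fr1 (W W' : DGA k) : (free W W').M := (W.one ⊗ₜ[k] W'.one : W.A ⊗[k] W'.A)

theorem frF_tmul (x : X.M) (y : Y.M) : frF X Y (x ⊗ₜ y) =
    tm (M := X) (N := tb (free W W') Y) x (tm (M := free W W') (N := Y) (fr1 W W') y) := rfl

/-- `w ⊗ w'` acts by `x ⊗ y ↦ x w ⊗ w' y` -/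
def frγ : W.A ⊗[k] W'.A →ₗ[k] X.M ⊗[k] Y.M →ₗ[k] X.M ⊗[k] Y.M :=
  TensorProduct.lift (LinearMap.mk₂ k (fun w w' => TensorProduct.map (X.r w) (Y.l w'))
    (fun a b c => by rw [map_add, TensorProduct.map_add_left])
    (fun t a c => by rw [map_smul, TensorProduct.map_smul_left])
    (fun a b c => by rw [map_add, TensorProduct.map_add_right])
    (fun t a c => by rw [map_smul, TensorProduct.map_smul_right]))

theorem frγ_tmul (w : W.A) (w' : W'.A) (x : X.M) (y : Y.M) :
    frγ X Y (w ⊗ₜ w') (x ⊗ₜ y) = X.r w x ⊗ₜ Y.l w' y := rfl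

/-- for a fixed `x` -/
def frδ (x : X.M) : W.A ⊗[k] W'.A →ₗ[k] Y.M →ₗ[k] X.M ⊗[k] Y.M :=
  (frγ X Y).compl₂ (TensorProduct.mk k X.M Y.M x)

theorem frδ_apply (x : X.M) (c : W.A ⊗[k] W'.A) (y : Y.M) :
    frδ X Y x c y = frγ X Y c (x ⊗ₜ y) := rfl

theorem free_l_tmul (w a : W.A) (b : W'.A) :
    (free W W').l w (a ⊗ₜ[k] b : W.A ⊗[k] W'.A) = (W.mul w a ⊗ₜ[k] b : W.A ⊗[k] W'.A) := rfl

theorem free_r_tmul (w : W'.A) (a : W.A) (b : W'.A) :
    (free W W').r w (a ⊗ₜ[k] b : W.A ⊗[k] W'.A) = (a ⊗ₜ[k] W'.mul b w : W.A ⊗[k] W'.A) := rfl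

theorem frδ_bal (x : X.M) (c : (free W W').M) (w : W'.A) (y : Y.M) :
    frδ X Y x ((free W W').r w c) y = frδ X Y x c (Y.l w y) := by
  rw [frδ_apply, frδ_apply]
  change W.A ⊗[k] W'.A at c
  induction c using TensorProduct.induction_on with
  | zero =>
    rw [map_zero]
    rw [LinearMap.zero_apply]
    exact congrArg (fun z => frγ X Y z (x ⊗ₜ[k] y)) (map_zero ((free W W').r w))
  | tmul a b =>
    rw [free_r_tmul]
    refine (frγ_tmul X Y a (W'.mul b w) x y).trans ?_
    rw [frγ_tmul, Y.l_mul]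
  | add a b ha hb =>
    rw [map_add, LinearMap.add_apply, ← ha, ← hb, ← LinearMap.add_apply, ← map_add]
    exact congrArg (fun z => frγ X Y z (x ⊗ₜ[k] y)) (map_add ((free W W').r w) a b)

/-- the inner map -/
def frG2 (x : X.M) : (tb (free W W') Y).M →ₗ[k] X.M ⊗[k] Y.M :=
  tlift (M := free W W') (N := Y) (frδ X Y x) (fun c w y => frδ_bal X Y x c w y)

theorem frG2_tm (x : X.M) (c : (free W W').M) (y : Y.M) :
    frG2 X Y x (tm (M := free W W') (N := Y) c y) = frγ X Y c (x ⊗ₜ y) :=
  tlift_tm (M := free W W') (N := Y) (frδ X Y x) (fun c w y => frδ_bal X Y x c w y) c y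

theorem frG2_add (x x' : X.M) (z : (tb (free W W') Y).M) :
    frG2 X Y (x + x') z = frG2 X Y x z + frG2 X Y x' z := by
  refine tb_ind (M := free W W') (N := Y)
    (P := fun z => frG2 X Y (x + x') z = frG2 X Y x z + frG2 X Y x' z) ?_ ?_ ?_ z
  · rw [map_zero, map_zero, map_zero, add_zero]
  · intro a b ha hb
    rw [map_add, map_add, map_add, ha, hb]
    abel
  · intro c y
    rw [frG2_tm, frG2_tm, frG2_tm, TensorProduct.add_tmul, map_add]

theorem frG2_smul (r : k) (x : X.M) (z : (tb (free W W') Y).M) :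
    frG2 X Y (r • x) z = r • frG2 X Y x z := by
  refine tb_ind (M := free W W') (N := Y)
    (P := fun z => frG2 X Y (r • x) z = r • frG2 X Y x z) ?_ ?_ ?_ z
  · rw [map_zero, map_zero, smul_zero]
  · intro a b ha hb
    rw [map_add, map_add, ha, hb, smul_add]
  · intro c y
    rw [frG2_tm, frG2_tm, ← TensorProduct.smul_tmul', map_smul]

/-- the bilinear map -/
def frG3 : X.M →ₗ[k] (tb (free W W') Y).M →ₗ[k] X.M ⊗[k] Y.M :=
  LinearMap.mk₂ k (fun x z => frG2 X Y x z) (frG2_add X Y) (frG2_smul X Y)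
    (fun x a b => map_add (frG2 X Y x) a b) (fun r x a => map_smul (frG2 X Y x) r a)

theorem frG3_apply (x : X.M) (z : (tb (free W W') Y).M) : frG3 X Y x z = frG2 X Y x z := rfl

theorem frG3_bal (x : X.M) (w : W.A) (z : (tb (free W W') Y).M) :
    frG3 X Y (X.r w x) z = frG3 X Y x ((tb (free W W') Y).l w z) := by
  rw [frG3_apply, frG3_apply]
  refine tb_ind (M := free W W') (N := Y)
    (P := fun z => frG2 X Y (X.r w x) z = frG2 X Y x ((tb (free W W') Y).l w z)) ?_ ?_ ?_ z
  · rw [map_zero, map_zero, map_zero]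
  · intro a b ha hb
    rw [map_add, map_add, map_add, ha, hb]
  · intro c y
    rw [frG2_tm]
    refine Eq.trans ?_ (congrArg (frG2 X Y x) (tb_l (M := free W W') (N := Y) w c y)).symm
    rw [frG2_tm]
    change W.A ⊗[k] W'.A at c
    induction c using TensorProduct.induction_on with
    | zero =>
      refine Eq.trans ?_ (congrArg (fun z => frγ X Y z (x ⊗ₜ[k] y))
        (map_zero ((free W W').l w))).symm
      rw [map_zero]
      rfl
    | tmul a b =>
      rw [free_l_tmul]
      refine Eq.trans ?_ (frγ_tmul X Y (W.mul w a) b x y).symm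
      rw [frγ_tmul, X.r_mul]
    | add a b ha hb =>
      refine Eq.trans ?_ (congrArg (fun z => frγ X Y z (x ⊗ₜ[k] y))
        (map_add ((free W W').l w) a b)).symm
      refine Eq.trans ?_ (congrArg (fun φ : X.M ⊗[k] Y.M →ₗ[k] X.M ⊗[k] Y.M => φ (x ⊗ₜ[k] y))
        (map_add (frγ X Y) _ _)).symm
      rw [map_add, LinearMap.add_apply, LinearMap.add_apply, ha, hb]
      rfl

/-- the inverse map -/
def frG : (tb X (tb (free W W') Y)).M →ₗ[k] X.M ⊗[k] Y.M :=
  tlift (M := X) (N := tb (free W W') Y) (frG3 X Y) (fun x w z => frG3_bal X Y x w z)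

theorem frG_tm (x : X.M) (z : (tb (free W W') Y).M) :
    frG X Y (tm (M := X) (N := tb (free W W') Y) x z) = frG2 X Y x z :=
  tlift_tm (M := X) (N := tb (free W W') Y) (frG3 X Y) (fun x w z => frG3_bal X Y x w z) x z

theorem frG_frF (v : X.M ⊗[k] Y.M) : frG X Y (frF X Y v) = v := by
  induction v using TensorProduct.induction_on with
  | zero => rw [map_zero, map_zero]
  | tmul x y =>
    rw [frF_tmul, frG_tm, frG2_tm]
    refine (frγ_tmul X Y W.one W'.one x y).trans ?_
    rw [X.r_one, Y.l_one]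
  | add a b ha hb => rw [map_add, map_add, ha, hb]

theorem frF_frG (v : (tb X (tb (free W W') Y)).M) : frF X Y (frG X Y v) = v := by
  refine tb_ind (M := X) (N := tb (free W W') Y) (P := fun v => frF X Y (frG X Y v) = v)
    ?_ ?_ ?_ v
  · rw [map_zero, map_zero]
  · intro a b ha hb
    rw [map_add, map_add, ha, hb]
  · intro x z
    rw [frG_tm]
    refine tb_ind (M := free W W') (N := Y) (P := fun z => frF X Y (frG2 X Y x z) =
      tm (M := X) (N := tb (free W W') Y) x z) ?_ ?_ ?_ z
    · rw [map_zero, map_zero, tm_zero_right]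
    · intro a b ha hb
      rw [map_add, map_add, ha, hb, tm_add_right]
    · intro c y
      rw [frG2_tm]
      change W.A ⊗[k] W'.A at c
      induction c using TensorProduct.induction_on with
      | zero =>
        rw [map_zero, LinearMap.zero_apply, map_zero]
        have h1 : tm (M := free W W') (N := Y) (0 : (free W W').M) y = 0 := tm_zero_left y
        exact (tm_zero_right (M := X) (N := tb (free W W') Y) x).symm.trans
          (congrArg (fun z => tm (M := X) (N := tb (free W W') Y) x z) h1.symm)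
      | tmul a b =>
        refine (congrArg (frF X Y) (frγ_tmul X Y a b x y)).trans ?_
        rw [frF_tmul, tm_r_l]
        refine congrArg (fun z => tm (M := X) (N := tb (free W W') Y) x z) ?_
        refine (tb_l (M := free W W') (N := Y) a (fr1 W W') (Y.l b y)).trans ?_
        rw [← tm_r_l]
        refine congrArg (fun z => tm (M := free W W') (N := Y) z y) ?_
        refine (congrArg ((free W W').r b) (free_l_tmul a W.one W'.one)).trans ?_
        refine (free_r_tmul b (W.mul a W.one) W'.one).trans ?_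
        rw [W.mul_one, W'.one_mul]
      | add a b ha hb =>
        rw [map_add, LinearMap.add_apply, map_add, ha, hb, ← tm_add_right]
        exact congrArg (fun z => tm (M := X) (N := tb (free W W') Y) x z)
          (tm_add_left (M := free W W') (N := Y) a b y).symm

theorem fr1_d : (free W W').dg.d (fr1 W W') = 0 := by
  refine (Dg.tensor_d (X := W.dg) (Y := W'.dg) W.one W'.one).trans ?_
  rw [W.d_one, W'.d_one, TensorProduct.zero_tmul, TensorProduct.tmul_zero, add_zero]
  rfl

theorem fr1_s : (free W W').dg.s (fr1 W W') = fr1 W W' := by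
  refine (Dg.tensor_s (X := W.dg) (Y := W'.dg) W.one W'.one).trans ?_
  rw [W.s_one, W'.s_one]
  rfl

theorem frF_d (v : X.M ⊗[k] Y.M) :
    (tb X (tb (free W W') Y)).dg.d (frF X Y v) = frF X Y ((X.dg.tensor Y.dg).d v) := by
  induction v using TensorProduct.induction_on with
  | zero => simp only [map_zero]
  | tmul x y =>
    rw [frF_tmul]
    refine (tb_d (M := X) (N := tb (free W W') Y) x _).trans ?_
    rw [Dg.tensor_d, map_add, frF_tmul, frF_tmul]
    refine congrArg (fun z => tm (M := X) (N := tb (free W W') Y) (X.dg.d x)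
      (tm (M := free W W') (N := Y) (fr1 W W') y) +
        tm (M := X) (N := tb (free W W') Y) (X.dg.s x) z) ?_
    refine (tb_d (M := free W W') (N := Y) (fr1 W W') y).trans ?_
    rw [fr1_d, fr1_s, tm_zero_left, zero_add]
  | add a b ha hb => simp only [map_add, ha, hb]

/-- `X ⊗ Y → X ⊗_W (W ⊗ W') ⊗_{W'} Y` as a morphism of complexes -/
def frH : CHom (tcx (bcx X) (bcx Y)) (bcx (tb X (tb (free W W') Y))) where
  f := frF X Y
  deg := fun {n v} hv => by
    have h := Dg.tensor_degMap (X := X.dg) (Y := Y.dg) (Z := (tb X (tb (free W W') Y)).dg)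
      (n := 0) (frF X Y) (fun i j x y hx hy => by
        rw [add_zero, frF_tmul]
        refine tb_deg (M := X) (N := tb (free W W') Y) hx ?_
        have h1 : (free W W').dg.IsDeg 0 (fr1 W W') := by
          have h2 := Dg.tensor_deg W.one_deg W'.one_deg
          rwa [add_zero] at h2
        have h3 := tb_deg (M := free W W') (N := Y) h1 hy
        rwa [zero_add] at h3) hv
    rwa [add_zero] at h
  d := fun v => by
    exact frF_d X Y v

theorem frH_f (v : X.M ⊗[k] Y.M) : (frH X Y).f v = frF X Y v := rfl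

end Pool.Agent.MP_6e5bed_ag_GG
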