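import Pool.Agent.Lib.MP_6e5bed_ag_GG.TDh

set_option autoImplicit false
set_option linter.unusedVariables false
set_option linter.unusedSectionVars false
set_option linter.style.haveILetI false

/-!
# MP_6e5bed_ag, THEOREM G: the coherent algebra `Γ~`
-/

noncomputable section

namespace Pool.Agent.MP_6e5bed_ag_GG

open MvPolynomial Pool.Agent.MP_6e5bed_ag_Pn

universe u

variable {ν : ℕ} {k Γ : Type u} [Field k] [Ring Γ] [Algebra k Γ]
  [Algebra (MvPolynomial (Fin (ν + 1)) k) Γ] [IsScalarTower k (MvPolynomial (Fin (ν + 1)) k) Γ]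
  {𝒢 : ℕ → Submodule k Γ} {i : Type} [Fintype i] [DecidableEq i]
  {B : Finset (Fin (ν + 1)) → Type u} [∀ I, Ring (B I)] [∀ I, Algebra k (B I)]
  {r : ∀ I J : Finset (Fin (ν + 1)), I ⊆ J → B I →ₐ[k] B J}
  {q : ∀ I : Finset (Fin (ν + 1)), ℕ → Γ → B I}

theorem r_self (h : IsGr ν 𝒢) (hq : IsSec 𝒢 r q) {I : Finset (Fin (ν + 1))} (hI : I ⊆ I)
    (b : B I) : r I I hI b = b := by
  obtain ⟨m, a, ha, rfl⟩ := hq.surj I b
  rw [hq.res I I hI m a ha, Finset.sdiff_self, Finset.prod_empty, one_pow, one_smul]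

theorem r_r (h : IsGr ν 𝒢) (hq : IsSec 𝒢 r q) {I J L : Finset (Fin (ν + 1))} (hI : I ⊆ J)
    (hJ : J ⊆ L) (b : B I) : r J L hJ (r I J hI b) = r I L (hI.trans hJ) b := by
  obtain ⟨m, a, ha, rfl⟩ := hq.surj I b
  have h1 : (∏ j ∈ J \ I, X j : MvPolynomial (Fin (ν + 1)) k) ^ m • a ∈ 𝒢 (m * J.card) :=
    sdiff_mem h hI ha
  rw [hq.res I J hI m a ha, hq.res J L hJ m _ h1, hq.res I L _ m a ha, ← mul_smul]
  congr 2
  have h2 : xp k (L \ J) ^ m * xp k (J \ I) ^ m = xp k (L \ I) ^ m := by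
    rw [xp_mm, xp_mm, xp_mm, mm_mul]
    congr 1
    funext x
    by_cases hL : x ∈ L
    · by_cases hJx : x ∈ J
      · rw [if_neg (fun hh => (Finset.mem_sdiff.1 hh).2 hJx), zero_add]
        by_cases hIx : x ∈ I
        · rw [if_neg (fun hh => (Finset.mem_sdiff.1 hh).2 hIx),
            if_neg (fun hh => (Finset.mem_sdiff.1 hh).2 hIx)]
        · rw [if_pos (Finset.mem_sdiff.2 ⟨hJx, hIx⟩), if_pos (Finset.mem_sdiff.2 ⟨hL, hIx⟩)]
      · rw [if_pos (Finset.mem_sdiff.2 ⟨hL, hJx⟩),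
          if_neg (fun hh => hJx (Finset.mem_sdiff.1 hh).1),
          if_pos (Finset.mem_sdiff.2 ⟨hL, fun hh => hJx (hI hh)⟩), add_zero]
    · rw [if_neg (fun hh => hL (Finset.mem_sdiff.1 hh).1),
        if_neg (fun hh => hL (hJ (Finset.mem_sdiff.1 hh).1)),
        if_neg (fun hh => hL (Finset.mem_sdiff.1 hh).1)]
  exact h2

theorem mem_of_not {c d : Set i} {l : i} (hd : d ⊆ insert l c) (hdc : ¬ d ⊆ c) :
    l ∈ d ∧ l ∉ c := by
  obtain ⟨y, hy, hyc⟩ := Set.not_subset.1 hdc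
  rcases hd hy with rfl | h
  · exact ⟨hy, hyc⟩
  · exact absurd h hyc

theorem mem_d_iff {c d : Set i} (hcd : c ⊆ d) {l : i} (hd : d ⊆ insert l c) (hdc : ¬ d ⊆ c)
    (j : i) : j ∈ d ↔ j = l ∨ j ∈ c := by
  constructor
  · exact fun h => hd h
  · rintro (rfl | h)
    · exact (mem_of_not hd hdc).1
    · exact hcd h

theorem card_d {σ : i ≃ Fin (ν + 1)} {c d : Set i} (hcd : c ⊆ d) {l : i}
    (hd : d ⊆ insert l c) (hdc : ¬ d ⊆ c) : (tf σ d).card = (tf σ c).card + 1 := by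
  have h1 : tf σ d = insert (σ l) (tf σ c) := by
    ext x
    rw [Finset.mem_insert, mem_tf, mem_tf, mem_d_iff hcd hd hdc, Equiv.symm_apply_eq]
  have h2 : σ l ∉ tf σ c := fun hh => (mem_of_not hd hdc).2 (by
    have h3 := mem_tf.1 hh
    rwa [Equiv.symm_apply_apply] at h3)
  rw [h1, Finset.card_insert_of_notMem h2]

theorem tt_pow_rho (h : IsGr ν 𝒢) (hq : IsSec 𝒢 r q) (σ : i ≃ Fin (ν + 1)) {c : Set i}
    (l : i) {g : i} (hg : g ∈ c) (n : ℕ) {m : ℕ} {a : Γ} (ha : a ∈ 𝒢 (m * (tf σ c).card)) :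
    rho h hq σ c (tt k l hg ^ n) * q (tf σ c) m a =
      q (tf σ c) (n + m) (mm k (eo σ c (n • ex l g) n) • a) := by
  rw [tt_pow l hg n (isEx_nsmul l hg n), rho_mon h hq σ (isEx_nsmul l hg n) (nn_nsmul l hg n),
    Mq_mul_q h hq σ (nn_nsmul l hg n) (isEx_nsmul (c := c) l hg n).1 ha]

theorem ex_val {c d : Set i} (hcd : c ⊆ d) {l g : i} (hg : g ∈ c) (hd : d ⊆ insert l c)
    (hdc : ¬ d ⊆ c) (n : ℕ) (j : i) :
    (n • ex l g) j = if j = l then (n : ℤ) else if j = g then -(n : ℤ) else 0 := by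
  have hlg : l ≠ g := fun hh => (mem_of_not hd hdc).2 (by rw [hh]; exact hg)
  rw [Pi.smul_apply, ex_apply, nsmul_eq_mul]
  by_cases hl : j = l
  · have hjg : j ≠ g := fun hh => hlg (hl.symm.trans hh)
    rw [if_pos hl, if_neg hjg, if_pos hl, sub_zero, mul_one]
  · rw [if_neg hl, if_neg hl]
    split_ifs <;> ring

theorem ca_surj (h : IsGr ν 𝒢) (hq : IsSec 𝒢 r q) (σ : i ≃ Fin (ν + 1)) {c d : Set i}
    (hcd : c ⊆ d) {g : i} (hg : g ∈ c) (l : i) (hd : d ⊆ insert l c) (a : B (tf σ d)) :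
    ∃ (n : ℕ) (a' : B (tf σ c)), r (tf σ c) (tf σ d) (tf_mono hcd) a' =
      rho h hq σ d (tt k l (hcd hg) ^ n) * a := by
  by_cases hdc : d ⊆ c
  · refine ⟨0, r (tf σ d) (tf σ c) (tf_mono hdc) a, ?_⟩
    rw [r_r h hq, r_self h hq, pow_zero, map_one, one_mul]
  obtain ⟨m, b, hb, rfl⟩ := hq.surj _ a
  have hcard := card_d (σ := σ) hcd hd hdc
  have h1 : mm k (eg σ c g m) • b ∈ 𝒢 ((m + m) * (tf σ c).card) := by
    refine mm_mem h _ hb ?_
    have h2 := sum_eg σ hg m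
    rw [hcard, Nat.mul_add, Nat.mul_one, Nat.add_mul]
    omega
  refine ⟨m, q (tf σ c) (m + m) (mm k (eg σ c g m) • b), ?_⟩
  rw [hq.res _ _ (tf_mono hcd) _ _ h1, tt_pow_rho h hq σ l (hcd hg) m hb]
  have h3 : (∏ j ∈ tf σ d \ tf σ c, X j : MvPolynomial (Fin (ν + 1)) k) ^ (m + m) =
    mm k (fun x => if x ∈ tf σ d \ tf σ c then m + m else 0) := xp_mm _ _
  rw [h3, ← mul_smul, mm_mul]
  congr 2
  congr 1
  funext x
  have hlc := (mem_of_not hd hdc).2
  have h4 := ex_val hcd hg hd hdc m (σ.symm x)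
  have hN := nn_nsmul (c := d) l (hcd hg) m
  have hs : x ∈ tf σ d \ tf σ c ↔ σ.symm x ∈ d ∧ σ.symm x ∉ c := by
    rw [Finset.mem_sdiff, mem_tf, mem_tf]
  by_cases hl : σ.symm x = l
  · have hxd : σ.symm x ∈ d := by rw [hl]; exact (mem_of_not hd hdc).1
    have hxc : σ.symm x ∉ c := by rw [hl]; exact hlc
    have h5 := eo_pos hN hxd
    rw [h4, if_pos hl] at h5
    rw [if_pos (hs.2 ⟨hxd, hxc⟩)]
    unfold eg
    rw [if_neg (fun hh => hxc hh.1)]
    omega
  · rw [if_neg hl] at h4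
    rw [if_neg (fun hh => by
      rcases hd (hs.1 hh).1 with h6 | h6
      · exact hl h6
      · exact (hs.1 hh).2 h6), zero_add]
    by_cases hxc : σ.symm x ∈ c
    · have h5 := eo_pos hN (hcd hxc)
      rw [h4] at h5
      unfold eg
      by_cases hxg : σ.symm x = g
      · rw [if_neg (fun hh => hh.2 hxg)]
        rw [if_pos hxg] at h5
        omega
      · rw [if_pos ⟨hxc, hxg⟩]
        rw [if_neg hxg] at h5
        omega
    · have hxd : σ.symm x ∉ d := fun hh => by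
        rcases hd hh with h6 | h6
        · exact hl h6
        · exact hxc h6
      have hxg : σ.symm x ≠ g := fun hh => hxc (by rw [hh]; exact hg)
      have h5 := eo_neg hN hxd
      rw [h4, if_neg hxg] at h5
      unfold eg
      rw [if_neg (fun hh => hxc hh.1)]
      omega

theorem ca_inj (h : IsGr ν 𝒢) (hq : IsSec 𝒢 r q) (σ : i ≃ Fin (ν + 1)) {c d : Set i}
    (hcd : c ⊆ d) {g : i} (hg : g ∈ c) (l : i) (hd : d ⊆ insert l c) (a : B (tf σ c))
    (ha : r (tf σ c) (tf σ d) (tf_mono hcd) a = 0) :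
    ∃ n : ℕ, rho h hq σ c (tt k l hg ^ n) * a = 0 := by
  by_cases hdc : d ⊆ c
  · refine ⟨0, ?_⟩
    have h1 := r_r h hq (tf_mono (σ := σ) hcd) (tf_mono (σ := σ) hdc) a
    rw [ha, map_zero, r_self h hq] at h1
    rw [← h1, mul_zero]
  obtain ⟨m, b, hb, rfl⟩ := hq.surj _ a
  rw [hq.res _ _ (tf_mono hcd) _ _ hb] at ha
  obtain ⟨n, hn⟩ := hq.zero _ _ _ (sdiff_mem h (tf_mono hcd) hb) ha
  refine ⟨n + m, ?_⟩
  rw [tt_pow_rho h hq σ l hg (n + m) hb]
  have hN := nn_nsmul (c := c) l hg (n + m)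
  have h1 : mm k (eo σ c ((n + m) • ex l g) (n + m)) • b ∈ 𝒢 ((n + m + m) * (tf σ c).card) := by
    refine mm_mem h _ hb ?_
    rw [sum_eo hN (isEx_nsmul (c := c) l hg (n + m)).1]
    ring
  rw [← hq.step_pow h n h1, ← mul_smul]
  have h2 : xp k (tf σ c) ^ n * mm k (eo σ c ((n + m) • ex l g) (n + m)) =
      mm k (eg σ c g (n + m)) * (xp k (tf σ d) ^ n * xp k (tf σ d \ tf σ c) ^ m) := by
    rw [xp_mm, xp_mm, xp_mm, mm_mul, mm_mul, mm_mul]
    congr 1
    funext x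
    have hlc := (mem_of_not hd hdc).2
    have h4 := ex_val hcd hg hd hdc (n + m) (σ.symm x)
    have hs : x ∈ tf σ d \ tf σ c ↔ σ.symm x ∈ d ∧ σ.symm x ∉ c := by
      rw [Finset.mem_sdiff, mem_tf, mem_tf]
    have hc' : x ∈ tf σ c ↔ σ.symm x ∈ c := mem_tf
    have hd' : x ∈ tf σ d ↔ σ.symm x ∈ d := mem_tf
    by_cases hl : σ.symm x = l
    · have hxd : σ.symm x ∈ d := by rw [hl]; exact (mem_of_not hd hdc).1
      have hxc : σ.symm x ∉ c := by rw [hl]; exact hlc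
      have h5 := eo_neg hN hxc
      rw [h4, if_pos hl] at h5
      rw [if_pos (hs.2 ⟨hxd, hxc⟩), if_neg (fun hh => hxc (hc'.1 hh)), if_pos (hd'.2 hxd)]
      unfold eg
      rw [if_neg (fun hh => hxc hh.1)]
      omega
    · rw [if_neg hl] at h4
      rw [if_neg (fun hh => by
        rcases hd (hs.1 hh).1 with h6 | h6
        · exact hl h6
        · exact (hs.1 hh).2 h6 : ¬ x ∈ tf σ d \ tf σ c)]
      by_cases hxc : σ.symm x ∈ c
      · have h5 := eo_pos hN hxc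
        rw [h4] at h5
        rw [if_pos (hc'.2 hxc), if_pos (hd'.2 (hcd hxc))]
        unfold eg
        by_cases hxg : σ.symm x = g
        · rw [if_neg (fun hh => hh.2 hxg)]
          rw [if_pos hxg] at h5
          omega
        · rw [if_pos ⟨hxc, hxg⟩]
          rw [if_neg hxg] at h5
          omega
      · have hxd : σ.symm x ∉ d := fun hh => by
          rcases hd hh with h6 | h6
          · exact hl h6
          · exact hxc h6
        have hxg : σ.symm x ≠ g := fun hh => hxc (by rw [hh]; exact hg)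
        have h5 := eo_neg hN hxc
        rw [h4, if_neg hxg] at h5
        rw [if_neg (fun hh => hxc (hc'.1 hh)), if_neg (fun hh => hxd (hd'.1 hh))]
        unfold eg
        rw [if_neg (fun hh => hxc hh.1)]
        omega
  have h3 : xp k (tf σ d) ^ n • xp k (tf σ d \ tf σ c) ^ m • b = 0 := hn
  rw [h2, mul_smul, mul_smul, h3, smul_zero, hq.q_zero]

/-- the algebra structure over the coordinate ring -/
@[reducible]
def algR (h : IsGr ν 𝒢) (hq : IsSec 𝒢 r q) (σ : i ≃ Fin (ν + 1)) (c : Set i) :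
    Algebra (RR k c) (B (tf σ c)) :=
  RingHom.toAlgebra' (rho h hq σ c).toRingHom (fun f b => rho_comm h hq σ f b)

theorem ca_fin (h : IsGr ν 𝒢) (hq : IsSec 𝒢 r q) (σ : i ≃ Fin (ν + 1)) {c : Set i} {g : i}
    (hg : g ∈ c) :
    letI := algR h hq σ c
    Module.Finite (RR k c) (B (tf σ c)) := by
  letI := algR h hq σ c
  classical
  obtain ⟨S, hS⟩ := h.fin
  refine ⟨S.image (deh h hq σ hg), ?_⟩
  have h1 : ∀ a : Γ, deh h hq σ hg a ∈ Submodule.span (RR k c)
      ((S.image (deh h hq σ hg) : Finset (B (tf σ c))) : Set (B (tf σ c))) := by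
    intro a
    have ha : a ∈ Submodule.span (MvPolynomial (Fin (ν + 1)) k) (S : Set Γ) := by
      rw [hS]
      trivial
    induction ha using Submodule.span_induction with
    | mem x hx =>
      refine Submodule.subset_span ?_
      rw [Finset.coe_image]
      exact ⟨x, hx, rfl⟩
    | zero => rw [map_zero]; exact Submodule.zero_mem _
    | add y z _ _ hy hz => rw [map_add]; exact Submodule.add_mem _ hy hz
    | smul p y _ hy =>
      rw [deh_smul]
      exact Submodule.smul_mem _ (aeval (fun x => tt k (σ.symm x) hg) p : RR k c) hy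
  rw [eq_top_iff]
  intro b _
  obtain ⟨m, a, ha, rfl⟩ := hq.surj _ b
  rw [q_eq_deh h hq σ hg ha]
  exact Submodule.smul_mem _ (⟨mon k (eu σ c g (-m)), mon_mem (isEx_eu σ hg (-m))⟩ : RR k c)
    (h1 a)

/-- The coherent algebra `Γ~`, given by its sections. -/
def caOf (h : IsGr ν 𝒢) (hq : IsSec 𝒢 r q) (σ : i ≃ Fin (ν + 1)) : CA k i where
  A := fun c => B (tf σ c.1)
  algR := fun c => algR h hq σ c.1
  tow := fun c =>
    letI := algR h hq σ c.1
    IsScalarTower.of_algebraMap_eq (fun s => ((rho h hq σ c.1).commutes s).symm)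
  res := fun {c d} hcd => r (tf σ c.1) (tf σ d.1) (tf_mono hcd)
  res_R := fun {c d} hcd f => rho_res h hq σ hcd f
  res_id := fun {c} hc a => r_self h hq _ a
  res_res := fun {c d e} hcd hde a => r_r h hq _ _ a
  surj := fun {c d} hcd {g} hg l hd a => by
    obtain ⟨n, a', h1⟩ := ca_surj h hq σ hcd hg l hd a
    exact ⟨n, a', h1⟩
  inj := fun {c d} hcd {g} hg l hd a ha => by
    obtain ⟨n, h1⟩ := ca_inj h hq σ hcd hg l hd a ha
    exact ⟨n, h1⟩
  fin := fun c => ca_fin h hq σ c.2.1.choose_spec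

end Pool.Agent.MP_6e5bed_ag_GG
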