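import Pool.Agent.Lib.MP_6e5bed_ag_GG.LRo

set_option autoImplicit false
set_option linter.unusedVariables false

/-!
# MP_6e5bed_ag, THEOREM G, LOC: the algebra as presheaf of rows
-/

noncomputable section

namespace Pool.Agent.MP_6e5bed_ag_GG

open Pool.Agent.MP_6e5bed_ag_NC Pool.Agent.MP_6e5bed_ag_PN
open Pool.Agent.MP_6e5bed_ag_NS (Cx CHom CPr co CEx)
open Pool.Agent.MP_6e5bed_ag_PS (gc gc_qi)

universe u

variable {k : Type u} [Field k] {ι : Type} {A : PA k ι}

section unit

variable {B W C : DGA k}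

/-- `z ↦ o ⊗ z` -/
private def LSf_k (M : Bim B W) (N : Bim W C) (o : M.M) (ho : M.dg.IsDeg 0 o)
    (hd : M.dg.d o = 0) (hs : M.dg.s o = o) : CHom (bcx N) (bcx (tb M N)) where
  f := tmB M N o
  deg := fun {i x} hx => by
    have h := tb_deg (M := M) (N := N) ho hx
    rw [zero_add] at h
    exact h
  d := fun x => by
    show (tb M N).dg.d (tm (M := M) (N := N) o x) = tm (M := M) (N := N) o (N.dg.d x)
    rw [tb_d, hd, hs, tm_zero_left, zero_add]

private theorem LSf_bij (M : Bim B W) (N : Bim W C) (o : M.M) (ho : M.dg.IsDeg 0 o)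
    (hd : M.dg.d o = 0) (hs : M.dg.s o = o) (θ : M.M →ₗ[k] W.A)
    (h1 : ∀ x, M.r (θ x) o = x) (h2 : ∀ b x, θ (M.r b x) = W.mul (θ x) b)
    (h3 : θ o = W.one) : Function.Bijective (LSf_k M N o ho hd hs).f := by
  have hβ : ∀ m b n, (N.l ∘ₗ θ) (M.r b m) n = (N.l ∘ₗ θ) m (N.l b n) := fun m b n => by
    rw [LinearMap.comp_apply, LinearMap.comp_apply, h2, N.l_mul]
  have e1 : ∀ n, tlift (M := M) (N := N) (N.l ∘ₗ θ) hβ (tm (M := M) (N := N) o n) = n := by
    intro n
    rw [tlift_tm, LinearMap.comp_apply, h3, N.l_one]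
  have e2 : ∀ x : (tb M N).M, tm (M := M) (N := N) o
      (tlift (M := M) (N := N) (N.l ∘ₗ θ) hβ x) = x := by
    refine tb_ind (M := M) (N := N) ?_ ?_ ?_
    · rw [map_zero, tm_zero_right]
    · intro x y hx hy
      rw [map_add, tm_add_right, hx, hy]
    · intro m n
      rw [tlift_tm, LinearMap.comp_apply, ← tm_r_l, h1]
  exact Function.bijective_iff_has_inverse.2 ⟨tlift (M := M) (N := N) (N.l ∘ₗ θ) hβ, e1, e2⟩

end unit

/-- The algebra as presheaf of right modules. -/
def selfR (A : PA k ι) : PB (PA.con ι (base k)) A where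
  M := fun c => res (DHom.unit (A.A c)) (DHom.id (A.A c)) (diag (A.A c))
  ρ := fun {c d} h =>
    { f := (A.r h).f
      deg := fun {i x} hx => by
        rw [add_zero]
        exact (A.r h).deg hx
      map_l := fun b x => by
        rw [Dg.sp_zero]
        refine (congrArg (A.r h).f (base_l
          (res (DHom.unit (A.A c)) (DHom.id (A.A c)) (diag (A.A c))) b x)).trans ?_
        refine Eq.trans ?_ (base_l (res ((PA.con ι (base k)).r h) (A.r h)
          (res (DHom.unit (A.A d)) (DHom.id (A.A d)) (diag (A.A d)))) b ((A.r h).f x)).symm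
        exact (A.r h).f.map_smul (show k from b) x
      map_r := fun b x => (A.r h).mul x b }
  dd := fun {c d} h => LinearMap.ext fun x => by
    rw [GMap.dd_apply, sg_zero, one_smul, LinearMap.zero_apply, sub_eq_zero]
    exact (A.r h).d x
  ρ_id := fun h x => A.r_id h x
  ρ_ρ := fun h h' x => A.r_r h h' x

private theorem LSf_pr (A : PA k ι) : ((selfR A).pr : PP A.pc A.pc A.pc) = A.pp := rfl

private theorem LSf_one (A : PA k ι) (L : List ι) (c : FS ι) (x : ((cC A.pc L).X c).V) :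
    (cBL (selfR A) L c).r x (cU A L c) = x :=
  cU_mul (A := A) (V := A.pc) (selfR A).pr (fun c x => (A.A c).one_mul x) L c x

private theorem LSf_mul (A : PA k ι) (L : List ι) (c : FS ι) (x b : ((cC A.pc L).X c).V) :
    (cBL (selfR A) L c).r b x = (cA A L c).mul x b := rfl

/-- The algebra with the pairing `A × N → N`. -/
def selfO (N : PB A (PA.con ι (base k))) : RO N where
  R := selfR A
  Z := N.pc
  p := { p := N.pl.p, nat := fun {c d} h x y => N.pl.nat h x y }
  bal := fun c x a y => (N.M c).l_mul x a y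

/-- PROOF. Let `κ : CHom (bcx Zt) (bcx (tb (cBL (selfR A) L c) Zt))`, `κ z = tm 1 z`, where
`1 = (cA A L c).one` (`(cBL (selfR A) L c).M = (cA A L c).A` as complexes: `bcx_cBL`, `(selfR A).pc` and
`A.pc` have the same values; `tmB`, `d 1 = 0`, `s 1 = 1`, `DGA.d_one`, `DGA.s_one`; the degree:
`tb_deg`, `one_deg`). `κ` is bijective: the inverse is `tlift` of `a, z ↦ Zt.l a z`
(balanced by `Zt.l_mul`, the right action of `cBL (selfR A)` is the multiplication
`(cP A.pp L).q c`); `tm a z = tm (1 a) z = tm 1 (a z)` by `tm_r_l` and `one_mul`. The composition of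
`κ` with `(selfO N).phi ζ hζ` is `z ↦ 1 ∪ ζ z = ζ z` (`phi_tm`, `cU_mul N.pl`, i.e. `(cBR N L c).l_one`).
So `Qi.of_left` (`Lib/MP_6e5bed_ag_PN/Cx.lean`; `Qi` and `CHom.QI` are the same by `Iff.rfl`) with
`f := κ`, `g := (selfO N).phi ζ hζ`, `h := ζ` (as a `CHom`, a quasi-isomorphism by `hq`). -/
theorem selfO_good (N : PB A (PA.con ι (base k))) {L : List ι} {c : FS ι}
    {Zt : Bim (cA A L c) (base k)} (ζ : GMap 0 Zt (cBR N L c)) (hζ : ζ.dd = 0) (hq : QIso ζ) :
    (selfO N).Good ζ hζ := by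
  have hb := LSf_bij (cBL (selfR A) L c) Zt (cU A L c) (cU_deg A L c) (DGA.d_one (cA A L c))
    (cU_s A L c) LinearMap.id (fun x => LSf_one A L c x) (fun b x => LSf_mul A L c x b) rfl
  exact CHom.QI.of_left (h := gc ζ hζ) (fun z => ((selfO N).phi_tm ζ hζ (cU A L c) z).trans
    ((cBR N L c).l_one (ζ.f z))) (CHom.QI.of_bij hb) ((gc_qi ζ hζ).2 hq)

end Pool.Agent.MP_6e5bed_ag_GG
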