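import Pool.Agent.Lib.MP_6e5bed_ag_GG.LRo
import Pool.Agent.Lib.MP_6e5bed_ag_PN.Col

set_option autoImplicit false
set_option linter.unusedVariables false

/-!
# MP_6e5bed_ag, THEOREM G, LOC (L3): directed colimits of presheaves of rows
-/

noncomputable section

namespace Pool.Agent.MP_6e5bed_ag_GG

open Pool.Agent.MP_6e5bed_ag_NC Pool.Agent.MP_6e5bed_ag_PN
open Pool.Agent.MP_6e5bed_ag_NS (Cx CHom CPr co CEx)

universe u w

variable {k : Type u} [Field k] {ι : Type} {A : PA k ι} {N : PB A (PA.con ι (base k))}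

namespace RO

variable {L : List ι} {c : FS ι} {Zt : Bim (cA A L c) (base k)} {ζ : GMap 0 Zt (cBR N L c)}
  {hζ : ζ.dd = 0} {S : Type w} [Preorder S] [IsDirectedOrder S] [Nonempty S]

/-- (L3): a directed colimit of presheaves of rows for which the cup product is a
quasi-isomorphism. -/
theorem good_col (R : S → RO N) (R0 : RO N) (E : ∀ s t, s ≤ t → ROH (R s) (R t))
    (I : ∀ s, ROH (R s) R0)
    (h1 : ∀ c, Col (V := fun s => ((R s).R.M c).M) (fun s t h => ((E s t h).f.f c).f)
      (fun s => ((I s).f.f c).f))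
    (h2 : ∀ c, Col (V := fun s => ((R s).Z.X c).V) (fun s t h => ((E s t h).g.f c).f)
      (fun s => ((I s).g.f c).f)) (hg : ∀ s, (R s).Good ζ hζ) : R0.Good ζ hζ := by
  have a1 := cC_col (V := fun s => (R s).R.pc) (U := R0.R.pc) (fun s t h => (E s t h).f.pch)
    (fun s => (I s).f.pch) h1 L c
  have a2 := cC_col (V := fun s => (R s).Z) (U := R0.Z) (fun s t h => (E s t h).g)
    (fun s => (I s).g) h2 L c
  have a3 := Col.tb (X := fun s => cBL (R s).R L c) (Y := cBL R0.R L c)
    (e := fun s t h => (E s t h).f.gmapL L c) (i := fun s => (I s).f.gmapL L c) a1 Zt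
  exact Col.qi (X := fun s => bcx (MP_6e5bed_ag_NC.tb (cBL (R s).R L c) Zt))
    (X' := fun s => (cC (R s).Z L).X c) (fun s t h => tF Zt (E s t h)) (fun s => tF Zt (I s))
    (fun s t h => (cH (E s t h).g L).g c) (fun s => (cH (I s).g L).g c) a3 a2
    (fun s => (R s).phi ζ hζ) (R0.phi ζ hζ) (fun s t h x => phi_natF ζ hζ (E s t h) x)
    (fun s x => phi_natF ζ hζ (I s) x) hg

end RO

end Pool.Agent.MP_6e5bed_ag_GG
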