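import Pool.Agent.Lib.MP_6e5bed_ag_GG.Bi
import Pool.Agent.Lib.MP_6e5bed_ag_PN.ExF

set_option autoImplicit false
set_option linter.unusedVariables false

/-!
# MP_6e5bed_ag, THEOREM G: the dg algebra of a coherent algebra, the bimodule of a bisheaf
-/

noncomputable section

namespace Pool.Agent.MP_6e5bed_ag_GG

open Pool.Agent.MP_6e5bed_ag_NC Pool.Agent.MP_6e5bed_ag_NS Pool.Agent.MP_6e5bed_ag_PN
open scoped TensorProduct

universe u

variable {k : Type u} [Field k] {i j : Type} [Fintype i] [Fintype j]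

/-- the list of all indices -/
def LL (i : Type) [Fintype i] : List i := (Finset.univ : Finset i).toList

theorem mem_LL (l : i) : l ∈ LL i := by
  unfold LL
  rw [Finset.mem_toList]
  exact Finset.mem_univ l

/-- the presheaf of dg algebras of a coherent algebra -/
def CA.pa (A : CA k i) : PA k i where
  A := fun c => MP_6e5bed_ag_NC.ring k (A.A c)
  r := fun h => ringH (A.res h)
  r_id := fun h x => A.res_id h x
  r_r := fun h h' x => A.res_res h h' x

/-- the Čech dg algebra -/
def TT (A : CA k i) : DGA k := cA A.pa (LL i) (FS.e i)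

variable {A : CA k i} {A' : CA k j}

/-- a presheaf of dg bimodules on the pairs of charts, in the notation of `PN/Two.lean` -/
def BPB.two (F : BPB A A') : PB2 A.pa A'.pa where
  M := fun a b => F.F (a, b)
  ρ := fun {a a' b b'} h h' => F.ρ (p := (a, b)) (q := (a', b')) ⟨h, h'⟩
  dd := fun h h' => F.dd _
  ρ_id := fun {a b} h h' x => F.ρ_id (p := (a, b)) ⟨h, h'⟩ x
  ρ_ρ := fun {a a' a'' b b' b''} h h' e e' x =>
    F.ρ_ρ (p := (a, b)) (q := (a', b')) (s := (a'', b'')) ⟨h, h'⟩ ⟨e, e'⟩ x

/-- a morphism of presheaves of dg bimodules -/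
def BPH.two {F G : BPB A A'} (f : BPH F G) : PB2H F.two G.two where
  f := fun a b => f.f (a, b)
  dd := fun a b => f.dd (a, b)
  nat := fun {a a' b b'} h h' x => f.nat (p := (a, b)) (q := (a', b')) ⟨h, h'⟩ x

/-- the dg bimodule of a presheaf of dg bimodules: the double Čech complex, first in the first
variable, then in the second variable -/
def BPB.BB (F : BPB A A') : Bim (TT A) (TT A') := cB2 F.two (LL i) (FS.e i) (LL j) (FS.e j)

theorem BPEx.ses {F' F F'' : BPB A A'} {a : BPH F' F} {b : BPH F F''} (h : BPEx a b) :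
    IsSes F'.BB F.BB F''.BB :=
  PB2Ex.ses (i := a.two) (p := b.two) (fun c c' => h (c, c')) _ _ _ _

/-- the map of the double Čech complexes -/
def BPH.BB {F G : BPB A A'} (f : BPH F G) : GMap 0 F.BB G.BB := f.two.gmap _ _ _ _

theorem BPH.BB_dd {F G : BPB A A'} (f : BPH F G) : f.BB.dd = 0 := f.two.gmap_dd _ _ _ _

/-- a quasi-isomorphism on all charts -/
theorem BPH.qiso {F G : BPB A A'} (f : BPH F G) (h : ∀ p, QIso (f.f p)) : QIso f.BB :=
  f.two.qiso (fun a b => h (a, b)) _ _ _ _

theorem BPH.biso {F G : BPB A A'} (f : BPH F G) (h : ∀ p, Function.Bijective (f.f p).f) :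
    BIso F.BB G.BB :=
  f.two.biso (fun a b => h (a, b)) _ _ _ _

end Pool.Agent.MP_6e5bed_ag_GG
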