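import Pool.Agent.Lib.MP_6e5bed_ag_GG.SB

set_option autoImplicit false

/-!
# MP_6e5bed_ag, THEOREM G: the bisheaves `O(d) ⊠ O(d')` (text, section 4)
-/

noncomputable section

namespace Pool.Agent.MP_6e5bed_ag_GG

open scoped TensorProduct

universe u

variable {k : Type u} [Field k] {i j : Type} [Fintype i] [Fintype j]

theorem pi2_mul_mem {d d' : ℤ} (p : Ch i × Ch j) (r : obB k p) {x : L2 k i j}
    (hx : x ∈ SS k (Ex2 d d' p)) : pi2 p r * x ∈ SS k (Ex2 d d' p) := by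
  refine SS_mul (fun e he e' he' => ?_) (pi2_mem p r) hx
  have h := Ex2.add he he'
  rwa [zero_add, zero_add] at h

/-- the `R_c ⊗ R_{c'}`-module of the sections of `O(d) ⊠ O(d')` -/
@[implicit_reducible]
def o2Mod (d d' : ℤ) (p : Ch i × Ch j) : Module (obB k p) (SS k (Ex2 d d' p)) where
  smul r x := ⟨pi2 p r * x.1, pi2_mul_mem p r x.2⟩
  one_smul x := Subtype.ext (by
    change pi2 p 1 * x.1 = x.1
    rw [map_one, one_mul])
  mul_smul r s x := Subtype.ext (by
    change pi2 p (r * s) * x.1 = pi2 p r * (pi2 p s * x.1)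
    rw [map_mul, mul_assoc])
  smul_zero r := Subtype.ext (mul_zero (pi2 p r))
  smul_add r x y := Subtype.ext (mul_add (pi2 p r) x.1 y.1)
  add_smul r s x := Subtype.ext (by
    change pi2 p (r + s) * x.1 = pi2 p r * x.1 + pi2 p s * x.1
    rw [map_add, add_mul])
  zero_smul x := Subtype.ext (by
    change pi2 p 0 * x.1 = 0
    rw [map_zero, zero_mul])

omit [Fintype i] in
theorem ex_apply_self {l g : i} (h : l ≠ g) : ex l g l = 1 := by
  classical
  simp [ex, h]

omit [Fintype i] in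
theorem ex_apply_ne {l g a : i} (h : a ≠ l) (h' : a ≠ g) : ex l g a = 0 := by
  classical
  simp [ex, h, h']

theorem isEx_loc {c c' : Set i} {l g : i} (hg : g ∈ c) (hc : c' ⊆ insert l c) {d : ℤ}
    {e : i → ℤ} (he : IsEx c' d e) {m : ℕ} (hm : (e l).natAbs ≤ m) :
    IsEx c d (m • ex l g + e) := by
  refine ⟨?_, fun a ha => ?_⟩
  · have h0 := (isEx_ex (c := c) l hg).1
    simp only [Pi.add_apply, Pi.smul_apply, Finset.sum_add_distrib, ← Finset.smul_sum, h0, he.1,
      smul_zero, zero_add]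
  · have hag : a ≠ g := fun h => ha (h ▸ hg)
    by_cases hal : a = l
    · subst hal
      rw [Pi.add_apply, Pi.smul_apply, ex_apply_self hag, nsmul_eq_mul, mul_one]
      omega
    · have h1 : a ∉ c' := fun h => by
        rcases hc h with h | h
        · exact hal h
        · exact ha h
      rw [Pi.add_apply, Pi.smul_apply, ex_apply_ne hal hag, smul_zero, zero_add]
      exact he.2 a h1

theorem isEx_le {c c' : Set i} (h : c' ⊆ c) {d : ℤ} {e : i → ℤ} (he : IsEx c' d e) :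
    IsEx c d e := ⟨he.1, fun l hl => he.2 l fun hl' => hl (h hl')⟩

omit [Fintype i] [Fintype j] in
theorem m2_pow (e : (i → ℤ) × (j → ℤ)) (n : ℕ) : m2 k e ^ n = m2 k (n • e) := by
  induction n with
  | zero => rw [pow_zero, zero_smul, m2_zero]
  | succ n ih => rw [pow_succ, ih, m2_mul, succ_nsmul]

theorem SS_loc {d d' : ℤ} {p q : Ch i × Ch j} {t : obB k p} (h : obLoc k p q t) {y : L2 k i j}
    (hy : y ∈ SS k (Ex2 d d' q)) : ∃ n : ℕ, ∀ m, n ≤ m → pi2 p t ^ m * y ∈ SS k (Ex2 d d' p) := by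
  refine SS_ind (P := fun y => ∃ n : ℕ, ∀ m, n ≤ m → pi2 p t ^ m * y ∈ SS k (Ex2 d d' p))
    ?_ ?_ ?_ ?_ hy
  · exact ⟨0, fun m _ => by rw [mul_zero]; exact zero_mem _⟩
  · rintro x y ⟨n, hn⟩ ⟨n', hn'⟩
    refine ⟨max n n', fun m hm => ?_⟩
    rw [mul_add]
    exact add_mem (hn m (le_of_max_le_left hm)) (hn' m (le_of_max_le_right hm))
  · rintro c x ⟨n, hn⟩
    refine ⟨n, fun m hm => ?_⟩
    rw [mul_smul_comm]
    exact Submodule.smul_mem _ _ (hn m hm)
  · rintro ⟨e, e'⟩ ⟨he, he'⟩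
    obtain ⟨-, ⟨l, g, hg, h1, h2, rfl⟩ | ⟨l, g, hg, h1, h2, rfl⟩⟩ := h
    · refine ⟨(e l).natAbs, fun m hm => ?_⟩
      rw [pi2_t1, m2_pow, m2_mul]
      refine m2_mem ⟨isEx_loc hg h1 he hm, ?_⟩
      change IsEx p.2.1 d' (m • (0 : j → ℤ) + e')
      rw [smul_zero, zero_add]
      exact isEx_le h2 he'
    · refine ⟨(e' l).natAbs, fun m hm => ?_⟩
      rw [pi2_t2, m2_pow, m2_mul]
      refine m2_mem ⟨?_, isEx_loc hg h1 he' hm⟩
      change IsEx p.1.1 d (m • (0 : i → ℤ) + e)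
      rw [smul_zero, zero_add]
      exact isEx_le h2 he

variable (k i j) in
/-- The sheaf `O(d) ⊠ O(d')`. -/
def O2 (d d' : ℤ) : Sh (ob k i j) where
  E := fun p => SS k (Ex2 d d' p)
  grp := fun p => (SS k (Ex2 d d' p)).addCommGroup
  modk := fun p => (SS k (Ex2 d d' p)).module
  mod := fun p => o2Mod d d' p
  tow := fun p => @IsScalarTower.mk k (obB k p) (SS k (Ex2 d d' p)) _ (o2Mod d d' p).toSMul _
    (fun c r x => Subtype.ext (by
      change pi2 p (c • r) * x.1 = c • (pi2 p r * x.1)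
      rw [map_smul, smul_mul_assoc]))
  res := fun {p q} h => Submodule.inclusion (SS_mono (Ex2_mono h))
  res_smul := fun {p q} h b x => Subtype.ext (by
    change pi2 p b * x.1 = pi2 q (obr k h b) * x.1
    rw [pi2_obr])
  res_id := fun h x => rfl
  res_res := fun h h' x => rfl
  surj := fun {p q t} h y => by
    obtain ⟨n, hn⟩ := SS_loc h y.2
    refine ⟨n, ⟨pi2 p t ^ n * y.1, hn n le_rfl⟩, Subtype.ext ?_⟩
    have e : pi2 q ((obr k h.1 t) ^ n) = pi2 p t ^ n := by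
      rw [map_pow, pi2_obr]
    exact (congrArg (· * y.1) e).symm
  inj := fun {p q t} h x hx => ⟨0, Subtype.ext (by
    have h1 : x.1 = 0 := congrArg (fun z : SS k (Ex2 d d' q) => z.1) hx
    change pi2 p (t ^ 0) * x.1 = 0
    rw [h1, mul_zero])⟩

/-- a section of `O(d) ⊠ O(d')` as a Laurent polynomial -/
def O2.v {d d' : ℤ} {p : Ch i × Ch j} (x : (O2 k i j d d').E p) : L2 k i j :=
  (show SS k (Ex2 d d' p) from x).1

theorem O2.v_mem {d d' : ℤ} {p : Ch i × Ch j} (x : (O2 k i j d d').E p) :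
    O2.v x ∈ SS k (Ex2 d d' p) := (show SS k (Ex2 d d' p) from x).2

theorem O2.v_smul {d d' : ℤ} {p : Ch i × Ch j} (r : (ob k i j).B p)
    (x : (O2 k i j d d').E p) : O2.v (r • x : (O2 k i j d d').E p) = pi2 p r * O2.v x := rfl

theorem O2.v_add {d d' : ℤ} {p : Ch i × Ch j} (x y : (O2 k i j d d').E p) :
    O2.v (x + y) = O2.v x + O2.v y := rfl

theorem O2.v_res {d d' : ℤ} {p q : Ch i × Ch j} (h : p ≤ q) (x : (O2 k i j d d').E p) :
    O2.v ((O2 k i j d d').res h x) = O2.v x := rfl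

theorem isEx_single {c : Set i} {g : i} (hg : g ∈ c) (d : ℤ) [DecidableEq i] :
    IsEx c d (Pi.single g d) := by
  refine ⟨?_, fun a ha => ?_⟩
  · rw [Finset.sum_pi_single', if_pos (Finset.mem_univ g)]
  · have hag : a ≠ g := fun h => ha (h ▸ hg)
    rw [Pi.single_eq_of_ne hag]

theorem O2_coh (d d' : ℤ) : (O2 k i j d d').Coh := by
  classical
  intro p
  obtain ⟨g, hg⟩ := p.1.2.1
  obtain ⟨h, hh⟩ := p.2.2.1
  let u : (O2 k i j d d').E p := ⟨m2 k (Pi.single g d, Pi.single h d'),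
    m2_mem ⟨isEx_single hg d, isEx_single hh d'⟩⟩
  refine ⟨Submodule.fg_def.2 ⟨{u}, Set.finite_singleton u, eq_top_iff.2 fun x _ => ?_⟩⟩
  have h1 : m2 k (Pi.single g (-d), Pi.single h (-d')) * x.1 ∈ SS k (Ex2 0 0 p) := by
    refine SS_mul (S := Ex2 (-d) (-d') p) (T := Ex2 d d' p) (fun e he e' he' => ?_)
      (m2_mem ⟨isEx_single hg _, isEx_single hh _⟩) x.2
    have h2 := Ex2.add he he'
    rwa [neg_add_cancel, neg_add_cancel] at h2
  obtain ⟨r, hr⟩ := pi2_surj p h1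
  have h2 : x = (show (ob k i j).B p from r) • u := by
    refine Subtype.ext ?_
    change x.1 = pi2 p r * m2 k (Pi.single g d, Pi.single h d')
    rw [hr, mul_assoc, mul_comm x.1, ← mul_assoc, m2_mul, Prod.mk_add_mk, ← Pi.single_add,
      ← Pi.single_add, neg_add_cancel, neg_add_cancel, Pi.single_zero, Pi.single_zero]
    exact (one_mul x.1).symm
  rw [h2]
  exact Submodule.smul_mem _ _ (Submodule.subset_span rfl)

end Pool.Agent.MP_6e5bed_ag_GG
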