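import Pool.Agent.Lib.MP_6e5bed_ag_PN.P2
import Pool.Agent.Lib.MP_6e5bed_ag_PN.DAct
import Pool.Agent.Lib.MP_6e5bed_ag_GG.BB
import Pool.Agent.Lib.MP_6e5bed_ag_GG.ShA
import Pool.Agent.Lib.MP_6e5bed_ag_GG.SC

set_option autoImplicit false
set_option linter.unusedVariables false

/-!
# MP_6e5bed_ag, THEOREM G: the presheaf of complexes of a sheaf on the pairs of charts
-/

noncomputable section

namespace Pool.Agent.MP_6e5bed_ag_GG

open Pool.Agent.MP_6e5bed_ag_NC Pool.Agent.MP_6e5bed_ag_NS Pool.Agent.MP_6e5bed_ag_PN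
open scoped TensorProduct

universe u

variable {k : Type u} [Field k] {i j : Type} [Fintype i] [Fintype j]

/-- The sections, as complexes in degree zero. -/
def Sh.pc2 (E : Sh (ob k i j)) : PC2 k i j where
  X := fun a b => Cx.conc k (E.E (a, b))
  ρ := fun {a a' b b'} h h' => concH (E.res (p := (a, b)) (q := (a', b')) ⟨h, h'⟩)
  ρ_id := fun {a b} h h' x => E.res_id (p := (a, b)) ⟨h, h'⟩ x
  ρ_ρ := fun {a a' a'' b b' b''} h h' e e' x =>
    E.res_res (p := (a, b)) (q := (a', b')) (s := (a'', b'')) ⟨h, h'⟩ ⟨e, e'⟩ x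

variable {E F G : Sh (ob k i j)}

/-- the morphism of presheaves of complexes -/
def ShH.pc2 (f : ShH E F) : PC2H E.pc2 F.pc2 where
  f := fun a b => concH ((f.f (a, b)).restrictScalars k)
  nat := fun {a a' b b'} h h' x => f.nat (p := (a, b)) (q := (a', b')) ⟨h, h'⟩ x

theorem ShH.pc2_f (f : ShH E F) (a : Ch i) (b : Ch j) (x : E.E (a, b)) :
    ((f.pc2).f a b).f x = f.f (a, b) x := rfl

/-- an exact sequence of sheaves gives an exact sequence of presheaves of complexes -/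
theorem ShH.pc2Ex {f : ShH E F} {g : ShH F G} (hf : f.Inj) (hg : g.Surj)
    (h : ∀ p x, g.f p x = 0 ↔ ∃ y, f.f p y = x) : PC2Ex f.pc2 g.pc2 := fun a b =>
  ⟨hf (a, b), hg (a, b), h (a, b)⟩

variable {A : CA k i} {A' : CA k j}

theorem toOb_pc2 (E : BS A A') : E.bp.two.pc2 = (toOb E).pc2 := rfl

theorem toOb_BB (E : BS A A') :
    MP_6e5bed_ag_PN.bcx E.bp.BB = (cC ((toOb E).pc2.push (LL i) (FS.e i)) (LL j)).X (FS.e j) := rfl

end Pool.Agent.MP_6e5bed_ag_GG
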