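import Pool.Agent.Lib.MP_6e5bed_ag_PN.PDA
import Pool.Agent.Lib.MP_6e5bed_ag_GG.P2

set_option autoImplicit false
set_option linter.unusedVariables false

/-!
# MP_6e5bed_ag, THEOREM G: the actions of `R_c` and `R_{c'}` on the sections of a sheaf on the pairs
of charts
-/

noncomputable section

namespace Pool.Agent.MP_6e5bed_ag_GG

open Pool.Agent.MP_6e5bed_ag_NC Pool.Agent.MP_6e5bed_ag_NS Pool.Agent.MP_6e5bed_ag_PN
open scoped TensorProduct

universe u v

variable {k : Type u} [Field k] {i j : Type} [Fintype i] [Fintype j]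

/-! ### The actions of `R_c` and `R_{c'}` -/

section act

variable {S : Site k} {D : Type v} [CommRing D] [Algebra k D]

/-- An algebra over the ring acts on the sections of a sheaf. -/
def Sh.dact (E : Sh S) (p : S.P) (β : D →ₐ[k] S.B p) : DAct D (Cx.conc k (E.E p)) where
  φ := (Algebra.lsmul k k (E.E p)).comp β
  deg := fun {n} r {x} hx => conc_map _ hx
  d := fun r x => (map_zero _).symm

theorem Sh.dact_res (E : Sh S) {p q : S.P} (h : p ≤ q) {β : D →ₐ[k] S.B p}
    {γ : D →ₐ[k] S.B q} (hβ : ∀ r, S.r h (β r) = γ r) :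
    (E.dact p β).Eqv (E.dact q γ) (concH (E.res h)) := fun r x =>
  (E.res_smul h (β r) x).trans (congrArg (fun b : S.B q => (b • E.res h x : E.E q)) (hβ r))

theorem ShH.dact {E F : Sh S} (f : ShH E F) (p : S.P) (β : D →ₐ[k] S.B p) :
    (E.dact p β).Eqv (F.dact p β) (concH ((f.f p).restrictScalars k)) := fun r x =>
  (f.f p).map_smul (β r) (show E.E p from x)

/-- Finitely generated sections. -/
theorem Sh.dact_FGm (E : Sh S) (p : S.P) [Module.Finite (S.B p) (E.E p)] {β : D →ₐ[k] S.B p}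
    {I : Type*} [Fintype I] (s : I → S.B p) (hs : ∀ b, ∃ r : I → D, b = ∑ m, β (r m) * s m) :
    (E.dact p β).FGm := by
  obtain ⟨n, a, ha⟩ := fin_of_span (R := D) (B := S.B p) (M := E.E p) inferInstance
    (β : D →+* S.B p) s hs
  let w : I × Fin n → E.E p := fun q => s q.1 • a q.2
  exact DAct.FGm.of_fintype (a := E.dact p β) (I := I × Fin n) w fun x => ha (show E.E p from x)

end act

/-- the action of `R_c` on `R_c ⊗ R_{c'}` -/
def bl (k : Type u) [Field k] (p : Ch i × Ch j) : RR k p.1.1 →ₐ[k] obB k p :=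
  Algebra.TensorProduct.includeLeft

/-- the action of `R_{c'}` on `R_c ⊗ R_{c'}` -/
def br (k : Type u) [Field k] (p : Ch i × Ch j) : RR k p.2.1 →ₐ[k] obB k p :=
  Algebra.TensorProduct.includeRight

theorem bl_apply (p : Ch i × Ch j) (r : RR k p.1.1) : bl k p r = (r ⊗ₜ 1 : obB k p) := rfl

theorem br_apply (p : Ch i × Ch j) (r : RR k p.2.1) : br k p r = (1 ⊗ₜ r : obB k p) := rfl

theorem obr_bl {c : Ch i} {b b' : Ch j} (h : ((c, b) : Ch i × Ch j) ≤ (c, b')) (r : RR k c.1) :
    obr k h (bl k (c, b) r) = bl k (c, b') r := by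
  rw [bl_apply, obr_tmul, map_one]
  rfl

theorem obr_br {a a' : Ch i} {c : Ch j} (h : ((a, c) : Ch i × Ch j) ≤ (a', c)) (r : RR k c.1) :
    obr k h (br k (a, c) r) = br k (a', c) r := by
  rw [br_apply, obr_tmul, map_one]
  rfl

/-- the action of `R_c` on the sections on the chart `(c, b)` -/
def Sh.ac1 (E : Sh (ob k i j)) (c : Ch i) (b : Ch j) :
    DAct (RR k c.1) (Cx.conc k (E.E (c, b))) :=
  E.dact (c, b) (bl k (c, b))

/-- the action of `R_{c'}` on the sections on the chart `(a, c')` -/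
def Sh.ac2 (E : Sh (ob k i j)) (a : Ch i) (c' : Ch j) :
    DAct (RR k c'.1) (Cx.conc k (E.E (a, c'))) :=
  E.dact (a, c') (br k (a, c'))

/-- the action of `R_c` on the presheaf of the sections on the charts `(c, b)` -/
def Sh.act1 (E : Sh (ob k i j)) (c : Ch i) : PDA (RR k c.1) (E.pc2.snd c) where
  a := fun b => E.ac1 c b
  eqv := fun {b b'} h r x => (E.res_smul (p := (c, b)) (q := (c, b')) ⟨le_refl c, h⟩
    (bl k (c, b) r) x).trans (congrArg (fun z : (ob k i j).B (c, b') =>
      (z • E.res (p := (c, b)) (q := (c, b')) ⟨le_refl c, h⟩ x : E.E (c, b')))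
      (obr_bl ⟨le_refl c, h⟩ r))

/-- the action of `R_{c'}` on the presheaf of the sections on the charts `(a, c')` -/
def Sh.act2 (E : Sh (ob k i j)) (c' : Ch j) : PDA (RR k c'.1) (E.pc2.fst c') where
  a := fun a => E.ac2 a c'
  eqv := fun {a a'} h r x => (E.res_smul (p := (a, c')) (q := (a', c')) ⟨h, le_refl c'⟩
    (br k (a, c') r) x).trans (congrArg (fun z : (ob k i j).B (a', c') =>
      (z • E.res (p := (a, c')) (q := (a', c')) ⟨h, le_refl c'⟩ x : E.E (a', c')))
      (obr_br ⟨h, le_refl c'⟩ r))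

theorem ShH.act1 {E F : Sh (ob k i j)} (f : ShH E F) (c : Ch i) (b : Ch j) :
    ((E.act1 c).a b).Eqv ((F.act1 c).a b) ((f.pc2.snd c).f b) := f.dact (c, b) (bl k (c, b))

theorem ShH.act2 {E F : Sh (ob k i j)} (f : ShH E F) (c' : Ch j) (a : Ch i) :
    ((E.act2 c').a a).Eqv ((F.act2 c').a a) ((f.pc2.fst c').f a) := f.dact (a, c') (br k (a, c'))

end Pool.Agent.MP_6e5bed_ag_GG
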