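import Pool.Agent.Lib.MP_6e5bed_ag_PN.Mono
import Pool.Agent.Lib.MP_6e5bed_ag_GG.G2a

set_option autoImplicit false
set_option linter.unusedVariables false

/-!
# MP_6e5bed_ag, THEOREM G: the cohomology of the sheaves `O(d) ⊠ O(d')` (section 4.3)

An exponent `e` of degree `d` is either mixed (`mx e = some l`, `e l ≥ 0`, and some `e l' < 0`) or
one of finitely many.
-/

noncomputable section

namespace Pool.Agent.MP_6e5bed_ag_GG

open Pool.Agent.MP_6e5bed_ag_NC Pool.Agent.MP_6e5bed_ag_NS Pool.Agent.MP_6e5bed_ag_PN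
open scoped TensorProduct

universe u v

/-! ### Mixed exponents -/

section mx

variable {i : Type}

open Classical in
/-- an index with a nonnegative exponent if the exponent is mixed -/
def mx (e : i → ℤ) : Option i :=
  if h : (∃ l, 0 ≤ e l) ∧ ∃ l, e l < 0 then some (Classical.choose h.1) else none

theorem mx_some {e : i → ℤ} {l : i} (h : mx e = some l) : 0 ≤ e l ∧ ∃ l', e l' < 0 := by
  unfold mx at h
  split_ifs at h with h1
  have h2 := Classical.choose_spec h1.1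
  rw [Option.some_inj.1 h] at h2
  exact ⟨h2, h1.2⟩

theorem mx_none {e : i → ℤ} (h : mx e = none) : (∀ l, 0 ≤ e l) ∨ ∀ l, e l < 0 := by
  unfold mx at h
  split_ifs at h with h1
  by_cases h2 : ∀ l, 0 ≤ e l
  · exact Or.inl h2
  · refine Or.inr fun l => ?_
    by_contra h3
    refine h1 ⟨⟨l, not_lt.1 h3⟩, ?_⟩
    obtain ⟨l', hl'⟩ := not_forall.1 h2
    exact ⟨l', not_le.1 hl'⟩

variable [Fintype i]

theorem isEx_mx {a : MP_6e5bed_ag_PN.Ch i} {d : ℤ} {e : i → ℤ} {l : i} (h : mx e = some l)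
    (he : IsEx (a.fs.ins l).1 d e) : IsEx a.1 d e := by
  refine ⟨he.1, fun j hj => ?_⟩
  by_cases hjl : j = l
  · rw [hjl]
    exact (mx_some h).1
  · refine he.2 j fun h' => ?_
    rcases h' with h' | h'
    · exact hjl h'
    · exact hj h'

theorem not_isEx_mx {d : ℤ} {e : i → ℤ} {l : i} (h : mx e = some l) :
    ¬ IsEx ((MP_6e5bed_ag_PN.FS.e i).ins l).1 d e := by
  intro he
  obtain ⟨l', hl'⟩ := (mx_some h).2
  refine absurd hl' (not_lt.2 ?_)
  by_cases hjl : l' = l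
  · rw [hjl]
    exact (mx_some h).1
  · refine he.2 l' fun h' => ?_
    rcases h' with h' | h'
    · exact hjl h'
    · exact h'

/-- the exponents of degree `d` which are not mixed -/
def NX (i : Type) [Fintype i] (d : ℤ) : Set (i → ℤ) := {e | mx e = none ∧ ∑ l, e l = d}

theorem NX_finite (d : ℤ) : (NX i d).Finite := by
  classical
  refine (Set.finite_Icc (fun _ : i => -|d|) (fun _ => |d|)).subset fun e he => ?_
  have h1 : ∀ l, -|d| ≤ e l ∧ e l ≤ |d| := by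
    intro l
    rcases mx_none he.1 with h | h
    · have h2 := Finset.single_le_sum (f := e) (s := Finset.univ) (fun j _ => h j)
        (Finset.mem_univ l)
      rw [he.2] at h2
      exact ⟨(neg_nonpos.2 (abs_nonneg d)).trans (h l), h2.trans (le_abs_self d)⟩
    · have h2 := Finset.single_le_sum (f := fun j => - e j) (s := Finset.univ)
        (fun j _ => neg_nonneg.2 (h j).le) (Finset.mem_univ l)
      rw [Finset.sum_neg_distrib, he.2] at h2
      have h3 := neg_le_abs d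
      exact ⟨by omega, (h l).le.trans (abs_nonneg d)⟩
  exact ⟨fun l => (h1 l).1, fun l => (h1 l).2⟩

theorem IsEx.nx {c : Set i} {d : ℤ} {e : i → ℤ} (h : IsEx c d e) (h' : mx e = none) :
    e ∈ NX i d := ⟨h', h.1⟩

end mx

variable {k : Type u} [Field k] {i j : Type} [Fintype i] [Fintype j]

/-! ### The cohomology of `O(d) ⊠ O(d')` -/

private theorem G2_h1 (d d' : ℤ) (l : i) (g : (i → ℤ) × (j → ℤ)) (h : mx g.1 = some l) :
    (∀ (a : MP_6e5bed_ag_PN.Ch i) (b : Ch j), g ∈ Ex2 d d' (a.fs.ins l, b) →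
      g ∈ Ex2 d d' (a, b)) ∧
      ∀ b : Ch j, g ∉ Ex2 d d' ((MP_6e5bed_ag_PN.FS.e i).ins l, b) :=
  ⟨fun _ _ hg => ⟨isEx_mx h hg.1, hg.2⟩, fun _ hg => not_isEx_mx h hg.1⟩

private theorem G2_h2 (d d' : ℤ) (l : j) (g : (i → ℤ) × (j → ℤ)) (h : mx g.2 = some l) :
    (∀ (a : Ch i) (b : MP_6e5bed_ag_PN.Ch j), g ∈ Ex2 d d' (a, b.fs.ins l) →
      g ∈ Ex2 d d' (a, b)) ∧
      ∀ a : Ch i, g ∉ Ex2 d d' (a, (MP_6e5bed_ag_PN.FS.e j).ins l) :=
  ⟨fun _ _ hg => ⟨hg.1, isEx_mx h hg.2⟩, fun _ hg => not_isEx_mx h hg.2⟩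

/-- (B1) The cohomology of `O(d) ⊠ O(d')` is finite-dimensional. -/
theorem mb1 (d d' : ℤ) : (DAct.triv ((MP_6e5bed_ag_PN.cC ((O2 k i j d d').pc2.push (LL i)
    (MP_6e5bed_ag_PN.FS.e i)) (LL j)).X (MP_6e5bed_ag_PN.FS.e j))).FGt := by
  refine mono2_fgt (k := k) (S := fun a b => Ex2 d d' (a, b))
    (hS := fun h h' => Ex2_mono ⟨h, h'⟩) (fun g => mx g.1) (fun g => mx g.2)
    (fun l g h => ⟨fun a b => (G2_h1 d d' l g h).1 a b, (G2_h1 d d' l g h).2⟩)
    (fun l g h => ⟨fun a b => (G2_h2 d d' l g h).1 a b, (G2_h2 d d' l g h).2⟩) ?_ mem_LL mem_LL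
  refine ((NX_finite (i := i) d).prod (NX_finite (i := j) d')).subset ?_
  rintro ⟨e, e'⟩ ⟨h1, h2, a, b, hg⟩
  exact ⟨hg.1.nx h1, hg.2.nx h2⟩

/-- (B1') The same in the other order. -/
theorem mb1' (d d' : ℤ) : (DAct.triv ((MP_6e5bed_ag_PN.cC ((O2 k i j d d').pc2.push2 (LL j)
    (MP_6e5bed_ag_PN.FS.e j)) (LL i)).X (MP_6e5bed_ag_PN.FS.e i))).FGt := by
  refine mono2_fgt (k := k) (S := fun b a => Ex2 d d' (a, b))
    (hS := fun h' h => Ex2_mono ⟨h, h'⟩) (fun g => mx g.2) (fun g => mx g.1)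
    (fun l g h => ⟨fun b a => (G2_h2 d d' l g h).1 a b, (G2_h2 d d' l g h).2⟩)
    (fun l g h => ⟨fun b a => (G2_h1 d d' l g h).1 a b, (G2_h1 d d' l g h).2⟩) ?_ mem_LL mem_LL
  refine ((NX_finite (i := i) d).prod (NX_finite (i := j) d')).subset ?_
  rintro ⟨e, e'⟩ ⟨h2, h1, b, a, hg⟩
  exact ⟨hg.1.nx h1, hg.2.nx h2⟩

/-! ### Finite generation over `R_c` and `R_{c'}` -/

omit [Fintype j] in
private theorem G2_i1 {c : Set i} {x : Lau k i} (hx : x ∈ OO k 0 c) :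
    i1 k i j x ∈ MS k {t : (i → ℤ) × (j → ℤ) | IsEx c 0 t.1 ∧ t.2 = 0} := by
  unfold OO at hx
  induction hx using Submodule.span_induction with
  | mem x hx =>
    obtain ⟨e, he, rfl⟩ := hx
    rw [i1_mon]
    exact mo_mem ⟨he, rfl⟩
  | zero => rw [map_zero]; exact zero_mem _
  | add x y _ _ hx hy => rw [map_add]; exact add_mem hx hy
  | smul c x _ hx => rw [map_smul]; exact Submodule.smul_mem _ _ hx

omit [Fintype i] in
private theorem G2_i2 {c : Set j} {x : Lau k j} (hx : x ∈ OO k 0 c) :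
    i2 k i j x ∈ MS k {t : (i → ℤ) × (j → ℤ) | t.1 = 0 ∧ IsEx c 0 t.2} := by
  unfold OO at hx
  induction hx using Submodule.span_induction with
  | mem x hx =>
    obtain ⟨e, he, rfl⟩ := hx
    rw [i2_mon]
    exact mo_mem ⟨rfl, he⟩
  | zero => rw [map_zero]; exact zero_mem _
  | add x y _ _ hx hy => rw [map_add]; exact add_mem hx hy
  | smul c x _ hx => rw [map_smul]; exact Submodule.smul_mem _ _ hx

theorem pi2_bl (c : Ch i) (b : Ch j) (r : RR k c.1) :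
    pi2 (c, b) (bl k (c, b) r) = i1 k i j r := by
  rw [bl_apply, pi2_tmul, OneMemClass.coe_one, map_one, mul_one]

theorem pi2_br (a : Ch i) (c' : Ch j) (r : RR k c'.1) :
    pi2 (a, c') (br k (a, c') r) = i2 k i j r := by
  rw [br_apply, pi2_tmul, OneMemClass.coe_one, map_one, one_mul]

private theorem G2_P1 (d d' : ℤ) (c : Ch i) (b : Ch j) (r : RR k c.1)
    (x : MS k (Ex2 d d' (c, b))) : MS.v (S := Ex2 d d' (c, b))
      ((((O2 k i j d d').act1 c).a b).φ r x) = i1 k i j r * x.1 :=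
  congrArg (· * x.1) (pi2_bl c b r)

private theorem G2_P2 (d d' : ℤ) (a : Ch i) (c' : Ch j) (r : RR k c'.1)
    (x : MS k (Ex2 d d' (a, c'))) : MS.v (S := Ex2 d d' (a, c'))
      ((((O2 k i j d d').act2 c').a a).φ r x) = i2 k i j r * x.1 :=
  congrArg (· * x.1) (pi2_br a c' r)

omit [Fintype j] in
private theorem G2_m1 {c : Ch i} (e : i → ℤ) (e' : j → ℤ) {g0 : i} (d : ℤ)
    [DecidableEq i] (r : RR k c.1) (hr : r.1 = mon k (e + Pi.single g0 (-d))) :
    mo k (e, e') = ((i1 k i j).comp (RR k c.1).val) r * mo k ((Pi.single g0 d : i → ℤ), e') := by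
  have h1 : ((i1 k i j).comp (RR k c.1).val) r = m2 k (e + Pi.single g0 (-d), 0) := by
    rw [← i1_mon, ← hr]
    rfl
  rw [h1]
  have h2 : m2 k (e + Pi.single g0 (-d), 0) * m2 k ((Pi.single g0 d : i → ℤ), e') =
      m2 k (e, e') := by
    rw [m2_mul, Prod.mk_add_mk, add_assoc, ← Pi.single_add, neg_add_cancel,
      Pi.single_zero, add_zero, zero_add]
  exact h2.symm

omit [Fintype i] in
private theorem G2_m2 {c : Ch j} (e : i → ℤ) (e' : j → ℤ) {g0 : j} (d : ℤ)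
    [DecidableEq j] (r : RR k c.1) (hr : r.1 = mon k (e' + Pi.single g0 (-d))) :
    mo k (e, e') = ((i2 k i j).comp (RR k c.1).val) r * mo k (e, (Pi.single g0 d : j → ℤ)) := by
  have h1 : ((i2 k i j).comp (RR k c.1).val) r = m2 k (0, e' + Pi.single g0 (-d)) := by
    rw [← i2_mon, ← hr]
    rfl
  rw [h1]
  have h2 : m2 k (0, e' + Pi.single g0 (-d)) * m2 k (e, (Pi.single g0 d : j → ℤ)) =
      m2 k (e, e') := by
    rw [m2_mul, Prod.mk_add_mk, add_assoc, ← Pi.single_add, neg_add_cancel,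
      Pi.single_zero, add_zero, zero_add]
  exact h2.symm

/-- (B2) The cohomology in the second variable is finitely generated over `R_c`. -/
theorem mb2 (d d' : ℤ) (c : Ch i) :
    (((O2 k i j d d').act1 c).cC (LL j) (MP_6e5bed_ag_PN.FS.e j)).FGt := by
  classical
  refine mono1_fgt (k := k) (S := fun b => Ex2 d d' (c, b))
    (hS := fun h' => Ex2_mono ⟨le_refl c, h'⟩) (D := RR k c.1)
    (θ := (i1 k i j).comp (RR k c.1).val) {t | IsEx c.1 0 t.1 ∧ t.2 = 0} ?_ ?_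
    (fun g => mx g.2) ?_ ?_ ?_ mem_LL _ ?_
  · rintro ⟨r, hr⟩
    exact G2_i1 hr
  · rintro ⟨t, t'⟩ ⟨ht, ht'⟩ b g hg
    have h1 := ht.add hg.1
    rw [zero_add] at h1
    have h2 : t' = 0 := ht'
    refine ⟨h1, ?_⟩
    change IsEx b.1 d' (t' + g.2)
    rw [h2, zero_add]
    exact hg.2
  · rintro ⟨t, t'⟩ ⟨ht, ht'⟩ g
    have h2 : t' = 0 := ht'
    change mx (t' + g.2) = mx g.2
    rw [h2, zero_add]
  · intro l g h
    exact ⟨fun b hg => (G2_h2 d d' l g h).1 c b hg, (G2_h2 d d' l g h).2 c⟩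
  · intro b
    obtain ⟨g0, hg0⟩ := c.2.1
    refine ⟨(fun e' => ((Pi.single g0 d : i → ℤ), e')) '' {e' | e' ∈ NX j d' ∧ IsEx b.1 d' e'},
      ((NX_finite d').subset fun e' he' => he'.1).image _, ?_, ?_⟩
    · rintro _ ⟨e', he', rfl⟩
      exact ⟨⟨isEx_single hg0 d, he'.2⟩, he'.1.1⟩
    · rintro ⟨e, e'⟩ ⟨he, he'⟩ hn
      refine ⟨(Pi.single g0 d, e'), ⟨e', ⟨he'.nx hn, he'⟩, rfl⟩, ⟨mon k (e + Pi.single g0 (-d)),
        mon_mem ?_⟩, ?_⟩
      · have h1 := IsEx.add he (isEx_single hg0 (-d))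
        rwa [add_neg_cancel] at h1
      · exact G2_m1 e e' d _ rfl
  · exact fun b r x => G2_P1 d d' c b r x

/-- (B3) The cohomology in the first variable is finitely generated over `R_{c'}`. -/
theorem mb3 (d d' : ℤ) (c' : Ch j) :
    (((O2 k i j d d').act2 c').cC (LL i) (MP_6e5bed_ag_PN.FS.e i)).FGt := by
  classical
  refine mono1_fgt (k := k) (S := fun a => Ex2 d d' (a, c'))
    (hS := fun h' => Ex2_mono ⟨h', le_refl c'⟩) (D := RR k c'.1)
    (θ := (i2 k i j).comp (RR k c'.1).val) {t | t.1 = 0 ∧ IsEx c'.1 0 t.2} ?_ ?_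
    (fun g => mx g.1) ?_ ?_ ?_ mem_LL _ ?_
  · rintro ⟨r, hr⟩
    exact G2_i2 hr
  · rintro ⟨t, t'⟩ ⟨ht, ht'⟩ a g hg
    have h1 := IsEx.add ht' hg.2
    rw [zero_add] at h1
    have h2 : t = 0 := ht
    refine ⟨?_, h1⟩
    change IsEx a.1 d (t + g.1)
    rw [h2, zero_add]
    exact hg.1
  · rintro ⟨t, t'⟩ ⟨ht, ht'⟩ g
    have h2 : t = 0 := ht
    change mx (t + g.1) = mx g.1
    rw [h2, zero_add]
  · intro l g h
    exact ⟨fun a hg => (G2_h1 d d' l g h).1 a c' hg, (G2_h1 d d' l g h).2 c'⟩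
  · intro a
    obtain ⟨g0, hg0⟩ := c'.2.1
    refine ⟨(fun e => (e, (Pi.single g0 d' : j → ℤ))) '' {e | e ∈ NX i d ∧ IsEx a.1 d e},
      ((NX_finite d).subset fun e he => he.1).image _, ?_, ?_⟩
    · rintro _ ⟨e, he, rfl⟩
      exact ⟨⟨he.2, isEx_single hg0 d'⟩, he.1.1⟩
    · rintro ⟨e, e'⟩ ⟨he, he'⟩ hn
      refine ⟨(e, Pi.single g0 d'), ⟨e, ⟨he.nx hn, he⟩, rfl⟩,
        ⟨mon k (e' + Pi.single g0 (-d')), mon_mem ?_⟩, ?_⟩
      · have h1 := IsEx.add he' (isEx_single hg0 (-d'))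
        rwa [add_neg_cancel] at h1
      · exact G2_m2 e e' d' _ rfl
  · exact fun a r x => G2_P2 d d' a c' r x

end Pool.Agent.MP_6e5bed_ag_GG
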