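import Pool.Agent.Lib.MP_6e5bed_ag_GG.SK
import Pool.Agent.Lib.MP_6e5bed_ag_GG.G2

set_option autoImplicit false
set_option linter.unusedVariables false

/-!
# MP_6e5bed_ag, THEOREM G: finiteness of the cohomology of coherent bisheaves (text, (4.4))

* `finBB`: (F1), the double Čech complex of a coherent bisheaf has finite-dimensional cohomology;
* `finBB2`: (F1'), the same in the other order;
* `push2_fg`: (F2), the Čech complexes in the second variable have finitely generated cohomology
  over `R_c`;
* `push_fg`: (F3), the Čech complexes in the first variable have finitely generated cohomology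
  over `R_{c'}`.
-/

noncomputable section

namespace Pool.Agent.MP_6e5bed_ag_GG

open Pool.Agent.MP_6e5bed_ag_NC Pool.Agent.MP_6e5bed_ag_NS Pool.Agent.MP_6e5bed_ag_PN
open scoped TensorProduct

universe u

variable {k : Type u} [Field k] {i j : Type} [Fintype i] [Fintype j] {A : CA k i} {A' : CA k j}

/-- (F1) -/
theorem finBB : FinBB A A' := finBB_of fun b => mb1 _ _

/-- (F1') -/
theorem finBB2 : FinBB2 A A' := finBB2_of fun b => mb1' _ _

variable (k i j) in
/-- the presheaf in the second variable, with the action of `R_c` -/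
def fP2 (c : Ch i) : FctP (RR k c.1) (ob k i j) j where
  V := fun E => E.pc2.snd c
  p := fun E => E.act1 c
  map := fun f => f.pc2.snd c
  eqv := fun f b => f.act1 c b
  ex := fun f g hf hg h => (ShH.pc2Ex hf hg h).snd c
  m := 0
  up := fun E b => conc_up _
  lo := fun E b => conc_lo _

variable (k i j) in
/-- the presheaf in the first variable, with the action of `R_{c'}` -/
def fP3 (c' : Ch j) : FctP (RR k c'.1) (ob k i j) i where
  V := fun E => E.pc2.fst c'
  p := fun E => E.act2 c'
  map := fun f => f.pc2.fst c'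
  eqv := fun f a => f.act2 c' a
  ex := fun f g hf hg h => (ShH.pc2Ex hf hg h).fst c'
  m := 0
  up := fun E b => conc_up _
  lo := fun E b => conc_lo _

/-- (F2) for sheaves on the pairs of charts -/
theorem fin2 {E : Sh (ob k i j)} (hE : E.Coh) (c : Ch i) :
    ((E.act1 c).cC (LL j) (FS.e j)).FGt := by
  have : IsNoetherianRing (RR k c.1) := rr_noe c
  exact ((fP2 k i j c).fct (LL j) (FS.e j)).fgt (fun b => mb2 _ _ c) hE

/-- (F3) for sheaves on the pairs of charts -/
theorem fin3 {E : Sh (ob k i j)} (hE : E.Coh) (c' : Ch j) :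
    ((E.act2 c').cC (LL i) (FS.e i)).FGt := by
  have : IsNoetherianRing (RR k c'.1) := rr_noe c'
  exact ((fP3 k i j c').fct (LL i) (FS.e i)).fgt (fun b => mb3 _ _ c') hE

/-- (F2): the action of `R_c` on the Čech complex in the second variable is the left
multiplication, and the cohomology is finitely generated. -/
theorem push2_fg {E : BS A A'} (hE : E.Coh) (c : Ch i) :
    ∃ a : DAct (RR k c.1) (MP_6e5bed_ag_PN.bcx ((E.bp.two.push2 (LL j) (FS.e j)).M c)),
      (∀ r x, a.φ r x = ((E.bp.two.push2 (LL j) (FS.e j)).M c).l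
        (algebraMap (RR k c.1) (A.A c) r) x) ∧ a.FGt := by
  refine ⟨((toOb E).act1 c).cC (LL j) (FS.e j), fun r x => ?_, fin2 (toOb_coh hE) c⟩
  exact cBL_act (E.bp.two.snd c) ((toOb E).act1 c) (algebraMap (RR k c.1) (A.A c))
    (fun b r x => by
      have e : rB A A' (c, b) (bl k (c, b) r) =
          algebraMap (RR k c.1) (A.A c) r ⊗ₜ (1 : (A'.A b)ᵐᵒᵖ) := by
        rw [bl_apply, rB_tmul, map_one, MulOpposite.op_one]
      exact congrArg (fun z : (bs A A').B ((c, b) : Ch i × Ch j) =>
        (z • (show E.E ((c, b) : Ch i × Ch j) from x) : E.E ((c, b) : Ch i × Ch j))) e)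
    (LL j) (FS.e j) r x

/-- (F3): the action of `R_{c'}` on the Čech complex in the first variable is the right
multiplication, and the cohomology is finitely generated. -/
theorem push_fg {E : BS A A'} (hE : E.Coh) (c' : Ch j) :
    ∃ a : DAct (RR k c'.1) (MP_6e5bed_ag_PN.bcx ((E.bp.two.push (LL i) (FS.e i)).M c')),
      (∀ r x, a.φ r x = ((E.bp.two.push (LL i) (FS.e i)).M c').r
        (algebraMap (RR k c'.1) (A'.A c') r) x) ∧ a.FGt := by
  refine ⟨((toOb E).act2 c').cC (LL i) (FS.e i), fun r x => ?_, fin3 (toOb_coh hE) c'⟩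
  exact cBR_act (E.bp.two.fst c') ((toOb E).act2 c') (algebraMap (RR k c'.1) (A'.A c'))
    (fun b r x => by
      have e : rB A A' (b, c') (br k (b, c') r) =
          (1 : A.A b) ⊗ₜ MulOpposite.op (algebraMap (RR k c'.1) (A'.A c') r) := by
        rw [br_apply, rB_tmul, map_one]
      exact congrArg (fun z : (bs A A').B ((b, c') : Ch i × Ch j) =>
        (z • (show E.E ((b, c') : Ch i × Ch j) from x) : E.E ((b, c') : Ch i × Ch j))) e)
    (LL i) (FS.e i) r x

end Pool.Agent.MP_6e5bed_ag_GG
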