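import Pool.Agent.Lib.MP_6e5bed_ag_GG.BB
import Pool.Agent.Lib.MP_6e5bed_ag_GG.ShA
import Pool.Agent.Lib.MP_6e5bed_ag_CV.FCRes

set_option autoImplicit false
set_option linter.unusedVariables false

/-!
# MP_6e5bed_ag, THEOREM G: the class of a coherent bisheaf

`FinBB A A'` is the statement (F1): the bimodules of coherent bisheaves have finite-dimensional
cohomology. It gives the additive function `clf` on the coherent bisheaves with values in a quotient
of the Grothendieck group.
-/

noncomputable section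

namespace Pool.Agent.MP_6e5bed_ag_GG

open Pool.Agent.MP_6e5bed_ag_NC Pool.Agent.MP_6e5bed_ag_NS Pool.Agent.MP_6e5bed_ag_PN
open scoped TensorProduct

universe u

variable {k : Type u} [Field k] {i j : Type} [Fintype i] [Fintype j] {A : CA k i} {A' : CA k j}

variable (A A') in
/-- the bimodules of coherent bisheaves have finite-dimensional cohomology -/
def FinBB : Prop := ∀ E : BS A A', E.Coh → E.bp.BB.dg.FinCoh

theorem hasRes_BB (hF : FinBB A A') (hA : Smooth (TT A)) (hA' : Smooth (TT A')) {E : BS A A'}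
    (hE : E.Coh) : HasRes E.bp.BB := HasRes.of_finCoh hA hA' _ (hF E hE)

variable (A A') in
open Classical in
/-- the class of a coherent bisheaf in a quotient of the Grothendieck group -/
def clf (hF : FinBB A A') (hA : Smooth (TT A)) (hA' : Smooth (TT A'))
    (hN : (bs A A').Noe) (J : Submodule ℚ (K0Q (TT A) (TT A'))) :
    AddFn (S := bs A A') Sh.Coh (K0Q (TT A) (TT A') ⧸ J) where
  cl := fun E => if h : E.Coh then J.mkQ (rcls E.bp.BB (hasRes_BB hF hA hA' h)) else 0
  iso := fun E F f hf hE => by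
    have hF' : F.Coh := hE.of_surj f (fun p => (hf p).2)
    rw [dif_pos hE, dif_pos hF']
    congr 1
    exact rcls_iso (BPH.biso (ShH.bp f) (fun p => hf p)) _ _
  add := fun E hE N => by
    have h1 : N.sh.Coh := hE.sub hN N
    have h2 : N.quot.Coh := hE.quot N
    rw [dif_pos hE, dif_pos h1, dif_pos h2, ← map_add]
    congr 1
    obtain ⟨a, b, hab⟩ := N.bpEx
    exact hab.ses.rcls _ _ _

theorem clf_cl (hF : FinBB A A') (hA : Smooth (TT A)) (hA' : Smooth (TT A'))
    (hN : (bs A A').Noe) (J : Submodule ℚ (K0Q (TT A) (TT A'))) {E : BS A A'} (hE : E.Coh) :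
    (clf A A' hF hA hA' hN J).cl E = J.mkQ (rcls E.bp.BB (hasRes_BB hF hA hA' hE)) :=
  dif_pos hE

theorem clf_eq_zero (hF : FinBB A A') (hA : Smooth (TT A)) (hA' : Smooth (TT A'))
    (hN : (bs A A').Noe) (J : Submodule ℚ (K0Q (TT A) (TT A'))) {E : BS A A'} (hE : E.Coh) :
    (clf A A' hF hA hA' hN J).cl E = 0 ↔ rcls E.bp.BB (hasRes_BB hF hA hA' hE) ∈ J := by
  rw [clf_cl hF hA hA' hN J hE, Submodule.mkQ_apply, Submodule.Quotient.mk_eq_zero]

end Pool.Agent.MP_6e5bed_ag_GG
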