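import Pool.Agent.Lib.MP_6e5bed_ag_GG.GA

set_option autoImplicit false
set_option linter.unusedSectionVars false
set_option linter.unusedVariables false

/-!
# MP_6e5bed_ag, THEOREM G: localisation of modules, the structures of the generic data (7.4)
-/

noncomputable section

namespace Pool.Agent.MP_6e5bed_ag_GG

open scoped TensorProduct

universe u

/-! ### Localisation of modules -/

section loc

variable {R : Type u} [CommRing R] (Sg : Submonoid R) {X Y Z : Type u} [AddCommGroup X]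
  [Module R X] [AddCommGroup Y] [Module R Y] [AddCommGroup Z] [Module R Z]

/-- the map to the localisation -/
def lι (X : Type u) [AddCommGroup X] [Module R X] : X →ₗ[R] LocalizedModule Sg X :=
  LocalizedModule.mkLinearMap Sg X

/-- the map of localisations -/
def lmap (f : X →ₗ[R] Y) : LocalizedModule Sg X →ₗ[R] LocalizedModule Sg Y :=
  IsLocalizedModule.map Sg (LocalizedModule.mkLinearMap Sg X) (LocalizedModule.mkLinearMap Sg Y) f

theorem lmap_ι (f : X →ₗ[R] Y) (x : X) : lmap Sg f (lι Sg X x) = lι Sg Y (f x) :=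
  IsLocalizedModule.map_apply Sg _ _ f x

theorem lι_eq_zero {x : X} : lι Sg X x = 0 ↔ ∃ s ∈ Sg, s • x = 0 := by
  unfold lι
  rw [IsLocalizedModule.eq_zero_iff Sg]
  constructor
  · rintro ⟨s, hs⟩
    exact ⟨s.1, s.2, hs⟩
  · rintro ⟨s, hs, hx⟩
    exact ⟨⟨s, hs⟩, hx⟩

theorem lι_surj (v : LocalizedModule Sg X) : ∃ s ∈ Sg, ∃ x, s • v = lι Sg X x := by
  obtain ⟨⟨x, s⟩, h⟩ := IsLocalizedModule.surj Sg (LocalizedModule.mkLinearMap Sg X) v
  exact ⟨s.1, s.2, x, h⟩

theorem l_inj {s : R} (hs : s ∈ Sg) {v w : LocalizedModule Sg X} (h : s • v = s • w) : v = w :=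
  IsLocalizedModule.smul_injective (LocalizedModule.mkLinearMap Sg X) (⟨s, hs⟩ : Sg) h

theorem l_surj {s : R} (hs : s ∈ Sg) (v : LocalizedModule Sg X) :
    ∃ w : LocalizedModule Sg X, s • w = v := by
  have h := IsLocalizedModule.map_units (LocalizedModule.mkLinearMap Sg X) (⟨s, hs⟩ : Sg)
  exact ((Module.End.isUnit_iff _).1 h).2 v

theorem l_ext {f g : LocalizedModule Sg X →ₗ[R] LocalizedModule Sg Y}
    (h : ∀ x, f (lι Sg X x) = g (lι Sg X x)) : f = g := by
  refine LinearMap.ext fun v => ?_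
  obtain ⟨s, hs, x, hx⟩ := lι_surj Sg v
  refine l_inj Sg hs ?_
  rw [← map_smul, ← map_smul, hx, h]

theorem lmap_id : lmap Sg (LinearMap.id : X →ₗ[R] X) = LinearMap.id :=
  l_ext Sg fun x => lmap_ι Sg _ x

theorem lmap_comp (g : Y →ₗ[R] Z) (f : X →ₗ[R] Y) :
    lmap Sg (g ∘ₗ f) = lmap Sg g ∘ₗ lmap Sg f :=
  l_ext Sg fun x => by
    rw [lmap_ι, LinearMap.comp_apply, LinearMap.comp_apply, lmap_ι, lmap_ι]

theorem lmap_add (f g : X →ₗ[R] Y) : lmap Sg (f + g) = lmap Sg f + lmap Sg g :=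
  l_ext Sg fun x => by
    rw [lmap_ι, LinearMap.add_apply, LinearMap.add_apply, lmap_ι, lmap_ι, map_add]

theorem lmap_zero : lmap Sg (0 : X →ₗ[R] Y) = 0 :=
  l_ext Sg fun x => by
    rw [lmap_ι, LinearMap.zero_apply, LinearMap.zero_apply, map_zero]

/-- the map on the endomorphisms -/
def lend (X : Type u) [AddCommGroup X] [Module R X] :
    Module.End R X →+* Module.End R (LocalizedModule Sg X) where
  toFun := lmap Sg
  map_one' := lmap_id Sg
  map_mul' := fun f g => lmap_comp Sg f g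
  map_zero' := lmap_zero Sg
  map_add' := lmap_add Sg

theorem lend_ι (f : Module.End R X) (x : X) : lend Sg X f (lι Sg X x) = lι Sg X (f x) :=
  lmap_ι Sg f x

end loc

/-! ### The structures -/

variable {k : Type u} [Field k] {i j : Type} [Fintype i] [Fintype j]

/-- Generic data of `A` at the chart `m`: a simple algebra `S` which is a localisation of a
quotient of `A_m`. -/
structure GD (A : CA k i) (m : Ch i) where
  S : Type u
  [ring : Ring S]
  [alg : Algebra k S]
  psi : A.A m →ₐ[k] S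
  zero : ∀ {g : i} (hg : g ∈ m.1) (l : i), l ∉ m.1 →
    psi (algebraMap (RR k m.1) (A.A m) (tt k l hg)) = 0
  unit : ∀ f : RR k m.1, psi (algebraMap (RR k m.1) (A.A m) f) ≠ 0 →
    IsUnit (psi (algebraMap (RR k m.1) (A.A m) f))
  surj : ∀ s : S, ∃ f : RR k m.1, psi (algebraMap (RR k m.1) (A.A m) f) ≠ 0 ∧
    ∃ a, psi a = psi (algebraMap (RR k m.1) (A.A m) f) * s
  pr : ∀ x y : S, (∀ z, x * z * y = 0) → x = 0 ∨ y = 0
  ne : (1 : S) ≠ 0

attribute [instance] GD.ring GD.alg

namespace GD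

variable {A : CA k i} {m : Ch i} (g : GD A m)

/-- the functions on the chart `m` in `S` -/
def fn (f : RR k m.1) : g.S := g.psi (algebraMap (RR k m.1) (A.A m) f)

theorem fn_mul (f f' : RR k m.1) : g.fn (f * f') = g.fn f * g.fn f' := by
  unfold fn
  rw [map_mul, map_mul]

theorem fn_one : g.fn 1 = 1 := by
  unfold fn
  rw [map_one, map_one]

/-- the functions are central -/
theorem fn_comm (f : RR k m.1) (s : g.S) : g.fn f * s = s * g.fn f := by
  obtain ⟨h, hh, a, ha⟩ := g.surj s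
  obtain ⟨v, hv⟩ := (g.unit h hh).exists_left_inv
  have h1 : g.fn h * s = g.psi a := ha.symm
  have h2 : g.fn f * g.psi a = g.psi a * g.fn f := by
    unfold fn
    rw [← map_mul, Algebra.commutes, map_mul]
  have h3 : g.fn f * g.fn h = g.fn h * g.fn f := by
    rw [← fn_mul, mul_comm, fn_mul]
  have hv' : v * g.fn h = 1 := hv
  have h4 : g.fn h * (g.fn f * s) = g.fn h * (s * g.fn f) := by
    rw [← mul_assoc, ← h3, mul_assoc, h1, h2, ← h1, mul_assoc]
  have h5 := congrArg (v * ·) h4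
  simp only [← mul_assoc v, hv', one_mul] at h5
  exact h5

/-- the cone of the generic data -/
def cone : Cone A g.S where
  D := fun c => c ≤ m
  dn := fun h h' => h.trans h'
  psi := fun c h => g.psi.comp (A.res h)
  nat := fun {c d} h hd a => by
    change g.psi (A.res hd (A.res h a)) = g.psi (A.res _ a)
    rw [A.res_res]
  zero := fun {c d} h hc hd {g'} hg l hl => by
    change g.psi (A.res hc (algebraMap _ _ (tt k l hg))) = 0
    rw [A.res_R]
    refine g.zero (hc hg) l (fun hlm => hd ?_)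
    intro x hx
    rcases hl hx with rfl | hx
    · exact hlm
    · exact hc hx

end GD

/-- The generic fibre of a bisheaf `E` over the generic data `g`. -/
structure GV {A : CA k i} {A' : CA k j} (E : BS A A') {m : Ch i} (g : GD A m) where
  V : Sh (bsS g.S A')
  ε : ∀ c' : Ch j, E.E (m, c') →ₗ[k] V.E c'
  ε_smul : ∀ (c' : Ch j) (a : A.A m) (b : (A'.A c')ᵐᵒᵖ) (x : E.E (m, c')),
    ε c' ((lo A A' (m, c') a * ro A A' (m, c') b) • x) =
      Zact V (g.psi a ⊗ₜ[k] b : bsSB g.S A' c') (ε c' x)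
  nat : ∀ {c' d' : Ch j} (h : c' ≤ d') (x : E.E (m, c')),
    V.res h (ε c' x) = ε d' (E.res (p := (m, c')) (q := (m, d')) ⟨le_rfl, h⟩ x)
  inj : ∀ (c' : Ch j) (x : E.E (m, c')), ε c' x = 0 → x = 0
  surj : ∀ (c' : Ch j) (v : V.E c'), ∃ f : RR k m.1, g.fn f ≠ 0 ∧
    ∃ x, ε c' x = Zact V (g.fn f ⊗ₜ[k] 1 : bsSB g.S A' c') v

theorem Zact_zero {A' : CA k j} {T : Type u} [Ring T] [Algebra k T] (V : Sh (bsS T A'))
    {c' : Ch j} (v : V.E c') : Zact V (0 : bsSB T A' c') v = 0 :=
  zero_smul ((bsS T A').B c') v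

theorem Zact_add {A' : CA k j} {T : Type u} [Ring T] [Algebra k T] (V : Sh (bsS T A'))
    {c' : Ch j} (b b' : bsSB T A' c') (v : V.E c') :
    Zact V (b + b') v = Zact V b v + Zact V b' v :=
  add_smul (R := (bsS T A').B c') b b' v

theorem Zact_mul {A' : CA k j} {T : Type u} [Ring T] [Algebra k T] (V : Sh (bsS T A'))
    {c' : Ch j} (b b' : bsSB T A' c') (v : V.E c') :
    Zact V (b * b') v = Zact V b (Zact V b' v) :=
  mul_smul (α := (bsS T A').B c') b b' v

theorem Zact_one {A' : CA k j} {T : Type u} [Ring T] [Algebra k T] (V : Sh (bsS T A'))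
    {c' : Ch j} (v : V.E c') : Zact V (1 : bsSB T A' c') v = v :=
  one_smul ((bsS T A').B c') v

theorem Zact_addr {A' : CA k j} {T : Type u} [Ring T] [Algebra k T] (V : Sh (bsS T A'))
    {c' : Ch j} (b : bsSB T A' c') (v w : V.E c') :
    Zact V b (v + w) = Zact V b v + Zact V b w :=
  smul_add (M := (bsS T A').B c') b v w

theorem Zact_zeror {A' : CA k j} {T : Type u} [Ring T] [Algebra k T] (V : Sh (bsS T A'))
    {c' : Ch j} (b : bsSB T A' c') : Zact V b (0 : V.E c') = 0 :=
  smul_zero (M := (bsS T A').B c') b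

theorem res_Zact {A' : CA k j} {T : Type u} [Ring T] [Algebra k T] (V : Sh (bsS T A'))
    {c' d' : Ch j} (h : c' ≤ d') (b : bsSB T A' c') (v : V.E c') :
    V.res h (Zact V b v) = Zact V (bsSr T A' h b) (V.res h v) := V.res_smul h b v

namespace GV

variable {A : CA k i} {A' : CA k j} {E : BS A A'} {m : Ch i} {g : GD A m} (v : GV E g)

theorem key {p : Ch i × Ch j} (h : p.1 ≤ m) (b : bsB A A' p) (x : E.E p) :
    v.ε p.2 (E.res (p := p) (q := (m, p.2)) ⟨h, le_rfl⟩ ((show (bs A A').B p from b) • x)) =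
      Zact v.V (g.cone.ph A' p h b)
        (v.ε p.2 (E.res (p := p) (q := (m, p.2)) ⟨h, le_rfl⟩ x)) := by
  induction b using TensorProduct.induction_on with
  | zero =>
    rw [map_zero, Zact_zero]
    have h1 : (show (bs A A').B p from (0 : bsB A A' p)) • x = 0 :=
      zero_smul ((bs A A').B p) x
    rw [h1, map_zero, map_zero]
  | tmul a b =>
    rw [Cone.ph_tmul]
    have h1 : E.res (p := p) (q := (m, p.2)) ⟨h, le_rfl⟩
        ((show (bs A A').B p from (a ⊗ₜ[k] b : bsB A A' p)) • x) =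
        (lo A A' (m, p.2) (A.res h a) * ro A A' (m, p.2) b) •
          E.res (p := p) (q := (m, p.2)) ⟨h, le_rfl⟩ x := by
      rw [E.res_smul, lo_mul_ro]
      congr 1
      refine (bsr_tmul A A' (p := p) (q := (m, p.2)) ⟨h, le_rfl⟩ a b).trans ?_
      rw [A'.res_id]
      rfl
    rw [h1, v.ε_smul]
    rfl
  | add b b' hb hb' =>
    rw [map_add, Zact_add, ← hb, ← hb', ← map_add, ← map_add]
    congr 2
    exact add_smul (R := (bs A A').B p) b b' x

/-- the morphism from `E` to the constant bisheaf -/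
def map : ShH E (Zs g.cone v.V) where
  f := fun p =>
    { toFun := fun x => (fun h => v.ε p.2 (E.res (q := (m, p.2)) ⟨h.down, le_rfl⟩ x) :
        ZE g.cone v.V p)
      map_add' := fun x y => funext fun h => by
        rw [map_add, map_add]
        rfl
      map_smul' := fun b x => funext fun h => v.key h.down b x }
  nat := fun {p q} h x => funext fun hq => by
    refine (v.nat h.2 _).trans ?_
    change v.ε q.2 (E.res _ (E.res _ x)) = v.ε q.2 (E.res _ (E.res _ x))
    rw [E.res_res, E.res_res]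

theorem map_apply {p : Ch i × Ch j} (x : E.E p) (h : PLift (g.cone.D p.1)) :
    (v.map.f p x : ZE g.cone v.V p) h =
      v.ε p.2 (E.res (p := p) (q := (m, p.2)) ⟨h.down, le_rfl⟩ x) := rfl

end GV

end Pool.Agent.MP_6e5bed_ag_GG
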