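import Pool.Agent.Lib.MP_6e5bed_ag_PS.FG

set_option autoImplicit false
set_option linter.unusedVariables false

/-!
# MP_6e5bed_ag, THEOREM G: tensor products of dg algebras of curves
-/

noncomputable section

namespace Pool.Agent.MP_6e5bed_ag_GG

open CategoryTheory MonoidalCategory Pool.Agent.MP_6e5bed_ag Pool.Agent.MP_6e5bed_ag_NC
  Pool.Agent.MP_6e5bed_ag_NS Pool.Agent.MP_6e5bed_ag_PS

universe u

variable {k : Type u} [Field k]

/-- Tensor products of dg algebras of curves. -/
inductive Gd : DGA k → Prop
  | base : Gd (MP_6e5bed_ag_NC.base k)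
  | curve {W : DGA k} : IsCurve W → Gd W
  | ten {X Y : DGA k} : Gd X → Gd Y → Gd (X.tensor Y)

theorem Gd.smooth [IsAlgClosed k] {X : DGA k} (h : Gd X) : Smooth X := by
  induction h with
  | base => exact smooth_base
  | curve h => exact smooth_curve _ h
  | ten _ _ h1 h2 => exact h1.tensor h2

theorem Gd.proper [IsAlgClosed k] {X : DGA k} (h : Gd X) : Proper X := by
  induction h with
  | base => exact proper_base
  | curve h => exact proper_curve _ h
  | ten _ _ h1 h2 => exact h1.tensor h2

/-- The motives of the tensor products of curves are Kimura-finite. -/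
theorem Gd.kf [IsAlgClosed k] (hC : ∀ W : SP k, IsCurve W.alg → KimuraFinite (U W)) {X : DGA k}
    (h : Gd X) : ∀ (hs : Smooth X) (hp : Proper X), KimuraFinite (U (⟨X, hs, hp⟩ : SP k)) := by
  induction h with
  | base => exact fun hs hp => kf_base _ rfl
  | curve h => exact fun hs hp => hC _ h
  | @ten X Y hX hY h1 h2 =>
    intro hs hp
    have e1 := (kimuraFinite_U_iff _).1 (h1 hX.smooth hX.proper)
    have e2 := (kimuraFinite_U_iff _).1 (h2 hY.smooth hY.proper)
    exact (kimuraFinite_U_iff _).2 (e1.tensor e2)

/-- If the identity factors through tensor products of curves, the motive is Kimura-finite. -/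
theorem kf_of_gd [IsAlgClosed k] (hC : ∀ W : SP k, IsCurve W.alg → KimuraFinite (U W)) (T : SP k)
    (h : K0Q.one T.smooth ∈ JS Gd T.alg) : KimuraFinite (U T) := by
  obtain ⟨n, X, hX, f, g, hfg⟩ := JS.exists_sum (Good := Gd) (fun X hX => hX.smooth) T h
  exact kf_of_sum T X f g hfg fun i => (hX i).kf hC _ _

end Pool.Agent.MP_6e5bed_ag_GG
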