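import Pool.Agent.Lib.MP_6e5bed_ag_SP.NCMot

set_option autoImplicit false

/-!
# Graded algebras over `k[x_0, …, x_n]`, the dg algebras `RΓ(Pⁿ, Γ~)`, the residue condition
(MP_6e5bed_ag)
-/

namespace Pool.Agent.MP_6e5bed_ag_Pn

open MvPolynomial Pool.Agent.MP_6e5bed_ag_SP

universe u

/-- The homomorphism `c` from the field `k` to the commutative ring `Z` has the following property:
there is a homomorphism `φ`, the identity on `k`, from `Z` to a field `M` over `k` such that `M` is
algebraic over the image of `φ` and there are algebraically independent elements `t_1, …, t_m` of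
`M` such that `M` is generated over `k` by elements each of which is algebraic over `k` or over one
of the fields `k(t_i)`. (So `M` is algebraic over the image of `Z` and generated by the function
fields of `m` curves, it is a union of function fields of products of `m` curves if `k` is
algebraically closed.) -/
def InProd {k Z : Type u} [Field k] [CommRing Z] (c : k →+* Z) : Prop :=
  ∃ (M : Type u) (_ : Field M) (_ : Algebra k M) (m : ℕ) (t : Fin m → M) (φ : Z →+* M),
    (∀ x, φ (c x) = algebraMap k M x) ∧ (∀ x : M, IsAlgebraic φ.range x) ∧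
    AlgebraicIndependent k t ∧
    IntermediateField.adjoin k {x : M | IsAlgebraic k x ∨
      ∃ i, IsAlgebraic (IntermediateField.adjoin k {t i}) x} = ⊤

section

variable (n : ℕ) {k Γ : Type u} [Field k] [Ring Γ] [Algebra k Γ]
  [Algebra (MvPolynomial (Fin (n + 1)) k) Γ]

/-- `Γ` is a graded algebra, and it is a finitely generated module over the central subalgebra
generated by the elements `x_0, …, x_n` of degree one. -/
structure IsGr (𝒢 : ℕ → Submodule k Γ) : Prop where
  int : DirectSum.IsInternal 𝒢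
  one : 1 ∈ 𝒢 0
  mul : ∀ p q a b, a ∈ 𝒢 p → b ∈ 𝒢 q → a * b ∈ 𝒢 (p + q)
  var : ∀ i, algebraMap (MvPolynomial (Fin (n + 1)) k) Γ (X i) ∈ 𝒢 1
  fin : Module.Finite (MvPolynomial (Fin (n + 1)) k) Γ

variable (k Γ) in
/-- The residue condition: let `F` be a field which is generated over `k` by elements
`a_0, …, a_n`, one of which is `1` (the residue field of a point of the projective space), and which
contains two algebraically independent elements (the closure of the point has at least the dimension
two). Then the centre of every simple quotient `Q` of the algebra `Γ ⊗ F` (`x_i ↦ a_i`) has the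
property `InProd`. -/
def CenM : Prop :=
  ∀ (F Q : Type u) [Field F] [Algebra k F] [Ring Q] [Algebra F Q] [IsSimpleRing Q]
    (a : Fin (n + 1) → F) (j : Fin (n + 1)) (w : Fin 2 → F) (π : Γ →+* Q),
    a j = 1 → IntermediateField.adjoin k (Set.range a) = ⊤ → AlgebraicIndependent k w →
    (∀ p : MvPolynomial (Fin (n + 1)) k, π (algebraMap _ Γ p) = algebraMap F Q (aeval a p)) →
    Submodule.span F (Set.range π) = ⊤ →
    InProd ((algebraMap F (Subalgebra.center F Q)).comp (algebraMap k F))

end

section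

variable {n : ℕ} {k Γ : Type u} [Field k] [Ring Γ] [Algebra k Γ]
  [Algebra (MvPolynomial (Fin (n + 1)) k) Γ] {B : Finset (Fin (n + 1)) → Type u}
  [∀ I, Ring (B I)] [∀ I, Algebra k (B I)]

/-- The sections of the sheaf of algebras `Γ~` on the projective space: for `I ⊆ {0, …, n}` the
algebra `B I` is the degree zero part of the localisation of `Γ` at the product `x_I` of the `x_i`
with `i ∈ I`, the element `q I m a` of `B I` is the fraction `a / x_I ^ m`, for `a` of degree
`m * |I|`, and the `r I J` are the restriction maps. -/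
structure IsSec (𝒢 : ℕ → Submodule k Γ)
    (r : ∀ I J : Finset (Fin (n + 1)), I ⊆ J → B I →ₐ[k] B J)
    (q : ∀ I : Finset (Fin (n + 1)), ℕ → Γ → B I) : Prop where
  add : ∀ I m a b, a ∈ 𝒢 (m * I.card) → b ∈ 𝒢 (m * I.card) → q I m (a + b) = q I m a + q I m b
  mul : ∀ I l m a b, a ∈ 𝒢 (l * I.card) → b ∈ 𝒢 (m * I.card) →
    q I (l + m) (a * b) = q I l a * q I m b
  const : ∀ I (c : k), q I 0 (algebraMap k Γ c) = algebraMap k (B I) c
  step : ∀ I m a, a ∈ 𝒢 (m * I.card) →
    q I (m + 1) ((∏ i ∈ I, X i : MvPolynomial (Fin (n + 1)) k) • a) = q I m a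
  surj : ∀ I (b : B I), ∃ m, ∃ a ∈ 𝒢 (m * I.card), q I m a = b
  zero : ∀ I m a, a ∈ 𝒢 (m * I.card) → q I m a = 0 →
    ∃ l : ℕ, (∏ i ∈ I, X i : MvPolynomial (Fin (n + 1)) k) ^ l • a = 0
  res : ∀ I J (h : I ⊆ J) m a, a ∈ 𝒢 (m * I.card) →
    r I J h (q I m a) = q J m ((∏ j ∈ J \ I, X j : MvPolynomial (Fin (n + 1)) k) ^ m • a)

/-- The dg algebra `X` is the Čech dg algebra of the sections `B` with the restriction maps `r`:
the elements are the families `(a_I)` with `a_I ∈ B I`, `a_∅ = 0`, where `a_I` has the degree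
`|I| - 1`; the product is `(a b)_I = ∑ a_{j ∈ I, j ≤ i} b_{j ∈ I, i ≤ j}` and the differential is
`(d a)_I = ∑ ± a_{I - i}`, the sums being over `i ∈ I` and the sign being `(-1)^m` if `i` is the
`m`-th element of `I` (starting with `m = 0`). -/
structure IsCech {T : Type u} [Ring T] [Algebra k T]
    (r : ∀ I J : Finset (Fin (n + 1)), I ⊆ J → B I →ₐ[k] B J) (X : DG k T)
    (e : T →ₗ[k] ∀ I, B I) : Prop where
  inj : Function.Injective e
  range : ∀ c : ∀ I, B I, (∃ a, e a = c) ↔ c ∅ = 0
  one : ∀ I, e 1 I = if I.card = 1 then 1 else 0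
  mul : ∀ a b I, e (a * b) I = ∑ i ∈ I, r (I.filter (· ≤ i)) I (Finset.filter_subset _ _) (e a _) *
    r (I.filter (i ≤ ·)) I (Finset.filter_subset _ _) (e b _)
  gr : ∀ (m : ℤ) a, a ∈ X.gr m ↔ ∀ I, e a I ≠ 0 → (I.card : ℤ) = m + 1
  d : ∀ a I, e (X.d a) I = ∑ i ∈ I, (-1 : ℤ) ^ (I.filter (· < i)).card •
    r (I.erase i) I (Finset.erase_subset i I) (e a _)

variable (n) in
/-- The dg algebra `X` is `RΓ(Pⁿ, Γ~)`, computed by the Čech complex of the standard charts. -/
def IsRGam (𝒢 : ℕ → Submodule k Γ) {T : Type u} [Ring T] [Algebra k T] (X : DG k T) : Prop :=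
  ∃ (B : Finset (Fin (n + 1)) → Type u) (_ : ∀ I, Ring (B I)) (_ : ∀ I, Algebra k (B I))
    (r : ∀ I J : Finset (Fin (n + 1)), I ⊆ J → B I →ₐ[k] B J)
    (q : ∀ I : Finset (Fin (n + 1)), ℕ → Γ → B I) (e : T →ₗ[k] ∀ I, B I),
    IsSec 𝒢 r q ∧ IsCech r X e

end

end Pool.Agent.MP_6e5bed_ag_Pn
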