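import Pool.Agent.Lib.MP_6e5bed_ag_PN.Cst

set_option autoImplicit false
set_option linter.unusedVariables false

/-!
# MP_6e5bed_ag, THEOREM G: evaluation of Čech complexes at a chart

For `l` in the list `L` (with a position `q : Ptr L l`), `ev V q c` is the map from the Čech
complex of `V` with respect to `L` at `c` to the value of `V` on the chart `c ∪ l`.
-/

noncomputable section

namespace Pool.Agent.MP_6e5bed_ag_GG

open Pool.Agent.MP_6e5bed_ag_NC Pool.Agent.MP_6e5bed_ag_NS Pool.Agent.MP_6e5bed_ag_PN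

universe u

variable {k : Type u} [CommRing k] {ι : Type}

/-- The positions of an index in a list. -/
inductive Ptr {ι : Type} : List ι → ι → Type
  | head (l : ι) (L : List ι) : Ptr (l :: L) l
  | tail {L : List ι} {l : ι} (l' : ι) (q : Ptr L l) : Ptr (l' :: L) l

theorem Ptr.ex {l : ι} : ∀ {L : List ι}, l ∈ L → Nonempty (Ptr L l)
  | l' :: L, h => by
    rcases List.mem_cons.1 h with rfl | h
    · exact ⟨Ptr.head _ L⟩
    · obtain ⟨q⟩ := Ptr.ex h
      exact ⟨Ptr.tail l' q⟩

/-- The projection `(x0, x1, ξ) ↦ x1`. -/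
def co.pr1 {X0 X1 X01 : Cx k} (r0 : CHom X0 X01) (r1 : CHom X1 X01) : CHom (co r0 r1) X1 where
  f := LinearMap.snd k X0.V X1.V ∘ₗ LinearMap.fst k (X0.V × X1.V) X01.V
  deg := fun {i x} h => by
    obtain ⟨⟨x0, x1⟩, ξ⟩ := x
    exact (co_deg.1 h).2.1
  d := fun x => by
    obtain ⟨⟨x0, x1⟩, ξ⟩ := x
    exact (congrArg (fun z => z.1.2) (co_d (r0 := r0) (r1 := r1) x0 x1 ξ)).symm

/-- The evaluation of the Čech complex at a chart. -/
def ev (V : PC k ι) : ∀ {L : List ι} {l : ι}, Ptr L l → ∀ c : FS ι,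
    CHom ((cC V L).X c) (V.X (c.ins l))
  | _, _, Ptr.head l L, c => co.pr1 ((cC V L).ρ (le_ins c l)) ((cC V L).a (c.ins l))
  | _, _, Ptr.tail (L := L) l' q, c =>
    (co.pr0 ((cC V L).ρ (le_ins c l')) ((cC V L).a (c.ins l'))).comp (ev V q c)

theorem ev_head (V : PC k ι) (l : ι) (L : List ι) (c : FS ι) (x0 : ((cC V L).X c).V)
    (x1 : (V.X (c.ins l)).V) (ξ : ((cC V L).X (c.ins l).fs).V) :
    (ev V (Ptr.head l L) c).f ((x0, x1), ξ) = x1 := rfl

theorem ev_tail (V : PC k ι) {l : ι} {L : List ι} (l' : ι) (q : Ptr L l) (c : FS ι)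
    (x0 : ((cC V L).X c).V) (x1 : (V.X (c.ins l')).V) (ξ : ((cC V L).X (c.ins l').fs).V) :
    (ev V (Ptr.tail l' q) c).f ((x0, x1), ξ) = (ev V q c).f x0 := rfl

/-- The evaluation is natural. -/
theorem ev_nat {V V' : PC k ι} (f : PCH V V') : ∀ {L : List ι} {l : ι} (q : Ptr L l) (c : FS ι)
    (x : ((cC V L).X c).V), (ev V' q c).f (((cH f L).g c).f x) = (f.f (c.ins l)).f ((ev V q c).f x)
  | _, _, Ptr.head l L, c, x => rfl
  | _, _, Ptr.tail (L := L) l' q, c, x => ev_nat f q c x.1.1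

/-- The evaluation is multiplicative. -/
theorem ev_mul {V V' V'' : PC k ι} (p : PP V V' V'') : ∀ {L : List ι} {l : ι} (q : Ptr L l)
    (c : FS ι) (x : ((cC V L).X c).V) (y : ((cC V' L).X c).V),
    (ev V'' q c).f (((cP p L).q c).m x y) =
      (p.p (c.ins l)).m ((ev V q c).f x) ((ev V' q c).f y)
  | _, _, Ptr.head l L, c, x, y => rfl
  | _, _, Ptr.tail (L := L) l' q, c, x, y => ev_mul p q c x.1.1 y.1.1

/-- The evaluation of a constant. -/
theorem ev_con (X : Cx k) : ∀ {L : List ι} {l : ι} (q : Ptr L l) (c : FS ι) (x : X.V),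
    (ev (PC.con ι X) q c).f ((kX X L c).f x) = x
  | _, _, Ptr.head l L, c, x => rfl
  | _, _, Ptr.tail (L := L) l' q, c, x => ev_con X q c x

/-- The evaluation and restriction. -/
theorem ev_ρ (V : PC k ι) : ∀ {L : List ι} {l : ι} (q : Ptr L l) {c d : FS ι} (h : c ≤ d)
    (x : ((cC V L).X c).V), (ev V q d).f (((cC V L).ρ h).f x) =
      (V.ρ (ins_mono h l)).f ((ev V q c).f x)
  | _, _, Ptr.head l L, c, d, h, x => rfl
  | _, _, Ptr.tail (L := L) l' q, c, d, h, x => ev_ρ V q h x.1.1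

/-- The evaluation of the augmentation. -/
theorem ev_a (V : PC k ι) : ∀ {L : List ι} {l : ι} (q : Ptr L l) (c : Ch ι)
    (x : (V.X c).V), (ev V q c.fs).f (((cC V L).a c).f x) = (V.ρ (le_ins' c l)).f x
  | _, _, Ptr.head l L, c, x => rfl
  | _, _, Ptr.tail (L := L) l' q, c, x => ev_a V q c x

/-! ### The evaluation of Čech bimodules -/

section bim

variable {A B : PA k ι} {C : DGA k} {L : List ι} {l : ι} (q : Ptr L l) (c : FS ι)

/-- the evaluation of the Čech algebra -/
def evA (A : PA k ι) {L : List ι} {l : ι} (q : Ptr L l) (c : FS ι) :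
    DHom (cA A L c) (A.A (c.ins l)) where
  f := (ev A.pc q c).f
  deg := (ev A.pc q c).deg
  d := (ev A.pc q c).d
  one := by
    have h : ∀ {L : List ι} {l : ι} (q : Ptr L l) (c : FS ι),
        (ev A.pc q c).f (cU A L c) = (A.A (c.ins l)).one := by
      intro L l q
      induction q with
      | head l L => exact fun c => rfl
      | tail l' q ih => exact fun c => ih c
    exact h q c
  mul := fun x y => ev_mul A.pp q c x y

/-- the evaluation of the Čech bimodule -/
def evB (M : PB A B) : GMap 0 (cB M L c) (res (evA A q c) (evA B q c) (M.M (c.ins l))) :=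
  cgm (evA A q c) (evA B q c) (ev M.pc q c) (fun r x => ev_mul M.pl q c r x)
    (fun r x => ev_mul M.pr q c x r)

theorem evB_dd (M : PB A B) : (evB q c M).dd = 0 := cgm_dd _ _ _ _ _

theorem evL_l (M : PB (PA.con ι C) B) (r : C.A) (x : (cBL M L c).M) :
    (ev M.pc q c).f ((cBL M L c).l r x) = (M.M (c.ins l)).l r ((ev M.pc q c).f x) := by
  refine (ev_mul M.pl q c ((kX (acx C) L c).f r) x).trans ?_
  exact congrArg (fun z => (M.M (c.ins l)).l z ((ev M.pc q c).f x)) (ev_con (acx C) q c r)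

theorem evL_r (M : PB (PA.con ι C) B) (r : (cA B L c).A) (x : (cBL M L c).M) :
    (ev M.pc q c).f ((cBL M L c).r r x) =
      (M.M (c.ins l)).r ((evA B q c).f r) ((ev M.pc q c).f x) :=
  ev_mul M.pr q c x r

theorem evR_r (M : PB A (PA.con ι C)) (r : C.A) (x : (cBR M L c).M) :
    (ev M.pc q c).f ((cBR M L c).r r x) = (M.M (c.ins l)).r r ((ev M.pc q c).f x) := by
  refine (ev_mul M.pr q c x ((kX (acx C) L c).f r)).trans ?_
  exact congrArg (fun z => (M.M (c.ins l)).r z ((ev M.pc q c).f x)) (ev_con (acx C) q c r)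

theorem evR_l (M : PB A (PA.con ι C)) (r : (cA A L c).A) (x : (cBR M L c).M) :
    (ev M.pc q c).f ((cBR M L c).l r x) =
      (M.M (c.ins l)).l ((evA A q c).f r) ((ev M.pc q c).f x) :=
  ev_mul M.pl q c r x

/-- the evaluation of the Čech bimodule with constant left algebra -/
def evL (M : PB (PA.con ι C) B) :
    GMap 0 (cBL M L c) (res (DHom.id C) (evA B q c) (M.M (c.ins l))) :=
  cgm (DHom.id C) (evA B q c) (ev M.pc q c) (fun r x => evL_l q c M r x)
    (fun r x => evL_r q c M r x)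

theorem evL_dd (M : PB (PA.con ι C) B) : (evL q c M).dd = 0 := cgm_dd _ _ _ _ _

/-- the evaluation of the Čech bimodule with constant right algebra -/
def evR (M : PB A (PA.con ι C)) :
    GMap 0 (cBR M L c) (res (evA A q c) (DHom.id C) (M.M (c.ins l))) :=
  cgm (evA A q c) (DHom.id C) (ev M.pc q c) (fun r x => evR_l q c M r x)
    (fun r x => evR_r q c M r x)

theorem evR_dd (M : PB A (PA.con ι C)) : (evR q c M).dd = 0 := cgm_dd _ _ _ _ _

theorem evL_f (M : PB (PA.con ι C) B) (x : (cBL M L c).M) :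
    (evL q c M).f x = (ev M.pc q c).f x := rfl

theorem evR_f (M : PB A (PA.con ι C)) (x : (cBR M L c).M) :
    (evR q c M).f x = (ev M.pc q c).f x := rfl

end bim

end Pool.Agent.MP_6e5bed_ag_GG
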