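import Pool.Agent.Lib.MP_6e5bed_ag_GG.IA

set_option autoImplicit false
set_option linter.unusedSectionVars false

/-!
# MP_6e5bed_ag, THEOREM G: noetherian induction: two subsheaves (text, section 7)
-/

noncomputable section

namespace Pool.Agent.MP_6e5bed_ag_GG

open scoped TensorProduct

universe u

variable {k : Type u} [Field k] {i j : Type} [Fintype i] [Fintype j]

/-! ### Localisation in several steps -/

theorem Ch.le_supL (c d : Ch i) : c ≤ c.sup d := Set.subset_union_left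

theorem Ch.le_supR (c d : Ch i) : d ≤ c.sup d := Set.subset_union_right

theorem Ch.sup_le {c d e : Ch i} (h : c ≤ e) (h' : d ≤ e) : c.sup d ≤ e := Set.union_subset h h'

theorem rinc_comp {c d e : Ch i} (h : c ≤ d) (h' : d ≤ e) (f : RR k c.1) :
    rinc h' (rinc h f) = rinc (h.trans h') f := rfl

theorem tt_mul {c : Set i} {l g : i} (hl : l ∈ c) (hg : g ∈ c) :
    tt k l hg * tt k g hl = 1 := by
  refine Subtype.ext ?_
  change mon k (ex l g) * mon k (ex g l) = 1
  rw [mon_mul]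
  have h : ex l g + ex g l = 0 := by
    unfold ex
    abel
  rw [h]
  rfl

theorem tt_unit {c : Set i} {l g : i} (hl : l ∈ c) (hg : g ∈ c) : IsUnit (tt k l hg) :=
  IsUnit.of_mul_eq_one (tt k g hl) (tt_mul hl hg)

theorem CA.res_smul (A : CA k i) {c d : Ch i} (h : c ≤ d) (f : RR k c.1) (a : A.A c) :
    A.res h (f • a) = rinc h f • A.res h a := by
  rw [Algebra.smul_def, Algebra.smul_def, map_mul, A.res_R]

/-- induction over the charts above `m` -/
theorem Ch.induction_ge {m : Ch i} {Pr : ∀ d : Ch i, m ≤ d → Prop} (h0 : Pr m le_rfl)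
    (h1 : ∀ (d e : Ch i) (hd : m ≤ d) (l : i) (he : d ≤ e), e.1 = insert l d.1 → Pr d hd →
      Pr e (hd.trans he)) (d : Ch i) (hd : m ≤ d) : Pr d hd := by
  have h2 : ∀ s : Set i, s.Finite → ∀ (d : Ch i) (hd : m ≤ d), d.1 = s ∪ m.1 → Pr d hd := by
    intro s hs
    induction s, hs using Set.Finite.induction_on with
    | empty =>
      intro d hd h3
      have h4 : m = d := Subtype.ext (by rw [h3, Set.empty_union])
      subst h4
      exact h0
    | @insert l s _ hs ih =>
      intro d hd h3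
      have h5 : (s ∪ m.1).Nonempty := m.2.1.mono Set.subset_union_right
      have h6 : (s ∪ m.1).Finite := hs.union m.2.2
      have h7 : m ≤ (⟨s ∪ m.1, h5, h6⟩ : Ch i) := Set.subset_union_right
      have h8 : (⟨s ∪ m.1, h5, h6⟩ : Ch i) ≤ d := by
        change s ∪ m.1 ⊆ d.1
        rw [h3]
        exact Set.union_subset_union_left _ (Set.subset_insert _ _)
      exact h1 _ d h7 l h8 (by rw [h3, Set.insert_union]) (ih _ h7 rfl)
  exact h2 d.1 d.2.2 d hd (Set.union_eq_self_of_subset_right hd).symm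

/-- the elements of `A_d` come from `A_m` up to units -/
theorem CA.gen (A : CA k i) {m d : Ch i} (h : m ≤ d) (x : A.A d) :
    ∃ (u : RR k d.1) (y : A.A m), IsUnit u ∧ A.res h y = u • x := by
  obtain ⟨g, hg⟩ := m.2.1
  refine Ch.induction_ge (m := m) (Pr := fun d h => ∀ x : A.A d, ∃ (u : RR k d.1) (y : A.A m),
    IsUnit u ∧ A.res h y = u • x) ?_ ?_ d h x
  · intro x
    exact ⟨1, x, isUnit_one, by rw [A.res_id, one_smul]⟩
  · intro d e hd l he hl ih x
    obtain ⟨n, a, ha⟩ := A.surj he (hd hg) l hl.le x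
    obtain ⟨u, y, hu, hy⟩ := ih a
    have hle : l ∈ e.1 := by
      rw [hl]
      exact Set.mem_insert _ _
    refine ⟨rinc he u * tt k l (he (hd hg)) ^ n, y, (hu.map (rinc he)).mul
      ((tt_unit hle _).pow n), ?_⟩
    rw [← A.res_res hd he, hy, A.res_smul, ha, mul_smul]

section

variable {A : CA k i} {A' : CA k j}

theorem Sh.res_cl1 (E : BS A A') {p q : Ch i × Ch j} (h : p ≤ q) (f : RR k p.1.1) (x : E.E p) :
    E.res h (cl1 A A' p f • x) = cl1 A A' q (rinc h.1 f) • E.res h x := by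
  rw [E.res_smul, cl1_r]

theorem Sh.res_lo (E : BS A A') {p q : Ch i × Ch j} (h : p ≤ q) (a : A.A p.1) (x : E.E p) :
    E.res h (lo A A' p a • x) = lo A A' q (A.res h.1 a) • E.res h x := by
  rw [E.res_smul, lo_r]

/-- a unit acts injectively -/
theorem Sh.unit_smul (E : BS A A') {p : Ch i × Ch j} {u : RR k p.1.1} (hu : IsUnit u)
    {x : E.E p} (h : cl1 A A' p u • x = 0) : x = 0 := by
  obtain ⟨v, hv⟩ := hu.exists_left_inv
  have h1 : cl1 A A' p v • cl1 A A' p u • x = 0 := by rw [h, smul_zero]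
  rwa [← mul_smul, ← cl1_mul, hv, cl1_one, one_smul] at h1

/-- restriction to an equal chart -/
theorem Sh.res_inj_of_le (E : BS A A') {p q : Ch i × Ch j} (h : p ≤ q) (h' : q ≤ p)
    {x : E.E p} (hx : E.res h x = 0) : x = 0 := by
  have h1 := E.res_res h h' x
  rw [hx, map_zero, E.res_id] at h1
  exact h1.symm

theorem Sh.gen1 (E : BS A A') {m d : Ch i} (h : m ≤ d) {c' : Ch j} (x : E.E (d, c')) :
    ∃ (u : RR k d.1) (y : E.E (m, c')), IsUnit u ∧
      E.res (p := (m, c')) (q := (d, c')) ⟨h, le_rfl⟩ y = cl1 A A' (d, c') u • x := by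
  obtain ⟨g, hg⟩ := m.2.1
  refine Ch.induction_ge (m := m) (Pr := fun d h => ∀ x : E.E (d, c'), ∃ (u : RR k d.1)
    (y : E.E (m, c')), IsUnit u ∧
      E.res (p := (m, c')) (q := (d, c')) ⟨h, le_rfl⟩ y = cl1 A A' (d, c') u • x) ?_ ?_ d h x
  · intro x
    exact ⟨1, x, isUnit_one, by rw [E.res_id, cl1_one, one_smul]⟩
  · intro d e hd l he hl ih x
    have hL : (bs A A').Loc (d, c') (e, c') (cl1 A A' (d, c') (tt k l (hd hg))) :=
      ⟨⟨he, le_rfl⟩, Or.inl ⟨l, g, hd hg, hl.le, le_rfl, rfl⟩⟩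
    obtain ⟨n, a, ha⟩ := E.surj hL x
    obtain ⟨u, y, hu, hy⟩ := ih a
    have hle : l ∈ e.1 := by
      rw [hl]
      exact Set.mem_insert _ _
    refine ⟨rinc he u * tt k l (he (hd hg)) ^ n, y, (hu.map (rinc he)).mul
      ((tt_unit hle _).pow n), ?_⟩
    have h1 := E.res_res (p := (m, c')) (q := (d, c')) (s := (e, c')) ⟨hd, le_rfl⟩
      ⟨he, le_rfl⟩ y
    rw [hy, E.res_cl1] at h1
    have h2 : E.res (p := (d, c')) (q := (e, c')) ⟨he, le_rfl⟩ a =
        cl1 A A' (e, c') (tt k l (he (hd hg)) ^ n) • x := by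
      refine ha.trans ?_
      rw [cl1_r, cl1_pow]
      rfl
    rw [h2, ← mul_smul, ← cl1_mul] at h1
    exact h1.symm

theorem Sh.inj1 (E : BS A A') {m d : Ch i} (h : m ≤ d) {c' : Ch j} {y : E.E (m, c')}
    (hy : E.res (p := (m, c')) (q := (d, c')) ⟨h, le_rfl⟩ y = 0) :
    ∃ f : RR k m.1, IsUnit (rinc h f) ∧ cl1 A A' (m, c') f • y = 0 := by
  obtain ⟨g, hg⟩ := m.2.1
  refine Ch.induction_ge (m := m) (Pr := fun d h => ∀ y : E.E (m, c'),
    E.res (p := (m, c')) (q := (d, c')) ⟨h, le_rfl⟩ y = 0 →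
      ∃ f : RR k m.1, IsUnit (rinc h f) ∧ cl1 A A' (m, c') f • y = 0) ?_ ?_ d h y hy
  · intro y hy
    rw [E.res_id] at hy
    exact ⟨1, by rw [map_one]; exact isUnit_one, by rw [hy, smul_zero]⟩
  · intro d e hd l he hl ih y hy
    have hL : (bs A A').Loc (d, c') (e, c') (cl1 A A' (d, c') (tt k l (hd hg))) :=
      ⟨⟨he, le_rfl⟩, Or.inl ⟨l, g, hd hg, hl.le, le_rfl, rfl⟩⟩
    have h1 := E.res_res (p := (m, c')) (q := (d, c')) (s := (e, c')) ⟨hd, le_rfl⟩
      ⟨he, le_rfl⟩ y
    obtain ⟨n, hn⟩ := E.inj hL _ (h1.trans hy)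
    obtain ⟨f, hf, hf'⟩ := ih (cl1 A A' (m, c') (tt k l hg ^ n) • y) (by
      rw [E.res_cl1]
      refine Eq.trans ?_ hn
      rw [← cl1_pow]
      rfl)
    have hle : l ∈ e.1 := by
      rw [hl]
      exact Set.mem_insert _ _
    refine ⟨f * tt k l hg ^ n, ?_, ?_⟩
    · rw [map_mul]
      refine IsUnit.mul ?_ ?_
      · have h2 := hf.map (rinc (k := k) he)
        exact h2
      · rw [map_pow]
        exact (tt_unit hle (he (hd hg))).pow n
    · rw [cl1_mul, mul_smul]
      exact hf'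

/-! ### The subsheaf killed by an ideal of `A_m` -/

/-- the restriction of `p` to the chart `m` -/
abbrev sp (m : Ch i) (p : Ch i × Ch j) : Ch i × Ch j := (p.1.sup m, p.2)

theorem le_sp (m : Ch i) (p : Ch i × Ch j) : p ≤ sp m p := ⟨Ch.le_supL _ _, le_rfl⟩

theorem sp_mono (m : Ch i) {p q : Ch i × Ch j} (h : p ≤ q) : sp m p ≤ sp m q :=
  ⟨Set.union_subset_union_left _ h.1, h.2⟩

theorem m_le (m : Ch i) (p : Ch i × Ch j) : m ≤ (sp m p).1 := Ch.le_supR _ _

/-- `e` is killed by `a` on the chart `m` -/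
def KlA (E : BS A A') (m : Ch i) (a : A.A m) (p : Ch i × Ch j) (e : E.E p) : Prop :=
  lo A A' (sp m p) (A.res (m_le m p) a) • E.res (le_sp m p) e = 0

theorem KlA.mono {E : BS A A'} {m : Ch i} {a : A.A m} {p q : Ch i × Ch j} (h : p ≤ q)
    {e : E.E p} (he : KlA E m a p e) : KlA E m a q (E.res h e) := by
  unfold KlA at he ⊢
  have h1 := congrArg (E.res (sp_mono m h)) he
  rw [map_zero, E.res_lo, E.res_res, A.res_res] at h1
  rw [E.res_res]
  exact h1

theorem KlA.add {E : BS A A'} {m : Ch i} {a : A.A m} {p : Ch i × Ch j} {e e' : E.E p}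
    (h : KlA E m a p e) (h' : KlA E m a p e') : KlA E m a p (e + e') := by
  unfold KlA at h h' ⊢
  rw [map_add, smul_add, h, h', add_zero]

/-- left multiplication of `a` -/
theorem KlA.mul {E : BS A A'} {m : Ch i} {a : A.A m} {p : Ch i × Ch j} {e : E.E p}
    (h : KlA E m a p e) (b : A.A m) : KlA E m (b * a) p e := by
  unfold KlA at h ⊢
  rw [map_mul, map_mul, mul_smul, h, smul_zero]

theorem KlA.add' {E : BS A A'} {m : Ch i} {a b : A.A m} {p : Ch i × Ch j} {e : E.E p}
    (h : KlA E m a p e) (h' : KlA E m b p e) : KlA E m (a + b) p e := by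
  unfold KlA at h h' ⊢
  rw [map_add, map_add, add_smul, h, h', add_zero]

/-- if `a x` kills `e` for all `x` then `a` kills `x e` for all `x` -/
theorem KlA.smul {E : BS A A'} {m : Ch i} {a : A.A m} {p : Ch i × Ch j} {e : E.E p}
    (h : ∀ x, KlA E m (a * x) p e) (b : (bs A A').B p) : KlA E m a p (b • e) := by
  induction b using bs_induction with
  | h0 =>
    rw [zero_smul]
    unfold KlA
    rw [map_zero, smul_zero]
  | h1 x y =>
    obtain ⟨u, z, hu, hz⟩ := A.gen (m_le m p) (A.res (le_sp m p).1 x)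
    have h1 := h z
    unfold KlA at h1 ⊢
    rw [map_mul, hz, mul_smul_comm, Algebra.smul_def, map_mul, mul_smul] at h1
    have h2 := E.unit_smul hu h1
    rw [E.res_smul, map_mul, lo_r, ro_r, mul_smul, ← mul_smul (lo A A' (sp m p) _)
      (lo A A' (sp m p) _), ← map_mul, ← mul_smul, ← ro_mul_lo, mul_smul, h2, smul_zero]
  | h2 x y hx hy =>
    rw [add_smul]
    exact hx.add hy

/-- saturation for one element -/
theorem KlA.sat {E : BS A A'} {m : Ch i} {a : A.A m} {p q : Ch i × Ch j} {t : (bs A A').B p}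
    (h : (bs A A').Loc p q t) {e : E.E p} (he : KlA E m a q (E.res ((bs A A').le h) e)) :
    ∃ n : ℕ, (bs A A').r (le_sp m p) t ^ n •
      lo A A' (sp m p) (A.res (m_le m p) a) • E.res (le_sp m p) e = 0 := by
  refine E.inj (bsLoc_sup h m) _ ?_
  have h1 : E.res (sp_mono m ((bs A A').le h))
      (lo A A' (sp m p) (A.res (m_le m p) a) • E.res (le_sp m p) e) = 0 := by
    rw [E.res_lo, A.res_res, E.res_res]
    unfold KlA at he
    rw [E.res_res] at he
    exact he
  exact h1

/-- The subsheaf of the elements which are killed by a two-sided ideal of `A_m`. -/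
def kil (E : BS A A') (hA : ∀ c, IsNoetherianRing (A.A c)) (m : Ch i) (I : Ideal (A.A m))
    (hI : ∀ a ∈ I, ∀ b, a * b ∈ I) : Sub E where
  N := fun p =>
    { carrier := {e | ∀ a ∈ I, KlA E m a p e}
      zero_mem' := fun a _ => by
        unfold KlA
        rw [map_zero, smul_zero]
      add_mem' := fun {x y} hx hy a ha => (hx a ha).add (hy a ha)
      smul_mem' := fun b x hx a ha => KlA.smul (fun y => hx _ (hI a ha y)) b }
  mono := fun h x hx a ha => (hx a ha).mono h
  sat := fun {p q t} h x hx => by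
    have := hA m
    obtain ⟨s, hs⟩ : I.FG := IsNoetherian.noetherian I
    choose! n hn using fun (a : A.A m) (ha : a ∈ I) => KlA.sat h (hx a ha)
    refine ⟨∑ a ∈ s, n a, fun a ha => ?_⟩
    have h1 : ∀ a ∈ s, KlA E m a p (t ^ (∑ a ∈ s, n a) • x) := by
      intro a ha
      unfold KlA
      have h2 : ∑ b ∈ s, n b = (∑ b ∈ s, n b - n a) + n a :=
        (Nat.sub_add_cancel (Finset.single_le_sum (fun _ _ => Nat.zero_le _) ha)).symm
      have h3 := hn a (by rw [← hs]; exact Ideal.subset_span ha)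
      rw [E.res_smul, map_pow, ← mul_smul, ← (bs A A').pow_comm (bsLoc_sup h m), mul_smul,
        h2, pow_add, mul_smul]
      refine (congrArg _ h3).trans ?_
      rw [smul_zero]
    rw [← hs] at ha
    induction ha using Submodule.span_induction with
    | mem a ha => exact h1 a ha
    | zero =>
      unfold KlA
      rw [map_zero, map_zero, zero_smul]
    | add a b _ _ ha hb => exact ha.add' hb
    | smul b a _ ha => exact ha.mul b

theorem mem_kil {E : BS A A'} {hA : ∀ c, IsNoetherianRing (A.A c)} {m : Ch i}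
    {I : Ideal (A.A m)} {hI : ∀ a ∈ I, ∀ b, a * b ∈ I} {p : Ch i × Ch j} {e : E.E p} :
    e ∈ (kil E hA m I hI).N p ↔ ∀ a ∈ I, KlA E m a p e := Iff.rfl

theorem klA_self {E : BS A A'} {m : Ch i} {a : A.A m} {c' : Ch j} {e : E.E (m, c')} :
    KlA E m a (m, c') e ↔ lo A A' (m, c') a • e = 0 := by
  unfold KlA
  constructor
  · intro h
    refine E.res_inj_of_le (le_sp m (m, c')) ⟨Ch.sup_le le_rfl le_rfl, le_rfl⟩ ?_
    rw [E.res_lo]
    exact h
  · intro h
    have h1 := congrArg (E.res (le_sp m (m, c'))) h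
    rw [E.res_lo, map_zero] at h1
    exact h1

/-! ### The torsion subsheaf -/

/-- `e` is killed by `f` on the chart `m` -/
theorem KlA.cl1 {E : BS A A'} {m : Ch i} {f : RR k m.1} {p : Ch i × Ch j} {e : E.E p} :
    KlA E m (algebraMap _ _ f) p e ↔
      cl1 A A' (sp m p) (rinc (m_le m p) f) • E.res (le_sp m p) e = 0 := by
  unfold KlA
  rw [A.res_R]
  rfl

/-- The subsheaf of the elements which are torsion for a multiplicative subset of `R_m`. -/
def tor (E : BS A A') (m : Ch i) (Sg : Submonoid (RR k m.1)) : Sub E where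
  N := fun p =>
    { carrier := {e | ∃ f ∈ Sg, KlA E m (algebraMap _ _ f) p e}
      zero_mem' := ⟨1, Sg.one_mem, by
        unfold KlA
        rw [map_zero, smul_zero]⟩
      add_mem' := fun {x y} ⟨f, hf, hx⟩ ⟨g, hg, hy⟩ => ⟨f * g, Sg.mul_mem hf hg, by
        refine KlA.add ?_ ?_
        · rw [mul_comm, map_mul]
          exact hx.mul _
        · rw [map_mul]
          exact hy.mul _⟩
      smul_mem' := fun b x ⟨f, hf, hx⟩ => ⟨f, hf, KlA.smul (fun y => by
        rw [Algebra.commutes]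
        exact hx.mul _) b⟩ }
  mono := fun h x ⟨f, hf, hx⟩ => ⟨f, hf, hx.mono h⟩
  sat := fun {p q t} h x ⟨f, hf, hx⟩ => by
    obtain ⟨n, hn⟩ := KlA.sat h hx
    refine ⟨n, f, hf, ?_⟩
    unfold KlA
    rw [E.res_smul, map_pow, ← mul_smul, ← (bs A A').pow_comm (bsLoc_sup h m), mul_smul]
    exact hn

theorem mem_tor {E : BS A A'} {m : Ch i} {Sg : Submonoid (RR k m.1)} {p : Ch i × Ch j}
    {e : E.E p} : e ∈ (tor E m Sg).N p ↔ ∃ f ∈ Sg, KlA E m (algebraMap _ _ f) p e := Iff.rfl

/-- the torsion on the charts `c ≤ m` -/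
theorem klA_le {E : BS A A'} {m c : Ch i} (hc : c ≤ m) {a : A.A m} {c' : Ch j}
    {e : E.E (c, c')} : KlA E m a (c, c') e ↔
      lo A A' (m, c') a • E.res (p := (c, c')) (q := (m, c')) ⟨hc, le_rfl⟩ e = 0 := by
  constructor
  · intro h
    exact klA_self.1 (KlA.mono (p := (c, c')) (q := (m, c')) ⟨hc, le_rfl⟩ h)
  · intro h
    have h1 := klA_self.2 h
    unfold KlA at h1 ⊢
    rw [E.res_res] at h1
    have hq : sp m ((m, c') : Ch i × Ch j) ≤ sp m ((c, c') : Ch i × Ch j) :=
      ⟨Ch.sup_le (m_le m (c, c')) (m_le m (c, c')), le_rfl⟩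
    have h2 := congrArg (E.res hq) h1
    rw [map_zero, E.res_lo, E.res_res, A.res_res] at h2
    exact h2

end

end Pool.Agent.MP_6e5bed_ag_GG
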