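import Pool.Agent.Lib.MP_6e5bed_ag_GG.SC

set_option autoImplicit false

/-!
# MP_6e5bed_ag, THEOREM G: sections extend after a twist, localisation in both variables
(text, (4.1))
-/

noncomputable section

namespace Pool.Agent.MP_6e5bed_ag_GG

open scoped TensorProduct

universe u

section two

variable {k : Type u} [Field k] {S : Site k} (E : Sh S)

theorem com_pow {R : Type*} [Ring R] {u t : R} (h : u * t = t * u) {m n1 n2 : ℕ} (h1 : n1 ≤ m)
    (h2 : n2 ≤ m) : (u * t) ^ m = (u ^ (m - n1) * t ^ (m - n2)) * (t ^ n2 * u ^ n1) := by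
  have hc : Commute u t := h
  have e1 : u ^ (m - n1) * t ^ (m - n2) * (t ^ n2 * u ^ n1) =
      u ^ (m - n1) * (t ^ (m - n2) * t ^ n2) * u ^ n1 := by
    rw [mul_assoc, mul_assoc, mul_assoc]
  rw [e1, ← pow_add, Nat.sub_add_cancel h2, mul_assoc, ((hc.symm.pow_pow m n1)).eq, ← mul_assoc,
    ← pow_add, Nat.sub_add_cancel h1, hc.mul_pow]

theorem Sh.two_surj {p r q : S.P} {t u : S.B p} (h1 : S.Loc p r t)
    (h2 : S.Loc r q (S.r (S.le h1) u)) (h : p ≤ q) (y : E.E q) :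
    ∃ n : ℕ, ∀ m, n ≤ m → ∃ x : E.E p, E.res h x = S.r h (u * t) ^ m • y := by
  obtain ⟨n1, x1, hx1⟩ := E.surj h2 y
  obtain ⟨n2, x2, hx2⟩ := E.surj h1 x1
  refine ⟨max n1 n2, fun m hm => ⟨(u ^ (m - n1) * t ^ (m - n2)) • x2, ?_⟩⟩
  have e1 : E.res h x2 = (S.r h t ^ n2 * S.r h u ^ n1) • y := by
    rw [← E.res_res (S.le h1) (S.le h2), hx2, E.res_smul, hx1, map_pow, S.r_r, S.r_r, mul_smul]
  rw [E.res_smul, e1, ← mul_smul]
  congr 1
  have hc : S.r h u * S.r h t = S.r h t * S.r h u := by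
    rw [← map_mul, ← map_mul, S.comm h1]
  rw [map_mul, map_pow, map_pow, map_mul]
  exact (com_pow hc (le_of_max_le_left hm) (le_of_max_le_right hm)).symm

theorem Sh.two_inj {p r q : S.P} {t u : S.B p} (h1 : S.Loc p r t)
    (h2 : S.Loc r q (S.r (S.le h1) u)) (h : p ≤ q) (x : E.E p) (hx : E.res h x = 0) :
    ∃ n : ℕ, ∀ m, n ≤ m → (u * t) ^ m • x = 0 := by
  obtain ⟨n1, hn1⟩ := E.inj h2 (E.res (S.le h1) x) (by rw [E.res_res]; exact hx)
  rw [← map_pow, ← E.res_smul] at hn1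
  obtain ⟨n2, hn2⟩ := E.inj h1 _ hn1
  refine ⟨max n1 n2, fun m hm => ?_⟩
  rw [com_pow (S.comm h1 u).symm (le_of_max_le_left hm) (le_of_max_le_right hm), mul_smul,
    mul_smul (t ^ n2), hn2, smul_zero]

end two

variable {k : Type u} [Field k] {i j : Type} [Fintype i] [Fintype j]

/-- the function `(x_l / x_g) (y_l' / y_g')` -/
def tT (k : Type u) [Field k] {i j : Type} [Fintype i] [Fintype j] (p : Ch i × Ch j) (l : i)
    {g : i} (hg : g ∈ p.1.1) (l' : j) {g' : j} (hg' : g' ∈ p.2.1) : (ob k i j).B p :=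
  t1 k p l hg * t2 k p l' hg'

theorem ob_r (p q : Ch i × Ch j) (h : p ≤ q) (r : obB k p) :
    (ob k i j).r h r = obr k h r := rfl

theorem tT_res {p q : Ch i × Ch j} (h : p ≤ q) (l : i) {g : i} (hg : g ∈ p.1.1) (l' : j)
    {g' : j} (hg' : g' ∈ p.2.1) :
    (ob k i j).r h (tT k p l hg l' hg') = tT k q l (h.1 hg) l' (h.2 hg') := by
  unfold tT
  rw [ob_r, map_mul, obr_t1, obr_t2]

theorem ob_comm (p : (ob k i j).P) (r s : (ob k i j).B p) : r * s = s * r :=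
  mul_comm (G := obB k p) r s

theorem tt_comp {c : Set i} (a : i) {b d : i} (hb : b ∈ c) (hd : d ∈ c) :
    tt k a hb * tt k b hd = tt k a hd := by
  refine Subtype.ext ?_
  change mon k (ex a b) * mon k (ex b d) = mon k (ex a d)
  rw [mon_mul]
  congr 1
  unfold ex
  rw [sub_add_sub_cancel]

theorem tt_self {c : Set i} {a : i} (ha : a ∈ c) : tt k a ha = 1 := by
  refine Subtype.ext ?_
  change mon k (ex a a) = 1
  unfold ex
  rw [sub_self, mon_zero]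

theorem t1_comp {p : Ch i × Ch j} (a : i) {b d : i} (hb : b ∈ p.1.1) (hd : d ∈ p.1.1) :
    t1 k p a hb * t1 k p b hd = t1 k p a hd := by
  unfold t1
  rw [Algebra.TensorProduct.tmul_mul_tmul, tt_comp, one_mul]

theorem t2_comp {p : Ch i × Ch j} (a : j) {b d : j} (hb : b ∈ p.2.1) (hd : d ∈ p.2.1) :
    t2 k p a hb * t2 k p b hd = t2 k p a hd := by
  unfold t2
  rw [Algebra.TensorProduct.tmul_mul_tmul, tt_comp, one_mul]

theorem tT_comp {p : Ch i × Ch j} (a : i) {b d : i} (hb : b ∈ p.1.1) (hd : d ∈ p.1.1) (a' : j)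
    {b' d' : j} (hb' : b' ∈ p.2.1) (hd' : d' ∈ p.2.1) :
    tT k p b hd b' hd' * tT k p a hb a' hb' = tT k p a hd a' hd' := by
  have h1 := t1_comp (k := k) a hb hd
  have h2 := t2_comp (k := k) a' hb' hd'
  have h3 : ∀ x y z w : obB k p, (x * y) * (z * w) = (z * x) * (w * y) := fun x y z w => by ring
  exact (h3 _ _ _ _).trans (congrArg₂ (fun x y : obB k p => x * y) h1 h2)

theorem tT_self {p : Ch i × Ch j} {a : i} (ha : a ∈ p.1.1) {a' : j} (ha' : a' ∈ p.2.1) :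
    tT k p a ha a' ha' = 1 := by
  unfold tT t1 t2
  rw [tt_self, tt_self, Algebra.TensorProduct.tmul_mul_tmul, one_mul, one_mul]
  rfl

/-- the localisation in the second variable -/
theorem loc_snd (p : Ch i × Ch j) (b : Ch j) (h : p.2 ≤ b) {g' : j} (hg' : g' ∈ p.2.1) (l' : j)
    (h2 : b.1 ⊆ insert l' p.2.1) :
    (ob k i j).Loc p ((p.1, b) : Ch i × Ch j) (t2 k p l' hg') :=
  ⟨⟨le_rfl, h⟩, Or.inr ⟨l', g', hg', h2, le_rfl, rfl⟩⟩

theorem loc_fst {p q : Ch i × Ch j} (h : p ≤ q) {g : i} (hg : g ∈ p.1.1) (l : i)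
    (h1 : q.1.1 ⊆ insert l p.1.1) (h2 : q.2 = p.2) :
    (ob k i j).Loc p q (t1 k p l hg) :=
  ⟨h, Or.inl ⟨l, g, hg, h1, h2.le, rfl⟩⟩

section loc2

variable (E : Sh (ob k i j)) {p q : Ch i × Ch j} (h : p ≤ q) {g : i} (hg : g ∈ p.1.1) {g' : j}
  (hg' : g' ∈ p.2.1) {l : i} {l' : j} (h1 : q.1.1 ⊆ insert l p.1.1)
  (h2 : q.2.1 ⊆ insert l' p.2.1)

include h1 h2

theorem loc2_surj (y : E.E q) : ∃ n : ℕ, ∀ m, n ≤ m →
    ∃ x : E.E p, E.res h x = (tT k q l (h.1 hg) l' (h.2 hg')) ^ m • y := by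
  have e1 := loc_snd (k := k) p q.2 h.2 hg' l' h2
  have e2 : (ob k i j).Loc ((p.1, q.2) : Ch i × Ch j) q
      ((ob k i j).r ((ob k i j).le e1) (t1 k p l hg)) := by
    rw [ob_r, obr_t1]
    exact loc_fst (p := ((p.1, q.2) : Ch i × Ch j)) ⟨h.1, le_rfl⟩ hg l h1 rfl
  obtain ⟨n, hn⟩ := E.two_surj e1 e2 h y
  refine ⟨n, fun m hm => ?_⟩
  obtain ⟨x, hx⟩ := hn m hm
  refine ⟨x, hx.trans ?_⟩
  congr 2
  exact tT_res h l hg l' hg'

theorem loc2_inj (x : E.E p) (hx : E.res h x = 0) : ∃ n : ℕ, ∀ m, n ≤ m →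
    (tT k p l hg l' hg') ^ m • x = 0 := by
  have e1 := loc_snd (k := k) p q.2 h.2 hg' l' h2
  have e2 : (ob k i j).Loc ((p.1, q.2) : Ch i × Ch j) q
      ((ob k i j).r ((ob k i j).le e1) (t1 k p l hg)) := by
    rw [ob_r, obr_t1]
    exact loc_fst (p := ((p.1, q.2) : Ch i × Ch j)) ⟨h.1, le_rfl⟩ hg l h1 rfl
  exact E.two_inj e1 e2 h x hx

end loc2

end Pool.Agent.MP_6e5bed_ag_GG
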