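import Pool.Agent.Lib.MP_6e5bed_ag_GG.L0
import Pool.Agent.Lib.MP_6e5bed_ag_CV.CorPerf
import Pool.Agent.Lib.MP_6e5bed_ag_NC.Clos

set_option autoImplicit false
set_option linter.unusedVariables false

/-!
# MP_6e5bed_ag, THEOREM G, LOC: tensor products with a perfect resolution of the diagonal
-/

noncomputable section

namespace Pool.Agent.MP_6e5bed_ag_GG

open Pool.Agent.MP_6e5bed_ag_NC

universe u

variable {k : Type u} [Field k] {B W V : DGA k}

/-- The tensor product of an acyclic right module with a perfect bimodule is contractible. -/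
private theorem lNuContr {X : Bim (base k) W} (hX : Acyc X) {P : Bim W V} (hP : Perf P) :
    Contr (tb X P) := by
  induction hP with
  | free =>
    have h1 : Acyc (fgR X) := hX
    have h2 : Contr (fgR X) := contr_of_acyc h1
    exact Contr.iso (tb_free_right X V).symm ((tbR (base k) (free (base k) V)).contr h2)
  | contr h => exact (tbL X V).contr h
  | mid h _ _ h1 h2 => exact Contr.mid ((tbL X V).isExt h) h1 h2
  | left h _ _ h1 h2 => exact Contr.left ((tbL X V).isExt h) h1 h2
  | right h _ _ h1 h2 => exact Contr.right ((tbL X V).isExt h) h1 h2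
  | summand h _ h1 => exact Contr.summand ((tbL X V).isSummand h) h1

/-- The tensor product of a perfect bimodule with any left module is flat.

PROOF. Let `X : Bim (base k) W` be acyclic. `tb X (tb P Y)` is isomorphic to `tb (tb X P) Y`
(`tb_assoc`, `Acyc.iso`). `tb X P` is contractible, by induction on `Perf P` (for all six
constructors; `(tbL X V).isExt`, `.isSummand`, `.contr`, and `Contr.mid`, `.left`, `.right`,
`.summand`, `Lib/MP_6e5bed_ag_NC/NullTo.lean`); for `P = free W V`: `tb X (free W V)` is isomorphic to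
`tb (fgR X) (free (base k) V)` (`tb_free_right`), and `fgR X : Bim (base k) (base k)` is acyclic, hence
contractible (`contr_of_acyc`, see `rflat_base` in `Lib/MP_6e5bed_ag_CV/RTb.lean`), so
`(tbR (base k) (free (base k) V)).contr` and `Contr.iso`. Finally `(tbR (base k) Y).contr` and
`Contr.acyc`. -/
theorem lflat_tb {P : Bim W V} (hP : Perf P) (Y : Bim V B) : LFlat (tb P Y) := by
  intro X hX
  have h1 : Contr (tb X P) := lNuContr hX hP
  have h2 : Contr (tb (tb X P) Y) := (tbR (base k) Y).contr h1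
  exact Acyc.iso (tb_assoc X P Y) h2.acyc

/-- Perfect bimodules over a proper dg algebra are perfect right modules. -/
private theorem lNuPerf (hW : Proper W) {P : Bim W W} (hP : Perf P) : Perf (fgL P) := by
  have h0 : Perf (tb (free (base k) (base k)) (free (base k) W)) :=
    (tb_free_free (base k) W).symm.perf Perf.free
  have h1 : Perf (und (diag W)) := hW
  have h2 : Perf (tb (und (diag W)) (free (base k) W)) :=
    (tbR (base k) (free (base k) W)).perf h0 h1
  exact (resF (DHom.unit W) (DHom.id W)).perf ((fgL_free W W).symm.perf h2) hP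

/-- If `ω` is a perfect resolution of the diagonal, then `P ⊗ Y → W ⊗ Y` is a quasi-isomorphism for
every left module `Y`.

PROOF. Let `C = cone ω hω.1` (`isCone_cone`); it is acyclic (`IsCone.qiso_iff`). Restrict the left
action to `base k`: `fgL C = res (DHom.unit W) (DHom.id W) C` is the cone of
`ω.res (DHom.unit W) (DHom.id W) : fgL P → fgL (diag W)` (the maps of `IsCone`, restricted; `IsCone` is
a statement about maps and `GMap.res` changes nothing, compare `RQIso.res`, `IsCone.rqiso_iff`
in `Lib/MP_6e5bed_ag_NC/Htpy.lean`). `fgL P` is perfect: induction on `Perf P`, for `free W W` use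
`fgL_free` (`fgL (free W W) ≅ tb (und (diag W)) (free (base k) W)`; `hW : Perf (und (diag W))` and
`(tbR (base k) (free (base k) W)).perf`, `tb_free_free (base k) W`, see `clos_free` in
`Lib/MP_6e5bed_ag_NC/Clos.lean`), the other constructors are preserved by restriction
(`IsExt`, `IsSummand`, `Contr` are statements about maps; if a dg functor `res` is available in
`Lib/MP_6e5bed_ag_NC` use it). `fgL (diag W)` is perfect (`perf_fgL_diag`). So `fgL C` is perfect
(`IsCone.perf`) and acyclic, hence contractible (`Perf.contr_of_acyc`). Then `tb (fgL C) Y` is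
contractible (`(tbR (base k) Y).contr`), hence acyclic, and its complex is the complex of `tb C Y`
(`res_tb (DHom.unit W) (DHom.id B) C Y`, `Acyc.iso`; `Acyc` does not see the actions). `tb C Y` is
the cone of `ω.tbR Y` (`(tbR W Y).isCone`), so `IsCone.qiso_iff`. -/
theorem qiso_omega (hW : Proper W) {P : Bim W W} (hP : Perf P) {ω : GMap 0 P (diag W)}
    (hω : QIso ω) (Y : Bim W B) : QIso (ω.tbR Y) := by
  have h1 : ω.dd = 0 := hω.1
  have hc : IsCone ω (cone ω h1) := isCone_cone ω h1
  have h2 : Acyc (fgL (cone ω h1)) := (hc.qiso_iff h1).1 hω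
  have h5 : IsCone (ω.res (DHom.unit W) (DHom.id W)) (fgL (cone ω h1)) :=
    (resF (DHom.unit W) (DHom.id W)).isCone hc
  have h6 : Perf (fgL (cone ω h1)) := IsCone.perf h5 (lNuPerf hW hP) (perf_fgL_diag W)
  have h7 : Contr (fgL (cone ω h1)) := h6.contr_of_acyc h2
  have h8 : Contr (tb (fgL (cone ω h1)) Y) := (tbR (base k) Y).contr h7
  have h9 : Acyc (fgL (tb (cone ω h1) Y)) :=
    Acyc.iso (res_tb (DHom.unit W) (DHom.id B) (cone ω h1) Y).symm h8.acyc
  have h10 : Acyc (tb (cone ω h1) Y) := h9
  have h11 : IsCone (ω.tbR Y) (tb (cone ω h1) Y) := (tbR W Y).isCone hc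
  exact (h11.qiso_iff ((tbR W Y).closed h1)).2 h10

/-- the map `P ⊗ Y → Y`, `p ⊗ y ↦ ω(p) y` -/
def zet {P : Bim W W} (ω : GMap 0 P (diag W)) (Y : Bim W B) : GMap 0 (tb P Y) Y :=
  (ω.tbR Y).comp (TbUnitA.φL Y) (add_zero 0)

theorem zet_tm {P : Bim W W} (ω : GMap 0 P (diag W)) (Y : Bim W B) (p : P.M) (y : Y.M) :
    (zet ω Y).f (tm p y) = Y.l (ω.f p) y := by
  change (TbUnitA.φL Y).f ((ω.tbR Y).f (tm p y)) = _
  rw [GMap.tbR_tm]
  exact TbUnitA.fL_tm Y (ω.f p) y

/-- A closed bijective map is a quasi-isomorphism. -/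
private theorem lNuBij {M N : Bim W B} {φ : GMap 0 M N} (h0 : φ.dd = 0)
    (hb : Function.Bijective φ.f) : QIso φ := by
  refine ⟨h0, ?_, ?_⟩
  · rintro x _ ⟨y, hy⟩
    obtain ⟨z, hz⟩ := hb.2 y
    refine ⟨z, hb.1 ?_⟩
    rw [← GMap.d_f_zero h0, hz, hy]
  · intro y hy
    obtain ⟨z, hz⟩ := hb.2 y
    refine ⟨z, hb.1 ?_, 0, ?_⟩
    · rw [← GMap.d_f_zero h0, hz, hy, map_zero]
    · rw [hz, sub_self, map_zero]

/-- PROOF. `QIso.comp` of `qiso_omega` and of the isomorphism `TbUnitA.φL Y` (`TbUnitA.φL_d`,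
`TbUnitA.gL_fL`, `TbUnitA.fL_gL`; a closed bijective map is a quasi-isomorphism, `qiso_of_inv` or
directly). -/
theorem zet_qiso (hW : Proper W) {P : Bim W W} (hP : Perf P) {ω : GMap 0 P (diag W)}
    (hω : QIso ω) (Y : Bim W B) : QIso (zet ω Y) := by
  refine QIso.comp (qiso_omega hW hP hω Y) (lNuBij (TbUnitA.φL_d Y) ?_)
  exact ⟨Function.LeftInverse.injective (TbUnitA.gL_fL Y),
    Function.RightInverse.surjective (TbUnitA.fL_gL Y)⟩

end Pool.Agent.MP_6e5bed_ag_GG
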