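import Pool.Agent.Lib.MP_6e5bed_ag_GG.Xd

set_option autoImplicit false

/-!
# MP_6e5bed_ag, THEOREM G: X-data, the functions `x_l / x_g` generate the coordinate rings
-/

noncomputable section

namespace Pool.Agent.MP_6e5bed_ag_GG

universe u

variable {k : Type u} [Field k] {i : Type} [Fintype i]

omit [Fintype i] in
theorem ex_self (l : i) : ex l l = 0 := by
  unfold ex
  rw [sub_self]

open Classical in
private theorem XEx_aux {c : Set i} {P : (i → ℤ) → Prop} (h0 : P 0)
    (hs : ∀ (e : i → ℤ) (l g : i), g ∈ c → IsEx c 0 e → P e → P (e + ex l g)) :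
    ∀ (n : ℕ) (e : i → ℤ), IsEx c 0 e → (∑ j, (e j).natAbs) = n → P e := by
  intro n
  induction n using Nat.strong_induction_on with
  | _ n ih =>
    intro e he hn
    by_cases h : ∃ g, e g < 0
    · obtain ⟨g, hg⟩ := h
      have hgc : g ∈ c := by
        by_contra h'
        exact absurd (he.2 g h') (not_le.2 hg)
      have hl : ∃ l, 0 < e l := by
        by_contra h'
        push Not at h'
        have h1 : ∑ j, e j < 0 := by
          calc ∑ j, e j ≤ ∑ j, (if j = g then e g else 0) :=
                Finset.sum_le_sum fun j _ => by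
                  split_ifs with h2
                  · rw [h2]
                  · exact h' j
            _ = e g := by rw [Finset.sum_ite_eq' Finset.univ g]; simp
            _ < 0 := hg
        rw [he.1] at h1
        exact lt_irrefl 0 h1
      obtain ⟨l, hl⟩ := hl
      have hlg : l ≠ g := by
        rintro rfl
        omega
      have hex : ∀ j, ex l g j = (if j = l then 1 else 0) - (if j = g then 1 else 0) := by
        intro j
        unfold ex
        rw [Pi.sub_apply]
        rw [Pi.single_apply, Pi.single_apply]
      have he' : IsEx c 0 (e - ex l g) := by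
        have h1 : ∑ j, ex l g j = 0 := (isEx_ex (c := Set.univ) l (Set.mem_univ g)).1
        refine ⟨?_, fun j hj => ?_⟩
        · simp only [Pi.sub_apply, Finset.sum_sub_distrib, he.1, h1, sub_zero]
        · have h2 := he.2 j hj
          have h3 : j ≠ g := fun h3 => hj (h3 ▸ hgc)
          rw [Pi.sub_apply, hex, if_neg h3]
          split_ifs with h4
          · subst h4
            omega
          · omega
      have hlt : ∑ j, ((e - ex l g) j).natAbs < n := by
        rw [← hn]
        refine Finset.sum_lt_sum (fun j _ => ?_) ⟨l, Finset.mem_univ l, ?_⟩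
        · rw [Pi.sub_apply, hex]
          split_ifs with h4 h5 h5
          · exact absurd (h4.symm.trans h5) hlg
          · subst h4
            omega
          · subst h5
            omega
          · omega
        · rw [Pi.sub_apply, hex, if_pos rfl, if_neg hlg]
          omega
      have h1 := hs (e - ex l g) l g hgc he' (ih _ hlt _ he' rfl)
      rwa [sub_add_cancel] at h1
    · push Not at h
      have h1 : e = 0 := by
        funext j
        exact (Finset.sum_eq_zero_iff_of_nonneg (fun j _ => h j)).1 he.1 j (Finset.mem_univ j)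
      rw [h1]
      exact h0

/-- Every exponent of degree `0` with poles only along `c` is a sum of the exponents of the functions
`x_l / x_g`, `g ∈ c`. -/
theorem IsEx.ind {c : Set i} {P : (i → ℤ) → Prop} (h0 : P 0)
    (hs : ∀ (e : i → ℤ) (l g : i), g ∈ c → IsEx c 0 e → P e → P (e + ex l g)) {e : i → ℤ}
    (he : IsEx c 0 e) : P e := by
  classical
  exact XEx_aux h0 hs _ e he rfl

/-- An algebra homomorphism maps `R_c` into a subalgebra if it maps the `x_l / x_g` into it. -/
theorem RR_le {c : Set i} {M : Type u} [CommRing M] [Algebra k M] (f : Lau k i →ₐ[k] M)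
    (B : Subalgebra k M) (h : ∀ (l g : i), g ∈ c → f (mon k (ex l g)) ∈ B) (r : Lau k i)
    (hr : r ∈ RR k c) : f r ∈ B := by
  have hr' : r ∈ OO k 0 c := hr
  unfold OO at hr'
  induction hr' using Submodule.span_induction with
  | mem x hx =>
    obtain ⟨e, he, rfl⟩ := hx
    refine IsEx.ind (P := fun e => f (mon k e) ∈ B) ?_ ?_ he
    · have h1 : mon k (0 : i → ℤ) = 1 := rfl
      rw [h1, map_one]
      exact B.one_mem
    · intro e l g hg _ h1
      rw [← mon_mul, map_mul]
      exact B.mul_mem h1 (h l g hg)
  | zero => rw [map_zero]; exact B.zero_mem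
  | add x y hx hy h1 h2 => rw [map_add]; exact B.add_mem (h1 hx) (h2 hy)
  | smul a x hx h1 => rw [map_smul]; exact B.smul_mem (h1 hx) a

/-- the value of `x_l / x_g` -/
theorem evy_ex {M : Type u} [Field M] [Algebra k M] (y : i → Mˣ) (l g : i) :
    evy y (mon k (ex l g)) = ((y l / y g : Mˣ) : M) := by
  classical
  have h1 : evy y (mon k (ex l g)) = ((∏ m, y m ^ (ex l g m) : Mˣ) : M) := by
    unfold evy mon
    rw [AddMonoidAlgebra.lift_single, one_smul]
    rfl
  rw [h1]
  congr 1
  have h2 : ∀ m, y m ^ (ex l g m) = y m ^ ((Pi.single l (1 : ℤ) : i → ℤ) m) *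
      (y m ^ ((Pi.single g (1 : ℤ) : i → ℤ) m))⁻¹ := fun m => by
    have h3 : ex l g m = (Pi.single l (1 : ℤ) : i → ℤ) m + -(Pi.single g (1 : ℤ) : i → ℤ) m := by
      unfold ex
      rw [Pi.sub_apply, sub_eq_add_neg]
    rw [h3, zpow_add, zpow_neg]
  rw [Finset.prod_congr rfl fun m _ => h2 m, Finset.prod_mul_distrib, Finset.prod_inv_distrib]
  have h4 : ∀ j : i, ∏ m, y m ^ ((Pi.single j (1 : ℤ) : i → ℤ) m) = y j := fun j => by
    rw [Finset.prod_eq_single j]
    · rw [Pi.single_eq_same, zpow_one]
    · intro m _ hm
      rw [Pi.single_eq_of_ne hm, zpow_zero]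
    · intro h
      exact absurd (Finset.mem_univ j) h
  rw [h4, h4, div_eq_mul_inv]

end Pool.Agent.MP_6e5bed_ag_GG
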