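import Pool.Agent.Lib.MP_6e5bed_ag_GG.Dg
import Pool.Agent.Lib.MP_6e5bed_ag_GG.ShA

set_option autoImplicit false
set_option linter.unusedVariables false
set_option linter.unusedSectionVars false

/-!
# MP_6e5bed_ag, THEOREM G: the diagonal bisheaf is coherent
-/

noncomputable section

namespace Pool.Agent.MP_6e5bed_ag_GG

open scoped TensorProduct

universe u

variable {k : Type u} [Field k] {i : Type} [Fintype i] (A : CA k i)

theorem tt_mul_tt {c : Set i} {l g : i} (hl : l ∈ c) (hg : g ∈ c) :
    (tt k g hl : RR k c) * tt k l hg = 1 := by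
  refine Subtype.ext ?_
  change mon k (ex g l) * mon k (ex l g) = 1
  rw [mon_mul]
  have h1 : ex g l + ex l g = 0 := by
    unfold ex
    abel
  rw [h1]
  rfl

/-- PROOF. Add the elements of `d` to `c` one by one. If `e = e' ∪ {l}`, `g ∈ c`, then
`t_{lg}^n a` is the restriction of an element of `A e'`, and `t_{lg}` is a unit of `R_e`. -/
theorem exists_smul_res {c d : Ch i} (h : c ≤ d) (a : A.A d) :
    ∃ (r : RR k d.1) (a' : A.A c), a = r • A.res h a' := by
  classical
  have key : ∀ D : Finset i, ∀ (e : Ch i) (he : c ≤ e), e.1 ⊆ c.1 ∪ (D : Set i) →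
      ∀ a : A.A e, ∃ (r : RR k e.1) (a' : A.A c), a = r • A.res he a' := by
    intro D
    induction D using Finset.induction_on with
    | empty =>
      intro e he h1 a
      have h2 : e ≤ c := fun x hx => (h1 hx).elim id (fun h => by simp at h)
      refine ⟨1, A.res h2 a, ?_⟩
      rw [one_smul, A.res_res, A.res_id]
    | insert l D hl ih =>
      intro e he h1 a
      by_cases hle : l ∈ e.1
      · obtain ⟨e', he'⟩ : ∃ e' : Ch i, e'.1 = c.1 ∪ (e.1 ∩ (D : Set i)) :=
          ⟨⟨c.1 ∪ (e.1 ∩ (D : Set i)), c.2.1.mono Set.subset_union_left,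
            c.2.2.union (e.2.2.inter_of_left _)⟩, rfl⟩
        have h2 : c ≤ e' := by
          change c.1 ⊆ e'.1
          rw [he']
          exact Set.subset_union_left
        have h3 : e' ≤ e := by
          change e'.1 ⊆ e.1
          rw [he']
          exact Set.union_subset he Set.inter_subset_left
        have h4 : e.1 ⊆ insert l e'.1 := fun x hx => by
          rw [he']
          rcases h1 hx with h5 | h5
          · exact Or.inr (Or.inl h5)
          · rcases Finset.mem_insert.1 (Finset.mem_coe.1 h5) with rfl | h6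
            · exact Or.inl rfl
            · exact Or.inr (Or.inr ⟨hx, h6⟩)
        obtain ⟨g, hg⟩ := c.2.1
        obtain ⟨n, a1, ha1⟩ := A.surj h3 (g := g) (h2 hg) l h4 a
        obtain ⟨r, a', ha'⟩ := ih e' h2 (by
          rw [he']
          exact Set.union_subset Set.subset_union_left
            (Set.inter_subset_right.trans Set.subset_union_right)) a1
        refine ⟨tt k g hle ^ n * rinc h3 r, a', ?_⟩
        have h7 : A.res h3 a1 = rinc h3 r • A.res he a' := by
          rw [ha', Algebra.smul_def, map_mul, A.res_R, A.res_res, Algebra.smul_def]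
        rw [mul_smul, ← h7, ha1, ← mul_smul, ← mul_pow, tt_mul_tt, one_pow, one_smul]
      · refine ih e he (fun x hx => ?_) a
        rcases h1 hx with h5 | h5
        · exact Or.inl h5
        · rcases Finset.mem_insert.1 (Finset.mem_coe.1 h5) with rfl | h6
          · exact absurd hx hle
          · exact Or.inr h6
  refine key d.2.2.toFinset d h (fun x hx => Or.inr ?_) a
  rw [Set.Finite.coe_toFinset]
  exact hx

/-- PROOF. Let `g ∈ c`, `g' ∈ c'` and `s = ∑_{j ∈ c} e j`. If `0 ≤ s` take
`e1 = e|c - s δ_g`, `e2 = e|(not c) + s δ_g`, otherwise the same with `g'`. -/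
theorem isEx_union {c c' : Set i} (hc : c.Nonempty) (hc' : c'.Nonempty) {e : i → ℤ}
    (h : IsEx (c ∪ c') 0 e) : ∃ e1 e2 : i → ℤ, IsEx c 0 e1 ∧ IsEx c' 0 e2 ∧ e = e1 + e2 := by
  classical
  obtain ⟨g, hg⟩ := hc
  obtain ⟨g', hg'⟩ := hc'
  obtain ⟨h0, h1⟩ := h
  set s : ℤ := ∑ j, if j ∈ c then e j else 0 with hs
  have h2 : (∑ j, if j ∈ c then 0 else e j) = -s := by
    have h3 : (∑ j, if j ∈ c then e j else 0) + (∑ j, if j ∈ c then 0 else e j) = 0 := by
      rw [← Finset.sum_add_distrib]
      refine Eq.trans (Finset.sum_congr rfl fun j _ => ?_) h0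
      split_ifs <;> simp
    linarith
  have key : ∀ z : i, (z ∈ c ∧ 0 ≤ s ∨ z ∈ c' ∧ s < 0) →
      ∃ e1 e2 : i → ℤ, IsEx c 0 e1 ∧ IsEx c' 0 e2 ∧ e = e1 + e2 := by
    intro z hz
    refine ⟨fun j => (if j ∈ c then e j else 0) - (if j = z then s else 0),
      fun j => (if j ∈ c then 0 else e j) + (if j = z then s else 0), ⟨?_, ?_⟩, ⟨?_, ?_⟩, ?_⟩
    · rw [Finset.sum_sub_distrib, ← hs]
      simp
    · intro j hj
      simp only [if_neg hj, zero_sub]
      split_ifs with hjz
      · subst hjz
        rcases hz with ⟨h4, _⟩ | ⟨_, h5⟩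
        · exact absurd h4 hj
        · omega
      · simp
    · rw [Finset.sum_add_distrib, h2]
      simp
    · intro j hj
      have h6 : 0 ≤ if j ∈ c then 0 else e j := by
        split_ifs with hjc
        · exact le_rfl
        · exact h1 j (fun h => h.elim hjc hj)
      have h7 : 0 ≤ if j = z then s else 0 := by
        split_ifs with hjz
        · subst hjz
          rcases hz with ⟨_, h5⟩ | ⟨h4, _⟩
          · exact h5
          · exact absurd h4 hj
        · exact le_rfl
      exact add_nonneg h6 h7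
    · funext j
      simp only [Pi.add_apply]
      split_ifs <;> ring
  rcases le_or_gt 0 s with hs0 | hs0
  · exact key g (Or.inl ⟨hg, hs0⟩)
  · exact key g' (Or.inr ⟨hg', hs0⟩)

/-- PROOF. `a = r • res a'` with `a' ∈ A_c` (`exists_smul_res`), `r` is a sum of monomials, and a
monomial is a product of a monomial in `R_c` and a monomial in `R_{c'}` (`isEx_union`). So every
element is a sum of elements `(x ⊗ y) • 1`. -/
theorem dgE_fin (p : Ch i × Ch i) : Module.Finite (bsB A A p) (DgE A p) := by
  have key : ∀ a : DgE A p, a ∈ Submodule.span (bsB A A p) {(1 : DgE A p)} := by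
    intro a
    obtain ⟨r, a', h1⟩ := exists_smul_res A (le_un1 p) (DgE.of A a)
    let toD : A.A (un p) →ₗ[k] DgE A p := LinearMap.id
    let act : RR k (un p).1 →ₗ[k] A.A (un p) :=
      (LinearMap.toSpanSingleton (RR k (un p).1) _ (A.res (le_un1 p) a')).restrictScalars k
    let N : Submodule k (RR k (un p).1) := (((Submodule.span (bsB A A p)
      {(1 : DgE A p)}).restrictScalars k).comap toD).comap act
    have h3 : ∀ e (he : IsEx (un p).1 0 e), (⟨mon k e, mon_mem he⟩ : RR k (un p).1) ∈ N := by
      intro e he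
      obtain ⟨e1, e2, h3, h4, h34⟩ := isEx_union p.1.2.1 p.2.2.1 he
      have h5 := Submodule.smul_mem (Submodule.span (bsB A A p) {(1 : DgE A p)})
        ((algebraMap (RR k p.1.1) (A.A p.1) ⟨mon k e1, mon_mem h3⟩ * a') ⊗ₜ[k]
          MulOpposite.op (algebraMap (RR k p.2.1) (A.A p.2) ⟨mon k e2, mon_mem h4⟩))
        (Submodule.subset_span (Set.mem_singleton (1 : DgE A p)))
      refine (congrArg (· ∈ Submodule.span (bsB A A p) {(1 : DgE A p)})
        (DgE.of_inj ?_)).mp h5
      refine (DgE_tmul A p _ _ _).trans ?_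
      have h6 : (⟨mon k e, mon_mem he⟩ : RR k (un p).1) =
          rinc (le_un1 p) ⟨mon k e1, mon_mem h3⟩ * rinc (le_un2 p) ⟨mon k e2, mon_mem h4⟩ := by
        refine Subtype.ext ?_
        rw [MulMemClass.coe_mul, rinc_coe, rinc_coe]
        change mon k e = mon k e1 * mon k e2
        rw [mon_mul, h34]
      change A.res (le_un1 p) (algebraMap (RR k p.1.1) (A.A p.1) ⟨mon k e1, mon_mem h3⟩ * a') *
        1 * A.res (le_un2 p) (algebraMap (RR k p.2.1) (A.A p.2) ⟨mon k e2, mon_mem h4⟩) =
        (⟨mon k e, mon_mem he⟩ : RR k (un p).1) • A.res (le_un1 p) a'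
      rw [mul_one, map_mul, A.res_R, A.res_R, h6, Algebra.smul_def, map_mul,
        Algebra.commutes (rinc (le_un2 p) ⟨mon k e2, mon_mem h4⟩)
          (algebraMap _ (A.A (un p)) (rinc (le_un1 p) ⟨mon k e1, mon_mem h3⟩)
            * A.res (le_un1 p) a') |>.symm, ← mul_assoc]
      congr 1
      rw [← map_mul, ← map_mul, mul_comm]
    have h4 : r ∈ N := by
      obtain ⟨r, hr⟩ := r
      have h5 : r ∈ (OO k 0 (un p).1) := hr
      have h6 : OO k 0 (un p).1 ≤ N.map (RR k (un p).1).val.toLinearMap := by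
        refine Submodule.span_le.2 ?_
        rintro _ ⟨e, he, rfl⟩
        exact ⟨⟨mon k e, mon_mem he⟩, h3 e he, rfl⟩
      obtain ⟨r', h7, h8⟩ := h6 h5
      have h9 : (⟨r, hr⟩ : RR k (un p).1) = r' := Subtype.ext h8.symm
      rw [h9]
      exact h7
    exact (congrArg (· ∈ Submodule.span (bsB A A p) {(1 : DgE A p)})
      (DgE.of_inj (x := toD (act r)) (y := a) h1.symm)).mp h4
  refine ⟨⟨{(1 : DgE A p)}, ?_⟩⟩
  rw [Finset.coe_singleton, eq_top_iff]
  exact fun a _ => key a

theorem dgS_coh : (dgS A).Coh := fun p => dgE_fin A p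

end Pool.Agent.MP_6e5bed_ag_GG
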