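import Pool.Agent.Lib.MP_6e5bed_ag_GG.IB

set_option autoImplicit false
set_option linter.unusedSectionVars false

/-!
# MP_6e5bed_ag, THEOREM G: noetherian induction: the reduction and the comparison
(text, section 7)
-/

noncomputable section

namespace Pool.Agent.MP_6e5bed_ag_GG

open scoped TensorProduct

universe u

variable {k : Type u} [Field k] {i j : Type} [Fintype i] [Fintype j] {A : CA k i} {A' : CA k j}

/-- The situation after the reduction (7.3): `E` lives over the chart `m`, its annihilator on `m`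
is prime, and it is torsion-free. -/
structure Red (E : BS A A') (m : Ch i) : Prop where
  z : ∀ (c : Ch i) (c' : Ch j), ¬ c ≤ m → ∀ x : E.E (c, c'), x = 0
  inj : ∀ (c : Ch i) (c' : Ch j) (h : c ≤ m) (x : E.E (c, c')),
    E.res (p := (c, c')) (q := (m, c')) ⟨h, le_rfl⟩ x = 0 → x = 0
  one : (1 : A.A m) ∉ ann E m
  pr : ∀ a b : A.A m, (∀ x, a * x * b ∈ ann E m) → a ∈ ann E m ∨ b ∈ ann E m
  tf : ∀ f : RR k m.1, algebraMap _ (A.A m) f ∉ ann E m → ∀ (c' : Ch j) (x : E.E (m, c')),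
    cl1 A A' (m, c') f • x = 0 → x = 0

/-- the functions on the chart `m` which are not in the annihilator -/
def sg (E : BS A A') (m : Ch i) (h1 : (1 : A.A m) ∉ ann E m)
    (h2 : ∀ a b : A.A m, (∀ x, a * x * b ∈ ann E m) → a ∈ ann E m ∨ b ∈ ann E m) :
    Submonoid (RR k m.1) where
  carrier := {f | algebraMap _ (A.A m) f ∉ ann E m}
  one_mem' := by
    change algebraMap _ (A.A m) 1 ∉ ann E m
    rw [map_one]
    exact h1
  mul_mem' := fun {f g} hf hg h => by
    rcases h2 (algebraMap _ (A.A m) f) (algebraMap _ (A.A m) g) (fun x => by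
      rw [Algebra.commutes, mul_assoc, ← map_mul]
      exact (ann E m).mul_mem_left x h) with h | h
    · exact hf h
    · exact hg h

theorem mem_sg {E : BS A A'} {m : Ch i} {h1 : (1 : A.A m) ∉ ann E m}
    {h2 : ∀ a b : A.A m, (∀ x, a * x * b ∈ ann E m) → a ∈ ann E m ∨ b ∈ ann E m}
    {f : RR k m.1} : f ∈ sg E m h1 h2 ↔ algebraMap _ (A.A m) f ∉ ann E m := Iff.rfl

/-- a coherent bisheaf all of whose sections over `m` are torsion is killed by one function -/
theorem tors_ann {X : BS A A'} (hX : X.Coh) {m : Ch i} (Sg : Submonoid (RR k m.1))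
    (h : ∀ (c' : Ch j) (x : X.E (m, c')), ∃ f ∈ Sg, cl1 A A' (m, c') f • x = 0) :
    ∃ f ∈ Sg, algebraMap _ (A.A m) f ∈ ann X m := by
  classical
  have h1 : ∀ c' : Ch j, ∃ f ∈ Sg, ∀ x : X.E (m, c'), cl1 A A' (m, c') f • x = 0 := by
    intro c'
    choose f hf hf' using h c'
    obtain ⟨s, hs⟩ := (hX (m, c')).fg_top
    refine ⟨∏ x ∈ s, f x, Sg.prod_mem (fun x _ => hf x), fun x => ?_⟩
    have hx : x ∈ Submodule.span ((bs A A').B (m, c')) (s : Set (X.E (m, c'))) := by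
      rw [hs]
      exact Submodule.mem_top
    induction hx using Submodule.span_induction with
    | mem x hx =>
      rw [← Finset.prod_erase_mul s f hx, cl1_mul, mul_smul, hf', smul_zero]
    | zero => rw [smul_zero]
    | add x y _ _ hx hy => rw [smul_add, hx, hy, add_zero]
    | smul b x _ hx => rw [← mul_smul, cl1_comm, mul_smul, hx, smul_zero]
  choose f hf hf' using h1
  have : Fintype (Ch j) := Fintype.ofFinite _
  refine ⟨∏ c', f c', Sg.prod_mem (fun c' _ => hf c'), fun c' x => ?_⟩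
  have h2 : cl1 A A' (m, c') (∏ c', f c') • x = 0 := by
    rw [← Finset.prod_erase_mul Finset.univ f (Finset.mem_univ c'), cl1_mul, mul_smul, hf',
      smul_zero]
  exact h2

section

variable {C : BS A A' → Prop} {V : Type*} [AddCommGroup V]

/-- torsion bisheaves have class zero -/
theorem cl_tors (hC : SCls C) (cl : AddFn C V) {E : BS A A'} {m : Ch i}
    (h1 : (1 : A.A m) ∉ ann E m)
    (h2 : ∀ a b : A.A m, (∀ x, a * x * b ∈ ann E m) → a ∈ ann E m ∨ b ∈ ann E m)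
    (ih : ∀ F : BS A A', C F → ann E < ann F → cl.cl F = 0)
    {X : BS A A'} (hX : C X) (hle : ann E ≤ ann X)
    (h : ∀ (c' : Ch j) (x : X.E (m, c')), ∃ f : RR k m.1,
      algebraMap _ (A.A m) f ∉ ann E m ∧ cl1 A A' (m, c') f • x = 0) : cl.cl X = 0 := by
  obtain ⟨f, hf, hf'⟩ := tors_ann (hC.coh X hX) (sg E m h1 h2) h
  refine ih X hX (lt_of_le_of_ne hle (fun h3 => ?_))
  have hf2 : algebraMap _ (A.A m) f ∉ ann E m := hf
  rw [h3] at hf2
  exact hf2 hf'

/-- if the annihilator is not prime -/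
theorem cl_not_prime (hA : ∀ c, IsNoetherianRing (A.A c)) (hC : SCls C) (cl : AddFn C V)
    {E : BS A A'} (hE : C E) {m : Ch i}
    (ih : ∀ F : BS A A', C F → ann E < ann F → cl.cl F = 0) {a b : A.A m}
    (hab : ∀ x, a * x * b ∈ ann E m) (ha : a ∉ ann E m) (hb : b ∉ ann E m) :
    cl.cl E = 0 := by
  have hI : ∀ z ∈ Ideal.span (Set.range fun y => a * y), ∀ w,
      z * w ∈ Ideal.span (Set.range fun y => a * y) := by
    intro z hz w
    induction hz using Submodule.span_induction with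
    | mem z hz =>
      obtain ⟨y, rfl⟩ := hz
      exact Ideal.subset_span ⟨y * w, (mul_assoc _ _ _).symm⟩
    | zero =>
      rw [zero_mul]
      exact zero_mem _
    | add x y _ _ hx hy =>
      rw [add_mul]
      exact add_mem hx hy
    | smul x y _ hy =>
      rw [smul_eq_mul, mul_assoc]
      exact Ideal.mul_mem_left _ _ hy
  have hIb : ∀ z ∈ Ideal.span (Set.range fun y => a * y), z * b ∈ ann E m := by
    intro z hz
    induction hz using Submodule.span_induction with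
    | mem z hz =>
      obtain ⟨y, rfl⟩ := hz
      exact hab y
    | zero =>
      rw [zero_mul]
      exact zero_mem _
    | add x y _ _ hx hy =>
      rw [add_mul]
      exact add_mem hx hy
    | smul x y _ hy =>
      rw [smul_eq_mul, mul_assoc]
      exact Ideal.mul_mem_left _ _ hy
  have haI : a ∈ Ideal.span (Set.range fun y => a * y) :=
    Ideal.subset_span ⟨1, mul_one a⟩
  have h1 := cl.add E hE (kil E hA m _ hI)
  have h2 : cl.cl (kil E hA m _ hI).sh = 0 := by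
    refine ih _ (hC.sub E hE _) (lt_of_le_of_ne (ann_sub E _) (fun h3 => ha ?_))
    rw [h3]
    intro c' e
    exact Subtype.ext (klA_self.1 (e.2 a haI))
  have h3 : cl.cl (kil E hA m _ hI).quot = 0 := by
    refine ih _ (hC.quot E hE _) (lt_of_le_of_ne (ann_quot E _) (fun h3 => hb ?_))
    rw [h3]
    intro c' e
    obtain ⟨e, rfl⟩ := ((kil E hA m _ hI).N (m, c')).mkQ_surjective e
    have h4 : lo A A' (m, c') b • e ∈ (kil E hA m _ hI).N (m, c') := by
      intro z hz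
      refine klA_self.2 ?_
      rw [← mul_smul, ← map_mul]
      exact hIb z hz c' e
    exact ((kil E hA m _ hI).proj_eq_zero).2 h4
  rw [h1, h2, h3, add_zero]

/-- THE NOETHERIAN INDUCTION. -/
theorem noeth (hA : ∀ c, IsNoetherianRing (A.A c)) (hC : SCls C) (cl : AddFn C V)
    (main : ∀ (E : BS A A') (m : Ch i), C E → Red E m →
      (∀ F : BS A A', C F → ann E < ann F → cl.cl F = 0) → cl.cl E = 0) :
    ∀ E : BS A A', C E → cl.cl E = 0 := by
  have hwf := (ann_wf hA).wf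
  have key : ∀ (I : ∀ m : Ch i, Ideal (A.A m)) (E : BS A A'), ann E = I → C E →
      cl.cl E = 0 := by
    intro I
    induction I using hwf.induction with
    | _ I ihI =>
    rintro E rfl hE
    have ih : ∀ F : BS A A', C F → ann E < ann F → cl.cl F = 0 :=
      fun F hF h => ihI (ann F) h F rfl hF
    by_cases hz : ∀ m, ann E m = ⊤
    · exact cl.zero hC hE (fun p => (ann_eq_top.1 (hz p.1)) p.2)
    push Not at hz
    obtain ⟨m, hm⟩ := (Set.toFinite {m : Ch i | ann E m ≠ ⊤}).exists_maximal hz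
    have h1 : (1 : A.A m) ∉ ann E m := fun h => hm.1 ((Ideal.eq_top_iff_one _).2 h)
    by_cases h2 : ∀ a b : A.A m, (∀ x, a * x * b ∈ ann E m) → a ∈ ann E m ∨ b ∈ ann E m
    swap
    · push Not at h2
      obtain ⟨a, b, hab, ha, hb⟩ := h2
      exact cl_not_prime hA hC cl hE ih hab ha hb
    have h3 := cl.add E hE (tor E m (sg E m h1 h2))
    have h4 : cl.cl (tor E m (sg E m h1 h2)).sh = 0 := by
      refine cl_tors hC cl h1 h2 ih (hC.sub E hE _) (ann_sub E _) ?_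
      rintro c' ⟨x, f, hf, hx⟩
      exact ⟨f, hf, Subtype.ext (klA_self.1 hx)⟩
    rw [h3, h4, zero_add]
    have h5 := hC.quot E hE (tor E m (sg E m h1 h2))
    have h6 := ann_quot E (tor E m (sg E m h1 h2))
    by_cases h7 : ann E = ann (tor E m (sg E m h1 h2)).quot
    swap
    · exact ih _ h5 (lt_of_le_of_ne h6 h7)
    refine main _ m h5 ?_ (fun F hF h => ih F hF (by rw [h7]; exact h))
    refine ⟨?_, ?_, ?_, ?_, ?_⟩
    · intro c c' hc x
      obtain ⟨x, rfl⟩ := (tor E m (sg E m h1 h2)).proj_surj (c, c') x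
      refine (Sub.proj_eq_zero _).2 ⟨1, (sg E m h1 h2).one_mem, ?_⟩
      have h8 : ann E (c.sup m) = ⊤ := by
        by_contra h9
        exact hc ((Ch.le_supL c m).trans (hm.2 h9 (Ch.le_supR c m)))
      unfold KlA
      exact (ann_eq_top.1 h8 c').elim _ _
    · intro c c' hc x hx
      obtain ⟨x, rfl⟩ := (tor E m (sg E m h1 h2)).proj_surj (c, c') x
      rw [Sub.proj_eq_zero]
      rw [(tor E m (sg E m h1 h2)).proj.nat, Sub.proj_eq_zero] at hx
      obtain ⟨f, hf, hx⟩ := hx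
      exact ⟨f, hf, (klA_le hc).2 (klA_self.1 hx)⟩
    · rw [← h7]
      exact h1
    · rw [← h7]
      exact h2
    · intro f hf c' x hx
      rw [← h7] at hf
      obtain ⟨x, rfl⟩ := (tor E m (sg E m h1 h2)).proj_surj (m, c') x
      rw [← map_smul, Sub.proj_eq_zero] at hx
      rw [Sub.proj_eq_zero]
      obtain ⟨g, hg, hx⟩ := hx
      refine ⟨g * f, (sg E m h1 h2).mul_mem hg hf, klA_self.2 ?_⟩
      rw [map_mul, map_mul, mul_smul]
      exact klA_self.1 hx
  exact fun E hE => key (ann E) E rfl hE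

/-- THE COMPARISON (7.5). -/
theorem compare (hC : SCls C) (cl : AddFn C V) {E : BS A A'} {m : Ch i} (hR : Red E m)
    (ih : ∀ F : BS A A', C F → ann E < ann F → cl.cl F = 0)
    {F₁ F₂ Z : BS A A'} (hF₁ : C F₁) (hF₂ : C F₂) (h₁ : ann E ≤ ann F₁) (h₂ : ann E ≤ ann F₂)
    (φ₁ : ShH F₁ Z) (φ₂ : ShH F₂ Z)
    (k₁ : ∀ (c' : Ch j) (x : F₁.E (m, c')), φ₁.f (m, c') x = 0 → ∃ f : RR k m.1,
      algebraMap _ (A.A m) f ∉ ann E m ∧ cl1 A A' (m, c') f • x = 0)
    (k₂ : ∀ (c' : Ch j) (x : F₂.E (m, c')), φ₂.f (m, c') x = 0 → ∃ f : RR k m.1,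
      algebraMap _ (A.A m) f ∉ ann E m ∧ cl1 A A' (m, c') f • x = 0)
    (s₁ : ∀ (c' : Ch j) (z : Z.E (m, c')), ∃ f : RR k m.1,
      algebraMap _ (A.A m) f ∉ ann E m ∧ ∃ x, φ₁.f (m, c') x = cl1 A A' (m, c') f • z)
    (s₂ : ∀ (c' : Ch j) (z : Z.E (m, c')), ∃ f : RR k m.1,
      algebraMap _ (A.A m) f ∉ ann E m ∧ ∃ x, φ₂.f (m, c') x = cl1 A A' (m, c') f • z) :
    cl.cl F₁ = cl.cl F₂ := by
  have key : ∀ (F₁ F₂ : BS A A') (hF₁ : C F₁) (h₁ : ann E ≤ ann F₁)
      (φ₁ : ShH F₁ Z) (φ₂ : ShH F₂ Z)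
      (k₁ : ∀ (c' : Ch j) (x : F₁.E (m, c')), φ₁.f (m, c') x = 0 → ∃ f : RR k m.1,
        algebraMap _ (A.A m) f ∉ ann E m ∧ cl1 A A' (m, c') f • x = 0)
      (s₂ : ∀ (c' : Ch j) (z : Z.E (m, c')), ∃ f : RR k m.1,
        algebraMap _ (A.A m) f ∉ ann E m ∧ ∃ x, φ₂.f (m, c') x = cl1 A A' (m, c') f • z),
      cl.cl F₁ = cl.cl (Sub.inf φ₁.range φ₂.range).sh := by
    intro F₁ F₂ hF₁ h₁ φ₁ φ₂ k₁ s₂
    have e1 : cl.cl φ₁.ker.sh = 0 := by
      refine cl_tors hC cl hR.one hR.pr ih (hC.sub F₁ hF₁ _) (h₁.trans (ann_sub F₁ _)) ?_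
      rintro c' ⟨x, hx⟩
      obtain ⟨f, hf, hx'⟩ := k₁ c' x (ShH.mem_ker.1 hx)
      exact ⟨f, hf, Subtype.ext hx'⟩
    have hq : C φ₁.ker.quot := hC.quot F₁ hF₁ _
    have hr : C φ₁.range.sh := hC.iso _ _ _ φ₁.quotKer_bij hq
    have e2 : cl.cl F₁ = cl.cl φ₁.range.sh := by
      rw [cl.add F₁ hF₁ φ₁.ker, e1, zero_add]
      exact cl.iso _ _ _ φ₁.quotKer_bij hq
    have hann : ann E ≤ ann φ₁.range.sh := by
      refine (h₁.trans (ann_quot F₁ φ₁.ker)).trans ?_
      exact ann_of_surj φ₁.quotKer (fun p => (φ₁.quotKer_bij p).2)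
    have e3 : cl.cl (Sub.restr φ₁.range φ₂.range).quot = 0 := by
      refine cl_tors hC cl hR.one hR.pr ih (hC.quot _ hr _) (hann.trans (ann_quot _ _)) ?_
      intro c' x
      obtain ⟨x, rfl⟩ := (Sub.restr φ₁.range φ₂.range).proj_surj (m, c') x
      obtain ⟨f, hf, y, hy⟩ := s₂ c' (φ₁.range.incl.f (m, c') x)
      refine ⟨f, hf, ?_⟩
      rw [← map_smul, Sub.proj_eq_zero, Sub.mem_restr, map_smul]
      exact ⟨y, hy⟩
    rw [e2, cl.add _ hr (Sub.restr φ₁.range φ₂.range), e3, add_zero]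
    exact cl.iso _ _ _ (Sub.infIso_bij φ₁.range φ₂.range) (hC.sub _ hr _)
  rw [key F₁ F₂ hF₁ h₁ φ₁ φ₂ k₁ s₂, key F₂ F₁ hF₂ h₂ φ₂ φ₁ k₂ s₁]
  refine cl.iso _ _ _ (Sub.infComm_bij φ₁.range φ₂.range) ?_
  have hr : C φ₁.range.sh := hC.iso _ _ _ φ₁.quotKer_bij (hC.quot F₁ hF₁ _)
  exact hC.iso _ _ _ (Sub.infIso_bij φ₁.range φ₂.range) (hC.sub _ hr _)

end

end Pool.Agent.MP_6e5bed_ag_GG
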