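import Pool.Agent.Lib.MP_6e5bed_ag_GG.Cls
import Pool.Agent.Lib.MP_6e5bed_ag_GG.Noe
import Pool.Agent.Lib.MP_6e5bed_ag_GG.IC
import Pool.Agent.Lib.MP_6e5bed_ag_GG.GB
import Pool.Agent.Lib.MP_6e5bed_ag_GG.Dgc
import Pool.Agent.Lib.MP_6e5bed_ag_GG.TDef

set_option autoImplicit false
set_option linter.unusedVariables false

/-!
# MP_6e5bed_ag, THEOREM G: assembly
-/

noncomputable section

namespace Pool.Agent.MP_6e5bed_ag_GG

open Pool.Agent.MP_6e5bed_ag_NC Pool.Agent.MP_6e5bed_ag_NS Pool.Agent.MP_6e5bed_ag_PN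
open scoped TensorProduct

universe u

variable {k : Type u} [Field k] {i : Type} [Fintype i]

/-- The condition on the centres of the generic data. -/
def HC (A : CA k i) : Prop :=
  ∀ (m : Ch i) (g : GD A m), MP_6e5bed_ag_Pn.InProd (algebraMap k (Subalgebra.center k g.S))

/-- The main step of the noetherian induction. -/
def MainS (A : CA k i) (hF : FinBB A A) (hS : Smooth (TT A))
    (J : Submodule ℚ (K0Q (TT A) (TT A))) : Prop :=
  ∀ (E : BS A A) (m : Ch i), E.Coh → Red E m →
    (∀ F : BS A A, F.Coh → ann E < ann F → (clf A A hF hS hS (bs_noe A A) J).cl F = 0) →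
    (clf A A hF hS hS (bs_noe A A) J).cl E = 0

/-- The noetherian induction, applied to the classes of coherent bisheaves. -/
theorem cls_zero {A : CA k i} {hF : FinBB A A} {hS : Smooth (TT A)}
    {J : Submodule ℚ (K0Q (TT A) (TT A))} (h : MainS A hF hS J) (E : BS A A) (hE : E.Coh) :
    rcls E.bp.BB (hasRes_BB hF hS hS hE) ∈ J :=
  (clf_eq_zero hF hS hS (bs_noe A A) J hE).1
    (noeth (fun c => A.noe c) (scls_coh (bs_noe A A)) (clf A A hF hS hS (bs_noe A A) J) h E hE)

/-- The identity is in `J`, if the class of the diagonal bisheaf is the identity. -/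
theorem one_mem_of_main {A : CA k i} {hF : FinBB A A} {hS : Smooth (TT A)}
    {J : Submodule ℚ (K0Q (TT A) (TT A))} (h : MainS A hF hS J)
    (hD : ∀ r : HasRes (dgS A).bp.BB, rcls _ r = K0Q.one hS) : K0Q.one hS ∈ J := by
  rw [← hD (hasRes_BB hF hS hS (dgS_coh A))]
  exact cls_zero h (dgS A) (dgS_coh A)

end Pool.Agent.MP_6e5bed_ag_GG
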