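import Pool.Agent.Lib.MP_6e5bed_ag_GG.Defs
import Pool.Agent.Lib.MP_6e5bed_ag_NS.Sh

set_option autoImplicit false
set_option linter.unusedVariables false

/-!
# MP_6e5bed_ag, THEOREM G: bisheaves as dg bimodules in degree zero, complexes of bisheaves
-/

noncomputable section

namespace Pool.Agent.MP_6e5bed_ag_GG

open Pool.Agent.MP_6e5bed_ag_NC Pool.Agent.MP_6e5bed_ag_NS
open scoped TensorProduct

universe u

variable {k : Type u} [Field k] {i j : Type} [Fintype i] [Fintype j] {A : CA k i} {A' : CA k j}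

/-! ### Bimodules over two rings as modules over the tensor product -/

section bim

variable {R R' : Type u} [Ring R] [Algebra k R] [Ring R'] [Algebra k R'] {M N : Type u}
  [AddCommGroup M] [Module k M] [Module (R ⊗[k] R'ᵐᵒᵖ) M] [IsScalarTower k (R ⊗[k] R'ᵐᵒᵖ) M]
  [AddCommGroup N] [Module k N] [Module (R ⊗[k] R'ᵐᵒᵖ) N] [IsScalarTower k (R ⊗[k] R'ᵐᵒᵖ) N]

variable (k R R' M) in
/-- the left action `(a, x) ↦ (a ⊗ 1) x` -/
def lact : R →ₗ[k] M →ₗ[k] M :=
  LinearMap.mk₂ k (fun a x => (a ⊗ₜ[k] (1 : R'ᵐᵒᵖ)) • x)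
    (fun a a' x => by rw [TensorProduct.add_tmul, add_smul])
    (fun c a x => by rw [← TensorProduct.smul_tmul', smul_assoc])
    (fun a x y => smul_add _ _ _)
    (fun c a x => by rw [smul_algebra_smul_comm])

variable (k R R' M) in
/-- the right action `(b, x) ↦ (1 ⊗ b) x` -/
def ract : R' →ₗ[k] M →ₗ[k] M :=
  LinearMap.mk₂ k (fun b x => ((1 : R) ⊗ₜ[k] MulOpposite.op b) • x)
    (fun a a' x => by rw [MulOpposite.op_add, TensorProduct.tmul_add, add_smul])
    (fun c a x => by rw [MulOpposite.op_smul, TensorProduct.tmul_smul, smul_assoc])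
    (fun a x y => smul_add _ _ _)
    (fun c a x => by rw [smul_algebra_smul_comm])

theorem lact_apply (a : R) (x : M) : lact k R R' M a x = (a ⊗ₜ[k] (1 : R'ᵐᵒᵖ)) • x := rfl

theorem ract_apply (b : R') (x : M) :
    ract k R R' M b x = ((1 : R) ⊗ₜ[k] MulOpposite.op b) • x := rfl

theorem tmul_smul_eq (a : R) (b : R'ᵐᵒᵖ) (x : M) :
    (a ⊗ₜ[k] b) • x = lact k R R' M a (ract k R R' M b.unop x) := by
  rw [lact_apply, ract_apply, ← mul_smul, Algebra.TensorProduct.tmul_mul_tmul, mul_one, one_mul]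
  rfl

variable (k R R' M) in
/-- the bimodule -/
def kbim : KBi k R R' where
  M := M
  l := lact k R R' M
  r := ract k R R' M
  l_one := fun x => one_smul (R ⊗[k] R'ᵐᵒᵖ) x
  r_one := fun x => one_smul (R ⊗[k] R'ᵐᵒᵖ) x
  l_mul := fun a a' x => by
    rw [lact_apply, lact_apply, lact_apply, ← mul_smul, Algebra.TensorProduct.tmul_mul_tmul,
      one_mul]
  r_mul := fun b b' x => by
    rw [ract_apply, ract_apply, ract_apply, ← mul_smul, Algebra.TensorProduct.tmul_mul_tmul,
      one_mul]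
    rfl
  l_r := fun a b x => by
    rw [lact_apply, ract_apply, ract_apply, lact_apply, ← mul_smul, ← mul_smul,
      Algebra.TensorProduct.tmul_mul_tmul, Algebra.TensorProduct.tmul_mul_tmul, one_mul, mul_one,
      mul_one, one_mul]

theorem linear_of_bi (f : M →ₗ[k] N) (hl : ∀ a x, f (lact k R R' M a x) = lact k R R' N a (f x))
    (hr : ∀ b x, f (ract k R R' M b x) = ract k R R' N b (f x)) (b : R ⊗[k] R'ᵐᵒᵖ) (x : M) :
    f (b • x) = b • f x := by
  induction b using TensorProduct.induction_on with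
  | zero =>
    have h0 : (0 : R ⊗[k] R'ᵐᵒᵖ) = (0 : R) ⊗ₜ[k] (1 : R'ᵐᵒᵖ) :=
      (TensorProduct.zero_tmul _ _).symm
    rw [h0, tmul_smul_eq, tmul_smul_eq, hl, hr]
  | tmul a b => rw [tmul_smul_eq, tmul_smul_eq, hl, hr]
  | add a b ha hb => rw [add_smul, add_smul, map_add, ha, hb]

end bim

/-! ### Complexes of bisheaves -/

/-- Presheaves of dg bimodules on the pairs of charts. -/
structure BPB (A : CA k i) (A' : CA k j) where
  F : ∀ p : Ch i × Ch j, Bim (ring k (A.A p.1)) (ring k (A'.A p.2))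
  ρ : ∀ {p q : Ch i × Ch j} (h : p ≤ q),
    GMap 0 (F p) (res (ringH (A.res h.1)) (ringH (A'.res h.2)) (F q))
  dd : ∀ {p q : Ch i × Ch j} (h : p ≤ q), (ρ h).dd = 0
  ρ_id : ∀ {p : Ch i × Ch j} (h : p ≤ p) x, (ρ h).f x = x
  ρ_ρ : ∀ {p q s : Ch i × Ch j} (h : p ≤ q) (h' : q ≤ s) x,
    (ρ h').f ((ρ h).f x) = (ρ (h.trans h')).f x

/-- Morphisms of presheaves of dg bimodules. -/
structure BPH (F G : BPB A A') where
  f : ∀ p, GMap 0 (F.F p) (G.F p)
  dd : ∀ p, (f p).dd = 0
  nat : ∀ {p q : Ch i × Ch j} (h : p ≤ q) x, (G.ρ h).f ((f p).f x) = (f q).f ((F.ρ h).f x)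

/-- Short exact sequences of presheaves of dg bimodules. -/
def BPEx {F' F F'' : BPB A A'} (a : BPH F' F) (b : BPH F F'') : Prop :=
  ∀ p, Function.Injective (a.f p).f ∧ Function.Surjective (b.f p).f ∧
    ∀ x, (b.f p).f x = 0 ↔ ∃ y, (a.f p).f y = x

/-- A bisheaf as a presheaf of dg bimodules in degree zero. -/
def Sh.bp (E : BS A A') : BPB A A' where
  F := fun p => (kbim k (A.A p.1) (A'.A p.2) (E.E p)).bim
  ρ := fun {p q} h =>
    { f := E.res h
      deg := fun {i x} hx => by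
        rw [add_zero]
        exact conc_map (E.res h) hx
      map_l := fun a x => by
        rw [Dg.sp_zero]
        refine (E.res_smul h (a ⊗ₜ[k] (1 : (A'.A p.2)ᵐᵒᵖ)) x).trans ?_
        change (A.res h.1 a ⊗ₜ[k] MulOpposite.op (A'.res h.2 1)) • E.res h x = _
        rw [map_one]
        rfl
      map_r := fun b x => by
        refine (E.res_smul h ((1 : A.A p.1) ⊗ₜ[k] MulOpposite.op b) x).trans ?_
        change (A.res h.1 1 ⊗ₜ[k] MulOpposite.op (A'.res h.2 b)) • E.res h x = _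
        rw [map_one]
        rfl }
  dd := fun {p q} h => LinearMap.ext fun x => by
    rw [GMap.dd_apply, sg_zero, one_smul, LinearMap.zero_apply, sub_eq_zero]
    exact (map_zero (E.res h)).symm
  ρ_id := fun h x => E.res_id h x
  ρ_ρ := fun h h' x => E.res_res h h' x

/-- A morphism of bisheaves as a morphism of presheaves of dg bimodules. -/
def ShH.bp {E F : BS A A'} (f : ShH E F) : BPH E.bp F.bp where
  f := fun p =>
    { f := (f.f p).restrictScalars k
      deg := fun {i x} hx => by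
        rw [add_zero]
        exact conc_map ((f.f p).restrictScalars k) hx
      map_l := fun a x => by
        rw [Dg.sp_zero]
        exact (f.f p).map_smul _ _
      map_r := fun b x => (f.f p).map_smul _ _ }
  dd := fun p => LinearMap.ext fun x => by
    rw [GMap.dd_apply, sg_zero, one_smul, LinearMap.zero_apply, sub_eq_zero]
    exact (map_zero ((f.f p).restrictScalars k)).symm
  nat := fun h x => f.nat h x

/-- The sequence of a subsheaf and the quotient. -/
theorem Sub.bpEx {E : BS A A'} (N : Sub E) :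
    ∃ (a : BPH N.sh.bp E.bp) (b : BPH E.bp N.quot.bp), BPEx a b := by
  refine ⟨ShH.bp ⟨fun p => (N.N p).subtype, fun h x => rfl⟩,
    ShH.bp ⟨fun p => (N.N p).mkQ, fun h x => rfl⟩, fun p => ⟨Subtype.val_injective,
    (N.N p).mkQ_surjective, fun x => ?_⟩⟩
  refine (Submodule.Quotient.mk_eq_zero (N.N p)).trans ⟨fun h => ⟨⟨x, h⟩, rfl⟩, ?_⟩
  rintro ⟨y, rfl⟩
  exact y.2

end Pool.Agent.MP_6e5bed_ag_GG
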