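import Pool.Agent.Lib.MP_6e5bed_ag_GG.CbH
import Pool.Agent.Lib.MP_6e5bed_ag_CV.Corner

set_option autoImplicit false
set_option linter.unusedVariables false

/-!
# MP_6e5bed_ag, THEOREM G, section (5.2): presheaves of complexes with an action

`BPC A A'` are presheaves of complexes with an action of `A_c ⊗ A'_{c'}ᵒᵖ` on the pairs of charts;
this is the same as `BPB A A'` (`BPC.bpb`, `BPB.bpc`).
-/

noncomputable section

namespace Pool.Agent.MP_6e5bed_ag_GG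

open Pool.Agent.MP_6e5bed_ag_NC Pool.Agent.MP_6e5bed_ag_PN
open Pool.Agent.MP_6e5bed_ag_NS (Cx CHom ringH)
open scoped TensorProduct

universe u

variable {k : Type u} [Field k]

section bim

variable {R R' : Type u} [Ring R] [Algebra k R] [Ring R'] [Algebra k R'] {X Y : Cx k}

/-- the left multiplication -/
def CAct.lL (a : CAct (R ⊗[k] R'ᵐᵒᵖ) X) : R →ₗ[k] X.V →ₗ[k] X.V :=
  (a.φ.toLinearMap ∘ₗ
    (Algebra.TensorProduct.includeLeft : R →ₐ[k] R ⊗[k] R'ᵐᵒᵖ).toLinearMap :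
      R →ₗ[k] Module.End k X.V)

/-- the right multiplication -/
def CAct.rL (a : CAct (R ⊗[k] R'ᵐᵒᵖ) X) : R' →ₗ[k] X.V →ₗ[k] X.V :=
  (a.φ.toLinearMap ∘ₗ
    (Algebra.TensorProduct.includeRight : R'ᵐᵒᵖ →ₐ[k] R ⊗[k] R'ᵐᵒᵖ).toLinearMap ∘ₗ
      (MulOpposite.opLinearEquiv k : R' ≃ₗ[k] R'ᵐᵒᵖ).toLinearMap :
      R' →ₗ[k] Module.End k X.V)

theorem CAct.lL_apply (a : CAct (R ⊗[k] R'ᵐᵒᵖ) X) (b : R) (x : X.V) :
    a.lL b x = a.φ (b ⊗ₜ[k] 1) x := rfl

theorem CAct.rL_apply (a : CAct (R ⊗[k] R'ᵐᵒᵖ) X) (b : R') (x : X.V) :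
    a.rL b x = a.φ (1 ⊗ₜ[k] MulOpposite.op b) x := rfl

theorem CAct.mul_apply (a : CAct (R ⊗[k] R'ᵐᵒᵖ) X) (b c : R ⊗[k] R'ᵐᵒᵖ) (x : X.V) :
    a.φ b (a.φ c x) = a.φ (b * c) x := by
  rw [map_mul]
  rfl

theorem CAct.one_apply (a : CAct (R ⊗[k] R'ᵐᵒᵖ) X) (x : X.V) :
    a.φ ((1 : R) ⊗ₜ[k] (1 : R'ᵐᵒᵖ)) x = x := by
  have h : (1 : R) ⊗ₜ[k] (1 : R'ᵐᵒᵖ) = 1 := rfl
  rw [h, map_one]
  rfl

theorem CAct.lL_mul (a : CAct (R ⊗[k] R'ᵐᵒᵖ) X) (b c : R) (x : X.V) :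
    a.lL (b * c) x = a.lL b (a.lL c x) := by
  rw [lL_apply, lL_apply, lL_apply, CAct.mul_apply, Algebra.TensorProduct.tmul_mul_tmul, one_mul]

theorem CAct.rL_mul (a : CAct (R ⊗[k] R'ᵐᵒᵖ) X) (b c : R') (x : X.V) :
    a.rL (b * c) x = a.rL c (a.rL b x) := by
  rw [rL_apply, rL_apply, rL_apply, CAct.mul_apply, Algebra.TensorProduct.tmul_mul_tmul, one_mul,
    MulOpposite.op_mul]

theorem CAct.lL_rL (a : CAct (R ⊗[k] R'ᵐᵒᵖ) X) (b : R) (c : R') (x : X.V) :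
    a.lL b (a.rL c x) = a.rL c (a.lL b x) := by
  rw [lL_apply, rL_apply, rL_apply, lL_apply, CAct.mul_apply, CAct.mul_apply,
    Algebra.TensorProduct.tmul_mul_tmul, Algebra.TensorProduct.tmul_mul_tmul, one_mul, mul_one,
    one_mul, mul_one]

theorem CAct.lL_deg (a : CAct (R ⊗[k] R'ᵐᵒᵖ) X) {i j : ℤ} {b : R} {m : X.V}
    (hb : (Dg.conc k R).IsDeg i b) (hm : X.dg.IsDeg j m) : X.dg.IsDeg (i + j) (a.lL b m) := by
  rcases Dg.conc_cases hb with rfl | rfl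
  · rw [zero_add]
    exact a.deg _ hm
  · rw [map_zero, LinearMap.zero_apply]
    exact Dg.IsDeg.zero _

theorem CAct.rL_deg (a : CAct (R ⊗[k] R'ᵐᵒᵖ) X) {i j : ℤ} {b : R'} {m : X.V}
    (hm : X.dg.IsDeg i m) (hb : (Dg.conc k R').IsDeg j b) : X.dg.IsDeg (i + j) (a.rL b m) := by
  rcases Dg.conc_cases hb with rfl | rfl
  · rw [add_zero]
    exact a.deg _ hm
  · rw [map_zero, LinearMap.zero_apply]
    exact Dg.IsDeg.zero _

theorem CAct.lL_d (a : CAct (R ⊗[k] R'ᵐᵒᵖ) X) (b : R) (m : X.V) :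
    X.dg.d (a.lL b m) = a.lL 0 m + a.lL b (X.dg.d m) := by
  rw [map_zero, LinearMap.zero_apply, zero_add]
  exact a.d _ m

theorem CAct.rL_d (a : CAct (R ⊗[k] R'ᵐᵒᵖ) X) (b : R') (m : X.V) :
    X.dg.d (a.rL b m) = a.rL b (X.dg.d m) + a.rL 0 (X.dg.s m) := by
  rw [map_zero, LinearMap.zero_apply, add_zero]
  exact a.d _ m

/-- A complex with an action of `R ⊗ R'ᵒᵖ` as a dg bimodule. -/
def CAct.bim (a : CAct (R ⊗[k] R'ᵐᵒᵖ) X) : Bim (ring k R) (ring k R') where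
  M := X.V
  dg := X.dg
  l := a.lL
  r := a.rL
  l_one := fun m => a.one_apply m
  r_one := fun m => a.one_apply m
  l_mul := fun b c m => a.lL_mul b c m
  r_mul := fun b c m => a.rL_mul b c m
  l_r := fun b c m => a.lL_rL b c m
  l_deg := fun hb hm => a.lL_deg hb hm
  r_deg := fun hm hb => a.rL_deg hm hb
  d_l := fun b m => (a.lL_d b m).trans
    (congrArg (fun c : R => a.lL 0 m + a.lL c (X.dg.d m)) (ring_s (k := k) (R := R) b).symm)
  d_r := fun b m => a.rL_d b m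

theorem CAct.bim_l (a : CAct (R ⊗[k] R'ᵐᵒᵖ) X) (b : R) (x : X.V) :
    a.bim.l b x = a.φ (b ⊗ₜ[k] 1) x := rfl

theorem CAct.bim_r (a : CAct (R ⊗[k] R'ᵐᵒᵖ) X) (b : R') (x : X.V) :
    a.bim.r b x = a.φ (1 ⊗ₜ[k] MulOpposite.op b) x := rfl

end bim

variable {i j : Type} [Fintype i] [Fintype j] {A : CA k i} {A' : CA k j}

variable (A A') in
/-- Presheaves of complexes with an action of the algebras `A_c ⊗ A'_{c'}ᵒᵖ`. -/
structure BPC where
  X : Ch i × Ch j → Cx k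
  a : ∀ p, CAct (bsB A A' p) (X p)
  ρ : ∀ {p q : Ch i × Ch j}, p ≤ q → CHom (X p) (X q)
  act : ∀ {p q : Ch i × Ch j} (h : p ≤ q) (b : bsB A A' p) (x : (X p).V),
    (ρ h).f ((a p).φ b x) = (a q).φ (bsr A A' h b) ((ρ h).f x)
  ρ_id : ∀ {p : Ch i × Ch j} (h : p ≤ p) x, (ρ h).f x = x
  ρ_ρ : ∀ {p q s : Ch i × Ch j} (h : p ≤ q) (h' : q ≤ s) x,
    (ρ h').f ((ρ h).f x) = (ρ (h.trans h')).f x

/-- Morphisms. -/
structure BPCH (F G : BPC A A') where
  f : ∀ p, CHom (F.X p) (G.X p)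
  act : ∀ p (b : bsB A A' p) x, (f p).f ((F.a p).φ b x) = (G.a p).φ b ((f p).f x)
  nat : ∀ {p q : Ch i × Ch j} (h : p ≤ q) x, (G.ρ h).f ((f p).f x) = (f q).f ((F.ρ h).f x)

/-- The presheaf of dg bimodules. -/
def BPC.bpb (F : BPC A A') : BPB A A' where
  F := fun p => (F.a p).bim
  ρ := fun {p q} h => gmk (ringH (A.res h.1)) (ringH (A'.res h.2)) (X := (F.a p).bim)
    (Y := (F.a q).bim) (F.ρ h).f (fun {n x} hx => by
      rw [add_zero]
      exact (F.ρ h).deg hx)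
    (fun b x => by
      refine (F.act h (b ⊗ₜ[k] (1 : (A'.A p.2)ᵐᵒᵖ)) x).trans ?_
      rw [bsr_tmul]
      change (F.a q).φ (A.res h.1 b ⊗ₜ[k] MulOpposite.op (A'.res h.2 1)) _ = _
      rw [map_one]
      rfl)
    (fun b x => by
      refine (F.act h ((1 : A.A p.1) ⊗ₜ[k] MulOpposite.op b) x).trans ?_
      rw [bsr_tmul]
      change (F.a q).φ (A.res h.1 1 ⊗ₜ[k] MulOpposite.op (A'.res h.2 b)) _ = _
      rw [map_one]
      rfl)
  dd := fun {p q} h => gmk_dd _ _ _ _ _ _ (fun x => (F.ρ h).d x)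
  ρ_id := fun h x => F.ρ_id h x
  ρ_ρ := fun h h' x => F.ρ_ρ h h' x

/-- The complexes of a presheaf of dg bimodules. -/
def BPB.bpc (F : BPB A A') : BPC A A' where
  X := fun p => bcx (F.F p)
  a := fun p => F.ca p
  ρ := fun h => F.rho h
  act := fun h b x => F.rho_act h b x
  ρ_id := fun h x => F.ρ_id h x
  ρ_ρ := fun h h' x => F.ρ_ρ h h' x

/-- a morphism to a presheaf of dg bimodules -/
def BPCH.toB {F : BPC A A'} {G : BPB A A'} (f : BPCH F G.bpc) : BPH F.bpb G where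
  f := fun p =>
    { f := (f.f p).f
      deg := fun {n x} hx => by
        rw [add_zero]
        exact (f.f p).deg hx
      map_l := fun b x => by
        rw [ring_sp]
        exact (f.act p (b ⊗ₜ[k] 1) x).trans (bact_l (G.F p) b _)
      map_r := fun b x => (f.act p (1 ⊗ₜ[k] MulOpposite.op b) x).trans (bact_r (G.F p) _ _) }
  dd := fun p => LinearMap.ext fun x => by
    rw [GMap.dd_apply, sg_zero, one_smul, LinearMap.zero_apply, sub_eq_zero]
    exact (f.f p).d x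
  nat := fun h x => f.nat h x

theorem BPCH.toB_f {F : BPC A A'} {G : BPB A A'} (f : BPCH F G.bpc) (p : Ch i × Ch j)
    (x : (F.X p).V) : (f.toB.f p).f x = (f.f p).f x := rfl

/-- a morphism of presheaves of dg bimodules -/
def BPCH.bph {F G : BPC A A'} (f : BPCH F G) : BPH F.bpb G.bpb where
  f := fun p =>
    { f := (f.f p).f
      deg := fun {n x} hx => by
        rw [add_zero]
        exact (f.f p).deg hx
      map_l := fun b x => by
        rw [ring_sp]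
        exact f.act p (b ⊗ₜ[k] 1) x
      map_r := fun b x => f.act p (1 ⊗ₜ[k] MulOpposite.op b) x }
  dd := fun p => LinearMap.ext fun x => by
    rw [GMap.dd_apply, sg_zero, one_smul, LinearMap.zero_apply, sub_eq_zero]
    exact (f.f p).d x
  nat := fun h x => f.nat h x

/-- the identity -/
def BPCH.id (F : BPC A A') : BPCH F F where
  f := fun p => CHom.id _
  act := fun _ _ _ => rfl
  nat := fun _ _ => rfl

/-- the identity as an isomorphism with the presheaf of dg bimodules -/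
def BPB.ib (F : BPB A A') : BPH F.bpc.bpb F := (BPCH.id F.bpc).toB

theorem BPB.ib_biso (F : BPB A A') : BIso F.bpc.bpb.BB F.BB :=
  F.ib.biso (fun p => Function.bijective_id)

/-- Short exact sequences. -/
def BPCEx {F' F F'' : BPC A A'} (a : BPCH F' F) (b : BPCH F F'') : Prop :=
  ∀ p, Function.Injective (a.f p).f ∧ Function.Surjective (b.f p).f ∧
    ∀ x, (b.f p).f x = 0 ↔ ∃ y, (a.f p).f y = x

theorem BPCEx.ses {F' F F'' : BPC A A'} {a : BPCH F' F} {b : BPCH F F''} (h : BPCEx a b) :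
    IsSes F'.bpb.BB F.bpb.BB F''.bpb.BB := BPEx.ses (a := a.bph) (b := b.bph) (fun p => h p)

/-- Quasi-isomorphisms. -/
theorem BPCH.qiso {F G : BPC A A'} (f : BPCH F G) (h : ∀ p, Qi (f.f p)) : QIso f.bph.BB :=
  f.bph.qiso (fun p => ⟨f.bph.dd p, (h p).1, (h p).2⟩)

/-- Quasi-isomorphisms. -/
theorem BPCH.toB_qiso {F : BPC A A'} {G : BPB A A'} (f : BPCH F G.bpc) (h : ∀ p, Qi (f.f p)) :
    QIso f.toB.BB :=
  f.toB.qiso (fun p => ⟨f.toB.dd p, (h p).1, (h p).2⟩)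

end Pool.Agent.MP_6e5bed_ag_GG
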