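import Pool.Agent.Lib.MP_6e5bed_ag_GG.Cmp

set_option autoImplicit false
set_option linter.unusedVariables false

/-!
# MP_6e5bed_ag, THEOREM G, section (6.1): localisations and Čech complexes
-/

noncomputable section

namespace Pool.Agent.MP_6e5bed_ag_GG

open Pool.Agent.MP_6e5bed_ag_NC Pool.Agent.MP_6e5bed_ag_PN
open Pool.Agent.MP_6e5bed_ag_NS (Cx CHom ringH)
open scoped TensorProduct

universe u

section cC

variable {k : Type u} [CommRing k] {ι : Type} {S : Type*} [CommMonoid S]

/-- the zero modules -/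
theorem LocS.punit {f : PUnit.{u + 1} →ₗ[k] PUnit.{u + 1}}
    {σ σ' : S → PUnit.{u + 1} →ₗ[k] PUnit.{u + 1}} : LocS f σ σ' where
  mul := fun _ _ _ => rfl
  mul' := fun _ _ _ => rfl
  nat := fun _ _ => rfl
  surj := fun y => ⟨1, PUnit.unit, rfl⟩
  inj := fun _ _ => ⟨1, rfl⟩

/-- Localisations of presheaves of complexes and Čech complexes. -/
theorem cH_locS {V V' : PC k ι} {f : PCH V V'} {σ : S → PCH V V} {σ' : S → PCH V' V'}
    (h : ∀ c, LocS (f.f c).f (fun s => ((σ s).f c).f) (fun s => ((σ' s).f c).f)) :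
    ∀ (L : List ι) (c : FS ι), LocS ((cH f L).g c).f (fun s => ((cH (σ s) L).g c).f)
      (fun s => ((cH (σ' s) L).g c).f)
  | [], c => LocS.punit
  | l :: L, c => ((cH_locS h L c).prodMap (h (c.ins l))).prodMap (cH_locS h L (c.ins l).fs)

end cC

variable {k : Type u} [Field k] {ι : Type} {S : Type*} [CommMonoid S]
  {R R' : Type u} [Ring R] [Algebra k R] [Ring R'] [Algebra k R'] {B B' : PA k ι}

/-- Localisations and the left action of a ring on a Čech complex. -/
theorem cBL_locS {M : PB (PA.con ι (MP_6e5bed_ag_NC.ring k R)) B}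
    {M' : PB (PA.con ι (MP_6e5bed_ag_NC.ring k R')) B'} {f : PCH M.pc M'.pc} {b : S → R}
    {b' : S → R'} (h : ∀ c, LocS (f.f c).f (fun s => (M.M c).l (b s))
      (fun s => (M'.M c).l (b' s))) :
    ∀ (L : List ι) (c : FS ι), LocS (V := (cBL M L c).M) (V' := (cBL M' L c).M)
      ((cH f L).g c).f (fun s => (cBL M L c).l (b s)) (fun s => (cBL M' L c).l (b' s))
  | [], c => LocS.punit
  | l :: L, c => by
    have h1 := ((cBL_locS h L c).prodMap (h (c.ins l))).prodMap (cBL_locS h L (c.ins l).fs)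
    have e : ∀ s, (cBL M (l :: L) c).l (b s) =
        (((cBL M L c).l (b s)).prodMap ((M.M (c.ins l)).l (b s))).prodMap
          ((cBL M L (c.ins l).fs).l (b s)) := fun s => LinearMap.ext fun x => by
      obtain ⟨⟨x0, x1⟩, ξ⟩ := x
      refine (cBL_l M l L c (b s) x0 x1 ξ).trans ?_
      exact Prod.ext rfl (congrArg (fun z : R => (cBL M L (c.ins l).fs).l z ξ)
        (ring_s (k := k) (b s)))
    have e' : ∀ s, (cBL M' (l :: L) c).l (b' s) =
        (((cBL M' L c).l (b' s)).prodMap ((M'.M (c.ins l)).l (b' s))).prodMap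
          ((cBL M' L (c.ins l).fs).l (b' s)) := fun s => LinearMap.ext fun x => by
      obtain ⟨⟨x0, x1⟩, ξ⟩ := x
      refine (cBL_l M' l L c (b' s) x0 x1 ξ).trans ?_
      exact Prod.ext rfl (congrArg (fun z : R' => (cBL M' L (c.ins l).fs).l z ξ)
        (ring_s (k := k) (b' s)))
    have e1 : (fun s => (cBL M (l :: L) c).l (b s)) = _ := funext e
    have e1' : (fun s => (cBL M' (l :: L) c).l (b' s)) = _ := funext e'
    rw [e1, e1']
    exact h1

/-- Localisations and the right action of a ring on a Čech complex. -/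
theorem cBR_locS {M : PB B (PA.con ι (MP_6e5bed_ag_NC.ring k R))}
    {M' : PB B' (PA.con ι (MP_6e5bed_ag_NC.ring k R'))} {f : PCH M.pc M'.pc} {b : S → R}
    {b' : S → R'} (h : ∀ c, LocS (f.f c).f (fun s => (M.M c).r (b s))
      (fun s => (M'.M c).r (b' s))) :
    ∀ (L : List ι) (c : FS ι), LocS (V := (cBR M L c).M) (V' := (cBR M' L c).M)
      ((cH f L).g c).f (fun s => (cBR M L c).r (b s)) (fun s => (cBR M' L c).r (b' s))
  | [], c => LocS.punit
  | l :: L, c => by
    have h1 := ((cBR_locS h L c).prodMap (h (c.ins l))).prodMap (cBR_locS h L (c.ins l).fs)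
    have e : ∀ s, (cBR M (l :: L) c).r (b s) =
        (((cBR M L c).r (b s)).prodMap ((M.M (c.ins l)).r (b s))).prodMap
          ((cBR M L (c.ins l).fs).r (b s)) := fun s => LinearMap.ext fun x => by
      obtain ⟨⟨x0, x1⟩, ξ⟩ := x
      exact cBR_r M l L c (b s) x0 x1 ξ
    have e' : ∀ s, (cBR M' (l :: L) c).r (b' s) =
        (((cBR M' L c).r (b' s)).prodMap ((M'.M (c.ins l)).r (b' s))).prodMap
          ((cBR M' L (c.ins l).fs).r (b' s)) := fun s => LinearMap.ext fun x => by
      obtain ⟨⟨x0, x1⟩, ξ⟩ := x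
      exact cBR_r M' l L c (b' s) x0 x1 ξ
    have e1 : (fun s => (cBR M (l :: L) c).r (b s)) = _ := funext e
    have e1' : (fun s => (cBR M' (l :: L) c).r (b' s)) = _ := funext e'
    rw [e1, e1']
    exact h1

/-- the powers of the left action -/
theorem bim_l_pow {W : DGA k} (X : Bim (MP_6e5bed_ag_NC.ring k R) W) (b : R) (n : ℕ) :
    (show X.M →ₗ[k] X.M from X.l b) ^ n = X.l (b ^ n : R) := by
  induction n with
  | zero =>
    rw [pow_zero, pow_zero]
    exact (LinearMap.ext X.l_one).symm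
  | succ n ih =>
    rw [pow_succ, ih, pow_succ]
    exact (LinearMap.ext (X.l_mul (b ^ n : R) b)).symm

/-- the powers of the right action -/
theorem bim_r_pow {W : DGA k} (X : Bim W (MP_6e5bed_ag_NC.ring k R)) (b : R) (n : ℕ) :
    (show X.M →ₗ[k] X.M from X.r b) ^ n = X.r (b ^ n : R) := by
  induction n with
  | zero =>
    rw [pow_zero, pow_zero]
    exact (LinearMap.ext X.r_one).symm
  | succ n ih =>
    rw [pow_succ', ih, pow_succ]
    exact (LinearMap.ext (X.r_mul (b ^ n : R) b)).symm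

/-- Localisations and the left action of a ring on a Čech complex. -/
theorem cBL_locP {M : PB (PA.con ι (MP_6e5bed_ag_NC.ring k R)) B}
    {M' : PB (PA.con ι (MP_6e5bed_ag_NC.ring k R')) B'} {f : PCH M.pc M'.pc} {t : R}
    {t' : R'} (h : ∀ c, LocP (f.f c).f ((M.M c).l t) ((M'.M c).l t')) (L : List ι) (c : FS ι) :
    LocP (V := (cBL M L c).M) (V' := (cBL M' L c).M) ((cH f L).g c).f ((cBL M L c).l t)
      ((cBL M' L c).l t') := by
  have h1 : ∀ c, LocS (S := Multiplicative ℕ) (f.f c).f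
      (fun n => (M.M c).l (t ^ n.toAdd : R)) (fun n => (M'.M c).l (t' ^ n.toAdd : R')) := by
    intro c
    have h2 := (h c).locS
    have e : (fun n : Multiplicative ℕ => (show (M.M c).M →ₗ[k] (M.M c).M from
        (M.M c).l t) ^ n.toAdd) = fun n => (M.M c).l (t ^ n.toAdd : R) :=
      funext fun n => bim_l_pow (M.M c) t n.toAdd
    have e' : (fun n : Multiplicative ℕ => (show (M'.M c).M →ₗ[k] (M'.M c).M from
        (M'.M c).l t') ^ n.toAdd) = fun n => (M'.M c).l (t' ^ n.toAdd : R') :=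
      funext fun n => bim_l_pow (M'.M c) t' n.toAdd
    rw [← e, ← e']
    exact h2
  have h3 := cBL_locS (S := Multiplicative ℕ) h1 L c
  refine LocS.locP (fun x => ?_) ?_
  · have h4 := h3.nat (Multiplicative.ofAdd 1) x
    rw [toAdd_ofAdd, pow_one, pow_one] at h4
    exact h4
  · have e : (fun n : Multiplicative ℕ => (show (cBL M L c).M →ₗ[k] (cBL M L c).M from
        (cBL M L c).l t) ^ n.toAdd) = fun n => (cBL M L c).l (t ^ n.toAdd : R) :=
      funext fun n => bim_l_pow (cBL M L c) t n.toAdd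
    have e' : (fun n : Multiplicative ℕ => (show (cBL M' L c).M →ₗ[k] (cBL M' L c).M from
        (cBL M' L c).l t') ^ n.toAdd) = fun n => (cBL M' L c).l (t' ^ n.toAdd : R') :=
      funext fun n => bim_l_pow (cBL M' L c) t' n.toAdd
    rw [← e, ← e'] at h3
    exact h3

/-- Localisations and the right action of a ring on a Čech complex. -/
theorem cBR_locP {M : PB B (PA.con ι (MP_6e5bed_ag_NC.ring k R))}
    {M' : PB B' (PA.con ι (MP_6e5bed_ag_NC.ring k R'))} {f : PCH M.pc M'.pc} {t : R}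
    {t' : R'} (h : ∀ c, LocP (f.f c).f ((M.M c).r t) ((M'.M c).r t')) (L : List ι) (c : FS ι) :
    LocP (V := (cBR M L c).M) (V' := (cBR M' L c).M) ((cH f L).g c).f ((cBR M L c).r t)
      ((cBR M' L c).r t') := by
  have h1 : ∀ c, LocS (S := Multiplicative ℕ) (f.f c).f
      (fun n => (M.M c).r (t ^ n.toAdd : R)) (fun n => (M'.M c).r (t' ^ n.toAdd : R')) := by
    intro c
    have h2 := (h c).locS
    have e : (fun n : Multiplicative ℕ => (show (M.M c).M →ₗ[k] (M.M c).M from
        (M.M c).r t) ^ n.toAdd) = fun n => (M.M c).r (t ^ n.toAdd : R) :=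
      funext fun n => bim_r_pow (M.M c) t n.toAdd
    have e' : (fun n : Multiplicative ℕ => (show (M'.M c).M →ₗ[k] (M'.M c).M from
        (M'.M c).r t') ^ n.toAdd) = fun n => (M'.M c).r (t' ^ n.toAdd : R') :=
      funext fun n => bim_r_pow (M'.M c) t' n.toAdd
    rw [← e, ← e']
    exact h2
  have h3 := cBR_locS (S := Multiplicative ℕ) h1 L c
  refine LocS.locP (fun x => ?_) ?_
  · have h4 := h3.nat (Multiplicative.ofAdd 1) x
    rw [toAdd_ofAdd, pow_one, pow_one] at h4
    exact h4
  · have e : (fun n : Multiplicative ℕ => (show (cBR M L c).M →ₗ[k] (cBR M L c).M from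
        (cBR M L c).r t) ^ n.toAdd) = fun n => (cBR M L c).r (t ^ n.toAdd : R) :=
      funext fun n => bim_r_pow (cBR M L c) t n.toAdd
    have e' : (fun n : Multiplicative ℕ => (show (cBR M' L c).M →ₗ[k] (cBR M' L c).M from
        (cBR M' L c).r t') ^ n.toAdd) = fun n => (cBR M' L c).r (t' ^ n.toAdd : R') :=
      funext fun n => bim_r_pow (cBR M' L c) t' n.toAdd
    rw [← e, ← e'] at h3
    exact h3

variable {i j : Type} [Fintype i] [Fintype j] {A : CA k i} {A' : CA k j}

/-- `c' ↦ RΓ(c ↦ F c c')` is quasi-coherent in the second variable. -/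
theorem qcr_push {F : BPB A A'} (hF : F.QC) (L : List i) (c : FS i) : QCr (F.two.push L c) :=
  fun h _ hg l hd => cBR_locP (f := F.two.sn h) (fun a => hF.snd a h hg l hd) L c

end Pool.Agent.MP_6e5bed_ag_GG
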