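import Pool.Agent.Lib.MP_6e5bed_ag_GG.CLoc
import Pool.Agent.Lib.MP_6e5bed_ag_PN.Two2

set_option autoImplicit false
set_option linter.unusedVariables false

/-!
# MP_6e5bed_ag, THEOREM G, section 6: quasi-coherence of the pushforward in the second variable
-/

noncomputable section

namespace Pool.Agent.MP_6e5bed_ag_GG

open Pool.Agent.MP_6e5bed_ag_NC Pool.Agent.MP_6e5bed_ag_PN
open Pool.Agent.MP_6e5bed_ag_NS (Cx CHom ringH)
open scoped TensorProduct

universe u

variable {k : Type u} [Field k] {i j : Type} [Fintype i] [Fintype j] {A : CA k i} {A' : CA k j}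

theorem qcl_push2 {F : BPB A A'} (hF : F.QC) (L : List j) (c : FS j) :
    QCl (F.two.push2 L c) :=
  fun h _ hg l hd => cBL_locP (f := F.two.fn h) (fun b => hF.fst b h hg l hd) L c

end Pool.Agent.MP_6e5bed_ag_GG
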