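import Pool.Agent.Lib.MP_6e5bed_ag_NC.FTb

set_option autoImplicit false

/-!
# MP_6e5bed_ag, THEOREM G, section (6.1): localisations and tensor products

`LocP f t t'` says that `f : V → V'` behaves like the localisation of `V` at the powers of the
endomorphism `t` (`t'` on `V'`). It is stable under tensor products over a dg algebra.
-/

noncomputable section

namespace Pool.Agent.MP_6e5bed_ag_GG

open Pool.Agent.MP_6e5bed_ag_NC
open scoped TensorProduct

universe u

/-- `f : V → V'` is up to powers of `t` injective and up to powers of `t'` surjective. -/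
structure LocP {k V V' : Type*} [CommRing k] [AddCommGroup V] [Module k V] [AddCommGroup V']
    [Module k V'] (f : V →ₗ[k] V') (t : V →ₗ[k] V) (t' : V' →ₗ[k] V') : Prop where
  nat : ∀ x, f (t x) = t' (f x)
  surj : ∀ y, ∃ (n : ℕ) (x : V), f x = (t' ^ n) y
  inj : ∀ x, f x = 0 → ∃ n : ℕ, (t ^ n) x = 0

section lin

variable {k V V' E E' : Type*} [CommRing k] [AddCommGroup V] [Module k V] [AddCommGroup V']
  [Module k V'] [AddCommGroup E] [Module k E] [AddCommGroup E'] [Module k E']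
  {f : V →ₗ[k] V'} {t : V →ₗ[k] V} {t' : V' →ₗ[k] V'} {g : E →ₗ[k] E'} {u : E →ₗ[k] E}
  {u' : E' →ₗ[k] E'}

theorem LocP.nat_pow (h : LocP f t t') (n : ℕ) (x : V) : f ((t ^ n) x) = (t' ^ n) (f x) := by
  induction n with
  | zero => rfl
  | succ n ih => rw [pow_succ', pow_succ', Module.End.mul_apply, Module.End.mul_apply, h.nat, ih]

/-- a map which intertwines two endomorphisms intertwines their powers -/
theorem inter_pow {R : E →ₗ[k] V} (h : ∀ x, R (u x) = t (R x)) (n : ℕ) (x : E) :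
    R ((u ^ n) x) = (t ^ n) (R x) := by
  induction n with
  | zero => rfl
  | succ n ih => rw [pow_succ', pow_succ', Module.End.mul_apply, Module.End.mul_apply, h, ih]

theorem pow_zero_of_le {x : V} {n m : ℕ} (h : (t ^ n) x = 0) : (t ^ (m + n)) x = 0 := by
  rw [pow_add, Module.End.mul_apply, h, map_zero]

theorem pow_zero_of_le' {x : V} {n m : ℕ} (h : (t ^ n) x = 0) : (t ^ (n + m)) x = 0 := by
  rw [add_comm]
  exact pow_zero_of_le h

/-- the elements which are killed by a power of `t` are closed under addition -/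
theorem tors_add {x y : V} (hx : ∃ n : ℕ, (t ^ n) x = 0) (hy : ∃ n : ℕ, (t ^ n) y = 0) :
    ∃ n : ℕ, (t ^ n) (x + y) = 0 := by
  obtain ⟨n, hn⟩ := hx
  obtain ⟨m, hm⟩ := hy
  refine ⟨n + m, ?_⟩
  rw [map_add, pow_zero_of_le' hn, pow_zero_of_le hm, add_zero]

/-- the elements which are in the image up to a power of `t'` are closed under addition -/
theorem surj_add (h : ∀ x, f (t x) = t' (f x)) {y z : V'}
    (hy : ∃ (n : ℕ) (x : V), f x = (t' ^ n) y) (hz : ∃ (n : ℕ) (x : V), f x = (t' ^ n) z) :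
    ∃ (n : ℕ) (x : V), f x = (t' ^ n) (y + z) := by
  obtain ⟨n, x, hx⟩ := hy
  obtain ⟨m, x', hx'⟩ := hz
  refine ⟨n + m, (t ^ m) x + (t ^ n) x', ?_⟩
  rw [map_add, inter_pow (R := f) h, inter_pow (R := f) h, hx, hx', map_add]
  congr 1
  · rw [add_comm, pow_add, Module.End.mul_apply]
  · rw [pow_add, Module.End.mul_apply]

/-- Cokernels. -/
theorem LocP.coker (h : LocP f t t') (h' : LocP g u u') {R : E →ₗ[k] V} {R' : E' →ₗ[k] V'}
    (hR : ∀ e, f (R e) = R' (g e)) (hu : ∀ e, R (u e) = t (R e))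
    (hu' : ∀ e, R' (u' e) = t' (R' e)) {Z Z' : Type*} [AddCommGroup Z] [Module k Z]
    [AddCommGroup Z'] [Module k Z'] {p : V →ₗ[k] Z} {p' : V' →ₗ[k] Z'}
    (hp : Function.Surjective p) (hp' : Function.Surjective p')
    (hk : ∀ x, p x = 0 ↔ ∃ e, R e = x) (hk' : ∀ x, p' x = 0 ↔ ∃ e, R' e = x)
    {F : Z →ₗ[k] Z'} {T : Z →ₗ[k] Z} {T' : Z' →ₗ[k] Z'} (hF : ∀ x, F (p x) = p' (f x))
    (hT : ∀ x, T (p x) = p (t x)) (hT' : ∀ x, T' (p' x) = p' (t' x)) : LocP F T T' := by
  have hTn : ∀ (n : ℕ) x, (T ^ n) (p x) = p ((t ^ n) x) := fun n x =>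
    (inter_pow (R := p) (fun x => (hT x).symm) n x).symm
  have hTn' : ∀ (n : ℕ) x, (T' ^ n) (p' x) = p' ((t' ^ n) x) := fun n x =>
    (inter_pow (R := p') (fun x => (hT' x).symm) n x).symm
  refine ⟨fun z => ?_, fun z => ?_, fun z hz => ?_⟩
  · obtain ⟨x, rfl⟩ := hp z
    rw [hT, hF, hF, hT', h.nat]
  · obtain ⟨y, rfl⟩ := hp' z
    obtain ⟨n, x, hx⟩ := h.surj y
    exact ⟨n, p x, by rw [hF, hx, hTn']⟩
  · obtain ⟨x, rfl⟩ := hp z
    rw [hF, hk'] at hz
    obtain ⟨e', he'⟩ := hz
    obtain ⟨n, e, he⟩ := h'.surj e'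
    have h1 : f ((t ^ n) x - R e) = 0 := by
      rw [map_sub, h.nat_pow, hR, he, ← he', inter_pow (R := R') hu', sub_self]
    obtain ⟨m, hm⟩ := h.inj _ h1
    refine ⟨m + n, ?_⟩
    rw [hTn, hk]
    refine ⟨(u ^ m) e, ?_⟩
    rw [map_sub, sub_eq_zero] at hm
    rw [inter_pow (R := R) hu, pow_add, Module.End.mul_apply, hm]

/-- Bijective maps. -/
theorem LocP.of_bij (h : Function.Bijective f) (hn : ∀ x, f (t x) = t' (f x)) : LocP f t t' :=
  ⟨hn, fun y => by
    obtain ⟨x, hx⟩ := h.2 y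
    exact ⟨0, x, hx⟩, fun x hx => ⟨0, h.1 (by
      change f x = f 0
      rw [hx, map_zero])⟩⟩

end lin

section field

variable {k V V' : Type*} [Field k] [AddCommGroup V] [Module k V] [AddCommGroup V']
  [Module k V'] {f : V →ₗ[k] V'} {t : V →ₗ[k] V} {t' : V' →ₗ[k] V'}

/-- Tensor products with a vector space, on the right. -/
theorem LocP.rTensor (h : LocP f t t') (Q : Type*) [AddCommGroup Q] [Module k Q] :
    LocP (LinearMap.rTensor Q f) (LinearMap.rTensor Q t) (LinearMap.rTensor Q t') := by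
  have hn : ∀ x, LinearMap.rTensor Q f (LinearMap.rTensor Q t x) =
      LinearMap.rTensor Q t' (LinearMap.rTensor Q f x) := by
    intro x
    induction x using TensorProduct.induction_on with
    | zero => simp only [map_zero]
    | tmul v q => rw [LinearMap.rTensor_tmul, LinearMap.rTensor_tmul, LinearMap.rTensor_tmul,
        LinearMap.rTensor_tmul, h.nat]
    | add x y hx hy => simp only [map_add, hx, hy]
  refine ⟨hn, fun y => ?_, fun x hx => ?_⟩
  · induction y using TensorProduct.induction_on with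
    | zero => exact ⟨0, 0, by rw [map_zero, map_zero]⟩
    | tmul v q =>
      obtain ⟨n, x, hx⟩ := h.surj v
      exact ⟨n, x ⊗ₜ q, by rw [LinearMap.rTensor_pow, LinearMap.rTensor_tmul,
        LinearMap.rTensor_tmul, hx]⟩
    | add x y hx hy => exact surj_add hn hx hy
  · have h1 := Module.Flat.rTensor_exact (M := Q) (f := (LinearMap.ker f).subtype) (g := f)
      (LinearMap.exact_subtype_ker_map f)
    obtain ⟨w, rfl⟩ := (h1 x).1 hx
    clear hx
    induction w using TensorProduct.induction_on with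
    | zero => exact ⟨0, by rw [map_zero, map_zero]⟩
    | tmul v q =>
      obtain ⟨n, hv⟩ := h.inj v.1 v.2
      exact ⟨n, by rw [LinearMap.rTensor_pow, LinearMap.rTensor_tmul, LinearMap.rTensor_tmul,
        Submodule.subtype_apply, hv, TensorProduct.zero_tmul]⟩
    | add x y hx hy =>
      rw [map_add]
      exact tors_add hx hy

/-- Tensor products with a vector space, on the left. -/
theorem LocP.lTensor (h : LocP f t t') (Q : Type*) [AddCommGroup Q] [Module k Q] :
    LocP (LinearMap.lTensor Q f) (LinearMap.lTensor Q t) (LinearMap.lTensor Q t') := by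
  have hn : ∀ x, LinearMap.lTensor Q f (LinearMap.lTensor Q t x) =
      LinearMap.lTensor Q t' (LinearMap.lTensor Q f x) := by
    intro x
    induction x using TensorProduct.induction_on with
    | zero => simp only [map_zero]
    | tmul v q => rw [LinearMap.lTensor_tmul, LinearMap.lTensor_tmul, LinearMap.lTensor_tmul,
        LinearMap.lTensor_tmul, h.nat]
    | add x y hx hy => simp only [map_add, hx, hy]
  refine ⟨hn, fun y => ?_, fun x hx => ?_⟩
  · induction y using TensorProduct.induction_on with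
    | zero => exact ⟨0, 0, by rw [map_zero, map_zero]⟩
    | tmul q v =>
      obtain ⟨n, x, hx⟩ := h.surj v
      exact ⟨n, q ⊗ₜ x, by rw [LinearMap.lTensor_pow, LinearMap.lTensor_tmul,
        LinearMap.lTensor_tmul, hx]⟩
    | add x y hx hy => exact surj_add hn hx hy
  · have h1 := Module.Flat.lTensor_exact (M := Q) (f := (LinearMap.ker f).subtype) (g := f)
      (LinearMap.exact_subtype_ker_map f)
    obtain ⟨w, rfl⟩ := (h1 x).1 hx
    clear hx
    induction w using TensorProduct.induction_on with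
    | zero => exact ⟨0, by rw [map_zero, map_zero]⟩
    | tmul q v =>
      obtain ⟨n, hv⟩ := h.inj v.1 v.2
      exact ⟨n, by rw [LinearMap.lTensor_pow, LinearMap.lTensor_tmul, LinearMap.lTensor_tmul,
        Submodule.subtype_apply, hv, TensorProduct.tmul_zero]⟩
    | add x y hx hy =>
      rw [map_add]
      exact tors_add hx hy

end field

section tb

variable {k : Type u} [Field k] {A A' W C C' : DGA k}

/-- (6.1) Tensor products over a dg algebra, first variable. -/
theorem LocP.tbR {X : Bim A W} {X' : Bim A' W} {f : X.M →ₗ[k] X'.M} {t : X.M →ₗ[k] X.M}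
    {t' : X'.M →ₗ[k] X'.M} (h : LocP f t t') (hf : ∀ w x, f (X.r w x) = X'.r w (f x))
    (ht : ∀ w x, t (X.r w x) = X.r w (t x)) (ht' : ∀ w x, t' (X'.r w x) = X'.r w (t' x))
    (Q : Bim W C) {F : (tb X Q).M →ₗ[k] (tb X' Q).M} {T : (tb X Q).M →ₗ[k] (tb X Q).M}
    {T' : (tb X' Q).M →ₗ[k] (tb X' Q).M} (hF : ∀ x q, F (tm x q) = tm (f x) q)
    (hT : ∀ x q, T (tm x q) = tm (t x) q) (hT' : ∀ x q, T' (tm x q) = tm (t' x) q) :
    LocP F T T' := by
  have hc : ∀ {Y : Bim A W} {Y' : Bim A' W} (φ : Y.M →ₗ[k] Y'.M)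
      (_ : ∀ w x, φ (Y.r w x) = Y'.r w (φ x)) (e : Y.M ⊗[k] (W.A ⊗[k] Q.M)),
      LinearMap.rTensor Q.M φ (relMap Y Q e) =
        relMap Y' Q (LinearMap.rTensor (W.A ⊗[k] Q.M) φ e) := by
    intro Y Y' φ hφ e
    induction e using TensorProduct.induction_on with
    | zero => simp only [map_zero]
    | add x y hx hy => simp only [map_add, hx, hy]
    | tmul y z =>
      induction z using TensorProduct.induction_on with
      | zero => simp only [TensorProduct.tmul_zero, map_zero]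
      | add x y hx hy => simp only [TensorProduct.tmul_add, map_add, hx, hy]
      | tmul w q => rw [LinearMap.rTensor_tmul, relMap_tmul, relMap_tmul, map_sub,
          LinearMap.rTensor_tmul, LinearMap.rTensor_tmul, hφ]
  have hc2 : ∀ {A₀ : DGA k} {Y : Bim A₀ W} (φ : Y.M →ₗ[k] Y.M)
      (_ : ∀ w x, φ (Y.r w x) = Y.r w (φ x)) (e : Y.M ⊗[k] (W.A ⊗[k] Q.M)),
      relMap Y Q (LinearMap.rTensor (W.A ⊗[k] Q.M) φ e) =
        LinearMap.rTensor Q.M φ (relMap Y Q e) := by
    intro A₀ Y φ hφ e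
    induction e using TensorProduct.induction_on with
    | zero => simp only [map_zero]
    | add x y hx hy => simp only [map_add, hx, hy]
    | tmul y z =>
      induction z using TensorProduct.induction_on with
      | zero => simp only [TensorProduct.tmul_zero, map_zero]
      | add x y hx hy => simp only [TensorProduct.tmul_add, map_add, hx, hy]
      | tmul w q => rw [LinearMap.rTensor_tmul, relMap_tmul, relMap_tmul, map_sub,
          LinearMap.rTensor_tmul, LinearMap.rTensor_tmul, hφ]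
  have hmk : ∀ {A₀ : DGA k} (Y : Bim A₀ W) (x : Y.M ⊗[k] Q.M),
      (rel Y Q).mkQ x = 0 ↔ ∃ e, relMap Y Q e = x := by
    intro A₀ Y x
    rw [Submodule.mkQ_apply, Submodule.Quotient.mk_eq_zero]
    rfl
  have hall : ∀ {A₀ A₁ : DGA k} {Y : Bim A₀ W} {Y' : Bim A₁ W} (φ : Y.M →ₗ[k] Y'.M)
      (Φ : (tb Y Q).M →ₗ[k] (tb Y' Q).M) (_ : ∀ x q, Φ (tm x q) = tm (φ x) q)
      (x : Y.M ⊗[k] Q.M), Φ ((rel Y Q).mkQ x) = (rel Y' Q).mkQ (LinearMap.rTensor Q.M φ x) := by
    intro A₀ A₁ Y Y' φ Φ hΦ x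
    induction x using TensorProduct.induction_on with
    | zero =>
      rw [map_zero, map_zero, map_zero]
      exact map_zero Φ
    | add x y hx hy =>
      rw [map_add, map_add, map_add, ← hx, ← hy]
      exact map_add Φ _ _
    | tmul y q =>
      rw [LinearMap.rTensor_tmul]
      exact hΦ y q
  exact LocP.coker (h.rTensor Q.M) (h.rTensor (W.A ⊗[k] Q.M)) (R := relMap X Q)
    (R' := relMap X' Q) (hc f hf) (hc2 t ht) (hc2 t' ht')
    (Submodule.mkQ_surjective (rel X Q)) (Submodule.mkQ_surjective (rel X' Q))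
    (hmk X) (hmk X') (hall f F hF) (hall t T hT) (hall t' T' hT')

/-- (6.1) Tensor products over a dg algebra, second variable. -/
theorem LocP.tbL {Y : Bim W C} {Y' : Bim W C'} {f : Y.M →ₗ[k] Y'.M} {t : Y.M →ₗ[k] Y.M}
    {t' : Y'.M →ₗ[k] Y'.M} (h : LocP f t t') (hf : ∀ w x, f (Y.l w x) = Y'.l w (f x))
    (ht : ∀ w x, t (Y.l w x) = Y.l w (t x)) (ht' : ∀ w x, t' (Y'.l w x) = Y'.l w (t' x))
    (Q : Bim A W) {F : (tb Q Y).M →ₗ[k] (tb Q Y').M} {T : (tb Q Y).M →ₗ[k] (tb Q Y).M}
    {T' : (tb Q Y').M →ₗ[k] (tb Q Y').M} (hF : ∀ q x, F (tm q x) = tm q (f x))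
    (hT : ∀ q x, T (tm q x) = tm q (t x)) (hT' : ∀ q x, T' (tm q x) = tm q (t' x)) :
    LocP F T T' := by
  have hc : ∀ {C₀ C₁ : DGA k} {Z : Bim W C₀} {Z' : Bim W C₁} (φ : Z.M →ₗ[k] Z'.M)
      (_ : ∀ w x, φ (Z.l w x) = Z'.l w (φ x)) (e : Q.M ⊗[k] (W.A ⊗[k] Z.M)),
      LinearMap.lTensor Q.M φ (relMap Q Z e) =
        relMap Q Z' (LinearMap.lTensor Q.M (LinearMap.lTensor W.A φ) e) := by
    intro C₀ C₁ Z Z' φ hφ e
    induction e using TensorProduct.induction_on with
    | zero => simp only [map_zero]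
    | add x y hx hy => simp only [map_add, hx, hy]
    | tmul y z =>
      induction z using TensorProduct.induction_on with
      | zero => simp only [TensorProduct.tmul_zero, map_zero]
      | add x y hx hy => simp only [TensorProduct.tmul_add, map_add, hx, hy]
      | tmul w q => rw [LinearMap.lTensor_tmul, LinearMap.lTensor_tmul, relMap_tmul, relMap_tmul,
          map_sub, LinearMap.lTensor_tmul, LinearMap.lTensor_tmul, hφ]
  have hmk : ∀ {C₀ : DGA k} (Z : Bim W C₀) (x : Q.M ⊗[k] Z.M),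
      (rel Q Z).mkQ x = 0 ↔ ∃ e, relMap Q Z e = x := by
    intro C₀ Z x
    rw [Submodule.mkQ_apply, Submodule.Quotient.mk_eq_zero]
    rfl
  have hall : ∀ {C₀ C₁ : DGA k} {Z : Bim W C₀} {Z' : Bim W C₁} (φ : Z.M →ₗ[k] Z'.M)
      (Φ : (tb Q Z).M →ₗ[k] (tb Q Z').M) (_ : ∀ q x, Φ (tm q x) = tm q (φ x))
      (x : Q.M ⊗[k] Z.M), Φ ((rel Q Z).mkQ x) = (rel Q Z').mkQ (LinearMap.lTensor Q.M φ x) := by
    intro C₀ C₁ Z Z' φ Φ hΦ x
    induction x using TensorProduct.induction_on with
    | zero =>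
      rw [map_zero, map_zero, map_zero]
      exact map_zero Φ
    | add x y hx hy =>
      rw [map_add, map_add, map_add, ← hx, ← hy]
      exact map_add Φ _ _
    | tmul y q =>
      rw [LinearMap.lTensor_tmul]
      exact hΦ y q
  exact LocP.coker (h.lTensor Q.M) ((h.lTensor W.A).lTensor Q.M) (R := relMap Q Y)
    (R' := relMap Q Y') (hc f hf) (fun e => (hc t ht e).symm) (fun e => (hc t' ht' e).symm)
    (Submodule.mkQ_surjective (rel Q Y)) (Submodule.mkQ_surjective (rel Q Y'))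
    (hmk Y) (hmk Y') (hall f F hF) (hall t T hT) (hall t' T' hT')

end tb

end Pool.Agent.MP_6e5bed_ag_GG
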