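import Pool.Agent.Lib.MP_6e5bed_ag_GG.BB
import Pool.Agent.Lib.MP_6e5bed_ag_GG.TLoc
import Pool.Agent.Lib.MP_6e5bed_ag_PN.DAct

set_option autoImplicit false
set_option linter.unusedVariables false

/-!
# MP_6e5bed_ag, THEOREM G, section 5: the cohomology of dg bimodules over two rings

For `X : Bim (ring k R) (ring k R')` the algebra `R ⊗ R'ᵒᵖ` acts on `X` (`bact`, `bca`). For an
action `a : CAct D X` of an algebra `D` on a complex, `a.H j` is the cohomology of degree `j`, a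
module over `D`.
-/

noncomputable section

namespace Pool.Agent.MP_6e5bed_ag_GG

open Pool.Agent.MP_6e5bed_ag_NC Pool.Agent.MP_6e5bed_ag_PN
open Pool.Agent.MP_6e5bed_ag_NS (Cx CHom ringH)
open scoped TensorProduct

universe u

variable {k : Type u} [Field k]

/-! ### Actions of algebras on complexes -/

/-- An action of an algebra on a complex. -/
structure CAct (D : Type u) [Ring D] [Algebra k D] (X : Cx k) where
  φ : D →ₐ[k] Module.End k X.V
  deg : ∀ {j : ℤ} (b : D) {x : X.V}, X.dg.IsDeg j x → X.dg.IsDeg j (φ b x)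
  d : ∀ (b : D) (x : X.V), X.dg.d (φ b x) = φ b (X.dg.d x)

section act

variable {D : Type u} [Ring D] [Algebra k D] {X : Cx k} (a : CAct D X)

theorem chom_cyc {Y : Cx k} (f : CHom X Y) {x : X.V} (h : X.dg.d x = 0) :
    Y.dg.d (f.f x) = 0 := (f.d x).trans ((congrArg f.f h).trans (map_zero _))

theorem CAct.cyc (b : D) {x : X.V} (h : X.dg.d x = 0) : X.dg.d (a.φ b x) = 0 :=
  (a.d b x).trans ((congrArg (a.φ b) h).trans (map_zero _))

/-- the complex as a module -/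
def CAct.Md (a : CAct D X) : Type u := X.V

instance : AddCommGroup a.Md := X.grp

instance : Module k a.Md := X.mod

instance : Module D a.Md :=
  { smul := fun b x => a.φ b x
    one_smul := fun x => by
      change a.φ 1 x = x
      rw [map_one]
      rfl
    mul_smul := fun b c x => by
      change a.φ (b * c) x = a.φ b (a.φ c x)
      rw [map_mul]
      rfl
    smul_zero := fun b => map_zero (a.φ b)
    smul_add := fun b => map_add (a.φ b)
    add_smul := fun b c x => by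
      change a.φ (b + c) x = a.φ b x + a.φ c x
      rw [map_add]
      rfl
    zero_smul := fun x => by
      change a.φ 0 x = 0
      rw [map_zero]
      rfl }

theorem CAct.smul (b : D) (x : a.Md) : b • x = (a.φ b x : X.V) := rfl

instance : IsScalarTower k D a.Md :=
  ⟨fun c b x => by
    change a.φ (c • b) x = c • a.φ b x
    rw [map_smul]
    rfl⟩

/-- the cocycles of degree `j` -/
def CAct.Z (j : ℤ) : Submodule D a.Md where
  carrier := {x | X.dg.IsDeg j x ∧ X.dg.d x = 0}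
  zero_mem' := ⟨Dg.IsDeg.zero _, map_zero _⟩
  add_mem' := fun {x y} h h' =>
    ⟨Dg.IsDeg.add h.1 h'.1, (map_add X.dg.d x y).trans
      ((congrArg₂ (· + ·) h.2 h'.2).trans (add_zero (0 : X.V)))⟩
  smul_mem' := fun b x h => ⟨a.deg b h.1, (a.d b x).trans
    ((congrArg (a.φ b) h.2).trans (map_zero _))⟩

/-- the boundaries -/
def CAct.B : Submodule D a.Md where
  carrier := {x | ∃ y, X.dg.d y = x}
  zero_mem' := ⟨0, map_zero _⟩
  add_mem' := by
    rintro _ _ ⟨x, rfl⟩ ⟨y, rfl⟩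
    exact ⟨x + y, map_add _ _ _⟩
  smul_mem' := by
    rintro b _ ⟨x, rfl⟩
    exact ⟨a.φ b x, a.d b x⟩

/-- The cohomology of degree `j`. -/
abbrev CAct.H (j : ℤ) : Type u := a.Z j ⧸ a.B.comap (a.Z j).subtype

/-- The class of a cocycle. -/
def CAct.cl {j : ℤ} (x : X.V) (h1 : X.dg.IsDeg j x) (h2 : X.dg.d x = 0) : a.H j :=
  Submodule.Quotient.mk (p := a.B.comap (a.Z j).subtype) (⟨x, h1, h2⟩ : a.Z j)

theorem CAct.cl_surj {j : ℤ} (z : a.H j) :
    ∃ (x : X.V) (h1 : X.dg.IsDeg j x) (h2 : X.dg.d x = 0), z = a.cl x h1 h2 := by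
  obtain ⟨⟨x, h1, h2⟩, rfl⟩ := Submodule.Quotient.mk_surjective _ z
  exact ⟨x, h1, h2, rfl⟩

variable {a}

theorem CAct.cl_eq_zero {j : ℤ} {x : X.V} {h1 : X.dg.IsDeg j x} {h2 : X.dg.d x = 0} :
    a.cl x h1 h2 = 0 ↔ ∃ y, X.dg.d y = x :=
  Submodule.Quotient.mk_eq_zero (a.B.comap (a.Z j).subtype)

variable (a)

theorem CAct.cl_add {j : ℤ} {x y : X.V} (h1 : X.dg.IsDeg j x) (h2 : X.dg.d x = 0)
    (h3 : X.dg.IsDeg j y) (h4 : X.dg.d y = 0) : a.cl x h1 h2 + a.cl y h3 h4 =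
      a.cl (x + y) (h1.add h3) (by rw [map_add, h2, h4, add_zero]) := rfl

theorem CAct.cl_sub {j : ℤ} {x y : X.V} (h1 : X.dg.IsDeg j x) (h2 : X.dg.d x = 0)
    (h3 : X.dg.IsDeg j y) (h4 : X.dg.d y = 0) : a.cl x h1 h2 - a.cl y h3 h4 =
      a.cl (x - y) (h1.sub h3) (by rw [map_sub, h2, h4, sub_zero]) := rfl

theorem CAct.cl_ext {j : ℤ} {x y : X.V} {h1 : X.dg.IsDeg j x} {h2 : X.dg.d x = 0}
    {h3 : X.dg.IsDeg j y} {h4 : X.dg.d y = 0} (e : x = y) : a.cl x h1 h2 = a.cl y h3 h4 := by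
  subst e
  rfl

theorem CAct.smul_cl {j : ℤ} (b : D) {x : X.V} (h1 : X.dg.IsDeg j x)
    (h2 : X.dg.d x = 0) : b • a.cl x h1 h2 =
      a.cl (a.φ b x) (a.deg b h1) (a.cyc b h2) := rfl

theorem CAct.cl_congr {j : ℤ} {x y : X.V} (e : x = y) (h1 : X.dg.IsDeg j x)
    (h2 : X.dg.d x = 0) : a.cl x h1 h2 = a.cl y (e ▸ h1) (e ▸ h2) := by
  subst e
  rfl

variable {a}

theorem CAct.cl_eq {j : ℤ} {x y : X.V} {h1 : X.dg.IsDeg j x} {h2 : X.dg.d x = 0}
    {h3 : X.dg.IsDeg j y} {h4 : X.dg.d y = 0} : a.cl x h1 h2 = a.cl y h3 h4 ↔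
      ∃ z, X.dg.d z = x - y := by
  rw [← sub_eq_zero, CAct.cl_sub]
  exact CAct.cl_eq_zero

end act

section map

variable {D E : Type u} [Ring D] [Algebra k D] [Ring E] [Algebra k E] {X Y : Cx k}
  (a : CAct D X) (b : CAct E Y)

/-- The map of the cohomology, on cocycles. -/
def CAct.mapZ (f : CHom X Y) (j : ℤ) : a.Z j →ₗ[k] b.H j where
  toFun := fun x => b.cl (f.f x.1) (f.deg x.2.1) (chom_cyc f x.2.2)
  map_add' := fun x y => b.cl_congr (map_add f.f x.1 y.1) _ _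
  map_smul' := fun c x => b.cl_congr (map_smul f.f c x.1) _ _

/-- The map of the cohomology. -/
def CAct.map (f : CHom X Y) (j : ℤ) : a.H j →ₗ[k] b.H j :=
  Submodule.liftQ ((a.B.comap (a.Z j).subtype).restrictScalars k) (a.mapZ b f j) (fun x hx => by
    obtain ⟨y, hy⟩ := hx
    refine (CAct.cl_eq_zero (a := b) (h1 := f.deg x.2.1) (h2 := chom_cyc f x.2.2)).2 ⟨f.f y, ?_⟩
    exact (f.d y).trans (congrArg f.f hy))

theorem CAct.map_cl (f : CHom X Y) {j : ℤ} {x : X.V} (h1 : X.dg.IsDeg j x)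
    (h2 : X.dg.d x = 0) : a.map b f j (a.cl x h1 h2) =
      b.cl (f.f x) (f.deg h1) (chom_cyc f h2) := rfl

end map

/-! ### Bimodules over two rings -/

section ring

variable {R R' : Type u} [Ring R] [Algebra k R] [Ring R'] [Algebra k R']

theorem ring_s (a : R) : (ring k R).dg.s a = a := Dg.conc_s a

theorem ring_sp (n : ℤ) (a : R) : (ring k R).dg.sp n a = a := by
  unfold Dg.sp
  split_ifs
  · rfl
  · exact ring_s a

/-- The left action, as a homomorphism of algebras. -/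
def blact (X : Bim (ring k R) (ring k R')) : R →ₐ[k] Module.End k X.M :=
  AlgHom.ofLinearMap X.l (LinearMap.ext X.l_one) (fun a b => LinearMap.ext (X.l_mul a b))

/-- The right action, as a homomorphism of algebras. -/
def bract (X : Bim (ring k R) (ring k R')) : R'ᵐᵒᵖ →ₐ[k] Module.End k X.M :=
  AlgHom.ofLinearMap ((show R' →ₗ[k] X.M →ₗ[k] X.M from X.r) ∘ₗ
    (MulOpposite.opLinearEquiv k : R' ≃ₗ[k] R'ᵐᵒᵖ).symm.toLinearMap)
    (LinearMap.ext X.r_one) (fun a b => LinearMap.ext (X.r_mul b.unop a.unop))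

/-- The action of `R ⊗ R'ᵒᵖ` on a bimodule. -/
def bact (X : Bim (ring k R) (ring k R')) : R ⊗[k] R'ᵐᵒᵖ →ₐ[k] Module.End k X.M :=
  Algebra.TensorProduct.lift (blact X) (bract X)
    (fun a b => LinearMap.ext (fun x => X.l_r a b.unop x))

variable (X : Bim (ring k R) (ring k R'))

theorem bact_tmul (a : R) (b : R'ᵐᵒᵖ) (x : X.M) :
    bact X (a ⊗ₜ[k] b) x = X.l a (X.r b.unop x) := rfl

theorem bact_l (a : R) (x : X.M) : bact X (a ⊗ₜ[k] 1) x = X.l a x :=
  congrArg (X.l a) (X.r_one x)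

theorem bact_r (b : R'ᵐᵒᵖ) (x : X.M) : bact X (1 ⊗ₜ[k] b) x = X.r b.unop x := X.l_one _

theorem bim_l_d (a : R) (x : X.M) : X.dg.d (X.l a x) = X.l a (X.dg.d x) := by
  rw [X.d_l]
  have h1 : (ring k R).dg.d a = 0 := rfl
  have h2 : (ring k R).dg.s a = a := ring_s a
  rw [h1, h2, map_zero, LinearMap.zero_apply, zero_add]

theorem bim_r_d (b : R') (x : X.M) : X.dg.d (X.r b x) = X.r b (X.dg.d x) := by
  rw [X.d_r]
  have h1 : (ring k R').dg.d b = 0 := rfl
  rw [h1, map_zero, LinearMap.zero_apply, add_zero]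

theorem bim_l_deg {j : ℤ} (a : R) {x : X.M} (h : X.dg.IsDeg j x) : X.dg.IsDeg j (X.l a x) := by
  have h1 := X.l_deg (a := a) (Dg.conc_deg (k := k) a) h
  rwa [zero_add] at h1

theorem bim_r_deg {j : ℤ} (b : R') {x : X.M} (h : X.dg.IsDeg j x) : X.dg.IsDeg j (X.r b x) := by
  have h1 := X.r_deg (b := b) h (Dg.conc_deg (k := k) b)
  rwa [add_zero] at h1

theorem bact_d (b : R ⊗[k] R'ᵐᵒᵖ) (x : X.M) : X.dg.d (bact X b x) = bact X b (X.dg.d x) := by
  induction b using TensorProduct.induction_on with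
  | zero => simp only [map_zero, LinearMap.zero_apply]
  | tmul a b => rw [bact_tmul, bact_tmul, bim_l_d, bim_r_d]
  | add a b ha hb => simp only [map_add, LinearMap.add_apply, ha, hb]

theorem bact_deg {j : ℤ} (b : R ⊗[k] R'ᵐᵒᵖ) {x : X.M} (h : X.dg.IsDeg j x) :
    X.dg.IsDeg j (bact X b x) := by
  induction b using TensorProduct.induction_on with
  | zero =>
    rw [map_zero, LinearMap.zero_apply]
    exact Dg.IsDeg.zero _
  | tmul a b =>
    rw [bact_tmul]
    exact bim_l_deg X a (bim_r_deg X b.unop h)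
  | add a b ha hb =>
    rw [map_add, LinearMap.add_apply]
    exact ha.add hb

/-- the action as a morphism of complexes -/
def bactH (b : R ⊗[k] R'ᵐᵒᵖ) : CHom (bcx X) (bcx X) := ⟨bact X b, bact_deg X b, bact_d X b⟩

theorem bact_ρ (b : R ⊗[k] R'ᵐᵒᵖ) (x : X.M) (j : ℤ) :
    X.dg.ρ (bact X b x) j = bact X b (X.dg.ρ x j) := ρ_hom (bactH X b) x j

/-- the action of `R ⊗ R'ᵒᵖ` -/
def bca : CAct (R ⊗[k] R'ᵐᵒᵖ) (bcx X) := ⟨bact X, bact_deg X, bact_d X⟩

end ring

end Pool.Agent.MP_6e5bed_ag_GG
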