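import Pool.Agent.Lib.MP_6e5bed_ag_GG.Cb

set_option autoImplicit false
set_option linter.unusedVariables false

/-!
# MP_6e5bed_ag, THEOREM G, section (5.1): the cohomology bisheaves of a complex of bisheaves
-/

noncomputable section

namespace Pool.Agent.MP_6e5bed_ag_GG

open Pool.Agent.MP_6e5bed_ag_NC Pool.Agent.MP_6e5bed_ag_PN
open Pool.Agent.MP_6e5bed_ag_NS (Cx CHom ringH)
open scoped TensorProduct

universe u

variable {k : Type u} [Field k]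

/-! ### Localisations and cohomology -/

section loc

variable {X Y : Cx k} {f : CHom X Y} {t : CHom X X} {t' : CHom Y Y}

/-- the powers of an endomorphism of a complex -/
theorem CHom_pow_d (t : CHom X X) (n : ℕ) (x : X.V) : X.dg.d ((t.f ^ n) x) =
    (t.f ^ n) (X.dg.d x) := inter_pow (R := X.dg.d) (fun y => t.d y) n x

theorem CHom_pow_deg (t : CHom X X) (n : ℕ) {j : ℤ} {x : X.V} (h : X.dg.IsDeg j x) :
    X.dg.IsDeg j ((t.f ^ n) x) := by
  induction n with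
  | zero => exact h
  | succ n ih =>
    rw [pow_succ', Module.End.mul_apply]
    exact t.deg ih

theorem LocP.coh_surj (h : LocP f.f t.f t'.f) {j : ℤ} {y : Y.V} (h1 : Y.dg.IsDeg j y)
    (h2 : Y.dg.d y = 0) : ∃ (n : ℕ) (x : X.V), X.dg.IsDeg j x ∧ X.dg.d x = 0 ∧
      f.f x = (t'.f ^ n) y := by
  obtain ⟨n, x, hx⟩ := h.surj y
  obtain ⟨x, hx1, hx⟩ := exists_deg_hom ⟨x, hx⟩ (CHom_pow_deg t' n h1)
  have h3 : f.f (X.dg.d x) = 0 := by
    rw [← f.d, hx, CHom_pow_d, h2, map_zero]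
  obtain ⟨m, hm⟩ := h.inj _ h3
  refine ⟨m + n, (t.f ^ m) x, CHom_pow_deg t m hx1, ?_, ?_⟩
  · rw [CHom_pow_d, hm]
  · rw [h.nat_pow, hx, pow_add, Module.End.mul_apply]

theorem LocP.coh_inj (h : LocP f.f t.f t'.f) {x : X.V} {y : Y.V} (hy : Y.dg.d y = f.f x) :
    ∃ (n : ℕ) (z : X.V), X.dg.d z = (t.f ^ n) x := by
  obtain ⟨n, z, hz⟩ := h.surj y
  have h3 : f.f ((t.f ^ n) x - X.dg.d z) = 0 := by
    rw [map_sub, h.nat_pow, ← f.d, hz, CHom_pow_d, hy, sub_self]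
  obtain ⟨m, hm⟩ := h.inj _ h3
  refine ⟨m + n, (t.f ^ m) z, ?_⟩
  rw [map_sub, sub_eq_zero] at hm
  rw [CHom_pow_d, ← hm, pow_add, Module.End.mul_apply]

end loc

variable {i j : Type} [Fintype i] [Fintype j] {A : CA k i} {A' : CA k j}

/-- the action of `A_c ⊗ A'_{c'}ᵒᵖ` -/
def BPB.ca (F : BPB A A') (p : Ch i × Ch j) : CAct (bsB A A' p) (bcx (F.F p)) := bca (F.F p)

/-- the restriction, as a morphism of complexes -/
def BPB.rho (F : BPB A A') {p q : Ch i × Ch j} (h : p ≤ q) : CHom (bcx (F.F p)) (bcx (F.F q)) :=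
  gch (F.ρ h) (F.dd h)

theorem BPB.rho_f (F : BPB A A') {p q : Ch i × Ch j} (h : p ≤ q) (x : (F.F p).M) :
    (F.rho h).f x = (F.ρ h).f x := rfl

theorem BPB.rho_act (F : BPB A A') {p q : Ch i × Ch j} (h : p ≤ q) (b : bsB A A' p)
    (x : (F.F p).M) :
    (F.rho h).f (bact (F.F p) b x) = bact (F.F q) (bsr A A' h b) ((F.rho h).f x) := by
  induction b using TensorProduct.induction_on with
  | zero =>
    rw [map_zero, map_zero, map_zero]
    exact map_zero (F.rho h).f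
  | tmul a b =>
    rw [bact_tmul, bsr_tmul, bact_tmul]
    refine (gm_l (F.ρ h) a _).trans ?_
    exact congrArg ((F.F q).l (A.res h.1 a)) (gm_r (F.ρ h) b.unop x)
  | add a b ha hb =>
    rw [map_add, map_add, map_add]
    exact (map_add (F.rho h).f _ _).trans (congrArg₂ (· + ·) ha hb)

/-- Quasi-coherence: the values on the charts are related by localisation. -/
def BPB.QC (F : BPB A A') : Prop := ∀ {p q : Ch i × Ch j} {t : bsB A A' p}
  (h : bsLoc A A' p q t), LocP (F.rho h.1).f (bact (F.F p) t) (bact (F.F q) (bsr A A' h.1 t))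

/-- quasi-coherence, elementwise -/
theorem BPB.QC.of (F : BPB A A')
    (h1 : ∀ {p q : Ch i × Ch j} {t : bsB A A' p} (h : bsLoc A A' p q t) (y : (F.F q).M),
      ∃ (n : ℕ) (x : (F.F p).M), (F.rho h.1).f x = (bact (F.F q) (bsr A A' h.1 t) ^ n) y)
    (h2 : ∀ {p q : Ch i × Ch j} {t : bsB A A' p} (h : bsLoc A A' p q t) (x : (F.F p).M),
      (F.rho h.1).f x = 0 → ∃ n : ℕ, (bact (F.F p) t ^ n) x = 0) : F.QC :=
  fun h => ⟨F.rho_act h.1 _, h1 h, h2 h⟩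

/-- The cohomology bisheaf of degree `n` of a quasi-coherent complex of bisheaves. -/
def BPB.H (F : BPB A A') (hQ : F.QC) (n : ℤ) : BS A A' where
  E := fun p => (F.ca p).H n
  grp := fun p => inferInstance
  modk := fun p => inferInstance
  mod := fun p => (inferInstance : Module (bsB A A' p) ((F.ca p).H n))
  tow := fun p => (inferInstance : IsScalarTower k (bsB A A' p) ((F.ca p).H n))
  res := fun {p q} h => (F.ca p).map (F.ca q) (F.rho h) n
  res_smul := fun {p q} h b x => by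
    obtain ⟨x, h1, h2, rfl⟩ := (F.ca p).cl_surj x
    exact (F.ca q).cl_ext (h1 := (F.rho h).deg ((F.ca p).deg b h1))
      (h2 := chom_cyc _ ((F.ca p).cyc b h2)) (h3 := (F.ca q).deg _ ((F.rho h).deg h1))
      (h4 := (F.ca q).cyc _ (chom_cyc _ h2)) (F.rho_act h b x)
  res_id := fun {p} h x => by
    obtain ⟨x, h1, h2, rfl⟩ := (F.ca p).cl_surj x
    exact (F.ca p).cl_ext (h1 := (F.rho h).deg h1) (h2 := chom_cyc _ h2) (F.ρ_id h x)
  res_res := fun {p q s} h h' x => by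
    obtain ⟨x, h1, h2, rfl⟩ := (F.ca p).cl_surj x
    exact (F.ca s).cl_ext (h1 := (F.rho h').deg ((F.rho h).deg h1))
      (h2 := chom_cyc _ (chom_cyc _ h2)) (h3 := (F.rho _).deg h1) (h4 := chom_cyc _ h2)
      (F.ρ_ρ h h' x)
  surj := fun {p q t} h y => by
    obtain ⟨y, h1, h2, rfl⟩ := (F.ca q).cl_surj y
    obtain ⟨m, x, hx1, hx2, hx⟩ := LocP.coh_surj (t := bactH (F.F p) t)
      (t' := bactH (F.F q) (bsr A A' h.1 t)) (hQ h) h1 h2
    refine ⟨m, (F.ca p).cl x hx1 hx2, ?_⟩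
    refine (F.ca q).cl_ext (h1 := (F.rho h.1).deg hx1) (h2 := chom_cyc _ hx2)
      (h3 := (F.ca q).deg _ h1) (h4 := (F.ca q).cyc _ h2) (hx.trans ?_)
    exact congrArg (fun φ : Module.End k (F.F q).M => φ y)
      (map_pow (bact (F.F q)) (bsr A A' h.1 t) m).symm
  inj := fun {p q t} h x hx => by
    obtain ⟨x, h1, h2, rfl⟩ := (F.ca p).cl_surj x
    obtain ⟨y, hy⟩ := (CAct.cl_eq_zero (a := F.ca q) (h1 := (F.rho h.1).deg h1)
      (h2 := chom_cyc _ h2)).1 hx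
    obtain ⟨m, z, hz⟩ := LocP.coh_inj (t := bactH (F.F p) t)
      (t' := bactH (F.F q) (bsr A A' h.1 t)) (hQ h) hy
    refine ⟨m, (CAct.cl_eq_zero (a := F.ca p) (h1 := (F.ca p).deg _ h1)
      (h2 := (F.ca p).cyc _ h2)).2 ⟨z, hz.trans ?_⟩⟩
    exact congrArg (fun φ : Module.End k (F.F p).M => φ x) (map_pow (bact (F.F p)) t m).symm

section H

variable {F : BPB A A'} {hQ : F.QC} {n : ℤ}

/-- The class of a cocycle. -/
def BPB.cl (F : BPB A A') (hQ : F.QC) (n : ℤ) {p : Ch i × Ch j} (x : (F.F p).M)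
    (h1 : (F.F p).dg.IsDeg n x) (h2 : (F.F p).dg.d x = 0) : (F.H hQ n).E p :=
  (F.ca p).cl x h1 h2

theorem BPB.cl_surj {p : Ch i × Ch j} (z : (F.H hQ n).E p) : ∃ (x : (F.F p).M)
    (h1 : (F.F p).dg.IsDeg n x) (h2 : (F.F p).dg.d x = 0), z = F.cl hQ n x h1 h2 :=
  (F.ca p).cl_surj z

theorem BPB.cl_eq_zero {p : Ch i × Ch j} {x : (F.F p).M} {h1 : (F.F p).dg.IsDeg n x}
    {h2 : (F.F p).dg.d x = 0} : F.cl hQ n x h1 h2 = 0 ↔ ∃ y, (F.F p).dg.d y = x :=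
  CAct.cl_eq_zero

theorem BPB.cl_eq {p : Ch i × Ch j} {x y : (F.F p).M} {h1 : (F.F p).dg.IsDeg n x}
    {h2 : (F.F p).dg.d x = 0} {h3 : (F.F p).dg.IsDeg n y} {h4 : (F.F p).dg.d y = 0} :
    F.cl hQ n x h1 h2 = F.cl hQ n y h3 h4 ↔ ∃ z, (F.F p).dg.d z = x - y :=
  CAct.cl_eq

theorem BPB.cl_congr {p : Ch i × Ch j} {x y : (F.F p).M} (e : x = y)
    (h1 : (F.F p).dg.IsDeg n x) (h2 : (F.F p).dg.d x = 0) :
    F.cl hQ n x h1 h2 = F.cl hQ n y (e ▸ h1) (e ▸ h2) := by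
  subst e
  rfl

theorem BPB.cl_add {p : Ch i × Ch j} {x y : (F.F p).M} (h1 : (F.F p).dg.IsDeg n x)
    (h2 : (F.F p).dg.d x = 0) (h3 : (F.F p).dg.IsDeg n y) (h4 : (F.F p).dg.d y = 0) :
    F.cl hQ n x h1 h2 + F.cl hQ n y h3 h4 =
      F.cl hQ n (x + y) (h1.add h3) (by rw [map_add, h2, h4, add_zero]) := rfl

theorem BPB.smul_cl {p : Ch i × Ch j} (b : A.A p.1 ⊗[k] (A'.A p.2)ᵐᵒᵖ) {x : (F.F p).M}
    (h1 : (F.F p).dg.IsDeg n x) (h2 : (F.F p).dg.d x = 0) :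
    b • F.cl hQ n x h1 h2 = F.cl hQ n (bact (F.F p) b x) (bact_deg _ b h1)
      (by rw [bact_d, h2, map_zero]) := rfl

theorem BPB.res_cl {p q : Ch i × Ch j} (h : p ≤ q) {x : (F.F p).M}
    (h1 : (F.F p).dg.IsDeg n x) (h2 : (F.F p).dg.d x = 0) :
    (F.H hQ n).res h (F.cl hQ n x h1 h2) = F.cl hQ n ((F.rho h).f x) ((F.rho h).deg h1)
      (((F.rho h).d x).trans ((congrArg _ h2).trans (map_zero _))) := rfl

end H

end Pool.Agent.MP_6e5bed_ag_GG
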