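import Pool.Agent.Lib.MP_6e5bed_ag_GG.S5

set_option autoImplicit false
set_option linter.unusedVariables false

/-!
# MP_6e5bed_ag, THEOREM G, section 5: complexes of bisheaves with coherent cohomology
-/

noncomputable section

namespace Pool.Agent.MP_6e5bed_ag_GG

open Pool.Agent.MP_6e5bed_ag_NC Pool.Agent.MP_6e5bed_ag_PN
open Pool.Agent.MP_6e5bed_ag_NS (Cx CHom ringH)
open scoped TensorProduct

universe u

variable {k : Type u} [Field k] {i j : Type} [Fintype i] [Fintype j] {A : CA k i} {A' : CA k j}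

/-- The action of the tensor product of the coordinate rings. -/
def BPB.dact (F : BPB A A') (p : Ch i × Ch j) :
    DAct (RR k p.1.1 ⊗[k] RR k p.2.1) (bcx (F.F p)) where
  φ := (bact (F.F p)).comp (rB A A' p)
  deg := fun r _ hx => bact_deg (F.F p) (rB A A' p r) hx
  d := fun r x => bact_d (F.F p) (rB A A' p r) x

theorem BPB.dact_φ (F : BPB A A') (p : Ch i × Ch j) (r : RR k p.1.1 ⊗[k] RR k p.2.1)
    (x : (F.F p).M) : (F.dact p).φ r x = bact (F.F p) (rB A A' p r) x := rfl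

/-- The total cohomology of every chart is a finitely generated module over the tensor product of
the coordinate rings. -/
def BPB.CohF (F : BPB A A') : Prop := ∀ p, (F.dact p).FGt

/-- the cohomology is coherent -/
theorem BPB.CohF.coh {F : BPB A A'} (h : F.CohF) (hQ : F.QC) (n : ℤ) : (F.H hQ n).Coh := by
  intro p
  obtain ⟨m, s, hs, hs'⟩ := DAct.FG.of_FGt (h p) n
  let t : Fin m → (F.ca p).H n := fun l => (F.ca p).cl (s l) (hs l).1 (hs l).2
  have ht : Submodule.span (bsB A A' p) (Set.range t) = ⊤ := by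
    refine eq_top_iff.2 (fun z _ => ?_)
    obtain ⟨x, h1, h2, rfl⟩ := (F.ca p).cl_surj z
    obtain ⟨r, y, hy⟩ := hs' x ⟨h1, h2⟩
    have hsum : ∀ (S : Finset (Fin m)), ∃ (h3 : (bcx (F.F p)).dg.IsDeg n
        (∑ l ∈ S, (F.dact p).φ (r l) (s l))) (h4 : (bcx (F.F p)).dg.d
        (∑ l ∈ S, (F.dact p).φ (r l) (s l)) = 0),
        (F.ca p).cl (∑ l ∈ S, (F.dact p).φ (r l) (s l)) h3 h4 =
          ∑ l ∈ S, rB A A' p (r l) • t l := by
      classical
      intro S
      induction S using Finset.induction_on with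
      | empty =>
        refine ⟨?_, ?_, ?_⟩
        · rw [Finset.sum_empty]
          exact Dg.IsDeg.zero _
        · rw [Finset.sum_empty, map_zero]
        · refine Eq.trans ?_ Finset.sum_empty.symm
          exact CAct.cl_eq_zero.2 ⟨0, by rw [map_zero, Finset.sum_empty]⟩
      | insert l S hl ih =>
        obtain ⟨h3, h4, h5⟩ := ih
        have h3' := (F.dact p).deg (r l) (hs l).1
        have h4' : (bcx (F.F p)).dg.d ((F.dact p).φ (r l) (s l)) = 0 :=
          (F.ca p).cyc _ (hs l).2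
        refine ⟨?_, ?_, ?_⟩
        · rw [Finset.sum_insert hl]
          exact h3'.add h3
        · rw [Finset.sum_insert hl, map_add, h4, h4', add_zero]
        · refine Eq.trans ?_ (Finset.sum_insert hl).symm
          rw [← h5]
          exact CAct.cl_ext (a := F.ca p) (h3 := h3'.add h3) (h4 := cyc_add h4' h4)
            (Finset.sum_insert hl)
    obtain ⟨h3, h4, h5⟩ := hsum Finset.univ
    have h6 : (F.ca p).cl x h1 h2 = ∑ l, rB A A' p (r l) • t l := by
      rw [← h5]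
      exact CAct.cl_eq.2 ⟨y, hy⟩
    rw [h6]
    exact Submodule.sum_mem _ (fun l _ => Submodule.smul_mem _ _
      (Submodule.subset_span ⟨l, rfl⟩))
  exact ⟨Submodule.fg_def.2 ⟨Set.range t, Set.finite_range t, ht⟩⟩

/-- the cohomology is bounded on a chart -/
theorem fgt_bd {D : Type*} [CommRing D] [Algebra k D] {X : Cx k} {a : DAct D X} (h : a.FGt) :
    ∃ N : ℕ, ExIn X (fun l => l ≤ -(N : ℤ)) ∧ ExIn X (fun l => (N : ℤ) < l) := by
  classical
  obtain ⟨m, s, hs, hs'⟩ := h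
  obtain ⟨N, hN⟩ : ∃ N : ℕ, ∀ l, ∀ e ∈ (X.dg.ρ (s l)).support, |e| < (N : ℤ) := by
    let T : Finset ℤ := Finset.univ.biUnion (fun l => (X.dg.ρ (s l)).support)
    refine ⟨T.sum (fun e => e.natAbs) + 1, fun l e he => ?_⟩
    have h1 : e ∈ T := Finset.mem_biUnion.2 ⟨l, Finset.mem_univ l, he⟩
    have h2 : e.natAbs ≤ T.sum (fun e => e.natAbs) :=
      Finset.single_le_sum (f := fun e : ℤ => e.natAbs) (fun _ _ => Nat.zero_le _) h1
    rw [Int.abs_eq_natAbs]
    exact Int.ofNat_lt.2 (Nat.lt_succ_of_le h2)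
  have key : ∀ l x, (N : ℤ) ≤ |l| → X.dg.IsDeg l x → X.dg.d x = 0 → ∃ y, X.dg.d y = x := by
    intro l x hl h1 h2
    obtain ⟨r, y, hy⟩ := hs' x h2
    refine ⟨X.dg.ρ y (l - 1), ?_⟩
    rw [← ρ_d', hy, ρ_sub, ρ_self h1]
    have h3 : X.dg.ρ (∑ e, a.φ (r e) (s e)) l = 0 := by
      rw [map_sum, Finsupp.finsetSum_apply]
      refine Finset.sum_eq_zero (fun e _ => ?_)
      have h4 : X.dg.ρ (a.φ (r e) (s e)) l = a.φ (r e) (X.dg.ρ (s e) l) :=
        ρ_hom (Y := X) ⟨a.φ (r e), fun h => a.deg (r e) h, a.d (r e)⟩ (s e) l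
      have h5 : X.dg.ρ (s e) l = 0 := by
        by_contra hc
        have := hN e l (Finsupp.mem_support_iff.2 hc)
        omega
      rw [h4, h5, map_zero]
    rw [h3, sub_zero]
  refine ⟨N, fun l x hl h1 h2 => key l x ?_ h1 h2, fun l x hl h1 h2 => key l x ?_ h1 h2⟩
  · have h3 := neg_abs_le l
    omega
  · have h3 := le_abs_self l
    omega

theorem BPB.CohF.bd {F : BPB A A'} (h : F.CohF) : ∃ m n : ℤ, F.Bd m n := by
  classical
  choose N h1 h2 using fun p => fgt_bd (h p)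
  have hfi : Finite (Ch i × Ch j) := inferInstance
  obtain ⟨B, hB⟩ : ∃ B : ℕ, ∀ p, N p ≤ B := by
    obtain ⟨B, hB⟩ := (Set.finite_range N).bddAbove
    exact ⟨B, fun p => hB ⟨p, rfl⟩⟩
  refine ⟨-(B : ℤ), B, fun p => ⟨fun l x hl => h1 p l x ?_, fun l x hl => h2 p l x ?_⟩⟩
  · have h3 := hB p
    change l ≤ -(N p : ℤ)
    omega
  · have h3 := hB p
    change (N p : ℤ) < l
    omega

end Pool.Agent.MP_6e5bed_ag_GG
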