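import Pool.Agent.Lib.MP_6e5bed_ag_GG.CompA
import Pool.Agent.Lib.MP_6e5bed_ag_GG.BB
import Pool.Agent.Lib.MP_6e5bed_ag_PN.ExtP

set_option autoImplicit false
set_option linter.unusedVariables false

/-!
# MP_6e5bed_ag, THEOREM G, (6.3): the class of the composition
-/

noncomputable section

namespace Pool.Agent.MP_6e5bed_ag_GG

open Pool.Agent.MP_6e5bed_ag_NC Pool.Agent.MP_6e5bed_ag_NS Pool.Agent.MP_6e5bed_ag_PN
open Pool.Agent.MP_6e5bed_ag_PS

universe u

variable {k : Type u} [Field k] {i : Type} [Fintype i] {A : CA k i} {W : DGA k}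

/-- The class of the double Čech complex of `X_c ⊗_W V ⊗_W Y_c'`. -/
theorem cmp_mem {Good : DGA k → Prop} (hW : SPJ Good W) (hS : Smooth (TT A))
    (X : PB A.pa (PA.con i W)) (Y : PB (PA.con i W) A.pa)
    (hX : (cBR X (LL i) (FS.e i)).dg.FinCoh) (hY : (cBL Y (LL i) (FS.e i)).dg.FinCoh)
    {V : Bim W W} (hV : Perf V) {w : GMap 0 V (diag W)} (hw : QIso w)
    (h : HasRes (cB2 (PB.ext X (PB.tbL V Y)) (LL i) (FS.e i) (LL i) (FS.e i))) :
    rcls _ h ∈ JS Good (TT A) := by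
  have sW : Smooth W := hW.choose
  have rX : HasRes (cBR X (LL i) (FS.e i)) := HasRes.of_finCoh hS sW _ hX
  have rY : HasRes (cBL Y (LL i) (FS.e i)) := HasRes.of_finCoh sW hS _ hY
  have b := ext_biso3 X V Y (LL i) (FS.e i) (LL i) (FS.e i)
  have h1 : HasRes (tb (cBR X (LL i) (FS.e i)) (tb V (cBL Y (LL i) (FS.e i)))) := h.iso b.symm
  rw [← rcls_iso b h1 h]
  exact mem_JS_tb hW rX rY hV hw h1

end Pool.Agent.MP_6e5bed_ag_GG
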