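import Pool.Agent.Lib.MP_6e5bed_ag_PS.SPJ

set_option autoImplicit false
set_option linter.unusedVariables false

/-!
# MP_6e5bed_ag, THEOREM G: classes of tensor products over a dg algebra in `SPJ Good`
-/

noncomputable section

namespace Pool.Agent.MP_6e5bed_ag_GG

open Pool.Agent.MP_6e5bed_ag_NC Pool.Agent.MP_6e5bed_ag_NS Pool.Agent.MP_6e5bed_ag_PS

universe u

variable {k : Type u} [Field k] {T W W' D : DGA k}

/-- `X ⊗_W (W ⊗ W')` is flat. -/
theorem rflat_tb_free (X : Bim T W) (W' : DGA k) {Y : Bim W' D} (hY : Acyc Y) :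
    Acyc (tb (tb X (free W W')) Y) := by
  have h1 : BIso (tb X (free W W')) (tb (fgR X) (free (base k) W')) := tb_free_right X W'
  have h2 : BIso (tb (tb X (free W W')) Y) (tb (tb (fgR X) (free (base k) W')) Y) :=
    (tbR T Y).biso h1
  have h3 : BIso (tb (tb (fgR X) (free (base k) W')) Y)
      (tb (fgR X) (tb (free (base k) W') Y)) := tb_assoc _ _ _
  have h4 : RAc Y := by
    have h5 : Acyc (und Y) := hY
    exact contr_of_acyc h5
  have h5 : Acyc (tb (free (base k) W') Y) := by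
    have h6 : RAc (tb (free (base k) W') Y) := clos_freeL (base k) h4
    have h7 : Acyc (und (tb (free (base k) W') Y)) := h6.acyc
    exact h7
  exact Acyc.iso (h2.trans h3).symm (rflat_base (fgR X) D _ h5)

/-- `X ⊗_W P` is flat if `P` is perfect. -/
theorem rflat_tb_perf (X : Bim T W) {P : Bim W W'} (hP : Perf P) : RFlat (tb X P) := by
  intro D Y hY
  induction hP with
  | free => exact rflat_tb_free X W' hY
  | contr h => exact (((MP_6e5bed_ag_NC.tbL X W').comp (MP_6e5bed_ag_NC.tbR T Y)).contr h).acyc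
  | mid h _ _ h1 h2 =>
    exact Acyc.mid (((MP_6e5bed_ag_NC.tbL X W').comp (MP_6e5bed_ag_NC.tbR T Y)).isExt h) h1 h2
  | left h _ _ h1 h2 =>
    exact Acyc.left (((MP_6e5bed_ag_NC.tbL X W').comp (MP_6e5bed_ag_NC.tbR T Y)).isExt h) h1 h2
  | right h _ _ h1 h2 =>
    exact Acyc.right (((MP_6e5bed_ag_NC.tbL X W').comp (MP_6e5bed_ag_NC.tbR T Y)).isExt h) h1 h2
  | summand h _ h1 =>
    exact Acyc.summand (((MP_6e5bed_ag_NC.tbL X W').comp
      (MP_6e5bed_ag_NC.tbR T Y)).isSummand h) h1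

/-- A dg bimodule `X ⊗_W W^ ⊗_W Y`, with `W^` a perfect resolution of the diagonal and `W` in
`SPJ Good`, has its class in `JS Good T`. -/
theorem mem_JS_tb {Good : DGA k → Prop} (hW : SPJ Good W) {X : Bim T W} {Y : Bim W T}
    (hX : HasRes X) (hY : HasRes Y) {P : Bim W W} (hP : Perf P) {w : GMap 0 P (diag W)}
    (hw : QIso w) (h : HasRes (tb X (tb P Y))) : rcls _ h ∈ JS Good T := by
  obtain ⟨sW, pW, hone⟩ := hW
  obtain ⟨g, hg⟩ := qiso_tbL_diag hP hw X
  have h1 : HasRes (tb X P) := hX.of_qiso' g hg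
  have h2 : BIso (tb (tb X P) Y) (tb X (tb P Y)) := tb_assoc X P Y
  have h3 : HasRes (tb (tb X P) Y) := h.iso h2.symm
  rw [← rcls_iso h2 h3 h]
  exact JS.trans (Good := fun X => X = W) T (fun Z hZ => by subst hZ; exact ⟨sW, pW, hone⟩)
    (JS.tb (Good := fun X => X = W) pW rfl h1 hY (rflat_tb_perf X hP) h3)

end Pool.Agent.MP_6e5bed_ag_GG
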