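import Pool.Agent.Lib.MP_6e5bed_ag_GG.DgL
import Pool.Agent.Lib.MP_6e5bed_ag_GG.Gd

set_option autoImplicit false
set_option linter.unusedVariables false

/-!
# MP_6e5bed_ag, THEOREM G: Kimura-finiteness from the main step
-/

noncomputable section

namespace Pool.Agent.MP_6e5bed_ag_GG

open CategoryTheory MonoidalCategory Pool.Agent.MP_6e5bed_ag Pool.Agent.MP_6e5bed_ag_NC
  Pool.Agent.MP_6e5bed_ag_NS Pool.Agent.MP_6e5bed_ag_PN Pool.Agent.MP_6e5bed_ag_PS

universe u

/-- The dg algebra of a coherent algebra is proper and has a Kimura-finite motive, given the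
finiteness of the cohomology and the main step of the noetherian induction. -/
theorem core_of {k : Type u} [Field k] [IsAlgClosed k] {i : Type} [Fintype i] {A : CA k i}
    {hs : Smooth (TT A)} (hC : ∀ W : SP k, IsCurve W.alg → KimuraFinite (U W))
    {hF : FinBB A A} (hM : MainS A hF hs (JS Gd (TT A))) :
    ∃ hp : Proper (TT A), KimuraFinite (U (⟨TT A, hs, hp⟩ : SP k)) :=
  ⟨proper_TT hF, kf_of_gd hC ⟨TT A, hs, proper_TT hF⟩ (one_mem hM)⟩

end Pool.Agent.MP_6e5bed_ag_GG
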