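import Pool.Agent.Lib.MP_6e5bed_ag_GG.Pmk
import Pool.Agent.Lib.MP_6e5bed_ag_GG.Cmp

set_option autoImplicit false
set_option linter.unusedVariables false

/-!
# MP_6e5bed_ag, THEOREM G, (8.3): the morphism `X_c ⊗_W V ⊗_W Y_{c'} → Z_{c, c'}`
-/

noncomputable section

namespace Pool.Agent.MP_6e5bed_ag_GG

open Pool.Agent.MP_6e5bed_ag_NC Pool.Agent.MP_6e5bed_ag_NS Pool.Agent.MP_6e5bed_ag_PN

universe u

variable {k : Type u} [Field k] {i j : Type} [Fintype i] [Fintype j] {A : CA k i} {A' : CA k j}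
  {W : DGA k}

theorem tb3_ind {D D' W W' : DGA k} {X : Bim D W} {V : Bim W W'} {Y : Bim W' D'}
    {P : (tb X (tb V Y)).M → Prop} (h0 : P 0) (hadd : ∀ x y, P x → P y → P (x + y))
    (h : ∀ x v y, P (tm x (tm v y))) : ∀ x, P x := by
  refine tb_ind h0 hadd (fun x z => ?_)
  refine tb_ind (P := fun z => P (tm x z)) ?_ ?_ ?_ z
  · have h1 : (tm (M := X) (N := tb V Y) x 0) = 0 := tm_zero_right x
    rw [h1]
    exact h0
  · intro z z' hz hz'
    have h1 : (tm (M := X) (N := tb V Y) x (z + z')) = tm x z + tm x z' := tm_add_right x z z'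
    rw [h1]
    exact hadd _ _ hz hz'
  · intro v y
    exact h x v y

/-- Compatible balanced pairings on all pairs of charts. -/
structure BPrP (X : PB A.pa (PA.con i W)) (Y : PB (PA.con j W) A'.pa) (Z : BPB A A') where
  b : ∀ p : Ch i × Ch j, BPr (D := MP_6e5bed_ag_NC.ring k (A.A p.1)) (W := W)
    (D' := MP_6e5bed_ag_NC.ring k (A'.A p.2)) (X.M p.1) (Y.M p.2) (Z.F p)
  nat : ∀ {p q : Ch i × Ch j} (h : p ≤ q) (x : (X.M p.1).M) (y : (Y.M p.2).M),
    (Z.ρ h).f ((b p).v x y) = (b q).v ((X.ρ h.1).f x) ((Y.ρ h.2).f y)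

/-- The morphism `X_c ⊗_W V ⊗_W Y_{c'} → Z_{c, c'}`. -/
def BPrP.Psi {X : PB A.pa (PA.con i W)} {Y : PB (PA.con j W) A'.pa} {Z : BPB A A'}
    (B : BPrP X Y Z) {V : Bim W W} {ω : GMap 0 V (diag W)} (hω : ω.dd = 0) :
    BPH (BPB.cmp X V Y) Z where
  f := fun p => (B.b p).psi ω
  dd := fun p => (B.b p).psi_dd ω hω
  nat := fun {p q} h x => by
    refine tb3_ind (W := W) (W' := W) (P := fun x => (Z.ρ h).f (((B.b p).psi ω).f x) =
      ((B.b q).psi ω).f (((BPB.cmp X V Y).ρ h).f x)) ?_ ?_ ?_ x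
    · rw [map_zero, map_zero]
      refine Eq.symm ((congrArg ((B.b q).psi ω).f (map_zero ((BPB.cmp X V Y).ρ h).f)).trans ?_)
      exact map_zero ((B.b q).psi ω).f
    · intro x y hx hy
      rw [map_add, map_add, hx, hy]
      refine Eq.symm ((congrArg ((B.b q).psi ω).f
        (map_add ((BPB.cmp X V Y).ρ h).f x y)).trans ?_)
      exact map_add ((B.b q).psi ω).f _ _
    · intro x v y
      rw [BPr.psi_tm]
      refine (B.nat h x _).trans ?_
      refine Eq.trans ?_ (congrArg ((B.b q).psi ω).f (BPB.cmp_ρ X V Y h x v y)).symm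
      refine Eq.trans ?_ ((B.b q).psi_tm ω _ _ _).symm
      refine congrArg ((B.b q).v ((X.ρ h.1).f x)) ?_
      exact gm_l (Y.ρ h.2) (ω.f v) y

theorem BPrP.Psi_f {X : PB A.pa (PA.con i W)} {Y : PB (PA.con j W) A'.pa} {Z : BPB A A'}
    (B : BPrP X Y Z) {V : Bim W W} {ω : GMap 0 V (diag W)} (hω : ω.dd = 0) (p : Ch i × Ch j) :
    (B.Psi hω).f p = (B.b p).psi ω := rfl

end Pool.Agent.MP_6e5bed_ag_GG
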