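import Pool.Agent.Lib.MP_6e5bed_ag_GG.GlA
import Pool.Agent.Lib.MP_6e5bed_ag_GG.Psi

set_option autoImplicit false
set_option linter.unusedVariables false

/-!
# MP_6e5bed_ag, THEOREM G, (8.4), (8.5): from the localisation `X_m → X_z` and the quasi-isomorphism
`X_z ⊗_W V ⊗_W Y → Z` to the data of `GlA.lean`
-/

noncomputable section

namespace Pool.Agent.MP_6e5bed_ag_GG

open Pool.Agent.MP_6e5bed_ag_NC Pool.Agent.MP_6e5bed_ag_PN
open Pool.Agent.MP_6e5bed_ag_NS (Cx CHom ringH conc_map concH)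
open scoped TensorProduct

universe u

variable {k : Type u} [Field k] {i j : Type} [Fintype i] [Fintype j] {A : CA k i} {A' : CA k j}
  {W : DGA k}

theorem tb3_hom_ext {D D' W W' : DGA k} {X : Bim D W} {V : Bim W W'} {Y : Bim W' D'}
    {U : Type*} [AddCommGroup U] [Module k U] {f g : (tb X (tb V Y)).M →ₗ[k] U}
    (h : ∀ x v y, f (tm x (tm v y)) = g (tm x (tm v y))) : f = g := by
  refine LinearMap.ext (tb3_ind (P := fun x => f x = g x) ?_ ?_ h)
  · rw [map_zero, map_zero]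
  · intro x y hx hy
    rw [map_add, map_add, hx, hy]

/-- the left action of a ring, as a morphism of complexes -/
def lactH {R : Type u} [Ring R] [Algebra k R] {D : DGA k} (X : Bim (MP_6e5bed_ag_NC.ring k R) D)
    (a : R) : CHom (bcx X) (bcx X) where
  f := X.l a
  deg := fun {n x} h => by
    have h1 := X.l_deg (a := a) (Dg.conc_deg (k := k) a) h
    rwa [zero_add] at h1
  d := fun x => by
    refine (X.d_l a x).trans ?_
    have h1 : (MP_6e5bed_ag_NC.ring k R).dg.d a = 0 := rfl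
    have h2 : (MP_6e5bed_ag_NC.ring k R).dg.s a = a := Dg.conc_s a
    rw [h1, h2, map_zero, LinearMap.zero_apply, zero_add]
    rfl

section

variable {X : PB A.pa (PA.con i W)} {Y : PB (PA.con j W) A'.pa} {Z : BS A A'}
  (B : BPrP X Y Z.bp) {V : Bim W W} {ω : GMap 0 V (diag W)} (hω : ω.dd = 0)
  {m : Ch i} {c' : Ch j} {Sg : Submonoid (RR k m.1)}
  {S : Type u} [Ring S] [Algebra k S] (psi : A.A m →ₐ[k] S)
  (Xz : Bim (MP_6e5bed_ag_NC.ring k S) W)
  (fx : GMap (A := MP_6e5bed_ag_NC.ring k (A.A m)) (B := W) 0 (X.M m)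
    (res (ringH psi) (DHom.id W) Xz))

/-- the map `X_m ⊗_W V ⊗_W Y_{c'} → X_z ⊗_W V ⊗_W Y_{c'}` -/
def lgT (V : Bim W W) (Y : PB (PA.con j W) A'.pa) (c' : Ch j) :
    GMap 0 (tb (A := MP_6e5bed_ag_NC.ring k (A.A m)) (B := W) (X.M m)
        (tb (C := MP_6e5bed_ag_NC.ring k (A'.A c')) V (Y.M c')))
      (res (ringH psi) (DHom.id _) (tb Xz (tb (C := MP_6e5bed_ag_NC.ring k (A'.A c')) V (Y.M c')))) :=
  gT (α := ringH psi) (γ := DHom.id W) (β := DHom.id (MP_6e5bed_ag_NC.ring k (A'.A c'))) fx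
    (idr (tb V (Y.M c')))

theorem lgT_tm (x : (X.M m).M) (q : (tb (C := MP_6e5bed_ag_NC.ring k (A'.A c')) V (Y.M c')).M) :
    (lgT psi Xz fx V Y c').f (tm x q) = tm (fx.f x) q := gT_tm fx (idr (tb V (Y.M c'))) x q

theorem lgT_dd (hfx : fx.dd = 0) : (lgT psi Xz fx V Y c').dd = 0 :=
  gT_dd fx (idr (tb V (Y.M c'))) hfx (idr_dd _)

/-- The localisation data from the localisation `X_m → X_z` and the quasi-isomorphism over the
generic point. -/
def lgd (hfx : fx.dd = 0)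
    (hloc : LocS (S := Sg) (V := (X.M m).M) fx.f
      (fun s => (X.M m).l (algebraMap (RR k m.1) (A.A m) s))
      (fun s => Xz.l (psi (algebraMap (RR k m.1) (A.A m) s))))
    (Zz : KBi k S (A'.A c')) (Pz : BPr (D' := MP_6e5bed_ag_NC.ring k (A'.A c')) Xz (Y.M c') Zz.bim)
    (iz : Zz.M →ₗ[k] Z.E (m, c')) (hiz : Function.Bijective iz)
    (hv : ∀ x y, (B.b (m, c')).v x y = iz (Pz.v (fx.f x) y))
    (hl : ∀ (s : Sg) z, iz (Zz.l (psi (algebraMap (RR k m.1) (A.A m) s)) z) =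
      cl1 A A' (m, c') s • iz z)
    (hq : QIso (Pz.psi ω)) : LGD (B.Psi hω) m c' Sg where
  Y := bcx (tb Xz (tb (C := MP_6e5bed_ag_NC.ring k (A'.A c')) V (Y.M c')))
  f := gch (lgT psi Xz fx V Y c') (lgT_dd psi Xz fx hfx)
  g := CHom.comp ⟨(Pz.psi ω).f, fun h => by
      have h1 := (Pz.psi ω).deg h
      rwa [add_zero] at h1, fun x => GMap.d_f_zero (Pz.psi_dd ω hω) x⟩ (concH iz)
  comp := fun x => by
    have h := tb3_hom_ext (U := Z.E (m, c')) (f := iz ∘ₗ (Pz.psi ω).f ∘ₗ (lgT psi Xz fx V Y c').f)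
      (g := ((B.b (m, c')).psi ω).f) (fun x v y => by
        refine Eq.trans ?_ ((B.b (m, c')).psi_tm ω x v y).symm
        refine Eq.trans ?_ (hv x _).symm
        refine congrArg iz ?_
        exact (congrArg (Pz.psi ω).f (lgT_tm psi Xz fx x (tm v y))).trans
          (Pz.psi_tm ω (fx.f x) v y))
    exact LinearMap.congr_fun h x
  τ := fun s => lactH _ (psi (algebraMap (RR k m.1) (A.A m) s))
  loc := by
    refine LocS.tbR hloc (fun w x => fx.map_r w x) (fun s w x => ?_) (fun s w x => ?_)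
      (tb (C := MP_6e5bed_ag_NC.ring k (A'.A c')) V (Y.M c')) ?_ ?_ ?_
    · exact (X.M m).l_r _ w x
    · exact Xz.l_r _ w x
    · intro x q
      exact lgT_tm psi Xz fx x q
    · intro s x q
      exact (bact_l _ _ _).trans (tb_l _ x q)
    · intro s x q
      exact tb_l _ x q
  gτ := fun s y => by
    have h1 : (Pz.psi ω).f ((tb Xz (tb V (Y.M c'))).l (psi (algebraMap (RR k m.1) (A.A m) s)) y) =
        Zz.l (psi (algebraMap (RR k m.1) (A.A m) s)) ((Pz.psi ω).f y) := by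
      have h2 := (Pz.psi ω).map_l (psi (algebraMap (RR k m.1) (A.A m) s)) y
      rw [Dg.sp_zero] at h2
      exact h2
    refine (congrArg iz h1).trans ((hl s _).trans ?_)
    exact (Z.bact_bp _ _).symm
  qi := by
    refine Qi.comp hq.2 (Qi.of_bij hiz)

end

end Pool.Agent.MP_6e5bed_ag_GG
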