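import Pool.Agent.Lib.MP_6e5bed_ag_PS.NNdom
import Pool.Agent.Lib.MP_6e5bed_ag_PS.NNext
import Pool.Agent.Lib.MP_6e5bed_ag_GG.TDef

set_option autoImplicit false

/-!
# MP_6e5bed_ag, THEOREM G: composita of linearly disjoint function fields of curves (9.4)
-/

noncomputable section

namespace Pool.Agent.MP_6e5bed_ag_GG

open Pool.Agent.MP_6e5bed_ag_NC
open Pool.Agent.MP_6e5bed_ag_PS (inj_of_alg exists_FExt)
open scoped TensorProduct

universe u

/-- The subfields of `Ω` which are composita of linearly disjoint function fields of curves. -/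
inductive IsPF (k : Type u) [Field k] {Ω : Type u} [Field Ω] [Algebra k Ω] :
    IntermediateField k Ω → Prop
  | bot : IsPF k ⊥
  | sup (N : IntermediateField k Ω) (D : FExt k) (j : D.L →ₐ[k] Ω) : IsPF k N →
      Function.Injective (Algebra.TensorProduct.lift N.val j (fun _ _ => Commute.all _ _)) →
      IsPF k (N ⊔ j.fieldRange)

variable {k : Type u} [Field k]

/-- Common denominators in `N ⊗ k(X)`. -/
private theorem TFa_den {N : Type u} [Field N] [Algebra k N] (z : N ⊗[k] RatFunc k) :
    ∃ (q : Polynomial k) (z' : N ⊗[k] Polynomial k), q ≠ 0 ∧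
      ((1 : N) ⊗ₜ[k] algebraMap (Polynomial k) (RatFunc k) q) * z =
        Algebra.TensorProduct.map (AlgHom.id k N)
          (IsScalarTower.toAlgHom k (Polynomial k) (RatFunc k)) z' := by
  induction z using TensorProduct.induction_on with
  | zero => exact ⟨1, 0, one_ne_zero, by rw [mul_zero, map_zero]⟩
  | tmul a b =>
    refine ⟨b.denom, a ⊗ₜ b.num, RatFunc.denom_ne_zero b, ?_⟩
    have h : algebraMap (Polynomial k) (RatFunc k) b.denom * b =
        algebraMap (Polynomial k) (RatFunc k) b.num := by
      have hc : algebraMap (Polynomial k) (RatFunc k) b.denom ≠ 0 :=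
        RatFunc.algebraMap_ne_zero (RatFunc.denom_ne_zero b)
      have h1 := RatFunc.num_div_denom b
      rw [div_eq_iff hc] at h1
      rw [h1, mul_comm]
    rw [Algebra.TensorProduct.tmul_mul_tmul, h, one_mul, Algebra.TensorProduct.map_tmul]
    rfl
  | add z1 z2 h1 h2 =>
    obtain ⟨q1, z1', hq1, e1⟩ := h1
    obtain ⟨q2, z2', hq2, e2⟩ := h2
    refine ⟨q1 * q2, ((1 : N) ⊗ₜ q2) * z1' + ((1 : N) ⊗ₜ q1) * z2', mul_ne_zero hq1 hq2, ?_⟩
    have m1 := map_mul (Algebra.TensorProduct.map (AlgHom.id k N)
      (IsScalarTower.toAlgHom k (Polynomial k) (RatFunc k))) ((1 : N) ⊗ₜ[k] q2) z1'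
    have m2 := map_mul (Algebra.TensorProduct.map (AlgHom.id k N)
      (IsScalarTower.toAlgHom k (Polynomial k) (RatFunc k))) ((1 : N) ⊗ₜ[k] q1) z2'
    rw [map_add, m1, m2, ← e1, ← e2, Algebra.TensorProduct.map_tmul,
      Algebra.TensorProduct.map_tmul, map_mul, ← mul_one (1 : N),
      ← Algebra.TensorProduct.tmul_mul_tmul, mul_one]
    simp only [IsScalarTower.coe_toAlgHom', map_one]
    ring

/-- `N` and `k(X)` are linearly disjoint if the image of `X` is transcendental over `N`. -/
theorem inj_tr {Ω : Type u} [Field Ω] [Algebra k Ω] (N : IntermediateField k Ω)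
    (f : RatFunc k →ₐ[k] Ω) (h : Transcendental N (f RatFunc.X)) :
    Function.Injective (Algebra.TensorProduct.lift N.val f (fun _ _ => Commute.all _ _)) := by
  rw [injective_iff_map_eq_zero]
  intro z hz
  obtain ⟨q, z', hq, e⟩ := TFa_den z
  have h0 : z' = 0 := by
    have h1 : ∀ w : N ⊗[k] Polynomial k,
        Algebra.TensorProduct.lift N.val f (fun _ _ => Commute.all _ _)
          (Algebra.TensorProduct.map (AlgHom.id k N)
            (IsScalarTower.toAlgHom k (Polynomial k) (RatFunc k)) w) =
        Polynomial.aeval (f RatFunc.X) ((polyEquivTensor k N).symm w) := by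
      intro w
      induction w using TensorProduct.induction_on with
      | zero => simp only [map_zero]
      | add x y hx hy => simp only [map_add, hx, hy]
      | tmul a p =>
        rw [polyEquivTensor_symm_apply_tmul_eq_smul, Algebra.TensorProduct.map_tmul,
          Algebra.TensorProduct.lift_tmul, map_smul, Polynomial.aeval_map_algebraMap,
          Algebra.smul_def]
        congr 1
        rw [← Polynomial.aeval_X_left_apply p]
        simp only [IsScalarTower.coe_toAlgHom']
        have h2 : algebraMap (Polynomial k) (RatFunc k) (Polynomial.aeval Polynomial.X p) =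
            Polynomial.aeval RatFunc.X p := by
          rw [← RatFunc.algebraMap_X, Polynomial.aeval_algebraMap_apply]
        rw [h2, ← Polynomial.aeval_algHom_apply, Polynomial.aeval_X_left_apply]
    have h2 : Polynomial.aeval (f RatFunc.X) ((polyEquivTensor k N).symm z') = 0 := by
      rw [← h1, ← e, map_mul, hz, mul_zero]
    have h3 : (polyEquivTensor k N).symm z' = 0 := by
      by_contra hne
      exact h ⟨_, hne, h2⟩
    exact (map_eq_zero_iff _ (polyEquivTensor k N).symm.injective).1 h3
  rw [h0, map_zero] at e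
  have hq' : algebraMap (Polynomial k) (RatFunc k) q ≠ 0 := RatFunc.algebraMap_ne_zero hq
  have h1 : (1 : N) ⊗ₜ[k] (algebraMap (Polynomial k) (RatFunc k) q)⁻¹ *
        (((1 : N) ⊗ₜ[k] algebraMap (Polynomial k) (RatFunc k) q) * z) = z := by
    rw [← mul_assoc, Algebra.TensorProduct.tmul_mul_tmul, inv_mul_cancel₀ hq', mul_one,
      ← Algebra.TensorProduct.one_def, one_mul]
  rw [← h1, e, mul_zero]

/-- Being algebraic over a subfield, transport along an embedding. -/
theorem alg_map {A B : Type u} [Field A] [Field B] [Algebra k A] [Algebra k B] (f : A →ₐ[k] B)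
    (S : Set A) (x : A) : IsAlgebraic (IntermediateField.adjoin k (f '' S)) (f x) ↔
      IsAlgebraic (IntermediateField.adjoin k S) x := by
  obtain ⟨e, he⟩ : ∃ e : IntermediateField.adjoin k S ≃ₐ[k] IntermediateField.adjoin k (f '' S),
      ∀ y, (e y : B) = f y :=
    ⟨(IntermediateField.equivMap _ f).trans
      (IntermediateField.equivOfEq (IntermediateField.adjoin_map k S f)), fun y => rfl⟩
  exact isAlgebraic_ringHom_iff_of_comp_eq e f f.injective (RingHom.ext fun y => he y)

/-- A finitely generated extension of transcendence degree one of a perfect field is the function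
field of a curve. -/
theorem curve_top [PerfectField k] {N : Type u} [Field N] [Algebra k N] [Algebra.EssFiniteType k N]
    {t : N} (ht : Transcendental k t)
    (ha : ∀ x : N, IsAlgebraic (IntermediateField.adjoin k {t}) x) :
    ∃ (D : FExt k) (j : D.L →ₐ[k] N), Function.Surjective j ∧
      ∀ x : N, IsAlgebraic
        (IntermediateField.adjoin k {j (algebraMap (RatFunc k) D.L RatFunc.X)}) x := by
  classical
  have ht' : AlgebraicIndependent k (fun _ : Unit => t) := by
    rw [algebraicIndependent_unique_type_iff]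
    exact ht
  have hb : IsTranscendenceBasis k (fun _ : Unit => t) := by
    rw [ht'.isTranscendenceBasis_iff_isAlgebraic, Set.range_const]
    exact ⟨fun x => IntermediateField.isAlgebraic_adjoin_iff.1 (ha x)⟩
  obtain ⟨s, hs, hsep⟩ := exists_isTranscendenceBasis_and_isSeparable_of_perfectField k N
  have hcard : s.card = 1 := by
    have h1 := hs.lift_cardinalMk_eq hb
    simpa using h1
  obtain ⟨σ, rfl⟩ := Finset.card_eq_one.1 hcard
  have hσ : Transcendental k σ := hs.1.transcendental ⟨σ, Finset.mem_singleton_self σ⟩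
  rw [Finset.coe_singleton] at hsep
  have hess : Algebra.EssFiniteType (IntermediateField.adjoin k {σ}) N :=
    Algebra.EssFiniteType.of_comp k _ _
  have hfin : FiniteDimensional (IntermediateField.adjoin k {σ}) N :=
    Algebra.finite_of_essFiniteType_of_isAlgebraic
  obtain ⟨D, j, hj, hjs⟩ := exists_FExt hσ (⊤ : IntermediateField _ N)
  refine ⟨D, j, ?_, fun x => ?_⟩
  · rw [← Set.range_eq_univ, hj]
    rfl
  · rw [hjs]
    exact Algebra.IsAlgebraic.isAlgebraic x

/-- The subfield generated by `t` and finitely many elements algebraic over `k(t)` is the function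
field of a curve. -/
theorem exists_curve [PerfectField k] {Ω : Type u} [Field Ω] [Algebra k Ω] {t : Ω}
    (ht : Transcendental k t) (T : Set Ω) (hT : T.Finite)
    (hTa : ∀ x ∈ T, IsAlgebraic (IntermediateField.adjoin k {t}) x) :
    ∃ (D : FExt k) (j : D.L →ₐ[k] Ω), j.fieldRange = IntermediateField.adjoin k (insert t T) ∧
      (∀ x ∈ j.fieldRange, IsAlgebraic (IntermediateField.adjoin k {t}) x) ∧
      ∀ x ∈ j.fieldRange,
        IsAlgebraic (IntermediateField.adjoin k {j (algebraMap (RatFunc k) D.L RatFunc.X)}) x := by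
  classical
  obtain ⟨N, hN⟩ : ∃ N : IntermediateField k Ω, N = IntermediateField.adjoin k (insert t T) :=
    ⟨_, rfl⟩
  have hfg : Algebra.EssFiniteType k N := by
    rw [IntermediateField.essFiniteType_iff, hN]
    exact ⟨(hT.insert t).toFinset, by rw [Set.Finite.coe_toFinset]⟩
  have htN : t ∈ N := by
    rw [hN]
    exact IntermediateField.subset_adjoin _ _ (Set.mem_insert _ _)
  have hNa : ∀ x ∈ N, IsAlgebraic (IntermediateField.adjoin k {t}) x := by
    intro x hx
    have h1 : N ≤ (algebraicClosure (IntermediateField.adjoin k {t}) Ω).restrictScalars k := by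
      rw [hN, IntermediateField.adjoin_le_iff]
      intro y hy
      rw [SetLike.mem_coe, IntermediateField.mem_restrictScalars, mem_algebraicClosure_iff]
      rcases hy with rfl | hy
      · exact isAlgebraic_algebraMap (⟨y, IntermediateField.mem_adjoin_simple_self k y⟩ :
          IntermediateField.adjoin k {y})
      · exact hTa y hy
    have h2 := h1 hx
    rwa [IntermediateField.mem_restrictScalars, mem_algebraicClosure_iff] at h2
  have ht0 : Transcendental k (⟨t, htN⟩ : N) := fun h => ht (h.algHom N.val)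
  obtain ⟨D, j, hj, hja⟩ := curve_top ht0 (fun x => by
    rw [← alg_map N.val, Set.image_singleton]
    exact hNa x x.2)
  have hr : (N.val.comp j).fieldRange = N := by
    ext x
    constructor
    · rintro ⟨y, rfl⟩
      exact (j y).2
    · intro hx
      obtain ⟨y, hy⟩ := hj ⟨x, hx⟩
      exact ⟨y, congrArg Subtype.val hy⟩
  refine ⟨D, N.val.comp j, hr.trans hN, fun x hx => hNa x (hr ▸ hx), fun x hx => ?_⟩
  rw [hr] at hx
  have h1 := (alg_map N.val _ _).2 (hja ⟨x, hx⟩)
  rwa [Set.image_singleton] at h1

section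

variable {Ω : Type u} [Field Ω] [Algebra k Ω]

/-- The elements which are algebraic over `N`. -/
def AlgC (N : IntermediateField k Ω) : IntermediateField k Ω :=
  (algebraicClosure N Ω).restrictScalars k

theorem mem_AlgC {N : IntermediateField k Ω} {x : Ω} : x ∈ AlgC N ↔ IsAlgebraic N x := by
  rw [AlgC, IntermediateField.mem_restrictScalars, mem_algebraicClosure_iff]

theorem le_AlgC (N : IntermediateField k Ω) : N ≤ AlgC N := fun x hx =>
  mem_AlgC.2 (isAlgebraic_algebraMap (⟨x, hx⟩ : N))

theorem alg_le {N N' : IntermediateField k Ω} (h : N ≤ N') {x : Ω} (hx : IsAlgebraic N x) :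
    IsAlgebraic N' x :=
  hx.ringHom_of_comp_eq (IntermediateField.inclusion h) (RingHom.id Ω)
    (IntermediateField.inclusion h).injective rfl

theorem AlgC_mono {N N' : IntermediateField k Ω} (h : N ≤ N') : AlgC N ≤ AlgC N' := fun _ hx =>
  mem_AlgC.2 (alg_le h (mem_AlgC.1 hx))

theorem AlgC_AlgC {N : IntermediateField k Ω} {x : Ω} (h : IsAlgebraic (AlgC N) x) :
    IsAlgebraic N x := by
  have h1 : IsAlgebraic (algebraicClosure N Ω) x :=
    h.ringHom_of_comp_eq (RingHom.id (AlgC N)) (RingHom.id Ω) Function.injective_id rfl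
  exact h1.restrictScalars N

/-- A compositum of `N` and a curve is a compositum of linearly disjoint fields if the function
field of the curve is transcendental over `N`. -/
theorem IsPF.of_tr [IsAlgClosed k] {N : IntermediateField k Ω} (hN : IsPF k N) (D : FExt k)
    (j : D.L →ₐ[k] Ω)
    (h : Transcendental N (j (algebraMap (RatFunc k) D.L RatFunc.X))) :
    IsPF k (N ⊔ j.fieldRange) := by
  refine IsPF.sup N D j hN ?_
  refine inj_of_alg (AlgHom.id k N) (IsScalarTower.toAlgHom k (RatFunc k) D.L) (fun a => ?_)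
    (fun a => ?_) N.val j ?_
  · exact (AlgHom.id k N).toRingHom.isIntegralElem_map
  · exact Algebra.IsIntegral.isIntegral a
  · exact inj_tr N _ h

theorem exists_isPF_aux [IsAlgClosed k] {m : ℕ} {t : Fin m → Ω} (ht : AlgebraicIndependent k t)
    (T : Fin m → Set Ω) (hT : ∀ i, (T i).Finite)
    (hTa : ∀ i, ∀ x ∈ T i, IsAlgebraic (IntermediateField.adjoin k {t i}) x)
    (A : Finset (Fin m)) :
    ∃ N : IntermediateField k Ω, IsPF k N ∧ N.FG ∧ (∀ i ∈ A, T i ⊆ N) ∧
      N ≤ AlgC (IntermediateField.adjoin k (t '' A)) := by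
  classical
  induction A using Finset.induction_on with
  | empty => exact ⟨⊥, IsPF.bot, IntermediateField.fg_bot, by simp, bot_le⟩
  | insert i A hi ih =>
    obtain ⟨N, hN, hfg, hTN, hNa⟩ := ih
    have hti : Transcendental k (t i) := ht.transcendental i
    obtain ⟨D, j, hj, hj1, hj2⟩ := exists_curve hti (T i) (hT i) (hTa i)
    have htr : Transcendental N (t i) := by
      intro h
      have h1 : Transcendental (IntermediateField.adjoin k (t '' A)) (t i) :=
        IntermediateField.transcendental_adjoin_iff.2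
          (ht.transcendental_adjoin (by simpa using hi))
      exact h1 (AlgC_AlgC (alg_le hNa h))
    have htr' : Transcendental N (j (algebraMap (RatFunc k) D.L RatFunc.X)) := by
      intro h
      apply htr
      have h1 : IntermediateField.adjoin k {j (algebraMap (RatFunc k) D.L RatFunc.X)} ≤ AlgC N := by
        rw [IntermediateField.adjoin_le_iff, Set.singleton_subset_iff]
        exact mem_AlgC.2 h
      refine AlgC_AlgC (alg_le h1 (hj2 (t i) ?_))
      rw [hj]
      exact IntermediateField.subset_adjoin _ _ (Set.mem_insert _ _)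
    refine ⟨N ⊔ j.fieldRange, hN.of_tr D j htr', ?_, ?_, ?_⟩
    · refine IntermediateField.fg_sup hfg ?_
      rw [hj]
      exact IntermediateField.fg_adjoin_of_finite ((hT i).insert _)
    · intro l hl
      rcases Finset.mem_insert.1 hl with rfl | hl
      · refine Set.Subset.trans ?_ (le_sup_right : j.fieldRange ≤ N ⊔ j.fieldRange)
        rw [hj]
        exact Set.Subset.trans (Set.subset_insert _ _) (IntermediateField.subset_adjoin _ _)
      · exact Set.Subset.trans (hTN l hl) (le_sup_left : N ≤ N ⊔ j.fieldRange)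
    · refine sup_le (hNa.trans (AlgC_mono (IntermediateField.adjoin.mono _ _ _ ?_))) ?_
      · exact Set.image_mono (by simp)
      · intro x hx
        refine AlgC_mono (IntermediateField.adjoin.mono k _ _ ?_) (mem_AlgC.2 (hj1 x hx))
        rw [Set.singleton_subset_iff]
        exact ⟨i, by simp, rfl⟩

/-- The elements of the compositum are quotients of elements of the compositum ring. -/
theorem IsPF.quot (N : IntermediateField k Ω) {L : Type u} [Field L] [Algebra k L] (j : L →ₐ[k] Ω)
    {x : Ω} (hx : x ∈ N ⊔ j.fieldRange) :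
    ∃ a b : N ⊗[k] L,
      x = Algebra.TensorProduct.lift N.val j (fun _ _ => Commute.all _ _) a /
        Algebra.TensorProduct.lift N.val j (fun _ _ => Commute.all _ _) b := by
  rw [IntermediateField.sup_def, IntermediateField.mem_adjoin_iff_div] at hx
  obtain ⟨r, hr, s, hs, e⟩ := hx
  have h : Algebra.adjoin k ((N : Set Ω) ∪ (j.fieldRange : Set Ω)) ≤
      (Algebra.TensorProduct.lift N.val j (fun _ _ => Commute.all _ _)).range := by
    rw [Algebra.adjoin_le_iff]
    rintro y (hy | ⟨z, rfl⟩)
    · refine ⟨(⟨y, hy⟩ : N) ⊗ₜ 1, ?_⟩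
      change Algebra.TensorProduct.lift N.val j _ ((⟨y, hy⟩ : N) ⊗ₜ 1) = _
      rw [Algebra.TensorProduct.lift_tmul, map_one, mul_one]
      rfl
    · refine ⟨1 ⊗ₜ z, ?_⟩
      change Algebra.TensorProduct.lift N.val j _ (1 ⊗ₜ z) = _
      rw [Algebra.TensorProduct.lift_tmul, map_one, one_mul]
      rfl
  obtain ⟨a, ha⟩ := h hr
  obtain ⟨b, hb⟩ := h hs
  exact ⟨a, b, by rw [e]; exact congrArg₂ _ ha.symm hb.symm⟩

end

open Pool.Agent.MP_6e5bed_ag_Pn (InProd)

/-- THE FIELD LEMMA (9.4). -/
theorem exists_isPF [IsAlgClosed k] (L : Type u) [Field L] [Algebra k L]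
    [Algebra.EssFiniteType k L] (h : InProd (algebraMap k L)) :
    ∃ (Ω : Type u) (_ : Field Ω) (_ : Algebra k Ω) (N : IntermediateField k Ω) (ψ : L →ₐ[k] N),
      IsPF k N ∧ N.FG ∧ (∀ x : N, IsAlgebraic ψ.fieldRange x) ∧
        (letI := ψ.toRingHom.toAlgebra; Module.Finite L N) := by
  classical
  obtain ⟨M, hM1, hM2, m, t, φ, hφ, halg, ht, hgen⟩ := h
  obtain ⟨φ', hφ'⟩ : ∃ φ' : L →ₐ[k] M, ∀ x, φ' x = φ x := ⟨{ φ with commutes' := hφ }, fun _ => rfl⟩
  -- finitely many generators
  obtain ⟨T, hT, hTL⟩ : ∃ T : Finset M, (∀ x ∈ T, IsAlgebraic k x ∨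
      ∃ i, IsAlgebraic (IntermediateField.adjoin k {t i}) x) ∧
      φ'.fieldRange ≤ IntermediateField.adjoin k (T : Set M) := by
    obtain ⟨G, hG⟩ := IntermediateField.fg_top k L
    have h1 : ∀ g ∈ G, ∃ T : Finset M, (∀ x ∈ T, IsAlgebraic k x ∨
        ∃ i, IsAlgebraic (IntermediateField.adjoin k {t i}) x) ∧
        φ' g ∈ IntermediateField.adjoin k (T : Set M) := by
      intro g _
      have h2 : φ' g ∈ IntermediateField.adjoin k {x : M | IsAlgebraic k x ∨
          ∃ i, IsAlgebraic (IntermediateField.adjoin k {t i}) x} := by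
        rw [hgen]
        trivial
      obtain ⟨T, hT1, hT2⟩ := IntermediateField.exists_finset_of_mem_adjoin h2
      exact ⟨T, fun x hx => hT1 hx, hT2⟩
    choose! T hT1 hT2 using h1
    refine ⟨G.biUnion T, fun x hx => ?_, ?_⟩
    · obtain ⟨g, hg, hx⟩ := Finset.mem_biUnion.1 hx
      exact hT1 g hg x hx
    · rw [AlgHom.fieldRange_eq_map, ← hG, IntermediateField.adjoin_map,
        IntermediateField.adjoin_le_iff]
      rintro _ ⟨g, hg, rfl⟩
      refine IntermediateField.adjoin.mono _ _ _ ?_ (hT2 g hg)
      exact_mod_cast Finset.subset_biUnion_of_mem T hg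
  obtain ⟨N, hN, hfg, hTN, -⟩ := exists_isPF_aux ht
    (fun i => {x | x ∈ T ∧ IsAlgebraic (IntermediateField.adjoin k {t i}) x})
    (fun i => T.finite_toSet.subset fun x hx => hx.1) (fun i x hx => hx.2) Finset.univ
  have hle : φ'.fieldRange ≤ N := by
    refine hTL.trans (IntermediateField.adjoin_le_iff.2 fun x hx => ?_)
    rcases hT x hx with h1 | ⟨i, h1⟩
    · have h2 := IntermediateField.eq_bot_of_isAlgClosed_of_isAlgebraic (algebraicClosure k M)
      have h3 : x ∈ algebraicClosure k M := mem_algebraicClosure_iff.2 h1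
      rw [h2] at h3
      exact (bot_le : ⊥ ≤ N) h3
    · exact hTN i (Finset.mem_univ i) ⟨hx, h1⟩
  obtain ⟨ψ, hψ⟩ : ∃ ψ : L →ₐ[k] N, ∀ x, (ψ x : M) = φ x :=
    ⟨φ'.codRestrict N.toSubalgebra fun x => hle ⟨x, rfl⟩, fun x => hφ' x⟩
  have hfin : letI := ψ.toRingHom.toAlgebra
      Module.Finite L N ∧ ∀ x : N, IsAlgebraic L x := by
    let := ψ.toRingHom.toAlgebra
    have htow : IsScalarTower k L N := IsScalarTower.of_algebraMap_eq fun x => (ψ.commutes x).symm
    have h1 : Algebra.IsAlgebraic L N := by
      refine ⟨fun x => ?_⟩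
      refine (halg (x : M)).of_ringHom_of_comp_eq φ.rangeRestrict N.val
        φ.rangeRestrict_surjective N.val.injective (RingHom.ext fun y => ?_)
      exact (hψ y).symm
    have h2 : Algebra.EssFiniteType k N := IntermediateField.essFiniteType_iff.2 hfg
    have h3 : Algebra.EssFiniteType L N := Algebra.EssFiniteType.of_comp k L N
    exact ⟨Algebra.finite_of_essFiniteType_of_isAlgebraic, fun x => Algebra.IsAlgebraic.isAlgebraic x⟩
  refine ⟨M, hM1, hM2, N, ψ, hN, hfg, fun x => ?_, hfin.1⟩
  let := ψ.toRingHom.toAlgebra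
  refine (hfin.2 x).ringHom_of_comp_eq ψ.rangeRestrict (RingHom.id N) ψ.rangeRestrict.injective ?_
  exact RingHom.ext fun y => rfl

end Pool.Agent.MP_6e5bed_ag_GG
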