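import Pool.Agent.Lib.MP_6e5bed_ag_GG.XEx

set_option autoImplicit false

/-!
# MP_6e5bed_ag, THEOREM G: X-data, spans over the coordinate rings
-/

noncomputable section

namespace Pool.Agent.MP_6e5bed_ag_GG

universe u

variable {k : Type u} [Field k]

/-! ### Spans over the coordinate rings -/

section spn

variable {M : Type u} [Field M] [Algebra k M] {i : Type} [Fintype i]

/-- the `R_a`-submodule generated by a set -/
def spn (y : i → Mˣ) (a : Set i) (S : Set M) : Submodule k M :=
  Submodule.span k {z : M | ∃ r ∈ RR k a, ∃ w ∈ S, z = evy y r * w}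

theorem spn_mul {y : i → Mˣ} {a : Set i} {S : Set M} {r : Lau k i} (hr : r ∈ RR k a) {u : M}
    (hu : u ∈ spn (k := k) y a S) : evy y r * u ∈ spn (k := k) y a S := by
  unfold spn at hu
  induction hu using Submodule.span_induction with
  | mem x hx =>
    obtain ⟨r', hr', w, hw, rfl⟩ := hx
    exact Submodule.subset_span ⟨r * r', (RR k a).mul_mem hr hr', w, hw, by
      rw [map_mul, mul_assoc]⟩
  | zero => rw [mul_zero]; exact Submodule.zero_mem _
  | add x y _ _ hx hy => rw [mul_add]; exact Submodule.add_mem _ hx hy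
  | smul c x _ hx => rw [mul_smul_comm]; exact Submodule.smul_mem _ _ hx

theorem spn_mem {y : i → Mˣ} {a : Set i} {S : Set M} {w : M} (hw : w ∈ S) :
    w ∈ spn (k := k) y a S :=
  Submodule.subset_span ⟨1, (RR k a).one_mem, w, hw, by rw [map_one, one_mul]⟩

theorem spn_mono {y : i → Mˣ} {a a' : Set i} (h : a ⊆ a') {S S' : Set M} (h' : S ⊆ S') :
    spn (k := k) y a S ≤ spn (k := k) y a' S' :=
  Submodule.span_mono (by
    rintro z ⟨r, hr, w, hw, rfl⟩
    exact ⟨r, RR_mono h hr, w, h' hw, rfl⟩)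

theorem tpow_mem_RR {a : Set i} (l : i) {g : i} (hg : g ∈ a) (n : ℕ) :
    mon k (ex l g) ^ n ∈ RR k a := (RR k a).pow_mem (mon_mem (isEx_ex l hg)) n

end spn


end Pool.Agent.MP_6e5bed_ag_GG
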