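import Pool.Agent.Lib.MP_6e5bed_ag_PS.Mat

set_option autoImplicit false
set_option linter.unusedVariables false

/-!
# MP_6e5bed_ag, THEOREM G: the Čech dg algebras for the two orders of two charts
-/

noncomputable section

namespace Pool.Agent.MP_6e5bed_ag_GG

open Pool.Agent.MP_6e5bed_ag_NC Pool.Agent.MP_6e5bed_ag_NS Pool.Agent.MP_6e5bed_ag_PS

universe u

variable {k : Type u} [Field k]

/-- a bijective morphism is a quasi-isomorphism -/
theorem dqi_bij {A B : DGA k} {f : DHom A B} (h : Function.Bijective f.f) : DQI f := by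
  refine ⟨fun x _ hy => ?_, fun y hy => ?_⟩
  · obtain ⟨y, hy⟩ := hy
    obtain ⟨z, rfl⟩ := h.2 y
    exact ⟨z, h.1 (by rw [← f.d, hy])⟩
  · obtain ⟨x, rfl⟩ := h.2 y
    refine ⟨x, h.1 (by rw [← f.d, hy, map_zero]), 0, ?_⟩
    rw [map_zero, sub_self]

/-- the opposite order -/
def cswap (S : Cosp k) : Cosp k where
  A0 := S.A1
  A1 := S.A0
  A01 := S.A01
  r0 := S.r1
  r1 := S.r0

/-- the subdivided interval -/
def cmid (S : Cosp k) : Cosp k where
  A0 := S.A0 × S.A1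
  A1 := S.A01
  A01 := S.A01 × S.A01
  r0 := (S.r0.comp (AlgHom.fst k S.A0 S.A1)).prod (S.r1.comp (AlgHom.snd k S.A0 S.A1))
  r1 := (AlgHom.id k S.A01).prod (AlgHom.id k S.A01)

/-- the inclusion for the order `0`, `1` -/
def mid0 (S : Cosp k) : DHom S.cech (cmid S).cech where
  f := ((LinearMap.fst k (S.A0 × S.A1) S.A01).prod
      ((S.r1.toLinearMap ∘ₗ LinearMap.snd k S.A0 S.A1) ∘ₗ
        LinearMap.fst k (S.A0 × S.A1) S.A01)).prod
      ((LinearMap.snd k (S.A0 × S.A1) S.A01).prod 0)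
  deg := fun {i a} ha => by
    obtain ⟨v, w⟩ : (S.A0 × S.A1) × S.A01 := a
    have ha' : (Dg.two S.δ).IsDeg i (v, w) := ha
    change (Dg.two (cmid S).δ).IsDeg i (((v, S.r1 v.2), (w, (0 : S.A01))) :
      ((S.A0 × S.A1) × S.A01) × (S.A01 × S.A01))
    rcases Dg.two_isDeg S.δ ha' with ⟨rfl, rfl⟩ | ⟨rfl, rfl⟩ | ⟨rfl, rfl⟩
    · exact Dg.two_deg0' _ rfl
    · exact Dg.two_deg1' _ (Prod.ext rfl (map_zero S.r1))
    · have h : ((((0 : S.A0 × S.A1), S.r1 (0 : S.A0 × S.A1).2), ((0 : S.A01), (0 : S.A01))) :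
        ((S.A0 × S.A1) × S.A01) × (S.A01 × S.A01)) = 0 :=
        Prod.ext (Prod.ext rfl (map_zero S.r1)) rfl
      rw [h]
      exact Dg.IsDeg.zero _
  d := fun a => by
    refine Prod.ext (Prod.ext rfl (map_zero S.r1).symm) (Prod.ext rfl ?_)
    change S.r1 a.1.2 - S.r1 a.1.2 = 0
    rw [sub_self]
  one := Prod.ext (Prod.ext rfl (map_one S.r1)) rfl
  mul := fun a b => by
    refine Prod.ext (Prod.ext rfl (map_mul S.r1 a.1.2 b.1.2)) (Prod.ext rfl ?_)
    change (0 : S.A01) = S.r1 a.1.2 * 0 + 0 * S.r1 b.1.2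
    rw [mul_zero, zero_mul, add_zero]

/-- the inclusion for the order `1`, `0` -/
def mid1 (S : Cosp k) : DHom (cswap S).cech (cmid S).cech where
  f := (((LinearMap.snd k S.A1 S.A0).prod (LinearMap.fst k S.A1 S.A0) ∘ₗ
      LinearMap.fst k (S.A1 × S.A0) S.A01).prod
      ((S.r0.toLinearMap ∘ₗ LinearMap.snd k S.A1 S.A0) ∘ₗ
        LinearMap.fst k (S.A1 × S.A0) S.A01)).prod
      (LinearMap.prod 0 (LinearMap.snd k (S.A1 × S.A0) S.A01))
  deg := fun {i a} ha => by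
    obtain ⟨v, w⟩ : (S.A1 × S.A0) × S.A01 := a
    have ha' : (Dg.two (cswap S).δ).IsDeg i (v, w) := ha
    change (Dg.two (cmid S).δ).IsDeg i ((((v.2, v.1), S.r0 v.2), ((0 : S.A01), w)) :
      ((S.A0 × S.A1) × S.A01) × (S.A01 × S.A01))
    rcases Dg.two_isDeg (cswap S).δ ha' with ⟨rfl, rfl⟩ | ⟨rfl, h0⟩ | ⟨h0, h1⟩
    · exact Dg.two_deg0' _ rfl
    · have h0' : v = 0 := h0
      subst h0'
      exact Dg.two_deg1' _ (Prod.ext rfl (map_zero S.r0))
    · have h0' : v = 0 := h0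
      have h1' : w = 0 := h1
      subst h0'
      subst h1'
      have h : (((((0 : S.A1 × S.A0).2, (0 : S.A1 × S.A0).1), S.r0 (0 : S.A1 × S.A0).2),
        ((0 : S.A01), (0 : S.A01))) : ((S.A0 × S.A1) × S.A01) × (S.A01 × S.A01)) = 0 :=
        Prod.ext (Prod.ext rfl (map_zero S.r0)) rfl
      rw [h]
      exact Dg.IsDeg.zero _
  d := fun a => by
    refine Prod.ext (Prod.ext rfl (map_zero S.r0).symm) (Prod.ext ?_ rfl)
    change S.r0 a.1.2 - S.r0 a.1.2 = 0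
    rw [sub_self]
  one := Prod.ext (Prod.ext rfl (map_one S.r0)) rfl
  mul := fun a b => by
    refine Prod.ext (Prod.ext rfl (map_mul S.r0 a.1.2 b.1.2)) (Prod.ext ?_ rfl)
    change (0 : S.A01) = S.r0 a.1.2 * 0 + 0 * S.r0 b.1.2
    rw [mul_zero, zero_mul, add_zero]

theorem cmid_d (S : Cosp k) (y : ((S.A0 × S.A1) × S.A01) × (S.A01 × S.A01)) :
    (cmid S).cech.dg.d y = ((((0 : S.A0), (0 : S.A1)), (0 : S.A01)),
      (y.1.2 - S.r0 y.1.1.1, y.1.2 - S.r1 y.1.1.2)) := rfl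

theorem mid0_f (S : Cosp k) (x : (S.A0 × S.A1) × S.A01) :
    (mid0 S).f x = ((((x.1.1, x.1.2), S.r1 x.1.2), (x.2, (0 : S.A01))) :
      ((S.A0 × S.A1) × S.A01) × (S.A01 × S.A01)) := rfl

theorem mid1_f (S : Cosp k) (x : (S.A1 × S.A0) × S.A01) :
    (mid1 S).f x = ((((x.1.2, x.1.1), S.r0 x.1.2), ((0 : S.A01), x.2)) :
      ((S.A0 × S.A1) × S.A01) × (S.A01 × S.A01)) := rfl

theorem cech_d' (S : Cosp k) (x : (S.A0 × S.A1) × S.A01) :
    S.cech.dg.d x = ((((0 : S.A0), (0 : S.A1)), S.r1 x.1.2 - S.r0 x.1.1) :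
      (S.A0 × S.A1) × S.A01) := rfl

theorem cswap_d (S : Cosp k) (x : (S.A1 × S.A0) × S.A01) :
    (cswap S).cech.dg.d x = ((((0 : S.A1), (0 : S.A0)), S.r0 x.1.2 - S.r1 x.1.1) :
      (S.A1 × S.A0) × S.A01) := rfl

theorem mid0_dqi (S : Cosp k) : DQI (mid0 S) := by
  constructor
  · rintro x hx ⟨y, hy⟩
    have e1 := (cmid_d S y).symm.trans (hy.trans (mid0_f S x))
    have e2 := congrArg (fun z => z.1.1.1) e1
    have e3 := congrArg (fun z => z.1.1.2) e1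
    have e4 := congrArg (fun z => z.2.1) e1
    have e5 := congrArg (fun z => z.2.2) e1
    simp only at e2 e3 e4 e5
    refine ⟨(y.1.1, (0 : S.A01)), (cech_d' S (y.1.1, (0 : S.A01))).trans ?_⟩
    refine Prod.ext (Prod.ext e2 e3) ?_
    rw [sub_eq_zero] at e5
    change S.r1 y.1.1.2 - S.r0 y.1.1.1 = x.2
    rw [← e5]
    exact e4
  · rintro y hy
    have e1 := (cmid_d S y).symm.trans hy
    have e4 := congrArg (fun z => z.2.1) e1
    have e5 := congrArg (fun z => z.2.2) e1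
    simp only at e4 e5
    have e6 : y.1.2 = S.r0 y.1.1.1 := sub_eq_zero.1 e4
    have e7 : y.1.2 = S.r1 y.1.1.2 := sub_eq_zero.1 e5
    refine ⟨((y.1.1, y.2.1 - y.2.2) : (S.A0 × S.A1) × S.A01), (cech_d' S _).trans ?_,
      (((((0 : S.A0), (0 : S.A1)), y.2.2), ((0 : S.A01), (0 : S.A01))) :
        ((S.A0 × S.A1) × S.A01) × (S.A01 × S.A01)), (cmid_d S _).trans ?_⟩
    · refine Prod.ext rfl ?_
      change S.r1 y.1.1.2 - S.r0 y.1.1.1 = 0
      rw [← e6, ← e7, sub_self]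
    · refine Prod.ext (Prod.ext (Prod.ext ?_ ?_) ?_) (Prod.ext ?_ ?_)
      · exact (sub_self y.1.1.1).symm
      · exact (sub_self y.1.1.2).symm
      · exact e5.symm
      · change y.2.2 - S.r0 0 = y.2.1 - (y.2.1 - y.2.2)
        rw [map_zero, sub_zero, sub_sub_cancel]
      · change y.2.2 - S.r1 0 = y.2.2 - 0
        rw [map_zero]

theorem mid1_dqi (S : Cosp k) : DQI (mid1 S) := by
  constructor
  · rintro x hx ⟨y, hy⟩
    have e1 := (cmid_d S y).symm.trans (hy.trans (mid1_f S x))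
    have e2 := congrArg (fun z => z.1.1.1) e1
    have e3 := congrArg (fun z => z.1.1.2) e1
    have e4 := congrArg (fun z => z.2.1) e1
    have e5 := congrArg (fun z => z.2.2) e1
    simp only at e2 e3 e4 e5
    refine ⟨(((y.1.1.2, y.1.1.1), (0 : S.A01)) : (S.A1 × S.A0) × S.A01),
      (cswap_d S _).trans ?_⟩
    refine Prod.ext (Prod.ext e3 e2) ?_
    rw [sub_eq_zero] at e4
    change S.r0 y.1.1.1 - S.r1 y.1.1.2 = x.2
    rw [← e4]
    exact e5
  · rintro y hy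
    have e1 := (cmid_d S y).symm.trans hy
    have e4 := congrArg (fun z => z.2.1) e1
    have e5 := congrArg (fun z => z.2.2) e1
    simp only at e4 e5
    have e6 : y.1.2 = S.r0 y.1.1.1 := sub_eq_zero.1 e4
    have e7 : y.1.2 = S.r1 y.1.1.2 := sub_eq_zero.1 e5
    refine ⟨(((y.1.1.2, y.1.1.1), y.2.2 - y.2.1) : (S.A1 × S.A0) × S.A01),
      (cswap_d S _).trans ?_,
      (((((0 : S.A0), (0 : S.A1)), y.2.1), ((0 : S.A01), (0 : S.A01))) :
        ((S.A0 × S.A1) × S.A01) × (S.A01 × S.A01)), (cmid_d S _).trans ?_⟩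
    · refine Prod.ext rfl ?_
      change S.r0 y.1.1.1 - S.r1 y.1.1.2 = 0
      rw [← e6, ← e7, sub_self]
    · refine Prod.ext (Prod.ext (Prod.ext ?_ ?_) ?_) (Prod.ext ?_ ?_)
      · exact (sub_self y.1.1.1).symm
      · exact (sub_self y.1.1.2).symm
      · exact e4.symm
      · change y.2.1 - S.r0 0 = y.2.1 - 0
        rw [map_zero]
      · change y.2.1 - S.r1 0 = y.2.2 - (y.2.2 - y.2.1)
        rw [map_zero, sub_zero, sub_sub_cancel]

end Pool.Agent.MP_6e5bed_ag_GG
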