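import Pool.Agent.Lib.MP_6e5bed_ag_GG.Xa
import Pool.Agent.Lib.MP_6e5bed_ag_GG.BB
import Pool.Agent.Lib.MP_6e5bed_ag_GG.XSpn
import Pool.Agent.Lib.MP_6e5bed_ag_PN.Pc
import Pool.Agent.Lib.MP_6e5bed_ag_GG.XSw

set_option autoImplicit false
set_option linter.unusedVariables false

/-!
# MP_6e5bed_ag, THEOREM G: the X-datum of a point
-/

noncomputable section

namespace Pool.Agent.MP_6e5bed_ag_GG

open Pool.Agent.MP_6e5bed_ag_NC Pool.Agent.MP_6e5bed_ag_NS Pool.Agent.MP_6e5bed_ag_PN

universe u

/-- A point. -/
def XD.point (k : Type u) [Field k] : XD k where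
  i := Unit
  D := Empty
  M := k
  y := fun _ => 1
  O := fun _ _ => ⊤
  s := fun r => r.elim
  ne := ⟨()⟩
  mono := fun _ _ _ _ => le_rfl
  one_mem := fun _ => Submodule.mem_top
  mul_mem := fun _ _ => Submodule.mem_top
  one_mem' := fun r => r.elim
  s_mem := fun r => r.elim
  step := fun r => r.elim
  frac := fun u => ⟨fun r => r.elim, 1, u, Submodule.mem_top, Submodule.mem_top, one_ne_zero,
    (div_one u).symm⟩
  R_mem := fun _ _ _ => Submodule.mem_top
  loc := fun _ _ _ _ _ _ => ⟨0, Submodule.mem_top⟩
  fg := fun b a ha => ⟨{1}, fun _ _ => Submodule.mem_top, fun u _ => Submodule.subset_span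
    ⟨algebraMap k (Lau k Unit) u, (RR k a).algebraMap_mem u, 1, Finset.mem_singleton_self _, by
      rw [AlgHom.commutes, mul_one]
      rfl⟩⟩

variable {k : Type u} [Field k]

theorem LL_unit : LL Unit = [()] := by
  have h2 : (LL Unit).length = 1 := by
    unfold LL
    rw [Finset.length_toList]
    rfl
  match hL : LL Unit, h2 with
  | [a], _ => rfl

/-- the unit -/
def point_c : PAC (MP_6e5bed_ag_NC.base k) (XD.point k).ca.pa where
  f := fun c =>
    { f := (Algebra.linearMap k ((XD.point k).AXs c.1))
      deg := fun {i x} hx => conc_map (Algebra.linearMap k ((XD.point k).AXs c.1)) hx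
      d := fun x => (map_zero (Algebra.linearMap k ((XD.point k).AXs c.1))).symm
      one := map_one (algebraMap k ((XD.point k).AXs c.1))
      mul := fun (x : k) (y : k) => map_mul (algebraMap k ((XD.point k).AXs c.1)) x y }
  nat := fun {c d} h x => rfl

theorem point_bij (a : Set Unit) :
    Function.Bijective (algebraMap k ((XD.point k).AXs a)) := by
  constructor
  · intro x y h
    have h1 := congrArg (fun z => z.1 (fun r => r.elim) (fun r => r.elim)) h
    change (algebraMap k (Matrix (Empty → Bool) (Empty → Bool) k) x) (fun r => r.elim)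
      (fun r => r.elim) = (algebraMap k (Matrix (Empty → Bool) (Empty → Bool) k) y)
      (fun r => r.elim) (fun r => r.elim) at h1
    rw [Matrix.algebraMap_matrix_apply, Matrix.algebraMap_matrix_apply, if_pos rfl,
      if_pos rfl] at h1
    exact h1
  · intro z
    refine ⟨z.1 (fun r => r.elim) (fun r => r.elim), Subtype.ext (Matrix.ext fun e e' => ?_)⟩
    change (algebraMap k (Matrix (Empty → Bool) (Empty → Bool) k) _) e e' = z.1 e e'
    have he : e = fun r : Empty => r.elim := funext fun r => r.elim
    have he' : e' = fun r : Empty => r.elim := funext fun r => r.elim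
    subst he
    subst he'
    rw [Matrix.algebraMap_matrix_apply, if_pos rfl]
    rfl

/-- The Čech dg algebra of a point. -/
theorem point_dqi : DQI ((point_c (k := k)).dh [()] (FS.e Unit)) := by
  refine dqi_bij ?_
  have h := point_bij (k := k) ((FS.e Unit).ins ()).1
  constructor
  · intro x y hxy
    exact h.1 (congrArg (fun z => z.1.2) hxy)
  · intro z
    obtain ⟨x, hx⟩ := h.2 z.1.2
    exact ⟨x, Prod.ext (Prod.ext rfl hx) rfl⟩

theorem exists_point : ∃ r : DHom (MP_6e5bed_ag_NC.base k) (TT (XD.point k).ca), DQI r := by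
  have key : ∀ L : List Unit, L = [()] →
      ∃ r : DHom (MP_6e5bed_ag_NC.base k) (cA (XD.point k).ca.pa L (FS.e Unit)), DQI r := by
    rintro L rfl
    exact ⟨_, point_dqi⟩
  exact key (LL Unit) LL_unit

end Pool.Agent.MP_6e5bed_ag_GG
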