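import Pool.Agent.Lib.MP_6e5bed_ag_GG.XCk
import Pool.Agent.Lib.MP_6e5bed_ag_GG.XPt
import Pool.Agent.Lib.MP_6e5bed_ag_GG.TFa
import Pool.Agent.Lib.MP_6e5bed_ag_GG.Gd

set_option autoImplicit false
set_option linter.unusedVariables false

/-!
# MP_6e5bed_ag, THEOREM G: X-data with a given composite of function fields of curves (9.1)-(9.4)
-/

noncomputable section

namespace Pool.Agent.MP_6e5bed_ag_GG

open Pool.Agent.MP_6e5bed_ag_NC Pool.Agent.MP_6e5bed_ag_NS Pool.Agent.MP_6e5bed_ag_PN
open Pool.Agent.MP_6e5bed_ag_PS (SPJ)
open scoped TensorProduct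

universe u

variable {k : Type u} [Field k]

/-- The Čech dg algebra is quasi-isomorphic to a tensor product of dg algebras of curves. -/
def XGood (X : XD k) : Prop := ∃ W : DGA k, Gd W ∧ QE W (TT X.ca)

theorem XGood.spj [IsAlgClosed k] {X : XD k} (h : XGood X) {Good : DGA k → Prop}
    (hG : ∀ W, Gd W → Good W) : SPJ Good (TT X.ca) := by
  obtain ⟨W, hW, hq⟩ := h
  exact hq.spj (SPJ.of_good hW.smooth hW.proper (hG W hW))

theorem XGood.spjGd [IsAlgClosed k] {X : XD k} (h : XGood X) : SPJ Gd (TT X.ca) :=
  h.spj fun _ h => h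

theorem XGood.point : XGood (XD.point k) := by
  obtain ⟨r, hr⟩ := exists_point (k := k)
  exact ⟨_, Gd.base, QE.up r hr (QE.refl _)⟩

theorem XGood.curve (D : FExt k) : XGood (XD.curve D) := by
  obtain ⟨W, hW, h⟩ := curve_qe D
  exact ⟨W, Gd.curve hW, h⟩

theorem XGood.prod (P : XP k) (h1 : XGood P.X1) (h2 : XGood P.X2) : XGood P.xd := by
  obtain ⟨W, hW, e⟩ := h1
  obtain ⟨W', hW', e'⟩ := h2
  exact ⟨_, Gd.ten hW hW', (e.tensor e').trans P.qe⟩

variable {Ω : Type u} [Field Ω] [Algebra k Ω]

section

variable (N : IntermediateField k Ω) (D : FExt k) (j : D.L →ₐ[k] Ω)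

/-- the inclusion of the curve -/
def pfj : D.L →ₐ[k] (N ⊔ j.fieldRange : IntermediateField k Ω) :=
  j.codRestrict (N ⊔ j.fieldRange).toSubalgebra
    (fun x => (le_sup_right : j.fieldRange ≤ N ⊔ j.fieldRange) ⟨x, rfl⟩)

theorem pfj_coe (x : D.L) : ((pfj N D j x : (N ⊔ j.fieldRange : IntermediateField k Ω)) : Ω) = j x :=
  rfl

theorem pf_lift (t : N ⊗[k] D.L) :
    ((Algebra.TensorProduct.lift (IntermediateField.inclusion
      (le_sup_left : N ≤ N ⊔ j.fieldRange)) (pfj N D j) (fun _ _ => Commute.all _ _) t :
        (N ⊔ j.fieldRange : IntermediateField k Ω)) : Ω) =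
      Algebra.TensorProduct.lift N.val j (fun _ _ => Commute.all _ _) t := by
  induction t using TensorProduct.induction_on with
  | zero => rw [map_zero, map_zero]; rfl
  | add x y hx hy => rw [map_add, map_add, ← hx, ← hy]; rfl
  | tmul a b =>
    rw [Algebra.TensorProduct.lift_tmul, Algebra.TensorProduct.lift_tmul]
    rfl

end

/-- (9.1)-(9.4): every composite of linearly disjoint function fields of curves is the function
field of an X-datum whose Čech dg algebra is a tensor product of dg algebras of curves. -/
theorem cell {N : IntermediateField k Ω} (hN : IsPF k N) :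
    ∃ X : XD k, XGood X ∧ Nonempty (X.M ≃ₐ[k] N) := by
  induction hN with
  | bot => exact ⟨XD.point k, XGood.point, ⟨(IntermediateField.botEquiv k Ω).symm⟩⟩
  | sup N D j hN hj ih =>
    obtain ⟨X1, hX1, ⟨e1⟩⟩ := ih
    have key : ∀ t : X1.M ⊗[k] D.L,
        Algebra.TensorProduct.lift ((IntermediateField.inclusion
          (le_sup_left : N ≤ N ⊔ j.fieldRange)).comp (e1 : X1.M →ₐ[k] N)) (pfj N D j)
          (fun _ _ => Commute.all _ _) t =
        Algebra.TensorProduct.lift (IntermediateField.inclusion
          (le_sup_left : N ≤ N ⊔ j.fieldRange)) (pfj N D j) (fun _ _ => Commute.all _ _)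
          (Algebra.TensorProduct.congr e1 (AlgEquiv.refl : D.L ≃ₐ[k] D.L) t) := by
      intro t
      induction t using TensorProduct.induction_on with
      | zero => rw [map_zero, map_zero, map_zero]
      | add x y hx hy => rw [map_add, hx, hy, ← map_add, ← map_add]
      | tmul a b =>
        rw [Algebra.TensorProduct.lift_tmul, Algebra.TensorProduct.congr_apply,
          Algebra.TensorProduct.map_tmul, Algebra.TensorProduct.lift_tmul]
        rfl
    have hinj0 : Function.Injective (Algebra.TensorProduct.lift (IntermediateField.inclusion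
        (le_sup_left : N ≤ N ⊔ j.fieldRange)) (pfj N D j) (fun _ _ => Commute.all _ _)) := by
      intro x y hxy
      refine hj ?_
      rw [← pf_lift N D j x, ← pf_lift N D j y, hxy]
    let P : XP k :=
      { X1 := X1
        X2 := XD.curve D
        N := (N ⊔ j.fieldRange : IntermediateField k Ω)
        j1 := (IntermediateField.inclusion (le_sup_left : N ≤ N ⊔ j.fieldRange)).comp
          (e1 : X1.M →ₐ[k] N)
        j2 := pfj N D j
        inj := fun x y hxy => by
          have h1 := (key x).symm.trans (hxy.trans (key y))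
          exact (Algebra.TensorProduct.congr e1 (AlgEquiv.refl : D.L ≃ₐ[k] D.L)).injective
            (hinj0 h1)
        frac := fun u => by
          obtain ⟨a, b, hab⟩ := IsPF.quot N j u.2
          by_cases hb : Algebra.TensorProduct.lift N.val j (fun _ _ => Commute.all _ _) b = 0
          · refine ⟨0, 1, ?_, ?_⟩
            · rw [map_one]
              exact one_ne_zero
            · rw [map_zero, zero_div]
              refine Subtype.ext ?_
              rw [hab, hb, div_zero]
              rfl
          · refine ⟨(Algebra.TensorProduct.congr e1 (AlgEquiv.refl : D.L ≃ₐ[k] D.L)).symm a,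
              (Algebra.TensorProduct.congr e1 (AlgEquiv.refl : D.L ≃ₐ[k] D.L)).symm b, ?_, ?_⟩
            · intro h
              refine hb ?_
              rw [← pf_lift N D j b]
              have h1 := (key ((Algebra.TensorProduct.congr e1
                (AlgEquiv.refl : D.L ≃ₐ[k] D.L)).symm b)).symm.trans h
              rw [AlgEquiv.apply_symm_apply] at h1
              rw [h1]
              rfl
            · have h1 := key ((Algebra.TensorProduct.congr e1
                (AlgEquiv.refl : D.L ≃ₐ[k] D.L)).symm a)
              have h2 := key ((Algebra.TensorProduct.congr e1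
                (AlgEquiv.refl : D.L ≃ₐ[k] D.L)).symm b)
              rw [AlgEquiv.apply_symm_apply] at h1 h2
              refine Eq.trans ?_ (congrArg₂ (· / ·) h1 h2).symm
              refine Subtype.ext ?_
              refine hab.trans ?_
              rw [← pf_lift N D j a, ← pf_lift N D j b]
              rfl }
    exact ⟨P.xd, XGood.prod P hX1 (XGood.curve D), ⟨AlgEquiv.refl⟩⟩

end Pool.Agent.MP_6e5bed_ag_GG
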