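import Pool.Agent.Lib.MP_6e5bed_ag_GG.HCX
import Pool.Agent.Lib.MP_6e5bed_ag_GG.XPF

set_option autoImplicit false
set_option linter.unusedVariables false

/-!
# MP_6e5bed_ag, THEOREM G: the X-datum of generic data, final form
-/

noncomputable section

namespace Pool.Agent.MP_6e5bed_ag_GG

universe u

/-- **The X-datum of generic data.** -/
theorem exists_XD {k : Type u} [Field k] [IsAlgClosed k] {i : Type} [Fintype i] {A : CA k i}
    (h : HC A) {m : Ch i} (g : GD A m) :
    ∃ (L : Type u) (_ : Field L) (_ : Algebra k L) (_ : Algebra L g.S)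
      (_ : IsScalarTower k L g.S) (X : XD k) (_ : Algebra L X.M) (_ : IsScalarTower k L X.M),
      Algebra.IsCentral L g.S ∧ Module.Finite L g.S ∧ Module.Finite L X.M ∧ XGood X :=
  exists_XD_of XGood (fun Ω _ _ N hN => cell hN) h g

end Pool.Agent.MP_6e5bed_ag_GG
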