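import Pool.Agent.Lib.MP_6e5bed_ag_GG.CbT
import Pool.Agent.Lib.MP_6e5bed_ag_GG.CohF
import Pool.Agent.Lib.MP_6e5bed_ag_GG.FrT
import Pool.Agent.Lib.MP_6e5bed_ag_NC.Acy
import Pool.Agent.Lib.MP_6e5bed_ag_NC.FTb
import Pool.Agent.Lib.MP_6e5bed_ag_NC.Perf

set_option autoImplicit false
set_option linter.unusedVariables false

/-!
# MP_6e5bed_ag, THEOREM G, section (6.2): `X ⊗_W V ⊗_{W'} Y` for perfect `V`
-/

noncomputable section

namespace Pool.Agent.MP_6e5bed_ag_GG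

open Pool.Agent.MP_6e5bed_ag_NC Pool.Agent.MP_6e5bed_ag_PN
open Pool.Agent.MP_6e5bed_ag_NS (Cx CHom ringH)
open scoped TensorProduct

universe u v

variable {k : Type u} [Field k]

section zact

variable {R R' : Type u} [Ring R] [Algebra k R] [Ring R'] [Algebra k R']
  {D : Type v} [CommRing D] [Algebra k D] (ρ : D →ₐ[k] R ⊗[k] R'ᵐᵒᵖ)

/-- The action of `D` on a bimodule. -/
def zact (Z : Bim (MP_6e5bed_ag_NC.ring k R) (MP_6e5bed_ag_NC.ring k R')) : DAct D (bcx Z) where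
  φ := (bact Z).comp ρ
  deg := fun r _ hx => bact_deg Z (ρ r) hx
  d := fun r x => bact_d Z (ρ r) x

variable {X Y Z : Bim (MP_6e5bed_ag_NC.ring k R) (MP_6e5bed_ag_NC.ring k R')}

theorem zact_φ (r : D) (x : X.M) : (zact ρ X).φ r x = bact X (ρ r) x := rfl

/-- a closed morphism of degree zero, as a morphism of complexes -/
def zch (f : GMap 0 X Y) (h : f.dd = 0) : CHom (bcx X) (bcx Y) where
  f := f.f
  deg := fun {n x} hx => by
    have h1 := f.deg hx
    rwa [add_zero] at h1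
  d := fun x => GMap.d_f_zero h x

theorem zch_eqv (f : GMap 0 X Y) (h : f.dd = 0) : (zact ρ X).Eqv (zact ρ Y) (zch f h) :=
  fun r x => gmap_bact f (ρ r) x

variable {ρ}

theorem fgt_mid [IsNoetherianRing D] (h : IsExt X Y Z) (h1 : (zact ρ X).FGt)
    (h2 : (zact ρ Z).FGt) : (zact ρ Y).FGt := by
  obtain ⟨i, p, r, σ, hi, hp, e1, e2, e3, e4, e5⟩ := h
  refine DAct.FGt.mid (i := zch i hi) (p := zch p hp) (Function.LeftInverse.injective e1)
    (Function.RightInverse.surjective e2) (fun x => ⟨fun hx => ⟨r.f x, ?_⟩, ?_⟩)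
    (zch_eqv ρ i hi) (zch_eqv ρ p hp) h1 h2
  · have h3 := e5 x
    have hx' : p.f x = 0 := hx
    rw [hx', map_zero, add_zero] at h3
    exact h3
  · rintro ⟨y, rfl⟩
    exact e3 y

theorem fgt_right [IsNoetherianRing D] (h : IsExt X Y Z) (h1 : (zact ρ X).FGt)
    (h2 : (zact ρ Y).FGt) : (zact ρ Z).FGt := by
  obtain ⟨i, p, r, σ, hi, hp, e1, e2, e3, e4, e5⟩ := h
  refine DAct.FGt.right (i := zch i hi) (p := zch p hp) (Function.LeftInverse.injective e1)
    (Function.RightInverse.surjective e2) (fun x => ⟨fun hx => ⟨r.f x, ?_⟩, ?_⟩)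
    (zch_eqv ρ i hi) (zch_eqv ρ p hp) h2 h1
  · have h3 := e5 x
    have hx' : p.f x = 0 := hx
    rw [hx', map_zero, add_zero] at h3
    exact h3
  · rintro ⟨y, rfl⟩
    exact e3 y

theorem fgt_left [IsNoetherianRing D] (h : IsExt X Y Z) (h1 : (zact ρ Y).FGt)
    (h2 : (zact ρ Z).FGt) : (zact ρ X).FGt := by
  obtain ⟨i, p, r, σ, hi, hp, e1, e2, e3, e4, e5⟩ := h
  refine DAct.FGt.left (i := zch i hi) (p := zch p hp) (Function.LeftInverse.injective e1)
    (Function.RightInverse.surjective e2) (fun x => ⟨fun hx => ⟨r.f x, ?_⟩, ?_⟩)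
    (zch_eqv ρ i hi) (zch_eqv ρ p hp) h2 h1
  · have h3 := e5 x
    have hx' : p.f x = 0 := hx
    rw [hx', map_zero, add_zero] at h3
    exact h3
  · rintro ⟨y, rfl⟩
    exact e3 y

theorem fgt_summand (h : IsSummand X Y) (h1 : (zact ρ Y).FGt) : (zact ρ X).FGt := by
  obtain ⟨i, r, hi, hr, e1⟩ := h
  refine DAct.FGt.retract (f := zch i hi) (g := zch r hr) (fun x hx => ⟨0, ?_⟩)
    (zch_eqv ρ r hr) h1
  have h2 : r.f (i.f x) = x := e1 x
  rw [map_zero]
  exact (sub_eq_zero.2 h2.symm).symm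

theorem fgt_contr (h : Contr X) : (zact ρ X).FGt := by
  exact DAct.FGt.of_acyc _ (fun x hx => h.acyc x hx)

end zact

section two

variable {i j : Type} [Fintype i] [Fintype j] {A : CA k i} {A' : CA k j} {W W' : DGA k}

/-- the functor `V ↦ X ⊗_W V ⊗_{W'} Y` -/
def xvy {A C : DGA k} (X : Bim A W) (Y : Bim W' C) : DGFun W W' A C :=
  (tbR W Y).comp (tbL X C)

theorem xvy_obj {A C : DGA k} (X : Bim A W) (Y : Bim W' C) (V : Bim W W') :
    (xvy X Y).obj V = tb X (tb V Y) := rfl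

/-- **(6.2), one chart.** -/
theorem fgt_xvy {R R' : Type u} [Ring R] [Algebra k R] [Ring R'] [Algebra k R']
    {D : Type v} [CommRing D] [Algebra k D] [IsNoetherianRing D] {ρ : D →ₐ[k] R ⊗[k] R'ᵐᵒᵖ}
    (X : Bim (MP_6e5bed_ag_NC.ring k R) W) (Y : Bim W' (MP_6e5bed_ag_NC.ring k R'))
    (hf : (zact ρ (tb X (tb (free W W') Y))).FGt) {V : Bim W W'} (hV : Perf V) :
    (zact ρ (tb X (tb V Y))).FGt := by
  induction hV with
  | free => exact hf
  | contr h => exact fgt_contr ((xvy X Y).contr h)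
  | mid h _ _ h1 h2 => exact fgt_mid ((xvy X Y).isExt h) h1 h2
  | left h _ _ h1 h2 => exact fgt_left ((xvy X Y).isExt h) h1 h2
  | right h _ _ h1 h2 => exact fgt_right ((xvy X Y).isExt h) h1 h2
  | summand h _ h1 => exact fgt_summand ((xvy X Y).isSummand h) h1

section free

variable {R R' : Type u} [Ring R] [Algebra k R] [Ring R'] [Algebra k R']
  {D D' : Type u} [CommRing D] [Algebra k D] [CommRing D'] [Algebra k D']
  {ρ : D ⊗[k] D' →ₐ[k] R ⊗[k] R'ᵐᵒᵖ}
  (X : Bim (MP_6e5bed_ag_NC.ring k R) W) (Y : Bim W' (MP_6e5bed_ag_NC.ring k R'))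
  {a : DAct D (bcx X)} {b : DAct D' (bcx Y)} {α : D → R} {β : D' → R'}

theorem frH_eqv (ha : ∀ r x, a.φ r x = X.l (α r) x) (hb : ∀ r y, b.φ r y = Y.r (β r) y)
    (hρ : ∀ r r', ρ (r ⊗ₜ r') = α r ⊗ₜ MulOpposite.op (β r')) :
    (a.tens b).Eqv (zact ρ (tb X (tb (free W W') Y))) (frH X Y) := by
  intro r v
  induction r using TensorProduct.induction_on with
  | zero =>
    rw [map_zero, map_zero]
    exact map_zero _
  | add r r' h h' =>
    rw [map_add, map_add]
    exact (map_add (frH X Y).f _ _).trans (congrArg₂ (· + ·) h h')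
  | tmul r r' =>
    change X.M ⊗[k] Y.M at v
    change frF X Y (tφ a b (r ⊗ₜ r') v) = bact _ (ρ (r ⊗ₜ r')) (frF X Y v)
    rw [hρ]
    induction v using TensorProduct.induction_on with
    | zero =>
      rw [map_zero, map_zero]
      exact (congrArg (frF X Y) (map_zero _)).trans (map_zero _)
    | add v v' h h' =>
      rw [map_add, map_add, ← h, ← h', ← map_add]
      exact congrArg (frF X Y) (map_add _ _ _)
    | tmul x y =>
      rw [bact_tmul, frF_tmul]
      refine (congrArg (frF X Y) (tφ_tmul a b r r' x y)).trans ?_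
      rw [ha, hb]
      refine (frF_tmul X Y _ _).trans ?_
      refine Eq.trans ?_ (congrArg ((tb X (tb (free W W') Y)).l (α r))
        (tb_r (M := X) (N := tb (free W W') Y) (β r') x _)).symm
      refine Eq.trans ?_ (tb_l (M := X) (N := tb (free W W') Y) (α r) x _).symm
      refine congrArg (fun z => tm (M := X) (N := tb (free W W') Y) (X.l (α r) x) z) ?_
      exact (tb_r (M := free W W') (N := Y) (β r') (fr1 W W') y).symm

/-- The free case. -/
theorem fgt_free (ha : ∀ r x, a.φ r x = X.l (α r) x) (hb : ∀ r y, b.φ r y = Y.r (β r) y)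
    (hρ : ∀ r r', ρ (r ⊗ₜ r') = α r ⊗ₜ MulOpposite.op (β r')) (ha' : a.FGt) (hb' : b.FGt) :
    (zact ρ (tb X (tb (free W W') Y))).FGt := by
  have hd : ∀ v, (tb X (tb (free W W') Y)).dg.d (frF X Y v) =
      frF X Y ((X.dg.tensor Y.dg).d v) := frF_d X Y
  refine (DAct.FGt.qi (f := frH X Y) ⟨?_, ?_⟩ (frH_eqv X Y ha hb hρ)).1 (ha'.tens hb')
  · rintro x hx ⟨y, hy⟩
    refine ⟨frG X Y y, ?_⟩
    have h1 : frF X Y ((X.dg.tensor Y.dg).d (frG X Y y)) = frF X Y x := by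
      rw [← hd, frF_frG]
      exact hy
    have h2 := congrArg (frG X Y) h1
    rw [frG_frF, frG_frF] at h2
    exact h2
  · intro y hy
    refine ⟨frG X Y y, ?_, 0, ?_⟩
    · have h1 : frF X Y ((X.dg.tensor Y.dg).d (frG X Y y)) = 0 := by
        rw [← hd, frF_frG]
        exact hy
      have h2 := congrArg (frG X Y) h1
      rw [frG_frF, map_zero] at h2
      exact h2
    · rw [map_zero]
      exact (sub_eq_zero.2 (frF_frG X Y y).symm).symm

end free

theorem BPB.dact_fgt (F : BPB A A') (p : Ch i × Ch j)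
    (h : (zact (D := RR k p.1.1 ⊗[k] RR k p.2.1) (rB A A' p) (F.F p)).FGt) :
    (F.dact p).FGt := h

/-- the action of the coordinate rings -/
def chact (A : CA k i) (A' : CA k j) (c : Ch i) (c' : Ch j)
    (Z : Bim (MP_6e5bed_ag_NC.ring k (A.A c)) (MP_6e5bed_ag_NC.ring k (A'.A c'))) :
    DAct (RR k c.1 ⊗[k] RR k c'.1) (bcx Z) :=
  zact (D := RR k c.1 ⊗[k] RR k c'.1) (rB A A' (c, c')) Z

theorem chact_perf {c : Ch i} {c' : Ch j}
    (X : Bim (MP_6e5bed_ag_NC.ring k (A.A c)) W) (Y : Bim W' (MP_6e5bed_ag_NC.ring k (A'.A c')))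
    (hf : (chact A A' c c' (tb X (tb (free W W') Y))).FGt) {V : Bim W W'} (hV : Perf V) :
    (chact A A' c c' (tb X (tb V Y))).FGt := by
  have h := @fgt_xvy k _ W W' (A.A c) (A'.A c') _ _ _ _ (RR k c.1 ⊗[k] RR k c'.1) _ _
    (rr2_noe c c')
  exact h (ρ := rB A A' (c, c')) X Y hf hV

/-- **(6.2), one chart.** -/
theorem fgt_chart {c : Ch i} {c' : Ch j}
    (X : Bim (MP_6e5bed_ag_NC.ring k (A.A c)) W) (Y : Bim W' (MP_6e5bed_ag_NC.ring k (A'.A c')))
    {a : DAct (RR k c.1) (bcx X)} {b : DAct (RR k c'.1) (bcx Y)}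
    (ha : ∀ r x, a.φ r x = X.l (algebraMap (RR k c.1) (A.A c) r) x)
    (hb : ∀ r y, b.φ r y = Y.r (algebraMap (RR k c'.1) (A'.A c') r) y)
    (ha' : a.FGt) (hb' : b.FGt) {V : Bim W W'} (hV : Perf V) :
    (chact A A' c c' (tb X (tb V Y))).FGt := by
  refine chact_perf X Y ?_ hV
  unfold chact
  refine fgt_free (D := RR k c.1) (D' := RR k c'.1) (R := A.A c) (R' := A'.A c')
    (ρ := rB A A' (c, c')) X Y (a := a) (b := b) (α := fun r => algebraMap (RR k c.1) (A.A c) r)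
      (β := fun r => algebraMap (RR k c'.1) (A'.A c') r) ha hb ?_ ha' hb'
  exact fun r r' => rB_tmul A A' (c, c') r r'

/-- **(6.2)** For perfect `V` the cohomology of `X ⊗_W V ⊗_{W'} Y` is finitely generated. -/
theorem BPB.cmp_cohF (X : PB A.pa (PA.con i W)) {V : Bim W W'} (Y : PB (PA.con j W') A'.pa)
    (hX : ∀ c : Ch i, ∃ a : DAct (RR k c.1) (bcx (X.M c)),
      (∀ r x, a.φ r x = (X.M c).l (algebraMap (RR k c.1) (A.A c) r) x) ∧ a.FGt)
    (hY : ∀ c : Ch j, ∃ a : DAct (RR k c.1) (bcx (Y.M c)),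
      (∀ r x, a.φ r x = (Y.M c).r (algebraMap (RR k c.1) (A'.A c) r) x) ∧ a.FGt)
    (hV : Perf V) : (BPB.cmp X V Y).CohF := by
  intro p
  obtain ⟨a, ha, ha'⟩ := hX p.1
  obtain ⟨b, hb, hb'⟩ := hY p.2
  have h := fgt_chart (A := A) (A' := A') (c := p.1) (c' := p.2) (W := W) (W' := W')
    (X.M p.1) (Y.M p.2) (a := a) (b := b) ha hb ha' hb' hV
  exact h

end two

end Pool.Agent.MP_6e5bed_ag_GG
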