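import Pool.Agent.Lib.MP_6e5bed_ag_GG.XEz
import Pool.Agent.Lib.MP_6e5bed_ag_GG.GB

set_option autoImplicit false
set_option linter.unusedSectionVars false
set_option linter.unusedVariables false

/-!
# MP_6e5bed_ag, THEOREM G: the subsheaf `E0` for the generic fibre of a coherent bisheaf
-/

noncomputable section

namespace Pool.Agent.MP_6e5bed_ag_GG

open scoped TensorProduct

universe u

variable {k : Type u} [Field k] {i j : Type} [Fintype i] [Fintype j] {A : CA k i} {A' : CA k j}

/-- The generic fibre of a coherent bisheaf is coherent. -/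
theorem GV.coh {E : BS A A'} {m : Ch i} {g : GD A m} (v : GV E g) (hE : E.Coh) : v.V.Coh := by
  intro c'
  haveI : Module.Finite ((bs A A').B (m, c')) (E.E (m, c')) := hE (m, c')
  obtain ⟨s, hs⟩ := (inferInstance : Module.Finite ((bs A A').B (m, c')) (E.E (m, c'))).fg_top
  classical
  refine ⟨⟨s.image (v.ε c'), ?_⟩⟩
  rw [eq_top_iff]
  intro w _
  have h1 : ∀ x : E.E (m, c'), v.ε c' x ∈ Submodule.span ((bsS g.S A').B c')
      ((s.image (v.ε c') : Finset _) : Set (v.V.E c')) := by
    intro x
    have hx : x ∈ Submodule.span ((bs A A').B (m, c')) (s : Set (E.E (m, c'))) := by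
      rw [hs]
      trivial
    induction hx using Submodule.span_induction with
    | mem x hx => exact Submodule.subset_span (Finset.mem_image_of_mem _ hx)
    | zero =>
      rw [map_zero]
      exact zero_mem _
    | add x y _ _ hx hy =>
      rw [map_add]
      exact add_mem hx hy
    | smul b x _ hx =>
      induction b using bs_induction with
      | h0 =>
        rw [zero_smul, map_zero]
        exact zero_mem _
      | h1 a b =>
        rw [v.ε_smul]
        exact Submodule.smul_mem _ (show (bsS g.S A').B c' from (g.psi a ⊗ₜ[k] b)) hx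
      | h2 b b' hb hb' =>
        rw [add_smul, map_add]
        exact add_mem hb hb'
  obtain ⟨f, hf, x, hx⟩ := v.surj c' w
  obtain ⟨t, ht⟩ := (g.unit f hf).exists_left_inv
  have h2 : w = Zact v.V (t ⊗ₜ[k] 1 : bsSB g.S A' c') (v.ε c' x) := by
    rw [hx, ← Zact_mul, Algebra.TensorProduct.tmul_mul_tmul, mul_one]
    have h3 : t * g.fn f = 1 := ht
    rw [h3]
    exact (Zact_one v.V w).symm
  rw [h2]
  exact Submodule.smul_mem _ (show (bsS g.S A').B c' from (t ⊗ₜ[k] 1)) (h1 x)

section

variable (L : Type u) [Field L] [Algebra k L] {S : Type u} [Ring S] [Algebra k S]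
    [Algebra L S] [IsScalarTower k L S]

/-- finitely generated over `L ⊗ A'ᵒᵖ`, if `S` is finite over `L` -/
theorem LPre.fg_ofSh [Module.Finite L S] (V : Sh (bsS S A')) (hV : V.Coh) :
    (LPre.ofSh L V).Fg := by
  classical
  intro a
  haveI : Module.Finite ((bsS S A').B (Ch.sgl a)) (V.E (Ch.sgl a)) := hV (Ch.sgl a)
  obtain ⟨s, hs⟩ :=
    (inferInstance : Module.Finite ((bsS S A').B (Ch.sgl a)) (V.E (Ch.sgl a))).fg_top
  obtain ⟨t, ht⟩ := (inferInstance : Module.Finite L S).fg_top
  let G : Finset ((LPre.ofSh L V).E (Ch.sgl a)) :=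
    (t ×ˢ s).image fun q => shl V (Ch.sgl a) q.1 q.2
  refine ⟨G, fun v => ?_⟩
  let Y : Submodule L ((LPre.ofSh L V).E (Ch.sgl a)) :=
    Submodule.span L {z | ∃ b, ∃ w ∈ G, z = (LPre.ofSh L V).r (Ch.sgl a) b w}
  change v ∈ Y
  -- elements of the form `b (s x)`
  have h0 : ∀ (φ : S) (b : (A'.A (Ch.sgl a))ᵐᵒᵖ) (x : V.E (Ch.sgl a)), x ∈ s →
      (show (LPre.ofSh L V).E (Ch.sgl a) from shr V (Ch.sgl a) b (shl V (Ch.sgl a) φ x)) ∈ Y := by
    intro φ b x hx
    have hφ : φ ∈ Submodule.span L (t : Set S) := by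
      rw [ht]
      trivial
    induction hφ using Submodule.span_induction with
    | mem φ hφ =>
      exact Submodule.subset_span ⟨b, shl V (Ch.sgl a) φ x,
        Finset.mem_image.2 ⟨(φ, x), Finset.mem_product.2 ⟨hφ, hx⟩, rfl⟩, rfl⟩
    | zero =>
      rw [map_zero, LinearMap.zero_apply, map_zero]
      exact zero_mem Y
    | add φ φ' _ _ h h' =>
      rw [map_add, LinearMap.add_apply, map_add]
      exact add_mem h h'
    | smul c φ _ h =>
      have e1 : (show (LPre.ofSh L V).E (Ch.sgl a) from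
          shr V (Ch.sgl a) b (shl V (Ch.sgl a) (c • φ) x)) =
          c • (show (LPre.ofSh L V).E (Ch.sgl a) from
            shr V (Ch.sgl a) b (shl V (Ch.sgl a) φ x)) := by
        change _ = shl V (Ch.sgl a) (algebraMap L S c) (shr V (Ch.sgl a) b
          (shl V (Ch.sgl a) φ x))
        rw [sh_comm, ← Module.End.mul_apply (shl V (Ch.sgl a) (algebraMap L S c)), ← map_mul,
          ← Algebra.smul_def]
      rw [e1]
      exact Submodule.smul_mem _ _ h
  -- the action of `S ⊗ A'ᵒᵖ`
  have h1 : ∀ (b : bsSB S A' (Ch.sgl a)) (x : (LPre.ofSh L V).E (Ch.sgl a)), x ∈ Y →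
      (show (LPre.ofSh L V).E (Ch.sgl a) from Zact V b x) ∈ Y := by
    intro b x hx
    induction b using TensorProduct.induction_on with
    | zero =>
      rw [Zact_zero]
      exact zero_mem Y
    | tmul φ b =>
      induction hx using Submodule.span_induction with
      | mem x hx =>
        obtain ⟨b', w, hw, rfl⟩ := hx
        obtain ⟨⟨φ', y⟩, hq, rfl⟩ := Finset.mem_image.1 hw
        have e1 : Zact V (φ ⊗ₜ[k] b : bsSB S A' (Ch.sgl a))
            (shr V (Ch.sgl a) b' (shl V (Ch.sgl a) φ' y)) =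
            shr V (Ch.sgl a) (b * b') (shl V (Ch.sgl a) (φ * φ') y) := by
          rw [shr_shl, shr_shl, ← Zact_mul, Algebra.TensorProduct.tmul_mul_tmul]
        refine (congrArg (· ∈ Y) e1).mpr ?_
        exact h0 (φ * φ') (b * b') y (Finset.mem_product.1 hq).2
      | zero =>
        have e1 : Zact V (φ ⊗ₜ[k] b : bsSB S A' (Ch.sgl a)) (0 : V.E (Ch.sgl a)) = 0 :=
          Zact_zeror V _
        exact (congrArg (· ∈ Y) e1).mpr (zero_mem Y)
      | add x y _ _ hx hy =>
        have e1 : Zact V (φ ⊗ₜ[k] b : bsSB S A' (Ch.sgl a)) (x + y : V.E (Ch.sgl a)) =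
            Zact V (φ ⊗ₜ[k] b) x + Zact V (φ ⊗ₜ[k] b) y := Zact_addr V _ x y
        exact (congrArg (· ∈ Y) e1).mpr (add_mem hx hy)
      | smul c x _ hx =>
        have e1 : Zact V (φ ⊗ₜ[k] b : bsSB S A' (Ch.sgl a))
            (shl V (Ch.sgl a) (algebraMap L S c) x) =
            shl V (Ch.sgl a) (algebraMap L S c) (Zact V (φ ⊗ₜ[k] b) x) := by
          rw [shl_apply, shl_apply, ← Zact_mul, ← Zact_mul,
            Algebra.TensorProduct.tmul_mul_tmul, Algebra.TensorProduct.tmul_mul_tmul,
            mul_one, one_mul, Algebra.commutes]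
        exact (congrArg (· ∈ Y) e1).mpr (Submodule.smul_mem Y c hx)
    | add b b' hb hb' =>
      rw [Zact_add]
      exact add_mem hb hb'
  have hv : (show V.E (Ch.sgl a) from v) ∈
      Submodule.span ((bsS S A').B (Ch.sgl a)) (s : Set (V.E (Ch.sgl a))) := by
    rw [hs]
    trivial
  have h2 : ∀ x : V.E (Ch.sgl a), x ∈ Submodule.span ((bsS S A').B (Ch.sgl a))
      (s : Set (V.E (Ch.sgl a))) → (show (LPre.ofSh L V).E (Ch.sgl a) from x) ∈ Y := by
    intro x hx
    induction hx using Submodule.span_induction with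
    | mem x hx =>
      have h3 := h0 1 1 x hx
      rw [map_one, map_one] at h3
      exact h3
    | zero => exact zero_mem Y
    | add x y _ _ hx hy => exact add_mem hx hy
    | smul b x _ hx => exact h1 b x hx
  exact h2 _ hv

/-- THE SUBSHEAF `E0` exists for the generic fibre of a coherent bisheaf. -/
theorem exists_E0D_of_coh [Module.Finite L S] (V : Sh (bsS S A')) (hV : V.Coh) :
    Nonempty (E0D (LPre.ofSh L V)) :=
  (LPre.ofSh L V).exists_E0D (LPre.fg_ofSh L V hV)

end

end Pool.Agent.MP_6e5bed_ag_GG
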