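import Mathlib

set_option autoImplicit false
set_option linter.unusedVariables false
set_option linter.unusedSectionVars false

/-!
# MP_6e5bed_ag, THEOREM G, (8.6): `S ⊗ (M ⊗ V) = V ^ n`

`S` a central simple algebra over the field `L`, `M` a finite extension of `L`.
-/

noncomputable section

namespace Pool.Agent.MP_6e5bed_ag_GG

open scoped TensorProduct

universe u

section
attribute [local instance] TensorProduct.Algebra.module

/-- every `L`-linear endomorphism of a central simple `L`-algebra `S` is a sum of maps
`x ↦ p x q`. -/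
theorem exists_mulLR (L S : Type u) [Field L] [Ring S] [Algebra L S] [Algebra.IsCentral L S]
    [IsSimpleRing S] [FiniteDimensional L S] (g : S →ₗ[L] S) :
    ∃ (n : ℕ) (p q : Fin n → S), ∀ x, g x = ∑ i, p i * x * q i := by
  classical
  let R := S ⊗[L] Sᵐᵒᵖ
  have hsm : ∀ (a : S) (b : Sᵐᵒᵖ) (x : S), (a ⊗ₜ[L] b : R) • x = a * x * b.unop := by
    intro a b x
    rw [TensorProduct.Algebra.smul_def]
    change a • (b • x) = _
    rw [MulOpposite.smul_eq_mul_unop, smul_eq_mul, mul_assoc]
  have hl : ∀ (a x : S), ((a ⊗ₜ[L] (1 : Sᵐᵒᵖ) : R)) • x = a * x := fun a x => by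
    rw [hsm, MulOpposite.unop_one, mul_one]
  have hr : ∀ (a x : S), (((1 : S) ⊗ₜ[L] MulOpposite.op a : R)) • x = x * a := fun a x => by
    rw [hsm, MulOpposite.unop_op, one_mul]
  have hrep : ∀ r : R, ∃ (n : ℕ) (p : Fin n → S) (q : Fin n → S),
      ∀ x, r • x = ∑ i, p i * x * q i := by
    intro r
    induction r using TensorProduct.induction_on with
    | zero => exact ⟨0, fun i => 0, fun i => 0, fun x => (zero_smul R x).trans
        (Fin.sum_univ_zero _).symm⟩
    | tmul a b => exact ⟨1, fun _ => a, fun _ => b.unop, fun x => by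
        rw [hsm, Fin.sum_univ_one]⟩
    | add r r' h h' =>
      obtain ⟨n, p, q, h⟩ := h
      obtain ⟨n', p', q', h'⟩ := h'
      refine ⟨n + n', Fin.append p p', Fin.append q q', fun x => ?_⟩
      refine (add_smul r r' x).trans ?_
      rw [h, h', Fin.sum_univ_add]
      simp only [Fin.append_left, Fin.append_right]
  have hsimple : IsSimpleModule R S := by
    rw [isSimpleModule_iff]
    refine { exists_pair_ne := ⟨⊥, ⊤, bot_ne_top⟩, eq_bot_or_eq_top := fun U => ?_ }
    by_cases hU : U = ⊥
    · exact Or.inl hU
    right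
    obtain ⟨a, ha, ha0⟩ := Submodule.exists_mem_ne_zero_of_ne_bot hU
    let I : TwoSidedIdeal S := TwoSidedIdeal.mk' {z | z ∈ U}
      U.zero_mem (fun {a b} ha hb => U.add_mem ha hb) (fun {a} ha => U.neg_mem ha)
      (fun {a b} hb => by
        have := U.smul_mem (a ⊗ₜ[L] (1 : Sᵐᵒᵖ) : R) hb
        rwa [hl] at this)
      (fun {a b} ha => by
        have := U.smul_mem ((1 : S) ⊗ₜ[L] MulOpposite.op b : R) ha
        rwa [hr] at this)
    have h1 : (1 : S) ∈ I := IsSimpleRing.one_mem_of_ne_zero_mem I ha0 (by
      rw [TwoSidedIdeal.mem_mk']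
      exact ha)
    rw [TwoSidedIdeal.mem_mk'] at h1
    rw [eq_top_iff]
    intro x _
    have := U.smul_mem (x ⊗ₜ[L] (1 : Sᵐᵒᵖ) : R) h1
    rwa [hl, mul_one] at this
  -- the endomorphisms are the scalars
  have hend : ∀ φ : Module.End R S, ∃ c : L, ∀ x : S, φ x = c • x := by
    intro φ
    have hcen : ∀ y : S, φ 1 * y = y * φ 1 := by
      intro y
      have h1 := φ.map_smul ((1 : S) ⊗ₜ[L] MulOpposite.op y : R) 1
      have h2 := φ.map_smul (y ⊗ₜ[L] (1 : Sᵐᵒᵖ) : R) 1
      rw [hr, hr, one_mul] at h1
      rw [hl, hl, mul_one] at h2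
      rw [← h1, h2]
    have hmem : φ 1 ∈ Subalgebra.center L S := by
      rw [Subalgebra.mem_center_iff]
      intro y
      exact (hcen y).symm
    have hbot := Algebra.IsCentral.out (K := L) (D := S) hmem
    obtain ⟨c, hc⟩ := Algebra.mem_bot.1 hbot
    refine ⟨c, fun x => ?_⟩
    have h2 := φ.map_smul (x ⊗ₜ[L] (1 : Sᵐᵒᵖ) : R) 1
    rw [hl, hl, mul_one] at h2
    rw [h2, ← hc, Algebra.smul_def, Algebra.commutes]
  let f : Module.End (Module.End R S) S :=
    { toFun := g
      map_add' := map_add g
      map_smul' := fun φ x => by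
        obtain ⟨c, hc⟩ := hend φ
        change g (φ x) = φ (g x)
        rw [hc, hc, map_smul] }
  let b := Module.finBasis L S
  obtain ⟨r, hr'⟩ := jacobson_density f (Finset.univ.image b)
  obtain ⟨n, p, q, hpq⟩ := hrep r
  refine ⟨n, p, q, fun x => ?_⟩
  let h : S →ₗ[L] S := ∑ i, LinearMap.mulLeftRight L (p i, q i)
  have hh : ∀ x, h x = ∑ i, p i * x * q i := fun x => by
    simp only [h, LinearMap.sum_apply, LinearMap.mulLeftRight_apply]
  have hgh : g = h := by
    refine b.ext fun i => ?_
    rw [hh, ← hpq, ← hr' (b i) (Finset.mem_image_of_mem _ (Finset.mem_univ i))]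
    rfl
  rw [hgh, hh]

end

variable (L S M : Type u) [Field L] [Ring S] [Algebra L S] [Algebra.IsCentral L S]
  [IsSimpleRing S] [FiniteDimensional L S] [Field M] [Algebra L M] [FiniteDimensional L M]

/-- the number of copies -/
def thN : ℕ := Module.finrank L S * Module.finrank L M

theorem thN_pos : 0 < thN L S M :=
  Nat.mul_pos (Module.finrank_pos_iff.2 inferInstance) (Module.finrank_pos_iff.2 inferInstance)

/-- `S ⊗ W → W ^ d`, `s ⊗ w ↦ (s b_i w)_i`, for an `S`-module `W` -/
def thP (W : Type u) [AddCommGroup W] [Module S W] [Module L W] [IsScalarTower L S W] :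
    S ⊗[L] W →ₗ[S] (Fin (Module.finrank L S) → W) :=
  TensorProduct.AlgebraTensorModule.lift
    { toFun := fun s =>
        { toFun := fun w i => (s * Module.finBasis L S i) • w
          map_add' := fun w w' => by
            funext i
            exact smul_add _ _ _
          map_smul' := fun c w => by
            funext i
            exact smul_comm _ _ _ }
      map_add' := fun s s' => by
        refine LinearMap.ext fun w => ?_
        funext i
        change ((s + s') * Module.finBasis L S i) • w = (s * Module.finBasis L S i) • w +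
          (s' * Module.finBasis L S i) • w
        rw [add_mul, add_smul]
      map_smul' := fun s s' => by
        refine LinearMap.ext fun w => ?_
        funext i
        change ((s * s') * Module.finBasis L S i) • w = s • ((s' * Module.finBasis L S i) • w)
        rw [mul_assoc, mul_smul] }

theorem thP_tmul (W : Type u) [AddCommGroup W] [Module S W] [Module L W] [IsScalarTower L S W]
    (s : S) (w : W) (i : Fin (Module.finrank L S)) :
    thP L S W (s ⊗ₜ[L] w) i = (s * Module.finBasis L S i) • w := rfl

/-- the multiplication map `S ⊗ S → End S`, `a ⊗ b ↦ (y ↦ a y b)` -/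
def thQ : S ⊗[L] S →ₗ[L] (S →ₗ[L] S) :=
  TensorProduct.lift (LinearMap.mk₂ L (fun a b => LinearMap.mulLeftRight L (a, b))
    (fun a a' b => LinearMap.ext fun y => by
      simp only [LinearMap.mulLeftRight_apply, LinearMap.add_apply, add_mul])
    (fun c a b => LinearMap.ext fun y => by
      simp only [LinearMap.mulLeftRight_apply, LinearMap.smul_apply, smul_mul_assoc])
    (fun a b b' => LinearMap.ext fun y => by
      simp only [LinearMap.mulLeftRight_apply, LinearMap.add_apply, mul_add])
    (fun c a b => LinearMap.ext fun y => by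
      simp only [LinearMap.mulLeftRight_apply, LinearMap.smul_apply, mul_smul_comm]))

theorem thQ_tmul (a b y : S) : thQ L S (a ⊗ₜ[L] b) y = a * y * b := by
  change LinearMap.mulLeftRight L (a, b) y = _
  rw [LinearMap.mulLeftRight_apply]

theorem thQ_inj : Function.Injective (thQ L S) := by
  have h : Module.finrank L (S ⊗[L] S) = Module.finrank L (S →ₗ[L] S) := by
    rw [Module.finrank_tensorProduct, Module.finrank_linearMap]
  rw [LinearMap.injective_iff_surjective_of_finrank_eq_finrank h]
  intro g
  obtain ⟨n, p, q, hpq⟩ := exists_mulLR L S g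
  refine ⟨∑ i, p i ⊗ₜ[L] q i, LinearMap.ext fun x => ?_⟩
  rw [map_sum, LinearMap.sum_apply, hpq]
  exact Finset.sum_congr rfl fun i _ => thQ_tmul L S _ _ _

/-- the elements dual to the basis: `∑ p y q = (coordinate j of y)` -/
theorem exists_dual (j : Fin (Module.finrank L S)) :
    ∃ (n : ℕ) (p q : Fin n → S), ∀ y, ∑ i, p i * y * q i =
      algebraMap L S ((Module.finBasis L S).coord j y) := by
  obtain ⟨n, p, q, hpq⟩ := exists_mulLR L S
    ((Algebra.linearMap L S).comp ((Module.finBasis L S).coord j))
  exact ⟨n, p, q, fun y => (hpq y).symm⟩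

theorem thP_bij (W : Type u) [AddCommGroup W] [Module S W] [Module L W] [IsScalarTower L S W] :
    Function.Bijective (thP L S W) := by
  classical
  choose n p q hpq using exists_dual L S
  let b := Module.finBasis L S
  have key : ∀ s : S, ∑ j, ∑ i, p j i ⊗ₜ[L] (q j i * (s * b j)) = s ⊗ₜ[L] (1 : S) := by
    intro s
    refine thQ_inj L S (LinearMap.ext fun y => ?_)
    rw [thQ_tmul, mul_one, map_sum, LinearMap.sum_apply]
    have h1 : ∀ j, (thQ L S (∑ i, p j i ⊗ₜ[L] (q j i * (s * b j)))) y = s * (b.coord j y • b j) := by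
      intro j
      rw [map_sum, LinearMap.sum_apply]
      have h2 : ∀ i, thQ L S (p j i ⊗ₜ[L] (q j i * (s * b j))) y = p j i * y * q j i * (s * b j) :=
        fun i => by rw [thQ_tmul, mul_assoc (p j i * y)]
      rw [Finset.sum_congr rfl fun i _ => h2 i, ← Finset.sum_mul, hpq, ← Algebra.smul_def,
        mul_smul_comm]
    rw [Finset.sum_congr rfl fun j _ => h1 j, ← Finset.mul_sum]
    congr 1
    exact b.sum_repr y
  let ev : S ⊗[L] S →ₗ[L] W →ₗ[L] S ⊗[L] W := TensorProduct.lift
    (LinearMap.mk₂ L (fun a c =>
        ({ toFun := fun w => a ⊗ₜ[L] (c • w)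
           map_add' := fun w w' => by rw [smul_add, TensorProduct.tmul_add]
           map_smul' := fun t w => by
             rw [RingHom.id_apply, ← TensorProduct.tmul_smul, smul_comm] } :
          W →ₗ[L] S ⊗[L] W))
    (fun a a' c => LinearMap.ext fun w => TensorProduct.add_tmul _ _ _)
    (fun t a c => LinearMap.ext fun w => rfl)
    (fun a c c' => LinearMap.ext fun w => by
      change a ⊗ₜ[L] ((c + c') • w) = a ⊗ₜ[L] (c • w) + a ⊗ₜ[L] (c' • w)
      rw [add_smul, TensorProduct.tmul_add])
    (fun t a c => LinearMap.ext fun w => by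
      change a ⊗ₜ[L] ((t • c) • w) = t • (a ⊗ₜ[L] (c • w))
      rw [smul_assoc, TensorProduct.tmul_smul]))
  have hev : ∀ (a c : S) (w : W), ev (a ⊗ₜ[L] c) w = a ⊗ₜ[L] (c • w) := fun a c w => rfl
  let σ : (Fin (Module.finrank L S) → W) →+ S ⊗[L] W :=
    { toFun := fun v => ∑ j, ∑ i, p j i ⊗ₜ[L] (q j i • v j)
      map_zero' := by
        simp only [Pi.zero_apply, smul_zero, TensorProduct.tmul_zero, Finset.sum_const_zero]
      map_add' := fun v v' => by
        simp only [Pi.add_apply, smul_add, TensorProduct.tmul_add, Finset.sum_add_distrib] }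
  have hσ : ∀ v, σ v = ∑ j, ∑ i, p j i ⊗ₜ[L] (q j i • v j) := fun v => rfl
  constructor
  · have hl : ∀ x, σ (thP L S W x) = x := by
      intro x
      induction x using TensorProduct.induction_on with
      | zero => rw [map_zero, map_zero]
      | add x y hx hy => rw [map_add, map_add, hx, hy]
      | tmul s w =>
        rw [hσ]
        have h1 : ∀ j i, p j i ⊗ₜ[L] (q j i • thP L S W (s ⊗ₜ[L] w) j) =
            ev (p j i ⊗ₜ[L] (q j i * (s * b j))) w := fun j i => by
          rw [hev, thP_tmul, ← mul_smul]
        rw [Finset.sum_congr rfl fun j _ => Finset.sum_congr rfl fun i _ => h1 j i]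
        have h2 : ev (∑ j, ∑ i, p j i ⊗ₜ[L] (q j i * (s * b j))) w =
            ∑ j, ∑ i, ev (p j i ⊗ₜ[L] (q j i * (s * b j))) w := by
          simp only [map_sum, LinearMap.sum_apply]
        rw [← h2, key, hev, one_smul]
    exact Function.LeftInverse.injective hl
  · have hr : ∀ v, thP L S W (σ v) = v := by
      intro v
      rw [hσ]
      funext l
      simp only [map_sum, Finset.sum_apply]
      have h1 : ∀ j, ∑ i, thP L S W (p j i ⊗ₜ[L] (q j i • v j)) l =
          algebraMap L S (b.coord j (b l)) • v j := by
        intro j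
        rw [← hpq j (b l), Finset.sum_smul]
        refine Finset.sum_congr rfl fun i _ => ?_
        rw [thP_tmul, ← mul_smul]
      rw [Finset.sum_congr rfl fun j _ => h1 j]
      rw [Finset.sum_eq_single l]
      · rw [Module.Basis.coord_apply, Module.Basis.repr_self, Finsupp.single_eq_same, map_one,
          one_smul]
      · intro j _ hj
        rw [Module.Basis.coord_apply, Module.Basis.repr_self, Finsupp.single_eq_of_ne hj, map_zero,
          zero_smul]
      · intro h
        exact absurd (Finset.mem_univ _) h
    exact Function.RightInverse.surjective hr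

theorem thP_nat (W W' : Type u) [AddCommGroup W] [Module S W] [Module L W] [IsScalarTower L S W]
    [AddCommGroup W'] [Module S W'] [Module L W'] [IsScalarTower L S W'] (f : W →ₗ[L] W')
    (hf : ∀ (s : S) (w : W), f (s • w) = s • f w) (x : S ⊗[L] W) :
    thP L S W' (LinearMap.lTensor S f x) = fun i => f (thP L S W x i) := by
  induction x using TensorProduct.induction_on with
  | zero =>
    rw [map_zero, map_zero, map_zero]
    funext i
    exact (map_zero f).symm
  | add x y hx hy =>
    rw [map_add, map_add, hx, hy, map_add]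
    funext i
    exact (map_add f _ _).symm
  | tmul s w =>
    rw [LinearMap.lTensor_tmul]
    funext i
    rw [thP_tmul, thP_tmul, hf]

/-- `M ⊗ V = V ^ e` -/
def thE (V : Type u) [AddCommGroup V] [Module L V] :
    M ⊗[L] V ≃ₗ[L] (Fin (Module.finrank L M) → V) :=
  (TensorProduct.comm L M V).trans ((TensorProduct.congr (LinearEquiv.refl L V)
    (Module.finBasis L M).equivFun).trans
      (TensorProduct.piScalarRight L L V (Fin (Module.finrank L M))))

theorem thE_tmul (V : Type u) [AddCommGroup V] [Module L V] (m : M) (v : V)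
    (r : Fin (Module.finrank L M)) :
    thE L M V (m ⊗ₜ[L] v) r = (Module.finBasis L M).repr m r • v := by
  rw [thE, LinearEquiv.trans_apply, LinearEquiv.trans_apply, TensorProduct.comm_tmul,
    TensorProduct.congr_tmul, TensorProduct.piScalarRight_apply,
    TensorProduct.piScalarRightHom_tmul]
  rfl

theorem thE_nat (V V' : Type u) [AddCommGroup V] [Module L V] [AddCommGroup V'] [Module L V']
    (f : V →ₗ[L] V') (x : M ⊗[L] V) :
    thE L M V' (LinearMap.lTensor M f x) = fun r => f (thE L M V x r) := by
  induction x using TensorProduct.induction_on with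
  | zero =>
    rw [map_zero, map_zero, map_zero]
    funext i
    exact (map_zero f).symm
  | add x y hx hy =>
    rw [map_add, map_add, hx, hy, map_add]
    funext i
    exact (map_add f _ _).symm
  | tmul m v =>
    rw [LinearMap.lTensor_tmul]
    funext r
    rw [thE_tmul, thE_tmul, map_smul]

/-- the numbering of the copies -/
def thI : Fin (thN L S M) ≃ Fin (Module.finrank L S) × Fin (Module.finrank L M) :=
  finProdFinEquiv.symm

section

variable (V : Type u) [AddCommGroup V] [Module S V] [Module L V] [IsScalarTower L S V]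

/-- the map (8.6) -/
def thF : S ⊗[L] (M ⊗[L] V) →ₗ[S] (Fin (thN L S M) → V) where
  toFun x n := thP L S (Fin (Module.finrank L M) → V)
    (LinearMap.lTensor S (thE L M V).toLinearMap x) (thI L S M n).1 (thI L S M n).2
  map_add' x y := by
    funext n
    rw [map_add, map_add]
    rfl
  map_smul' s x := by
    funext n
    have h : LinearMap.lTensor S (thE L M V).toLinearMap (s • x) =
        s • LinearMap.lTensor S (thE L M V).toLinearMap x := by
      induction x using TensorProduct.induction_on with
      | zero => rw [smul_zero, map_zero, smul_zero]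
      | add x y hx hy => rw [smul_add, map_add, hx, hy, map_add, smul_add]
      | tmul a w =>
        rw [TensorProduct.smul_tmul', LinearMap.lTensor_tmul, LinearMap.lTensor_tmul,
          TensorProduct.smul_tmul']
    rw [h, map_smul]
    rfl

theorem thF_apply (x : S ⊗[L] (M ⊗[L] V)) (n : Fin (thN L S M)) :
    thF L S M V x n = thP L S (Fin (Module.finrank L M) → V)
      (LinearMap.lTensor S (thE L M V).toLinearMap x) (thI L S M n).1 (thI L S M n).2 := rfl

theorem thF_tmul (s : S) (m : M) (v : V) (n : Fin (thN L S M)) :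
    thF L S M V (s ⊗ₜ[L] (m ⊗ₜ[L] v)) n = (s * Module.finBasis L S (thI L S M n).1) •
      ((Module.finBasis L M).repr m (thI L S M n).2 • v) := by
  rw [thF_apply, LinearMap.lTensor_tmul, thP_tmul]
  change (s * Module.finBasis L S (thI L S M n).1) • (thE L M V (m ⊗ₜ[L] v) (thI L S M n).2) = _
  rw [thE_tmul]

theorem thF_bij : Function.Bijective (thF L S M V) := by
  have h1 : Function.Bijective (LinearMap.lTensor S (thE L M V).toLinearMap) :=
    (LinearEquiv.lTensor S (thE L M V)).bijective
  have h2 := (thP_bij L S (Fin (Module.finrank L M) → V)).comp h1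
  constructor
  · intro x y hxy
    refine h2.1 ?_
    funext i
    funext r
    have h3 := congrFun hxy ((thI L S M).symm (i, r))
    rw [thF_apply, thF_apply, Equiv.apply_symm_apply] at h3
    exact h3
  · intro v
    obtain ⟨x, hx⟩ := h2.2 (fun i r => v ((thI L S M).symm (i, r)))
    refine ⟨x, ?_⟩
    funext n
    rw [thF_apply]
    have h3 := congrFun (congrFun hx (thI L S M n).1) (thI L S M n).2
    change thP L S (Fin (Module.finrank L M) → V)
      (LinearMap.lTensor S (thE L M V).toLinearMap x) (thI L S M n).1 (thI L S M n).2 = _ at h3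
    rw [h3, Prod.mk.eta, Equiv.symm_apply_apply]

end

/-- naturality for the `L`-linear maps which commute with `S` -/
theorem thF_nat' (V V' : Type u) [AddCommGroup V] [Module S V] [Module L V] [IsScalarTower L S V]
    [AddCommGroup V'] [Module S V'] [Module L V'] [IsScalarTower L S V'] (f : V →ₗ[L] V')
    (hf : ∀ (s : S) (v : V), f (s • v) = s • f v) (x : S ⊗[L] (M ⊗[L] V)) :
    thF L S M V' (LinearMap.lTensor S (LinearMap.lTensor M f) x) =
      fun n => f (thF L S M V x n) := by
  induction x using TensorProduct.induction_on with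
  | zero =>
    rw [map_zero, map_zero, map_zero]
    funext i
    exact (map_zero f).symm
  | add x y hx hy =>
    rw [map_add, map_add, hx, hy, map_add]
    funext i
    exact (map_add f _ _).symm
  | tmul s w =>
    induction w using TensorProduct.induction_on with
    | zero =>
      rw [TensorProduct.tmul_zero, map_zero, map_zero, map_zero]
      funext i
      exact (map_zero f).symm
    | add x y hx hy =>
      rw [TensorProduct.tmul_add, map_add, map_add, hx, hy, map_add]
      funext i
      exact (map_add f _ _).symm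
    | tmul m v =>
      rw [LinearMap.lTensor_tmul, LinearMap.lTensor_tmul]
      funext n
      rw [thF_tmul, thF_tmul, hf, map_smul]

theorem thF_nat (V V' : Type u) [AddCommGroup V] [Module S V] [Module L V] [IsScalarTower L S V]
    [AddCommGroup V'] [Module S V'] [Module L V'] [IsScalarTower L S V'] (f : V →ₗ[S] V')
    (x : S ⊗[L] (M ⊗[L] V)) :
    thF L S M V' (LinearMap.lTensor S (LinearMap.lTensor M (f.restrictScalars L)) x) =
      fun n => f (thF L S M V x n) :=
  thF_nat' L S M V V' (f.restrictScalars L) (fun s v => map_smul f s v) x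

end Pool.Agent.MP_6e5bed_ag_GG
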