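import Pool.Agent.Lib.MP_6e5bed_ag_GG.GH
import Pool.Agent.Lib.MP_6e5bed_ag_GG.Theta
import Pool.Agent.Lib.MP_6e5bed_ag_GG.ShA

set_option autoImplicit false
set_option linter.unusedSectionVars false
set_option linter.unusedVariables false

/-!
# MP_6e5bed_ag, THEOREM G, (8.6): the isomorphism `S ⊗_L (M ⊗_L V) = V ^ n` of sheaves
-/

noncomputable section

namespace Pool.Agent.MP_6e5bed_ag_GG

open scoped TensorProduct

universe u

variable {k : Type u} [Field k] {i j : Type} [Fintype i] [Fintype j] {A : CA k i} {A' : CA k j}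

section

variable (L : Type u) [Field L] [Algebra k L] {S : Type u} [Ring S] [Algebra k S] [Algebra L S]
  [IsScalarTower k L S] [Algebra.IsCentral L S] [IsSimpleRing S] [FiniteDimensional L S]
  (M : Type u) [Field M] [Algebra k M] [Algebra L M] [IsScalarTower k L M]
  [FiniteDimensional L M] (V : Sh (bsS S A'))

/-- the sheaf `S ⊗_L (M ⊗_L V)` -/
abbrev thQs : Sh (bsS S A') := (((LPre.ofSh L V).ten M).pre S).sh

/-- the map on a chart -/
def thsF (c : Ch j) : S ⊗[L] (M ⊗[L] VE L V c) →ₗ[S] (Fin (thN L S M) → VE L V c) :=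
  thF L S M (VE L V c)

theorem thsF_r (c : Ch j) (b : (A'.A c)ᵐᵒᵖ) (x : S ⊗[L] (M ⊗[L] VE L V c)) :
    thsF L M V c (LinearMap.lTensor S (LinearMap.lTensor M ((VEr L V c b).restrictScalars L)) x) =
      fun n => VEr L V c b (thsF L M V c x n) :=
  thF_nat L S M (VE L V c) (VE L V c) (VEr L V c b) x

theorem thsF_res {c d : Ch j} (h : c ≤ d) (x : S ⊗[L] (M ⊗[L] VE L V c)) :
    thsF L M V d (LinearMap.lTensor S (LinearMap.lTensor M ((VEres L V h).restrictScalars L)) x) =
      fun n => VEres L V h (thsF L M V c x n) :=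
  thF_nat L S M (VE L V c) (VE L V d) (VEres L V h) x

theorem thsF_act (c : Ch j) (b : bsSB S A' c) (x : S ⊗[L] (M ⊗[L] VE L V c)) :
    thsF L M V c ((((LPre.ofSh L V).ten M).pre S).act c b x) =
      fun n => Zact V b (thsF L M V c x n) := by
  have key : ∀ (F : S ⊗[L] (M ⊗[L] VE L V c) →ₗ[k] (Fin (thN L S M) → V.E c)),
      (∀ y, F y = thsF L M V c y) →
      F ((((LPre.ofSh L V).ten M).pre S).act c b x) = fun n => Zact V b (F x n) := by
    intro F hF
    induction b using TensorProduct.induction_on with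
    | zero =>
      refine (congrArg F (LinearMap.congr_fun
        (map_zero ((((LPre.ofSh L V).ten M).pre S).act c)) x)).trans ?_
      refine (map_zero F).trans ?_
      funext n
      exact (Zact_zero V _).symm
    | tmul s b =>
      refine (congrArg F (PreS.act_tmul (((LPre.ofSh L V).ten M).pre S) c s b x)).trans ?_
      refine (hF _).trans ?_
      refine (map_smul (thsF L M V c) s (LinearMap.lTensor S (LinearMap.lTensor M
        ((VEr L V c b).restrictScalars L)) x)).trans ?_
      rw [thsF_r]
      funext n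
      rw [hF]
      exact shl_shr c s b _
    | add b b' hb hb' =>
      refine (congrArg F (LinearMap.congr_fun
        (map_add ((((LPre.ofSh L V).ten M).pre S).act c) b b') x)).trans ?_
      refine (map_add F _ _).trans ?_
      refine (congrArg₂ (· + ·) hb hb').trans ?_
      funext n
      exact (Zact_add V _ _ _).symm
  exact key ((thsF L M V c).restrictScalars k) (fun _ => rfl)

/-- The morphism of sheaves (8.6). -/
def ths : ShH (thQs L M V) (V.pow (thN L S M)) where
  f := fun c =>
    { toFun := fun x => thsF L M V c x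
      map_add' := fun x y => map_add (thsF L M V c) x y
      map_smul' := fun b x => thsF_act L M V c b x }
  nat := fun {c d} h x => (thsF_res L M V h x).symm

theorem ths_apply (c : Ch j) (x : S ⊗[L] (M ⊗[L] VE L V c)) :
    (ths L M V).f c x = thF L S M (VE L V c) x := rfl

theorem ths_bij : (ths L M V).Bij := fun c => thF_bij L S M (VE L V c)

variable (κ : Cone A S)

/-- The morphism of bisheaves (8.6). -/
def thZ : ShH (Zs κ (thQs L M V)) ((Zs κ V).pow (thN L S M)) :=
  (Zs.pow κ V (thN L S M)).comp (Zs.map κ (ths L M V))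

theorem thZ_bij : (thZ L M V κ).Bij := fun p =>
  (Zs.pow_bij κ V (thN L S M) p).comp (Zs.map_bij κ (ths L M V) (ths_bij L M V) p)

theorem thZ_apply (p : Ch i × Ch j) (x : (Zs κ (thQs L M V)).E p) (n : Fin (thN L S M))
    (h : PLift (κ.D p.1)) : ((thZ L M V κ).f p x n : ZE κ V p) h =
      thF L S M (VE L V p.2) ((x : ZE κ (thQs L M V) p) h) n := rfl

end

end Pool.Agent.MP_6e5bed_ag_GG
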