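import Pool.Agent.Lib.MP_6e5bed_ag_GG.CoreQ
import Pool.Agent.Lib.MP_6e5bed_ag_GG.LgP

set_option autoImplicit false

/-!
# MP_6e5bed_ag, THEOREM G: the core statement
-/

noncomputable section

namespace Pool.Agent.MP_6e5bed_ag_GG

universe u

/-- THE CORE STATEMENT. -/
theorem core (k : Type u) [Field k] [IsAlgClosed k] : Core k :=
  core_of_hq fun g X _ L _ _ _ _ _ _ _ _ _ _ D => hqp g X L D

end Pool.Agent.MP_6e5bed_ag_GG
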