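import Pool.Agent.Lib.MP_6e5bed_ag_GG.TFb
import Pool.Agent.Lib.MP_6e5bed_ag_GG.Asm
import Pool.Agent.Lib.MP_6e5bed_ag_GG.XEx
import Pool.Agent.Lib.MP_6e5bed_ag_GG.GE
import Pool.Agent.Lib.MP_6e5bed_ag_GG.TCa

set_option autoImplicit false

/-!
# MP_6e5bed_ag, THEOREM G: the condition HC for the sheaf of a graded algebra
-/

noncomputable section

namespace Pool.Agent.MP_6e5bed_ag_Pn

open MvPolynomial
open Pool.Agent.MP_6e5bed_ag_GG
open scoped TensorProduct

universe u

variable {n : ℕ} {k : Type u} [Field k]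

variable {Γ : Type u} [Ring Γ] [Algebra (MvPolynomial (Fin (n + 1)) k) Γ] {i : Type} [Fintype i]

private theorem TFc_field {F Q : Type u} [Field F] [Ring Q] [Algebra F Q] [IsSimpleRing Q] :
    IsField (Subalgebra.center F Q) := by
  have h := IsSimpleRing.isField_center Q
  refine ⟨⟨0, 1, zero_ne_one⟩, mul_comm, fun {a} ha => ?_⟩
  have h1 : (⟨a.1, a.2⟩ : Subring.center Q) ≠ 0 := fun h => ha (Subtype.ext (congrArg Subtype.val h))
  obtain ⟨b, hb⟩ := h.mul_inv_cancel h1
  exact ⟨⟨b.1, b.2⟩, Subtype.ext (congrArg Subtype.val hb)⟩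

/-- The property `InProd` depends only on the image of the scalars. -/
private theorem TFc_center {k F Q : Type u} [Field k] [Field F] [Algebra k F] [Ring Q] [Algebra F Q]
    [Algebra k Q] [IsScalarTower k F Q]
    (h : InProd ((algebraMap F (Subalgebra.center F Q)).comp (algebraMap k F))) :
    InProd (algebraMap k (Subalgebra.center k Q)) := by
  obtain ⟨M, hM1, hM2, m, t, φ, hφ, halg, ht, hg⟩ := h
  have hc : ∀ z : Subalgebra.center k Q, z.1 ∈ Subalgebra.center F Q := fun z =>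
    Subalgebra.mem_center_iff.2 (Subalgebra.mem_center_iff.1 z.2)
  let e : Subalgebra.center k Q →+* Subalgebra.center F Q :=
    { toFun := fun z => ⟨z.1, hc z⟩
      map_one' := rfl
      map_mul' := fun _ _ => rfl
      map_zero' := rfl
      map_add' := fun _ _ => rfl }
  have he : Function.Surjective e := fun z =>
    ⟨⟨z.1, Subalgebra.mem_center_iff.2 (Subalgebra.mem_center_iff.1 z.2)⟩, rfl⟩
  refine ⟨M, hM1, hM2, m, t, φ.comp e, fun x => ?_, fun x => ?_, ht, hg⟩
  · rw [← hφ x]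
    refine congrArg φ (Subtype.ext ?_)
    exact IsScalarTower.algebraMap_apply k F Q x
  · have h1 : φ.range ≤ (φ.comp e).range := by
      rintro _ ⟨z, rfl⟩
      obtain ⟨w, rfl⟩ := he z
      exact ⟨w, rfl⟩
    exact (halg x).ringHom_of_comp_eq (Subring.inclusion h1) (RingHom.id M)
      (Set.inclusion_injective h1) rfl

private theorem TFc_aux (σ : i ≃ Fin (n + 1)) (A : CA k i) {m : Ch i} (g : GD A m)
    (h : CenC n k Γ) {j : i} (hj : j ∈ m.1) (δ : Γ →+* A.A m)
    (hδ1 : ∀ y : A.A m, ∃ (u : RR k m.1) (γ : Γ), IsUnit u ∧ δ γ = u • y)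
    (hδ2 : ∀ p : MvPolynomial (Fin (n + 1)) k, δ (algebraMap _ Γ p) =
      algebraMap (RR k m.1) (A.A m) (aeval (fun x => tt k (σ.symm x) hj) p))
    {F : Type u} [Field F] [Algebra k F] [Algebra F g.S] [IsScalarTower k F g.S]
    (φ : RR k m.1 →ₐ[k] F) (hφ : ∀ f, algebraMap F g.S (φ f) = g.fn f)
    (hgen : IntermediateField.adjoin k (Set.range fun x => φ (tt k (σ.symm x) hj)) = ⊤) :
    InProd (algebraMap k (Subalgebra.center k g.S)) := by
  let π : Γ →+* g.S := g.psi.toRingHom.comp δ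
  have hπ : ∀ x, π x = g.psi (δ x) := fun x => rfl
  have hbj : φ (tt k (σ.symm (σ j)) hj) = 1 := by
    have h1 : tt k (σ.symm (σ j)) hj = (1 : RR k m.1) := by
      refine Subtype.ext ?_
      change mon k (ex (σ.symm (σ j)) j) = 1
      rw [Equiv.symm_apply_apply, ex_self]
      rfl
    rw [h1, map_one]
  have hπ1 : ∀ p : MvPolynomial (Fin (n + 1)) k, π (algebraMap _ Γ p) =
      algebraMap F g.S (aeval (fun x => φ (tt k (σ.symm x) hj)) p) := by
    intro p
    rw [hπ, hδ2]
    have h1 : aeval (fun x => φ (tt k (σ.symm x) hj)) =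
        φ.comp (aeval (fun x => tt k (σ.symm x) hj)) := by
      refine MvPolynomial.algHom_ext fun l => ?_
      rw [AlgHom.comp_apply, aeval_X, aeval_X]
    rw [h1]
    exact (hφ _).symm
  have hspan : Submodule.span F (Set.range π) = ⊤ := by
    rw [eq_top_iff]
    intro s _
    obtain ⟨f, hf, x, hx⟩ := g.surj s
    obtain ⟨u, γ, hu, hy⟩ := hδ1 x
    have h1 : π γ = g.fn u * (g.fn f * s) := by
      rw [hπ, hy, Algebra.smul_def, map_mul, hx]
      rfl
    have h2 : g.fn (u * f) ≠ 0 := by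
      intro h0
      obtain ⟨v, hv⟩ := hu.exists_left_inv
      apply hf
      change g.fn f = 0
      have h3 : g.fn f = g.fn v * g.fn (u * f) := by
        rw [← g.fn_mul, ← mul_assoc, hv, one_mul]
      rw [h3, h0, mul_zero]
    have h3 : φ (u * f) ≠ 0 := fun h0 => h2 (by rw [← hφ, h0, map_zero])
    have h4 : s = (φ (u * f))⁻¹ • π γ := by
      have h5 : π γ = φ (u * f) • s := by
        rw [h1, ← mul_assoc, ← g.fn_mul, Algebra.smul_def, hφ]
      rw [h5, inv_smul_smul₀ h3]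
    rw [h4]
    exact Submodule.smul_mem _ _ (Submodule.subset_span ⟨γ, rfl⟩)
  exact TFc_center (h F g.S (fun x => φ (tt k (σ.symm x) hj)) (σ j) π hbj hgen hπ1 hspan)

/-- THE CONDITION HC FOR THE SHEAF OF `Γ`, abstract form. -/
theorem hc_of_cenC (σ : i ≃ Fin (n + 1)) (A : CA k i)
    (hδ : ∀ (m : Ch i) (j : i) (hj : j ∈ m.1), ∃ δ : Γ →+* A.A m,
      (∀ y : A.A m, ∃ (u : RR k m.1) (γ : Γ), IsUnit u ∧ δ γ = u • y) ∧
      ∀ p : MvPolynomial (Fin (n + 1)) k, δ (algebraMap _ Γ p) =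
        algebraMap (RR k m.1) (A.A m) (aeval (fun x => tt k (σ.symm x) hj) p))
    (h : CenC n k Γ) : HC A := by
  intro m g
  obtain ⟨j, hj⟩ := m.2.1
  obtain ⟨δ, hδ1, hδ2⟩ := hδ m j hj
  let _ : Field (Subalgebra.center k g.S) := TFc_field.toField
  -- the functions on the chart `m`
  let φ : RR k m.1 →ₐ[k] Subalgebra.center k g.S :=
    (g.psi.comp (IsScalarTower.toAlgHom k (RR k m.1) (A.A m))).codRestrict _ fun f =>
      Subalgebra.mem_center_iff.2 fun s => (g.fn_comm f s).symm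
  let a : Fin (n + 1) → Subalgebra.center k g.S := fun x => φ (tt k (σ.symm x) hj)
  let F : IntermediateField k (Subalgebra.center k g.S) :=
    IntermediateField.adjoin k (Set.range a)
  have ha : ∀ l : i, φ (tt k l hj) ∈ F := fun l =>
    IntermediateField.subset_adjoin _ _ ⟨σ l, by
      change φ (tt k (σ.symm (σ l)) hj) = _
      rw [Equiv.symm_apply_apply]⟩
  have hφF : ∀ f, φ f ∈ F := by
    rintro ⟨f, hf⟩
    have key : ∀ e : i → ℤ, (he : IsEx m.1 0 e) → φ ⟨mon k e, mon_mem he⟩ ∈ F := by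
      intro e he
      refine IsEx.ind (P := fun e => ∀ he : IsEx m.1 0 e, φ ⟨mon k e, mon_mem he⟩ ∈ F) ?_ ?_ he he
      · intro h0
        have h1 : (⟨mon k 0, mon_mem h0⟩ : RR k m.1) = 1 := rfl
        rw [h1, map_one]
        exact F.one_mem
      · intro e l g' hg' he ih he'
        have h1 : (⟨mon k (e + ex l g'), mon_mem he'⟩ : RR k m.1) =
            ⟨mon k e, mon_mem he⟩ * tt k l hg' := Subtype.ext (mon_mul _ _).symm
        have h2 : tt k l hg' = (tt k l hj : RR k m.1) * tt k j hg' := by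
          refine Subtype.ext ?_
          change mon k (ex l g') = mon k (ex l j) * mon k (ex j g')
          rw [mon_mul]
          congr 1
          unfold ex
          abel
        have h3 : φ (tt k j hg') = (φ (tt k g' hj))⁻¹ := by
          refine eq_inv_of_mul_eq_one_left ?_
          rw [← map_mul, tt_mul, map_one]
        rw [h1, map_mul, h2, map_mul, h3]
        exact F.mul_mem (ih he) (F.mul_mem (ha l) (F.inv_mem (ha g')))
    have hf' : f ∈ OO k 0 m.1 := hf
    unfold OO at hf'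
    induction hf' using Submodule.span_induction with
    | mem x hx =>
      obtain ⟨e, he, rfl⟩ := hx
      exact key e he
    | zero =>
      have h1 : (⟨0, hf⟩ : RR k m.1) = 0 := rfl
      rw [h1, map_zero]
      exact F.zero_mem
    | add x y hx hy h1 h2 =>
      have h3 : (⟨x + y, hf⟩ : RR k m.1) = ⟨x, hx⟩ + ⟨y, hy⟩ := rfl
      rw [h3, map_add]
      exact F.add_mem (h1 hx) (h2 hy)
    | smul c x hx h1 =>
      have h3 : (⟨c • x, hf⟩ : RR k m.1) = c • ⟨x, hx⟩ := rfl
      rw [h3, map_smul]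
      exact F.smul_mem (h1 hx)
  let φF : RR k m.1 →ₐ[k] F := φ.codRestrict F.toSubalgebra hφF
  have hgen : IntermediateField.adjoin k (Set.range fun x => φF (tt k (σ.symm x) hj)) = ⊤ := by
    rw [eq_top_iff]
    rintro ⟨y, hy⟩ -
    have key : ∀ (y : Subalgebra.center k g.S)
        (hy : y ∈ IntermediateField.adjoin k (Set.range a)),
        (⟨y, hy⟩ : F) ∈ IntermediateField.adjoin k
          (Set.range fun x => φF (tt k (σ.symm x) hj)) := by
      intro y hy
      induction hy using IntermediateField.adjoin_induction with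
      | mem x hx =>
        obtain ⟨z, rfl⟩ := hx
        exact IntermediateField.subset_adjoin _ _ ⟨z, rfl⟩
      | algebraMap x =>
        exact (IntermediateField.adjoin k
          (Set.range fun x => φF (tt k (σ.symm x) hj))).algebraMap_mem x
      | add x y hx hy ihx ihy => exact add_mem ihx ihy
      | inv x hx ih => exact inv_mem ih
      | mul x y hx hy ihx ihy => exact mul_mem ihx ihy
    exact key y hy
  let algF : Algebra F g.S := (((Subalgebra.center k g.S).val.toRingHom).comp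
    (algebraMap F (Subalgebra.center k g.S))).toAlgebra'
      (fun c x => (Subalgebra.mem_center_iff.1 (c.1).2 x).symm)
  have htow : @IsScalarTower k F g.S _ (@Algebra.toSMul F g.S _ _ algF) _ :=
    IsScalarTower.of_algebraMap_eq fun _ => rfl
  exact TFc_aux σ A g h hj δ hδ1 hδ2 φF (fun f => rfl) hgen

end Pool.Agent.MP_6e5bed_ag_Pn

namespace Pool.Agent.MP_6e5bed_ag_GG

open MvPolynomial Pool.Agent.MP_6e5bed_ag_Pn

universe u

variable {ν : ℕ} {k Γ : Type u} [Field k] [Ring Γ] [Algebra k Γ]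
  [Algebra (MvPolynomial (Fin (ν + 1)) k) Γ] [IsScalarTower k (MvPolynomial (Fin (ν + 1)) k) Γ]
  {𝒢 : ℕ → Submodule k Γ} {i : Type} [Fintype i] [DecidableEq i]
  {B : Finset (Fin (ν + 1)) → Type u} [∀ I, Ring (B I)] [∀ I, Algebra k (B I)]
  {r : ∀ I J : Finset (Fin (ν + 1)), I ⊆ J → B I →ₐ[k] B J}
  {q : ∀ I : Finset (Fin (ν + 1)), ℕ → Γ → B I}

/-- THE CONDITION HC FOR THE SHEAF OF `Γ`. -/
theorem hc_caOf (h : IsGr ν 𝒢) (hq : IsSec 𝒢 r q) (σ : i ≃ Fin (ν + 1)) (hc : CenC ν k Γ) :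
    HC (caOf h hq σ) := by
  refine hc_of_cenC σ (caOf h hq σ) (fun m j hj => ⟨(deh h hq σ hj).toRingHom, fun y => ?_,
    fun p => deh_algebraMap h hq σ hj p⟩) hc
  obtain ⟨l, a, ha, rfl⟩ := hq.surj _ y
  refine ⟨⟨mon k (eu σ m.1 j l), mon_mem (isEx_eu σ hj l)⟩, a, ?_, ?_⟩
  · exact IsUnit.of_mul_eq_one _ ((mul_comm _ _).trans (mon_eu σ hj l))
  · exact (q_mul_eu h hq σ hj ha).symm

/-- The condition HC for the sheaf of `Γ ⊗ K`, `K` an algebraic extension of `k`. -/
theorem hc_of_cenM {K : Type u} [Field K] [Algebra k K] [Algebra.IsAlgebraic k K]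
    (h : IsGr ν 𝒢) (hc : CenM ν k Γ)
    {B : Finset (Fin (ν + 1)) → Type u} [∀ I, Ring (B I)] [∀ I, Algebra K (B I)]
    {r : ∀ I J : Finset (Fin (ν + 1)), I ⊆ J → B I →ₐ[K] B J}
    {q : ∀ I : Finset (Fin (ν + 1)), ℕ → GK k K Γ → B I}
    (h' : IsGr ν (GK.gr K 𝒢)) (hq : IsSec (GK.gr K 𝒢) r q) (σ : i ≃ Fin (ν + 1)) :
    HC (caOf h' hq σ) :=
  hc_caOf h' hq σ (hc.ext K h.fin)

end Pool.Agent.MP_6e5bed_ag_GG
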