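import Pool.Agent.Lib.MP_6e5bed_ag_GG.TCech
import Pool.Agent.Lib.MP_6e5bed_ag_GG.Gd
import Pool.Agent.Lib.MP_6e5bed_ag_GG.Asm
import Pool.Agent.Lib.MP_6e5bed_ag_GG.TFc
import Pool.Agent.Lib.MP_6e5bed_ag_NS.FinalS

set_option autoImplicit false
set_option linter.unusedVariables false
set_option linter.unusedSectionVars false

/-!
# MP_6e5bed_ag, THEOREM G: the statement layer, existence of `RΓ(Pⁿ, Γ~)` and descent to the
algebraically closed field
-/

noncomputable section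

namespace Pool.Agent.MP_6e5bed_ag_GG

open CategoryTheory MonoidalCategory MvPolynomial Pool.Agent.MP_6e5bed_ag
  Pool.Agent.MP_6e5bed_ag_Pn Pool.Agent.MP_6e5bed_ag_NC Pool.Agent.MP_6e5bed_ag_PN
open Pool.Agent.MP_6e5bed_ag_SP (DG Rep RA repOf SmPr NCMot IsBc)
open scoped TensorProduct

universe u

theorem nodup_LL (i : Type) [Fintype i] : (LL i).Nodup := Finset.nodup_toList _

variable {ν : ℕ} {k Γ : Type u} [Field k] [Ring Γ] [Algebra k Γ]
  [Algebra (MvPolynomial (Fin (ν + 1)) k) Γ] [IsScalarTower k (MvPolynomial (Fin (ν + 1)) k) Γ]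
  {𝒢 : ℕ → Submodule k Γ}

/-- `RΓ(Pⁿ, Γ~)` exists. -/
theorem exists_rgam (h : IsGr ν 𝒢) : ∃ (T : Type u) (_ : Ring T) (_ : Algebra k T)
    (X : DG k T), IsRGam ν 𝒢 X := by
  obtain ⟨σ, hσ⟩ := exists_dec (ν := ν) (nodup_LL (Fin (ν + 1))) mem_LL
  obtain ⟨E, hE⟩ := exists_cechD h (isSec_fr h) σ hσ mem_LL
  obtain ⟨e, he⟩ := cechD_of hE
  exact ⟨_, _, _, DG.of (TT (caOf h (isSec_fr h) σ)), _, _, _, _, _, _, isSec_fr h, he⟩

/-- the core theorem over the field `k` -/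
def Core (k : Type u) [Field k] : Prop :=
  ∀ {i : Type} [Fintype i] (A : CA k i), HC A → ∀ hs : Smooth (TT A),
    (∀ W : SP k, IsCurve W.alg → KimuraFinite (U W)) →
    ∃ hp : Proper (TT A), KimuraFinite (U (⟨TT A, hs, hp⟩ : SP k))

/-- The theorem over an arbitrary field from the core theorem over an algebraically closed
field. -/
theorem kf_rgam_aux (h : IsGr ν 𝒢) {T : Type u} [Ring T] [Algebra k T] {X : DG k T}
    (hX : IsRGam ν 𝒢 X) (hs : SmPr X)
    {C : Type (u + 1)} [Category.{u + 1} C] [MonoidalCategory C]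
    [SymmetricCategory C] [Preadditive C] [MonoidalPreadditive C] [Linear ℚ C] (H : NCMot k C)
    (K : Type u) [Field K] [Algebra k K] [IsAlgClosed K] (hM : Core K)
    (hH : ∀ (B : Finset (Fin (ν + 1)) → Type u) [∀ I, Ring (B I)] [∀ I, Algebra K (B I)]
      (r : ∀ I J : Finset (Fin (ν + 1)), I ⊆ J → B I →ₐ[K] B J)
      (q : ∀ I : Finset (Fin (ν + 1)), ℕ → GK k K Γ → B I) (hq : IsSec (GK.gr K 𝒢) r q)
      (σ : Fin (ν + 1) ≃ Fin (ν + 1)), HC (caOf (GK.isGr K h) hq σ))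
    (hC : ∀ W : SP K, IsCurve W.alg → KimuraFinite (U W)) : KimuraFinite (H.U X hs) := by
  obtain ⟨B, _, _, r, q, e, hq, he⟩ := hX
  obtain ⟨σ, hσ⟩ := exists_dec (ν := ν) (nodup_LL (Fin (ν + 1))) mem_LL
  have hg := GK.isGr K h
  have hqK := hq.bc K h
  obtain ⟨E', hE'⟩ := exists_cechD hg hqK σ hσ mem_LL
  obtain ⟨e', he'⟩ := cechD_of hE'
  let T' : DGA K := TT (caOf hg hqK σ)
  let _ : Algebra k (RA T') := Algebra.compHom _ (algebraMap k K)
  have _ : IsScalarTower k K (RA T') := IsScalarTower.of_algebraMap_eq (fun _ => rfl)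
  let j : ∀ I, B I →ₐ[k] K ⊗[k] B I := fun I => Algebra.TensorProduct.includeRight
  have hj : ∀ I, IsBaseChange K (j I).toLinearMap := fun I => TensorProduct.isBaseChange k (B I) K
  obtain ⟨i, hi⟩ := cech_bc (X := X) (X' := DG.of T') he he' j hj
    (fun I J hIJ b => Algebra.TensorProduct.map_tmul _ _ _ _)
  have hs' := hi.smPr hs
  rw [← MP_6e5bed_ag_SP.kimuraFinite_bc H (MP_6e5bed_ag_SP.nchowMot K) hs hs' hi,
    (MP_6e5bed_ag_SP.nchowMot K).kimuraFinite_iff hs' (MP_6e5bed_ag_SP.spOf _ hs') (repOf _)]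
  obtain ⟨_, h1⟩ := hM (caOf hg hqK σ) (hH _ _ _ hqK σ) (MP_6e5bed_ag_SP.spOf _ hs').smooth hC
  exact h1

/-- The final theorem, given the core theorem and the Kimura-finiteness of the motives of
curves over an algebraic closure. -/
theorem kf_rgamM (h : IsGr ν 𝒢) (hc : CenM ν k Γ) {T : Type u} [Ring T] [Algebra k T]
    {X : DG k T} (hX : IsRGam ν 𝒢 X) (hs : SmPr X)
    {C : Type (u + 1)} [Category.{u + 1} C] [MonoidalCategory C]
    [SymmetricCategory C] [Preadditive C] [MonoidalPreadditive C] [Linear ℚ C] (H : NCMot k C)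
    (K : Type u) [Field K] [Algebra k K] [IsAlgClosed K] [Algebra.IsAlgebraic k K]
    (hM : Core K) (hC : ∀ W : SP K, IsCurve W.alg → KimuraFinite (U W)) :
    KimuraFinite (H.U X hs) :=
  kf_rgam_aux h hX hs H K hM (fun B _ _ r q hq σ => hc_of_cenM h hc (GK.isGr K h) hq σ) hC

end Pool.Agent.MP_6e5bed_ag_GG
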