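import Pool.Agent.Lib.MP_6e5bed_ag_GG.MainT
import Pool.Agent.Lib.MP_6e5bed_ag_GG.TFin

set_option autoImplicit false
set_option linter.unusedVariables false

/-!
# MP_6e5bed_ag, THEOREM G: the core theorem, given LOC for the pairing
-/

noncomputable section

namespace Pool.Agent.MP_6e5bed_ag_GG

open CategoryTheory MonoidalCategory Pool.Agent.MP_6e5bed_ag Pool.Agent.MP_6e5bed_ag_NC
  Pool.Agent.MP_6e5bed_ag_NS Pool.Agent.MP_6e5bed_ag_PN Pool.Agent.MP_6e5bed_ag_PS

universe u

/-- The core theorem from LOC for the pairing of rows and columns. -/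
theorem core_of_hq {k : Type u} [Field k] [IsAlgClosed k]
    (hq : ∀ {i : Type} [Fintype i] {A : CA k i} {m : Ch i} (g : GD A m) (X : XD k)
      (_ : XGood X) (L : Type u) [Field L] [Algebra k L]
      [Algebra L g.S] [IsScalarTower k L g.S] [Algebra L X.M] [IsScalarTower k L X.M]
      [Algebra.IsCentral L g.S] [Module.Finite L g.S] [Module.Finite L X.M]
      {W : LPre L A} (D : E0D W), HqP g X L D) : Core k := by
  intro i _ A h hs hC
  exact core_of (hF := finBB) hC (mainS_of h fun {m} g X hX L => hq g X hX L)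

end Pool.Agent.MP_6e5bed_ag_GG
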