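import Mathlib

set_option autoImplicit false

/-!
# MP_6e5bed_ag, THEOREM G: charts of the projective space, coherent algebras, sheaves over sites

The text is /team-store/TEXT_6e5bed_G.md. `i` is a finite index type, `Ch i` are the nonempty
finite subsets `c` of `i`; `c` stands for the open set of the projective space with the
coordinates `x_j`, `j ∈ i`, where the `x_j`, `j ∈ c`, are invertible.
-/

noncomputable section

namespace Pool.Agent.MP_6e5bed_ag_GG

open scoped TensorProduct

universe u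

/-- the charts: nonempty finite sets of indices (the same type as in the folder `PN`) -/
abbrev Ch (i : Type) : Type := {c : Set i // c.Nonempty ∧ c.Finite}

/-- the chart of one index -/
def Ch.sgl {i : Type} (l : i) : Ch i := ⟨{l}, Set.singleton_nonempty l, Set.finite_singleton l⟩

/-- the union of the index sets (the intersection of the open sets) -/
def Ch.sup {i : Type} (c d : Ch i) : Ch i :=
  ⟨c.1 ∪ d.1, c.2.1.mono Set.subset_union_left, c.2.2.union d.2.2⟩

/-! ### The coordinate rings -/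

section

variable (k : Type u) [Field k] {i : Type} [Fintype i]

/-- Laurent polynomials in the `x_j`, `j ∈ i` -/
abbrev Lau (k : Type u) [Field k] (i : Type) : Type u := AddMonoidAlgebra k (i → ℤ)

/-- the exponents of degree `d` with poles only along the `x_j`, `j ∈ c` -/
def IsEx (c : Set i) (d : ℤ) (e : i → ℤ) : Prop := ∑ j, e j = d ∧ ∀ j, j ∉ c → 0 ≤ e j

/-- the monomial -/
def mon (e : i → ℤ) : Lau k i := AddMonoidAlgebra.single e 1

/-- the sections of `O(d)` on the chart `c` (`c` may be empty) -/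
def OO (d : ℤ) (c : Set i) : Submodule k (Lau k i) :=
  Submodule.span k {f | ∃ e, IsEx c d e ∧ f = mon k e}

variable {k}

omit [Fintype i] in
theorem mon_mul (e e' : i → ℤ) : mon k e * mon k e' = mon k (e + e') := by
  unfold mon
  rw [AddMonoidAlgebra.single_mul_single, one_mul]

theorem IsEx.add {c : Set i} {d d' : ℤ} {e e' : i → ℤ} (h : IsEx c d e) (h' : IsEx c d' e') :
    IsEx c (d + d') (e + e') :=
  ⟨by simp only [Pi.add_apply, Finset.sum_add_distrib, h.1, h'.1],
    fun j hj => add_nonneg (h.2 j hj) (h'.2 j hj)⟩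

theorem mon_mem {c : Set i} {d : ℤ} {e : i → ℤ} (h : IsEx c d e) : mon k e ∈ OO k d c :=
  Submodule.subset_span ⟨e, h, rfl⟩

theorem OO_mul {c : Set i} {d d' : ℤ} {f g : Lau k i} (hf : f ∈ OO k d c)
    (hg : g ∈ OO k d' c) : f * g ∈ OO k (d + d') c := by
  induction hf using Submodule.span_induction with
  | mem x hx =>
    obtain ⟨e, he, rfl⟩ := hx
    induction hg using Submodule.span_induction with
    | mem y hy =>
      obtain ⟨e', he', rfl⟩ := hy
      rw [mon_mul]
      exact mon_mem (he.add he')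
    | zero => rw [mul_zero]; exact zero_mem _
    | add a b _ _ ha hb => rw [mul_add]; exact add_mem ha hb
    | smul a x _ hx => rw [mul_smul_comm]; exact Submodule.smul_mem _ _ hx
  | zero => rw [zero_mul]; exact zero_mem _
  | add a b _ _ ha hb => rw [add_mul]; exact add_mem ha hb
  | smul a x _ hx => rw [smul_mul_assoc]; exact Submodule.smul_mem _ _ hx

theorem OO_mono {c c' : Set i} (h : c ⊆ c') (d : ℤ) : OO k d c ≤ OO k d c' :=
  Submodule.span_mono (fun _ ⟨e, he, hf⟩ => ⟨e, ⟨he.1, fun j hj => he.2 j (fun h' => hj (h h'))⟩,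
    hf⟩)

theorem one_mem_OO (c : Set i) : (1 : Lau k i) ∈ OO k 0 c :=
  mon_mem (k := k) (e := 0) ⟨by simp, fun _ _ => le_rfl⟩

variable (k)

/-- the coordinate ring of the chart `c` -/
def RR (c : Set i) : Subalgebra k (Lau k i) :=
  (OO k 0 c).toSubalgebra (one_mem_OO c) (fun x y hx hy => by
    have h := OO_mul hx hy
    rwa [add_zero] at h)

variable {k}

theorem mem_RR {c : Set i} {f : Lau k i} : f ∈ RR k c ↔ f ∈ OO k 0 c := Iff.rfl

theorem RR_mono {c c' : Set i} (h : c ⊆ c') : RR k c ≤ RR k c' := OO_mono h 0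

/-- restriction of functions -/
def rinc {c c' : Set i} (h : c ⊆ c') : RR k c →ₐ[k] RR k c' := Subalgebra.inclusion (RR_mono h)

theorem rinc_coe {c c' : Set i} (h : c ⊆ c') (r : RR k c) :
    ((rinc h r : RR k c') : Lau k i) = (r : Lau k i) := Subalgebra.coe_inclusion (RR_mono h) r

open Classical in
/-- the exponent of `x_l / x_g` -/
def ex (l g : i) : i → ℤ := Pi.single l 1 - Pi.single g 1

theorem isEx_ex {c : Set i} (l : i) {g : i} (hg : g ∈ c) : IsEx c 0 (ex l g) := by
  classical
  refine ⟨?_, fun j hj => ?_⟩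
  · simp [ex, Finset.sum_sub_distrib]
  · have h : j ≠ g := fun h => hj (h ▸ hg)
    simp only [ex, Pi.sub_apply, Pi.single_apply]
    rw [if_neg h]
    split_ifs <;> simp

variable (k) in
/-- the function `x_l / x_g` on the chart `c`, `g ∈ c` -/
def tt {c : Set i} (l : i) {g : i} (hg : g ∈ c) : RR k c := ⟨mon k (ex l g), mon_mem (isEx_ex l hg)⟩

end

/-! ### Coherent algebras -/

/-- A coherent sheaf of algebras on the projective space with the coordinates `x_j`, `j ∈ i`,
given by its sections on the charts. -/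
structure CA (k : Type u) [Field k] (i : Type) [Fintype i] where
  A : Ch i → Type u
  [ring : ∀ c, Ring (A c)]
  [algk : ∀ c, Algebra k (A c)]
  [algR : ∀ c, Algebra (RR k c.1) (A c)]
  [tow : ∀ c, IsScalarTower k (RR k c.1) (A c)]
  res : ∀ {c d : Ch i}, c ≤ d → A c →ₐ[k] A d
  res_R : ∀ {c d : Ch i} (h : c ≤ d) (r : RR k c.1),
    res h (algebraMap (RR k c.1) (A c) r) = algebraMap (RR k d.1) (A d) (rinc h r)
  res_id : ∀ {c : Ch i} (h : c ≤ c) (a : A c), res h a = a
  res_res : ∀ {c d e : Ch i} (h : c ≤ d) (h' : d ≤ e) (a : A c),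
    res h' (res h a) = res (h.trans h') a
  surj : ∀ {c d : Ch i} (h : c ≤ d) {g : i} (hg : g ∈ c.1) (l : i), d.1 ⊆ insert l c.1 →
    ∀ a : A d, ∃ (n : ℕ) (a' : A c), res h a' = tt k l (h hg) ^ n • a
  inj : ∀ {c d : Ch i} (h : c ≤ d) {g : i} (hg : g ∈ c.1) (l : i), d.1 ⊆ insert l c.1 →
    ∀ a : A c, res h a = 0 → ∃ n : ℕ, tt k l hg ^ n • a = 0
  fin : ∀ c, Module.Finite (RR k c.1) (A c)

attribute [instance] CA.ring CA.algk CA.algR CA.tow

/-! ### Sheaves over sites -/

/-- A preordered set `P` with a presheaf of `k`-algebras `B` and a relation `Loc p q t`: the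
algebra `B q` is the localisation of `B p` at the central element `t`. -/
structure Site (k : Type u) [Field k] where
  P : Type
  [pre : Preorder P]
  B : P → Type u
  [ring : ∀ p, Ring (B p)]
  [alg : ∀ p, Algebra k (B p)]
  r : ∀ {p q : P}, p ≤ q → B p →ₐ[k] B q
  r_id : ∀ {p : P} (h : p ≤ p) (b : B p), r h b = b
  r_r : ∀ {p q s : P} (h : p ≤ q) (h' : q ≤ s) (b : B p), r h' (r h b) = r (h.trans h') b
  Loc : ∀ p : P, P → B p → Prop
  le : ∀ {p q : P} {t : B p}, Loc p q t → p ≤ q
  comm : ∀ {p q : P} {t : B p}, Loc p q t → ∀ b, t * b = b * t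

attribute [instance] Site.pre Site.ring Site.alg

variable {k : Type u} [Field k]

/-- A quasi-coherent sheaf over a site. -/
structure Sh (S : Site k) where
  E : S.P → Type u
  [grp : ∀ p, AddCommGroup (E p)]
  [modk : ∀ p, Module k (E p)]
  [mod : ∀ p, Module (S.B p) (E p)]
  [tow : ∀ p, IsScalarTower k (S.B p) (E p)]
  res : ∀ {p q : S.P}, p ≤ q → E p →ₗ[k] E q
  res_smul : ∀ {p q : S.P} (h : p ≤ q) (b : S.B p) (x : E p), res h (b • x) = S.r h b • res h x
  res_id : ∀ {p : S.P} (h : p ≤ p) (x : E p), res h x = x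
  res_res : ∀ {p q s : S.P} (h : p ≤ q) (h' : q ≤ s) (x : E p),
    res h' (res h x) = res (h.trans h') x
  surj : ∀ {p q : S.P} {t : S.B p} (h : S.Loc p q t) (y : E q),
    ∃ (n : ℕ) (x : E p), res (S.le h) x = S.r (S.le h) t ^ n • y
  inj : ∀ {p q : S.P} {t : S.B p} (h : S.Loc p q t) (x : E p), res (S.le h) x = 0 →
    ∃ n : ℕ, t ^ n • x = 0

attribute [instance] Sh.grp Sh.modk Sh.mod Sh.tow

variable {S : Site k}

/-- finitely generated on every chart -/
def Sh.Coh (E : Sh S) : Prop := ∀ p, Module.Finite (S.B p) (E.E p)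

/-- Morphisms of sheaves. -/
structure ShH (E F : Sh S) where
  f : ∀ p, E.E p →ₗ[S.B p] F.E p
  nat : ∀ {p q : S.P} (h : p ≤ q) (x : E.E p), F.res h (f p x) = f q (E.res h x)

/-- Subsheaves. -/
structure Sub (E : Sh S) where
  N : ∀ p, Submodule (S.B p) (E.E p)
  mono : ∀ {p q : S.P} (h : p ≤ q) {x : E.E p}, x ∈ N p → E.res h x ∈ N q
  sat : ∀ {p q : S.P} {t : S.B p} (h : S.Loc p q t) {x : E.E p}, E.res (S.le h) x ∈ N q →
    ∃ n : ℕ, t ^ n • x ∈ N p

private theorem Defs_pow_comm {p q : S.P} {t : S.B p} (h : S.Loc p q t) (n : ℕ) (b : S.B p) :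
    t ^ n * b = b * t ^ n := by
  have h1 : Commute t b := S.comm h b
  exact h1.pow_left n

/-- A subsheaf as a sheaf. -/
def Sub.sh {E : Sh S} (N : Sub E) : Sh S where
  E := fun p => N.N p
  res := fun {p q} h => (E.res h).restrict (p := (N.N p).restrictScalars k)
    (q := (N.N q).restrictScalars k) (fun _ hx => N.mono h hx)
  res_smul := fun h b x => Subtype.ext (E.res_smul h b x.1)
  res_id := fun h x => Subtype.ext (E.res_id h x.1)
  res_res := fun h h' x => Subtype.ext (E.res_res h h' x.1)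
  surj := fun {p q t} h y => by
    obtain ⟨n, x, hx⟩ := E.surj h y.1
    obtain ⟨m, hm⟩ := N.sat h (x := x) (by
      rw [hx]
      exact (N.N q).smul_mem _ y.2)
    refine ⟨m + n, ⟨t ^ m • x, hm⟩, Subtype.ext ?_⟩
    change E.res _ (t ^ m • x) = S.r _ t ^ (m + n) • y.1
    rw [E.res_smul, hx, map_pow, pow_add, mul_smul]
  inj := fun {p q t} h x hx => by
    obtain ⟨n, hn⟩ := E.inj h x.1 (congrArg Subtype.val hx)
    exact ⟨n, Subtype.ext hn⟩

/-- The quotient by a subsheaf. -/
def Sub.quot {E : Sh S} (N : Sub E) : Sh S where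
  E := fun p => E.E p ⧸ N.N p
  res := fun {p q} h => (Submodule.liftQ ((N.N p).restrictScalars k)
    (((N.N q).mkQ.restrictScalars k) ∘ₗ E.res h) (fun x hx => by
      change (N.N q).mkQ (E.res h x) = 0
      rw [Submodule.mkQ_apply, Submodule.Quotient.mk_eq_zero]
      exact N.mono h hx) : _ →ₗ[k] (E.E q ⧸ N.N q))
  res_smul := fun {p q} h b x => by
    obtain ⟨x, rfl⟩ := (N.N p).mkQ_surjective x
    change (N.N q).mkQ (E.res h (b • x)) = S.r h b • (N.N q).mkQ (E.res h x)
    rw [E.res_smul, map_smul]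
  res_id := fun {p} h x => by
    obtain ⟨x, rfl⟩ := (N.N p).mkQ_surjective x
    change (N.N p).mkQ (E.res h x) = (N.N p).mkQ x
    rw [E.res_id]
  res_res := fun {p q s} h h' x => by
    obtain ⟨x, rfl⟩ := (N.N p).mkQ_surjective x
    change (N.N s).mkQ (E.res h' (E.res h x)) = (N.N s).mkQ (E.res _ x)
    rw [E.res_res]
  surj := fun {p q t} h y => by
    obtain ⟨y, rfl⟩ := (N.N q).mkQ_surjective y
    obtain ⟨n, x, hx⟩ := E.surj h y
    refine ⟨n, (N.N p).mkQ x, ?_⟩
    change (N.N q).mkQ (E.res _ x) = _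
    rw [hx, map_smul]
  inj := fun {p q t} h x hx => by
    obtain ⟨x, rfl⟩ := (N.N p).mkQ_surjective x
    have h1 : (N.N q).mkQ (E.res (S.le h) x) = 0 := hx
    rw [Submodule.mkQ_apply, Submodule.Quotient.mk_eq_zero] at h1
    obtain ⟨n, hn⟩ := N.sat h h1
    refine ⟨n, ?_⟩
    rw [← map_smul, Submodule.mkQ_apply, Submodule.Quotient.mk_eq_zero]
    exact hn

/-! ### Bisheaves -/

section bs

variable {i j : Type} [Fintype i] [Fintype j] (A : CA k i) (A' : CA k j)

/-- the algebra `A_c ⊗ A'_{c'}ᵒᵖ` -/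
abbrev bsB (p : Ch i × Ch j) : Type u := A.A p.1 ⊗[k] (A'.A p.2)ᵐᵒᵖ

/-- the restriction maps -/
def bsr {p q : Ch i × Ch j} (h : p ≤ q) : bsB A A' p →ₐ[k] bsB A A' q :=
  Algebra.TensorProduct.map (A.res h.1) (AlgHom.op (A'.res h.2))

theorem bsr_tmul {p q : Ch i × Ch j} (h : p ≤ q) (a : A.A p.1) (a' : (A'.A p.2)ᵐᵒᵖ) :
    bsr A A' h (a ⊗ₜ[k] a') = A.res h.1 a ⊗ₜ[k] MulOpposite.op (A'.res h.2 a'.unop) := rfl

/-- the central elements which are inverted -/
def bsLoc (p q : Ch i × Ch j) (t : bsB A A' p) : Prop := p ≤ q ∧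
  ((∃ (l g : i) (hg : g ∈ p.1.1), q.1.1 ⊆ insert l p.1.1 ∧ q.2 ≤ p.2 ∧
    t = algebraMap (RR k p.1.1) (A.A p.1) (tt k l hg) ⊗ₜ[k] 1) ∨
  (∃ (l g : j) (hg : g ∈ p.2.1), q.2.1 ⊆ insert l p.2.1 ∧ q.1 ≤ p.1 ∧
    t = 1 ⊗ₜ[k] MulOpposite.op (algebraMap (RR k p.2.1) (A'.A p.2) (tt k l hg))))

/-- The site of the pairs of charts, with the algebras `A_c ⊗ A'_{c'}ᵒᵖ`. -/
def bs : Site k where
  P := Ch i × Ch j
  B := bsB A A'
  r := fun {p q} h => bsr A A' h
  r_id := fun {p} h b => by
    induction b using TensorProduct.induction_on with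
    | zero => rw [map_zero]
    | tmul x y =>
      refine (bsr_tmul A A' h x y).trans ?_
      rw [A.res_id, A'.res_id]
      rfl
    | add x y hx hy => rw [map_add, hx, hy]
  r_r := fun {p q s} h h' b => by
    induction b using TensorProduct.induction_on with
    | zero => rw [map_zero, map_zero, map_zero]
    | tmul x y =>
      refine (congrArg (bsr A A' h') (bsr_tmul A A' h x y)).trans
        ((bsr_tmul A A' h' _ _).trans ?_)
      rw [A.res_res, MulOpposite.unop_op, A'.res_res]
      rfl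
    | add x y hx hy => rw [map_add, map_add, map_add, hx, hy]
  Loc := bsLoc A A'
  le := fun h => h.1
  comm := fun {p q t} h b => by
    rcases h with ⟨_, ⟨l, g, hg, _, _, rfl⟩ | ⟨l, g, hg, _, _, rfl⟩⟩
    · induction b using TensorProduct.induction_on with
      | zero => rw [mul_zero, zero_mul]
      | tmul x y =>
        rw [Algebra.TensorProduct.tmul_mul_tmul, Algebra.TensorProduct.tmul_mul_tmul,
          Algebra.commutes, one_mul, mul_one]
      | add x y hx hy => rw [mul_add, add_mul, hx, hy]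
    · induction b using TensorProduct.induction_on with
      | zero => rw [mul_zero, zero_mul]
      | tmul x y =>
        rw [Algebra.TensorProduct.tmul_mul_tmul, Algebra.TensorProduct.tmul_mul_tmul,
          one_mul, mul_one]
        congr 1
        refine MulOpposite.unop_injective ?_
        rw [MulOpposite.unop_mul, MulOpposite.unop_mul, MulOpposite.unop_op, Algebra.commutes]
      | add x y hx hy => rw [mul_add, add_mul, hx, hy]

end bs

/-- Bisheaves: sheaves of `A`-`A'`-bimodules on the product of two projective spaces. -/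
abbrev BS {i j : Type} [Fintype i] [Fintype j] (A : CA k i) (A' : CA k j) : Type (u + 1) :=
  Sh (bs A A')

instance {i j : Type} [Fintype i] [Fintype j] {A : CA k i} {A' : CA k j} (E : BS A A')
    (p : Ch i × Ch j) : Module (A.A p.1 ⊗[k] (A'.A p.2)ᵐᵒᵖ) (E.E p) := E.mod p

instance {i j : Type} [Fintype i] [Fintype j] {A : CA k i} {A' : CA k j} (E : BS A A')
    (p : Ch i × Ch j) : IsScalarTower k (A.A p.1 ⊗[k] (A'.A p.2)ᵐᵒᵖ) (E.E p) := E.tow p

end Pool.Agent.MP_6e5bed_ag_GG
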