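import Pool.Agent.Lib.MP_6e5bed_ag_GG.Bi
import Mathlib.Algebra.Azumaya.Defs

set_option autoImplicit false
set_option linter.unusedVariables false
set_option linter.unusedSectionVars false

/-!
# MP_6e5bed_ag, THEOREM G: the diagonal bisheaf `(c, c') ↦ A_{c ∪ c'}`
-/

noncomputable section

namespace Pool.Agent.MP_6e5bed_ag_GG

open Pool.Agent.MP_6e5bed_ag_NC Pool.Agent.MP_6e5bed_ag_NS
open scoped TensorProduct

universe u

variable {k : Type u} [Field k] {i : Type} [Fintype i] (A : CA k i)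

/-- the union of the two sets of indices -/
def un (p : Ch i × Ch i) : Ch i := p.1.sup p.2

theorem un_mono {p q : Ch i × Ch i} (h : p ≤ q) : un p ≤ un q := Set.union_subset_union h.1 h.2

theorem le_un1 (p : Ch i × Ch i) : p.1 ≤ un p := Set.subset_union_left

theorem le_un2 (p : Ch i × Ch i) : p.2 ≤ un p := Set.subset_union_right

/-- the ring map which defines the action on `A_{c ∪ c'}` -/
def dgf (p : Ch i × Ch i) : bsB A A p →ₐ[k] Module.End k (A.A (un p)) :=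
  (AlgHom.mulLeftRight k (A.A (un p))).comp
    (Algebra.TensorProduct.map (A.res (le_un1 p)) (AlgHom.op (A.res (le_un2 p))))

theorem dgf_tmul (p : Ch i × Ch i) (a : A.A p.1) (b : (A.A p.2)ᵐᵒᵖ) (x : A.A (un p)) :
    dgf A p (a ⊗ₜ[k] b) x = A.res (le_un1 p) a * x * A.res (le_un2 p) b.unop := by
  change AlgHom.mulLeftRight k (A.A (un p)) ((A.res (le_un1 p) a) ⊗ₜ[k]
    (MulOpposite.op (A.res (le_un2 p) b.unop))) x = _
  rw [AlgHom.mulLeftRight_apply]
  rfl

/-- the sections of the diagonal bisheaf -/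
def DgE (p : Ch i × Ch i) : Type u := A.A (un p)

instance (p : Ch i × Ch i) : Ring (DgE A p) := inferInstanceAs (Ring (A.A (un p)))

instance (p : Ch i × Ch i) : Algebra k (DgE A p) := inferInstanceAs (Algebra k (A.A (un p)))

instance (p : Ch i × Ch i) : Module (bsB A A p) (DgE A p) :=
  Module.compHom (A.A (un p)) (dgf A p).toRingHom

theorem DgE_smul (p : Ch i × Ch i) (b : bsB A A p) (x : DgE A p) : b • x = dgf A p b x := rfl

/-- an element of `A_{c ∪ c'}` -/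
def DgE.of {p : Ch i × Ch i} (x : DgE A p) : A.A (un p) := x

variable {A} in
theorem DgE.of_inj {p : Ch i × Ch i} {x y : DgE A p} (h : DgE.of A x = DgE.of A y) : x = y := h

theorem DgE_tmul (p : Ch i × Ch i) (a : A.A p.1) (b : (A.A p.2)ᵐᵒᵖ) (x : DgE A p) :
    DgE.of A ((a ⊗ₜ[k] b) • x) =
      A.res (le_un1 p) a * DgE.of A x * A.res (le_un2 p) b.unop := dgf_tmul A p a b x

instance (p : Ch i × Ch i) : IsScalarTower k (bsB A A p) (DgE A p) :=
  ⟨fun c b x => by
    rw [DgE_smul, DgE_smul, map_smul]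
    rfl⟩

theorem DgE_loc1 (p : Ch i × Ch i) {l g : i} (hg : g ∈ p.1.1) (n : ℕ) (x : DgE A p) :
    DgE.of A ((algebraMap (RR k p.1.1) (A.A p.1) (tt k l hg) ⊗ₜ[k] (1 : (A.A p.2)ᵐᵒᵖ)) ^ n • x) =
      tt k l (c := (un p).1) (le_un1 p hg) ^ n • DgE.of A x := by
  rw [Algebra.TensorProduct.tmul_pow, one_pow, DgE_tmul, MulOpposite.unop_one, map_one, mul_one,
    map_pow, A.res_R, ← map_pow, ← Algebra.smul_def]
  rfl

theorem DgE_loc2 (p : Ch i × Ch i) {l g : i} (hg : g ∈ p.2.1) (n : ℕ) (x : DgE A p) :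
    DgE.of A (((1 : A.A p.1) ⊗ₜ[k]
      MulOpposite.op (algebraMap (RR k p.2.1) (A.A p.2) (tt k l hg))) ^ n • x) =
      tt k l (c := (un p).1) (le_un2 p hg) ^ n • DgE.of A x := by
  rw [Algebra.TensorProduct.tmul_pow, one_pow, DgE_tmul, map_one, one_mul, MulOpposite.unop_pow,
    MulOpposite.unop_op, map_pow, A.res_R, ← map_pow, ← Algebra.commutes, ← Algebra.smul_def]
  rfl

/-- the restriction maps -/
def dgr {p q : Ch i × Ch i} (h : p ≤ q) : DgE A p →ₗ[k] DgE A q :=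
  (A.res (un_mono h)).toLinearMap

theorem dgr_of {p q : Ch i × Ch i} (h : p ≤ q) (x : DgE A p) :
    DgE.of A (dgr A h x) = A.res (un_mono h) (DgE.of A x) := rfl

theorem dgr_smul {p q : Ch i × Ch i} (h : p ≤ q) (b : bsB A A p) (x : DgE A p) :
    dgr A h (b • x) = bsr A A h b • dgr A h x := by
  induction b using TensorProduct.induction_on with
  | zero =>
    have h0 : (0 : bsB A A p) = (0 : A.A p.1) ⊗ₜ[k] (1 : (A.A p.2)ᵐᵒᵖ) :=
      (TensorProduct.zero_tmul _ _).symm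
    rw [h0, bsr_tmul]
    refine DgE.of_inj ?_
    rw [dgr_of, DgE_tmul, DgE_tmul, map_zero, map_zero, zero_mul, zero_mul, map_zero, map_zero,
      zero_mul, zero_mul]
  | tmul a b =>
    rw [bsr_tmul]
    refine DgE.of_inj ?_
    rw [dgr_of, DgE_tmul, DgE_tmul, map_mul, map_mul, A.res_res, A.res_res, A.res_res,
      MulOpposite.unop_op, A.res_res]
    rfl
  | add a b ha hb => rw [add_smul, map_add, ha, hb, map_add, add_smul]

theorem rinc_tt_set {c c' : Set i} (h : c ⊆ c') {l g : i} (hg : g ∈ c) :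
    rinc h (tt k l hg) = tt k l (h hg) := Subtype.ext (rinc_coe h _)

theorem bsr_t1 {j : Type} [Fintype j] (A' : CA k j) {p q : Ch i × Ch j} (h : p ≤ q) {l g : i}
    (hg : g ∈ p.1.1) :
    bsr A A' h (algebraMap (RR k p.1.1) (A.A p.1) (tt k l hg) ⊗ₜ[k] (1 : (A'.A p.2)ᵐᵒᵖ)) =
      algebraMap (RR k q.1.1) (A.A q.1) (tt k l (h.1 hg)) ⊗ₜ[k] 1 := by
  rw [bsr_tmul, A.res_R, rinc_tt_set, MulOpposite.unop_one, map_one]
  rfl

theorem bsr_t2 {j : Type} [Fintype j] (A' : CA k j) {p q : Ch i × Ch j} (h : p ≤ q) {l g : j}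
    (hg : g ∈ p.2.1) :
    bsr A A' h ((1 : A.A p.1) ⊗ₜ[k]
      MulOpposite.op (algebraMap (RR k p.2.1) (A'.A p.2) (tt k l hg))) =
      (1 : A.A q.1) ⊗ₜ[k]
        MulOpposite.op (algebraMap (RR k q.2.1) (A'.A q.2) (tt k l (h.2 hg))) := by
  rw [bsr_tmul, MulOpposite.unop_op, A'.res_R, rinc_tt_set, map_one]

private theorem Dg_sub1 {p q : Ch i × Ch i} {l : i} (h2 : q.1.1 ⊆ insert l p.1.1)
    (h3 : q.2 ≤ p.2) : (un q).1 ⊆ insert l (un p).1 := fun z hz => by
  rcases hz with hz | hz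
  · rcases h2 hz with h4 | h4
    · exact Or.inl h4
    · exact Or.inr (Or.inl h4)
  · exact Or.inr (Or.inr (h3 hz))

private theorem Dg_sub2 {p q : Ch i × Ch i} {l : i} (h2 : q.2.1 ⊆ insert l p.2.1)
    (h3 : q.1 ≤ p.1) : (un q).1 ⊆ insert l (un p).1 := fun z hz => by
  rcases hz with hz | hz
  · exact Or.inr (Or.inl (h3 hz))
  · rcases h2 hz with h4 | h4
    · exact Or.inl h4
    · exact Or.inr (Or.inr h4)

/-- The diagonal bisheaf. -/
def dgS : BS A A where
  E := DgE A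
  mod := fun p => inferInstanceAs (Module (bsB A A p) (DgE A p))
  tow := fun p => inferInstanceAs (IsScalarTower k (bsB A A p) (DgE A p))
  res := fun {p q} h => dgr A h
  res_smul := fun {p q} h b x => dgr_smul A h b x
  res_id := fun h x => A.res_id _ x
  res_res := fun h h' x => A.res_res _ _ x
  surj := fun {p q t} h y => by
    obtain ⟨h0, h1⟩ := h
    rcases h1 with ⟨l, g, hg, h2, h3, rfl⟩ | ⟨l, g, hg, h2, h3, rfl⟩
    · obtain ⟨n, x, hx⟩ := A.surj (c := un p) (d := un q) (un_mono h0) (g := g) (le_un1 p hg) l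
        (Dg_sub1 h2 h3) (DgE.of A y)
      refine ⟨n, x, DgE.of_inj ?_⟩
      refine hx.trans ?_
      refine (DgE_loc1 A q (l := l) (h0.1 hg) n y).symm.trans ?_
      rw [← bsr_t1 A A h0]
      rfl
    · obtain ⟨n, x, hx⟩ := A.surj (c := un p) (d := un q) (un_mono h0) (g := g) (le_un2 p hg) l
        (Dg_sub2 h2 h3) (DgE.of A y)
      refine ⟨n, x, DgE.of_inj ?_⟩
      refine hx.trans ?_
      refine (DgE_loc2 A q (l := l) (h0.2 hg) n y).symm.trans ?_
      rw [← bsr_t2 A A h0]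
      rfl
  inj := fun {p q t} h x hx => by
    obtain ⟨h0, h1⟩ := h
    rcases h1 with ⟨l, g, hg, h2, h3, rfl⟩ | ⟨l, g, hg, h2, h3, rfl⟩
    · obtain ⟨n, hn⟩ := A.inj (c := un p) (d := un q) (un_mono h0) (g := g) (le_un1 p hg) l
        (Dg_sub1 h2 h3) (DgE.of A x) hx
      exact ⟨n, DgE.of_inj ((DgE_loc1 A p hg n x).trans hn)⟩
    · obtain ⟨n, hn⟩ := A.inj (c := un p) (d := un q) (un_mono h0) (g := g) (le_un2 p hg) l
        (Dg_sub2 h2 h3) (DgE.of A x) hx
      exact ⟨n, DgE.of_inj ((DgE_loc2 A p hg n x).trans hn)⟩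

end Pool.Agent.MP_6e5bed_ag_GG
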