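import Pool.Agent.Lib.MP_6e5bed_ag_GG.Asm
import Pool.Agent.Lib.MP_6e5bed_ag_PN.DgF

set_option autoImplicit false
set_option linter.unusedVariables false

/-!
# MP_6e5bed_ag, THEOREM G: the class of the diagonal bisheaf is the identity
-/

noncomputable section

namespace Pool.Agent.MP_6e5bed_ag_GG

open Pool.Agent.MP_6e5bed_ag_NC Pool.Agent.MP_6e5bed_ag_NS Pool.Agent.MP_6e5bed_ag_PN
open scoped TensorProduct

universe u

variable {k : Type u} [Field k] {i : Type} [Fintype i] (A : CA k i)

/-- the comparison of the two forms of the diagonal bisheaf -/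
def dgL : PB2H (MP_6e5bed_ag_GG.dgS A).bp.two (PA.dg A.pa) where
  f := fun a b =>
    { f := (LinearMap.id : A.A (un (a, b)) →ₗ[k] A.A (un (a, b)))
      deg := fun {n x} hx => by
        rw [add_zero]
        exact hx
      map_l := fun r x => by
        rw [Dg.sp_zero]
        refine (DgE_tmul A (a, b) r 1 x).trans ?_
        rw [MulOpposite.unop_one, map_one, mul_one]
        rfl
      map_r := fun r x => by
        refine (DgE_tmul A (a, b) 1 (MulOpposite.op r) x).trans ?_
        rw [map_one, one_mul]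
        rfl }
  dd := fun a b => LinearMap.ext fun x => by
    rw [GMap.dd_apply, sg_zero, one_smul, LinearMap.zero_apply, sub_eq_zero]
    rfl
  nat := fun {a a' b b'} h h' x => rfl

theorem dgL_biso : BIso (MP_6e5bed_ag_GG.dgS A).bp.BB
    (cB2 (PA.dg A.pa) (LL i) (FS.e i) (LL i) (FS.e i)) :=
  (dgL A).biso (fun a b => Function.bijective_id) _ _ _ _

variable {A}

/-- The dg algebra of a coherent algebra has finite-dimensional cohomology. -/
theorem finCoh_TT (hF : FinBB A A) : (TT A).dg.FinCoh := by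
  obtain ⟨φ, ψ, h0, h1, h2⟩ := dgL_biso A
  exact (dg_finCoh A.pa mem_LL).1 ((QIso.finCoh φ (qiso_of_inv h0 h1 h2)).1
    (hF (MP_6e5bed_ag_GG.dgS A) (dgS_coh A)))

theorem proper_TT (hF : FinBB A A) : Proper (TT A) := (proper_iff _).2 (finCoh_TT hF)

/-- The class of the diagonal bisheaf is the identity. -/
theorem rcls_dgS (hF : FinBB A A) (hS : Smooth (TT A))
    (r : HasRes (MP_6e5bed_ag_GG.dgS A).bp.BB) : rcls _ r = K0Q.one hS := by
  have h1 := r.iso (dgL_biso A)
  rw [rcls_iso (dgL_biso A) r h1]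
  exact dg_rcls A.pa mem_LL hS (proper_TT hF) h1

/-- The identity is in `J`, given the main step. -/
theorem one_mem {hF : FinBB A A} {hS : Smooth (TT A)}
    {J : Submodule ℚ (K0Q (TT A) (TT A))} (h : MainS A hF hS J) : K0Q.one hS ∈ J :=
  one_mem_of_main h (fun r => rcls_dgS hF hS r)

end Pool.Agent.MP_6e5bed_ag_GG
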