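import Pool.Agent.Lib.MP_6e5bed_ag_GG.IC

set_option autoImplicit false
set_option linter.unusedSectionVars false
set_option linter.unusedVariables false

/-!
# MP_6e5bed_ag, THEOREM G: bisheaves which are constant in the first variable (text, (7.4))

`bsS T A'` is the site of the charts of the second space with the coefficients `T` on the left.
A cone `κ : Cone A T` is a compatible family of homomorphisms `A_c → T` on a set of charts which is
closed under enlarging the open sets (making `c` smaller); `Zs κ V` is the bisheaf with the sections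
`V_{c'}` on the charts `(c, c')` with `c` in the cone, and zero on the others.
-/

noncomputable section

namespace Pool.Agent.MP_6e5bed_ag_GG

open scoped TensorProduct

universe u

variable {k : Type u} [Field k] {i j : Type} [Fintype i] [Fintype j]

section site

variable (T : Type u) [Ring T] [Algebra k T] (A' : CA k j)

/-- the algebra `T ⊗ A'_{c'}ᵒᵖ` -/
abbrev bsSB (c' : Ch j) : Type u := T ⊗[k] (A'.A c')ᵐᵒᵖ

/-- the restriction maps -/
def bsSr {p q : Ch j} (h : p ≤ q) : bsSB T A' p →ₐ[k] bsSB T A' q :=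
  Algebra.TensorProduct.map (AlgHom.id k T) (AlgHom.op (A'.res h))

theorem bsSr_tmul {p q : Ch j} (h : p ≤ q) (a : T) (b : (A'.A p)ᵐᵒᵖ) :
    bsSr T A' h (a ⊗ₜ[k] b) = a ⊗ₜ[k] MulOpposite.op (A'.res h b.unop) := rfl

/-- The site of the charts of the second space, with the algebras `T ⊗ A'_{c'}ᵒᵖ`. -/
def bsS : Site k where
  P := Ch j
  B := bsSB T A'
  r := fun {p q} h => bsSr T A' h
  r_id := fun {p} h b => by
    induction b using TensorProduct.induction_on with
    | zero => rw [map_zero]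
    | tmul x y =>
      refine (bsSr_tmul T A' h x y).trans ?_
      rw [A'.res_id]
      rfl
    | add x y hx hy => rw [map_add, hx, hy]
  r_r := fun {p q s} h h' b => by
    induction b using TensorProduct.induction_on with
    | zero => rw [map_zero, map_zero, map_zero]
    | tmul x y =>
      refine (congrArg (bsSr T A' h') (bsSr_tmul T A' h x y)).trans
        ((bsSr_tmul T A' h' _ _).trans ?_)
      rw [MulOpposite.unop_op, A'.res_res]
      rfl
    | add x y hx hy => rw [map_add, map_add, map_add, hx, hy]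
  Loc := fun p q t => p ≤ q ∧ ∃ (l g : j) (hg : g ∈ p.1), q.1 ⊆ insert l p.1 ∧
    t = (1 : T) ⊗ₜ[k] MulOpposite.op (algebraMap (RR k p.1) (A'.A p) (tt k l hg))
  le := fun h => h.1
  comm := fun {p q t} h b => by
    obtain ⟨_, l, g, hg, _, rfl⟩ := h
    induction b using TensorProduct.induction_on with
    | zero => rw [mul_zero, zero_mul]
    | tmul x y =>
      rw [Algebra.TensorProduct.tmul_mul_tmul, Algebra.TensorProduct.tmul_mul_tmul, one_mul,
        mul_one]
      congr 1
      refine MulOpposite.unop_injective ?_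
      rw [MulOpposite.unop_mul, MulOpposite.unop_mul, MulOpposite.unop_op, Algebra.commutes]
    | add x y hx hy => rw [mul_add, add_mul, hx, hy]

end site

/-! ### Cones -/

/-- A cone: compatible homomorphisms `A_c → T` for the charts `c` in a set `D` of charts. -/
structure Cone (A : CA k i) (T : Type u) [Ring T] [Algebra k T] where
  D : Ch i → Prop
  dn : ∀ {c d : Ch i}, c ≤ d → D d → D c
  psi : ∀ c, D c → A.A c →ₐ[k] T
  nat : ∀ {c d : Ch i} (h : c ≤ d) (hd : D d) (a : A.A c),
    psi d hd (A.res h a) = psi c (dn h hd) a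
  zero : ∀ {c d : Ch i} (h : c ≤ d) (hc : D c), ¬ D d → ∀ {g : i} (hg : g ∈ c.1) (l : i),
    d.1 ⊆ insert l c.1 → psi c hc (algebraMap (RR k c.1) (A.A c) (tt k l hg)) = 0

section Zs

variable {A : CA k i} {A' : CA k j} {T : Type u} [Ring T] [Algebra k T] (κ : Cone A T)

/-- the homomorphism `A_c ⊗ A'_{c'}ᵒᵖ → T ⊗ A'_{c'}ᵒᵖ` -/
def Cone.ph (A' : CA k j) (p : Ch i × Ch j) (h : κ.D p.1) : bsB A A' p →ₐ[k] bsSB T A' p.2 :=
  Algebra.TensorProduct.map (κ.psi p.1 h) (AlgHom.id k _)

theorem Cone.ph_tmul (p : Ch i × Ch j) (h : κ.D p.1) (a : A.A p.1) (b : (A'.A p.2)ᵐᵒᵖ) :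
    κ.ph A' p h (a ⊗ₜ[k] b) = κ.psi p.1 h a ⊗ₜ[k] b := rfl

theorem Cone.ph_r {p q : Ch i × Ch j} (h : p ≤ q) (hq : κ.D q.1) (b : bsB A A' p) :
    κ.ph A' q hq (bsr A A' h b) = bsSr T A' h.2 (κ.ph A' p (κ.dn h.1 hq) b) := by
  induction b using TensorProduct.induction_on with
  | zero => rw [map_zero, map_zero, map_zero, map_zero]
  | tmul x y =>
    rw [bsr_tmul, Cone.ph_tmul, Cone.ph_tmul, bsSr_tmul, κ.nat]
  | add x y hx hy => rw [map_add, map_add, map_add, map_add, hx, hy]

variable (V : Sh (bsS T A'))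

/-- the sections -/
def ZE (p : Ch i × Ch j) : Type u := PLift (κ.D p.1) → V.E p.2

instance (p : Ch i × Ch j) : AddCommGroup (ZE κ V p) :=
  inferInstanceAs (AddCommGroup (PLift (κ.D p.1) → V.E p.2))

instance (p : Ch i × Ch j) : Module k (ZE κ V p) :=
  inferInstanceAs (Module k (PLift (κ.D p.1) → V.E p.2))

/-- the action on `V` -/
def Zact {c' : Ch j} (b : bsSB T A' c') (v : V.E c') : V.E c' :=
  (show (bsS T A').B c' from b) • v

instance (p : Ch i × Ch j) : Module (bsB A A' p) (ZE κ V p) where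
  smul b x := fun h => Zact V (κ.ph A' p h.down b) (x h)
  one_smul x := funext fun h => by
    change Zact V (κ.ph A' p h.down 1) (x h) = x h
    rw [map_one]
    exact one_smul ((bsS T A').B p.2) (x h)
  mul_smul b b' x := funext fun h => by
    change Zact V (κ.ph A' p h.down (b * b')) (x h) = _
    rw [map_mul]
    exact mul_smul (α := (bsS T A').B p.2) _ _ (x h)
  smul_zero b := funext fun h => smul_zero (M := (bsS T A').B p.2) _
  smul_add b x y := funext fun h => smul_add (M := (bsS T A').B p.2) _ _ _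
  add_smul b b' x := funext fun h => by
    change Zact V (κ.ph A' p h.down (b + b')) (x h) = _
    rw [map_add]
    exact add_smul (R := (bsS T A').B p.2) _ _ (x h)
  zero_smul x := funext fun h => by
    change Zact V (κ.ph A' p h.down 0) (x h) = _
    rw [map_zero]
    exact zero_smul ((bsS T A').B p.2) (x h)

theorem ZE_smul (p : Ch i × Ch j) (b : bsB A A' p) (x : ZE κ V p) (h : PLift (κ.D p.1)) :
    (b • x : ZE κ V p) h = Zact V (κ.ph A' p h.down b) (x h) := rfl

instance (p : Ch i × Ch j) : IsScalarTower k (bsB A A' p) (ZE κ V p) where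
  smul_assoc c b x := funext fun h => by
    change Zact V (κ.ph A' p h.down (c • b)) (x h) = c • Zact V (κ.ph A' p h.down b) (x h)
    rw [map_smul]
    exact smul_assoc (N := (bsS T A').B p.2) c _ (x h)

theorem ZE_ext {p : Ch i × Ch j} {x y : ZE κ V p} (h : ∀ hd : κ.D p.1, x ⟨hd⟩ = y ⟨hd⟩) :
    x = y := funext fun hd => h hd.down

/-- restriction to an equal chart is bijective -/
theorem Sh.res_res_self {S : Site k} (V : Sh S) {p q : S.P} (h : p ≤ q) (h' : q ≤ p)
    (x : V.E p) : V.res h' (V.res h x) = x := by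
  rw [V.res_res, V.res_id]

/-- The bisheaf which is constant in the first variable along a cone. -/
def Zs : BS A A' where
  E := ZE κ V
  mod := fun p => inferInstanceAs (Module (bsB A A' p) (ZE κ V p))
  tow := fun p => inferInstanceAs (IsScalarTower k (bsB A A' p) (ZE κ V p))
  res := fun {p q} h =>
    { toFun := fun x hq => V.res h.2 (x ⟨κ.dn h.1 hq.down⟩)
      map_add' := fun x y => funext fun hq => map_add (V.res h.2) _ _
      map_smul' := fun c x => funext fun hq => map_smul (V.res h.2) c _ }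
  res_smul := fun {p q} h b x => funext fun hq => by
    change V.res h.2 (Zact V (κ.ph A' p _ b) (x _)) =
      Zact V (κ.ph A' q hq.down (bsr A A' h b)) (V.res h.2 (x _))
    rw [κ.ph_r h hq.down]
    exact V.res_smul h.2 _ _
  res_id := fun {p} h x => funext fun hq => V.res_id h.2 _
  res_res := fun {p q s} h h' x => funext fun hq => V.res_res h.2 h'.2 _
  surj := fun {p q t} h y => by
    obtain ⟨h0, h1⟩ := h
    by_cases hd : κ.D q.1
    swap
    · exact ⟨0, 0, ZE_ext κ V (fun hd' => absurd hd' hd)⟩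
    rcases h1 with ⟨l, g, hg, h2, h3, rfl⟩ | ⟨l, g, hg, h2, h3, rfl⟩
    · refine ⟨0, fun _ => V.res h3 (y ⟨hd⟩), ZE_ext κ V (fun hd' => ?_)⟩
      rw [pow_zero, one_smul]
      exact V.res_res_self h3 h0.2 (y ⟨hd⟩)
    · have hL : (bsS T A').Loc p.2 q.2
          ((1 : T) ⊗ₜ[k] MulOpposite.op (algebraMap (RR k p.2.1) (A'.A p.2) (tt k l hg))) :=
        ⟨h0.2, l, g, hg, h2, rfl⟩
      obtain ⟨n, x, hx⟩ := V.surj hL (y ⟨hd⟩)
      refine ⟨n, fun _ => x, ZE_ext κ V (fun hd' => ?_)⟩
      refine hx.trans ?_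
      have h4 : (bsS T A').r hL.1 ((1 : T) ⊗ₜ[k]
          MulOpposite.op (algebraMap (RR k p.2.1) (A'.A p.2) (tt k l hg))) ^ n =
          κ.ph A' q hd' ((bsr A A' h0 ((1 : A.A p.1) ⊗ₜ[k]
          MulOpposite.op (algebraMap (RR k p.2.1) (A'.A p.2) (tt k l hg)))) ^ n) := by
        rw [map_pow]
        congr 1
        rw [bsr_tmul, map_one, Cone.ph_tmul, map_one]
        rfl
      exact congrArg (fun z => z • y ⟨hd⟩) h4
  inj := fun {p q t} h x hx => by
    obtain ⟨h0, h1⟩ := h
    by_cases hp : κ.D p.1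
    swap
    · exact ⟨0, ZE_ext κ V (fun hd' => absurd hd' hp)⟩
    rcases h1 with ⟨l, g, hg, h2, h3, rfl⟩ | ⟨l, g, hg, h2, h3, rfl⟩
    · by_cases hd : κ.D q.1
      · refine ⟨0, ZE_ext κ V (fun hd' => ?_)⟩
        rw [pow_zero, one_smul]
        have h4 : V.res h0.2 (x ⟨hp⟩) = 0 := congrFun hx ⟨hd⟩
        have h5 := V.res_res_self h0.2 h3 (x ⟨hp⟩)
        rw [h4, map_zero] at h5
        exact h5.symm
      · refine ⟨1, ZE_ext κ V (fun hd' => ?_)⟩
        rw [pow_one]
        change Zact V (κ.ph A' p hp _) (x ⟨hp⟩) = 0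
        rw [Cone.ph_tmul, κ.zero h0.1 hp hd hg l h2, TensorProduct.zero_tmul]
        exact zero_smul ((bsS T A').B p.2) (x ⟨hp⟩)
    · have hd : κ.D q.1 := κ.dn h3 hp
      have hL : (bsS T A').Loc p.2 q.2
          ((1 : T) ⊗ₜ[k] MulOpposite.op (algebraMap (RR k p.2.1) (A'.A p.2) (tt k l hg))) :=
        ⟨h0.2, l, g, hg, h2, rfl⟩
      obtain ⟨n, hn⟩ := V.inj hL (x ⟨hp⟩) (congrFun hx ⟨hd⟩)
      refine ⟨n, ZE_ext κ V (fun hd' => ?_)⟩
      refine Eq.trans ?_ hn
      have h4 : ((1 : T) ⊗ₜ[k]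
          MulOpposite.op (algebraMap (RR k p.2.1) (A'.A p.2) (tt k l hg)) : bsSB T A' p.2) ^ n =
          κ.ph A' p hd' (((1 : A.A p.1) ⊗ₜ[k]
          MulOpposite.op (algebraMap (RR k p.2.1) (A'.A p.2) (tt k l hg))) ^ n) := by
        rw [map_pow]
        congr 1
        rw [Cone.ph_tmul, map_one]
      exact congrArg (fun z => Zact V z (x ⟨hp⟩)) h4.symm

/-- a section of `Zs` as a section of `V` -/
theorem Zs_res {p q : Ch i × Ch j} (h : p ≤ q) (x : (Zs κ V).E p) (hq : PLift (κ.D q.1)) :
    ((Zs κ V).res h x : ZE κ V q) hq = V.res h.2 ((x : ZE κ V p) ⟨κ.dn h.1 hq.down⟩) := rfl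

/-- a morphism of coefficient sheaves -/
def Zs.map {V V' : Sh (bsS T A')} (f : ShH V V') : ShH (Zs κ V) (Zs κ V') where
  f := fun p =>
    { toFun := fun (x : ZE κ V p) => (fun h => f.f p.2 (x h) : ZE κ V' p)
      map_add' := fun x y => funext fun h => map_add (f.f p.2) _ _
      map_smul' := fun b x => funext fun h => map_smul (f.f p.2) _ _ }
  nat := fun {p q} h x => funext fun hq => f.nat h.2 _

theorem Zs.map_bij {V V' : Sh (bsS T A')} (f : ShH V V') (hf : f.Bij) : (Zs.map κ f).Bij := by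
  intro p
  constructor
  · intro x y hxy
    exact funext fun h => (hf p.2).1 (congrFun hxy h)
  · intro y
    choose x hx using fun h : PLift (κ.D p.1) => (hf p.2).2 ((y : ZE κ V' p) h)
    exact ⟨x, funext hx⟩

/-- powers of the coefficient sheaf -/
def Zs.pow (n : ℕ) : ShH (Zs κ (V.pow n)) ((Zs κ V).pow n) where
  f := fun p =>
    { toFun := fun (x : ZE κ (V.pow n) p) =>
        (fun l => (fun h => (x h : Fin n → V.E p.2) l : ZE κ V p) : Fin n → (Zs κ V).E p)
      map_add' := fun x y => rfl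
      map_smul' := fun b x => rfl }
  nat := fun {p q} h x => rfl

theorem Zs.pow_bij (n : ℕ) : (Zs.pow κ V n).Bij := by
  intro p
  constructor
  · intro x y hxy
    exact funext fun h => funext fun l => congrFun (congrFun hxy l) h
  · intro y
    exact ⟨fun h => fun l => (y l : ZE κ V p) h, rfl⟩

end Zs

end Pool.Agent.MP_6e5bed_ag_GG
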