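import Pool.Agent.Lib.MP_6e5bed_ag_GG.GB

set_option autoImplicit false
set_option linter.unusedSectionVars false
set_option linter.unusedVariables false

/-!
# MP_6e5bed_ag, THEOREM G: the generic data of a reduced bisheaf (text, (7.4))
-/

noncomputable section

namespace Pool.Agent.MP_6e5bed_ag_GG

open scoped TensorProduct

universe u

variable {k : Type u} [Field k] {i j : Type} [Fintype i] [Fintype j] {A : CA k i} {A' : CA k j}

/-- functions of the first space as a ring homomorphism -/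
def cl1H (A : CA k i) (A' : CA k j) (p : Ch i × Ch j) : RR k p.1.1 →+* (bs A A').B p :=
  (lo A A' p).toRingHom.comp (algebraMap (RR k p.1.1) (A.A p.1))

/-- the sections over `(m, c')` -/
def Sec (E : BS A A') (m : Ch i) (c' : Ch j) : Type u := E.E (m, c')

section

variable (E : BS A A') (m : Ch i)

instance (c' : Ch j) : AddCommGroup (Sec E m c') := inferInstanceAs (AddCommGroup (E.E (m, c')))

instance (c' : Ch j) : Module (RR k m.1) (Sec E m c') :=
  Module.compHom (E.E (m, c')) (cl1H A A' (m, c'))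

theorem Sec_smul (c' : Ch j) (f : RR k m.1) (x : Sec E m c') :
    f • x = (cl1 A A' (m, c') f • (show E.E (m, c') from x) : E.E (m, c')) := rfl

/-- the action of `A_m ⊗ A'_{c'}ᵒᵖ` -/
def bend (c' : Ch j) : (bs A A').B (m, c') →+* Module.End (RR k m.1) (Sec E m c') where
  toFun b :=
    { toFun := fun x => (b • (show E.E (m, c') from x) : E.E (m, c'))
      map_add' := fun x y => smul_add (A := E.E (m, c')) b x y
      map_smul' := fun f x => by
        change b • cl1 A A' (m, c') f • (show E.E (m, c') from x) =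
          cl1 A A' (m, c') f • b • (show E.E (m, c') from x)
        rw [← mul_smul, ← mul_smul, cl1_comm] }
  map_one' := LinearMap.ext fun x => one_smul (M := (bs A A').B (m, c')) (α := E.E (m, c')) x
  map_mul' := fun b b' => LinearMap.ext fun x => mul_smul (β := E.E (m, c')) b b' x
  map_zero' := LinearMap.ext fun x => zero_smul (M₀ := (bs A A').B (m, c')) (A := E.E (m, c')) x
  map_add' := fun b b' => LinearMap.ext fun x => add_smul (M := E.E (m, c')) b b' x

theorem bend_apply (c' : Ch j) (b : (bs A A').B (m, c')) (x : Sec E m c') :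
    bend E m c' b x = (b • (show E.E (m, c') from x) : E.E (m, c')) := rfl

/-- the restriction in the second variable -/
def rend {c' d' : Ch j} (h : c' ≤ d') : Sec E m c' →ₗ[RR k m.1] Sec E m d' where
  toFun x := E.res (p := (m, c')) (q := (m, d')) ⟨le_rfl, h⟩ x
  map_add' := fun x y => map_add _ _ _
  map_smul' := fun f x => by
    refine (E.res_cl1 (p := (m, c')) (q := (m, d')) ⟨le_rfl, h⟩ f x).trans ?_
    rfl

variable (Sg : Submonoid (RR k m.1))

/-- the localised sections -/
def LV (c' : Ch j) : Type u := LocalizedModule Sg (Sec E m c')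

instance (c' : Ch j) : AddCommGroup (LV E m Sg c') :=
  inferInstanceAs (AddCommGroup (LocalizedModule Sg (Sec E m c')))

instance (c' : Ch j) : Module (RR k m.1) (LV E m Sg c') :=
  inferInstanceAs (Module (RR k m.1) (LocalizedModule Sg (Sec E m c')))

instance (c' : Ch j) : Module k (LV E m Sg c') :=
  Module.compHom _ (algebraMap k (RR k m.1))

instance (c' : Ch j) : IsScalarTower k (RR k m.1) (LV E m Sg c') :=
  ⟨fun c f x => by
    change (c • f) • x = algebraMap k (RR k m.1) c • f • x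
    rw [← mul_smul, Algebra.smul_def]⟩

theorem LV_k (c' : Ch j) (c : k) (v : LV E m Sg c') :
    c • v = algebraMap k (RR k m.1) c • v := rfl

/-- the map from the sections -/
def LV.ι (c' : Ch j) : Sec E m c' →ₗ[RR k m.1] LV E m Sg c' := lι Sg (Sec E m c')

/-- the action of `A_m ⊗ A'_{c'}ᵒᵖ` on the localised sections -/
def LV.act (c' : Ch j) : (bs A A').B (m, c') →+* Module.End (RR k m.1) (LV E m Sg c') :=
  (lend Sg (Sec E m c')).comp (bend E m c')

/-- the restriction in the second variable -/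
def LV.r {c' d' : Ch j} (h : c' ≤ d') : LV E m Sg c' →ₗ[RR k m.1] LV E m Sg d' :=
  lmap Sg (rend E m h)

variable {E m Sg}

theorem LV.act_ι {c' : Ch j} (b : (bs A A').B (m, c')) (x : Sec E m c') :
    LV.act E m Sg c' b (LV.ι E m Sg c' x) = LV.ι E m Sg c' (bend E m c' b x) :=
  lend_ι Sg _ x

theorem LV.r_ι {c' d' : Ch j} (h : c' ≤ d') (x : Sec E m c') :
    LV.r E m Sg h (LV.ι E m Sg c' x) = LV.ι E m Sg d' (rend E m h x) := lmap_ι Sg _ x

theorem LV.surj {c' : Ch j} (v : LV E m Sg c') : ∃ s ∈ Sg, ∃ x, s • v = LV.ι E m Sg c' x :=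
  lι_surj Sg v

theorem LV.inj {c' : Ch j} {s : RR k m.1} (hs : s ∈ Sg) {v w : LV E m Sg c'}
    (h : s • v = s • w) : v = w := l_inj Sg hs h

theorem LV.div {c' : Ch j} {s : RR k m.1} (hs : s ∈ Sg) (v : LV E m Sg c') :
    ∃ w : LV E m Sg c', s • w = v := l_surj Sg hs v

theorem LV.ι_zero {c' : Ch j} {x : Sec E m c'} :
    LV.ι E m Sg c' x = 0 ↔ ∃ s ∈ Sg, s • x = 0 := lι_eq_zero Sg

theorem LV.ext {c' d' : Ch j} {f g : LV E m Sg c' →ₗ[RR k m.1] LV E m Sg d'}
    (h : ∀ x, f (LV.ι E m Sg c' x) = g (LV.ι E m Sg c' x)) : f = g := l_ext Sg h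

theorem LV.act_cl1 {c' : Ch j} (f : RR k m.1) (v : LV E m Sg c') :
    LV.act E m Sg c' (cl1 A A' (m, c') f) v = f • v := by
  have h : LV.act E m Sg c' (cl1 A A' (m, c') f) = f • LinearMap.id := by
    refine LV.ext fun x => ?_
    rw [LV.act_ι, LinearMap.smul_apply, LinearMap.id_apply, ← map_smul]
    rfl
  rw [h]
  rfl

theorem LV.act_algebraMap {c' : Ch j} (c : k) (v : LV E m Sg c') :
    LV.act E m Sg c' (algebraMap k _ c) v = c • v := by
  rw [LV_k, ← LV.act_cl1]
  congr 2
  unfold cl1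
  rw [← IsScalarTower.algebraMap_apply, AlgHom.commutes]

theorem LV.r_act {c' d' : Ch j} (h : c' ≤ d') (b : (bs A A').B (m, c'))
    (v : LV E m Sg c') :
    LV.r E m Sg h (LV.act E m Sg c' b v) =
      LV.act E m Sg d' ((bs A A').r (p := (m, c')) (q := (m, d')) ⟨le_rfl, h⟩ b)
        (LV.r E m Sg h v) := by
  have h1 : LV.r E m Sg h ∘ₗ LV.act E m Sg c' b =
      LV.act E m Sg d' ((bs A A').r (p := (m, c')) (q := (m, d')) ⟨le_rfl, h⟩ b) ∘ₗ
        LV.r E m Sg h := by
    refine LV.ext fun x => ?_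
    rw [LinearMap.comp_apply, LinearMap.comp_apply, LV.act_ι, LV.r_ι, LV.r_ι, LV.act_ι]
    congr 1
    exact E.res_smul (p := (m, c')) (q := (m, d')) ⟨le_rfl, h⟩ b x
  exact LinearMap.congr_fun h1 v

theorem LV.r_id {c' : Ch j} (h : c' ≤ c') (v : LV E m Sg c') : LV.r E m Sg h v = v := by
  have h1 : LV.r E m Sg h = LinearMap.id := by
    refine LV.ext fun x => ?_
    rw [LV.r_ι]
    exact congrArg (LV.ι E m Sg c') (E.res_id (p := (m, c')) ⟨le_rfl, h⟩ x)
  rw [h1]
  rfl

theorem LV.r_r {c' d' e' : Ch j} (h : c' ≤ d') (h' : d' ≤ e') (v : LV E m Sg c') :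
    LV.r E m Sg h' (LV.r E m Sg h v) = LV.r E m Sg (h.trans h') v := by
  have h1 : LV.r E m Sg h' ∘ₗ LV.r E m Sg h = LV.r E m Sg (h.trans h') := by
    refine LV.ext fun x => ?_
    rw [LinearMap.comp_apply, LV.r_ι, LV.r_ι, LV.r_ι]
    exact congrArg (LV.ι E m Sg e') (E.res_res (p := (m, c')) (q := (m, d')) (s := (m, e'))
      ⟨le_rfl, h⟩ ⟨le_rfl, h'⟩ x)
  exact LinearMap.congr_fun h1 v

variable (E m Sg)

/-! ### The algebra `S` -/

/-- the localisation of the quotient of `A_m` -/
def LS : Subalgebra k (∀ c' : Ch j, Module.End (RR k m.1) (LV E m Sg c')) where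
  carrier := {φ | ∃ s ∈ Sg, ∃ a : A.A m, ∀ (c' : Ch j) (v : LV E m Sg c'),
    s • φ c' v = LV.act E m Sg c' (lo A A' (m, c') a) v}
  mul_mem' := by
    rintro φ φ' ⟨s, hs, a, h⟩ ⟨s', hs', a', h'⟩
    refine ⟨s * s', Sg.mul_mem hs hs', a * a', fun c' v => ?_⟩
    change (s * s') • φ c' (φ' c' v) = _
    rw [mul_smul, ← map_smul, h', h, map_mul, map_mul]
    rfl
  add_mem' := by
    rintro φ φ' ⟨s, hs, a, h⟩ ⟨s', hs', a', h'⟩
    refine ⟨s * s', Sg.mul_mem hs hs', algebraMap _ _ s' * a + algebraMap _ _ s * a',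
      fun c' v => ?_⟩
    change (s * s') • (φ c' v + φ' c' v) = _
    rw [map_add, map_mul, map_mul, map_add, map_mul, map_mul, smul_add]
    have e1 : (s * s') • φ c' v = LV.act E m Sg c' (lo A A' (m, c') (algebraMap _ _ s'))
        (LV.act E m Sg c' (lo A A' (m, c') a) v) := by
      rw [mul_comm, mul_smul, h]
      exact (LV.act_cl1 s' _).symm
    have e2 : (s * s') • φ' c' v = LV.act E m Sg c' (lo A A' (m, c') (algebraMap _ _ s))
        (LV.act E m Sg c' (lo A A' (m, c') a') v) := by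
      rw [mul_smul, h']
      exact (LV.act_cl1 s _).symm
    rw [e1, e2]
    rfl
  algebraMap_mem' := fun c => ⟨1, Sg.one_mem, algebraMap _ _ c, fun c' v => by
    rw [one_smul, AlgHom.commutes, LV.act_algebraMap]
    rfl⟩

/-- the homomorphism from `A_m` -/
def LS.psi : A.A m →ₐ[k] LS E m Sg where
  toFun a := ⟨fun c' => LV.act E m Sg c' (lo A A' (m, c') a), 1, Sg.one_mem, a, fun c' v => by
    rw [one_smul]⟩
  map_one' := Subtype.ext (funext fun c' => by
    change LV.act E m Sg c' (lo A A' (m, c') 1) = 1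
    rw [map_one, map_one])
  map_mul' := fun a b => Subtype.ext (funext fun c' => by
    change LV.act E m Sg c' (lo A A' (m, c') (a * b)) = _
    rw [map_mul, map_mul]
    rfl)
  map_zero' := Subtype.ext (funext fun c' => by
    change LV.act E m Sg c' (lo A A' (m, c') 0) = 0
    rw [map_zero, map_zero])
  map_add' := fun a b => Subtype.ext (funext fun c' => by
    change LV.act E m Sg c' (lo A A' (m, c') (a + b)) = _
    rw [map_add, map_add]
    rfl)
  commutes' := fun c => Subtype.ext (funext fun c' => by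
    change LV.act E m Sg c' (lo A A' (m, c') (algebraMap _ _ c)) = _
    rw [AlgHom.commutes]
    refine LinearMap.ext fun v => ?_
    rw [LV.act_algebraMap]
    rfl)

variable {E m Sg}

theorem LS.psi_apply (a : A.A m) (c' : Ch j) (v : LV E m Sg c') :
    (LS.psi E m Sg a).1 c' v = LV.act E m Sg c' (lo A A' (m, c') a) v := rfl

theorem LS.fn_apply (f : RR k m.1) (c' : Ch j) (v : LV E m Sg c') :
    (LS.psi E m Sg (algebraMap _ _ f)).1 c' v = f • v := LV.act_cl1 f v

/-- the elements of `S` commute with the right action -/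
theorem LS.comm (φ : LS E m Sg) {c' : Ch j} (b : (A'.A c')ᵐᵒᵖ) (v : LV E m Sg c') :
    φ.1 c' (LV.act E m Sg c' (ro A A' (m, c') b) v) =
      LV.act E m Sg c' (ro A A' (m, c') b) (φ.1 c' v) := by
  obtain ⟨s, hs, a, h⟩ := φ.2
  refine LV.inj hs ?_
  rw [h, ← map_smul, h, ← Module.End.mul_apply, ← Module.End.mul_apply, ← map_mul, ← map_mul,
    ro_mul_lo]

/-- the elements of `S` commute with the restriction maps -/
theorem LS.nat (φ : LS E m Sg) {c' d' : Ch j} (h : c' ≤ d') (v : LV E m Sg c') :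
    LV.r E m Sg h (φ.1 c' v) = φ.1 d' (LV.r E m Sg h v) := by
  obtain ⟨s, hs, a, h1⟩ := φ.2
  refine LV.inj hs ?_
  rw [h1, ← map_smul, h1, LV.r_act]
  congr 2
  refine (lo_r A A' (p := (m, c')) (q := (m, d')) ⟨le_rfl, h⟩ a).trans ?_
  rw [A.res_id]

end

end Pool.Agent.MP_6e5bed_ag_GG
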