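import Pool.Agent.Lib.MP_6e5bed_ag_GG.GF
import Pool.Agent.Lib.MP_6e5bed_ag_GG.Xa

set_option autoImplicit false
set_option linter.unusedSectionVars false
set_option linter.unusedVariables false

/-!
# MP_6e5bed_ag, THEOREM G: the sheaves `M ⊗_L V` and `S ⊗_L (M ⊗_L V)` (text, section 8)
-/

noncomputable section

namespace Pool.Agent.MP_6e5bed_ag_GG

open scoped TensorProduct

universe u

variable {k : Type u} [Field k] {j : Type} [Fintype j] {A' : CA k j}

/-- the sections of `V` as modules over `S` and `L` -/
def VE (L : Type u) {S : Type u} [Ring S] [Algebra k S] (V : Sh (bsS S A')) (c : Ch j) :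
    Type u := V.E c

section tens

variable (L : Type u) [Field L] [Algebra k L] {S : Type u} [Ring S] [Algebra k S] [Algebra L S]
  [IsScalarTower k L S] (V : Sh (bsS S A'))

instance (c : Ch j) : AddCommGroup (VE L V c) := inferInstanceAs (AddCommGroup (V.E c))

instance (c : Ch j) : Module k (VE L V c) := inferInstanceAs (Module k (V.E c))

instance (c : Ch j) : Module S (VE L V c) :=
  Module.compHom (V.E c) (shl V c).toRingHom

instance (c : Ch j) : Module L (VE L V c) :=
  Module.compHom (V.E c) ((shl V c).toRingHom.comp (algebraMap L S))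

theorem VE_S (c : Ch j) (s : S) (x : VE L V c) : s • x = shl V c s x := rfl

theorem VE_L (c : Ch j) (s : L) (x : VE L V c) : s • x = shl V c (algebraMap L S s) x := rfl

instance (c : Ch j) : IsScalarTower L S (VE L V c) :=
  ⟨fun a s x => by
    rw [VE_S, VE_L, VE_S, Algebra.smul_def, map_mul]
    rfl⟩

instance (c : Ch j) : IsScalarTower k S (VE L V c) :=
  ⟨fun a s x => by
    rw [VE_S, VE_S, map_smul]
    rfl⟩

instance (c : Ch j) : IsScalarTower k L (VE L V c) :=
  ⟨fun a s x => by
    rw [VE_L, VE_L, Algebra.smul_def, map_mul, map_mul, ← IsScalarTower.algebraMap_apply,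
      AlgHom.commutes]
    rfl⟩

/-- the right action is linear over `S` -/
def VEr (c : Ch j) : (A'.A c)ᵐᵒᵖ →ₐ[k] Module.End S (VE L V c) where
  toFun b :=
    { toFun := fun x => shr V c b x
      map_add' := fun x y => map_add (shr V c b) x y
      map_smul' := fun s x => (sh_comm c s b x).symm }
  map_one' := LinearMap.ext fun x => by
    change shr V c 1 x = x
    rw [map_one]
    rfl
  map_mul' := fun b b' => LinearMap.ext fun x => by
    change shr V c (b * b') x = _
    rw [map_mul]
    rfl
  map_zero' := LinearMap.ext fun x => by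
    change shr V c 0 x = 0
    rw [map_zero]
    rfl
  map_add' := fun b b' => LinearMap.ext fun x => by
    change shr V c (b + b') x = _
    rw [map_add]
    rfl
  commutes' := fun a => LinearMap.ext fun x => by
    change shr V c (algebraMap k _ a) x = _
    rw [AlgHom.commutes]
    rfl

theorem VEr_apply (c : Ch j) (b : (A'.A c)ᵐᵒᵖ) (x : VE L V c) : VEr L V c b x = shr V c b x := rfl

/-- the restriction maps are linear over `S` -/
def VEres {c d : Ch j} (h : c ≤ d) : VE L V c →ₗ[S] VE L V d where
  toFun x := V.res h x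
  map_add' := fun x y => map_add (V.res h) x y
  map_smul' := fun s x => res_shl h s x

end tens

/-! ### Families of modules over a field with a right action -/

/-- A sheaf of modules over a field `L` with a right action of `A'`. -/
structure LPre (L : Type u) [Field L] [Algebra k L] (A' : CA k j) where
  E : Ch j → Type u
  [grp : ∀ c, AddCommGroup (E c)]
  [modk : ∀ c, Module k (E c)]
  [modL : ∀ c, Module L (E c)]
  [tow : ∀ c, IsScalarTower k L (E c)]
  r : ∀ c, (A'.A c)ᵐᵒᵖ → E c →ₗ[L] E c
  r_one : ∀ c x, r c 1 x = x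
  r_mul : ∀ c b b' x, r c (b * b') x = r c b (r c b' x)
  r_add : ∀ c b b' x, r c (b + b') x = r c b x + r c b' x
  r_smul : ∀ c (a : k) b x, r c (a • b) x = a • r c b x
  res : ∀ {c d : Ch j}, c ≤ d → E c →ₗ[L] E d
  res_r : ∀ {c d : Ch j} (h : c ≤ d) (b : (A'.A c)ᵐᵒᵖ) (x : E c),
    res h (r c b x) = r d (MulOpposite.op (A'.res h b.unop)) (res h x)
  res_id : ∀ {c : Ch j} (h : c ≤ c) (x : E c), res h x = x
  res_res : ∀ {c d e : Ch j} (h : c ≤ d) (h' : d ≤ e) (x : E c),
    res h' (res h x) = res (h.trans h') x
  surj : ∀ {c d : Ch j} (h : c ≤ d) {g : j} (hg : g ∈ c.1) (l : j), d.1 ⊆ insert l c.1 →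
    ∀ y : E d, ∃ (n : ℕ) (x : E c), res h x =
      r d (MulOpposite.op (algebraMap (RR k d.1) (A'.A d) (tt k l (h hg) ^ n))) y
  inj : ∀ {c d : Ch j} (h : c ≤ d) {g : j} (hg : g ∈ c.1) (l : j), d.1 ⊆ insert l c.1 →
    ∀ x : E c, res h x = 0 → ∃ n : ℕ,
      r c (MulOpposite.op (algebraMap (RR k c.1) (A'.A c) (tt k l hg ^ n))) x = 0

attribute [instance] LPre.grp LPre.modk LPre.modL LPre.tow

/-- a sheaf with coefficients in an algebra over `L` -/
def LPre.ofSh (L : Type u) [Field L] [Algebra k L] {S : Type u} [Ring S] [Algebra k S]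
    [Algebra L S] [IsScalarTower k L S] (V : Sh (bsS S A')) : LPre L A' where
  E := VE L V
  r := fun c b => (VEr L V c b).restrictScalars L
  r_one := fun c x => by
    rw [map_one]
    rfl
  r_mul := fun c b b' x => by
    rw [map_mul]
    rfl
  r_add := fun c b b' x => by
    rw [map_add]
    rfl
  r_smul := fun c a b x => by
    rw [map_smul]
    rfl
  res := fun h => (VEres L V h).restrictScalars L
  res_r := fun h b x => res_shr h b x
  res_id := fun h x => V.res_id h x
  res_res := fun h h' x => V.res_res h h' x
  surj := fun {c d} h {g} hg l h2 y => sh_surj h hg l h2 y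
  inj := fun {c d} h {g} hg l h2 x hx => sh_inj h hg l h2 x hx

namespace LPre

variable {L : Type u} [Field L] [Algebra k L] (W : LPre L A') (K : Type u) [AddCommGroup K]
  [Module k K] [Module L K] [IsScalarTower k L K]

/-- powers of a function act as the product -/
theorem r_tt (c : Ch j) {g : j} (hg : g ∈ c.1) (l : j) (n n' : ℕ) (x : W.E c) :
    W.r c (MulOpposite.op (algebraMap (RR k c.1) (A'.A c) (tt k l hg ^ (n + n')))) x =
      W.r c (MulOpposite.op (algebraMap (RR k c.1) (A'.A c) (tt k l hg ^ n)))
        (W.r c (MulOpposite.op (algebraMap (RR k c.1) (A'.A c) (tt k l hg ^ n'))) x) := by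
  rw [← W.r_mul, ← MulOpposite.op_mul, ← map_mul, ← pow_add, add_comm]

/-- The tensor product with a vector space over `L`. -/
def ten : LPre L A' where
  E := fun c => K ⊗[L] W.E c
  r := fun c b => LinearMap.lTensor K (W.r c b)
  r_one := fun c x => by
    have h : W.r c 1 = LinearMap.id := LinearMap.ext (W.r_one c)
    rw [h, LinearMap.lTensor_id]
    rfl
  r_mul := fun c b b' x => by
    have h : W.r c (b * b') = W.r c b ∘ₗ W.r c b' := LinearMap.ext (W.r_mul c b b')
    rw [h, LinearMap.lTensor_comp]
    rfl
  r_add := fun c b b' x => by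
    have h : W.r c (b + b') = W.r c b + W.r c b' := LinearMap.ext (W.r_add c b b')
    rw [h, LinearMap.lTensor_add]
    rfl
  r_smul := fun c a b x => by
    induction x using TensorProduct.induction_on with
    | zero => rw [map_zero, map_zero, smul_zero]
    | tmul u v =>
      rw [LinearMap.lTensor_tmul, LinearMap.lTensor_tmul, W.r_smul, TensorProduct.tmul_smul]
    | add x y hx hy => rw [map_add, map_add, smul_add, hx, hy]
  res := fun h => LinearMap.lTensor K (W.res h)
  res_r := fun {c d} h b x => by
    have h1 : W.res h ∘ₗ W.r c b = W.r d (MulOpposite.op (A'.res h b.unop)) ∘ₗ W.res h :=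
      LinearMap.ext (W.res_r h b)
    rw [← LinearMap.comp_apply, ← LinearMap.lTensor_comp, h1, LinearMap.lTensor_comp]
    rfl
  res_id := fun {c} h x => by
    have h1 : W.res h = LinearMap.id := LinearMap.ext (W.res_id h)
    rw [h1, LinearMap.lTensor_id]
    rfl
  res_res := fun {c d e} h h' x => by
    have h1 : W.res h' ∘ₗ W.res h = W.res (h.trans h') := LinearMap.ext (W.res_res h h')
    rw [← LinearMap.comp_apply, ← LinearMap.lTensor_comp, h1]
  surj := fun {c d} h {g} hg l h2 y => by
    induction y using TensorProduct.induction_on with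
    | zero => exact ⟨0, 0, by rw [map_zero, map_zero]⟩
    | tmul u v =>
      obtain ⟨n, x, hx⟩ := W.surj h hg l h2 v
      exact ⟨n, u ⊗ₜ[L] x, by rw [LinearMap.lTensor_tmul, LinearMap.lTensor_tmul, hx]⟩
    | add y y' hy hy' =>
      obtain ⟨n, x, hx⟩ := hy
      obtain ⟨n', x', hx'⟩ := hy'
      refine ⟨n + n', LinearMap.lTensor K (W.r c (MulOpposite.op
        (algebraMap (RR k c.1) (A'.A c) (tt k l hg ^ n')))) x +
        LinearMap.lTensor K (W.r c (MulOpposite.op
        (algebraMap (RR k c.1) (A'.A c) (tt k l hg ^ n)))) x', ?_⟩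
      have key : ∀ (m : ℕ) (z : K ⊗[L] W.E c), LinearMap.lTensor K (W.res h)
          (LinearMap.lTensor K (W.r c (MulOpposite.op
            (algebraMap (RR k c.1) (A'.A c) (tt k l hg ^ m)))) z) =
          LinearMap.lTensor K (W.r d (MulOpposite.op
            (algebraMap (RR k d.1) (A'.A d) (tt k l (h hg) ^ m))))
            (LinearMap.lTensor K (W.res h) z) := by
        intro m z
        rw [← LinearMap.comp_apply, ← LinearMap.lTensor_comp, ← LinearMap.comp_apply,
          ← LinearMap.lTensor_comp]
        congr 2
        refine LinearMap.ext fun w => ?_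
        refine (W.res_r h _ w).trans ?_
        rw [MulOpposite.unop_op, A'.res_R, map_pow, LinearMap.comp_apply]
        rfl
      have hr : ∀ (a b : ℕ), W.r d (MulOpposite.op
          (algebraMap (RR k d.1) (A'.A d) (tt k l (h hg) ^ (a + b)))) =
          W.r d (MulOpposite.op (algebraMap (RR k d.1) (A'.A d) (tt k l (h hg) ^ a))) ∘ₗ
          W.r d (MulOpposite.op (algebraMap (RR k d.1) (A'.A d) (tt k l (h hg) ^ b))) :=
        fun a b => LinearMap.ext fun z => W.r_tt d (h hg) l a b z
      rw [map_add, key, key, hx, hx', map_add]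
      congr 1
      · rw [← LinearMap.comp_apply, ← LinearMap.lTensor_comp, ← hr, add_comm n' n]
      · rw [← LinearMap.comp_apply, ← LinearMap.lTensor_comp, ← hr]
  inj := fun {c d} h {g} hg l h2 x hx => by
    have hex : Function.Exact (LinearMap.lTensor K (LinearMap.ker (W.res h)).subtype)
        (LinearMap.lTensor K (W.res h)) :=
      Module.Flat.lTensor_exact K (LinearMap.exact_subtype_ker_map (W.res h))
    obtain ⟨z, rfl⟩ := (hex x).1 hx
    clear hx
    induction z using TensorProduct.induction_on with
    | zero => exact ⟨0, by rw [map_zero, map_zero]⟩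
    | tmul u v =>
      obtain ⟨n, hn⟩ := W.inj h hg l h2 v.1 (LinearMap.mem_ker.1 v.2)
      refine ⟨n, ?_⟩
      rw [LinearMap.lTensor_tmul, LinearMap.lTensor_tmul]
      refine (congrArg (fun w => u ⊗ₜ[L] w) hn).trans ?_
      exact TensorProduct.tmul_zero _ _
    | add y y' hy hy' =>
      obtain ⟨n, hn⟩ := hy
      obtain ⟨n', hn'⟩ := hy'
      have hr : ∀ (a b : ℕ), W.r c (MulOpposite.op
          (algebraMap (RR k c.1) (A'.A c) (tt k l hg ^ (a + b)))) =
          W.r c (MulOpposite.op (algebraMap (RR k c.1) (A'.A c) (tt k l hg ^ a))) ∘ₗ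
          W.r c (MulOpposite.op (algebraMap (RR k c.1) (A'.A c) (tt k l hg ^ b))) :=
        fun a b => LinearMap.ext fun z => W.r_tt c hg l a b z
      refine ⟨n + n', ?_⟩
      rw [map_add, map_add]
      have e1 : LinearMap.lTensor K (W.r c (MulOpposite.op
          (algebraMap (RR k c.1) (A'.A c) (tt k l hg ^ (n + n')))))
          (LinearMap.lTensor K (LinearMap.ker (W.res h)).subtype y) = 0 := by
        rw [add_comm n n', hr, LinearMap.lTensor_comp, LinearMap.comp_apply, hn, map_zero]
      have e2 : LinearMap.lTensor K (W.r c (MulOpposite.op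
          (algebraMap (RR k c.1) (A'.A c) (tt k l hg ^ (n + n')))))
          (LinearMap.lTensor K (LinearMap.ker (W.res h)).subtype y') = 0 := by
        rw [hr, LinearMap.lTensor_comp, LinearMap.comp_apply, hn', map_zero]
      rw [e1, e2, add_zero]

end LPre

namespace LPre

variable {L : Type u} [Field L] [Algebra k L] (W : LPre L A') (K : Type u) [Ring K]
  [Algebra k K] [Algebra L K] [IsScalarTower k L K]

/-- The tensor product with an algebra `K` over `L`, as a sheaf with coefficients in `K`. -/
def pre : PreS K A' where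
  E := fun c => K ⊗[L] W.E c
  l := fun c => Algebra.lsmul k k (K ⊗[L] W.E c)
  r := fun c => AlgHom.ofLinearMap
    { toFun := fun b => ((W.ten K).r c b).restrictScalars k
      map_add' := fun b b' => LinearMap.ext fun x => (W.ten K).r_add c b b' x
      map_smul' := fun a b => LinearMap.ext fun x => (W.ten K).r_smul c a b x }
    (LinearMap.ext fun x => (W.ten K).r_one c x)
    (fun b b' => LinearMap.ext fun x => (W.ten K).r_mul c b b' x)
  comm := fun c t b x => by
    change t • LinearMap.lTensor K (W.r c b) x = LinearMap.lTensor K (W.r c b) (t • x)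
    induction x using TensorProduct.induction_on with
    | zero => rw [map_zero, smul_zero, map_zero]
    | tmul u v => rfl
    | add x y hx hy => rw [map_add, smul_add, smul_add, map_add, hx, hy]
  res := fun h => ((W.ten K).res h).restrictScalars k
  res_l := fun {c d} h t x => by
    change LinearMap.lTensor K (W.res h) (t • x) = t • LinearMap.lTensor K (W.res h) x
    induction x using TensorProduct.induction_on with
    | zero => rw [map_zero, smul_zero, map_zero, smul_zero]
    | tmul u v => rfl
    | add x y hx hy => rw [map_add, smul_add, smul_add, map_add, hx, hy]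
  res_r := fun h b x => (W.ten K).res_r h b x
  res_id := fun h x => (W.ten K).res_id h x
  res_res := fun h h' x => (W.ten K).res_res h h' x
  surj := fun {c d} h {g} hg l h2 y => (W.ten K).surj h hg l h2 y
  inj := fun {c d} h {g} hg l h2 x hx => (W.ten K).inj h hg l h2 x hx

end LPre

end Pool.Agent.MP_6e5bed_ag_GG
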