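import Pool.Agent.Lib.MP_6e5bed_ag_GG.GI

set_option autoImplicit false
set_option linter.unusedSectionVars false
set_option linter.unusedVariables false

/-!
# MP_6e5bed_ag, THEOREM G: the sheaf of columns, the bisheaves N1 and N2 (text, (8.1), (8.2))
-/

noncomputable section

namespace Pool.Agent.MP_6e5bed_ag_GG

open scoped TensorProduct

universe u

variable {k : Type u} [Field k] {i j : Type} [Fintype i] [Fintype j]

namespace XD

variable (X : XD k)

/-! ### The sheaf of columns -/

section cols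

variable {A' : CA k j} {L : Type u} [Field L] [Algebra k L] [Algebra L X.M]
  [IsScalarTower k L X.M] (W : LPre L A')

/-- endomorphisms of `U` act on the columns -/
def pen (U : Type u) [AddCommGroup U] [Module k U] :
    Module.End k U →ₐ[k] Module.End k (X.II → U) where
  toFun f := LinearMap.pi fun e => f ∘ₗ LinearMap.proj e
  map_one' := rfl
  map_mul' := fun _ _ => rfl
  map_zero' := rfl
  map_add' := fun _ _ => rfl
  commutes' := fun _ => rfl

/-- The sheaf of columns with entries in `M ⊗_L V`. -/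
def colP : PreS (Matrix X.II X.II X.M) A' where
  E := fun c => X.II → X.M ⊗[L] W.E c
  l := fun c => X.colA (X.M ⊗[L] W.E c)
  r := fun c => (X.pen (X.M ⊗[L] W.E c)).comp ((W.pre X.M).r c)
  comm := fun c f b x => funext fun e => by
    change ∑ e', f e e' • LinearMap.lTensor X.M (W.r c b) (x e') =
      LinearMap.lTensor X.M (W.r c b) (∑ e', f e e' • x e')
    rw [map_sum]
    exact Finset.sum_congr rfl fun e' _ => (W.pre X.M).comm c (f e e') b (x e')
  res := fun {c d} h => LinearMap.pi fun e => (W.pre X.M).res h ∘ₗ LinearMap.proj e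
  res_l := fun {c d} h f x => funext fun e => by
    change LinearMap.lTensor X.M (W.res h) (∑ e', f e e' • x e') =
      ∑ e', f e e' • LinearMap.lTensor X.M (W.res h) (x e')
    rw [map_sum]
    exact Finset.sum_congr rfl fun e' _ => (W.pre X.M).res_l h (f e e') (x e')
  res_r := fun h b x => funext fun e => (W.pre X.M).res_r h b (x e)
  res_id := fun h x => funext fun e => (W.pre X.M).res_id h (x e)
  res_res := fun h h' x => funext fun e => (W.pre X.M).res_res h h' (x e)
  surj := fun {c d} h {g} hg l h2 y => by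
    choose n z hz using fun e : X.II => (W.ten X.M).surj h hg l h2 (y e)
    refine ⟨∑ e, n e, fun e => (W.ten X.M).r c (MulOpposite.op
      (algebraMap (RR k c.1) (A'.A c) (tt k l hg ^ (∑ e, n e - n e)))) (z e), funext fun e => ?_⟩
    have h1 : ∑ e, n e = (∑ e, n e - n e) + n e :=
      (Nat.sub_add_cancel (Finset.single_le_sum (fun _ _ => Nat.zero_le _)
        (Finset.mem_univ e))).symm
    change (W.ten X.M).res h ((W.ten X.M).r c _ (z e)) = (W.ten X.M).r d _ (y e)
    rw [(W.ten X.M).res_r, hz, MulOpposite.unop_op, A'.res_R, map_pow]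
    conv_rhs => rw [h1, (W.ten X.M).r_tt]
    rfl
  inj := fun {c d} h {g} hg l h2 x hx => by
    choose n hn using fun e : X.II => (W.ten X.M).inj h hg l h2 (x e) (congrFun hx e)
    refine ⟨∑ e, n e, funext fun e => ?_⟩
    have h1 : ∑ e, n e = (∑ e, n e - n e) + n e :=
      (Nat.sub_add_cancel (Finset.single_le_sum (fun _ _ => Nat.zero_le _)
        (Finset.mem_univ e))).symm
    change (W.ten X.M).r c _ (x e) = 0
    rw [h1, (W.ten X.M).r_tt, hn, map_zero]

theorem colP_r (c : Ch j) (b : (A'.A c)ᵐᵒᵖ) (x : X.II → X.M ⊗[L] W.E c) (e : X.II) :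
    ((X.colP W).r c b x : X.II → X.M ⊗[L] W.E c) e = (W.pre X.M).r c b (x e) := rfl

theorem colP_l (c : Ch j) (f : Matrix X.II X.II X.M) (x : X.II → X.M ⊗[L] W.E c) (e : X.II) :
    ((X.colP W).l c f x : X.II → X.M ⊗[L] W.E c) e = ∑ e', f e e' • x e' := rfl

end cols

end XD

/-! ### The subsheaf `E0` of `M ⊗_L V` -/

/-- A coherent `A'`-subsheaf (over `k`) of the sheaf `W`. -/
structure E0D {A' : CA k j} {L : Type u} [Field L] [Algebra k L] (W : LPre L A') where
  E0 : ∀ c, Submodule k (W.E c)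
  rs : ∀ c b, ∀ v ∈ E0 c, W.r c b v ∈ E0 c
  mono : ∀ {c d : Ch j} (h : c ≤ d), ∀ v ∈ E0 c, W.res h v ∈ E0 d
  sat : ∀ {c d : Ch j} (h : c ≤ d) {g : j} (hg : g ∈ c.1) (l : j), d.1 ⊆ insert l c.1 →
    ∀ v, W.res h v ∈ E0 d → ∃ n : ℕ,
      W.r c (MulOpposite.op (algebraMap (RR k c.1) (A'.A c) (tt k l hg ^ n))) v ∈ E0 c
  fg : ∀ c, ∃ s : Finset (W.E c), (∀ w ∈ s, w ∈ E0 c) ∧
    ∀ v ∈ E0 c, v ∈ Submodule.span k {z | ∃ b, ∃ w ∈ s, z = W.r c b w}
  gen : ∀ c (v : W.E c), v ∈ Submodule.span L (E0 c : Set (W.E c))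

/-- the image `1 ⊗ E0` in `M ⊗_L V` -/
def E0D.im {A' : CA k j} {L : Type u} [Field L] [Algebra k L] {W : LPre L A'} (D : E0D W)
    (M : Type u) [Field M] [Algebra k M] [Algebra L M] [IsScalarTower k L M] (c : Ch j) :
    Submodule k (M ⊗[L] W.E c) :=
  (D.E0 c).map ((TensorProduct.mk L M (W.E c) 1).restrictScalars k)

end Pool.Agent.MP_6e5bed_ag_GG
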