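import Pool.Agent.Lib.MP_6e5bed_ag_GG.GF

set_option autoImplicit false
set_option linter.unusedSectionVars false
set_option linter.unusedVariables false

/-!
# MP_6e5bed_ag, THEOREM G: subsheaves of bisheaves which are constant along a cone
-/

noncomputable section

namespace Pool.Agent.MP_6e5bed_ag_GG

open scoped TensorProduct

universe u

variable {k : Type u} [Field k] {i j : Type} [Fintype i] [Fintype j] {A : CA k i} {A' : CA k j}
  {T : Type u} [Ring T] [Algebra k T]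

/-- Data of a subsheaf of `Zs κ P.sh`. -/
structure SubD (κ : Cone A T) (P : PreS T A') where
  N : ∀ (c : Ch i) (c' : Ch j), κ.D c → Submodule k (P.E c')
  hl : ∀ c c' (h : κ.D c) (a : A.A c), ∀ x ∈ N c c' h, P.l c' (κ.psi c h a) x ∈ N c c' h
  hr : ∀ c c' (h : κ.D c) (b : (A'.A c')ᵐᵒᵖ), ∀ x ∈ N c c' h, P.r c' b x ∈ N c c' h
  hm : ∀ {c d : Ch i} {c' d' : Ch j} (h : c ≤ d) (h' : c' ≤ d') (hd : κ.D d),
    ∀ x ∈ N c c' (κ.dn h hd), P.res h' x ∈ N d d' hd
  s1 : ∀ {c d : Ch i} (c' : Ch j) (h : c ≤ d) (hd : κ.D d) {g : i} (hg : g ∈ c.1) (l : i),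
    d.1 ⊆ insert l c.1 → ∀ x ∈ N d c' hd, ∃ n : ℕ,
      P.l c' (κ.psi c (κ.dn h hd) (algebraMap (RR k c.1) (A.A c) (tt k l hg) ^ n)) x ∈
        N c c' (κ.dn h hd)
  s2 : ∀ (c : Ch i) {c' d' : Ch j} (hc : κ.D c) (h : c' ≤ d') {g : j} (hg : g ∈ c'.1) (l : j),
    d'.1 ⊆ insert l c'.1 → ∀ x, P.res h x ∈ N c d' hc → ∃ n : ℕ,
      P.r c' (MulOpposite.op (algebraMap (RR k c'.1) (A'.A c') (tt k l hg ^ n))) x ∈ N c c' hc

namespace SubD

variable {κ : Cone A T} {P : PreS T A'} (D : SubD κ P)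

theorem act_mem {c : Ch i} {c' : Ch j} (h : κ.D c) (b : bsB A A' (c, c')) {x : P.E c'}
    (hx : x ∈ D.N c c' h) : P.act c' (κ.ph A' (c, c') h b) x ∈ D.N c c' h := by
  induction b using TensorProduct.induction_on with
  | zero =>
    rw [map_zero, map_zero, LinearMap.zero_apply]
    exact zero_mem _
  | tmul a b =>
    rw [Cone.ph_tmul, PreS.act_tmul]
    exact D.hl c c' h a _ (D.hr c c' h b x hx)
  | add b b' hb hb' =>
    rw [map_add, map_add, LinearMap.add_apply]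
    exact add_mem hb hb'

/-- The subsheaf. -/
def sub : Sub (Zs κ P.sh) where
  N := fun p =>
    { carrier := {f | ∀ h : PLift (κ.D p.1), ((f : ZE κ P.sh p) h : P.E p.2) ∈ D.N p.1 p.2 h.down}
      zero_mem' := fun h => (D.N p.1 p.2 h.down).zero_mem
      add_mem' := fun {f f'} hf hf' h => (D.N p.1 p.2 h.down).add_mem (hf h) (hf' h)
      smul_mem' := fun b f hf h => D.act_mem h.down b (hf h) }
  mono := fun {p q} h x hx hq => D.hm h.1 h.2 hq.down _ (hx ⟨κ.dn h.1 hq.down⟩)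
  sat := fun {p q t} h x hx => by
    obtain ⟨c, c'⟩ := p
    obtain ⟨d, d'⟩ := q
    obtain ⟨h0, h1⟩ := h
    rcases h1 with ⟨l, g, hg, h2, h3, rfl⟩ | ⟨l, g, hg, h2, h3, rfl⟩
    · have he : c' = d' := le_antisymm h0.2 h3
      subst he
      by_cases hd : κ.D d
      · have h4 : ((x : ZE κ P.sh (c, c')) ⟨κ.dn h0.1 hd⟩ : P.E c') ∈ D.N d c' hd := by
          have h5 := hx ⟨hd⟩
          have h6 : P.res h0.2 ((x : ZE κ P.sh (c, c')) ⟨κ.dn h0.1 hd⟩ : P.E c') ∈
            D.N d c' hd := h5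
          rwa [P.res_id] at h6
        obtain ⟨n, hn⟩ := D.s1 c' h0.1 hd hg l h2 _ h4
        refine ⟨n, fun hc => ?_⟩
        change P.act c' (κ.ph A' (c, c') hc.down (_ ^ n)) _ ∈ _
        rw [Algebra.TensorProduct.tmul_pow, one_pow, Cone.ph_tmul, PreS.act_tmul, map_one]
        exact hn
      · obtain ⟨n, hn⟩ : ∃ n : ℕ, n ≠ 0 := ⟨1, one_ne_zero⟩
        refine ⟨n, fun hc => ?_⟩
        change P.act c' (κ.ph A' (c, c') hc.down (_ ^ n)) _ ∈ _
        rw [Algebra.TensorProduct.tmul_pow, one_pow, Cone.ph_tmul, PreS.act_tmul, map_pow,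
          κ.zero h0.1 hc.down hd hg l h2, zero_pow hn, map_zero, LinearMap.zero_apply]
        exact zero_mem _
    · have he : c = d := le_antisymm h0.1 h3
      subst he
      by_cases hc : κ.D c
      · obtain ⟨n, hn⟩ := D.s2 c hc h0.2 hg l h2 _ (hx ⟨hc⟩)
        refine ⟨n, fun hc' => ?_⟩
        change P.act c' (κ.ph A' (c, c') hc'.down (_ ^ n)) _ ∈ _
        rw [Algebra.TensorProduct.tmul_pow, one_pow, Cone.ph_tmul, PreS.act_tmul, map_one,
          map_one]
        rw [map_pow] at hn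
        exact hn
      · exact ⟨0, fun hc' => absurd hc'.down hc⟩

theorem mem_sub {p : Ch i × Ch j} {f : (Zs κ P.sh).E p} : f ∈ D.sub.N p ↔
    ∀ h : PLift (κ.D p.1), ((f : ZE κ P.sh p) h : P.E p.2) ∈ D.N p.1 p.2 h.down := Iff.rfl

/-- Coherence. -/
theorem coh (hfg : ∀ (c : Ch i) (c' : Ch j) (h : κ.D c), ∃ G : Finset (P.E c'),
      (∀ w ∈ G, w ∈ D.N c c' h) ∧ ∀ x ∈ D.N c c' h, x ∈ Submodule.span k
        {z | ∃ (a : A.A c) (b : (A'.A c')ᵐᵒᵖ), ∃ w ∈ G,
          z = P.l c' (κ.psi c h a) (P.r c' b w)}) : D.sub.sh.Coh := by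
  classical
  rintro ⟨c, c'⟩
  by_cases h : κ.D c
  swap
  · have h1 : Subsingleton (D.sub.N (c, c')) := ⟨fun x y => Subtype.ext
      (ZE_ext κ P.sh fun hd => absurd hd h)⟩
    exact ⟨⟨∅, eq_top_iff.2 fun x _ => by
      have h2 : x = 0 := h1.elim x 0
      rw [h2]
      exact zero_mem _⟩⟩
  obtain ⟨G, hG, hG'⟩ := hfg c c' h
  -- the section with the value `w`
  let sec : ∀ w : P.E c', w ∈ D.N c c' h → D.sub.N (c, c') := fun w hw =>
    ⟨(fun _ => w : ZE κ P.sh (c, c')), fun _ => hw⟩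
  let G' : Set (D.sub.N (c, c')) := Set.range fun w : {w // w ∈ G} => sec w.1 (hG w.1 w.2)
  have hfin : Submodule.span ((bs A A').B (c, c')) G' = ⊤ → Module.Finite ((bs A A').B (c, c'))
      (D.sub.N (c, c')) := fun h3 =>
    ⟨⟨(Set.finite_range fun w : {w // w ∈ G} => sec w.1 (hG w.1 w.2)).toFinset,
      (congrArg _ (Set.Finite.coe_toFinset _)).trans h3⟩⟩
  refine hfin (eq_top_iff.2 ?_)
  rintro ⟨f, hf⟩ -
  have key : ∀ x ∈ Submodule.span k {z | ∃ (a : A.A c) (b : (A'.A c')ᵐᵒᵖ), ∃ w ∈ G,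
      z = P.l c' (κ.psi c h a) (P.r c' b w)}, ∀ hx : x ∈ D.N c c' h,
      sec x hx ∈ Submodule.span ((bs A A').B (c, c')) G' := by
    intro x hx
    induction hx using Submodule.span_induction with
    | mem z hz =>
      obtain ⟨a, b, w, hw, rfl⟩ := hz
      intro hx
      have h1 : sec (P.l c' (κ.psi c h a) (P.r c' b w)) hx =
          (show (bs A A').B (c, c') from (a ⊗ₜ[k] b : bsB A A' (c, c'))) •
            sec w (hG w hw) := by
        refine Subtype.ext (ZE_ext κ P.sh fun hd => ?_)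
        change P.l c' (κ.psi c h a) (P.r c' b w) = P.act c' (κ.ph A' (c, c') hd (a ⊗ₜ[k] b)) w
        rw [Cone.ph_tmul, PreS.act_tmul]
      rw [h1]
      exact Submodule.smul_mem _ _ (Submodule.subset_span ⟨⟨w, hw⟩, rfl⟩)
    | zero =>
      intro hx
      have h1 : sec 0 hx = 0 := rfl
      rw [h1]
      exact zero_mem _
    | add x y hx' hy' hx hy =>
      intro hxy
      have hle : Submodule.span k {z | ∃ (a : A.A c) (b : (A'.A c')ᵐᵒᵖ), ∃ w ∈ G,
          z = P.l c' (κ.psi c h a) (P.r c' b w)} ≤ D.N c c' h := by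
        refine Submodule.span_le.2 ?_
        rintro _ ⟨a, b, w, hw, rfl⟩
        exact D.hl c c' h a _ (D.hr c c' h b w (hG w hw))
      have h1 : sec (x + y) hxy = sec x (hle hx') + sec y (hle hy') := rfl
      rw [h1]
      exact add_mem (hx _) (hy _)
    | smul r x hx' hx =>
      intro hxy
      have hle : Submodule.span k {z | ∃ (a : A.A c) (b : (A'.A c')ᵐᵒᵖ), ∃ w ∈ G,
          z = P.l c' (κ.psi c h a) (P.r c' b w)} ≤ D.N c c' h := by
        refine Submodule.span_le.2 ?_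
        rintro _ ⟨a, b, w, hw, rfl⟩
        exact D.hl c c' h a _ (D.hr c c' h b w (hG w hw))
      have h1 : sec (r • x) hxy =
          algebraMap k ((bs A A').B (c, c')) r • sec x (hle hx') := by
        refine Subtype.ext ?_
        refine Eq.trans ?_ (algebraMap_smul ((bs A A').B (c, c')) r
          ((sec x (hle hx')).1 : (Zs κ P.sh).E (c, c'))).symm
        rfl
      rw [h1]
      exact Submodule.smul_mem _ _ (hx _)
  exact key ((f : ZE κ P.sh (c, c')) ⟨h⟩) (hG' _ (hf ⟨h⟩)) (hf ⟨h⟩)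

end SubD

end Pool.Agent.MP_6e5bed_ag_GG
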