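import Pool.Agent.Lib.MP_6e5bed_ag_GG.GI
import Pool.Agent.Lib.MP_6e5bed_ag_GG.GK

set_option autoImplicit false
set_option linter.unusedSectionVars false
set_option linter.unusedVariables false

/-!
# MP_6e5bed_ag, THEOREM G: the bisheaf N1 (text, (8.1))
-/

noncomputable section

namespace Pool.Agent.MP_6e5bed_ag_GG

open scoped TensorProduct

universe u

variable {k : Type u} [Field k] {i j : Type} [Fintype i] [Fintype j]

namespace XD

variable (X : XD k)

/-- an algebra which contains the function field in its centre, as a vector space -/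
def KB {K : Type u} [Ring K] [Algebra k K] (β : X.M →ₐ[k] K) : Type u := K

end XD

/-! The instances on `KB` are local: `KB β` is a synonym of an arbitrary ring. -/

section KB

variable {X : XD k} {K : Type u} [Ring K] [Algebra k K] (β : X.M →ₐ[k] K)

/-- the additive group -/
@[reducible] def XD.kbG : AddCommGroup (X.KB β) := inferInstanceAs (AddCommGroup K)

attribute [local instance] XD.kbG

/-- the vector space over `k` -/
@[reducible] def XD.kbk : Module k (X.KB β) := inferInstanceAs (Module k K)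

/-- the vector space over the function field -/
@[reducible] def XD.kbM : Module X.M (X.KB β) := Module.compHom K β.toRingHom

attribute [local instance] XD.kbk XD.kbM

/-- the identity -/
def XD.kb : K ≃ₗ[k] X.KB β := LinearEquiv.refl k K

theorem XD.smul_kb (u : X.M) (x : K) : u • kb β x = kb β (β u * x) := rfl

theorem XD.kbT : IsScalarTower k X.M (X.KB β) :=
  ⟨fun c u x => by
    obtain ⟨x, rfl⟩ := (XD.kb β).surjective x
    rw [XD.smul_kb, XD.smul_kb, map_smul, smul_mul_assoc, map_smul]⟩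

end KB

attribute [local instance] XD.kbG XD.kbk XD.kbM XD.kbT

namespace XD

section N1

variable {X : XD k} {A : CA k i} {T : Type u} [Ring T] [Algebra k T] (κ : Cone A T) {K : Type u}
  [Ring K] [Algebra k K] (β : X.M →ₐ[k] K) (α : T →ₐ[k] K)

/-- the image of `A_c` in `K` -/
def N1i (c : Ch i) (h : κ.D c) : Submodule k (X.KB β) :=
  (LinearMap.range (α.comp (κ.psi c h)).toLinearMap).map (kb β).toLinearMap

variable {κ β α}

theorem N1i_mem {c : Ch i} {h : κ.D c} {x : X.KB β} :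
    x ∈ N1i κ β α c h ↔ ∃ y, kb β (α (κ.psi c h y)) = x := by
  constructor
  · rintro ⟨_, ⟨y, rfl⟩, rfl⟩
    exact ⟨y, rfl⟩
  · rintro ⟨y, rfl⟩
    exact ⟨_, ⟨y, rfl⟩, rfl⟩

theorem N1i_le {c d : Ch i} (h : c ≤ d) (hd : κ.D d) :
    N1i κ β α c (κ.dn h hd) ≤ N1i κ β α d hd := by
  intro x hx
  obtain ⟨y, rfl⟩ := N1i_mem.1 hx
  exact N1i_mem.2 ⟨A.res h y, congrArg (fun z => kb β (α z)) (κ.nat h hd y)⟩

/-- left multiplication -/
def KBl (β : X.M →ₐ[k] K) (t : K) : X.KB β →ₗ[k] X.KB β :=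
  (kb β).toLinearMap ∘ₗ LinearMap.mulLeft k t ∘ₗ (kb β).symm.toLinearMap

theorem KBl_kb (t : K) (x : K) : KBl β t (kb β x) = kb β (t * x) := rfl

theorem KBl_smul (hβ : ∀ u x, β u * x = x * β u) (t : K) (u : X.M) (x : X.KB β) :
    KBl β t (u • x) = u • KBl β t x := by
  obtain ⟨x, rfl⟩ := (kb β).surjective x
  rw [smul_kb, KBl_kb, KBl_kb, smul_kb, ← mul_assoc, ← hβ, mul_assoc]

theorem N1_l (hβ : ∀ u x, β u * x = x * β u) {c : Ch i} (h : κ.D c) (y : A.A c) {b : X.D → ℤ}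
    {a : Set X.i} {x : K} (hx : kb β x ∈ X.Gs (N1i κ β α c h) b a) :
    kb β (α (κ.psi c h y) * x) ∈ X.Gs (N1i κ β α c h) b a := by
  rw [← KBl_kb]
  refine Gs_map (KBl β (α (κ.psi c h y))) (KBl_smul hβ _) ?_ hx
  intro v hv
  obtain ⟨z, rfl⟩ := N1i_mem.1 hv
  refine N1i_mem.2 ⟨y * z, ?_⟩
  rw [map_mul, map_mul, KBl_kb]

/-- localisation in the first variable -/
theorem N1_s1 (hβ : ∀ u x, β u * x = x * β u) {c d : Ch i} (h : c ≤ d) (hd : κ.D d) {g : i}
    (hg : g ∈ c.1) (l : i) (h2 : d.1 ⊆ insert l c.1) {b : X.D → ℤ} {a : Set X.i} {x : X.KB β}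
    (hx : x ∈ X.Gs (N1i κ β α d hd) b a) : ∃ n : ℕ, ∀ n', n ≤ n' →
      KBl β (α (κ.psi c (κ.dn h hd) (algebraMap (RR k c.1) (A.A c) (tt k l hg ^ n')))) x ∈
        X.Gs (N1i κ β α c (κ.dn h hd)) b a := by
  have hpow : ∀ n n' (z : X.KB β), n ≤ n' →
      KBl β (α (κ.psi c (κ.dn h hd) (algebraMap (RR k c.1) (A.A c) (tt k l hg ^ n)))) z ∈
        X.Gs (N1i κ β α c (κ.dn h hd)) b a →
      KBl β (α (κ.psi c (κ.dn h hd) (algebraMap (RR k c.1) (A.A c) (tt k l hg ^ n')))) z ∈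
        X.Gs (N1i κ β α c (κ.dn h hd)) b a := by
    intro n n' z hn hz
    obtain ⟨m, rfl⟩ := Nat.exists_eq_add_of_le' hn
    obtain ⟨z, rfl⟩ := (kb β).surjective z
    rw [KBl_kb] at hz ⊢
    have h1 := N1_l hβ (κ.dn h hd) (algebraMap (RR k c.1) (A.A c) (tt k l hg ^ m)) hz
    rw [← mul_assoc, ← map_mul, ← map_mul, ← map_mul, ← pow_add] at h1
    exact h1
  unfold Gs at hx
  induction hx using Submodule.span_induction with
  | mem z hz =>
    obtain ⟨u, hu, v, hv, rfl⟩ := hz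
    obtain ⟨y, rfl⟩ := N1i_mem.1 hv
    obtain ⟨n, y', hy'⟩ := A.surj h hg l h2 y
    refine ⟨n, fun n' hn => hpow n n' _ hn ?_⟩
    rw [KBl_smul hβ, KBl_kb]
    refine Gs_mem hu (N1i_mem.2 ⟨y', ?_⟩)
    congr 1
    rw [← κ.nat h hd, hy', ← map_mul, ← κ.nat h hd, ← map_mul, A.res_R]
    congr 2
    rw [map_pow, Algebra.smul_def]
    rfl
  | zero =>
    refine ⟨0, fun n' _ => ?_⟩
    rw [map_zero]
    exact zero_mem _
  | add y z _ _ hy hz =>
    obtain ⟨n, hn⟩ := hy
    obtain ⟨n', hn'⟩ := hz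
    refine ⟨max n n', fun m hm => ?_⟩
    rw [map_add]
    exact add_mem (hn m ((le_max_left _ _).trans hm)) (hn' m ((le_max_right _ _).trans hm))
  | smul r y _ hy =>
    obtain ⟨n, hn⟩ := hy
    refine ⟨n, fun m hm => ?_⟩
    rw [map_smul]
    exact Submodule.smul_mem _ r (hn m hm)

/-- the rows with entries in the given subspaces -/
def N1N (κ : Cone A T) (β : X.M →ₐ[k] K) (α : T →ₐ[k] K) (c : Ch i) (a : Set X.i) (h : κ.D c) :
    Submodule k (X.II → K) where
  carrier := {x | ∀ e, kb β (x e) ∈ X.Gs (N1i κ β α c h) (-X.tw e) a}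
  zero_mem' := fun e => zero_mem _
  add_mem' := fun {x y} hx hy e => add_mem (hx e) (hy e)
  smul_mem' := fun r x hx e => Submodule.smul_mem _ r (hx e)

theorem mem_N1N {c : Ch i} {a : Set X.i} {h : κ.D c} {x : X.II → K} :
    x ∈ N1N κ β α c a h ↔ ∀ e, kb β (x e) ∈ X.Gs (N1i κ β α c h) (-X.tw e) a := Iff.rfl

theorem N1N_r (hβ : ∀ u x, β u * x = x * β u) {c : Ch i} {a : Set X.i} {h : κ.D c} {x : X.II → K}
    (f : X.AXs a) (hx : x ∈ N1N κ β α c a h) :
    X.rowr K β (f : Matrix X.II X.II X.M) x ∈ N1N κ β α c a h := fun e' => by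
  rw [rowr_apply, map_sum]
  refine Submodule.sum_mem (X.Gs (N1i κ β α c h) (-X.tw e') a) fun e _ => ?_
  have h2 := Gs_smul (f.2 e e') (hx e)
  have h3 : X.tw e - X.tw e' + -X.tw e = -X.tw e' := by abel
  rw [h3, smul_kb, hβ] at h2
  exact h2

theorem N1N_s1 (hβ : ∀ u x, β u * x = x * β u) {c d : Ch i} (h : c ≤ d) (hd : κ.D d) {g : i}
    (hg : g ∈ c.1) (l : i) (h2 : d.1 ⊆ insert l c.1) {a : Set X.i} {x : X.II → K}
    (hx : x ∈ N1N κ β α d a hd) : ∃ n : ℕ,
      (fun e => α (κ.psi c (κ.dn h hd) (algebraMap (RR k c.1) (A.A c) (tt k l hg) ^ n)) * x e) ∈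
        N1N κ β α c a (κ.dn h hd) := by
  choose n hn using fun e => N1_s1 hβ h hd hg l h2 (hx e)
  refine ⟨∑ e, n e, fun e => ?_⟩
  rw [← map_pow (algebraMap (RR k c.1) (A.A c))]
  exact hn e _ (Finset.single_le_sum (fun _ _ => Nat.zero_le _) (Finset.mem_univ e))

theorem N1N_s2 (hβ : ∀ u x, β u * x = x * β u) {c : Ch i} (hc : κ.D c) {a a' : Set X.i}
    (h : a ⊆ a') {g : X.i} (hg : g ∈ a) (l : X.i) (h2 : a' ⊆ insert l a) {x : X.II → K}
    (hx : x ∈ N1N κ β α c a' hc) : ∃ n : ℕ,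
      X.rowr K β (Matrix.scalar X.II (evy X.y ((tt k l hg ^ n : RR k a) : Lau k X.i))) x ∈
        N1N κ β α c a hc := by
  choose n hn using fun e => Gs_loc h h2 hg (hx e)
  have hpow : ∀ e m, n e ≤ m → ((X.y l / X.y g : X.Mˣ) : X.M) ^ m • kb β (x e) ∈
      X.Gs (N1i κ β α c hc) (-X.tw e) a := by
    intro e m hm
    obtain ⟨n', rfl⟩ := Nat.exists_eq_add_of_le' hm
    rw [pow_add, mul_smul]
    have h1 := Gs_smul (pow_mem0 (t_mem l hg) n') (hn e)
    rwa [zero_add] at h1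
  refine ⟨∑ e, n e, fun e => ?_⟩
  rw [rowr_scalar, ← hβ, ← smul_kb, SubmonoidClass.coe_pow, map_pow, evy_tt]
  exact hpow e _ (Finset.single_le_sum (fun _ _ => Nat.zero_le _) (Finset.mem_univ e))

/-- The subsheaf `N1`. -/
def N1 (κ : Cone A T) (β : X.M →ₐ[k] K) (α : T →ₐ[k] K) (hβ : ∀ u x, β u * x = x * β u) :
    SubD κ (X.rowP K β α) where
  N := fun c a h => N1N κ β α c a.1 h
  hl := fun c a h y x hx e => N1_l hβ h y (hx e)
  hr := fun c a h f x hx => N1N_r hβ (MulOpposite.unop f : X.AXs a.1) hx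
  hm := fun {c d a a'} h h' hd x hx e => Gs_mono h' (N1i_le h hd) (hx e)
  s1 := fun {c d} a h hd {g} hg l h2 x hx => N1N_s1 hβ h hd hg l h2 hx
  s2 := fun c {a a'} hc h {g} hg l h2 x hx => N1N_s2 hβ hc h hg l h2 hx

theorem N1_N {hβ : ∀ u x, β u * x = x * β u} {c : Ch i} {a : Ch X.i} {h : κ.D c} :
    (N1 κ β α hβ).N c a h = N1N κ β α c a.1 h := rfl

/-- finite generation -/
theorem N1N_fg (hβ : ∀ u x, β u * x = x * β u) {c : Ch i} {a : Set X.i} (ha : a.Nonempty)
    {h : κ.D c} : ∃ G : Finset (X.II → K), (∀ w ∈ G, w ∈ N1N κ β α c a h) ∧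
      ∀ x ∈ N1N κ β α c a h, x ∈ Submodule.span k {z | ∃ (y : A.A c) (r : RR k a), ∃ w ∈ G,
        z = fun e => α (κ.psi c h y) * (w e * β (evy X.y (r : Lau k X.i)))} := by
  classical
  choose s hs hs' using fun e : X.II => X.fg (-X.tw e) ha
  refine ⟨Finset.univ.biUnion fun e => (s e).image fun w => (Pi.single e (β w) : X.II → K),
    ?_, ?_⟩
  · intro w hw
    rw [Finset.mem_biUnion] at hw
    obtain ⟨e, -, hw⟩ := hw
    rw [Finset.mem_image] at hw
    obtain ⟨w, hw, rfl⟩ := hw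
    refine mem_N1N.2 fun e' => ?_
    by_cases he : e' = e
    · subst he
      rw [Pi.single_eq_same]
      have h1 : kb β (β w) = w • kb β 1 := by
        rw [smul_kb, mul_one]
      rw [h1]
      refine Gs_mem (hs _ w hw) (N1i_mem.2 ⟨1, ?_⟩)
      rw [map_one, map_one]
    · rw [Pi.single_eq_of_ne he, map_zero]
      exact zero_mem _
  · intro x hx
    set E : Submodule k (X.II → K) := Submodule.span k {z | ∃ (y : A.A c) (r : RR k a),
      ∃ w ∈ Finset.univ.biUnion fun e => (s e).image fun w => (Pi.single e (β w) : X.II → K),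
        z = fun e => α (κ.psi c h y) * (w e * β (evy X.y (r : Lau k X.i)))} with hE
    rw [← Finset.univ_sum_single x]
    refine Submodule.sum_mem _ fun e _ => ?_
    have h1 : X.Gs (N1i κ β α c h) (-X.tw e) a ≤ (E.comap
        (LinearMap.single k (fun _ : X.II => K) e)).map (kb β).toLinearMap := by
      refine Gs_le ?_
      intro u hu v hv
      obtain ⟨y, rfl⟩ := N1i_mem.1 hv
      rw [smul_kb]
      refine Submodule.mem_map_of_mem (Submodule.mem_comap.2 ?_)
      have h2 := hs' e u hu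
      clear hu hx
      induction h2 using Submodule.span_induction with
      | mem z hz =>
        obtain ⟨r, hr, w, hw, rfl⟩ := hz
        refine Submodule.subset_span ⟨y, ⟨r, hr⟩, Pi.single e (β w), Finset.mem_biUnion.2
          ⟨e, Finset.mem_univ _, Finset.mem_image_of_mem _ hw⟩, funext fun e' => ?_⟩
        rw [LinearMap.single_apply]
        by_cases he : e' = e
        · subst he
          rw [Pi.single_eq_same, Pi.single_eq_same, hβ, mul_comm (evy X.y r) w, map_mul]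
        · rw [Pi.single_eq_of_ne he, Pi.single_eq_of_ne he, zero_mul, mul_zero]
      | zero =>
        rw [map_zero, zero_mul, map_zero]
        exact zero_mem _
      | add v w _ _ hv hw =>
        rw [map_add, add_mul, map_add]
        exact add_mem hv hw
      | smul r v _ hv =>
        rw [map_smul, smul_mul_assoc, map_smul]
        exact Submodule.smul_mem _ _ hv
    obtain ⟨z, hz, hz'⟩ := h1 (hx e)
    have h3 : z = x e := (kb β).injective hz'
    rw [← h3]
    exact hz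

/-- coherence -/
theorem N1_coh (hβ : ∀ u x, β u * x = x * β u) : (N1 κ β α hβ).sub.sh.Coh := by
  refine SubD.coh _ fun c a h => ?_
  obtain ⟨G, h1, h2⟩ := N1N_fg (κ := κ) (α := α) hβ (c := c) (a := a.1) a.2.1 (h := h)
  refine ⟨G, h1, fun x hx => ?_⟩
  refine Submodule.span_mono ?_ (h2 x hx)
  rintro _ ⟨y, r, w, hw, rfl⟩
  refine ⟨y, MulOpposite.op (X.RAX a.1 r), w, hw, ?_⟩
  rw [rowP_l, rowP_r]
  refine funext fun e => ?_
  change _ = α (κ.psi c h y) * X.rowr K β (Matrix.scalar X.II (evy X.y (r : Lau k X.i))) w e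
  rw [rowr_scalar]

end N1

end XD

end Pool.Agent.MP_6e5bed_ag_GG
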