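import Pool.Agent.Lib.MP_6e5bed_ag_GG.GJ
import Pool.Agent.Lib.MP_6e5bed_ag_GG.GK

set_option autoImplicit false
set_option linter.unusedSectionVars false
set_option linter.unusedVariables false

/-!
# MP_6e5bed_ag, THEOREM G: the bisheaf N2 (text, (8.2))
-/

noncomputable section

namespace Pool.Agent.MP_6e5bed_ag_GG

open scoped TensorProduct

universe u

variable {k : Type u} [Field k] {i j : Type} [Fintype i] [Fintype j]

namespace XD

variable {X : XD k} {A' : CA k j} {L : Type u} [Field L] [Algebra k L] [Algebra L X.M]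
  [IsScalarTower k L X.M]

section ops

variable (W : LPre L A')

/-- the right action on `M ⊗_L V`, linear over `M` -/
def tr (c : Ch j) (b : (A'.A c)ᵐᵒᵖ) : X.M ⊗[L] W.E c →ₗ[X.M] X.M ⊗[L] W.E c :=
  (W.r c b).baseChange X.M

/-- the action of a function -/
def trt (c : Ch j) (l : j) {g : j} (hg : g ∈ c.1) (n : ℕ) :
    X.M ⊗[L] W.E c →ₗ[X.M] X.M ⊗[L] W.E c :=
  tr W c (MulOpposite.op (algebraMap (RR k c.1) (A'.A c) (tt k l hg ^ n)))

/-- the restriction maps of `M ⊗_L V` -/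
def tres {c d : Ch j} (h : c ≤ d) : X.M ⊗[L] W.E c →ₗ[X.M] X.M ⊗[L] W.E d :=
  (W.res h).baseChange X.M

variable {W}

theorem tr_tmul (c : Ch j) (b : (A'.A c)ᵐᵒᵖ) (u : X.M) (v : W.E c) :
    tr W c b (u ⊗ₜ[L] v) = u ⊗ₜ[L] W.r c b v := rfl

theorem trt_tmul (c : Ch j) (l : j) {g : j} (hg : g ∈ c.1) (n : ℕ) (u : X.M) (v : W.E c) :
    trt W c l hg n (u ⊗ₜ[L] v) = u ⊗ₜ[L]
      W.r c (MulOpposite.op (algebraMap (RR k c.1) (A'.A c) (tt k l hg ^ n))) v := rfl

theorem tres_tmul {c d : Ch j} (h : c ≤ d) (u : X.M) (v : W.E c) :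
    tres W h (u ⊗ₜ[L] v) = u ⊗ₜ[L] W.res h v := rfl

theorem colP_trt (c : Ch j) (l : j) {g : j} (hg : g ∈ c.1) (n : ℕ)
    (x : X.II → X.M ⊗[L] W.E c) (e : X.II) :
    ((X.colP W).r c (MulOpposite.op (algebraMap (RR k c.1) (A'.A c) (tt k l hg ^ n))) x :
      X.II → X.M ⊗[L] W.E c) e = trt W c l hg n (x e) := rfl

theorem trt_trt (c : Ch j) (l : j) {g : j} (hg : g ∈ c.1) (n n' : ℕ) (x : X.M ⊗[L] W.E c) :
    trt W c l hg (n + n') x = trt W c l hg n (trt W c l hg n' x) :=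
  (W.ten X.M).r_tt c hg l n n' x

theorem res_tt {c d : Ch j} (h : c ≤ d) (l : j) {g : j} (hg : g ∈ c.1) (n : ℕ) (v : W.E c) :
    W.res h (W.r c (MulOpposite.op (algebraMap (RR k c.1) (A'.A c) (tt k l hg ^ n))) v) =
      W.r d (MulOpposite.op (algebraMap (RR k d.1) (A'.A d) (tt k l (h hg) ^ n)))
        (W.res h v) := by
  rw [W.res_r, MulOpposite.unop_op, A'.res_R, map_pow]
  rfl

theorem tres_trt {c d : Ch j} (h : c ≤ d) (l : j) {g : j} (hg : g ∈ c.1) (n : ℕ)
    (x : X.M ⊗[L] W.E c) : tres W h (trt W c l hg n x) = trt W d l (h hg) n (tres W h x) := by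
  induction x using TensorProduct.induction_on with
  | zero => simp only [map_zero]
  | tmul u v =>
    rw [trt_tmul, tres_tmul, tres_tmul, trt_tmul, res_tt]
  | add x y hx hy => rw [map_add, map_add, map_add, map_add, hx, hy]

theorem tr_inj {c d : Ch j} (h : c ≤ d) {g : j} (hg : g ∈ c.1) (l : j)
    (h2 : d.1 ⊆ insert l c.1) (x : X.M ⊗[L] W.E c) (hx : tres W h x = 0) :
    ∃ n : ℕ, trt W c l hg n x = 0 :=
  (W.ten X.M).inj h hg l h2 x hx

end ops

variable {W : LPre L A'} (D : E0D W)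

theorem im_mem {c : Ch j} {v : W.E c} (hv : v ∈ D.E0 c) :
    ((1 : X.M) ⊗ₜ[L] v : X.M ⊗[L] W.E c) ∈ D.im X.M c := ⟨v, hv, rfl⟩

theorem smul_im (u : X.M) {c : Ch j} (v : W.E c) :
    u • ((1 : X.M) ⊗ₜ[L] v : X.M ⊗[L] W.E c) = u ⊗ₜ[L] v := by
  rw [TensorProduct.smul_tmul', smul_eq_mul, mul_one]

/-- the right action respects the subspaces -/
theorem N2_r {c : Ch j} (b : (A'.A c)ᵐᵒᵖ) {t : X.D → ℤ} {a : Set X.i} {x : X.M ⊗[L] W.E c}
    (hx : x ∈ X.Gs (D.im X.M c) t a) : tr W c b x ∈ X.Gs (D.im X.M c) t a := by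
  refine Gs_map ((tr W c b).restrictScalars k) (fun u x => map_smul (tr W c b) u x) ?_ hx
  rintro _ ⟨v, hv, rfl⟩
  exact ⟨_, D.rs c b v hv, rfl⟩

theorem N2_res {c d : Ch j} (h : c ≤ d) {t : X.D → ℤ} {a : Set X.i} {x : X.M ⊗[L] W.E c}
    (hx : x ∈ X.Gs (D.im X.M c) t a) : tres W h x ∈ X.Gs (D.im X.M d) t a := by
  refine Gs_map ((tres W h).restrictScalars k) (fun u x => map_smul (tres W h) u x) ?_ hx
  rintro _ ⟨v, hv, rfl⟩
  exact ⟨_, D.mono h v hv, rfl⟩

theorem N2_up {c : Ch j} {l g : j} {hg : g ∈ c.1} {t : X.D → ℤ} {a : Set X.i} {n : ℕ}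
    {z : X.M ⊗[L] W.E c} (hz : trt W c l hg n z ∈ X.Gs (D.im X.M c) t a) {n' : ℕ}
    (hn : n ≤ n') : trt W c l hg n' z ∈ X.Gs (D.im X.M c) t a := by
  obtain ⟨m, rfl⟩ := Nat.exists_eq_add_of_le' hn
  rw [trt_trt]
  exact N2_r D _ hz

/-- localisation in the second variable -/
theorem N2_s2 {c d : Ch j} (h : c ≤ d) {g : j} (hg : g ∈ c.1) (l : j)
    (h2 : d.1 ⊆ insert l c.1) {t : X.D → ℤ} {a : Set X.i} {x : X.M ⊗[L] W.E c}
    (hx : tres W h x ∈ X.Gs (D.im X.M d) t a) : ∃ n : ℕ, ∀ n', n ≤ n' →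
      trt W c l hg n' x ∈ X.Gs (D.im X.M c) t a := by
  -- the elements of the space on `d` come from `c`
  have h3 : ∀ y ∈ X.Gs (D.im X.M d) t a, ∃ n : ℕ, ∃ z ∈ X.Gs (D.im X.M c) t a,
      tres W h z = trt W d l (h hg) n y := by
    intro y hy
    unfold Gs at hy
    induction hy using Submodule.span_induction with
    | mem z hz =>
      obtain ⟨u, hu, _, ⟨v, hv, rfl⟩, rfl⟩ := hz
      obtain ⟨n, y, hy⟩ := W.surj h hg l h2 v
      have h4 : W.res h y ∈ D.E0 d := by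
        rw [hy]
        exact D.rs d _ v hv
      obtain ⟨n', hn'⟩ := D.sat h hg l h2 y h4
      refine ⟨n' + n, u ⊗ₜ[L] W.r c (MulOpposite.op (algebraMap (RR k c.1) (A'.A c)
        (tt k l hg ^ n'))) y, ?_, ?_⟩
      · rw [← smul_im]
        exact Gs_mem hu (im_mem D hn')
      · change tres W h (u ⊗ₜ[L] _) = trt W d l (h hg) (n' + n) (u • ((1 : X.M) ⊗ₜ[L] v))
        rw [smul_im, tres_tmul, trt_tmul, res_tt, hy, W.r_tt]
    | zero =>
      refine ⟨0, 0, zero_mem _, ?_⟩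
      rw [map_zero, map_zero]
    | add y z _ _ hy hz =>
      obtain ⟨n, y', hy', hy2⟩ := hy
      obtain ⟨n', z', hz', hz2⟩ := hz
      refine ⟨n' + n, trt W c l hg n' y' + trt W c l hg n z',
        add_mem (N2_r D _ hy') (N2_r D _ hz'), ?_⟩
      rw [map_add, tres_trt, tres_trt, hy2, hz2, ← trt_trt, ← trt_trt, add_comm n n', map_add]
    | smul r y _ hy =>
      obtain ⟨n, y', hy', hy2⟩ := hy
      refine ⟨n, r • y', Submodule.smul_mem _ _ hy', ?_⟩
      have h5 : tres W h (r • y') = r • tres W h y' :=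
        ((tres W h).restrictScalars k).map_smul r y'
      rw [h5, hy2]
      exact (((trt W d l (h hg) n).restrictScalars k).map_smul r y).symm
  obtain ⟨n, z, hz, hz2⟩ := h3 _ hx
  have h4 : tres W h (trt W c l hg n x - z) = 0 := by
    rw [map_sub, hz2, tres_trt, sub_self]
  obtain ⟨n', hn'⟩ := tr_inj h hg l h2 _ h4
  refine ⟨n' + n, fun m hm => N2_up D ?_ hm⟩
  rw [map_sub, ← trt_trt, sub_eq_zero] at hn'
  rw [hn']
  exact N2_r D _ hz

/-- the columns with entries in the given subspaces -/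
def N2N (a : Set X.i) (c : Ch j) : Submodule k (X.II → X.M ⊗[L] W.E c) where
  carrier := {x | ∀ e, x e ∈ X.Gs (D.im X.M c) (X.tw e) a}
  zero_mem' := fun e => zero_mem _
  add_mem' := fun {x y} hx hy e => add_mem (hx e) (hy e)
  smul_mem' := fun r x hx e => Submodule.smul_mem _ r (hx e)

theorem mem_N2N {a : Set X.i} {c : Ch j} {x : X.II → X.M ⊗[L] W.E c} :
    x ∈ N2N D a c ↔ ∀ e, x e ∈ X.Gs (D.im X.M c) (X.tw e) a := Iff.rfl

theorem N2N_l {a : Set X.i} {c : Ch j} (f : X.AXs a) {x : X.II → X.M ⊗[L] W.E c}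
    (hx : x ∈ N2N D a c) : X.colA _ (f : Matrix X.II X.II X.M) x ∈ N2N D a c := fun e => by
  rw [colA_apply]
  refine Submodule.sum_mem _ fun e' _ => ?_
  have h2 := Gs_smul (f.2 e e') (hx e')
  rwa [sub_add_cancel] at h2

/-- a scalar matrix acts on the columns as the scalar -/
theorem colA_scalar (U : Type u) [AddCommGroup U] [Module k U] [Module X.M U]
    [IsScalarTower k X.M U] (u : X.M) (x : X.II → U) (e : X.II) :
    X.colA U (Matrix.scalar X.II u) x e = u • x e := by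
  rw [colA_apply, Finset.sum_eq_single e]
  · rw [Matrix.scalar_apply, Matrix.diagonal_apply_eq]
  · intro e' _ he
    rw [Matrix.scalar_apply, Matrix.diagonal_apply_ne _ he.symm, zero_smul]
  · intro h
    exact absurd (Finset.mem_univ _) h

theorem N2N_s1 {a a' : Set X.i} (h : a ⊆ a') {g : X.i} (hg : g ∈ a) (l : X.i)
    (h2 : a' ⊆ insert l a) {c : Ch j} {x : X.II → X.M ⊗[L] W.E c} (hx : x ∈ N2N D a' c) :
    ∃ n : ℕ, X.colA _ ((X.RAX a (tt k l hg) ^ n : X.AXs a) : Matrix X.II X.II X.M) x ∈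
      N2N D a c := by
  choose n hn using fun e => Gs_loc h h2 hg (hx e)
  have hpow : ∀ e m, n e ≤ m → ((X.y l / X.y g : X.Mˣ) : X.M) ^ m • x e ∈
      X.Gs (D.im X.M c) (X.tw e) a := by
    intro e m hm
    obtain ⟨n', rfl⟩ := Nat.exists_eq_add_of_le' hm
    rw [pow_add, mul_smul]
    have h1 := Gs_smul (pow_mem0 (t_mem l hg) n') (hn e)
    rwa [zero_add] at h1
  refine ⟨∑ e, n e, fun e => ?_⟩
  rw [SubmonoidClass.coe_pow, RAX_coe, ← map_pow, colA_scalar, evy_tt]
  exact hpow e _ (Finset.single_le_sum (fun _ _ => Nat.zero_le _) (Finset.mem_univ e))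

theorem N2N_s2 {a : Set X.i} {c d : Ch j} (h : c ≤ d) {g : j} (hg : g ∈ c.1) (l : j)
    (h2 : d.1 ⊆ insert l c.1) {x : X.II → X.M ⊗[L] W.E c}
    (hx : (fun e => tres W h (x e)) ∈ N2N D a d) : ∃ n : ℕ,
    (fun e => trt W c l hg n (x e)) ∈ N2N D a c := by
  choose n hn using fun e => N2_s2 D h hg l h2 (hx e)
  exact ⟨∑ e, n e, fun e => hn e _ (Finset.single_le_sum (fun _ _ => Nat.zero_le _)
    (Finset.mem_univ e))⟩

/-- The subsheaf `N2`. -/
def N2 : SubD X.cn (X.colP W) where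
  N := fun a c _ => N2N D a.1 c
  hl := fun a c h f x hx => N2N_l D f hx
  hr := fun a c h b x hx e => N2_r D b (hx e)
  hm := fun {a a' c d} h h' hd x hx e => Gs_mono h le_rfl (N2_res D h' (hx e))
  s1 := fun {a a'} c h hd {g} hg l h2 x hx => N2N_s1 D h hg l h2 hx
  s2 := fun a {c d} hc h {g} hg l h2 x hx => by
    obtain ⟨n, hn⟩ := N2N_s2 D h hg l h2 hx
    exact ⟨n, hn⟩

theorem N2_N {a : Ch X.i} {c : Ch j} {h : X.cn.D a} : (N2 D).N a c h = N2N D a.1 c := rfl

/-- finite generation -/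
theorem N2N_fg {a : Set X.i} (ha : a.Nonempty) {c : Ch j} :
    ∃ G : Finset (X.II → X.M ⊗[L] W.E c), (∀ w ∈ G, w ∈ N2N D a c) ∧
      ∀ x ∈ N2N D a c, x ∈ Submodule.span k {z | ∃ (r : RR k a) (b : (A'.A c)ᵐᵒᵖ), ∃ w ∈ G,
        z = fun e => evy X.y (r : Lau k X.i) • tr W c b (w e)} := by
  classical
  choose s hs hs' using fun e : X.II => X.fg (X.tw e) ha
  obtain ⟨s', h1, h2⟩ := D.fg c
  refine ⟨Finset.univ.biUnion fun e => (s e ×ˢ s').image fun w =>
    (Pi.single e (w.1 ⊗ₜ[L] w.2) : X.II → X.M ⊗[L] W.E c), ?_, ?_⟩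
  · intro w hw
    rw [Finset.mem_biUnion] at hw
    obtain ⟨e, -, hw⟩ := hw
    rw [Finset.mem_image] at hw
    obtain ⟨w, hw, rfl⟩ := hw
    rw [Finset.mem_product] at hw
    refine (mem_N2N D).2 fun e' => ?_
    by_cases he : e' = e
    · subst he
      rw [Pi.single_eq_same, ← smul_im]
      exact Gs_mem (hs _ _ hw.1) (im_mem D (h1 _ hw.2))
    · rw [Pi.single_eq_of_ne he]
      exact zero_mem _
  · intro x hx
    set E : Submodule k (X.II → X.M ⊗[L] W.E c) := Submodule.span k {z | ∃ (r : RR k a)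
      (b : (A'.A c)ᵐᵒᵖ), ∃ w ∈ Finset.univ.biUnion fun e => (s e ×ˢ s').image fun w =>
        (Pi.single e (w.1 ⊗ₜ[L] w.2) : X.II → X.M ⊗[L] W.E c),
        z = fun e => evy X.y (r : Lau k X.i) • tr W c b (w e)} with hE
    rw [← Finset.univ_sum_single x]
    refine Submodule.sum_mem _ fun e _ => ?_
    have h3 : X.Gs (D.im X.M c) (X.tw e) a ≤ E.comap
        (LinearMap.single k (fun _ : X.II => X.M ⊗[L] W.E c) e) := by
      refine Gs_le ?_
      rintro u hu _ ⟨v, hv, rfl⟩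
      change u • ((1 : X.M) ⊗ₜ[L] v) ∈ _
      rw [smul_im, Submodule.mem_comap]
      have h4 := hs' e u hu
      have h5 := h2 v hv
      clear hu hx hv
      induction h4 using Submodule.span_induction with
      | mem z hz =>
        obtain ⟨r, hr, w, hw, rfl⟩ := hz
        induction h5 using Submodule.span_induction with
        | mem z hz =>
          obtain ⟨b, w', hw', rfl⟩ := hz
          refine Submodule.subset_span ⟨⟨r, hr⟩, b, Pi.single e (w ⊗ₜ[L] w'),
            Finset.mem_biUnion.2 ⟨e, Finset.mem_univ _, Finset.mem_image.2 ⟨(w, w'),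
            Finset.mem_product.2 ⟨hw, hw'⟩, rfl⟩⟩, funext fun e' => ?_⟩
          rw [LinearMap.single_apply]
          by_cases he : e' = e
          · subst he
            rw [Pi.single_eq_same, Pi.single_eq_same, tr_tmul, TensorProduct.smul_tmul',
              smul_eq_mul]
          · rw [Pi.single_eq_of_ne he, Pi.single_eq_of_ne he, map_zero, smul_zero]
        | zero =>
          rw [TensorProduct.tmul_zero, map_zero]
          exact zero_mem _
        | add y z _ _ hy hz =>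
          rw [TensorProduct.tmul_add, map_add]
          exact add_mem hy hz
        | smul q y _ hy =>
          rw [TensorProduct.tmul_smul, map_smul]
          exact Submodule.smul_mem _ _ hy
      | zero =>
        rw [TensorProduct.zero_tmul, map_zero]
        exact zero_mem _
      | add y z _ _ hy hz =>
        rw [TensorProduct.add_tmul, map_add]
        exact add_mem hy hz
      | smul q y _ hy =>
        rw [← TensorProduct.smul_tmul', map_smul]
        exact Submodule.smul_mem _ _ hy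
    exact h3 (hx e)

/-- coherence -/
theorem N2_coh : (N2 (X := X) D).sub.sh.Coh := by
  refine SubD.coh _ fun a c h => ?_
  obtain ⟨G, h1, h2⟩ := N2N_fg (X := X) D (a := a.1) a.2.1 (c := c)
  refine ⟨G, h1, fun x hx => ?_⟩
  refine Submodule.span_mono ?_ (h2 x hx)
  rintro _ ⟨r, b, w, hw, rfl⟩
  refine ⟨X.RAX a.1 r, b, w, hw, ?_⟩
  refine funext fun e => ?_
  change _ = X.colA _ (Matrix.scalar X.II (evy X.y (r : Lau k X.i))) (fun e => tr W c b (w e)) e
  rw [colA_scalar]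

end XD

end Pool.Agent.MP_6e5bed_ag_GG
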