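import Pool.Agent.Lib.MP_6e5bed_ag_GG.GL
import Pool.Agent.Lib.MP_6e5bed_ag_GG.GM

set_option autoImplicit false
set_option linter.unusedSectionVars false
set_option linter.unusedVariables false

/-!
# MP_6e5bed_ag, THEOREM G: the product of rows and columns (text, (8.3))
-/

noncomputable section

namespace Pool.Agent.MP_6e5bed_ag_GG

open scoped TensorProduct

universe u

variable {k : Type u} [Field k] {j : Type} [Fintype j] {A' : CA k j}

namespace XD

variable (X : XD k) (L : Type u) [Field L] [Algebra k L] (S : Type u) [Ring S] [Algebra k S]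
  [Algebra L S] [IsScalarTower k L S] [Algebra L X.M] [IsScalarTower k L X.M]

/-- the algebra `S ⊗_L M` -/
abbrev KK : Type u := S ⊗[L] X.M

/-- `S → S ⊗_L M` -/
def inS : S →ₐ[k] X.KK L S := Algebra.TensorProduct.includeLeft

/-- `M → S ⊗_L M` -/
def inM : X.M →ₐ[k] X.KK L S := Algebra.TensorProduct.includeRight.restrictScalars k

variable {L S}

theorem inS_apply (s : S) : X.inS L S s = s ⊗ₜ[L] 1 := rfl

theorem inM_apply (u : X.M) : X.inM L S u = 1 ⊗ₜ[L] u := rfl

/-- the image of `M` is central -/
theorem inM_comm (u : X.M) (x : X.KK L S) : X.inM L S u * x = x * X.inM L S u := by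
  induction x using TensorProduct.induction_on with
  | zero => rw [mul_zero, zero_mul]
  | tmul s v =>
    rw [inM_apply, Algebra.TensorProduct.tmul_mul_tmul, Algebra.TensorProduct.tmul_mul_tmul,
      one_mul, mul_one, mul_comm]
  | add x y hx hy => rw [mul_add, add_mul, hx, hy]

/-! ### The product `S ⊗_L M × M ⊗_L V → S ⊗_L (M ⊗_L V)` -/

section pK

variable (L S) (U : Type u) [AddCommGroup U] [Module k U] [Module X.M U] [IsScalarTower k X.M U]
  [Module L U] [IsScalarTower L X.M U]

/-- the product -/
def pK : X.KK L S →ₗ[L] U →ₗ[L] S ⊗[L] U :=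
  TensorProduct.lift (LinearMap.mk₂ L
    (fun (s : S) (u : X.M) => TensorProduct.mk L S U s ∘ₗ (Algebra.lsmul L L U u))
    (fun s s' u => LinearMap.ext fun x => TensorProduct.add_tmul s s' _)
    (fun c s u => LinearMap.ext fun x => TensorProduct.smul_tmul' c s _)
    (fun s u u' => LinearMap.ext fun x => by
      change s ⊗ₜ[L] ((u + u') • x) = s ⊗ₜ[L] (u • x) + s ⊗ₜ[L] (u' • x)
      rw [add_smul, TensorProduct.tmul_add])
    (fun c s u => LinearMap.ext fun x => by
      change s ⊗ₜ[L] ((c • u) • x) = c • s ⊗ₜ[L] (u • x)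
      rw [smul_assoc, TensorProduct.tmul_smul]))

variable {L S U}

theorem pK_tmul (s : S) (u : X.M) (x : U) : X.pK L S U (s ⊗ₜ[L] u) x = s ⊗ₜ[L] (u • x) := rfl

/-- the left action -/
theorem pK_l (t : S) (f : X.KK L S) (x : U) :
    X.pK L S U (X.inS L S t * f) x = t • X.pK L S U f x := by
  induction f using TensorProduct.induction_on with
  | zero => rw [mul_zero, map_zero, LinearMap.zero_apply, smul_zero]
  | tmul s u =>
    rw [inS_apply, Algebra.TensorProduct.tmul_mul_tmul, one_mul, pK_tmul, pK_tmul,
      TensorProduct.smul_tmul', smul_eq_mul]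
  | add f f' hf hf' =>
    rw [mul_add, map_add, map_add, LinearMap.add_apply, LinearMap.add_apply, smul_add, hf, hf']

/-- the product is balanced -/
theorem pK_bal (f : X.KK L S) (u : X.M) (x : U) :
    X.pK L S U (f * X.inM L S u) x = X.pK L S U f (u • x) := by
  induction f using TensorProduct.induction_on with
  | zero => rw [zero_mul, map_zero, LinearMap.zero_apply, LinearMap.zero_apply]
  | tmul s v =>
    rw [inM_apply, Algebra.TensorProduct.tmul_mul_tmul, mul_one, pK_tmul, pK_tmul, mul_smul]
  | add f f' hf hf' =>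
    rw [add_mul, map_add, map_add, LinearMap.add_apply, LinearMap.add_apply, hf, hf']

/-- the product is natural -/
theorem pK_nat {U' : Type u} [AddCommGroup U'] [Module k U'] [Module X.M U']
    [IsScalarTower k X.M U'] [Module L U'] [IsScalarTower L X.M U'] (φ : U →ₗ[L] U')
    (hφ : ∀ (u : X.M) (x : U), φ (u • x) = u • φ x) (f : X.KK L S) (x : U) :
    X.pK L S U' f (φ x) = LinearMap.lTensor S φ (X.pK L S U f x) := by
  induction f using TensorProduct.induction_on with
  | zero => rw [map_zero, map_zero, LinearMap.zero_apply, LinearMap.zero_apply, map_zero]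
  | tmul s u => rw [pK_tmul, pK_tmul, LinearMap.lTensor_tmul, hφ]
  | add f f' hf hf' =>
    rw [map_add, map_add, LinearMap.add_apply, LinearMap.add_apply, map_add, hf, hf']

variable [IsScalarTower k L U]

/-- the product of rows and columns -/
def rc : (X.II → X.KK L S) →ₗ[k] (X.II → U) →ₗ[k] S ⊗[L] U :=
  LinearMap.mk₂ k (fun f x => ∑ e, X.pK L S U (f e) (x e))
    (fun f f' x => by
      rw [← Finset.sum_add_distrib]
      refine Finset.sum_congr rfl fun e _ => ?_
      rw [Pi.add_apply, map_add, LinearMap.add_apply])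
    (fun c f x => by
      rw [Finset.smul_sum]
      refine Finset.sum_congr rfl fun e _ => ?_
      rw [Pi.smul_apply, ← algebraMap_smul L c (f e), map_smul, LinearMap.smul_apply,
        algebraMap_smul])
    (fun f x x' => by
      rw [← Finset.sum_add_distrib]
      refine Finset.sum_congr rfl fun e _ => ?_
      rw [Pi.add_apply, map_add])
    (fun c f x => by
      rw [Finset.smul_sum]
      refine Finset.sum_congr rfl fun e _ => ?_
      rw [Pi.smul_apply, ← algebraMap_smul L c (x e), map_smul, algebraMap_smul])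

theorem rc_apply (f : X.II → X.KK L S) (x : X.II → U) :
    X.rc f x = ∑ e, X.pK L S U (f e) (x e) := rfl

theorem rc_l (t : S) (f : X.II → X.KK L S) (x : X.II → U) :
    X.rc (fun e => X.inS L S t * f e) x = t • X.rc f x := by
  rw [rc_apply, rc_apply, Finset.smul_sum]
  exact Finset.sum_congr rfl fun e _ => X.pK_l t (f e) (x e)

theorem rc_bal (A : Matrix X.II X.II X.M) (f : X.II → X.KK L S) (x : X.II → U) :
    X.rc (X.rowr (X.KK L S) (X.inM L S) A f) x = X.rc f (X.colA U A x) := by
  rw [rc_apply, rc_apply]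
  simp only [rowr_apply, colA_apply, map_sum, LinearMap.sum_apply]
  rw [Finset.sum_comm]
  exact Finset.sum_congr rfl fun e _ => Finset.sum_congr rfl fun e' _ => X.pK_bal _ _ _

theorem rc_nat {U' : Type u} [AddCommGroup U'] [Module k U'] [Module X.M U']
    [IsScalarTower k X.M U'] [Module L U'] [IsScalarTower L X.M U'] [IsScalarTower k L U']
    (φ : U →ₗ[L] U') (hφ : ∀ (u : X.M) (x : U), φ (u • x) = u • φ x) (f : X.II → X.KK L S)
    (x : X.II → U) : X.rc f (fun e => φ (x e)) = LinearMap.lTensor S φ (X.rc f x) := by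
  rw [rc_apply, rc_apply, map_sum]
  exact Finset.sum_congr rfl fun e _ => X.pK_nat φ hφ (f e) (x e)

end pK

end XD

end Pool.Agent.MP_6e5bed_ag_GG
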