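import Pool.Agent.Lib.MP_6e5bed_ag_GG.GN

set_option autoImplicit false
set_option linter.unusedSectionVars false
set_option linter.unusedVariables false

/-!
# MP_6e5bed_ag, THEOREM G: the localisation of the bisheaf of rows (text, (8.4))
-/

noncomputable section

namespace Pool.Agent.MP_6e5bed_ag_GG

open scoped TensorProduct

universe u

attribute [local instance] XD.kbG XD.kbk XD.kbM XD.kbT

variable {k : Type u} [Field k] {i j : Type} [Fintype i] [Fintype j]

namespace XD

variable (X : XD k)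

/-- on a chart the sheaf `O(b)` has a generator -/
theorem O_gen {a : Set X.i} (ha : a.Nonempty) (b : X.D → ℤ) :
    ∃ τ : X.M, τ ≠ 0 ∧ ∀ u, u ∈ X.O b a ↔ τ⁻¹ * u ∈ X.O 0 a := by
  have hup : ∀ (b : X.D → ℤ) (r : X.D),
      (∃ τ : X.M, τ ≠ 0 ∧ ∀ u, u ∈ X.O b a ↔ τ⁻¹ * u ∈ X.O 0 a) ↔
      (∃ τ : X.M, τ ≠ 0 ∧ ∀ u, u ∈ X.O (b + Pi.single r 1) a ↔ τ⁻¹ * u ∈ X.O 0 a) := by
    intro b r
    rcases X.step r ha with h | h
    · rw [h b]
    · have hs : (X.s r : X.M) ≠ 0 := (X.s r).ne_zero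
      constructor
      · rintro ⟨τ, h0, hτ⟩
        refine ⟨X.s r * τ, mul_ne_zero hs h0, fun u => ?_⟩
        rw [h b, hτ, mul_inv, Units.val_inv_eq_inv_val]
        have e : τ⁻¹ * (((X.s r : X.M))⁻¹ * u) = (X.s r : X.M)⁻¹ * τ⁻¹ * u := by ring
        rw [e]
      · rintro ⟨τ, h0, hτ⟩
        refine ⟨(X.s r : X.M)⁻¹ * τ, mul_ne_zero (inv_ne_zero hs) h0, fun u => ?_⟩
        have h1 := h b (X.s r * u)
        rw [hτ, Units.val_inv_eq_inv_val, inv_mul_cancel_left₀ hs] at h1
        rw [← h1, mul_inv, inv_inv]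
        have e : τ⁻¹ * ((X.s r : X.M) * u) = (X.s r : X.M) * τ⁻¹ * u := by ring
        rw [e]
  have h1 : ∀ (r : X.D) (n : ℤ) (b : X.D → ℤ),
      (∃ τ : X.M, τ ≠ 0 ∧ ∀ u, u ∈ X.O b a ↔ τ⁻¹ * u ∈ X.O 0 a) →
      (∃ τ : X.M, τ ≠ 0 ∧ ∀ u, u ∈ X.O (b + n • Pi.single r 1) a ↔ τ⁻¹ * u ∈ X.O 0 a) := by
    intro r n
    induction n using Int.induction_on with
    | zero =>
      intro b hb
      rwa [zero_smul, add_zero]
    | succ n ih =>
      intro b hb
      rw [add_smul, one_smul, ← add_assoc]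
      exact (hup _ r).1 (ih b hb)
    | pred n ih =>
      intro b hb
      refine (hup _ r).2 ?_
      have e : b + (-(n : ℤ) - 1) • Pi.single r (1 : ℤ) + Pi.single r 1 =
          b + (-(n : ℤ)) • Pi.single r 1 := by
        rw [sub_smul, one_smul]
        abel
      rw [e]
      exact ih b hb
  have h2 : ∀ (s : Finset X.D) (v b : X.D → ℤ),
      (∃ τ : X.M, τ ≠ 0 ∧ ∀ u, u ∈ X.O b a ↔ τ⁻¹ * u ∈ X.O 0 a) →
      (∃ τ : X.M, τ ≠ 0 ∧ ∀ u, u ∈ X.O (b + ∑ r ∈ s, v r • Pi.single r 1) a ↔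
        τ⁻¹ * u ∈ X.O 0 a) := by
    intro s
    induction s using Finset.induction_on with
    | empty =>
      intro v b hb
      rwa [Finset.sum_empty, add_zero]
    | insert r s hr ih =>
      intro v b hb
      rw [Finset.sum_insert hr, ← add_assoc]
      exact ih v _ (h1 r (v r) b hb)
  have h3 := h2 Finset.univ b 0 ⟨1, one_ne_zero, fun u => by rw [inv_one, one_mul]⟩
  have h4 : (0 : X.D → ℤ) + ∑ r, b r • Pi.single r (1 : ℤ) = b := by
    rw [zero_add]
    funext r
    rw [Finset.sum_apply, Finset.sum_eq_single r]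
    · rw [Pi.smul_apply, Pi.single_eq_same, smul_eq_mul, mul_one]
    · intro r' _ hr'
      rw [Pi.smul_apply, Pi.single_eq_of_ne hr'.symm, smul_zero]
    · intro h
      exact absurd (Finset.mem_univ r) h
  rwa [h4] at h3

variable (L : Type u) [Field L] [Algebra k L] [Algebra L X.M] [IsScalarTower k L X.M]
  [Module.Finite L X.M]

/-- the sections of `O(b)` on a chart generate the function field over `L` -/
theorem span_O {a : Set X.i} (ha : a.Nonempty) (b : X.D → ℤ) (u : X.M) :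
    u ∈ Submodule.span L (X.O b a : Set X.M) := by
  have hcl : (Submonoid.closure (X.O 0 a : Set X.M) : Set X.M) = (X.O 0 a : Set X.M) := by
    let P : Submonoid X.M :=
      { carrier := (X.O 0 a : Set X.M)
        mul_mem' := fun {u v} hu hv => X.mul_mem0 hu hv
        one_mem' := X.one_mem a }
    exact congrArg (fun Q : Submonoid X.M => (Q : Set X.M)) (Submonoid.closure_eq P)
  have h0 : ∀ u : X.M, u ∈ Submodule.span L (X.O 0 a : Set X.M) := by
    intro u
    have hadj : ∀ v : X.M, v ∈ Submodule.span L (X.O 0 a : Set X.M) ↔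
        v ∈ Algebra.adjoin L (X.O 0 a : Set X.M) := by
      intro v
      rw [← Subalgebra.mem_toSubmodule, Algebra.adjoin_eq_span, hcl]
    rw [hadj]
    obtain ⟨b', σ, σ', h1, h2, h3, rfl⟩ := X.frac u
    obtain ⟨τ, h4, h5⟩ := X.O_gen ha b'
    have h6 := (h5 σ).1 (X.mono _ (Set.empty_subset a) h1)
    have h7 := (h5 σ').1 (X.mono _ (Set.empty_subset a) h2)
    have h8 : σ' / σ = (τ⁻¹ * σ') * (τ⁻¹ * σ)⁻¹ := by
      field_simp
    rw [h8]
    refine Subalgebra.mul_mem _ (Algebra.subset_adjoin h7) ?_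
    exact Subalgebra.inv_mem_of_algebraic (A := Algebra.adjoin L (X.O 0 a : Set X.M))
      (x := ⟨τ⁻¹ * σ, Algebra.subset_adjoin h6⟩) (Algebra.IsAlgebraic.isAlgebraic _)
  obtain ⟨τ, h4, h5⟩ := X.O_gen ha b
  have h6 := h0 (τ⁻¹ * u)
  have h7 : ∀ v ∈ Submodule.span L (X.O 0 a : Set X.M),
      τ * v ∈ Submodule.span L (X.O b a : Set X.M) := by
    intro v hv
    induction hv using Submodule.span_induction with
    | mem z hz =>
      refine Submodule.subset_span ((h5 _).2 ?_)
      rwa [inv_mul_cancel_left₀ h4]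
    | zero =>
      rw [mul_zero]
      exact zero_mem _
    | add y z _ _ hy hz =>
      rw [mul_add]
      exact add_mem hy hz
    | smul c y _ hy =>
      rw [mul_smul_comm]
      exact Submodule.smul_mem _ _ hy
  have h8 := h7 _ h6
  rwa [mul_inv_cancel_left₀ h4] at h8

end XD

/-! ### Localisation of the rows -/

section loc

variable {A : CA k i} {m : Ch i} (g : GD A m) (X : XD k) {L : Type u} [Field L] [Algebra k L]
  [Algebra L g.S] [IsScalarTower k L g.S] [Algebra L X.M] [IsScalarTower k L X.M]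
  [Module.Finite L X.M]

theorem GD.fn_mul_ne {f f' : RR k m.1} (h : g.fn f ≠ 0) (h' : g.fn f' ≠ 0) :
    g.fn (f * f') ≠ 0 := by
  rw [g.fn_mul]
  intro h0
  have h1 : IsUnit (g.fn f) := g.unit f h
  exact h' (h1.mul_right_eq_zero.1 h0)

theorem GD.cone_psi (a : A.A m) (h : g.cone.D m) : g.cone.psi m h a = g.psi a := by
  change g.psi (A.res h a) = g.psi a
  rw [A.res_id]

/-- the lattice of the entries -/
abbrev GD.lat (X : XD k) (L : Type u) [Field L] [Algebra k L] [Algebra L g.S]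
    [IsScalarTower k L g.S] [Algebra L X.M] [IsScalarTower k L X.M] (b : X.D → ℤ)
    (a : Set X.i) : Submodule k (X.KB (X.inM L g.S)) :=
  X.Gs (XD.N1i g.cone (X.inM L g.S) (X.inS L g.S) m (le_refl m)) b a

theorem GD.lat_mul {b : X.D → ℤ} {a : Set X.i} (f : RR k m.1) {x : X.KK L g.S}
    (hx : XD.kb (X.inM L g.S) x ∈ g.lat X L b a) :
    XD.kb (X.inM L g.S) (X.inS L g.S (g.fn f) * x) ∈ g.lat X L b a := by
  have h1 := XD.N1_l (κ := g.cone) (α := X.inS L g.S) X.inM_comm (le_refl m)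
    (algebraMap (RR k m.1) (A.A m) f) hx
  rw [g.cone_psi] at h1
  exact h1

/-- every element of `S ⊗_L M` is in the lattice after multiplication with a function -/
theorem GD.lat_surj {a : Set X.i} (ha : a.Nonempty) (b : X.D → ℤ) (x : X.KK L g.S) :
    ∃ f : RR k m.1, g.fn f ≠ 0 ∧
      XD.kb (X.inM L g.S) (X.inS L g.S (g.fn f) * x) ∈ g.lat X L b a := by
  have hadd : ∀ x y : X.KK L g.S,
      (∃ f : RR k m.1, g.fn f ≠ 0 ∧
        XD.kb (X.inM L g.S) (X.inS L g.S (g.fn f) * x) ∈ g.lat X L b a) →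
      (∃ f : RR k m.1, g.fn f ≠ 0 ∧
        XD.kb (X.inM L g.S) (X.inS L g.S (g.fn f) * y) ∈ g.lat X L b a) →
      (∃ f : RR k m.1, g.fn f ≠ 0 ∧
        XD.kb (X.inM L g.S) (X.inS L g.S (g.fn f) * (x + y)) ∈ g.lat X L b a) := by
    rintro x y ⟨f, hf, hx⟩ ⟨f', hf', hy⟩
    refine ⟨f * f', g.fn_mul_ne hf hf', ?_⟩
    rw [mul_add, map_add]
    refine add_mem ?_ ?_
    · have h1 := g.lat_mul X f' hx
      rw [← mul_assoc, ← map_mul, ← g.fn_mul, mul_comm f' f] at h1
      exact h1
    · have h1 := g.lat_mul X f hy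
      rw [← mul_assoc, ← map_mul, ← g.fn_mul] at h1
      exact h1
  have h0 : ∃ f : RR k m.1, g.fn f ≠ 0 ∧
      XD.kb (X.inM L g.S) (X.inS L g.S (g.fn f) * 0) ∈ g.lat X L b a := by
    refine ⟨1, ?_, ?_⟩
    · rw [g.fn_one]
      exact g.ne
    · rw [mul_zero, map_zero]
      exact zero_mem _
  induction x using TensorProduct.induction_on with
  | zero => exact h0
  | add x y hx hy => exact hadd x y hx hy
  | tmul s u =>
    have hu := X.span_O L ha b u
    revert s
    induction hu using Submodule.span_induction with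
    | mem u hu =>
      intro s
      obtain ⟨f, hf, y, hy⟩ := g.surj s
      refine ⟨f, hf, ?_⟩
      have h1 : X.inS L g.S (g.fn f) * (s ⊗ₜ[L] u) =
          X.inM L g.S u * X.inS L g.S (g.cone.psi m (le_refl m) y) := by
        rw [g.cone_psi, hy, X.inS_apply, X.inS_apply, X.inM_apply,
          Algebra.TensorProduct.tmul_mul_tmul, Algebra.TensorProduct.tmul_mul_tmul, one_mul,
          one_mul, mul_one]
        rfl
      rw [h1, ← XD.smul_kb]
      exact XD.Gs_mem hu (XD.N1i_mem.2 ⟨y, rfl⟩)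
    | zero =>
      intro s
      rw [TensorProduct.tmul_zero]
      exact h0
    | add u v _ _ hu hv =>
      intro s
      rw [TensorProduct.tmul_add]
      exact hadd _ _ (hu s) (hv s)
    | smul c u _ hu =>
      intro s
      rw [TensorProduct.tmul_smul, TensorProduct.smul_tmul']
      exact hu (c • s)

/-- every row is in the lattice after multiplication with a function -/
theorem GD.row_surj {a : Set X.i} (ha : a.Nonempty) (x : X.II → X.KK L g.S) :
    ∃ f : RR k m.1, g.fn f ≠ 0 ∧ (fun e => X.inS L g.S (g.fn f) * x e) ∈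
      XD.N1N g.cone (X.inM L g.S) (X.inS L g.S) m a (le_refl m) := by
  classical
  choose f hf hx using fun e => g.lat_surj X (L := L) ha (-X.tw e) (x e)
  refine ⟨∏ e, f e, ?_, fun e => ?_⟩
  · refine Finset.prod_induction f (fun f => g.fn f ≠ 0) (fun f f' => g.fn_mul_ne) ?_
      (fun e _ => hf e)
    rw [g.fn_one]
    exact g.ne
  · have h1 := g.lat_mul X (∏ e' ∈ Finset.univ.erase e, f e') (hx e)
    rw [← mul_assoc, ← map_mul, ← g.fn_mul,
      Finset.prod_erase_mul _ _ (Finset.mem_univ e)] at h1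
    exact h1

end loc

end Pool.Agent.MP_6e5bed_ag_GG
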