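import Pool.Agent.Lib.MP_6e5bed_ag_GG.ShA

set_option autoImplicit false
set_option linter.unusedSectionVars false

/-!
# MP_6e5bed_ag, THEOREM G: noetherian induction: the left annihilators (text, section 7)
-/

noncomputable section

namespace Pool.Agent.MP_6e5bed_ag_GG

open scoped TensorProduct

universe u

variable {k : Type u} [Field k] {i j : Type} [Fintype i] [Fintype j]

/-! ### The algebras of the site -/

section lo

variable (A : CA k i) (A' : CA k j)

/-- the left factor of `A_c ⊗ A'_{c'}ᵒᵖ` -/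
def lo (p : Ch i × Ch j) : A.A p.1 →ₐ[k] (bs A A').B p :=
  (Algebra.TensorProduct.includeLeft : A.A p.1 →ₐ[k] bsB A A' p)

/-- the right factor of `A_c ⊗ A'_{c'}ᵒᵖ` -/
def ro (p : Ch i × Ch j) : (A'.A p.2)ᵐᵒᵖ →ₐ[k] (bs A A').B p :=
  (Algebra.TensorProduct.includeRight : (A'.A p.2)ᵐᵒᵖ →ₐ[k] bsB A A' p)

theorem lo_mul_ro (p : Ch i × Ch j) (a : A.A p.1) (b : (A'.A p.2)ᵐᵒᵖ) :
    lo A A' p a * ro A A' p b = (a ⊗ₜ[k] b : bsB A A' p) := by
  change (a ⊗ₜ[k] 1 : bsB A A' p) * (1 ⊗ₜ[k] b : bsB A A' p) = _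
  rw [Algebra.TensorProduct.tmul_mul_tmul, mul_one, one_mul]

theorem ro_mul_lo (p : Ch i × Ch j) (a : A.A p.1) (b : (A'.A p.2)ᵐᵒᵖ) :
    ro A A' p b * lo A A' p a = lo A A' p a * ro A A' p b := by
  rw [lo_mul_ro]
  change (1 ⊗ₜ[k] b : bsB A A' p) * (a ⊗ₜ[k] 1 : bsB A A' p) = _
  rw [Algebra.TensorProduct.tmul_mul_tmul, mul_one, one_mul]

/-- induction over the elements of `A_c ⊗ A'_{c'}ᵒᵖ` -/
theorem bs_induction {p : Ch i × Ch j} {Pr : (bs A A').B p → Prop}
    (h0 : Pr 0) (h1 : ∀ a b, Pr (lo A A' p a * ro A A' p b)) (h2 : ∀ x y, Pr x → Pr y → Pr (x + y))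
    (x : (bs A A').B p) : Pr x := by
  have h3 : ∀ x : bsB A A' p, Pr x := by
    intro x
    induction x using TensorProduct.induction_on with
    | zero => exact h0
    | tmul a b =>
      rw [← lo_mul_ro A A' p a b]
      exact h1 a b
    | add x y hx hy => exact h2 x y hx hy
  exact h3 x

theorem lo_r {p q : Ch i × Ch j} (h : p ≤ q) (a : A.A p.1) :
    (bs A A').r h (lo A A' p a) = lo A A' q (A.res h.1 a) := by
  refine (bsr_tmul A A' h a 1).trans ?_
  rw [MulOpposite.unop_one, map_one]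
  rfl

theorem ro_r {p q : Ch i × Ch j} (h : p ≤ q) (b : (A'.A p.2)ᵐᵒᵖ) :
    (bs A A').r h (ro A A' p b) = ro A A' q (MulOpposite.op (A'.res h.2 b.unop)) := by
  refine (bsr_tmul A A' h 1 b).trans ?_
  rw [map_one]
  rfl

/-- the functions on the first space -/
def cl1 (p : Ch i × Ch j) (f : RR k p.1.1) : (bs A A').B p :=
  lo A A' p (algebraMap (RR k p.1.1) (A.A p.1) f)

theorem cl1_mul (p : Ch i × Ch j) (f g : RR k p.1.1) :
    cl1 A A' p (f * g) = cl1 A A' p f * cl1 A A' p g := by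
  unfold cl1
  rw [map_mul, map_mul]

theorem cl1_pow (p : Ch i × Ch j) (f : RR k p.1.1) (n : ℕ) :
    cl1 A A' p (f ^ n) = cl1 A A' p f ^ n := by
  unfold cl1
  rw [map_pow, map_pow]

theorem cl1_one (p : Ch i × Ch j) : cl1 A A' p 1 = 1 := by
  unfold cl1
  rw [map_one, map_one]

/-- the functions on the first space are central -/
theorem cl1_comm (p : Ch i × Ch j) (f : RR k p.1.1) (x : (bs A A').B p) :
    cl1 A A' p f * x = x * cl1 A A' p f := by
  induction x using bs_induction with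
  | h0 => rw [mul_zero, zero_mul]
  | h1 a b =>
    unfold cl1
    rw [← mul_assoc, ← map_mul, Algebra.commutes, map_mul, mul_assoc, mul_assoc, ro_mul_lo]
  | h2 x y hx hy => rw [mul_add, add_mul, hx, hy]

theorem cl1_r {p q : Ch i × Ch j} (h : p ≤ q) (f : RR k p.1.1) :
    (bs A A').r h (cl1 A A' p f) = cl1 A A' q (rinc h.1 f) := by
  unfold cl1
  rw [lo_r, A.res_R]

theorem rinc_tt {c d : Ch i} (h : c ≤ d) (l : i) {g : i} (hg : g ∈ c.1) :
    rinc h (tt k l hg) = tt k l (h hg) := rfl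

end lo

section

variable {A : CA k i} {A' : CA k j}

/-- the two kinds of localisation of the site of bisheaves, enlarged by `m` -/
theorem bsLoc_sup {p q : Ch i × Ch j} {t : (bs A A').B p} (h : (bs A A').Loc p q t) (m : Ch i) :
    (bs A A').Loc (p.1.sup m, p.2) (q.1.sup m, q.2)
      ((bs A A').r (p := p) (q := (p.1.sup m, p.2)) ⟨Set.subset_union_left, le_rfl⟩ t) := by
  obtain ⟨h0, h1⟩ := h
  have hle : ((p.1.sup m, p.2) : Ch i × Ch j) ≤ (q.1.sup m, q.2) :=
    ⟨Set.union_subset_union_left _ h0.1, h0.2⟩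
  have hs : p ≤ ((p.1.sup m, p.2) : Ch i × Ch j) := ⟨Set.subset_union_left, le_rfl⟩
  refine ⟨hle, ?_⟩
  rcases h1 with ⟨l, g, hg, h2, h3, rfl⟩ | ⟨l, g, hg, h2, h3, rfl⟩
  · refine Or.inl ⟨l, g, Set.mem_union_left _ hg, ?_, h3, ?_⟩
    · change q.1.1 ∪ m.1 ⊆ insert l (p.1.1 ∪ m.1)
      rw [← Set.insert_union]
      exact Set.union_subset_union_left _ h2
    · refine (bsr_tmul A A' hs _ 1).trans ?_
      rw [MulOpposite.unop_one, map_one, A.res_R]
      rfl
  · refine Or.inr ⟨l, g, hg, h2, ?_, ?_⟩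
    · exact Set.union_subset_union_left _ h3
    · refine (bsr_tmul A A' hs 1 _).trans ?_
      rw [map_one, MulOpposite.unop_op, A'.res_id]

/-! ### Annihilators -/

/-- The annihilator of `E` on the chart `m` in `A_m`. -/
def ann (E : BS A A') (m : Ch i) : Ideal (A.A m) where
  carrier := {a | ∀ (c' : Ch j) (e : E.E (m, c')), lo A A' (m, c') a • e = 0}
  zero_mem' := fun c' e => by rw [map_zero, zero_smul]
  add_mem' := fun {a b} ha hb c' e => by rw [map_add, add_smul, ha, hb, add_zero]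
  smul_mem' := fun b a ha c' e => by
    rw [smul_eq_mul, map_mul, mul_smul, ha, smul_zero]

theorem mem_ann {E : BS A A'} {m : Ch i} {a : A.A m} :
    a ∈ ann E m ↔ ∀ (c' : Ch j) (e : E.E (m, c')), lo A A' (m, c') a • e = 0 := Iff.rfl

theorem ann_mul_mem {E : BS A A'} {m : Ch i} {a : A.A m} (ha : a ∈ ann E m) (b : A.A m) :
    a * b ∈ ann E m := fun c' e => by
  rw [map_mul, mul_smul]
  exact ha c' _

theorem ann_sub (E : BS A A') (N : Sub E) : ann E ≤ ann N.sh :=
  fun _ _ ha c' e => Subtype.ext (ha c' e.1)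

theorem ann_quot (E : BS A A') (N : Sub E) : ann E ≤ ann N.quot := fun m a ha c' e => by
  obtain ⟨e, rfl⟩ := (N.N (m, c')).mkQ_surjective e
  have h1 := congrArg (N.N (m, c')).mkQ (ha c' e)
  rw [map_smul, map_zero] at h1
  exact h1

theorem ann_of_inj {E F : BS A A'} (f : ShH E F) (hf : f.Inj) : ann F ≤ ann E :=
  fun m a ha c' e => by
    refine hf (m, c') ?_
    rw [map_smul, map_zero]
    exact ha c' _

theorem ann_of_surj {E F : BS A A'} (f : ShH E F) (hf : f.Surj) : ann E ≤ ann F :=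
  fun m a ha c' e => by
    obtain ⟨e, rfl⟩ := hf (m, c') e
    rw [← map_smul, ha c' e, map_zero]

theorem ann_eq_of_bij {E F : BS A A'} (f : ShH E F) (hf : f.Bij) : ann E = ann F :=
  le_antisymm (ann_of_surj f (fun p => (hf p).2)) (ann_of_inj f (fun p => (hf p).1))

theorem ann_pow (E : BS A A') (n : ℕ) : ann E ≤ ann (E.pow n) :=
  fun _ _ ha c' e => funext fun l => ha c' (e l)

theorem ann_eq_top {E : BS A A'} {m : Ch i} :
    ann E m = ⊤ ↔ ∀ c', Subsingleton (E.E (m, c')) := by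
  rw [Ideal.eq_top_iff_one]
  constructor
  · intro h c'
    refine ⟨fun x y => ?_⟩
    have h1 := h c' (x - y)
    rw [map_one, one_smul, sub_eq_zero] at h1
    exact h1
  · intro h c' e
    exact (h c').elim _ _

/-- The annihilators satisfy the ascending chain condition. -/
theorem ann_wf (hA : ∀ c, IsNoetherianRing (A.A c)) :
    WellFoundedGT (∀ m : Ch i, Ideal (A.A m)) := by
  have h1 : ∀ m : Ch i, WellFoundedLT (Ideal (A.A m))ᵒᵈ := by
    intro m
    have := hA m
    have h2 : WellFoundedGT (Ideal (A.A m)) := inferInstance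
    exact inferInstance
  have h3 : WellFoundedLT (∀ m : Ch i, (Ideal (A.A m))ᵒᵈ) := Pi.wellFoundedLT
  exact ⟨h3.1⟩

end

end Pool.Agent.MP_6e5bed_ag_GG
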