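import Pool.Agent.Lib.MP_6e5bed_ag_GG.CbT
import Pool.Agent.Lib.MP_6e5bed_ag_GG.IA

set_option autoImplicit false
set_option linter.unusedVariables false

/-!
# MP_6e5bed_ag, THEOREM G, (8.5): the cohomology bisheaves over the generic point

`LGD Ψ m c' Sg`: the morphism `Ψ` from a complex of bisheaves to a bisheaf factors, on the charts
`(m, c')`, into a localisation with respect to `Sg` and a quasi-isomorphism.
-/

noncomputable section

namespace Pool.Agent.MP_6e5bed_ag_GG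

open Pool.Agent.MP_6e5bed_ag_NC Pool.Agent.MP_6e5bed_ag_PN
open Pool.Agent.MP_6e5bed_ag_NS (Cx CHom ringH)
open scoped TensorProduct

universe u

variable {k : Type u} [Field k] {i j : Type} [Fintype i] [Fintype j] {A : CA k i} {A' : CA k j}

/-- A factorisation into a localisation and a quasi-isomorphism. -/
structure LGD {F : BPB A A'} {Z : BS A A'} (Ψ : BPH F Z.bp) (m : Ch i) (c' : Ch j)
    (Sg : Submonoid (RR k m.1)) where
  Y : Cx k
  f : CHom (bcx (F.F (m, c'))) Y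
  g : CHom Y (bcx (Z.bp.F (m, c')))
  comp : ∀ x, g.f (f.f x) = (Ψ.f (m, c')).f x
  τ : Sg → CHom Y Y
  loc : LocS f.f (fun s : Sg => (bactH (F.F (m, c')) (cl1 A A' (m, c') s)).f) (fun s => (τ s).f)
  gτ : ∀ (s : Sg) y, g.f ((τ s).f y) = (bactH (Z.bp.F (m, c')) (cl1 A A' (m, c') s)).f (g.f y)
  qi : Qi g

namespace LGD

variable {F : BPB A A'} {Z : BS A A'} {Ψ : BPH F Z.bp} {m : Ch i} {c' : Ch j}
  {Sg : Submonoid (RR k m.1)} (G : LGD Ψ m c' Sg) {hQ : F.QC}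

include G

/-- a cocycle which goes to zero is a boundary up to `Sg` -/
theorem key {x : (F.F (m, c')).M} (h2 : (F.F (m, c')).dg.d x = 0)
    (h : (Ψ.f (m, c')).f x = 0) : ∃ s ∈ Sg, ∃ z, (F.F (m, c')).dg.d z =
      bact (F.F (m, c')) (cl1 A A' (m, c') s) x := by
  have h3 : G.Y.dg.d (G.f.f x) = 0 := (G.f.d x).trans ((congrArg G.f.f h2).trans (map_zero _))
  obtain ⟨y, hy⟩ := G.qi.1 (G.f.f x) h3 ⟨0, by
    rw [map_zero, G.comp, h]
    rfl⟩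
  obtain ⟨s, z, hz⟩ := LocS.coh_inj (f := G.f)
    (σ := fun s : Sg => bactH (F.F (m, c')) (cl1 A A' (m, c') s)) (σ' := G.τ) G.loc hy
  exact ⟨s.1, s.2, z, hz⟩

/-- the cohomology of degree `n ≠ 0` is torsion -/
theorem tors {n : ℤ} (hn : n ≠ 0) (x : (F.H hQ n).E (m, c')) :
    ∃ s ∈ Sg, cl1 A A' (m, c') s • x = 0 := by
  obtain ⟨x, h1, h2, rfl⟩ := BPB.cl_surj x
  have h3 : (Ψ.f (m, c')).f x = 0 := by
    have h4 := (Ψ.f (m, c')).deg h1
    rw [add_zero] at h4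
    rcases Dg.conc_cases h4 with h5 | h5
    · exact absurd h5 hn
    · exact h5
  obtain ⟨s, hs, z, hz⟩ := G.key h2 h3
  refine ⟨s, hs, ?_⟩
  exact (BPB.cl_eq_zero (h1 := bact_deg _ _ h1) (h2 := by rw [bact_d, h2, map_zero])).2 ⟨z, hz⟩

/-- the kernel of `H⁰ → Z` is torsion -/
theorem ker (x : (F.H hQ 0).E (m, c')) (hx : (Ψ.toH0 hQ).f (m, c') x = 0) :
    ∃ s ∈ Sg, cl1 A A' (m, c') s • x = 0 := by
  obtain ⟨x, h1, h2, rfl⟩ := BPB.cl_surj x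
  obtain ⟨s, hs, z, hz⟩ := G.key h2 hx
  refine ⟨s, hs, ?_⟩
  exact (BPB.cl_eq_zero (h1 := bact_deg _ _ h1) (h2 := by rw [bact_d, h2, map_zero])).2 ⟨z, hz⟩

/-- `H⁰ → Z` is surjective up to `Sg` -/
theorem surj (z : Z.E (m, c')) :
    ∃ s ∈ Sg, ∃ x, (Ψ.toH0 hQ).f (m, c') x = cl1 A A' (m, c') s • z := by
  obtain ⟨y, hy, w, hw⟩ := G.qi.2 z rfl
  have h1 : z = G.g.f y := by
    have h2 : (0 : Z.E (m, c')) = z - (show Z.E (m, c') from G.g.f y) := hw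
    exact sub_eq_zero.1 h2.symm
  have h3 : G.g.f (G.Y.dg.ρ y 0) = z := by
    have h4 := ρ_hom G.g y 0
    rw [← h1] at h4
    refine h4.symm.trans ?_
    exact ρ_self (X := bcx (Z.bp.F (m, c'))) (x := z) (j := 0) (Dg.conc_deg z)
  obtain ⟨h5, h6⟩ := ρ_cocyc G.Y hy 0
  obtain ⟨s, x, hx1, hx2, hx3⟩ := LocS.coh_surj (f := G.f)
    (σ := fun s : Sg => bactH (F.F (m, c')) (cl1 A A' (m, c') s)) (σ' := G.τ) G.loc h5 h6
  refine ⟨s.1, s.2, F.cl hQ 0 x hx1 hx2, ?_⟩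
  rw [BPH.toH0_cl, ← G.comp, hx3, G.gτ, h3]
  exact Z.bact_bp _ z

end LGD

end Pool.Agent.MP_6e5bed_ag_GG
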