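import Pool.Agent.Lib.MP_6e5bed_ag_GG.GlA
import Pool.Agent.Lib.MP_6e5bed_ag_GG.IC

set_option autoImplicit false
set_option linter.unusedVariables false

/-!
# MP_6e5bed_ag, THEOREM G, (7.6): the gluing of the main step
-/

noncomputable section

namespace Pool.Agent.MP_6e5bed_ag_GG

open Pool.Agent.MP_6e5bed_ag_NC Pool.Agent.MP_6e5bed_ag_PN
open Pool.Agent.MP_6e5bed_ag_NS (Cx CHom ringH)
open scoped TensorProduct

universe u

variable {k : Type u} [Field k] {i j : Type} [Fintype i] [Fintype j] {A : CA k i} {A' : CA k j}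

/-- surjectivity up to a multiplicative set, for powers -/
theorem pow_surj {E Z : BS A A'} {m : Ch i} {c' : Ch j} (Sg : Submonoid (RR k m.1))
    (φ : ShH E Z) (h : ∀ z : Z.E (m, c'), ∃ f ∈ Sg, ∃ x, φ.f (m, c') x = cl1 A A' (m, c') f • z)
    (n : ℕ) (z : (Z.pow n).E (m, c')) :
    ∃ f ∈ Sg, ∃ x, (φ.pow n).f (m, c') x = cl1 A A' (m, c') f • z := by
  choose f hf x hx using fun l : Fin n => h (z l)
  refine ⟨∏ l, f l, Sg.prod_mem (fun l _ => hf l),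
    fun l : Fin n => cl1 A A' (m, c') (∏ l' ∈ Finset.univ.erase l, f l') • x l, ?_⟩
  refine funext fun l => ?_
  change φ.f (m, c') (cl1 A A' (m, c') (∏ l' ∈ Finset.univ.erase l, f l') • x l) =
    cl1 A A' (m, c') (∏ l, f l) • z l
  rw [map_smul, hx, ← mul_smul, ← cl1_mul, Finset.prod_erase_mul _ _ (Finset.mem_univ l)]

/-- THE GLUING. -/
theorem glueM {C : BS A A' → Prop} {V : Type*} [AddCommGroup V] [Module ℚ V] (hC : SCls C)
    (cl : AddFn C V) {E : BS A A'} {m : Ch i} (hE : C E) (hR : Red E m)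
    (ih : ∀ F : BS A A', C F → ann E < ann F → cl.cl F = 0)
    {F : BPB A A'} {hQ : F.QC} {Z Z' : BS A A'} {Ψ : BPH F Z.bp}
    (hCF : ∀ n, C (F.H hQ n)) (hann : ∀ n, ann E ≤ ann (F.H hQ n))
    (G : ∀ c' : Ch j, LGD Ψ m c' (sg E m hR.one hR.pr))
    (h53 : (∀ n, n ≠ 0 → cl.cl (F.H hQ n) = 0) → cl.cl (F.H hQ 0) = 0)
    {n : ℕ} (hn : 0 < n) (θ : ShH Z (Z'.pow n)) (hθ : θ.Bij) (φ : ShH E Z')
    (hi : ∀ (c' : Ch j) (x : E.E (m, c')), φ.f (m, c') x = 0 → x = 0)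
    (hs : ∀ (c' : Ch j) (z : Z'.E (m, c')), ∃ f ∈ sg E m hR.one hR.pr,
      ∃ x, φ.f (m, c') x = cl1 A A' (m, c') f • z) : cl.cl E = 0 := by
  have h0 : cl.cl (F.H hQ 0) = 0 := by
    refine h53 (fun n hn => ?_)
    refine cl_tors hC cl hR.one hR.pr ih (hCF n) (hann n) (fun c' x => ?_)
    obtain ⟨s, hs, h⟩ := (G c').tors hn x
    exact ⟨s, hs, h⟩
  have h1 : cl.cl (F.H hQ 0) = cl.cl (E.pow n) := by
    refine compare hC cl hR ih (hCF 0) (hC.pow E hE n) (hann 0) (ann_pow E n)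
      (θ.comp (Ψ.toH0 hQ)) (φ.pow n) ?_ ?_ ?_ ?_
    · intro c' x hx
      have h2 : (Ψ.toH0 hQ).f (m, c') x = 0 :=
        (hθ (m, c')).1 (Eq.trans hx (map_zero (θ.f (m, c'))).symm)
      obtain ⟨s, hs, h⟩ := (G c').ker x h2
      exact ⟨s, hs, h⟩
    · intro c' x hx
      refine ⟨1, (sg E m hR.one hR.pr).one_mem, ?_⟩
      rw [cl1_one, one_smul]
      exact funext fun l => hi c' (x l) (congrFun hx l)
    · intro c' z
      obtain ⟨z, rfl⟩ := (hθ (m, c')).2 z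
      obtain ⟨s, hs, x, hx⟩ := (G c').surj (hQ := hQ) z
      refine ⟨s, hs, x, ?_⟩
      rw [← map_smul, ← hx]
      rfl
    · intro c' z
      obtain ⟨f, hf, x, hx⟩ := pow_surj (sg E m hR.one hR.pr) φ (hs c') n z
      exact ⟨f, hf, x, hx⟩
  rw [h0, cl.pow hC hE n] at h1
  have h2 : (n : ℚ) • cl.cl E = 0 := by
    rw [Nat.cast_smul_eq_nsmul]
    exact h1.symm
  have h3 : ((n : ℚ)⁻¹) • ((n : ℚ) • cl.cl E) = 0 := by rw [h2, smul_zero]
  rwa [inv_smul_smul₀ (Nat.cast_ne_zero.2 hn.ne')] at h3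

end Pool.Agent.MP_6e5bed_ag_GG
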