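import Pool.Agent.Lib.MP_6e5bed_ag_GG.Defs

set_option autoImplicit false
set_option linter.unusedVariables false

/-!
# MP_6e5bed_ag, THEOREM G: X-data (section 8)

An X-datum is a projective variety `X` with a finite morphism to a product of projective lines (the
directions `D`) and a Segre type projective embedding with the coordinates `x_j`, `j ∈ i`. `M` is the
function field, `O b a` are the sections of `O(b)` on the chart `a` (the coordinates `x_j`, `j ∈ a`,
are invertible), as elements of `M`.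
-/

noncomputable section

namespace Pool.Agent.MP_6e5bed_ag_GG

universe u

/-- the homomorphism `x_j ↦ y_j` from the Laurent polynomials to a field -/
def evy {k : Type u} [Field k] {M : Type u} [Field M] [Algebra k M] {i : Type} [Fintype i]
    (y : i → Mˣ) : Lau k i →ₐ[k] M :=
  AddMonoidAlgebra.lift k M (i → ℤ)
    { toFun := fun e => ((∏ j, y j ^ (Multiplicative.toAdd e j) : Mˣ) : M)
      map_one' := by simp
      map_mul' := fun e e' => by
        rw [← Units.val_mul, ← Finset.prod_mul_distrib]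
        congr 1
        refine Finset.prod_congr rfl fun j _ => ?_
        rw [← zpow_add]
        rfl }

/-- X-data. -/
structure XD (k : Type u) [Field k] where
  /-- the coordinates -/
  i : Type
  [fi : Fintype i]
  [di : DecidableEq i]
  /-- the directions -/
  D : Type
  [fD : Fintype D]
  [dD : DecidableEq D]
  /-- the function field -/
  M : Type u
  [fld : Field M]
  [alg : Algebra k M]
  /-- the coordinates as elements of `M` (up to a common factor) -/
  y : i → Mˣ
  /-- the sections of `O(b)` on the chart `a` (on all of `X` if `a` is empty) -/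
  O : (D → ℤ) → Set i → Submodule k M
  /-- the coordinates of the projective lines -/
  s : D → Mˣ
  ne : Nonempty i
  mono : ∀ (b : D → ℤ) {a a' : Set i}, a ⊆ a' → O b a ≤ O b a'
  one_mem : ∀ a : Set i, (1 : M) ∈ O 0 a
  mul_mem : ∀ {a : Set i} {b b' : D → ℤ} {u v : M}, u ∈ O b a → v ∈ O b' a → u * v ∈ O (b + b') a
  one_mem' : ∀ r : D, (1 : M) ∈ O (Pi.single r 1) ∅
  s_mem : ∀ r : D, (s r : M) ∈ O (Pi.single r 1) ∅
  /-- on a chart `1` or `s r` is a unit of `O(e_r)` -/
  step : ∀ (r : D) {a : Set i}, a.Nonempty →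
    (∀ b, O (b + Pi.single r 1) a = O b a) ∨
    (∀ b u, u ∈ O (b + Pi.single r 1) a ↔ ((s r)⁻¹ : Mˣ) * u ∈ O b a)
  /-- every element of `M` is a quotient of two sections -/
  frac : ∀ u : M, ∃ (b : D → ℤ) (σ σ' : M), σ ∈ O b ∅ ∧ σ' ∈ O b ∅ ∧ σ ≠ 0 ∧ u = σ' / σ
  R_mem : ∀ (a : Set i) (r : Lau k i), r ∈ RR k a → evy y r ∈ O 0 a
  loc : ∀ {a d : Set i} {j l : i}, a ⊆ d → d ⊆ insert j a → l ∈ a → ∀ (b : D → ℤ) (u : M),
    u ∈ O b d → ∃ n : ℕ, ((y j / y l : Mˣ) : M) ^ n * u ∈ O b a
  /-- finitely generated over `R_a` -/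
  fg : ∀ (b : D → ℤ) {a : Set i}, a.Nonempty → ∃ S : Finset M, (∀ w ∈ S, w ∈ O b a) ∧
    ∀ u ∈ O b a, u ∈ Submodule.span k {z : M | ∃ r ∈ RR k a, ∃ w ∈ S, z = evy y r * w}

attribute [instance] XD.fi XD.di XD.fD XD.dD XD.fld XD.alg XD.ne

namespace XD

variable {k : Type u} [Field k] (X : XD k)

/-- the index set of the twists `O(e)`, `e ∈ {0, 1}^D` -/
abbrev II : Type := X.D → Bool

/-- the twist -/
def tw (e : X.II) : X.D → ℤ := fun r => if e r then 1 else 0

variable {X}

/-- PROOF. `AddMonoidAlgebra.lift_single`, the product has two factors. -/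
theorem evy_tt {a : Set X.i} (j : X.i) {l : X.i} (hl : l ∈ a) :
    evy X.y (tt k j hl : Lau k X.i) = ((X.y j / X.y l : X.Mˣ) : X.M) := by
  classical
  have h1 : evy X.y (tt k j hl : Lau k X.i) =
      ((∏ m, X.y m ^ (ex j l m) : X.Mˣ) : X.M) := by
    change evy X.y (AddMonoidAlgebra.single (ex j l) 1) = _
    unfold evy
    rw [AddMonoidAlgebra.lift_single, one_smul]
    rfl
  rw [h1]
  congr 1
  have h2 : ∀ m, X.y m ^ (ex j l m) = X.y m ^ ((Pi.single j (1 : ℤ) : X.i → ℤ) m) *
      (X.y m ^ ((Pi.single l (1 : ℤ) : X.i → ℤ) m))⁻¹ := fun m => by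
    have h3 : ex j l m =
        (Pi.single j (1 : ℤ) : X.i → ℤ) m + -(Pi.single l (1 : ℤ) : X.i → ℤ) m := by
      unfold ex
      rw [Pi.sub_apply, sub_eq_add_neg]
      congr 2
      congr
    rw [h3, zpow_add, zpow_neg]
  rw [Finset.prod_congr rfl fun m _ => h2 m, Finset.prod_mul_distrib, Finset.prod_inv_distrib]
  have h4 : ∀ j : X.i, ∏ m, X.y m ^ ((Pi.single j (1 : ℤ) : X.i → ℤ) m) = X.y j := fun j => by
    rw [Finset.prod_eq_single j]
    · rw [Pi.single_eq_same, zpow_one]
    · intro m _ hm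
      rw [Pi.single_eq_of_ne hm, zpow_zero]
    · intro h
      exact absurd (Finset.mem_univ j) h
  rw [h4, h4, div_eq_mul_inv]

/-- the quotient of two coordinates is a function on the charts where the denominator is invertible -/
theorem t_mem {a : Set X.i} (j : X.i) {l : X.i} (hl : l ∈ a) :
    ((X.y j / X.y l : X.Mˣ) : X.M) ∈ X.O 0 a := by
  rw [← evy_tt j hl]
  exact X.R_mem a _ (tt k j hl).2

theorem mul_mem0 {a : Set X.i} {b : X.D → ℤ} {u v : X.M} (hu : u ∈ X.O 0 a) (hv : v ∈ X.O b a) :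
    u * v ∈ X.O b a := by
  have h := X.mul_mem hu hv
  rwa [zero_add] at h

theorem pow_mem0 {a : Set X.i} {u : X.M} (hu : u ∈ X.O 0 a) (n : ℕ) : u ^ n ∈ X.O 0 a := by
  induction n with
  | zero => rw [pow_zero]; exact X.one_mem a
  | succ n ih => rw [pow_succ]; exact mul_mem0 ih hu

theorem tpow_mem {a : Set X.i} {j l : X.i} (hl : l ∈ a) {b : X.D → ℤ} {u : X.M} {n n' : ℕ}
    (h : n ≤ n') (hu : ((X.y j / X.y l : X.Mˣ) : X.M) ^ n * u ∈ X.O b a) :
    ((X.y j / X.y l : X.Mˣ) : X.M) ^ n' * u ∈ X.O b a := by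
  obtain ⟨m, rfl⟩ := Nat.exists_eq_add_of_le h
  rw [add_comm, pow_add, mul_assoc]
  exact mul_mem0 (pow_mem0 (t_mem j hl) m) hu

variable (X)

/-- the endomorphisms of `⨁ O(e)`, `e ∈ {0, 1}^D`, on the chart `a`: the matrices `f` over `M` with
`f e e' ∈ O(e - e')` -/
def AXs (a : Set X.i) : Subalgebra k (Matrix X.II X.II X.M) where
  carrier := {f | ∀ e e', f e e' ∈ X.O (X.tw e - X.tw e') a}
  mul_mem' := fun {f g} hf hg e e' => by
    rw [Matrix.mul_apply]
    refine Submodule.sum_mem _ fun q _ => ?_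
    have h := X.mul_mem (hf e q) (hg q e')
    rwa [sub_add_sub_cancel] at h
  add_mem' := fun {f g} hf hg e e' => Submodule.add_mem _ (hf e e') (hg e e')
  algebraMap_mem' := fun c e e' => by
    rw [Matrix.algebraMap_matrix_apply]
    split_ifs with h
    · subst h
      rw [sub_self, Algebra.algebraMap_eq_smul_one]
      exact Submodule.smul_mem _ _ (X.one_mem a)
    · exact Submodule.zero_mem _

theorem mem_AXs {a : Set X.i} {f : Matrix X.II X.II X.M} :
    f ∈ X.AXs a ↔ ∀ e e', f e e' ∈ X.O (X.tw e - X.tw e') a := Iff.rfl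

theorem AXs_mono {a a' : Set X.i} (h : a ⊆ a') : X.AXs a ≤ X.AXs a' :=
  fun _ hf e e' => X.mono _ h (hf e e')

/-- functions as scalar matrices -/
def RAX (a : Set X.i) : RR k a →+* X.AXs a where
  toFun := fun r => ⟨Matrix.scalar X.II (evy X.y (r : Lau k X.i)), fun e e' => by
    rw [Matrix.scalar_apply, Matrix.diagonal_apply]
    split_ifs with h
    · subst h
      rw [sub_self]
      exact X.R_mem a _ r.2
    · exact Submodule.zero_mem _⟩
  map_one' := Subtype.ext (by
    change Matrix.scalar X.II (evy X.y ((1 : RR k a) : Lau k X.i)) = 1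
    rw [OneMemClass.coe_one, map_one, map_one])
  map_mul' := fun r r' => Subtype.ext (by
    change Matrix.scalar X.II (evy X.y ((r * r' : RR k a) : Lau k X.i)) = _
    rw [MulMemClass.coe_mul, map_mul, map_mul]
    rfl)
  map_zero' := Subtype.ext (by
    change Matrix.scalar X.II (evy X.y ((0 : RR k a) : Lau k X.i)) = 0
    rw [ZeroMemClass.coe_zero, map_zero, map_zero])
  map_add' := fun r r' => Subtype.ext (by
    change Matrix.scalar X.II (evy X.y ((r + r' : RR k a) : Lau k X.i)) = _
    rw [AddMemClass.coe_add, map_add, map_add]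
    rfl)

theorem RAX_coe (a : Set X.i) (r : RR k a) :
    (X.RAX a r : Matrix X.II X.II X.M) = Matrix.scalar X.II (evy X.y (r : Lau k X.i)) := rfl

instance algR (a : Set X.i) : Algebra (RR k a) (X.AXs a) :=
  (X.RAX a).toAlgebra' fun r f => Subtype.ext (by
    change Matrix.scalar X.II (evy X.y (r : Lau k X.i)) * (f : Matrix X.II X.II X.M) =
      (f : Matrix X.II X.II X.M) * Matrix.scalar X.II (evy X.y (r : Lau k X.i))
    exact (Matrix.scalar_commute _ (fun _ => Commute.all _ _) _).eq)

theorem algR_smul (a : Set X.i) (r : RR k a) (f : X.AXs a) (e e' : X.II) :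
    ((r • f : X.AXs a) : Matrix X.II X.II X.M) e e' =
      evy X.y (r : Lau k X.i) * (f : Matrix X.II X.II X.M) e e' := by
  change (Matrix.scalar X.II (evy X.y (r : Lau k X.i)) * (f : Matrix X.II X.II X.M)) e e' = _
  rw [Matrix.scalar_apply, Matrix.diagonal_mul]

instance towR (a : Set X.i) : IsScalarTower k (RR k a) (X.AXs a) where
  smul_assoc := fun c r f => by
    refine Subtype.ext (Matrix.ext fun e e' => ?_)
    rw [algR_smul]
    change evy X.y ((c • r : RR k a) : Lau k X.i) * (f : Matrix X.II X.II X.M) e e' =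
      c • ((r • f : X.AXs a) : Matrix X.II X.II X.M) e e'
    rw [algR_smul, SetLike.val_smul, map_smul, smul_mul_assoc]

end XD

end Pool.Agent.MP_6e5bed_ag_GG
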