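import Pool.Agent.Lib.MP_6e5bed_ag_GG.GE
import Pool.Agent.Lib.MP_6e5bed_ag_GG.TFa
import Pool.Agent.Lib.MP_6e5bed_ag_GG.Xd
import Pool.Agent.Lib.MP_6e5bed_ag_GG.Asm

set_option autoImplicit false
set_option linter.unusedSectionVars false
set_option linter.unusedVariables false

/-!
# MP_6e5bed_ag, THEOREM G: the X-datum of generic data
-/

noncomputable section

namespace Pool.Agent.MP_6e5bed_ag_GG

universe u

/-- From the condition on the centres to X-data, for a property `G` of X-data such that the fields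
`N` with `IsPF k N` are function fields of X-data with `G`. -/
theorem exists_XD_of {k : Type u} [Field k] [IsAlgClosed k] {i : Type} [Fintype i]
    (G : XD k → Prop)
    (cell : ∀ (Ω : Type u) [Field Ω] [Algebra k Ω] (N : IntermediateField k Ω), IsPF k N →
      ∃ X : XD k, G X ∧ Nonempty (X.M ≃ₐ[k] N))
    {A : CA k i} (h : HC A) {m : Ch i} (g : GD A m) :
    ∃ (L : Type u) (_ : Field L) (_ : Algebra k L) (_ : Algebra L g.S)
      (_ : IsScalarTower k L g.S) (X : XD k) (_ : Algebra L X.M) (_ : IsScalarTower k L X.M),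
      Algebra.IsCentral L g.S ∧ Module.Finite L g.S ∧ Module.Finite L X.M ∧ G X := by
  obtain ⟨L, _, _, _, _, hcen, hfin, hess, hP⟩ := g.exists_L
  have hin : MP_6e5bed_ag_Pn.InProd (algebraMap k L) :=
    hP (fun Z _ _ => MP_6e5bed_ag_Pn.InProd (algebraMap k Z)) (h m g)
  obtain ⟨Ω, _, _, N, ψ, hN, -, -, hfinN⟩ := exists_isPF L hin
  obtain ⟨X, hX, ⟨e⟩⟩ := cell Ω N hN
  let φ : L →ₐ[k] X.M := (e.symm : N →ₐ[k] X.M).comp ψ
  let aL : Algebra L X.M := φ.toRingHom.toAlgebra
  have htow : IsScalarTower k L X.M := IsScalarTower.of_algebraMap_eq fun x => (φ.commutes x).symm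
  refine ⟨L, inferInstance, inferInstance, inferInstance, inferInstance, X, aL, htow, hcen, hfin,
    ?_, hX⟩
  let aN : Algebra L N := ψ.toRingHom.toAlgebra
  have h1 : Module.Finite L N := hfinN
  let f : N →ₗ[L] X.M :=
    { toFun := e.symm
      map_add' := map_add e.symm
      map_smul' := fun c x => by
        change e.symm (ψ c * x) = e.symm (ψ c) * e.symm x
        rw [map_mul] }
  exact Module.Finite.of_surjective f e.symm.surjective

end Pool.Agent.MP_6e5bed_ag_GG
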