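import Pool.Agent.Lib.MP_6e5bed_ag_GG.BB
import Pool.Agent.Lib.MP_6e5bed_ag_PS.DistTb

set_option autoImplicit false
set_option linter.unusedVariables false

/-!
# MP_6e5bed_ag, THEOREM G, LOC (8.5): presheaves of rows, the cup product with a presheaf of columns

`N` is a presheaf of left modules (columns), `RO N` are the presheaves of right modules (rows) with a
balanced pairing with `N` with values in a presheaf of complexes. For a bimodule `Zt` with a map `ζ`
to the Čech bimodule of `N` the cup product is the map `R.phi`.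
-/

noncomputable section

namespace Pool.Agent.MP_6e5bed_ag_GG

open Pool.Agent.MP_6e5bed_ag_NC Pool.Agent.MP_6e5bed_ag_PN
open Pool.Agent.MP_6e5bed_ag_NS (Cx CHom CPr co CEx)
open Pool.Agent.MP_6e5bed_ag_PS (Dist gc gc_qi tbR_dd qi_of_sum qi_retract dist_right dist_left)
open scoped TensorProduct

universe u

variable {k : Type u} [Field k]

section pairing

variable {A B C : DGA k}

/-- A balanced pairing gives a morphism from the complex of the tensor product. -/
def tpr (M : Bim A B) (N : Bim B C) {V : Cx k} (m : M.M →ₗ[k] N.M →ₗ[k] V.V)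
    (hb : ∀ x b y, m (M.r b x) y = m x (N.l b y))
    (hdeg : ∀ {i j : ℤ} {x : M.M} {y : N.M}, M.dg.IsDeg i x → N.dg.IsDeg j y →
      V.dg.IsDeg (i + j) (m x y))
    (hd : ∀ x y, V.dg.d (m x y) = m (M.dg.d x) y + m (M.dg.s x) (N.dg.d y)) :
    CHom (bcx (tb M N)) V where
  f := tlift m hb
  deg := fun {i x} hx => by
    have h := tb_degMap (M := M) (N := N) (Z := V.dg) (n := 0) (tlift m hb)
      (fun {i j v w} hv hw => by
        rw [add_zero, tlift_tm]
        exact hdeg hv hw) hx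
    rwa [add_zero] at h
  d := fun x => by
    have h : V.dg.d.comp (tlift m hb) = (tlift m hb).comp (tb M N).dg.d := by
      refine tb_hom_ext (M := M) (N := N) (fun x y => ?_)
      rw [LinearMap.comp_apply, LinearMap.comp_apply, tlift_tm, tb_d, map_add, tlift_tm,
        tlift_tm, hd]
    exact LinearMap.congr_fun h x

theorem tpr_tm (M : Bim A B) (N : Bim B C) {V : Cx k} (m : M.M →ₗ[k] N.M →ₗ[k] V.V)
    (hb : ∀ x b y, m (M.r b x) y = m x (N.l b y))
    (hdeg : ∀ {i j : ℤ} {x : M.M} {y : N.M}, M.dg.IsDeg i x → N.dg.IsDeg j y →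
      V.dg.IsDeg (i + j) (m x y))
    (hd : ∀ x y, V.dg.d (m x y) = m (M.dg.d x) y + m (M.dg.s x) (N.dg.d y)) (x : M.M) (y : N.M) :
    (tpr M N m hb hdeg hd).f (tm x y) = m x y := tlift_tm m hb x y

/-- Tensor products with `Z` preserve acyclic right modules. -/
def LFlat {W B : DGA k} (Z : Bim W B) : Prop :=
  ∀ X : Bim (base k) W, Acyc X → Acyc (tb X Z)

end pairing

variable {ι : Type} {A : PA k ι}

/-- A presheaf of right modules with a balanced pairing with `N`. -/
structure RO (N : PB A (PA.con ι (base k))) where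
  R : PB (PA.con ι (base k)) A
  Z : PC k ι
  p : PP R.pc N.pc Z
  bal : ∀ (c : Ch ι) (x : (R.M c).M) (a : (A.A c).A) (y : (N.M c).M),
    (p.p c).m ((R.M c).r a x) y = (p.p c).m x ((N.M c).l a y)

variable {N : PB A (PA.con ι (base k))}

/-- Morphisms. -/
structure ROH (R S : RO N) where
  f : PBH R.R S.R
  g : PCH R.Z S.Z
  nat : ∀ (c : Ch ι) x y, (g.f c).f ((R.p.p c).m x y) = (S.p.p c).m ((f.f c).f x) y

namespace RO

variable {L : List ι} {c : FS ι} {Zt : Bim (cA A L c) (base k)} (ζ : GMap 0 Zt (cBR N L c))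
  (hζ : ζ.dd = 0)

/-- the cup product `x, z ↦ x ∪ ζ z` -/
def phm (R : RO N) : (cBL R.R L c).M →ₗ[k] Zt.M →ₗ[k] ((cC R.Z L).X c).V :=
  LinearMap.compl₂ (M := (cBL R.R L c).M) (N := (cBR N L c).M) (Q := Zt.M)
    (P := ((cC R.Z L).X c).V) ((cP R.p L).q c).m ζ.f

theorem phm_apply (R : RO N) (x : (cBL R.R L c).M) (z : Zt.M) :
    R.phm ζ x z = ((cP R.p L).q c).m x (ζ.f z) := rfl

theorem phm_bal (R : RO N) (x : (cBL R.R L c).M) (a : (cA A L c).A) (z : Zt.M) :
    R.phm ζ ((cBL R.R L c).r a x) z = R.phm ζ x (Zt.l a z) := by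
  rw [phm_apply, phm_apply, ζ.map_l, Dg.sp_zero]
  exact cP_assoc R.R.pr R.p N.pl R.p R.bal L c x a (ζ.f z)

/-- The cup product `x ⊗ z ↦ x ∪ ζ z`. -/
def phi (R : RO N) : CHom (bcx (tb (cBL R.R L c) Zt)) ((cC R.Z L).X c) :=
  tpr (cBL R.R L c) Zt (R.phm ζ) (R.phm_bal ζ)
    (fun {i j x z} hx hz => by
      have hw' := ζ.deg hz
      rw [add_zero] at hw'
      exact ((cP R.p L).q c).deg hx hw')
    (fun x z => by
      rw [phm_apply, phm_apply, phm_apply, ← GMap.d_f_zero hζ]
      exact ((cP R.p L).q c).d x (ζ.f z))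

theorem phi_tm (R : RO N) (x : (cBL R.R L c).M) (z : Zt.M) :
    (R.phi ζ hζ).f (tm (M := cBL R.R L c) (N := Zt) x z) = ((cP R.p L).q c).m x (ζ.f z) :=
  tlift_tm (M := cBL R.R L c) (N := Zt) (R.phm ζ) (R.phm_bal ζ) x z

theorem phi_nat {R S : RO N} (F : ROH R S) (x : (tb (cBL R.R L c) Zt).M) :
    (S.phi ζ hζ).f (((F.f.gmapL L c).tbR Zt).f x) =
      ((cH F.g L).g c).f ((R.phi ζ hζ).f x) := by
  revert x
  refine tb_ind (M := cBL R.R L c) (N := Zt) ?_ ?_ ?_
  · rw [map_zero]
    exact (map_zero (S.phi ζ hζ).f).trans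
      ((congrArg _ (map_zero (R.phi ζ hζ).f)).trans (map_zero _)).symm
  · intro x y hx hy
    rw [map_add]
    refine (map_add (S.phi ζ hζ).f _ _).trans ?_
    rw [hx, hy]
    exact ((congrArg _ (map_add (R.phi ζ hζ).f x y)).trans (map_add _ _ _)).symm
  · intro x z
    rw [GMap.tbR_tm]
    refine (S.phi_tm ζ hζ _ z).trans ?_
    rw [phi_tm]
    refine Eq.trans ?_ (cH_mul (p := R.p) (q := S.p) F.f.pch (PCH.id _) F.g
      (fun c x y => F.nat c x y) L c x (ζ.f z)).symm
    rw [cH_id]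
    rfl

/-- The cup product is a quasi-isomorphism. -/
def Good (R : RO N) : Prop := (R.phi ζ hζ).QI

end RO

end Pool.Agent.MP_6e5bed_ag_GG
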