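import Pool.Agent.Lib.MP_6e5bed_ag_PN.QiB

set_option autoImplicit false
set_option linter.unusedVariables false

/-!
# MP_6e5bed_ag, THEOREM G, LOC: directed unions and Čech complexes
-/

noncomputable section

namespace Pool.Agent.MP_6e5bed_ag_GG

open Pool.Agent.MP_6e5bed_ag_NC Pool.Agent.MP_6e5bed_ag_NS Pool.Agent.MP_6e5bed_ag_PN

universe u v

variable {k : Type u} [Field k] {ι : Type}

private theorem LCc_tr {V V' V'' : PC k ι} {g : PCH V V''} {g' : PCH V' V''} {t : PCH V V'}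
    (h : ∀ c x, (g'.f c).f ((t.f c).f x) = (g.f c).f x) (L : List ι) (c : FS ι)
    (y : ((cC V L).X c).V) :
    ((cH g' L).g c).f (((cH t L).g c).f y) = ((cH g L).g c).f y := by
  rw [← cH_comp]
  exact cH_ext h L c y

/-- Elements of the Čech complex of a directed union come from a finite stage.

PROOF. Induction on `L`: `L = []`: every element is `PUnit.unit`, take any `s`. `L = l :: L'`:
`x = ((x0, x1), ξ)`; `x0`, `ξ` come from `s0`, `s2` by induction, `x1` from `s1` by `cov`; by `dir`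
(twice) there is an `s` with maps from `s0`, `s1`, `s2`; transport the three elements by the maps
`t` (`((cH t L').g c).f`, `(t.f (c.ins l)).f`); the image in the Čech complex of `V'` does not change:
`cH_comp` and `cH_ext` (`Lib/MP_6e5bed_ag_PN/WA.lean`) with the hypothesis on `t`. -/
theorem cC_lift {S : Type v} [Nonempty S] {V : S → PC k ι} {V' : PC k ι} (g : ∀ s, PCH (V s) V')
    (dir : ∀ s s', ∃ s'', (∃ t : PCH (V s) (V s''), ∀ c x,
      ((g s'').f c).f ((t.f c).f x) = ((g s).f c).f x) ∧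
      ∃ t : PCH (V s') (V s''), ∀ c x, ((g s'').f c).f ((t.f c).f x) = ((g s').f c).f x)
    (cov : ∀ c x, ∃ s, ∃ y, ((g s).f c).f y = x) :
    ∀ (L : List ι) (c : FS ι) (x : ((cC V' L).X c).V), ∃ s, ∃ y, ((cH (g s) L).g c).f y = x := by
  intro L
  induction L with
  | nil =>
    intro c x
    obtain ⟨s⟩ := (inferInstance : Nonempty S)
    exact ⟨s, PUnit.unit, rfl⟩
  | cons l L ih =>
    intro c x
    obtain ⟨⟨x0, x1⟩, ξ⟩ := x
    obtain ⟨s0, y0, h0⟩ := ih c x0
    obtain ⟨s1, y1, h1⟩ := cov (c.ins l) x1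
    obtain ⟨s2, y2, h2⟩ := ih (c.ins l).fs ξ
    obtain ⟨s3, ⟨t0, e0⟩, ⟨t1, e1⟩⟩ := dir s0 s1
    obtain ⟨s4, ⟨t3, e3⟩, ⟨t2, e2⟩⟩ := dir s3 s2
    refine ⟨s4, ((((cH t3 L).g c).f (((cH t0 L).g c).f y0),
      (t3.f (c.ins l)).f ((t1.f (c.ins l)).f y1)), ((cH t2 L).g (c.ins l).fs).f y2), ?_⟩
    refine Prod.ext (Prod.ext ?_ ?_) ?_
    · exact ((LCc_tr e3 L c _).trans (LCc_tr e0 L c _)).trans h0
    · exact ((e3 _ _).trans (e1 _ _)).trans h1
    · exact (LCc_tr e2 L _ _).trans h2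

end Pool.Agent.MP_6e5bed_ag_GG
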