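import Pool.Agent.Lib.MP_6e5bed_ag_NC.FTb

set_option autoImplicit false
set_option linter.unusedVariables false

/-!
# MP_6e5bed_ag, THEOREM G, LOC: directed unions and tensor products over a dg algebra
-/

noncomputable section

namespace Pool.Agent.MP_6e5bed_ag_GG

open Pool.Agent.MP_6e5bed_ag_NC
open scoped TensorProduct

universe u

variable {k : Type u} [Field k] {A W B : DGA k}

/-- A bimodule `T` as directed union of bimodules `M s`: `Tr s s' t` means that `t` is one of the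
transition maps. -/
structure BDir {S : Type u} (M : S → Bim A W) (T : Bim A W) (g : ∀ s, GMap 0 (M s) T)
    (Tr : ∀ s s', GMap 0 (M s) (M s') → Prop) : Prop where
  ne : Nonempty S
  inj : ∀ s, Function.Injective (g s).f
  tr : ∀ {s s'} {t : GMap 0 (M s) (M s')}, Tr s s' t → ∀ x, (g s').f (t.f x) = (g s).f x
  dir : ∀ s s', ∃ s'', (∃ t, Tr s s'' t) ∧ ∃ t, Tr s' s'' t
  cov : ∀ x, ∃ s, ∃ y, (g s).f y = x

variable {S : Type u} {M : S → Bim A W} {T : Bim A W} {g : ∀ s, GMap 0 (M s) T}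
  {Tr : ∀ s s', GMap 0 (M s) (M s') → Prop}

private theorem LCl_comp {X Y Z : Bim A W} (t : GMap 0 X Y) (p : GMap 0 Y Z) (q : GMap 0 X Z)
    (h : ∀ x, p.f (t.f x) = q.f x) (N : Bim W B) (x : (tb X N).M) :
    (p.tbR N).f ((t.tbR N).f x) = (q.tbR N).f x := by
  have h1 : (p.tbR N).f ∘ₗ (t.tbR N).f = (q.tbR N).f := by
    refine tb_hom_ext (M := X) (N := N) fun m n => ?_
    rw [LinearMap.comp_apply, GMap.tbR_tm, GMap.tbR_tm, GMap.tbR_tm, h]
  exact LinearMap.congr_fun h1 x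

private theorem LCl_rT {X Y Z : Bim A W} (t : GMap 0 X Y) (p : GMap 0 Y Z) (q : GMap 0 X Z)
    (h : ∀ x, p.f (t.f x) = q.f x) (Q : Type u) [AddCommGroup Q] [Module k Q] (x : X.M ⊗[k] Q) :
    LinearMap.rTensor Q p.f (LinearMap.rTensor Q t.f x) = LinearMap.rTensor Q q.f x := by
  have h1 : p.f ∘ₗ t.f = q.f := LinearMap.ext h
  rw [← LinearMap.comp_apply, ← LinearMap.rTensor_comp, h1]

private theorem LCl_rel {X Y : Bim A W} (φ : GMap 0 X Y) (N : Bim W B)
    (e : X.M ⊗[k] (W.A ⊗[k] N.M)) : LinearMap.rTensor N.M φ.f (relMap X N e) =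
      relMap Y N (LinearMap.rTensor (W.A ⊗[k] N.M) φ.f e) := by
  induction e using TensorProduct.induction_on with
  | zero => simp only [map_zero]
  | add x y hx hy => simp only [map_add, hx, hy]
  | tmul y z =>
    induction z using TensorProduct.induction_on with
    | zero => simp only [TensorProduct.tmul_zero, map_zero]
    | add x y hx hy => simp only [TensorProduct.tmul_add, map_add, hx, hy]
    | tmul w q => rw [LinearMap.rTensor_tmul, relMap_tmul, relMap_tmul, map_sub,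
        LinearMap.rTensor_tmul, LinearMap.rTensor_tmul, φ.map_r]

private theorem LCl_mk (X : Bim A W) (N : Bim W B) (x : X.M ⊗[k] N.M) :
    (rel X N).mkQ x = 0 ↔ ∃ e, relMap X N e = x := by
  rw [Submodule.mkQ_apply, Submodule.Quotient.mk_eq_zero]
  rfl

private theorem LCl_all {X Y : Bim A W} (φ : GMap 0 X Y) (N : Bim W B) (x : X.M ⊗[k] N.M) :
    (φ.tbR N).f ((rel X N).mkQ x) = (rel Y N).mkQ (LinearMap.rTensor N.M φ.f x) := by
  induction x using TensorProduct.induction_on with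
  | zero =>
    rw [map_zero, map_zero, map_zero]
    exact map_zero (φ.tbR N).f
  | add x y hx hy =>
    rw [map_add, map_add, map_add, ← hx, ← hy]
    exact map_add (φ.tbR N).f _ _
  | tmul y q =>
    rw [LinearMap.rTensor_tmul]
    exact GMap.tbR_tm φ N y q

private theorem LCl_stage (h : BDir M T g Tr) (Q : Type u) [AddCommGroup Q] [Module k Q]
    (x : T.M ⊗[k] Q) : ∃ s, ∃ y, LinearMap.rTensor Q (g s).f y = x := by
  induction x using TensorProduct.induction_on with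
  | zero =>
    obtain ⟨s0⟩ := h.ne
    exact ⟨s0, 0, map_zero _⟩
  | tmul v q =>
    obtain ⟨s, y, hy⟩ := h.cov v
    exact ⟨s, y ⊗ₜ q, by rw [LinearMap.rTensor_tmul, hy]⟩
  | add x y hx hy =>
    obtain ⟨s, a, ha⟩ := hx
    obtain ⟨s', b, hb⟩ := hy
    obtain ⟨s'', ⟨t, ht⟩, t', ht'⟩ := h.dir s s'
    refine ⟨s'', LinearMap.rTensor Q t.f a + LinearMap.rTensor Q t'.f b, ?_⟩
    rw [map_add, LCl_rT t (g s'') (g s) (h.tr ht) Q a, LCl_rT t' (g s'') (g s') (h.tr ht') Q b,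
      ha, hb]

private theorem LCl_main (h : BDir M T g Tr) (N : Bim W B) {s : S} (x : (tb (M s) N).M)
    (hx : ((g s).tbR N).f x = 0) :
    ∃ s', ∃ t : GMap 0 (M s) (M s'), Tr s s' t ∧ (t.tbR N).f x = 0 := by
  obtain ⟨ξ, hξ⟩ := (rel (M s) N).mkQ_surjective x
  have h1 : (rel T N).mkQ (LinearMap.rTensor N.M (g s).f ξ) = 0 := by
    rw [← LCl_all (g s) N ξ, hξ]
    exact hx
  obtain ⟨ρ, hρ⟩ := (LCl_mk T N _).1 h1
  obtain ⟨s₁, ρ', hρ'⟩ := LCl_stage h (W.A ⊗[k] N.M) ρ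
  obtain ⟨s', ⟨t, ht⟩, t', ht'⟩ := h.dir s s₁
  refine ⟨s', t, ht, ?_⟩
  have h2 : (rel (M s') N).mkQ (LinearMap.rTensor N.M t.f ξ) = 0 := by
    refine (LCl_mk (M s') N _).2 ⟨LinearMap.rTensor (W.A ⊗[k] N.M) t'.f ρ', ?_⟩
    apply Module.Flat.rTensor_preserves_injective_linearMap (M := N.M) (g s').f (h.inj s')
    rw [LCl_rel, LCl_rT t' (g s') (g s₁) (h.tr ht'), hρ', hρ, LCl_rT t (g s') (g s) (h.tr ht)]
  rw [← hξ]
  exact (LCl_all t N ξ).trans h2

/-- Every element of `T ⊗ N` comes from a finite stage.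

PROOF. `tb_ind`: zero: any `s`; sum: if `x` comes from `s` and `y` from `s'`, use `dir` (and `tr`,
`GMap.tbR_tm`, the transition map followed by the map to `T` is the map to `T`, also after `tbR`:
`tb_ind` or `tb_hom_ext`); `tm m n`: `cov`. -/
theorem BDir.lift (h : BDir M T g Tr) (N : Bim W B) (x : (tb T N).M) :
    ∃ s, ∃ y, ((g s).tbR N).f y = x := by
  obtain ⟨s0⟩ := h.ne
  revert x
  refine tb_ind (M := T) (N := N) ⟨s0, 0, map_zero _⟩ ?_ ?_
  · rintro x y ⟨s, a, ha⟩ ⟨s', b, hb⟩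
    obtain ⟨s'', ⟨t, ht⟩, t', ht'⟩ := h.dir s s'
    refine ⟨s'', (t.tbR N).f a + (t'.tbR N).f b, ?_⟩
    rw [map_add, LCl_comp t (g s'') (g s) (h.tr ht) N a,
      LCl_comp t' (g s'') (g s') (h.tr ht') N b, ha, hb]
  · intro m n
    obtain ⟨s, y, hy⟩ := h.cov m
    exact ⟨s, tm (M := M s) (N := N) y n, by rw [GMap.tbR_tm, hy]⟩

/-- Every relation comes from a finite stage.

PROOF. Let `x = mkQ ξ`, `ξ ∈ (M s).M ⊗ N.M` (`Submodule.mkQ_surjective`, `tb` is by definition the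
quotient by `rel (M s) N = range (relMap (M s) N)`; `((g s).tbR N).f (mkQ ξ) = mkQ (rTensor (g s) ξ)`, by
`TensorProduct.induction_on` and `GMap.tbR_tm`; compare `LocP.tbR` in
`Lib/MP_6e5bed_ag_GG/TLoc.lean`: `hall`, `hmk`, `hc`). The image of `ξ` in `T.M ⊗ N.M` is
`relMap T N ρ`, `ρ ∈ T.M ⊗ (W.A ⊗ N.M)`; `ρ` is the image of an element
`ρ' ∈ (M s₁).M ⊗ (W.A ⊗ N.M)` (`TensorProduct.induction_on`, `dir`, `cov`). Let
`t : M s → M s'`, `t' : M s₁ → M s'` be transition maps. Then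
`rTensor t ξ - relMap (M s') N (rTensor t' ρ')` is mapped to zero in `T.M ⊗ N.M`, and
`rTensor (g s')` is injective (`Module.Flat.rTensor_preserves_injective_linearMap`, `k` is a field), so
it is zero and `mkQ (rTensor t ξ) = 0`. -/
theorem BDir.rel (h : BDir M T g Tr) (N : Bim W B) {s : S} (x : (tb (M s) N).M)
    (hx : ((g s).tbR N).f x = 0) :
    ∃ s', ∃ t : GMap 0 (M s) (M s'), Tr s s' t ∧ (t.tbR N).f x = 0 := by
  exact LCl_main h N x hx

end Pool.Agent.MP_6e5bed_ag_GG
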