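import Pool.Agent.Lib.MP_6e5bed_ag_GG.LRo
import Pool.Agent.Lib.MP_6e5bed_ag_GG.LCl
import Pool.Agent.Lib.MP_6e5bed_ag_GG.LCc

set_option autoImplicit false
set_option linter.unusedVariables false

/-!
# MP_6e5bed_ag, THEOREM G, LOC: directed unions of presheaves of rows
-/

noncomputable section

namespace Pool.Agent.MP_6e5bed_ag_GG

open Pool.Agent.MP_6e5bed_ag_NC Pool.Agent.MP_6e5bed_ag_PN
open Pool.Agent.MP_6e5bed_ag_NS (Cx CHom CPr co CEx)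

universe u

variable {k : Type u} [Field k] {ι : Type} {A : PA k ι} {N : PB A (PA.con ι (base k))}

/-- `T` is the directed union of the `R s`. -/
structure RODir {S : Type u} (R : S → RO N) (T : RO N) (g : ∀ s, ROH (R s) T) : Prop where
  ne : Nonempty S
  injf : ∀ s c, Function.Injective ((g s).f.f c).f
  injg : ∀ s c, Function.Injective ((g s).g.f c).f
  dir : ∀ s s', ∃ s'', (∃ t : ROH (R s) (R s''),
      (∀ c x, ((g s'').f.f c).f ((t.f.f c).f x) = ((g s).f.f c).f x) ∧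
      ∀ c x, ((g s'').g.f c).f ((t.g.f c).f x) = ((g s).g.f c).f x) ∧
    ∃ t : ROH (R s') (R s''),
      (∀ c x, ((g s'').f.f c).f ((t.f.f c).f x) = ((g s').f.f c).f x) ∧
      ∀ c x, ((g s'').g.f c).f ((t.g.f c).f x) = ((g s').g.f c).f x
  covf : ∀ c x, ∃ s, ∃ y, ((g s).f.f c).f y = x
  covg : ∀ c x, ∃ s, ∃ y, ((g s).g.f c).f y = x

variable {L : List ι} {c : FS ι} {Zt : Bim (cA A L c) (base k)} {ζ : GMap 0 Zt (cBR N L c)}
  {hζ : ζ.dd = 0}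

private theorem LCm_qi {S : Type u} {X Q : S → Cx k} {X0 Q0 : Cx k}
    (a : ∀ s, CHom (X s) X0) (b : ∀ s, CHom (Q s) Q0) (φ : ∀ s, CHom (X s) (Q s))
    (φ0 : CHom X0 Q0) (Tr : ∀ s s', CHom (X s) (X s') → CHom (Q s) (Q s') → Prop)
    (hX : ∀ s s' t v, Tr s s' t v → ∀ x, (a s').f (t.f x) = (a s).f x)
    (hQ : ∀ s s' t v, Tr s s' t v → ∀ x, (b s').f (v.f x) = (b s).f x)
    (dir : ∀ s s', ∃ s'', (∃ t v, Tr s s'' t v) ∧ ∃ t v, Tr s' s'' t v)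
    (lX : ∀ x, ∃ s, ∃ y, (a s).f y = x) (lQ : ∀ x, ∃ s, ∃ y, (b s).f y = x)
    (iQ : ∀ s, Function.Injective (b s).f)
    (rX : ∀ s x, (a s).f x = 0 → ∃ s', ∃ t v, Tr s s' t v ∧ t.f x = 0)
    (hn : ∀ s x, φ0.f ((a s).f x) = (b s).f ((φ s).f x)) (hg : ∀ s, (φ s).QI) : φ0.QI := by
  constructor
  · rintro x hx ⟨y, hy⟩
    obtain ⟨s1, x1, h1⟩ := lX x
    obtain ⟨s2, y2, h2⟩ := lQ y
    obtain ⟨s, ⟨t1, v1, e1⟩, t2, v2, e2⟩ := dir s1 s2
    have hx' : (a s).f (t1.f x1) = x := (hX _ _ _ _ e1 x1).trans h1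
    have hy' : (b s).f (v2.f y2) = y := (hQ _ _ _ _ e2 y2).trans h2
    have hd : (a s).f ((X s).dg.d (t1.f x1)) = 0 := by
      rw [← (a s).d, hx', hx]
    obtain ⟨s', t, v, e, he⟩ := rX s _ hd
    have hc : (X s').dg.d (t.f (t1.f x1)) = 0 := by
      rw [t.d, he]
    have hx3 : (a s').f (t.f (t1.f x1)) = x := (hX _ _ _ _ e _).trans hx'
    have hy3 : (b s').f (v.f (v2.f y2)) = y := (hQ _ _ _ _ e _).trans hy'
    have hk : (Q s').dg.d (v.f (v2.f y2)) = (φ s').f (t.f (t1.f x1)) := by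
      apply iQ s'
      rw [← (b s').d, hy3, hy, ← hn, hx3]
    obtain ⟨z, hz⟩ := (hg s').1 _ hc ⟨_, hk⟩
    exact ⟨(a s').f z, by rw [(a s').d, hz, hx3]⟩
  · intro y hy
    obtain ⟨s, y1, h1⟩ := lQ y
    have hc : (Q s).dg.d y1 = 0 := by
      apply iQ s
      rw [← (b s).d, h1, hy, map_zero]
    obtain ⟨x, hx, z, hz⟩ := (hg s).2 y1 hc
    refine ⟨(a s).f x, by rw [(a s).d, hx, map_zero], (b s).f z, ?_⟩
    rw [(b s).d, hz, map_sub, h1, hn]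

private theorem LCm_tr {V V' V'' : PC k ι} {g : PCH V V''} {g' : PCH V' V''} {t : PCH V V'}
    (h : ∀ c x, (g'.f c).f ((t.f c).f x) = (g.f c).f x) (L : List ι) (c : FS ι)
    (y : ((cC V L).X c).V) :
    ((cH g' L).g c).f (((cH t L).g c).f y) = ((cH g L).g c).f y := by
  rw [← cH_comp]
  exact cH_ext h L c y

private theorem LCm_ten {W B : DGA k} {X Y Z : Bim (base k) W} (t : GMap 0 X Y)
    (p : GMap 0 Y Z) (q : GMap 0 X Z) (h : ∀ x, p.f (t.f x) = q.f x) (N : Bim W B)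
    (x : (tb X N).M) : (p.tbR N).f ((t.tbR N).f x) = (q.tbR N).f x := by
  have h1 : (p.tbR N).f ∘ₗ (t.tbR N).f = (q.tbR N).f := by
    refine tb_hom_ext (M := X) (N := N) fun m n => ?_
    rw [LinearMap.comp_apply, GMap.tbR_tm, GMap.tbR_tm, GMap.tbR_tm, h]
  exact LinearMap.congr_fun h1 x

/-- PROOF. Write `X s = tb (cBL (R s).R L c) Zt`, `X∞ = tb (cBL T.R L c) Zt`, `Q s`, `Q∞` for the
Čech complexes of `(R s).Z`, `T.Z`, `φ s = (R s).phi ζ hζ`, `φ∞ = T.phi ζ hζ`.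
(0) `BDir` for `M s := cBL (R s).R L c`, `g s := (g s).f.gmapL L c`,
`Tr s s' t := ∃ F : ROH (R s) (R s'), (the two compatibilities with g s, g s') ∧ t = F.f.gmapL L c`:
`inj` by `cH_inj`, `tr` by `cH_comp`, `cH_ext`, `dir` by `h.dir`, `cov` by `cC_lift` (for
`(g s).f.pch`; `PBH.gmapL_f`).
(1) Injectivity: let `x ∈ X∞` be a cycle with `φ∞ x = d y`. `x` is the image of `x' ∈ X s`
(`BDir.lift`), `y` is the image of `y' ∈ Q s'` (`cC_lift` for `(g s).g`); by `dir` we can take `s = s'`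
(transport by `RO.tF Zt t`, `cH t.g`). `d x'` is mapped to zero, so by `BDir.rel` there is a transition
`t : s → s'` with `d (t x') = t (d x') = 0`. Replace `x'`, `y'` by `t x'`, `t y'`. Then
`φ s' x' - d y'` is mapped to zero in `Q∞` (`RO.phi_natF`), and the map `Q s' → Q∞` is
injective (`cH_inj`), so `φ s' x' = d y'`, hence `x' = d z`, and `x = d (image of z)`.
(2) Surjectivity: a cycle `y ∈ Q∞` is the image of `y' ∈ Q s`, `d y' = 0` by injectivity,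
`y' = φ s x' + d w`, `d x' = 0`; take the images. -/
theorem good_dir {S : Type u} {R : S → RO N} {T : RO N} {g : ∀ s, ROH (R s) T}
    (h : RODir R T g) (hg : ∀ s, (R s).Good ζ hζ) : T.Good ζ hζ := by
  have hn := h.ne
  have hB : BDir (S := S) (fun s => cBL (R s).R L c) (cBL T.R L c)
      (fun s => (g s).f.gmapL L c)
      (fun s s' t => ∃ F : ROH (R s) (R s'),
        ((∀ c x, ((g s').f.f c).f ((F.f.f c).f x) = ((g s).f.f c).f x) ∧
          ∀ c x, ((g s').g.f c).f ((F.g.f c).f x) = ((g s).g.f c).f x) ∧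
          t = F.f.gmapL L c) := by
    refine ⟨hn, fun s => cH_inj (g s).f.pch (fun c => h.injf s c) L c, ?_, ?_, ?_⟩
    · rintro s s' t ⟨F, hF, rfl⟩ x
      exact LCm_tr (g := (g s).f.pch) (g' := (g s').f.pch) (t := F.f.pch) hF.1 L c x
    · intro s s'
      obtain ⟨s'', ⟨t, ht⟩, t', ht'⟩ := h.dir s s'
      exact ⟨s'', ⟨_, t, ht, rfl⟩, _, t', ht', rfl⟩
    · refine cC_lift (V := fun s => (R s).R.pc) (V' := T.R.pc) (fun s => (g s).f.pch)
        (fun s s' => ?_) h.covf L c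
      obtain ⟨s'', ⟨t, ht⟩, t', ht'⟩ := h.dir s s'
      exact ⟨s'', ⟨t.f.pch, ht.1⟩, t'.f.pch, ht'.1⟩
  refine LCm_qi (X := fun s => bcx (tb (cBL (R s).R L c) Zt)) (Q := fun s => (cC (R s).Z L).X c)
    (fun s => RO.tF Zt (g s)) (fun s => (cH (g s).g L).g c) (fun s => (R s).phi ζ hζ)
    (T.phi ζ hζ)
    (fun s s' t v => ∃ F : ROH (R s) (R s'),
      ((∀ c x, ((g s').f.f c).f ((F.f.f c).f x) = ((g s).f.f c).f x) ∧
        ∀ c x, ((g s').g.f c).f ((F.g.f c).f x) = ((g s).g.f c).f x) ∧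
        t = RO.tF Zt F ∧ v = (cH F.g L).g c) ?_ ?_ ?_ ?_ ?_ ?_ ?_ ?_ hg
  · rintro s s' t v ⟨F, hF, rfl, rfl⟩ x
    exact LCm_ten (F.f.gmapL L c) ((g s').f.gmapL L c) ((g s).f.gmapL L c)
      (fun y => LCm_tr (g := (g s).f.pch) (g' := (g s').f.pch) (t := F.f.pch) hF.1 L c y) Zt x
  · rintro s s' t v ⟨F, hF, rfl, rfl⟩ x
    exact LCm_tr hF.2 L c x
  · intro s s'
    obtain ⟨s'', ⟨t, ht⟩, t', ht'⟩ := h.dir s s'
    exact ⟨s'', ⟨_, _, t, ht, rfl, rfl⟩, _, _, t', ht', rfl, rfl⟩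
  · exact hB.lift Zt
  · refine cC_lift (V := fun s => (R s).Z) (V' := T.Z) (fun s => (g s).g)
      (fun s s' => ?_) h.covg L c
    obtain ⟨s'', ⟨t, ht⟩, t', ht'⟩ := h.dir s s'
    exact ⟨s'', ⟨t.g, ht.2⟩, t'.g, ht'.2⟩
  · exact fun s => cH_inj (g s).g (fun c => h.injg s c) L c
  · intro s x hx
    obtain ⟨s', t, ⟨F, hF, rfl⟩, h0⟩ := hB.rel Zt x hx
    exact ⟨s', _, _, ⟨F, hF, rfl, rfl⟩, h0⟩
  · exact fun s x => RO.phi_natF ζ hζ (g s) x

end Pool.Agent.MP_6e5bed_ag_GG
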