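import Pool.Agent.Lib.MP_6e5bed_ag_GG.LKz
import Pool.Agent.Lib.MP_6e5bed_ag_GG.LCm

set_option autoImplicit false
set_option linter.unusedVariables false
set_option linter.unusedSectionVars false

/-!
# MP_6e5bed_ag, THEOREM G, LOC: the constant lattice is the union of the `σ⁻¹ O(b)`
-/

noncomputable section

namespace Pool.Agent.MP_6e5bed_ag_GG

open Pool.Agent.MP_6e5bed_ag_NC Pool.Agent.MP_6e5bed_ag_PN
open Pool.Agent.MP_6e5bed_ag_NS (Cx CHom CPr co CEx concH conc_map)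
open scoped TensorProduct

universe u

variable {k : Type u} [Field k]

/-- PROOF. `1 ∈ O(v)` for `v ≥ 0`: `X.one_mem`, `X.one_mem'`, `X.mul_mem` and `v = ∑ r, v r • e_r`
(induction over the finite set of directions, then over `v r`). -/
theorem XD.one_mem_nn (X : XD k) (v : X.D → ℤ) (hv : ∀ r, 0 ≤ v r) : (1 : X.M) ∈ X.O v ∅ := by
  let S : AddSubmonoid (X.D → ℤ) :=
    { carrier := {v | (1 : X.M) ∈ X.O v ∅}
      zero_mem' := X.one_mem ∅
      add_mem' := fun {v v'} h h' => by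
        have h1 := X.mul_mem h h'
        rwa [mul_one] at h1 }
  have h1 : v = ∑ r, (v r).toNat • (Pi.single r (1 : ℤ) : X.D → ℤ) := by
    funext q
    rw [Finset.sum_apply, Finset.sum_eq_single q]
    · rw [Pi.smul_apply, Pi.single_eq_same, nsmul_eq_mul, mul_one]
      exact (Int.toNat_of_nonneg (hv q)).symm
    · intro r _ hr
      rw [Pi.smul_apply, Pi.single_eq_of_ne (Ne.symm hr), smul_zero]
    · intro h
      exact absurd (Finset.mem_univ q) h
  have h2 : v ∈ S := by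
    rw [h1]
    exact S.sum_mem fun r _ => S.nsmul_mem (X.one_mem' r) _
  exact h2

/-- Common denominators.

PROOF. Induction over the finite set (`Finset.induction_on`, the statement for all `u j`, `j ∈ s`):
`X.frac`, products of the denominators, `X.mul_mem`. -/
theorem XD.frac_fam (X : XD k) {J : Type} [Fintype J] (u : J → X.M) :
    ∃ (b : X.D → ℤ) (σ : X.M), σ ∈ X.O b ∅ ∧ σ ≠ 0 ∧ ∀ j, σ * u j ∈ X.O b ∅ := by
  classical
  have h : ∀ s : Finset J, ∃ (b : X.D → ℤ) (σ : X.M), σ ∈ X.O b ∅ ∧ σ ≠ 0 ∧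
      ∀ j ∈ s, σ * u j ∈ X.O b ∅ := by
    intro s
    induction s using Finset.induction_on with
    | empty => exact ⟨0, 1, X.one_mem ∅, one_ne_zero, fun j hj => absurd hj (Finset.notMem_empty j)⟩
    | insert j s hj ih =>
      obtain ⟨b, σ, h1, h2, h3⟩ := ih
      obtain ⟨b', σ1, σ2, k1, k2, k3, k4⟩ := X.frac (u j)
      refine ⟨b' + b, σ1 * σ, X.mul_mem k1 h1, mul_ne_zero k3 h2, fun q hq => ?_⟩
      rcases Finset.mem_insert.1 hq with rfl | hq
      · have e : σ1 * σ * u q = σ2 * σ := by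
          rw [k4]
          field_simp
        rw [e]
        exact X.mul_mem k2 h1
      · rw [mul_assoc]
        exact X.mul_mem k1 (h3 q hq)
  obtain ⟨b, σ, h1, h2, h3⟩ := h Finset.univ
  exact ⟨b, σ, h1, h2, fun j => h3 j (Finset.mem_univ j)⟩

variable {X : XD k} {U : Type u} [AddCommGroup U] [Module k U]
  [Module X.M U] [IsScalarTower k X.M U] {E0 : Submodule k U}

/-- the indices: `b`, `σ ∈ O(b)`, `σ ≠ 0` -/
def GI (X : XD k) : Type u := ULift.{u} (X.D → ℤ) × X.M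

variable {Zt : Bim (TT X.ca) (base k)}
  {ζ : GMap 0 Zt (cBR (colF X U E0) (LL X.i) (FS.e X.i))} {hζ : ζ.dd = 0}

/-- the map to the constant lattice -/
private def LCgF (b : X.D → ℤ) (σ : X.M) : EOH (gsO X U E0 b σ) (cnO X U E0) where
  φ := LinearMap.id
  ψ := LinearMap.id
  hβ := fun _ _ => rfl
  hP := fun {e a} (x : X.M) _ => by
    change x ∈ (⊤ : Submodule k X.M)
    exact Submodule.mem_top
  hZ := fun {a} (z : U) _ => by
    change z ∈ (⊤ : Submodule k U)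
    exact Submodule.mem_top

/-- the transition maps -/
private def LCgT {b c b' : X.D → ℤ} {σ τ σ' : X.M} (hb : b' = c + b) (hσ : σ' = τ * σ)
    (hτ : τ ∈ X.O c ∅) : EOH (gsO X U E0 b σ) (gsO X U E0 b' σ') where
  φ := LinearMap.id
  ψ := LinearMap.id
  hβ := fun _ _ => rfl
  hP := fun {e a} (x : X.M) (hx : σ * x ∈ X.O (b - X.tw e) a) => by
    change σ' * x ∈ X.O (b' - X.tw e) a
    have h := X.mul_mem (X.mono _ (Set.empty_subset a) hτ) hx
    rw [← mul_assoc, ← hσ, ← add_sub_assoc, ← hb] at h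
    exact h
  hZ := fun {a} (z : U) (hz : σ • z ∈ X.Fs U E0 b a) => by
    change σ' • z ∈ X.Fs U E0 b' a
    have h := XD.Fs_smul (X.mono _ (Set.empty_subset a) hτ) hz
    rw [smul_smul, ← hσ, ← hb] at h
    exact h

private theorem LCg_fR (b : X.D → ℤ) (σ : X.M) (a : Set X.i) :
    Function.Injective ((LCgF (U := U) (E0 := E0) b σ).fR a) := fun x y h =>
  Subtype.ext (funext fun e => congrArg (fun z => z.1 e) h)

private theorem LCg_fZ (b : X.D → ℤ) (σ : X.M) (a : Set X.i) :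
    Function.Injective ((LCgF (U := U) (E0 := E0) b σ).fZ a) := fun x y h =>
  Subtype.ext (congrArg (fun z => z.1) h)

/-- the rows come from a finite stage -/
private theorem LCg_covf (a : Set X.i) (f : X.II → X.M) :
    ∃ (b : X.D → ℤ) (σ : X.M), σ ∈ X.O b ∅ ∧ σ ≠ 0 ∧ ∀ e, σ * f e ∈ X.O (b - X.tw e) a := by
  obtain ⟨b, σ, h1, h2, h3⟩ := X.frac_fam f
  refine ⟨b + fun _ => 1, σ, ?_, h2, fun e => ?_⟩
  · have h := X.mul_mem h1 (X.one_mem_nn (fun _ => 1) fun _ => zero_le_one)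
    rwa [mul_one] at h
  · have h4 : ∀ r, 0 ≤ ((fun _ => (1 : ℤ)) - X.tw e : X.D → ℤ) r := by
      intro r
      rw [Pi.sub_apply, XD.tw]
      split_ifs <;> norm_num
    have h := X.mul_mem (h3 e) (X.one_mem_nn _ h4)
    rw [mul_one, ← add_sub_assoc] at h
    exact X.mono _ (Set.empty_subset a) h

/-- the indices with `σ ∈ O(b)`, `σ ≠ 0` -/
private abbrev LCgS (X : XD k) : Type u := {p : GI X // p.2 ∈ X.O p.1.down ∅ ∧ p.2 ≠ 0}

private theorem LCg_dir (hE : Submodule.span X.M (E0 : Set U) = ⊤) :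
    RODir (S := LCgS X) (fun s => (gsO X U E0 s.1.1.down s.1.2).ro) (cnO X U E0).ro
      (fun s => (LCgF (U := U) (E0 := E0) s.1.1.down s.1.2).ro) where
  ne := ⟨⟨(⟨0⟩, 1), X.one_mem ∅, one_ne_zero⟩⟩
  injf := fun s c => LCg_fR (U := U) (E0 := E0) s.1.1.down s.1.2 c.1
  injg := fun s c => LCg_fZ (U := U) (E0 := E0) s.1.1.down s.1.2 c.1
  dir := fun s s' => by
    refine ⟨⟨(⟨s'.1.1.down + s.1.1.down⟩, s'.1.2 * s.1.2), X.mul_mem s'.2.1 s.2.1,
      mul_ne_zero s'.2.2 s.2.2⟩, ⟨(LCgT (U := U) (E0 := E0) rfl rfl s'.2.1).ro,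
      fun c x => rfl, fun c x => rfl⟩,
      ⟨(LCgT (U := U) (E0 := E0) (add_comm _ _) (mul_comm _ _) s.2.1).ro,
      fun c x => rfl, fun c x => rfl⟩⟩
  covf := fun c (x : colS X (fun e => (cnO X U E0).P e c.1)) => by
    obtain ⟨b, σ, h1, h2, h3⟩ := LCg_covf c.1 x.1
    exact ⟨⟨(⟨b⟩, σ), h1, h2⟩, ⟨x.1, h3⟩, rfl⟩
  covg := fun c (z : (cnO X U E0).Z c.1) => by
    obtain ⟨b, σ, h1, h2, h3⟩ := XD.Fs_frac hE z.1
    exact ⟨⟨(⟨b⟩, σ), h1, h2⟩, ⟨z.1, XD.Fs_mono _ (Set.empty_subset _) h3⟩, rfl⟩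

/-- PROOF. `good_dir` for the index type `{p : GI X // p.2 ∈ X.O p.1.down ∅ ∧ p.2 ≠ 0}`,
`R s := (gsO X U E0 s.1.1.down s.1.2).ro`, `g s := (F).ro` with `F : EOH (gsO ..) cnO`, `φ = id`,
`ψ = id`. `ne`: `b = 0`, `σ = 1`. `injf`, `injg`: the maps are inclusions (`EOH.ro_f`, `EOH.fR_coe`,
`EOH.ro_g`, `EOH.fZ_coe`). `dir`: for `(b, σ)`, `(b', σ')` the index `(b + b', σ σ')` with the
inclusions (`σ x ∈ O(b - tw e)_a` implies `σ σ' x ∈ O(b + b' - tw e)_a` by `X.mul_mem`, `X.mono`; the same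
for `F` with `XD.Fs_smul`). `covf`: a row `f : II → M`: by `XD.frac_fam` `σ ∈ O(b)_∅`,
`σ f e ∈ O(b)_∅` for all `e`; take `(b + 1, σ)` (`1` the constant function): `1 - tw e ≥ 0`, so
`O(b)_∅ ⊆ O(b + 1 - tw e)_∅` (`XD.one_mem_nn`, `X.mul_mem`) and `O(b)_∅ ⊆ O(b + 1)_∅`, `X.mono`. `covg`:
`XD.Fs_frac hE`, `XD.Fs_mono`. -/
theorem cn_good (hE : Submodule.span X.M (E0 : Set U) = ⊤)
    (hgs : ∀ (b : X.D → ℤ) (σ : X.M), σ ∈ X.O b ∅ → σ ≠ 0 → (gsO X U E0 b σ).G ζ hζ) :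
    (cnO X U E0).G ζ hζ :=
  good_dir (LCg_dir hE) fun s => hgs s.1.1.down s.1.2 s.2.1 s.2.2

end Pool.Agent.MP_6e5bed_ag_GG
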