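import Pool.Agent.Lib.MP_6e5bed_ag_GG.LTw
import Pool.Agent.Lib.MP_6e5bed_ag_GG.LCol

set_option autoImplicit false
set_option linter.unusedVariables false
set_option linter.unusedSectionVars false

/-!
# MP_6e5bed_ag, THEOREM G, LOC (L3): rows over the function field as a colimit of the rows with
entries in `O(b - e)`
-/

noncomputable section

namespace Pool.Agent.MP_6e5bed_ag_GG

open Pool.Agent.MP_6e5bed_ag_NC Pool.Agent.MP_6e5bed_ag_PN
open Pool.Agent.MP_6e5bed_ag_NS (Cx CHom CPr co CEx concH conc_map)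

universe u

variable {k : Type u} [Field k]

variable {X : XD k}

/-- multiplication with an element of `O(b' - b)` -/
def EOH.mulG {U : Type u} [AddCommGroup U] [Module k U] [Module X.M U] [IsScalarTower k X.M U]
    {E0 : Submodule k U} {b b' : X.D → ℤ} (τ : X.M) (h : τ ∈ X.O (b' - b) ∅) :
    EOH (twO X U E0 b) (twO X U E0 b') where
  φ := LinearMap.lsmul X.M X.M τ
  ψ := LinearMap.lsmul X.M U τ
  hβ := fun x v => (mul_smul τ x v).symm
  hP := fun {e a x} hx => by
    have h1 := X.mul_mem (X.mono _ (Set.empty_subset a) h) hx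
    rwa [show b' - b + (b - X.tw e) = b' - X.tw e by abel] at h1
  hZ := fun {a} (z : U) hz => by
    have h1 := XD.Fs_smul (U := U) (E0 := E0) (X.mono _ (Set.empty_subset a) h) hz
    rwa [sub_add_cancel] at h1

/-- multiplication with an element of `M` -/
def EOH.mulC {U : Type u} [AddCommGroup U] [Module k U] [Module X.M U] [IsScalarTower k X.M U]
    {E0 : Submodule k U} (b : X.D → ℤ) (τ : X.M) : EOH (twO X U E0 b) (cnO X U E0) where
  φ := LinearMap.lsmul X.M X.M τ
  ψ := LinearMap.lsmul X.M U τ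
  hβ := fun x v => (mul_smul τ x v).symm
  hP := fun _ => (Submodule.mem_top : _ ∈ (⊤ : Submodule k X.M))
  hZ := fun _ => (Submodule.mem_top : _ ∈ (⊤ : Submodule k U))

/-! ### The index set -/

variable (X) in
/-- the nonzero sections -/
structure LSx where
  b : X.D → ℤ
  σ : X.M
  mem : σ ∈ X.O b ∅
  ne : σ ≠ 0

namespace LSx

instance : Preorder (LSx X) where
  le := fun s t => t.σ / s.σ ∈ X.O (t.b - s.b) ∅
  le_refl := fun s => by
    rw [div_self s.ne, sub_self]
    exact X.one_mem ∅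
  le_trans := fun s t r h h' => by
    have h1 := X.mul_mem h h'
    have e : t.σ / s.σ * (r.σ / t.σ) = r.σ / s.σ := by
      rw [mul_comm, div_mul_div_cancel₀ t.ne]
    rwa [e, show t.b - s.b + (r.b - t.b) = r.b - s.b by abel] at h1

theorem le_def {s t : LSx X} : s ≤ t ↔ t.σ / s.σ ∈ X.O (t.b - s.b) ∅ := Iff.rfl

/-- the product -/
def mul (s t : LSx X) : LSx X := ⟨s.b + t.b, s.σ * t.σ, X.mul_mem s.mem t.mem, mul_ne_zero s.ne t.ne⟩

theorem le_mul_left (s t : LSx X) : s ≤ s.mul t := by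
  rw [le_def]
  change s.σ * t.σ / s.σ ∈ X.O (s.b + t.b - s.b) ∅
  rw [mul_div_cancel_left₀ _ s.ne, add_sub_cancel_left]
  exact t.mem

theorem le_mul_right (s t : LSx X) : t ≤ s.mul t := by
  rw [le_def]
  change s.σ * t.σ / t.σ ∈ X.O (s.b + t.b - t.b) ∅
  rw [mul_div_cancel_right₀ _ t.ne, add_sub_cancel_right]
  exact s.mem

instance : IsDirectedOrder (LSx X) := ⟨fun s t => ⟨s.mul t, le_mul_left s t, le_mul_right s t⟩⟩

instance : Nonempty (LSx X) := ⟨⟨0, 1, X.one_mem ∅, one_ne_zero⟩⟩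

end LSx

theorem O_mono_b {b b' : X.D → ℤ} (h : b ≤ b') (a : Set X.i) : X.O b a ≤ X.O b' a := by
  classical
  have key : ∀ (n : ℕ) (b : X.D → ℤ) (r : X.D), X.O b a ≤ X.O (b + Pi.single r (n : ℤ)) a := by
    intro n
    induction n with
    | zero =>
      intro b r
      rw [Nat.cast_zero, Pi.single_zero, add_zero]
    | succ n ih =>
      intro b r
      refine (ih b r).trans ?_
      have h1 := X.O_le (b + Pi.single r (n : ℤ)) r a
      have e : b + Pi.single r (n : ℤ) + Pi.single r 1 = b + Pi.single r ((n + 1 : ℕ) : ℤ) := by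
        rw [add_assoc, ← Pi.single_add]
        push_cast
        rfl
      exact e ▸ h1
  have h2 : ∀ (T : Finset X.D), X.O b a ≤
      X.O (b + ∑ r ∈ T, Pi.single r ((b' r - b r).toNat : ℤ)) a := by
    intro T
    induction T using Finset.induction_on with
    | empty => rw [Finset.sum_empty, add_zero]
    | insert r T hr ih =>
      rw [Finset.sum_insert hr, add_comm (Pi.single r _), ← add_assoc]
      exact ih.trans (key _ _ r)
  have h3 : b + ∑ r, Pi.single r ((b' r - b r).toNat : ℤ) = b' := by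
    rw [Finset.univ_sum_single]
    funext r
    rw [Pi.add_apply, Int.toNat_of_nonneg (sub_nonneg.2 (h r))]
    ring
  have h4 := h2 Finset.univ
  rwa [h3] at h4

theorem tw_le (b : X.D → ℤ) (e : X.II) : b ≤ b + 1 - X.tw e := fun r => by
  change b r ≤ b r + 1 - (if e r then 1 else 0)
  split_ifs <;> omega

/-- common denominators of the entries of a row -/
theorem exists_LS (f : X.II → X.M) : ∃ s : LSx X, ∀ e, s.σ * f e ∈ X.O (s.b - X.tw e) ∅ := by
  classical
  have h0 : ∀ T : Finset X.II, ∃ s : LSx X, ∀ e ∈ T, s.σ * f e ∈ X.O s.b ∅ := by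
    intro T
    induction T using Finset.induction_on with
    | empty => exact ⟨Classical.arbitrary _, fun e he => absurd he (Finset.notMem_empty e)⟩
    | insert e T he ih =>
      obtain ⟨s, hs⟩ := ih
      obtain ⟨b, σ, σ', h1, h2, h3, h4⟩ := X.frac (f e)
      refine ⟨s.mul ⟨b, σ, h1, h3⟩, fun e' he' => ?_⟩
      rcases Finset.mem_insert.1 he' with rfl | he'
      · change s.σ * σ * f e' ∈ X.O (s.b + b) ∅
        rw [h4, mul_assoc, mul_div_cancel₀ _ h3]
        exact X.mul_mem s.mem h2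
      · change s.σ * σ * f e' ∈ X.O (s.b + b) ∅
        have h5 := X.mul_mem (hs e' he') h1
        rwa [show s.σ * f e' * σ = s.σ * σ * f e' by ring] at h5
  obtain ⟨s, hs⟩ := h0 Finset.univ
  have h1 : s.b ≤ s.b + 1 := fun r => by
    change s.b r ≤ s.b r + 1
    omega
  refine ⟨⟨s.b + 1, s.σ, O_mono_b h1 ∅ s.mem, s.ne⟩, fun e => ?_⟩
  exact O_mono_b (tw_le s.b e) ∅ (hs e (Finset.mem_univ e))

section col

variable {U : Type u} [AddCommGroup U] [Module k U] [Module X.M U] [IsScalarTower k X.M U]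
  {E0 : Submodule k U}

variable (U E0) in
/-- the transition maps -/
def LSx.E {s t : LSx X} (h : s ≤ t) : EOH (twO X U E0 s.b) (twO X U E0 t.b) :=
  EOH.mulG (t.σ / s.σ) h

variable (U E0) in
/-- the maps to the rows over the function field -/
def LSx.I (s : LSx X) : EOH (twO X U E0 s.b) (cnO X U E0) := EOH.mulC s.b (s.σ)⁻¹

theorem LSx.col_row (c : Ch X.i) : Col (V := fun s : LSx X => ((twO X U E0 s.b).ro.R.M c).M)
    (fun s t h => ((LSx.E U E0 h).ro.f.f c).f) (fun s => ((LSx.I U E0 s).ro.f.f c).f) := by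
  have a1 : ∀ (s : LSx X) (y : X.M), s.σ / s.σ * y = y := fun s y => by
    rw [div_self s.ne, one_mul]
  have a2 : ∀ (s t r : LSx X) (y : X.M), r.σ / t.σ * (t.σ / s.σ * y) = r.σ / s.σ * y :=
    fun s t r y => by rw [← mul_assoc, div_mul_div_cancel₀ t.ne]
  have a3 : ∀ (s t : LSx X) (y : X.M), (t.σ)⁻¹ * (t.σ / s.σ * y) = (s.σ)⁻¹ * y :=
    fun s t y => by rw [← mul_assoc, ← mul_div_assoc, inv_mul_cancel₀ t.ne, one_div]
  have a4 : ∀ (s : LSx X) (y : X.M), (s.σ)⁻¹ * (s.σ * y) = y := fun s y => by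
    rw [← mul_assoc, inv_mul_cancel₀ s.ne, one_mul]
  have a5 : ∀ (s : LSx X) (y : X.M), (s.σ)⁻¹ * y = 0 → y = 0 := fun s y h =>
    (mul_eq_zero.1 h).resolve_left (inv_ne_zero s.ne)
  refine Col.of_inj ?_ ?_ ?_ ?_ ?_
  · intro s h x
    exact Subtype.ext (funext fun e => a1 s (x.1 e))
  · intro s t r h h' x
    exact Subtype.ext (funext fun e => a2 s t r (x.1 e))
  · intro s t h x
    exact Subtype.ext (funext fun e => a3 s t (x.1 e))
  · intro f
    obtain ⟨s, hs⟩ := exists_LS (X := X) f.1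
    refine ⟨s, ⟨fun e => s.σ * (show X.M from f.1 e), fun e =>
      X.mono _ (Set.empty_subset c.1) (hs e)⟩, ?_⟩
    exact Subtype.ext (funext fun e => a4 s (f.1 e))
  · intro s x hx
    exact Subtype.ext (funext fun e => a5 s (x.1 e) (congrFun (congrArg Subtype.val hx) e))

theorem LSx.col_val (hE : Submodule.span X.M (E0 : Set U) = ⊤) (c : Ch X.i) :
    Col (V := fun s : LSx X => ((twO X U E0 s.b).ro.Z.X c).V)
    (fun s t h => ((LSx.E U E0 h).ro.g.f c).f) (fun s => ((LSx.I U E0 s).ro.g.f c).f) := by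
  have a1 : ∀ (s : LSx X) (y : U), (s.σ / s.σ) • y = y := fun s y => by
    rw [div_self s.ne, one_smul]
  have a2 : ∀ (s t r : LSx X) (y : U), (r.σ / t.σ) • (t.σ / s.σ) • y = (r.σ / s.σ) • y :=
    fun s t r y => by rw [smul_smul, div_mul_div_cancel₀ t.ne]
  have a3 : ∀ (s t : LSx X) (y : U), (t.σ)⁻¹ • (t.σ / s.σ) • y = (s.σ)⁻¹ • y :=
    fun s t y => by rw [smul_smul, ← mul_div_assoc, inv_mul_cancel₀ t.ne, one_div]
  have a5 : ∀ (s : LSx X) (y : U), (s.σ)⁻¹ • y = 0 → y = 0 := fun s y h =>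
    (smul_eq_zero.1 h).resolve_left (inv_ne_zero s.ne)
  refine Col.of_inj ?_ ?_ ?_ ?_ ?_
  · intro s h x
    exact Subtype.ext (a1 s x.1)
  · intro s t r h h' x
    exact Subtype.ext (a2 s t r x.1)
  · intro s t h x
    exact Subtype.ext (a3 s t x.1)
  · intro z
    obtain ⟨b, σ, h1, h2, h3⟩ := XD.Fs_frac (X := X) (U := U) (E0 := E0) hE z.1
    have h4 : σ • (show U from z.1) ∈ X.Fs U E0 b c.1 :=
      XD.Fs_mono (U := U) (E0 := E0) b (Set.empty_subset c.1) h3
    refine ⟨⟨b, σ, h1, h2⟩, ⟨σ • (show U from z.1), h4⟩, ?_⟩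
    have a4 : ∀ y : U, σ⁻¹ • σ • y = y := fun y => by
      rw [smul_smul, inv_mul_cancel₀ h2, one_smul]
    exact Subtype.ext (a4 z.1)
  · intro s x hx
    exact Subtype.ext (a5 s x.1 (congrArg Subtype.val hx))

/-- (L3): if the cup product is a quasi-isomorphism for the rows with entries in `O(b - e)` for all
`b`, then also for the rows over the function field. -/
theorem good_C (hE : Submodule.span X.M (E0 : Set U) = ⊤) {L : List X.i} {c : FS X.i}
    {Zt : Bim (cA X.ca.pa L c) (base k)} {ζ : GMap 0 Zt (cBR (colF X U E0) L c)} {hζ : ζ.dd = 0}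
    (h : ∀ b, (twO X U E0 b).ro.Good ζ hζ) : (cnO X U E0).ro.Good ζ hζ :=
  RO.good_col (S := LSx X) (fun s => (twO X U E0 s.b).ro) (cnO X U E0).ro
    (fun s t h => (LSx.E U E0 h).ro) (fun s => (LSx.I U E0 s).ro) LSx.col_row (LSx.col_val hE)
    (fun s => h s.b)

end col

end Pool.Agent.MP_6e5bed_ag_GG
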