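import Pool.Agent.Lib.MP_6e5bed_ag_GG.LKz
import Pool.Agent.Lib.MP_6e5bed_ag_GG.LCs

set_option autoImplicit false
set_option linter.unusedVariables false
set_option linter.unusedSectionVars false

/-!
# MP_6e5bed_ag, THEOREM G, LOC (L3): the constant lattice
-/

noncomputable section

namespace Pool.Agent.MP_6e5bed_ag_GG

open Pool.Agent.MP_6e5bed_ag_NC Pool.Agent.MP_6e5bed_ag_PN
open Pool.Agent.MP_6e5bed_ag_NS (Cx CHom CPr co CEx concH conc_map)
open scoped TensorProduct

universe u

variable {k : Type u} [Field k] {X : XD k} {U : Type u} [AddCommGroup U] [Module k U]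
  [Module X.M U] [IsScalarTower k X.M U] {E0 : Submodule k U}
  {Zt : Bim (TT X.ca) (base k)}
  {ζ : GMap 0 Zt (cBR (colF X U E0) (LL X.i) (FS.e X.i))} {hζ : ζ.dd = 0}

/-- (L3): the lattice `O(b)` for all `b`, then the constant lattice. -/
theorem cn_good_tw (hE : Submodule.span X.M (E0 : Set U) = ⊤)
    (h : ∀ b, (twO X U E0 b).G ζ hζ) : (cnO X U E0).G ζ hζ :=
  good_C (c := FS.e X.i) hE h

end Pool.Agent.MP_6e5bed_ag_GG
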