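import Pool.Agent.Lib.MP_6e5bed_ag_GG.L0

set_option autoImplicit false
set_option linter.unusedVariables false

/-!
# MP_6e5bed_ag, THEOREM G, LOC: exact sequences and tensor products with a flat left module
-/

noncomputable section

namespace Pool.Agent.MP_6e5bed_ag_GG

open Pool.Agent.MP_6e5bed_ag_NC Pool.Agent.MP_6e5bed_ag_PN
open Pool.Agent.MP_6e5bed_ag_NS (Cx CHom CPr co CEx)
open Pool.Agent.MP_6e5bed_ag_PS (Dist gc gc_qi tbR_dd qi_of_sum qi_retract dist_right dist_left)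

universe u

variable {k : Type u} [Field k] {B W : DGA k}

section copy

variable {A : DGA k}

private theorem LDt_d {M1 M2 C : Bim A B} {i : GMap 0 M1 M2} {t : GMap (-1) M1 C}
    {j : GMap 0 M2 C} (hj : j.dd = 0) (ht : ∀ x, t.dd x = j.f (i.f x)) (x1 : M1.M) (x2 : M2.M) :
    C.dg.d (t.f x1 + j.f x2) = t.f (- M1.dg.d x1) + j.f (i.f x1 + M2.dg.d x2) := by
  have h1 := ht x1
  rw [GMap.dd_apply, sg_neg, sg_one, neg_smul, one_smul, sub_neg_eq_add] at h1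
  rw [map_add, GMap.d_f_zero hj, map_add, ← h1, map_neg]
  abel

private theorem LDt_dist {M1 M2 M3 C : Bim A B} (i : GMap 0 M1 M2) (p : GMap 0 M2 M3)
    (hi : i.dd = 0) (hp : p.dd = 0) (hz : ∀ x, p.f (i.f x) = 0)
    (t : GMap (-1) M1 C) (j : GMap 0 M2 C) (r : GMap 1 C M1) (s : GMap 0 C M2)
    (hj : j.dd = 0) (ht : ∀ x, t.dd x = j.f (i.f x)) (hrt : ∀ x, r.f (t.f x) = x)
    (hsj : ∀ y, s.f (j.f y) = y) (hrj : ∀ y, r.f (j.f y) = 0) (hst : ∀ x, s.f (t.f x) = 0)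
    (hsum : ∀ c, t.f (r.f c) + j.f (s.f c) = c)
    (hq : QIso (s.comp p (add_zero 0))) : Dist (gc i hi) (gc p hp) := by
  have hr : ∀ x1 x2, r.f (t.f x1 + j.f x2) = x1 := fun x1 x2 => by
    rw [map_add, hrt, hrj, add_zero]
  have hs : ∀ x1 x2, s.f (t.f x1 + j.f x2) = x2 := fun x1 x2 => by
    rw [map_add, hst, hsj, zero_add]
  have hqf : ∀ c, (s.comp p (add_zero 0)).f c = p.f (s.f c) := fun c => rfl
  refine ⟨hz, ?_, ?_⟩
  · intro (x1 : M1.M) (x2 : M2.M) (x3 : M3.M) e1 e2 e3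
    change M1.dg.d x1 = 0 at e1
    change i.f x1 + M2.dg.d x2 = 0 at e2
    change p.f x2 = M3.dg.d x3 at e3
    obtain ⟨e, he⟩ := hq.2.1 (t.f x1 + j.f x2)
      (by rw [LDt_d hj ht, e1, e2, neg_zero, map_zero, map_zero, add_zero])
      ⟨x3, by rw [hqf, hs, e3]⟩
    refine ⟨r.f e, s.f e, ?_, ?_⟩
    · change x1 = - M1.dg.d (r.f e)
      have h1 := congrArg r.f he
      rw [hr] at h1
      rw [← h1]
      conv_lhs => rw [← hsum e]
      rw [LDt_d hj ht, hr]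
    · change x2 = i.f (r.f e) + M2.dg.d (s.f e)
      have h1 := congrArg s.f he
      rw [hs] at h1
      rw [← h1]
      conv_lhs => rw [← hsum e]
      rw [LDt_d hj ht, hs]
  · intro (x3 : M3.M) hx3
    obtain ⟨c, hc, z, hz'⟩ := hq.2.2 x3 hx3
    rw [← hsum c, LDt_d hj ht] at hc
    refine ⟨r.f c, s.f c, z, ?_, ?_, ?_⟩
    · change M1.dg.d (r.f c) = 0
      have h1 := congrArg r.f hc
      rw [hr, map_zero, neg_eq_zero] at h1
      exact h1
    · change i.f (r.f c) + M2.dg.d (s.f c) = 0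
      have h1 := congrArg s.f hc
      rw [hs, map_zero] at h1
      exact h1
    · change x3 = p.f (s.f c) + M3.dg.d z
      rw [hz', hqf, add_sub_cancel]

private theorem LDt_qiso {M1 M2 M3 C : Bim A B} (i : GMap 0 M1 M2) (p : GMap 0 M2 M3)
    (hi : i.dd = 0) (hp : p.dd = 0) (h1 : Function.Injective i.f) (h2 : Function.Surjective p.f)
    (h3 : ∀ x, p.f x = 0 ↔ ∃ y, i.f y = x)
    (t : GMap (-1) M1 C) (j : GMap 0 M2 C) (r : GMap 1 C M1) (s : GMap 0 C M2)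
    (hj : j.dd = 0) (ht : ∀ x, t.dd x = j.f (i.f x)) (hrt : ∀ x, r.f (t.f x) = x)
    (hsj : ∀ y, s.f (j.f y) = y) (hrj : ∀ y, r.f (j.f y) = 0) (hst : ∀ x, s.f (t.f x) = 0)
    (hsum : ∀ c, t.f (r.f c) + j.f (s.f c) = c) : QIso (s.comp p (add_zero 0)) := by
  have hr : ∀ x1 x2, r.f (t.f x1 + j.f x2) = x1 := fun x1 x2 => by
    rw [map_add, hrt, hrj, add_zero]
  have hs : ∀ x1 x2, s.f (t.f x1 + j.f x2) = x2 := fun x1 x2 => by
    rw [map_add, hst, hsj, zero_add]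
  have hz : ∀ x, p.f (i.f x) = 0 := fun x => (h3 _).2 ⟨x, rfl⟩
  have hdi : ∀ x, M2.dg.d (i.f x) = i.f (M1.dg.d x) := fun x => GMap.d_f_zero hi x
  have hdp : ∀ x, M3.dg.d (p.f x) = p.f (M2.dg.d x) := fun x => GMap.d_f_zero hp x
  have hqf : ∀ c, (s.comp p (add_zero 0)).f c = p.f (s.f c) := fun c => rfl
  refine ⟨LinearMap.ext fun c => ?_, ?_, ?_⟩
  · rw [GMap.dd_apply, sg_zero, one_smul, LinearMap.zero_apply, hqf, hqf]
    have h4 : s.f (C.dg.d c) = i.f (r.f c) + M2.dg.d (s.f c) := by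
      conv_lhs => rw [← hsum c]
      rw [LDt_d hj ht, hs]
    rw [h4, map_add, hz, zero_add, hdp, sub_self]
  · rintro c hc ⟨y, hy⟩
    rw [← hsum c, LDt_d hj ht] at hc
    rw [hqf] at hy
    have e1 : M1.dg.d (r.f c) = 0 := by
      have h1 := congrArg r.f hc
      rw [hr, map_zero, neg_eq_zero] at h1
      exact h1
    have e2 : i.f (r.f c) + M2.dg.d (s.f c) = 0 := by
      have h1 := congrArg s.f hc
      rw [hs, map_zero] at h1
      exact h1
    obtain ⟨m1, hm1⟩ := h2 y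
    obtain ⟨x1, hx1⟩ := (h3 (s.f c - M2.dg.d m1)).1 (by rw [map_sub, ← hdp, hm1, hy, sub_self])
    have e3 : M1.dg.d x1 = - r.f c := by
      apply h1
      rw [← hdi, hx1, map_sub, M2.dg.d_d, sub_zero, map_neg]
      exact (neg_eq_of_add_eq_zero_right e2).symm
    refine ⟨t.f x1 + j.f m1, ?_⟩
    rw [LDt_d hj ht, e3, neg_neg, hx1, sub_add_cancel, hsum]
  · intro y hy
    obtain ⟨m, hm⟩ := h2 y
    obtain ⟨x0, hx0⟩ := (h3 (M2.dg.d m)).1 (by rw [← hdp, hm, hy])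
    have e1 : M1.dg.d x0 = 0 := by
      apply h1
      rw [← hdi, hx0, M2.dg.d_d, map_zero]
    refine ⟨t.f (- x0) + j.f m, ?_, 0, ?_⟩
    · rw [LDt_d hj ht, map_neg i.f, map_neg M1.dg.d, e1, hx0, neg_zero, neg_zero,
        neg_add_cancel, map_zero, map_zero, add_zero]
    · rw [hqf, hs, hm, map_zero, sub_self]

end copy

/-- PROOF. `isCone_cone φ h.1 : IsCone φ (cone φ h.1)`; the cone is acyclic (`IsCone.qiso_iff`,
`Pool/Agent/Lib/MP_6e5bed_ag_NC/Acy.lean`), so `tb (cone φ _) Z` is acyclic by `hZ`, and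
`(tbR (base k) Z).isCone` says that it is the cone of `φ.tbR Z`; `IsCone.qiso_iff` again. (Compare
`RQIso.tbR` at the end of `Lib/MP_6e5bed_ag_NC/Clos.lean` and `rtb_qiso` in
`Lib/MP_6e5bed_ag_CV/RTb.lean`.) -/
theorem LFlat.qiso {Z : Bim W B} (hZ : LFlat Z) {M N : Bim (base k) W} {φ : GMap 0 M N}
    (h : QIso φ) : QIso (φ.tbR Z) := by
  have hc : IsCone φ (MP_6e5bed_ag_NC.cone φ h.1) := isCone_cone φ h.1
  have h2 : Acyc (tb (MP_6e5bed_ag_NC.cone φ h.1) Z) := hZ _ ((hc.qiso_iff h.1).1 h)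
  have h3 : IsCone (φ.tbR Z) (tb (MP_6e5bed_ag_NC.cone φ h.1) Z) :=
    (MP_6e5bed_ag_NC.tbR (base k) Z).isCone hc
  exact (h3.qiso_iff ((MP_6e5bed_ag_NC.tbR (base k) Z).closed h.1)).2 h2

/-- A short exact sequence of right modules stays distinguished after the tensor product with a flat
left module.

PROOF. Copy `Lib/MP_6e5bed_ag_PS/DistTb.lean`, `dist_tb` (with its private lemmas `DistTb_d`,
`DistTb_dist`, `DistTb_qiso`); the only change: `hqT` is `hZ.qiso hq` (the lemma above). -/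
theorem dist_tbF {M1 M2 M3 : Bim (base k) W} (i : GMap 0 M1 M2) (p : GMap 0 M2 M3)
    (hi : i.dd = 0) (hp : p.dd = 0) (h1 : Function.Injective i.f) (h2 : Function.Surjective p.f)
    (h3 : ∀ x, p.f x = 0 ↔ ∃ y, i.f y = x) {Z : Bim W B} (hZ : LFlat Z) :
    Dist (gc (i.tbR Z) (tbR_dd i hi Z)) (gc (p.tbR Z) (tbR_dd p hp Z)) := by
  have hz : ∀ x, p.f (i.f x) = 0 := fun x => (h3 _).2 ⟨x, rfl⟩
  obtain ⟨t, j, r, s, hr, hj, ht, hrt, hsj, hrj, hst, hsum⟩ := isCone_cone i hi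
  have hq : QIso (s.comp p (add_zero 0)) :=
    LDt_qiso i p hi hp h1 h2 h3 t j r s hj ht hrt hsj hrj hst hsum
  have hqT : QIso ((s.comp p (add_zero 0)).tbR Z) := hZ.qiso hq
  have he : (s.comp p (add_zero 0)).tbR Z = (s.tbR Z).comp (p.tbR Z) (add_zero 0) :=
    GMap.ext ((MP_6e5bed_ag_NC.tbR (base k) Z).map_comp s p (add_zero 0))
  rw [he] at hqT
  refine LDt_dist (i.tbR Z) (p.tbR Z) _ _ ((MP_6e5bed_ag_NC.tbR (base k) Z).map_comp_zero hz)
    (t.tbR Z) (j.tbR Z) (r.tbR Z) (s.tbR Z) ((MP_6e5bed_ag_NC.tbR (base k) Z).closed hj) ?_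
    ((MP_6e5bed_ag_NC.tbR (base k) Z).map_inv (neg_add_cancel 1) hrt)
    ((MP_6e5bed_ag_NC.tbR (base k) Z).map_inv (add_zero 0) hsj)
    ((MP_6e5bed_ag_NC.tbR (base k) Z).map_comp_zero hrj)
    ((MP_6e5bed_ag_NC.tbR (base k) Z).map_comp_zero hst) ?_ hqT
  · intro x
    have e1 := (MP_6e5bed_ag_NC.tbR (base k) Z).map_D t (neg_add_cancel 1) x
    have e2 := (MP_6e5bed_ag_NC.tbR (base k) Z).map_comp i j (add_zero 0) x
    have e3 : t.D (neg_add_cancel 1) = i.comp j (add_zero 0) := GMap.ext ht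
    rw [e3] at e1
    exact e1.symm.trans e2
  · intro x
    have e1 := (MP_6e5bed_ag_NC.tbR (base k) Z).map_comp r t (add_neg_cancel 1) x
    have e2 := (MP_6e5bed_ag_NC.tbR (base k) Z).map_comp s j (add_zero 0) x
    have e3 := (MP_6e5bed_ag_NC.tbR (base k) Z).map_add (r.comp t (add_neg_cancel 1))
      (s.comp j (add_zero 0)) x
    have e4 : r.comp t (add_neg_cancel 1) + s.comp j (add_zero 0) =
        GMap.id (MP_6e5bed_ag_NC.cone i hi) := GMap.ext hsum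
    rw [e4, (MP_6e5bed_ag_NC.tbR (base k) Z).map_id, e1, e2] at e3
    exact e3.symm

end Pool.Agent.MP_6e5bed_ag_GG
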