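import Pool.Agent.Lib.MP_6e5bed_ag_GG.Xd

set_option autoImplicit false
set_option linter.unusedVariables false
set_option linter.unusedSectionVars false

/-!
# MP_6e5bed_ag, THEOREM G: the subspaces `O(b)_a E0` of a vector space over the function field
-/

noncomputable section

namespace Pool.Agent.MP_6e5bed_ag_GG

universe u

namespace XD

variable {k : Type u} [Field k] (X : XD k) (U : Type u) [AddCommGroup U] [Module k U]
  [Module X.M U] [IsScalarTower k X.M U] (E0 : Submodule k U)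

/-- `O(b)_a E0`, for a subspace `E0` of the vector space `U` over the function field -/
def Fs (b : X.D → ℤ) (a : Set X.i) : Submodule k U :=
  Submodule.span k {z | ∃ u ∈ X.O b a, ∃ v ∈ E0, z = u • v}

variable {X U E0}

theorem Fs_mem {b : X.D → ℤ} {a : Set X.i} {u : X.M} (hu : u ∈ X.O b a) {v : U} (hv : v ∈ E0) :
    u • v ∈ X.Fs U E0 b a := Submodule.subset_span ⟨u, hu, v, hv, rfl⟩

theorem Fs_mono (b : X.D → ℤ) {a a' : Set X.i} (h : a ⊆ a') : X.Fs U E0 b a ≤ X.Fs U E0 b a' :=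
  Submodule.span_mono fun _ ⟨u, hu, v, hv, hz⟩ => ⟨u, X.mono b h hu, v, hv, hz⟩

/-- induction -/
theorem Fs_ind {b : X.D → ℤ} {a : Set X.i} {S : Submodule k U} (x : X.M)
    (h : ∀ u ∈ X.O b a, ∀ v ∈ E0, (x * u) • v ∈ S) {z : U} (hz : z ∈ X.Fs U E0 b a) :
    x • z ∈ S := by
  unfold Fs at hz
  induction hz using Submodule.span_induction with
  | mem z hz =>
    obtain ⟨u, hu, v, hv, rfl⟩ := hz
    rw [smul_smul]
    exact h u hu v hv
  | zero =>
    rw [smul_zero]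
    exact zero_mem S
  | add y z _ _ hy hz =>
    rw [smul_add]
    exact add_mem hy hz
  | smul c z _ hz =>
    rw [smul_algebra_smul_comm c x z]
    exact S.smul_mem c hz

theorem Fs_smul {b b' : X.D → ℤ} {a : Set X.i} {x : X.M} (hx : x ∈ X.O b a) {z : U}
    (hz : z ∈ X.Fs U E0 b' a) : x • z ∈ X.Fs U E0 (b + b') a :=
  Fs_ind x (fun _ hu _ hv => Fs_mem (X.mul_mem hx hu) hv) hz

/-- `O(b) ⊆ O(b + e_r)` -/
theorem O_le (b : X.D → ℤ) (r : X.D) (a : Set X.i) : X.O b a ≤ X.O (b + Pi.single r 1) a :=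
  fun u hu => by
    have h := X.mul_mem hu (X.mono _ (Set.empty_subset a) (X.one_mem' r))
    rwa [mul_one] at h

/-- `s_r O(b) ⊆ O(b + e_r)` -/
theorem s_mul_mem {b : X.D → ℤ} (r : X.D) {a : Set X.i} {u : X.M} (hu : u ∈ X.O b a) :
    (X.s r : X.M) * u ∈ X.O (b + Pi.single r 1) a := by
  have h := X.mul_mem hu (X.mono _ (Set.empty_subset a) (X.s_mem r))
  rwa [mul_comm] at h

theorem Fs_le (b : X.D → ℤ) (r : X.D) (a : Set X.i) :
    X.Fs U E0 b a ≤ X.Fs U E0 (b + Pi.single r 1) a :=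
  Submodule.span_mono fun _ ⟨u, hu, v, hv, hz⟩ => ⟨u, X.O_le b r a hu, v, hv, hz⟩

theorem s_smul_mem {b : X.D → ℤ} (r : X.D) {a : Set X.i} {z : U} (hz : z ∈ X.Fs U E0 b a) :
    (X.s r : X.M) • z ∈ X.Fs U E0 (b + Pi.single r 1) a :=
  Fs_ind _ (fun _ hu _ hv => Fs_mem (s_mul_mem r hu) hv) hz

/-- on a chart `1` or `s_r` generates `O(e_r)` -/
theorem Fs_step (r : X.D) {a : Set X.i} (ha : a.Nonempty) :
    (∀ b, X.O (b + Pi.single r 1) a = X.O b a ∧
      X.Fs U E0 (b + Pi.single r 1) a = X.Fs U E0 b a) ∨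
    (∀ b, (∀ u, u ∈ X.O (b + Pi.single r 1) a ↔ ((X.s r)⁻¹ : X.Mˣ) * u ∈ X.O b a) ∧
      ∀ z, z ∈ X.Fs U E0 (b + Pi.single r 1) a ↔
        (((X.s r)⁻¹ : X.Mˣ) : X.M) • z ∈ X.Fs U E0 b a) := by
  rcases X.step r ha with h | h
  · refine Or.inl fun b => ⟨h b, ?_⟩
    unfold Fs
    rw [h b]
  · refine Or.inr fun b => ⟨h b, fun z => ⟨fun hz => ?_, fun hz => ?_⟩⟩
    · exact Fs_ind _ (fun u hu v hv => Fs_mem ((h b u).1 hu) hv) hz
    · have h1 := s_smul_mem r hz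
      rwa [smul_smul, Units.mul_inv, one_smul] at h1

/-- every element of `U` is a quotient of an element of `O(b) E0` and a section of `O(b)` -/
theorem Fs_frac (hE : Submodule.span X.M (E0 : Set U) = ⊤) (z : U) :
    ∃ (b : X.D → ℤ) (σ : X.M), σ ∈ X.O b ∅ ∧ σ ≠ 0 ∧ σ • z ∈ X.Fs U E0 b ∅ := by
  have hz : z ∈ Submodule.span X.M (E0 : Set U) := by
    rw [hE]
    exact Submodule.mem_top
  induction hz using Submodule.span_induction with
  | mem v hv => exact ⟨0, 1, X.one_mem ∅, one_ne_zero, Fs_mem (X.one_mem ∅) hv⟩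
  | zero => exact ⟨0, 1, X.one_mem ∅, one_ne_zero, by rw [smul_zero]; exact zero_mem _⟩
  | add y z _ _ hy hz =>
    obtain ⟨b, σ, h1, h2, h3⟩ := hy
    obtain ⟨b', σ', h1', h2', h3'⟩ := hz
    refine ⟨b + b', σ * σ', X.mul_mem h1 h1', mul_ne_zero h2 h2', ?_⟩
    rw [smul_add]
    refine add_mem ?_ ?_
    · rw [mul_comm, add_comm, mul_smul]
      exact Fs_smul h1' h3
    · rw [mul_smul]
      exact Fs_smul h1 h3'
  | smul c z _ hz =>
    obtain ⟨b, σ, h1, h2, h3⟩ := hz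
    obtain ⟨b', σ1, σ2, k1, k2, k3, rfl⟩ := X.frac c
    refine ⟨b' + b, σ1 * σ, X.mul_mem k1 h1, mul_ne_zero k3 h2, ?_⟩
    have e : (σ1 * σ) • (σ2 / σ1) • z = σ2 • σ • z := by
      rw [smul_smul, smul_smul]
      congr 1
      field_simp
    rw [e]
    exact Fs_smul k2 h3

end XD

end Pool.Agent.MP_6e5bed_ag_GG
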