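import Pool.Agent.Lib.MP_6e5bed_ag_GG.L0
import Pool.Agent.Lib.MP_6e5bed_ag_GG.Xa
import Pool.Agent.Lib.MP_6e5bed_ag_GG.Xf

set_option autoImplicit false
set_option linter.unusedVariables false
set_option linter.unusedSectionVars false

/-!
# MP_6e5bed_ag, THEOREM G, LOC: lattices of rows and columns over the function field of an X-datum
-/

noncomputable section

namespace Pool.Agent.MP_6e5bed_ag_GG

open Pool.Agent.MP_6e5bed_ag_NC Pool.Agent.MP_6e5bed_ag_PN
open Pool.Agent.MP_6e5bed_ag_NS (Cx CHom CPr co CEx concH conc_map)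

universe u

variable {k : Type u} [Field k]

/-! ### One-sided modules in degree zero -/

section one

variable {R : Type u} [Ring R] [Algebra k R] {M M' : Type u} [AddCommGroup M] [Module k M]
  [AddCommGroup M'] [Module k M']

/-- a left module in degree zero -/
def kbL (l : R →ₗ[k] M →ₗ[k] M) (h1 : ∀ m, l 1 m = m) (h2 : ∀ a a' m, l (a * a') m = l a (l a' m)) :
    Bim (ring k R) (base k) :=
  res (DHom.id _) (DHom.unit (ring k k)) (KBi.bim
    { M := M
      l := l
      r := LinearMap.lsmul k M
      l_one := h1
      r_one := fun m => one_smul k m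
      l_mul := h2
      r_mul := fun b b' m => by
        change (b * b') • m = b' • b • m
        rw [mul_comm, mul_smul]
      l_r := fun a b m => (l a).map_smul b m : KBi k R k })

/-- a right module in degree zero -/
def kbR (r : R →ₗ[k] M →ₗ[k] M) (h1 : ∀ m, r 1 m = m) (h2 : ∀ a a' m, r (a * a') m = r a' (r a m)) :
    Bim (base k) (ring k R) :=
  res (DHom.unit (ring k k)) (DHom.id _) (KBi.bim
    { M := M
      l := LinearMap.lsmul k M
      r := r
      l_one := fun m => one_smul k m
      r_one := h1
      l_mul := fun b b' m => mul_smul b b' m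
      r_mul := h2
      l_r := fun a b m => ((r b).map_smul a m).symm : KBi k k R })

end one

/-! ### Rows and columns -/

section mat

variable {I : Type} [Fintype I] {K : Type u} [Field K] [Algebra k K] (E : Type u) [AddCommGroup E]
  [Module k E] [Module K E] [IsScalarTower k K E]

/-- matrices act on columns: `(g v)_e = ∑ g_{ee'} v_{e'}` -/
def colA : Matrix I I K →ₗ[k] (I → E) →ₗ[k] (I → E) :=
  LinearMap.mk₂ k (fun g v e => ∑ e', g e e' • v e')
    (fun g g' v => funext fun e => by
      simp only [Matrix.add_apply, add_smul, Finset.sum_add_distrib, Pi.add_apply])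
    (fun c g v => funext fun e => by
      simp only [Matrix.smul_apply, smul_assoc, Finset.smul_sum, Pi.smul_apply])
    (fun g v v' => funext fun e => by
      simp only [Pi.add_apply, smul_add, Finset.sum_add_distrib])
    (fun c g v => funext fun e => by
      simp only [Pi.smul_apply, Finset.smul_sum]
      exact Finset.sum_congr rfl fun e' _ => (smul_algebra_smul_comm c (g e e') (v e')))

/-- matrices act on rows: `(f g)_{e'} = ∑ g_{ee'} f_e` -/
def rowA : Matrix I I K →ₗ[k] (I → E) →ₗ[k] (I → E) :=
  LinearMap.mk₂ k (fun g v e' => ∑ e, g e e' • v e)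
    (fun g g' v => funext fun e => by
      simp only [Matrix.add_apply, add_smul, Finset.sum_add_distrib, Pi.add_apply])
    (fun c g v => funext fun e => by
      simp only [Matrix.smul_apply, smul_assoc, Finset.smul_sum, Pi.smul_apply])
    (fun g v v' => funext fun e => by
      simp only [Pi.add_apply, smul_add, Finset.sum_add_distrib])
    (fun c g v => funext fun e => by
      simp only [Pi.smul_apply, Finset.smul_sum]
      exact Finset.sum_congr rfl fun e' _ => (smul_algebra_smul_comm c (g e' e) (v e')))

variable {E}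

theorem colA_apply (g : Matrix I I K) (v : I → E) (e : I) :
    colA (k := k) E g v e = ∑ e', g e e' • v e' := rfl

theorem rowA_apply (g : Matrix I I K) (v : I → E) (e' : I) :
    rowA (k := k) E g v e' = ∑ e, g e e' • v e := rfl

theorem colA_one [DecidableEq I] (v : I → E) : colA (k := k) E (1 : Matrix I I K) v = v := by
  funext e
  rw [colA_apply, Finset.sum_eq_single e]
  · rw [Matrix.one_apply_eq, one_smul]
  · intro e' _ h
    rw [Matrix.one_apply_ne (Ne.symm h), zero_smul]
  · intro h
    exact absurd (Finset.mem_univ e) h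

theorem rowA_one [DecidableEq I] (v : I → E) : rowA (k := k) E (1 : Matrix I I K) v = v := by
  funext e
  rw [rowA_apply, Finset.sum_eq_single e]
  · rw [Matrix.one_apply_eq, one_smul]
  · intro e' _ h
    rw [Matrix.one_apply_ne h, zero_smul]
  · intro h
    exact absurd (Finset.mem_univ e) h

theorem colA_mul (g g' : Matrix I I K) (v : I → E) :
    colA (k := k) E (g * g') v = colA (k := k) E g (colA (k := k) E g' v) := by
  funext e
  simp only [colA_apply, Matrix.mul_apply, Finset.sum_smul, Finset.smul_sum, mul_smul]
  exact Finset.sum_comm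

theorem rowA_mul (g g' : Matrix I I K) (v : I → E) :
    rowA (k := k) E (g * g') v = rowA (k := k) E g' (rowA (k := k) E g v) := by
  funext e
  simp only [rowA_apply, Matrix.mul_apply, Finset.sum_smul, Finset.smul_sum]
  rw [Finset.sum_comm]
  refine Finset.sum_congr rfl fun q _ => Finset.sum_congr rfl fun p _ => ?_
  rw [mul_comm, mul_smul]

end mat

/-! ### Presheaves in degree zero -/

/-- A presheaf of vector spaces, given by subspaces of a vector space, as a presheaf of complexes. -/
def subPC {ι : Type} {V : Type u} [AddCommGroup V] [Module k V] (Z : Set ι → Submodule k V)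
    (h : ∀ {a a' : Set ι}, a ⊆ a' → Z a ≤ Z a') : PC k ι where
  X := fun c => Cx.conc k (Z c.1)
  ρ := fun {c d} hc => concH (Submodule.inclusion (h hc))
  ρ_id := fun _ _ => rfl
  ρ_ρ := fun _ _ _ => rfl

section sub

variable {i : Type} [Fintype i] (A : CA k i) {V : Type u} [AddCommGroup V] [Module k V]
  (N : Set i → Submodule k V) (hN : ∀ {a a' : Set i}, a ⊆ a' → N a ≤ N a')

/-- The presheaf of left modules which is given by subspaces `N_c` of a vector space with an action
of `A_c`. -/
def subL (l : ∀ c : Ch i, A.A c →ₗ[k] N c.1 →ₗ[k] N c.1) (h1 : ∀ c m, l c 1 m = m)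
    (h2 : ∀ c a a' m, l c (a * a') m = l c a (l c a' m))
    (h3 : ∀ {c d : Ch i} (h : c ≤ d) (a : A.A c) (m : N c.1),
      Submodule.inclusion (hN h) (l c a m) = l d (A.res h a) (Submodule.inclusion (hN h) m)) :
    PB A.pa (PA.con i (base k)) where
  M := fun c => kbL (l c) (h1 c) (h2 c)
  ρ := fun {c d} h =>
    { f := Submodule.inclusion (hN h)
      deg := fun {i x} hx => by
        rw [add_zero]
        exact conc_map (Submodule.inclusion (hN h)) hx
      map_l := fun a x => by
        rw [Dg.sp_zero]
        exact h3 h a x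
      map_r := fun b x => by
        refine (congrArg (Submodule.inclusion (hN h))
          (base_r (kbL (l c) (h1 c) (h2 c)) b x)).trans ?_
        refine Eq.trans ?_ (base_r (res (A.pa.r h) ((PA.con i (base k)).r h)
          (kbL (l d) (h1 d) (h2 d))) b (Submodule.inclusion (hN h) x)).symm
        exact (Submodule.inclusion (hN h)).map_smul (show k from b) x }
  dd := fun {c d} h => LinearMap.ext fun x => by
    rw [GMap.dd_apply, sg_zero, one_smul, LinearMap.zero_apply, sub_eq_zero]
    exact (map_zero (Submodule.inclusion (hN h))).symm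
  ρ_id := fun _ _ => rfl
  ρ_ρ := fun _ _ _ => rfl

/-- The presheaf of right modules which is given by subspaces `N_c` of a vector space with an action
of `A_c`. -/
def subR (r : ∀ c : Ch i, A.A c →ₗ[k] N c.1 →ₗ[k] N c.1) (h1 : ∀ c m, r c 1 m = m)
    (h2 : ∀ c a a' m, r c (a * a') m = r c a' (r c a m))
    (h3 : ∀ {c d : Ch i} (h : c ≤ d) (a : A.A c) (m : N c.1),
      Submodule.inclusion (hN h) (r c a m) = r d (A.res h a) (Submodule.inclusion (hN h) m)) :
    PB (PA.con i (base k)) A.pa where
  M := fun c => kbR (r c) (h1 c) (h2 c)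
  ρ := fun {c d} h =>
    { f := Submodule.inclusion (hN h)
      deg := fun {i x} hx => by
        rw [add_zero]
        exact conc_map (Submodule.inclusion (hN h)) hx
      map_l := fun b x => by
        rw [Dg.sp_zero]
        refine (congrArg (Submodule.inclusion (hN h))
          (base_l (kbR (r c) (h1 c) (h2 c)) b x)).trans ?_
        refine Eq.trans ?_ (base_l (res ((PA.con i (base k)).r h) (A.pa.r h)
          (kbR (r d) (h1 d) (h2 d))) b (Submodule.inclusion (hN h) x)).symm
        exact (Submodule.inclusion (hN h)).map_smul (show k from b) x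
      map_r := fun a x => h3 h a x }
  dd := fun {c d} h => LinearMap.ext fun x => by
    rw [GMap.dd_apply, sg_zero, one_smul, LinearMap.zero_apply, sub_eq_zero]
    exact (map_zero (Submodule.inclusion (hN h))).symm
  ρ_id := fun _ _ => rfl
  ρ_ρ := fun _ _ _ => rfl

end sub

section xd

variable (X : XD k)

/-- columns (or rows) with entries in given subspaces -/
def colS {V : Type u} [AddCommGroup V] [Module k V] (S : X.II → Submodule k V) :
    Submodule k (X.II → V) where
  carrier := {v | ∀ e, v e ∈ S e}
  add_mem' := fun h h' e => add_mem (h e) (h' e)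
  zero_mem' := fun e => zero_mem _
  smul_mem' := fun c _ h e => (S e).smul_mem c (h e)

theorem colS_mono {V : Type u} [AddCommGroup V] [Module k V] {S S' : X.II → Submodule k V}
    (h : ∀ e, S e ≤ S' e) : colS X S ≤ colS X S' := fun v hv e => h e (hv e)

variable {X} in
/-- the restriction of the action of matrices on columns -/
def actR {V : Type u} [AddCommGroup V] [Module k V] (T : Subalgebra k (Matrix X.II X.II X.M))
    (S : Submodule k V) (α : Matrix X.II X.II X.M →ₗ[k] V →ₗ[k] V)
    (h : ∀ g ∈ T, ∀ v ∈ S, α g v ∈ S) : T →ₗ[k] S →ₗ[k] S :=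
  LinearMap.mk₂ k (fun g v => ⟨α g.1 v.1, h g.1 g.2 v.1 v.2⟩)
    (fun g g' v => Subtype.ext (LinearMap.map_add₂ α g.1 g'.1 v.1))
    (fun c g v => Subtype.ext (LinearMap.map_smul₂ α c g.1 v.1))
    (fun g v v' => Subtype.ext (map_add (α g.1) v.1 v'.1))
    (fun c g v => Subtype.ext (map_smul (α g.1) c v.1))

theorem actR_coe {V : Type u} [AddCommGroup V] [Module k V]
    (T : Subalgebra k (Matrix X.II X.II X.M)) (S : Submodule k V)
    (α : Matrix X.II X.II X.M →ₗ[k] V →ₗ[k] V) (h : ∀ g ∈ T, ∀ v ∈ S, α g v ∈ S) (g : T) (v : S) :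
    (actR T S α h g v : V) = α (g : Matrix X.II X.II X.M) v := rfl

variable (U : Type u) [AddCommGroup U] [Module k U] [Module X.M U] [IsScalarTower k X.M U]

theorem colF_mem (E0 : Submodule k U) (a : Set X.i) {g : Matrix X.II X.II X.M}
    (hg : g ∈ X.AXs a) {v : X.II → U} (hv : v ∈ colS X (fun e => X.Fs U E0 (X.tw e) a)) :
    colA (k := k) U g v ∈ colS X (fun e => X.Fs U E0 (X.tw e) a) := fun e => by
  rw [colA_apply]
  refine Submodule.sum_mem _ fun e' _ => ?_
  have h := XD.Fs_smul (hg e e') (hv e')
  rwa [sub_add_cancel] at h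

/-- The presheaf of the columns with entries in `F(e)_a = O(e)_a E0`. -/
def colF (E0 : Submodule k U) : PB X.ca.pa (PA.con X.i (base k)) :=
  subL X.ca (fun a => colS X (fun e => X.Fs U E0 (X.tw e) a))
    (fun h => colS_mono X fun e => XD.Fs_mono _ h)
    (fun c => actR (X.AXs c.1) _ (colA (k := k) U) (fun g hg v hv => colF_mem X U E0 c.1 hg hv))
    (fun c m => Subtype.ext (colA_one m.1)) (fun c a a' m => Subtype.ext (colA_mul a.1 a'.1 m.1))
    (fun h a m => rfl)

end xd

end Pool.Agent.MP_6e5bed_ag_GG
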