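import Pool.Agent.Lib.MP_6e5bed_ag_GG.LKz

set_option autoImplicit false
set_option linter.unusedVariables false
set_option linter.unusedSectionVars false

/-!
# MP_6e5bed_ag, THEOREM G, LOC: multiples of the twists
-/

noncomputable section

namespace Pool.Agent.MP_6e5bed_ag_GG

open Pool.Agent.MP_6e5bed_ag_NC Pool.Agent.MP_6e5bed_ag_PN
open Pool.Agent.MP_6e5bed_ag_NS (Cx CHom CPr co CEx concH conc_map)
open scoped TensorProduct

universe u

variable {k : Type u} [Field k] {X : XD k} {U : Type u} [AddCommGroup U] [Module k U]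
  [Module X.M U] [IsScalarTower k X.M U] {E0 : Submodule k U}
  {Zt : Bim (TT X.ca) (base k)}
  {ζ : GMap 0 Zt (cBR (colF X U E0) (LL X.i) (FS.e X.i))} {hζ : ζ.dd = 0}

/-- Multiplication with `σ` is an isomorphism `gsO b σ → twO b`.

PROOF. `RO.good_retract` with `R := (gsO X U E0 b σ).ro`, `S := (twO X U E0 b).ro`; the maps are
`(F : EOH _ _).ro` with `φ = σ •`, `ψ = σ •` from `gsO b σ` to `twO b`, and `φ = σ⁻¹ •`, `ψ = σ⁻¹ •`
in the other direction. -/
theorem gs_good (b : X.D → ℤ) {σ : X.M} (hσ : σ ≠ 0) (h : (twO X U E0 b).G ζ hζ) :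
    (gsO X U E0 b σ).G ζ hζ := by
  sorry

end Pool.Agent.MP_6e5bed_ag_GG
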