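import Pool.Agent.Lib.MP_6e5bed_ag_GG.LTw

set_option autoImplicit false
set_option linter.unusedVariables false
set_option linter.unusedSectionVars false

/-!
# MP_6e5bed_ag, THEOREM G, LOC: exact sequences of lattices, the Koszul sequences
-/

noncomputable section

namespace Pool.Agent.MP_6e5bed_ag_GG

open Pool.Agent.MP_6e5bed_ag_NC Pool.Agent.MP_6e5bed_ag_PN
open Pool.Agent.MP_6e5bed_ag_NS (Cx CHom CPr co CEx concH conc_map)
open scoped TensorProduct

universe u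

variable {k : Type u} [Field k] {X : XD k} {U : Type u} [AddCommGroup U] [Module k U]
  [Module X.M U] [IsScalarTower k X.M U] {E0 : Submodule k U}

/-- Exact sequences of lattices on the charts. -/
structure EOEx {O1 O2 O3 : EO X U E0} (F : EOH O1 O2) (G : EOH O2 O3) : Prop where
  iP : Function.Injective F.φ
  iZ : Function.Injective F.ψ
  zP : ∀ x, G.φ (F.φ x) = 0
  zZ : ∀ z, G.ψ (F.ψ z) = 0
  sP : ∀ a : Set X.i, a.Nonempty → ∀ e, ∀ w ∈ O3.P e a, ∃ x ∈ O2.P e a, G.φ x = w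
  sZ : ∀ a : Set X.i, a.Nonempty → ∀ w ∈ O3.Z a, ∃ x ∈ O2.Z a, G.ψ x = w
  eP : ∀ a : Set X.i, a.Nonempty → ∀ e, ∀ x ∈ O2.P e a, G.φ x = 0 →
    ∃ y ∈ O1.P e a, F.φ y = x
  eZ : ∀ a : Set X.i, a.Nonempty → ∀ z ∈ O2.Z a, G.ψ z = 0 → ∃ y ∈ O1.Z a, F.ψ y = z

/-- PROOF. `EOH.ro_f`, `EOH.fR_coe`, `Subtype.ext`, `funext`; choose preimages in every component
(`choose`); `c.2.1 : c.1.Nonempty`. -/
theorem EOEx.pb {O1 O2 O3 : EO X U E0} {F : EOH O1 O2} {G : EOH O2 O3} (h : EOEx F G) :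
    PBEx F.ro.f G.ro.f := by
  intro c
  have hc : c.1.Nonempty := c.2.1
  refine ⟨fun (x : colS X (fun e => O1.P e c.1)) (y : colS X (fun e => O1.P e c.1)) hxy => ?_,
    fun (w : colS X (fun e => O3.P e c.1)) => ?_,
    fun (x : colS X (fun e => O2.P e c.1)) => ⟨fun hx => ?_, ?_⟩⟩
  · have e1 : F.fR c.1 x = F.fR c.1 y := hxy
    refine Subtype.ext (funext fun e => h.iP ?_)
    have e2 := congrFun (congrArg Subtype.val e1) e
    rwa [EOH.fR_coe, EOH.fR_coe] at e2
  · have h1 : ∀ e, ∃ x ∈ O2.P e c.1, G.φ x = w.1 e := fun e => h.sP c.1 hc e _ (w.2 e)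
    choose g hg1 hg2 using h1
    have e1 : G.fR c.1 ⟨g, hg1⟩ = w := Subtype.ext (funext hg2)
    exact ⟨(⟨g, hg1⟩ : colS X (fun e => O2.P e c.1)), e1⟩
  · have e1 : G.fR c.1 x = 0 := hx
    have h1 : ∀ e, ∃ y ∈ O1.P e c.1, F.φ y = x.1 e := fun e => by
      refine h.eP c.1 hc e _ (x.2 e) ?_
      have e2 := congrFun (congrArg Subtype.val e1) e
      rw [EOH.fR_coe] at e2
      exact e2
    choose g hg1 hg2 using h1
    have e3 : F.fR c.1 ⟨g, hg1⟩ = x := Subtype.ext (funext hg2)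
    exact ⟨(⟨g, hg1⟩ : colS X (fun e => O1.P e c.1)), e3⟩
  · rintro ⟨(y : colS X (fun e => O1.P e c.1)), hy⟩
    have e1 : F.fR c.1 y = x := hy
    have e2 : G.fR c.1 x = 0 := by
      rw [← e1]
      refine Subtype.ext (funext fun e => ?_)
      rw [EOH.fR_coe, EOH.fR_coe, h.zP]
      rfl
    exact e2

/-- PROOF. `EOH.ro_g`, `EOH.fZ_coe`, `Subtype.ext`. -/
theorem EOEx.pc {O1 O2 O3 : EO X U E0} {F : EOH O1 O2} {G : EOH O2 O3} (h : EOEx F G) :
    PCEx F.ro.g G.ro.g := by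
  intro c
  have hc : c.1.Nonempty := c.2.1
  refine ⟨fun (x : O1.Z c.1) (y : O1.Z c.1) hxy => ?_, fun (w : O3.Z c.1) => ?_,
    fun (x : O2.Z c.1) => ⟨fun hx => ?_, ?_⟩⟩
  · have e1 : F.fZ c.1 x = F.fZ c.1 y := hxy
    refine Subtype.ext (h.iZ ?_)
    have e2 := congrArg Subtype.val e1
    rwa [EOH.fZ_coe, EOH.fZ_coe] at e2
  · obtain ⟨x, hx1, hx2⟩ := h.sZ c.1 hc w.1 w.2
    have e1 : G.fZ c.1 ⟨x, hx1⟩ = w := Subtype.ext hx2
    exact ⟨(⟨x, hx1⟩ : O2.Z c.1), e1⟩
  · have e1 : G.fZ c.1 x = 0 := hx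
    have e2 := congrArg Subtype.val e1
    rw [EOH.fZ_coe] at e2
    obtain ⟨y, hy1, hy2⟩ := h.eZ c.1 hc x.1 x.2 e2
    have e3 : F.fZ c.1 ⟨y, hy1⟩ = x := Subtype.ext hy2
    exact ⟨(⟨y, hy1⟩ : O1.Z c.1), e3⟩
  · rintro ⟨(y : O1.Z c.1), hy⟩
    have e1 : F.fZ c.1 y = x := hy
    have e2 : G.fZ c.1 x = 0 := by
      rw [← e1]
      refine Subtype.ext ?_
      rw [EOH.fZ_coe, EOH.fZ_coe, h.zZ]
      rfl
    exact e2

variable {Zt : Bim (TT X.ca) (base k)}
  (ζ : GMap 0 Zt (cBR (colF X U E0) (LL X.i) (FS.e X.i))) (hζ : ζ.dd = 0)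

/-- The cup product for the lattice `O` is a quasi-isomorphism. -/
def EO.G (O : EO X U E0) : Prop := O.ro.Good ζ hζ

variable {ζ hζ}

/-- the inclusions of the summands, `j = false, true` -/
def dblI (O : EO X U E0) (j : Bool) : EOH O (O.prod O) where
  φ := if j then LinearMap.inr X.M O.E O.E else LinearMap.inl X.M O.E O.E
  ψ := if j then LinearMap.inr X.M O.Y O.Y else LinearMap.inl X.M O.Y O.Y
  hβ := fun x v => by
    cases j
    · exact Prod.ext rfl (by
        change (0 : O.Y) = O.β 0 v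
        rw [map_zero, LinearMap.zero_apply])
    · exact Prod.ext (by
        change (0 : O.Y) = O.β 0 v
        rw [map_zero, LinearMap.zero_apply]) rfl
  hP := fun {e a x} hx => by
    cases j
    · exact ⟨hx, zero_mem _⟩
    · exact ⟨zero_mem _, hx⟩
  hZ := fun {a z} hz => by
    cases j
    · exact ⟨hz, zero_mem _⟩
    · exact ⟨zero_mem _, hz⟩

/-- the projections to the summands -/
def dblP (O : EO X U E0) (j : Bool) : EOH (O.prod O) O where
  φ := if j then LinearMap.snd X.M O.E O.E else LinearMap.fst X.M O.E O.E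
  ψ := if j then LinearMap.snd X.M O.Y O.Y else LinearMap.fst X.M O.Y O.Y
  hβ := fun x v => by
    cases j
    · rfl
    · rfl
  hP := fun {e a x} hx => by
    cases j
    · exact hx.1
    · exact hx.2
  hZ := fun {a z} hz => by
    cases j
    · exact hz.1
    · exact hz.2

/-- PROOF. `RO.good_sum` for `J = Bool`, `Rj := fun _ => O.ro`, `(dblI O j).ro`, `(dblP O j).ro`;
`Fintype.sum_bool`. -/
theorem dbl_good (O : EO X U E0) (h : O.G ζ hζ) : (O.prod O).G ζ hζ := by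
  refine RO.good_sum (J := Bool) (O.prod O).ro (fun _ => O.ro) (fun j => (dblI O j).ro)
    (fun j => (dblP O j).ro)
    (fun c (x : colS X (fun e => (O.prod O).P e c.1)) => ?_)
    (fun c (z : (O.prod O).Z c.1) => ?_) (fun _ => h)
  · rw [Fintype.sum_bool]
    refine Subtype.ext (funext fun e => ?_)
    exact Prod.ext (zero_add (x.1 e).1) (add_zero (x.1 e).2)
  · rw [Fintype.sum_bool]
    refine Subtype.ext ?_
    exact Prod.ext (zero_add z.1.1) (add_zero z.1.2)

/-- `u ↦ (s u, -u)` -/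
def kosA (b : X.D → ℤ) (r : X.D) : EOH (twO X U E0 b)
    ((twO X U E0 (b + Pi.single r 1)).prod (twO X U E0 (b + Pi.single r 1))) where
  φ := LinearMap.prod ((X.s r : X.M) • LinearMap.id) (-LinearMap.id)
  ψ := LinearMap.prod ((X.s r : X.M) • LinearMap.id) (-LinearMap.id)
  hβ := fun (x : X.M) v => Prod.ext (by
      change (X.s r : X.M) • (x • v) = ((X.s r : X.M) * x) • v
      rw [mul_smul]) (by
      change -(x • v) = (-x) • v
      rw [neg_smul])
  hP := fun {e a x} hx => by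
    have e1 : b - X.tw e + Pi.single r 1 = b + Pi.single r 1 - X.tw e := by abel
    refine ⟨?_, ?_⟩
    · have h := XD.s_mul_mem r hx
      rwa [e1] at h
    · have h := X.O_le _ r a hx
      rw [e1] at h
      exact neg_mem h
  hZ := fun {a} {z : U} (hz : z ∈ X.Fs U E0 b a) => by
    have h1 : (X.s r : X.M) • z ∈ X.Fs U E0 (b + Pi.single r 1) a := XD.s_smul_mem r hz
    have h2 : -z ∈ X.Fs U E0 (b + Pi.single r 1) a := Submodule.neg_mem _ (XD.Fs_le b r a hz)
    refine ⟨?_, ?_⟩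
    · exact h1
    · exact h2

/-- `(u, v) ↦ u + s v` -/
def kosB (b : X.D → ℤ) (r : X.D) :
    EOH ((twO X U E0 (b + Pi.single r 1)).prod (twO X U E0 (b + Pi.single r 1)))
      (twO X U E0 (b + Pi.single r 1 + Pi.single r 1)) where
  φ := LinearMap.coprod LinearMap.id ((X.s r : X.M) • LinearMap.id)
  ψ := LinearMap.coprod LinearMap.id ((X.s r : X.M) • LinearMap.id)
  hβ := fun (x : X.M × X.M) v => by
    change x.1 • v + (X.s r : X.M) • (x.2 • v) = (x.1 + (X.s r : X.M) * x.2) • v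
    rw [add_smul, mul_smul]
  hP := fun {e a x} hx => by
    have e1 : b + Pi.single r 1 - X.tw e + Pi.single r 1 =
      b + Pi.single r 1 + Pi.single r 1 - X.tw e := by abel
    have h1 := X.O_le _ r a hx.1
    have h2 := XD.s_mul_mem r hx.2
    rw [e1] at h1 h2
    exact add_mem h1 h2
  hZ := fun {a} {z : U × U} hz =>
    (X.Fs U E0 (b + Pi.single r 1 + Pi.single r 1) a).add_mem
      (XD.Fs_le (U := U) (E0 := E0) _ r a hz.1) (XD.s_smul_mem (U := U) (E0 := E0) r hz.2)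

/-- PROOF. Injective: the second component is `-u`. `zP`: `s u + s (-u) = 0`. The other conditions:
`XD.Fs_step r ha`. First case (`O(b' + e_r)_a = O(b')_a` and `F(b' + e_r)_a = F(b')_a` for all `b'`):
`w ↦ (w, 0)`; if `u + s v = 0`, then `y = -v`. Second case (`u ∈ O(b' + e_r)_a ↔ s⁻¹ u ∈ O(b')_a`, the
same for `F`): `w ↦ (0, s⁻¹ w)`; if `u + s v = 0`, then `y = -v`, and `v ∈ O(b')_a` since
`v = - s⁻¹ u`. Here `b' = b - tw e` (use `b + e_r - tw e = (b - tw e) + e_r`) resp. `b' = b`. -/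
theorem kos_ex (b : X.D → ℤ) (r : X.D) :
    EOEx (kosA (U := U) (E0 := E0) b r) (kosB (U := U) (E0 := E0) b r) := by
  have hs : ∀ w : X.M, (X.s r : X.M) * ((((X.s r)⁻¹ : X.Mˣ) : X.M) * w) = w := fun w => by
    rw [← mul_assoc, Units.mul_inv, one_mul]
  have hs' : ∀ w : X.M, (((X.s r)⁻¹ : X.Mˣ) : X.M) * ((X.s r : X.M) * w) = w := fun w => by
    rw [← mul_assoc, Units.inv_mul, one_mul]
  have ht : ∀ w : U, (X.s r : X.M) • ((((X.s r)⁻¹ : X.Mˣ) : X.M) • w) = w := fun w => by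
    rw [smul_smul, Units.mul_inv, one_smul]
  have ht' : ∀ w : U, (((X.s r)⁻¹ : X.Mˣ) : X.M) • ((X.s r : X.M) • w) = w := fun w => by
    rw [smul_smul, Units.inv_mul, one_smul]
  constructor
  · intro (x : X.M) (y : X.M) hxy
    have h1 : -x = -y := congrArg Prod.snd hxy
    exact neg_inj.1 h1
  · intro (x : U) (y : U) hxy
    have h1 : -x = -y := congrArg Prod.snd hxy
    exact neg_inj.1 h1
  · intro (x : X.M)
    change (X.s r : X.M) * x + (X.s r : X.M) * (-x) = 0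
    ring
  · intro (x : U)
    change (X.s r : X.M) • x + (X.s r : X.M) • (-x) = 0
    rw [smul_neg, add_neg_cancel]
  · intro a ha e (w : X.M) hw
    have e1 : b + Pi.single r 1 + Pi.single r 1 - X.tw e =
      b + Pi.single r 1 - X.tw e + Pi.single r 1 := by abel
    have hw1 : w ∈ X.O (b + Pi.single r 1 - X.tw e + Pi.single r 1) a := by
      rw [← e1]
      exact hw
    rcases XD.Fs_step (X := X) (U := U) (E0 := E0) r ha with h | h
    · rw [(h _).1] at hw1
      refine ⟨((w, 0) : X.M × X.M), ⟨hw1, zero_mem _⟩, ?_⟩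
      change w + (X.s r : X.M) * 0 = w
      ring
    · rw [(h _).1] at hw1
      refine ⟨((0, (((X.s r)⁻¹ : X.Mˣ) : X.M) * w) : X.M × X.M), ⟨zero_mem _, hw1⟩, ?_⟩
      change 0 + (X.s r : X.M) * ((((X.s r)⁻¹ : X.Mˣ) : X.M) * w) = w
      rw [zero_add, hs]
  · intro a ha (w : U) (hw : w ∈ X.Fs U E0 (b + Pi.single r 1 + Pi.single r 1) a)
    rcases XD.Fs_step (X := X) (U := U) (E0 := E0) r ha with h | h
    · rw [(h _).2] at hw
      refine ⟨((w, 0) : U × U), ⟨hw, zero_mem _⟩, ?_⟩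
      change w + (X.s r : X.M) • (0 : U) = w
      rw [smul_zero, add_zero]
    · rw [(h _).2] at hw
      refine ⟨((0, (((X.s r)⁻¹ : X.Mˣ) : X.M) • w) : U × U), ⟨zero_mem _, hw⟩, ?_⟩
      change 0 + (X.s r : X.M) • ((((X.s r)⁻¹ : X.Mˣ) : X.M) • w) = w
      rw [zero_add, ht]
  · intro a ha e (x : X.M × X.M) hx hG
    obtain ⟨hx1, hx2⟩ := hx
    have e1 : b + Pi.single r 1 - X.tw e = b - X.tw e + Pi.single r 1 := by abel
    have hu : x.1 ∈ X.O (b - X.tw e + Pi.single r 1) a := by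
      rw [← e1]
      exact hx1
    have hv : x.2 ∈ X.O (b - X.tw e + Pi.single r 1) a := by
      rw [← e1]
      exact hx2
    have hG' : x.1 + (X.s r : X.M) * x.2 = 0 := hG
    have hy : -x.2 ∈ X.O (b - X.tw e) a := by
      rcases XD.Fs_step (X := X) (U := U) (E0 := E0) r ha with h | h
      · rw [(h _).1] at hv
        exact neg_mem hv
      · rw [(h _).1] at hu
        have e2 : x.1 = (X.s r : X.M) * (-x.2) := by linear_combination hG'
        rw [e2, hs'] at hu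
        exact hu
    refine ⟨-x.2, hy, ?_⟩
    refine Prod.ext ?_ ?_
    · change (X.s r : X.M) * (-x.2) = x.1
      linear_combination -hG'
    · change -(-x.2) = x.2
      exact neg_neg _
  · intro a ha (x : U × U) hx hG
    obtain ⟨hx1, hx2⟩ := hx
    have hu : x.1 ∈ X.Fs U E0 (b + Pi.single r 1) a := hx1
    have hv : x.2 ∈ X.Fs U E0 (b + Pi.single r 1) a := hx2
    have hG' : x.1 + (X.s r : X.M) • x.2 = 0 := hG
    have e2 : (X.s r : X.M) • (-x.2) = x.1 := by
      rw [smul_neg]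
      exact (eq_neg_of_add_eq_zero_left hG').symm
    have hy : -x.2 ∈ X.Fs U E0 b a := by
      rcases XD.Fs_step (X := X) (U := U) (E0 := E0) r ha with h | h
      · rw [(h _).2] at hv
        exact neg_mem hv
      · rw [(h _).2] at hu
        rw [← e2, ht'] at hu
        exact hu
    refine ⟨-x.2, hy, ?_⟩
    refine Prod.ext ?_ ?_
    · exact e2
    · change -(-x.2) = x.2
      exact neg_neg _

theorem kos_up (hZt : LFlat Zt) (b : X.D → ℤ) (r : X.D) (h0 : (twO X U E0 b).G ζ hζ)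
    (h1 : (twO X U E0 (b + Pi.single r 1)).G ζ hζ) :
    (twO X U E0 (b + Pi.single r 1 + Pi.single r 1)).G ζ hζ :=
  RO.good_right (kosA (U := U) (E0 := E0) b r).ro (kosB (U := U) (E0 := E0) b r).ro
    (kos_ex b r).pb (kos_ex b r).pc hZt h0 (dbl_good _ h1)

theorem kos_down (hZt : LFlat Zt) (b : X.D → ℤ) (r : X.D)
    (h1 : (twO X U E0 (b + Pi.single r 1)).G ζ hζ)
    (h2 : (twO X U E0 (b + Pi.single r 1 + Pi.single r 1)).G ζ hζ) :
    (twO X U E0 b).G ζ hζ :=
  RO.good_left (kosA (U := U) (E0 := E0) b r).ro (kosB (U := U) (E0 := E0) b r).ro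
    (kos_ex b r).pb (kos_ex b r).pc hZt (dbl_good _ h1) h2

end Pool.Agent.MP_6e5bed_ag_GG
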