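import Mathlib

set_option autoImplicit false

/-!
# MP_6e5bed_ag, THEOREM G, LOC: induction over the twists
-/

namespace Pool.Agent.MP_6e5bed_ag_GG

/-- A property of the twists which holds for the twists with values `0`, `1` and which is compatible
with the Koszul sequences holds for all twists.

PROOF. For a finite set `S` of directions let `T S` be the statement that `Q b` holds for all `b`
with `b r ∈ {0, 1}` for all `r ∉ S`. `T ∅` is `h0` (`e r = (b r = 1)`). `T S → T (insert r S)` for
`r ∉ S`: let `b` be given, `b' n = Function.update b r n`; `Q (b' 0)` and `Q (b' 1)` by `T S`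
(`b' 0`, `b' 1` have values in `{0, 1}` outside of `S`); by `hu`, `hd`
(`b' (n + 1) = b' n + Pi.single r 1`) and induction upwards and downwards
(`Int.induction_on` for the statement `Q (b' n) ∧ Q (b' (n + 1))`) `Q (b' n)` for all `n`, and
`b = b' (b r)`. Finally `Finset.induction_on Finset.univ`. -/
theorem line_all {D : Type} [Fintype D] [DecidableEq D] (Q : (D → ℤ) → Prop)
    (h0 : ∀ e : D → Bool, Q (fun r => if e r then 1 else 0))
    (hu : ∀ b r, Q b → Q (b + Pi.single r 1) → Q (b + Pi.single r 1 + Pi.single r 1))
    (hd : ∀ b r, Q (b + Pi.single r 1) → Q (b + Pi.single r 1 + Pi.single r 1) → Q b)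
    (b : D → ℤ) : Q b := by
  have key : ∀ (S : Finset D) (b : D → ℤ), (∀ r, r ∉ S → b r = 0 ∨ b r = 1) → Q b := by
    intro S
    induction S using Finset.induction_on with
    | empty =>
      intro b hb
      have h := h0 (fun r => decide (b r = 1))
      have e : (fun r => if decide (b r = 1) then (1 : ℤ) else 0) = b := by
        funext r
        rcases hb r (Finset.notMem_empty r) with h | h
        · simp [h]
        · simp [h]
      exact e ▸ h
    | insert r S hr ih =>
      intro b hb
      have e1 : ∀ n : ℤ, Function.update b r n + Pi.single r 1 = Function.update b r (n + 1) := by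
        intro n
        funext q
        by_cases hq : q = r
        · subst hq
          simp
        · simp [hq]
      have hT : ∀ n : ℤ, n = 0 ∨ n = 1 → Q (Function.update b r n) := by
        intro n hn
        refine ih _ fun q hq => ?_
        by_cases hqr : q = r
        · subst hqr
          simpa using hn
        · have := hb q (by simp [hqr, hq])
          simpa [hqr] using this
      have hall : ∀ n : ℤ, Q (Function.update b r n) ∧ Q (Function.update b r (n + 1)) := by
        intro n
        induction n using Int.induction_on with
        | zero => exact ⟨hT 0 (Or.inl rfl), hT _ (Or.inr (by norm_num))⟩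
        | succ n ih2 =>
          refine ⟨ih2.2, ?_⟩
          have h1 := hu (Function.update b r n) r ih2.1 (by rw [e1]; exact ih2.2)
          rwa [e1, e1] at h1
        | pred n ih2 =>
          have e2 : (-(n : ℤ) - 1) + 1 = -(n : ℤ) := by ring
          have h1 := hd (Function.update b r (-(n : ℤ) - 1)) r (by rw [e1, e2]; exact ih2.1)
            (by rw [e1, e1, e2]; exact ih2.2)
          exact ⟨h1, by rw [e2]; exact ih2.1⟩
      have h2 := (hall (b r)).1
      rwa [Function.update_eq_self] at h2
  exact key Finset.univ b fun r hr => absurd (Finset.mem_univ r) hr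

end Pool.Agent.MP_6e5bed_ag_GG
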