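import Pool.Agent.Lib.MP_6e5bed_ag_GG.LE

set_option autoImplicit false
set_option linter.unusedVariables false
set_option linter.unusedSectionVars false

/-!
# MP_6e5bed_ag, THEOREM G, LOC: lattices of rows with a pairing with the columns of `F`

`EO X U E0` consists of vector spaces `E`, `Y` over the function field with a pairing
`E × U → Y` and of subspaces `P e a ⊆ E`, `Z a ⊆ Y`, such that the rows with entries in `P e a` are a
right module over `AX_a` and the pairing of rows and columns with entries in `F(e)_a` has values in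
`Z a`. It gives an object `O.ro : RO (colF X U E0)`.
-/

noncomputable section

namespace Pool.Agent.MP_6e5bed_ag_GG

open Pool.Agent.MP_6e5bed_ag_NC Pool.Agent.MP_6e5bed_ag_PN
open Pool.Agent.MP_6e5bed_ag_NS (Cx CHom CPr co CEx concH conc_map)

universe u

variable {k : Type u} [Field k]

/-- Lattices of rows with a pairing with the columns of `F`. -/
structure EO (X : XD k) (U : Type u) [AddCommGroup U] [Module k U] [Module X.M U]
    [IsScalarTower k X.M U] (E0 : Submodule k U) where
  E : Type u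
  Y : Type u
  [gE : AddCommGroup E]
  [kE : Module k E]
  [mE : Module X.M E]
  [tE : IsScalarTower k X.M E]
  [gY : AddCommGroup Y]
  [kY : Module k Y]
  [mY : Module X.M Y]
  [tY : IsScalarTower k X.M Y]
  β : E →ₗ[X.M] U →ₗ[X.M] Y
  P : X.II → Set X.i → Submodule k E
  Z : Set X.i → Submodule k Y
  Pm : ∀ (e : X.II) {a a' : Set X.i}, a ⊆ a' → P e a ≤ P e a'
  Zm : ∀ {a a' : Set X.i}, a ⊆ a' → Z a ≤ Z a'
  act : ∀ {a : Set X.i} {e e' : X.II} {c : X.M} {x : E}, c ∈ X.O (X.tw e - X.tw e') a →
    x ∈ P e a → c • x ∈ P e' a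
  pair : ∀ {a : Set X.i} {e : X.II} {x : E} {v : U}, x ∈ P e a → v ∈ X.Fs U E0 (X.tw e) a →
    β x v ∈ Z a

attribute [instance] EO.gE EO.kE EO.mE EO.tE EO.gY EO.kY EO.mY EO.tY

/-- the pairing of rows and columns `∑ β(f_e, v_e)` -/
def rcP {I : Type} [Fintype I] {K : Type u} [Field K] [Algebra k K] {E U Y : Type u}
    [AddCommGroup E] [Module k E] [Module K E] [IsScalarTower k K E] [AddCommGroup U] [Module k U]
    [Module K U] [IsScalarTower k K U] [AddCommGroup Y] [Module k Y] [Module K Y]
    [IsScalarTower k K Y] (β : E →ₗ[K] U →ₗ[K] Y) : (I → E) →ₗ[k] (I → U) →ₗ[k] Y :=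
  LinearMap.mk₂ k (fun f v => ∑ e, β (f e) (v e))
    (fun f f' v => by
      simp only [Pi.add_apply, map_add, LinearMap.add_apply, Finset.sum_add_distrib])
    (fun c f v => by
      rw [Finset.smul_sum]
      refine Finset.sum_congr rfl fun e _ => ?_
      rw [Pi.smul_apply, ← algebraMap_smul K c (f e), map_smul, LinearMap.smul_apply,
        algebraMap_smul])
    (fun f v v' => by
      simp only [Pi.add_apply, map_add, Finset.sum_add_distrib])
    (fun c f v => by
      rw [Finset.smul_sum]
      refine Finset.sum_congr rfl fun e _ => ?_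
      rw [Pi.smul_apply, ← algebraMap_smul K c (v e), map_smul, algebraMap_smul])

theorem rcP_apply {I : Type} [Fintype I] {K : Type u} [Field K] [Algebra k K] {E U Y : Type u}
    [AddCommGroup E] [Module k E] [Module K E] [IsScalarTower k K E] [AddCommGroup U] [Module k U]
    [Module K U] [IsScalarTower k K U] [AddCommGroup Y] [Module k Y] [Module K Y]
    [IsScalarTower k K Y] (β : E →ₗ[K] U →ₗ[K] Y) (f : I → E) (v : I → U) :
    rcP (k := k) β f v = ∑ e, β (f e) (v e) := rfl

theorem rcP_bal {I : Type} [Fintype I] {K : Type u} [Field K] [Algebra k K] {E U Y : Type u}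
    [AddCommGroup E] [Module k E] [Module K E] [IsScalarTower k K E] [AddCommGroup U] [Module k U]
    [Module K U] [IsScalarTower k K U] [AddCommGroup Y] [Module k Y] [Module K Y]
    [IsScalarTower k K Y] (β : E →ₗ[K] U →ₗ[K] Y) (g : Matrix I I K) (f : I → E) (v : I → U) :
    rcP (k := k) β (rowA (k := k) E g f) v = rcP (k := k) β f (colA (k := k) U g v) := by
  simp only [rcP_apply, rowA_apply, colA_apply, map_sum, LinearMap.sum_apply, map_smul,
    LinearMap.smul_apply]
  exact Finset.sum_comm

namespace EO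

variable {X : XD k} {U : Type u} [AddCommGroup U] [Module k U] [Module X.M U]
  [IsScalarTower k X.M U] {E0 : Submodule k U} (O : EO X U E0)

theorem row_mem (a : Set X.i) {g : Matrix X.II X.II X.M} (hg : g ∈ X.AXs a) {f : X.II → O.E}
    (hf : f ∈ colS X (fun e => O.P e a)) :
    rowA (k := k) O.E g f ∈ colS X (fun e => O.P e a) := fun e => by
  rw [rowA_apply]
  exact Submodule.sum_mem _ fun e' _ => O.act (hg e' e) (hf e')

/-- The presheaf of rows. -/
def row : PB (PA.con X.i (base k)) X.ca.pa :=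
  subR X.ca (fun a => colS X (fun e => O.P e a)) (fun h => colS_mono X fun e => O.Pm e h)
    (fun c => actR (X.AXs c.1) _ (rowA (k := k) O.E) (fun g hg v hv => O.row_mem c.1 hg hv))
    (fun c m => Subtype.ext (rowA_one m.1)) (fun c a a' m => Subtype.ext (rowA_mul a.1 a'.1 m.1))
    (fun h a m => rfl)

theorem rc_mem (a : Set X.i) {f : X.II → O.E} (hf : f ∈ colS X (fun e => O.P e a))
    {v : X.II → U} (hv : v ∈ colS X (fun e => X.Fs U E0 (X.tw e) a)) :
    rcP (k := k) O.β f v ∈ O.Z a := by
  rw [rcP_apply]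
  exact Submodule.sum_mem _ fun e _ => O.pair (hf e) (hv e)

/-- restriction of a bilinear map to subspaces -/
def bilR {V V' V'' : Type u} [AddCommGroup V] [Module k V] [AddCommGroup V'] [Module k V']
    [AddCommGroup V''] [Module k V''] (α : V →ₗ[k] V' →ₗ[k] V'') (S : Submodule k V)
    (S' : Submodule k V') (S'' : Submodule k V'') (h : ∀ v ∈ S, ∀ v' ∈ S', α v v' ∈ S'') :
    S →ₗ[k] S' →ₗ[k] S'' :=
  LinearMap.mk₂ k (fun v v' => ⟨α v.1 v'.1, h v.1 v.2 v'.1 v'.2⟩)
    (fun g g' v => Subtype.ext (LinearMap.map_add₂ α g.1 g'.1 v.1))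
    (fun c g v => Subtype.ext (LinearMap.map_smul₂ α c g.1 v.1))
    (fun g v v' => Subtype.ext (map_add (α g.1) v.1 v'.1))
    (fun c g v => Subtype.ext (map_smul (α g.1) c v.1))

/-- a bilinear map as a pairing of complexes in degree zero -/
def concP {V V' V'' : Type u} [AddCommGroup V] [Module k V] [AddCommGroup V'] [Module k V']
    [AddCommGroup V''] [Module k V''] (α : V →ₗ[k] V' →ₗ[k] V'') :
    CPr (Cx.conc k V) (Cx.conc k V') (Cx.conc k V'') where
  m := α
  deg := Dg.conc_bil α
  d := fun x y => by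
    change (0 : V'') = α 0 y + α _ 0
    rw [map_zero, map_zero, LinearMap.zero_apply, add_zero]

/-- the pairing of rows and columns -/
def rc (a : Set X.i) : colS X (fun e => O.P e a) →ₗ[k]
    colS X (fun e => X.Fs U E0 (X.tw e) a) →ₗ[k] O.Z a :=
  bilR (rcP (k := k) O.β) _ _ _ (fun f hf v hv => O.rc_mem a hf hv)

theorem rc_coe (a : Set X.i) (f : colS X (fun e => O.P e a))
    (v : colS X (fun e => X.Fs U E0 (X.tw e) a)) :
    (O.rc a f v : O.Y) = ∑ e, O.β (f.1 e) (v.1 e) := rfl

/-- The presheaf of rows with the pairing. -/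
def ro : RO (colF X U E0) where
  R := O.row
  Z := subPC O.Z O.Zm
  p :=
    { p := fun c => concP (O.rc c.1)
      nat := fun _ _ _ => rfl }
  bal := fun c x (a : X.AXs c.1) y =>
    Subtype.ext (rcP_bal (k := k) O.β (a : Matrix X.II X.II X.M) x.1 y.1)

end EO

section maps

variable {X : XD k} {U : Type u} [AddCommGroup U] [Module k U] [Module X.M U]
  [IsScalarTower k X.M U] {E0 : Submodule k U}

/-- Morphisms. -/
structure EOH (O O' : EO X U E0) where
  φ : O.E →ₗ[X.M] O'.E
  ψ : O.Y →ₗ[X.M] O'.Y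
  hβ : ∀ x v, ψ (O.β x v) = O'.β (φ x) v
  hP : ∀ {e : X.II} {a : Set X.i} {x : O.E}, x ∈ O.P e a → φ x ∈ O'.P e a
  hZ : ∀ {a : Set X.i} {z : O.Y}, z ∈ O.Z a → ψ z ∈ O'.Z a

variable {O O' : EO X U E0} (F : EOH O O')

/-- the map of rows -/
def rowM {I : Type} {K : Type u} [Field K] [Algebra k K] {E E' : Type u} [AddCommGroup E]
    [Module k E] [Module K E] [IsScalarTower k K E] [AddCommGroup E'] [Module k E'] [Module K E']
    [IsScalarTower k K E'] (φ : E →ₗ[K] E') : (I → E) →ₗ[k] (I → E') :=
  (φ.restrictScalars k).compLeft I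

theorem rowM_apply {I : Type} {K : Type u} [Field K] [Algebra k K] {E E' : Type u}
    [AddCommGroup E] [Module k E] [Module K E] [IsScalarTower k K E] [AddCommGroup E']
    [Module k E'] [Module K E'] [IsScalarTower k K E'] (φ : E →ₗ[K] E') (f : I → E) (e : I) :
    rowM (k := k) φ f e = φ (f e) := rfl

theorem rowM_A {I : Type} [Fintype I] {K : Type u} [Field K] [Algebra k K] {E E' : Type u}
    [AddCommGroup E] [Module k E] [Module K E] [IsScalarTower k K E] [AddCommGroup E']
    [Module k E'] [Module K E'] [IsScalarTower k K E'] (φ : E →ₗ[K] E') (g : Matrix I I K)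
    (f : I → E) : rowM (k := k) φ (rowA (k := k) E g f) =
      rowA (k := k) E' g (rowM (k := k) φ f) := by
  funext e
  simp only [rowM_apply, rowA_apply, map_sum, map_smul]

/-- the map of rows on a chart -/
def EOH.fR (a : Set X.i) : colS X (fun e => O.P e a) →ₗ[k] colS X (fun e => O'.P e a) :=
  (rowM (k := k) F.φ).restrict (fun _ hf e => F.hP (hf e))

/-- the map of the values on a chart -/
def EOH.fZ (a : Set X.i) : O.Z a →ₗ[k] O'.Z a :=
  (F.ψ.restrictScalars k).restrict (fun _ hz => F.hZ hz)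

/-- the map of presheaves of rows -/
def EOH.pbh : PBH O.row O'.row where
  f := fun c =>
    { f := F.fR c.1
      deg := fun {i x} hx => by
        rw [add_zero]
        exact conc_map (F.fR c.1) hx
      map_l := fun b x => by
        rw [Dg.sp_zero]
        refine (congrArg (F.fR c.1) (base_l (O.row.M c) b x)).trans ?_
        refine Eq.trans ?_ (base_l (O'.row.M c) b (F.fR c.1 x)).symm
        exact (F.fR c.1).map_smul (show k from b) x
      map_r := fun (a : X.AXs c.1) x =>
        Subtype.ext (rowM_A (k := k) F.φ (a : Matrix X.II X.II X.M) x.1) }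
  dd := fun c => LinearMap.ext fun x => by
    rw [GMap.dd_apply, sg_zero, one_smul, LinearMap.zero_apply, sub_eq_zero]
    exact (map_zero (F.fR c.1)).symm
  nat := fun _ _ => rfl

/-- the map of the presheaves of values -/
def EOH.pch : PCH O.ro.Z O'.ro.Z where
  f := fun c => concH (F.fZ c.1)
  nat := fun _ _ => rfl

/-- A morphism of lattices of rows gives a morphism of presheaves with pairings. -/
def EOH.ro : ROH O.ro O'.ro where
  f := F.pbh
  g := F.pch
  nat := fun c x y => Subtype.ext (by
    change F.ψ (∑ e, O.β (x.1 e) (y.1 e)) = ∑ e, O'.β (F.φ (x.1 e)) (y.1 e)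
    rw [map_sum]
    exact Finset.sum_congr rfl fun e _ => F.hβ _ _)

theorem EOH.fR_coe (a : Set X.i) (x : colS X (fun e => O.P e a)) (e : X.II) :
    (F.fR a x).1 e = F.φ (x.1 e) := rfl

theorem EOH.fZ_coe (a : Set X.i) (z : O.Z a) : (F.fZ a z : O'.Y) = F.ψ z.1 := rfl

theorem EOH.ro_f (c : Ch X.i) (x : colS X (fun e => O.P e c.1)) :
    (F.ro.f.f c).f x = F.fR c.1 x := rfl

theorem EOH.ro_g (c : Ch X.i) (z : O.Z c.1) : (F.ro.g.f c).f z = F.fZ c.1 z := rfl

end maps

end Pool.Agent.MP_6e5bed_ag_GG
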