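import Pool.Agent.Lib.MP_6e5bed_ag_GG.Ev
import Pool.Agent.Lib.MP_6e5bed_ag_PN.QiB

set_option autoImplicit false
set_option linter.unusedVariables false

/-!
# MP_6e5bed_ag, THEOREM G, LOC: the evaluation of the Čech complex of a constant presheaf
-/

noncomputable section

namespace Pool.Agent.MP_6e5bed_ag_GG

open Pool.Agent.MP_6e5bed_ag_NC Pool.Agent.MP_6e5bed_ag_NS Pool.Agent.MP_6e5bed_ag_PN

universe u

variable {k : Type u} [CommRing k] {ι : Type}

private theorem LQe_pr1_qi {X0 X1 X01 : Cx k} {r0 : CHom X0 X01} (r1 : CHom X1 X01)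
    (h : Function.Bijective r0.f) : Qi (co.pr1 r0 r1) := by
  refine Qi.of_surj ?_ ?_
  · intro x1
    exact ⟨co.mk r0 r1 0 x1 0, rfl⟩
  · rintro ⟨⟨x0, x1⟩, ξ⟩ hx hd
    have hx1 : x1 = 0 := hx
    subst hx1
    have e := (co_d (r0 := r0) (r1 := r1) x0 0 ξ).symm.trans hd
    have e1 : X0.dg.d x0 = 0 := congrArg (fun z => z.1.1) e
    have e2 : r1.f 0 - r0.f x0 - X01.dg.d ξ = 0 := congrArg (fun z => z.2) e
    obtain ⟨w, rfl⟩ := h.2 ξ
    refine ⟨co.mk r0 r1 (-w) 0 0, rfl, ?_⟩
    refine (co_d (r0 := r0) (r1 := r1) (-w) 0 0).trans ?_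
    have e3 : X0.dg.d (-w) = x0 := by
      apply h.1
      rw [map_neg, map_neg, ← r0.d]
      rw [map_zero, zero_sub] at e2
      rw [sub_eq_zero] at e2
      rw [← e2, neg_neg]
    refine Prod.ext (Prod.ext e3 (map_zero X1.dg.d)) ?_
    change r1.f 0 - r0.f (-w) - X01.dg.d 0 = r0.f w
    rw [map_zero, map_zero, map_neg, zero_sub, neg_neg, sub_zero]

/-- PROOF. Induction on `L`: for `L = l :: L'` the map is the product of the restriction maps of
`cC V L'` and of a restriction map of `V` (`WC.cons`, `co.map`, `LinearMap.prodMap`), all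
bijective. -/
theorem cC_ρ_bij (V : PC k ι) (h : ∀ {c d : Ch ι} (h : c ≤ d), Function.Bijective (V.ρ h).f)
    (L : List ι) {c d : FS ι} (hc : c ≤ d) : Function.Bijective (((cC V L).ρ hc).f) := by
  induction L generalizing c d with
  | nil =>
    exact ⟨fun x y _ => Subsingleton.elim (α := PUnit) x y,
      fun y => ⟨y, Subsingleton.elim (α := PUnit) _ _⟩⟩
  | cons l L ih =>
    exact Function.Bijective.prodMap
      (Function.Bijective.prodMap (ih hc) (h (ins_mono hc l))) (ih (fs_mono (ins_mono hc l)))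

/-- If all restriction maps of `V` are bijective, the evaluation at a chart is a quasi-isomorphism.

PROOF. Induction on `q` (for all `c`). `Ptr.head l L`: the map is `co.pr1 r0 r1`, `r0 = (cC V L).ρ _`
bijective by `cC_ρ_bij`: copy `Loc_pr1_qi` (private, `Lib/MP_6e5bed_ag_PN/Aug.lean`). `Ptr.tail l' q`:
the map is `co.pr0 r0 r1` followed by `ev V q c` (`Qi.comp`); `co.pr0 r0 r1` is a quasi-isomorphism if
`r1 = (cC V L).a (c.ins l')` is one (`co_pr0_qi`, `Lib/MP_6e5bed_ag_PN/Cx.lean`), and by `ev_a`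
`ev V q (c.ins l').fs` after `(cC V L).a (c.ins l')` is a restriction map of `V`, bijective, so
`Qi.of_right` with the induction hypothesis and `Qi.of_bij`. -/
theorem ev_qi (V : PC k ι) (h : ∀ {c d : Ch ι} (h : c ≤ d), Function.Bijective (V.ρ h).f)
    {L : List ι} {l : ι} (q : Ptr L l) (c : FS ι) : Qi (ev V q c) := by
  induction q generalizing c with
  | head l L => exact LQe_pr1_qi _ (cC_ρ_bij V h L (le_ins c l))
  | @tail L l l' q ih =>
    refine Qi.comp (co_pr0_qi _ ?_) (ih c)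
    exact Qi.of_right (g := ev V q (c.ins l').fs) (h := V.ρ (le_ins' (c.ins l') l))
      (fun x => ev_a V q (c.ins l') x) (ih _) (Qi.of_bij (h _))

end Pool.Agent.MP_6e5bed_ag_GG
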