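import Pool.Agent.Lib.MP_6e5bed_ag_GG.LDt

set_option autoImplicit false
set_option linter.unusedVariables false

/-!
# MP_6e5bed_ag, THEOREM G, LOC: direct sums, retracts and exact sequences of presheaves of rows
-/

noncomputable section

namespace Pool.Agent.MP_6e5bed_ag_GG

open Pool.Agent.MP_6e5bed_ag_NC Pool.Agent.MP_6e5bed_ag_PN
open Pool.Agent.MP_6e5bed_ag_NS (Cx CHom CPr co CEx)
open Pool.Agent.MP_6e5bed_ag_PS (Dist gc gc_qi tbR_dd qi_of_sum qi_retract dist_right dist_left)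

universe u

variable {k : Type u} [Field k] {ι : Type} {A : PA k ι} {N : PB A (PA.con ι (base k))}

private theorem LRo_sum3 {J : Type} [Fintype J] {X Y Z : Type u} [AddCommGroup X]
    [AddCommGroup Y] [AddCommGroup Z] (f : J → X) (g : J → Y) (h : J → Z) :
    ∑ j, (((f j, g j), h j) : (X × Y) × Z) = ((∑ j, f j, ∑ j, g j), ∑ j, h j) := by
  refine Prod.ext (Prod.ext ?_ ?_) ?_
  · rw [Prod.fst_sum, Prod.fst_sum]
  · rw [Prod.fst_sum, Prod.snd_sum]
  · rw [Prod.snd_sum]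

private theorem LRo_ten {B W : DGA k} {J : Type} [Fintype J] {M : Bim (base k) W}
    {Mj : J → Bim (base k) W} (Z : Bim W B) (i : ∀ j, GMap 0 (Mj j) M) (p : ∀ j, GMap 0 M (Mj j))
    (h : ∀ x, ∑ j, (i j).f ((p j).f x) = x) (x : (tb M Z).M) :
    ∑ j, ((i j).tbR Z).f (((p j).tbR Z).f x) = x := by
  have h1 : ∑ j, ((i j).tbR Z).f ∘ₗ ((p j).tbR Z).f = LinearMap.id := by
    refine tb_hom_ext (M := M) (N := Z) fun y z => ?_
    rw [LinearMap.sum_apply, LinearMap.id_apply]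
    have h2 : ∀ j ∈ (Finset.univ : Finset J),
        (((i j).tbR Z).f ∘ₗ ((p j).tbR Z).f) (tm (M := M) (N := Z) y z) =
          tm (M := M) (N := Z) ((i j).f ((p j).f y)) z := by
      intro j _
      rw [LinearMap.comp_apply, GMap.tbR_tm, GMap.tbR_tm]
    rw [Finset.sum_congr rfl h2]
    have h3 : ∑ j, tm (M := M) (N := Z) ((i j).f ((p j).f y)) z =
        tm (M := M) (N := Z) (∑ j, (i j).f ((p j).f y)) z :=
      (map_sum ((tmB M Z).flip z) (fun j => (i j).f ((p j).f y)) Finset.univ).symm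
    rw [h3, h]
  have h4 := LinearMap.congr_fun h1 x
  rw [LinearMap.sum_apply, LinearMap.id_apply] at h4
  exact h4

/-- PROOF. Copy `cH_sum` in `Lib/MP_6e5bed_ag_PS/Phi.lean`. -/
theorem cH_sumP {J : Type} [Fintype J] {V : PC k ι} {Vj : J → PC k ι} (i : ∀ j, PCH (Vj j) V)
    (p : ∀ j, PCH V (Vj j)) (h : ∀ c x, ∑ j, ((i j).f c).f (((p j).f c).f x) = x) :
    ∀ (L : List ι) (c : FS ι) x,
      ∑ j, ((cH (i j) L).g c).f (((cH (p j) L).g c).f x) = x
  | [], c, x => rfl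
  | l :: L, c, x => by
    obtain ⟨⟨x0, x1⟩, ξ⟩ := x
    have ih := cH_sumP i p h L
    refine (LRo_sum3 (fun j => ((cH (i j) L).g c).f (((cH (p j) L).g c).f x0))
      (fun j => ((i j).f (c.ins l)).f (((p j).f (c.ins l)).f x1))
      (fun j => ((cH (i j) L).g (c.ins l).fs).f (((cH (p j) L).g (c.ins l).fs).f ξ))).trans ?_
    exact Prod.ext (Prod.ext (ih c x0) (h _ x1)) (ih _ ξ)

/-- exact sequences of presheaves of complexes -/
def PCEx {V V' V'' : PC k ι} (i : PCH V V') (p : PCH V' V'') : Prop := ∀ c, CEx (i.f c) (p.f c)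

/-- PROOF. `cH_inj`, `cH_surj`, `cH_exact` (`Lib/MP_6e5bed_ag_PN/Ex.lean`). -/
theorem PCEx.cc {V V' V'' : PC k ι} {i : PCH V V'} {p : PCH V' V''} (h : PCEx i p)
    (L : List ι) (c : FS ι) : CEx ((cH i L).g c) ((cH p L).g c) :=
  ⟨cH_inj i (fun c => (h c).1) L c, cH_surj p (fun c => (h c).2.1) L c,
    fun x => cH_exact i p (fun c => (h c).2.2) L c x⟩

namespace RO

variable {L : List ι} {c : FS ι} {Zt : Bim (cA A L c) (base k)} {ζ : GMap 0 Zt (cBR N L c)}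
  {hζ : ζ.dd = 0}

/-- the map of tensor products, as a morphism of complexes -/
def tF (Zt : Bim (cA A L c) (base k)) {R S : RO N} (F : ROH R S) :
    CHom (bcx (tb (cBL R.R L c) Zt)) (bcx (tb (cBL S.R L c) Zt)) :=
  gc ((F.f.gmapL L c).tbR Zt) (tbR_dd _ (F.f.gmapL_dd L c) Zt)

theorem tF_tm (Zt : Bim (cA A L c) (base k)) {R S : RO N} (F : ROH R S) (x : (cBL R.R L c).M)
    (z : Zt.M) : (tF Zt F).f (tm (M := cBL R.R L c) (N := Zt) x z) =
      tm (M := cBL S.R L c) (N := Zt) (((cH F.f.pch L).g c).f x) z :=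
  GMap.tbR_tm (F.f.gmapL L c) Zt x z

theorem phi_natF (ζ : GMap 0 Zt (cBR N L c)) (hζ : ζ.dd = 0) {R S : RO N} (F : ROH R S)
    (x : (bcx (tb (cBL R.R L c) Zt)).V) :
    (S.phi ζ hζ).f ((tF Zt F).f x) = ((cH F.g L).g c).f ((R.phi ζ hζ).f x) :=
  phi_nat ζ hζ F x

/-- PROOF. `qi_of_sum` (`Lib/MP_6e5bed_ag_PS/Dist.lean`) for `φ := R.phi ζ hζ`,
`φj j := (Rj j).phi ζ hζ`, `tF Zt (i j)`, `tF Zt (p j)`, `(cH (i j).g L).g c`, `(cH (p j).g L).g c`.
The first sum: `tb_ind`; on `tm x z` by `tF_tm` it is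
`∑ j, tm (i_j (p_j x)) z = tm (∑ j, i_j (p_j x)) z` (`tmB` is bilinear) and `cH_sumP` for
`(i j).f.pch`, `(p j).f.pch`. The second sum: `cH_sumP`. The squares: `phi_natF`. -/
theorem good_sum {J : Type} [Fintype J] (R : RO N) (Rj : J → RO N) (i : ∀ j, ROH (Rj j) R)
    (p : ∀ j, ROH R (Rj j)) (h1 : ∀ c x, ∑ j, ((i j).f.f c).f (((p j).f.f c).f x) = x)
    (h2 : ∀ c z, ∑ j, ((i j).g.f c).f (((p j).g.f c).f z) = z)
    (hg : ∀ j, (Rj j).Good ζ hζ) : R.Good ζ hζ := by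
  refine qi_of_sum (R.phi ζ hζ) (fun j => (Rj j).phi ζ hζ) (fun j => tF Zt (i j))
    (fun j => tF Zt (p j)) (fun j => (cH (i j).g L).g c) (fun j => (cH (p j).g L).g c)
    (fun x => ?_) (fun x => cH_sumP (fun j => (i j).g) (fun j => (p j).g) h2 L c x)
    (fun j x => phi_natF ζ hζ (i j) x) (fun j x => phi_natF ζ hζ (p j) x) hg
  exact LRo_ten (M := cBL R.R L c) (Mj := fun j => cBL (Rj j).R L c) Zt
    (fun j => (i j).f.gmapL L c) (fun j => (p j).f.gmapL L c)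
    (fun y => cH_sumP (fun j => (i j).f.pch) (fun j => (p j).f.pch) h1 L c y) x

/-- PROOF. `good_sum` for `J = Unit`. -/
theorem good_retract (R S : RO N) (i : ROH S R) (p : ROH R S)
    (h1 : ∀ c x, (i.f.f c).f ((p.f.f c).f x) = x) (h2 : ∀ c z, (i.g.f c).f ((p.g.f c).f z) = z)
    (hg : S.Good ζ hζ) : R.Good ζ hζ := by
  refine good_sum (J := Unit) R (fun _ => S) (fun _ => i) (fun _ => p) (fun c x => ?_)
    (fun c z => ?_) (fun _ => hg)
  · rw [Fintype.sum_unique]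
    exact h1 c x
  · rw [Fintype.sum_unique]
    exact h2 c z

/-- The row of complexes of tensor products of an exact sequence is distinguished.

PROOF. `dist_tbF` for `a.f.gmapL L c`, `b.f.gmapL L c`; the three conditions are `cH_inj`, `cH_surj`,
`cH_exact` for `a.f.pch`, `b.f.pch` (`PBH.gmapL_f`). -/
theorem tF_dist {R1 R2 R3 : RO N} (a : ROH R1 R2) (b : ROH R2 R3) (hR : PBEx a.f b.f)
    (hZt : LFlat Zt) : Dist (tF Zt a) (tF Zt b) := by
  exact dist_tbF (a.f.gmapL L c) (b.f.gmapL L c) (a.f.gmapL_dd L c) (b.f.gmapL_dd L c)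
    (cH_inj a.f.pch (fun c => (hR c).1) L c) (cH_surj b.f.pch (fun c => (hR c).2.1) L c)
    (fun x => cH_exact a.f.pch b.f.pch (fun c => (hR c).2.2) L c x) hZt

/-- PROOF. `dist_right (tF_dist a b hR hZt) (hZ.cc L c).dist` with the squares `phi_natF`. -/
theorem good_right {R1 R2 R3 : RO N} (a : ROH R1 R2) (b : ROH R2 R3) (hR : PBEx a.f b.f)
    (hZ : PCEx a.g b.g) (hZt : LFlat Zt) (h1 : R1.Good ζ hζ) (h2 : R2.Good ζ hζ) :
    R3.Good ζ hζ :=
  dist_right (tF_dist a b hR hZt) (MP_6e5bed_ag_PS.CEx.dist (hZ.cc L c)) (R1.phi ζ hζ) (R2.phi ζ hζ) (R3.phi ζ hζ)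
    (fun x => phi_natF ζ hζ a x) (fun x => phi_natF ζ hζ b x) h1 h2

/-- PROOF. `dist_left` with the squares `phi_natF`. -/
theorem good_left {R1 R2 R3 : RO N} (a : ROH R1 R2) (b : ROH R2 R3) (hR : PBEx a.f b.f)
    (hZ : PCEx a.g b.g) (hZt : LFlat Zt) (h2 : R2.Good ζ hζ) (h3 : R3.Good ζ hζ) :
    R1.Good ζ hζ :=
  dist_left (tF_dist a b hR hZt) (MP_6e5bed_ag_PS.CEx.dist (hZ.cc L c)) (R1.phi ζ hζ) (R2.phi ζ hζ) (R3.phi ζ hζ)
    (fun x => phi_natF ζ hζ a x) (fun x => phi_natF ζ hζ b x) h2 h3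

end RO

end Pool.Agent.MP_6e5bed_ag_GG
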