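import Pool.Agent.Lib.MP_6e5bed_ag_GG.LO
import Pool.Agent.Lib.MP_6e5bed_ag_GG.LRo

set_option autoImplicit false
set_option linter.unusedVariables false
set_option linter.unusedSectionVars false

/-!
# MP_6e5bed_ag, THEOREM G, LOC: twists, products and the constant lattice of rows
-/

noncomputable section

namespace Pool.Agent.MP_6e5bed_ag_GG

open Pool.Agent.MP_6e5bed_ag_NC Pool.Agent.MP_6e5bed_ag_PN
open Pool.Agent.MP_6e5bed_ag_NS (Cx CHom CPr co CEx concH conc_map)
open scoped TensorProduct

universe u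

variable {k : Type u} [Field k] (X : XD k) (U : Type u) [AddCommGroup U] [Module k U]
  [Module X.M U] [IsScalarTower k X.M U] (E0 : Submodule k U)

/-- The lattice `σ⁻¹ O(b)` with values in `σ⁻¹ F(b)`. -/
def gsO (b : X.D → ℤ) (σ : X.M) : EO X U E0 where
  E := X.M
  Y := U
  β := LinearMap.lsmul X.M U
  P := fun e a => (X.O (b - X.tw e) a).comap (LinearMap.mulLeft k σ)
  Z := fun a => (X.Fs U E0 b a).comap (Algebra.lsmul k k U σ)
  Pm := fun e {a a'} h => Submodule.comap_mono (X.mono _ h)
  Zm := fun {a a'} h => Submodule.comap_mono (XD.Fs_mono _ h)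
  act := fun {a e e' c x} hc hx => by
    change σ * (c • x) ∈ X.O (b - X.tw e') a
    have e1 : X.tw e - X.tw e' + (b - X.tw e) = b - X.tw e' := by abel
    have h2 := X.mul_mem hc hx
    rw [e1] at h2
    rw [smul_eq_mul, mul_left_comm]
    exact h2
  pair := fun {a e x v} hx hv => by
    have h := XD.Fs_smul hx hv
    rw [sub_add_cancel] at h
    change σ • (x • v) ∈ X.Fs U E0 b a
    rw [smul_smul]
    exact h

/-- The lattice `O(b)` with values in `F(b)`. -/
def twO (b : X.D → ℤ) : EO X U E0 where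
  E := X.M
  Y := U
  β := LinearMap.lsmul X.M U
  P := fun e a => X.O (b - X.tw e) a
  Z := fun a => X.Fs U E0 b a
  Pm := fun e {a a'} h => X.mono _ h
  Zm := fun {a a'} h => XD.Fs_mono _ h
  act := fun {a e e' c x} hc hx => by
    have e1 : X.tw e - X.tw e' + (b - X.tw e) = b - X.tw e' := by abel
    have h2 := X.mul_mem hc hx
    rwa [e1] at h2
  pair := fun {a e x v} hx hv => by
    have h := XD.Fs_smul hx hv
    rwa [sub_add_cancel] at h

/-- The constant lattice. -/
def cnO : EO X U E0 where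
  E := X.M
  Y := U
  β := LinearMap.lsmul X.M U
  P := fun _ _ => ⊤
  Z := fun _ => ⊤
  Pm := fun _ _ _ _ => le_rfl
  Zm := fun _ => le_rfl
  act := fun _ _ => Submodule.mem_top
  pair := fun _ _ => Submodule.mem_top

/-- The constant lattice of a vector space `T`. -/
def cnT (T : Type u) [AddCommGroup T] [Module k T] [Module X.M T] [IsScalarTower k X.M T] :
    EO X U E0 where
  E := T
  Y := T ⊗[X.M] U
  β := TensorProduct.mk X.M T U
  P := fun _ _ => ⊤
  Z := fun _ => ⊤
  Pm := fun _ _ _ _ => le_rfl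
  Zm := fun _ => le_rfl
  act := fun _ _ => Submodule.mem_top
  pair := fun _ _ => Submodule.mem_top

variable {X U E0}

/-- The direct sum of two lattices. -/
def EO.prod (O O' : EO X U E0) : EO X U E0 where
  E := O.E × O'.E
  Y := O.Y × O'.Y
  β := LinearMap.mk₂ X.M (fun x v => (O.β x.1 v, O'.β x.2 v))
      (fun x x' v => by simp) (fun c x v => by simp) (fun x v v' => by simp)
      (fun c x v => by simp)
  P := fun e a => (O.P e a).prod (O'.P e a)
  Z := fun a => (O.Z a).prod (O'.Z a)
  Pm := fun e {a a'} h => Submodule.prod_mono (O.Pm e h) (O'.Pm e h)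
  Zm := fun {a a'} h => Submodule.prod_mono (O.Zm h) (O'.Zm h)
  act := fun hc hx => ⟨O.act hc hx.1, O'.act hc hx.2⟩
  pair := fun hx hv => ⟨O.pair hx.1 hv, O'.pair hx.2 hv⟩

end Pool.Agent.MP_6e5bed_ag_GG
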