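import Pool.Agent.Lib.MP_6e5bed_ag_GG.LOn
import Pool.Agent.Lib.MP_6e5bed_ag_GG.LCt
import Pool.Agent.Lib.MP_6e5bed_ag_GG.LCh
import Pool.Agent.Lib.MP_6e5bed_ag_GG.LQe
import Pool.Agent.Lib.MP_6e5bed_ag_GG.LNu

set_option autoImplicit false
set_option linter.unusedVariables false
set_option linter.unusedSectionVars false

/-!
# MP_6e5bed_ag, THEOREM G, LOC: the localisation theorem

The pairing of the rows with entries in a finite dimensional vector space `T` over the function field
and the columns with entries in `F`, evaluated at a chart, is a quasi-isomorphism to `T ⊗ U`.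
-/

noncomputable section

namespace Pool.Agent.MP_6e5bed_ag_GG

open Pool.Agent.MP_6e5bed_ag_NC Pool.Agent.MP_6e5bed_ag_PN
open Pool.Agent.MP_6e5bed_ag_NS (Cx CHom CPr co CEx concH conc_map)
open Pool.Agent.MP_6e5bed_ag_PS (gc)
open scoped TensorProduct

universe u

variable {k : Type u} [Field k]

/-! ### Bijective maps and tensor products -/

section bij

variable {A B C : DGA k}

theorem tbR_bij {M M' : Bim A B} (g : GMap 0 M M') (hb : Function.Bijective g.f) (Z : Bim B C) :
    Function.Bijective (g.tbR Z).f := by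
  let e : M.M ≃ₗ[k] M'.M := LinearEquiv.ofBijective g.f hb
  have he : ∀ x, g.f (e.symm x) = x := fun x => e.apply_symm_apply x
  have he' : ∀ x, e.symm (g.f x) = x := fun x => e.symm_apply_apply x
  have hbal : ∀ m b n, ((tmB M Z) ∘ₗ e.symm.toLinearMap) (M'.r b m) n =
      ((tmB M Z) ∘ₗ e.symm.toLinearMap) m (Z.l b n) := by
    intro m b n
    have h1 : e.symm (M'.r b m) = M.r b (e.symm m) := by
      apply hb.1
      rw [he, g.map_r, he]
    change tm (M := M) (N := Z) (e.symm (M'.r b m)) n = tm (M := M) (N := Z) (e.symm m) (Z.l b n)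
    rw [h1, tm_r_l]
  refine Function.bijective_iff_has_inverse.2
    ⟨tlift (M := M') (N := Z) ((tmB M Z) ∘ₗ e.symm.toLinearMap) hbal, ?_, ?_⟩
  · refine tb_ind (M := M) (N := Z) ?_ ?_ ?_
    · rw [map_zero, map_zero]
    · intro x y hx hy
      rw [map_add, map_add, hx, hy]
    · intro m n
      rw [GMap.tbR_tm, tlift_tm]
      change tm (M := M) (N := Z) (e.symm (g.f m)) n = _
      rw [he']
  · refine tb_ind (M := M') (N := Z) ?_ ?_ ?_
    · rw [map_zero, map_zero]
    · intro x y hx hy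
      rw [map_add, map_add, hx, hy]
    · intro m n
      rw [tlift_tm]
      change (g.tbR Z).f (tm (M := M) (N := Z) (e.symm m) n) = _
      rw [GMap.tbR_tm, he]

theorem tbL_bij (Z : Bim A B) {M M' : Bim B C} (g : GMap 0 M M') (hb : Function.Bijective g.f) :
    Function.Bijective (g.tbL Z).f := by
  let e : M.M ≃ₗ[k] M'.M := LinearEquiv.ofBijective g.f hb
  have he : ∀ x, g.f (e.symm x) = x := fun x => e.apply_symm_apply x
  have he' : ∀ x, e.symm (g.f x) = x := fun x => e.symm_apply_apply x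
  have hbal : ∀ m b n, ((tmB Z M).compl₂ e.symm.toLinearMap) (Z.r b m) n =
      ((tmB Z M).compl₂ e.symm.toLinearMap) m (M'.l b n) := by
    intro m b n
    have h1 : e.symm (M'.l b n) = M.l b (e.symm n) := by
      apply hb.1
      rw [he, g.map_l, Dg.sp_zero, he]
    change tm (M := Z) (N := M) (Z.r b m) (e.symm n) = tm (M := Z) (N := M) m (e.symm (M'.l b n))
    rw [h1, tm_r_l]
  have h0 : ∀ (m : Z.M) (n : M.M), (g.tbL Z).f (tm (M := Z) (N := M) m n) =
      tm (M := Z) (N := M') m (g.f n) := by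
    intro m n
    rw [GMap.tbL_tm, Dg.sp_zero]
  refine Function.bijective_iff_has_inverse.2
    ⟨tlift (M := Z) (N := M') ((tmB Z M).compl₂ e.symm.toLinearMap) hbal, ?_, ?_⟩
  · refine tb_ind (M := Z) (N := M) ?_ ?_ ?_
    · rw [map_zero, map_zero]
    · intro x y hx hy
      rw [map_add, map_add, hx, hy]
    · intro m n
      rw [h0, tlift_tm]
      change tm (M := Z) (N := M) m (e.symm (g.f n)) = _
      rw [he']
  · refine tb_ind (M := Z) (N := M') ?_ ?_ ?_
    · rw [map_zero, map_zero]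
    · intro x y hx hy
      rw [map_add, map_add, hx, hy]
    · intro m n
      rw [tlift_tm]
      change (g.tbL Z).f (tm (M := Z) (N := M) m (e.symm n)) = _
      rw [h0, he]

end bij

/-! ### The presheaf of all rows -/

section rows

variable (X : XD k) (T : Type u) [AddCommGroup T] [Module k T] [Module X.M T]
  [IsScalarTower k X.M T]

/-- The presheaf of all rows with entries in `T`, on a chart. -/
def rowTM (c : Ch X.i) : Bim (base k) (ring k (X.AXs c.1)) :=
  kbR ((rowA (k := k) T).comp (X.AXs c.1).val.toLinearMap) (fun m => rowA_one m)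
    (fun a a' m => rowA_mul a.1 a'.1 m)

theorem rowTM_r (c : Ch X.i) (g : X.AXs c.1) (f : X.II → T) :
    (rowTM X T c).r g f = rowA (k := k) T (g : Matrix X.II X.II X.M) f := rfl

theorem rowTM_l (c : Ch X.i) (b : k) (f : X.II → T) :
    (rowTM X T c).l b f = b • f := base_l (rowTM X T c) b f

/-- The presheaf of all rows with entries in `T`. -/
def rowT : PB (PA.con X.i (base k)) X.ca.pa where
  M := fun c => rowTM X T c
  ρ := fun {c d} h =>
    { f := (LinearMap.id : (X.II → T) →ₗ[k] (X.II → T))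
      deg := fun {i x} hx => by
        rw [add_zero]
        exact hx
      map_l := fun b x => by
        rw [Dg.sp_zero]
        exact (rowTM_l X T c b x).trans (rowTM_l X T d b x).symm
      map_r := fun a x => rfl }
  dd := fun {c d} h => LinearMap.ext fun x => by
    rw [GMap.dd_apply, sg_zero, one_smul, LinearMap.zero_apply, sub_eq_zero]
    exact (map_zero (LinearMap.id : (X.II → T) →ₗ[k] (X.II → T))).symm
  ρ_id := fun _ _ => rfl
  ρ_ρ := fun _ _ _ => rfl

variable (U : Type u) [AddCommGroup U] [Module k U] [Module X.M U] [IsScalarTower k X.M U]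
  (E0 : Submodule k U)

/-- all rows, as elements of a subspace -/
def rowC (a : Set X.i) : (X.II → T) →ₗ[k] colS X (fun e => (cnT X U E0 T).P e a) :=
  LinearMap.codRestrict _ (LinearMap.id : (X.II → T) →ₗ[k] (X.II → T))
    (fun _ _ => (Submodule.mem_top : _ ∈ (⊤ : Submodule k T)))

theorem rowC_coe (a : Set X.i) (f : X.II → T) : (rowC X T U E0 a f).1 = f := rfl

theorem rowC_bij (a : Set X.i) : Function.Bijective (rowC X T U E0 a) :=
  ⟨fun f g h => congrArg Subtype.val h, fun g => ⟨g.1, rfl⟩⟩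

/-- The comparison of the two presheaves of rows. -/
def rowTc : PBH (rowT X T) (cnT X U E0 T).row where
  f := fun c =>
    { f := rowC X T U E0 c.1
      deg := fun {i x} hx => by
        rw [add_zero]
        exact conc_map (rowC X T U E0 c.1) hx
      map_l := fun b x => by
        rw [Dg.sp_zero]
        refine (congrArg (rowC X T U E0 c.1) (rowTM_l X T c b x)).trans ?_
        refine Eq.trans ?_ (base_l ((cnT X U E0 T).row.M c) b (rowC X T U E0 c.1 x)).symm
        exact (rowC X T U E0 c.1).map_smul (show k from b) x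
      map_r := fun (a : X.AXs c.1) x => rfl }
  dd := fun c => LinearMap.ext fun x => by
    rw [GMap.dd_apply, sg_zero, one_smul, LinearMap.zero_apply, sub_eq_zero]
    exact (map_zero (rowC X T U E0 c.1)).symm
  nat := fun _ _ => rfl

theorem rowTc_bij (c : Ch X.i) : Function.Bijective ((rowTc X T U E0).f c).f :=
  rowC_bij X T U E0 c.1

theorem rowTc_coe (c : Ch X.i) (f : X.II → T) : (((rowTc X T U E0).f c).f f).1 = f := rfl

end rows

/-! ### The localisation theorem -/

section main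

theorem LZ_congr {Y Z : Cx k} {f g : CHom Y Z} (h : ∀ x, f.f x = g.f x) (hf : Qi f) : Qi g :=
  ⟨fun x hx hy => hf.1 x hx (by rwa [h]), fun y hy => by
    obtain ⟨x, hx, z, hz⟩ := hf.2 y hy
    exact ⟨x, hx, z, by rw [hz, h]⟩⟩

theorem LZ_tbL_dd {A B C : DGA k} (Z : Bim A B) {M M' : Bim B C} (g : GMap 0 M M')
    (h : g.dd = 0) : (g.tbL Z).dd = 0 := (MP_6e5bed_ag_NC.tbL Z C).closed h

theorem LZ_ind {A B C D : DGA k} {Z : Bim A B} {P : Bim B C} {Y : Bim C D} {V : Cx k}
    {f g : CHom (bcx (tb Z (tb P Y))) V}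
    (h : ∀ x p y, f.f (tm (M := Z) (N := tb P Y) x (tm (M := P) (N := Y) p y)) =
      g.f (tm (M := Z) (N := tb P Y) x (tm (M := P) (N := Y) p y))) (x) : f.f x = g.f x := by
  revert x
  refine tb_ind (M := Z) (N := tb P Y) ((map_zero f.f).trans (map_zero g.f).symm)
    (fun a b ha hb => ?_) (fun x => ?_)
  · exact (map_add f.f a b).trans ((congrArg₂ (· + ·) ha hb).trans (map_add g.f a b).symm)
  · refine tb_ind (M := P) (N := Y) ?_ (fun a b ha hb => ?_) (fun p y => h x p y)
    · rw [tm_zero_right]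
      exact (map_zero f.f).trans (map_zero g.f).symm
    · rw [tm_add_right]
      exact (map_add f.f _ _).trans ((congrArg₂ (· + ·) ha hb).trans (map_add g.f _ _).symm)

/-- The evaluation of the cup product, for presheaves which are isomorphic to given ones. -/
theorem loc_abs {ι : Type} {A : PA k ι} {L : List ι} {c : FS ι}
    {P : Bim (cA A L c) (cA A L c)} {w : GMap 0 P (diag (cA A L c))}
    {N N0 : PB A (PA.con ι (base k))} (O : RO N0)
    {hζ : (zet w (cBR N0 L c)).dd = 0} (hG : O.Good (zet w (cBR N0 L c)) hζ)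
    {l : ι} (q : Ptr L l) (h4 : Qi (ev O.Z q c)) {V : Cx k} (top : CHom (O.Z.X (c.ins l)) V)
    (h5 : Qi top) {R : PB (PA.con ι (base k)) A} (fR : PBH R O.R)
    (hR : ∀ c, Function.Bijective (fR.f c).f) (fN : PBH N N0)
    (hN : ∀ c, Function.Bijective (fN.f c).f)
    (Phi : CHom (bcx (tb (cBL R L c) (tb P (cBR N L c)))) V)
    (hPhi : ∀ (x : (cBL R L c).M) (p : P.M) (y : (cBR N L c).M),
      Phi.f (tm (M := cBL R L c) (N := tb P (cBR N L c)) x (tm (M := P) (N := cBR N L c) p y)) =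
      top.f ((O.p.p (c.ins l)).m ((fR.f (c.ins l)).f ((ev R.pc q c).f x))
        ((fN.f (c.ins l)).f ((ev N.pc q c).f ((cBR N L c).l (w.f p) y))))) : Qi Phi := by
  let F1 : CHom (bcx (tb (cBL R L c) (tb P (cBR N L c))))
      (bcx (tb (cBL R L c) (tb P (cBR N0 L c)))) :=
    gc (((fN.gmapR L c).tbL P).tbL (cBL R L c)) (LZ_tbL_dd _ _ (LZ_tbL_dd _ _ (fN.gmapR_dd _ _)))
  let F2 : CHom (bcx (tb (cBL R L c) (tb P (cBR N0 L c))))
      (bcx (tb (cBL O.R L c) (tb P (cBR N0 L c)))) :=
    gc ((fR.gmapL L c).tbR _) (MP_6e5bed_ag_PS.tbR_dd _ (fR.gmapL_dd _ _) _)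
  have b1 : Function.Bijective F1.f := tbL_bij _ _ (tbL_bij _ _
    ⟨cH_inj fN.pch (fun c => (hN c).1) _ _, cH_surj fN.pch (fun c => (hN c).2) _ _⟩)
  have b2 : Function.Bijective F2.f := tbR_bij _
    ⟨cH_inj fR.pch (fun c => (hR c).1) _ _, cH_surj fR.pch (fun c => (hR c).2) _ _⟩ _
  let G : CHom (bcx (tb (cBL R L c) (tb P (cBR N L c)))) V :=
    ((F1.comp F2).comp ((O.phi (zet w (cBR N0 L c)) hζ).comp (ev O.Z q c))).comp top
  have hGq : Qi G := (((Qi.of_bij b1).comp (Qi.of_bij b2)).comp (Qi.comp hG h4)).comp h5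
  refine LZ_congr (f := G) (LZ_ind fun x p y => ?_) hGq
  rw [hPhi]
  have a1 : F1.f (tm (M := cBL R L c) (N := tb P (cBR N L c)) x
      (tm (M := P) (N := cBR N L c) p y)) =
      tm (M := cBL R L c) (N := tb P (cBR N0 L c)) x
        (tm (M := P) (N := cBR N0 L c) p ((fN.gmapR L c).f y)) := by
    change (((fN.gmapR L c).tbL P).tbL (cBL R L c)).f
      (tm (M := cBL R L c) (N := tb P (cBR N L c)) x (tm (M := P) (N := cBR N L c) p y)) = _
    rw [GMap.tbL_tm, GMap.tbL_tm, Dg.sp_zero, Dg.sp_zero]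
  have a2 : F2.f (tm (M := cBL R L c) (N := tb P (cBR N0 L c)) x
        (tm (M := P) (N := cBR N0 L c) p ((fN.gmapR L c).f y))) =
      tm (M := cBL O.R L c) (N := tb P (cBR N0 L c)) ((fR.gmapL L c).f x)
        (tm (M := P) (N := cBR N0 L c) p ((fN.gmapR L c).f y)) := GMap.tbR_tm _ _ _ _
  have a3 : (zet w (cBR N0 L c)).f (tm (M := P) (N := cBR N0 L c) p ((fN.gmapR L c).f y)) =
      (fN.gmapR L c).f ((cBR N L c).l (w.f p) y) := by
    rw [zet_tm]
    refine Eq.trans ?_ ((fN.gmapR L c).map_l (w.f p) y).symm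
    rw [Dg.sp_zero]
  change top.f ((ev O.Z q c).f ((O.phi (zet w (cBR N0 L c)) hζ).f (F2.f (F1.f
    (tm (M := cBL R L c) (N := tb P (cBR N L c)) x (tm (M := P) (N := cBR N L c) p y)))))) = _
  rw [a1, a2, RO.phi_tm, a3]
  refine congrArg top.f ?_
  refine (ev_mul O.p q c _ _).trans ?_
  refine congrArg₂ (fun x y => (O.p.p (c.ins l)).m x y) ?_ ?_
  · exact ev_nat fR.pch q c x
  · exact ev_nat fN.pch q c _

variable (X : XD k) (T U : Type u) [AddCommGroup T] [Module k T] [Module X.M T]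
  [IsScalarTower k X.M T] [AddCommGroup U] [Module k U] [Module X.M U] [IsScalarTower k X.M U]
  (E0 : Submodule k U)

/-- the inclusion of the (full) subspace of values -/
def LZ_top (a : Set X.i) : CHom (Cx.conc k ((cnT X U E0 T).Z a)) (Cx.conc k (T ⊗[X.M] U)) :=
  concH (show (cnT X U E0 T).Z a →ₗ[k] T ⊗[X.M] U from (⊤ : Submodule k (T ⊗[X.M] U)).subtype)

theorem LZ_top_bij (a : Set X.i) : Function.Bijective (LZ_top X T U E0 a).f :=
  ⟨fun x y h => Subtype.ext h, fun y => ⟨⟨y, trivial⟩, rfl⟩⟩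

theorem LZ_ρ_bij {c d : Ch X.i} (h : c ≤ d) :
    Function.Bijective ((cnT X U E0 T).ro.Z.ρ h).f := by
  change Function.Bijective (fun x : (cnT X U E0 T).Z c.1 => (⟨x.1, trivial⟩ :
    (cnT X U E0 T).Z d.1))
  exact ⟨fun x y h => Subtype.ext (congrArg Subtype.val h), fun y => ⟨⟨y.1, trivial⟩, rfl⟩⟩

/-- the composition of the maps of presheaves of rows -/
def LZ_fR {R : PB (PA.con X.i (base k)) X.ca.pa} (fR : PBH R (rowT X T)) :
    PBH R (cnT X U E0 T).row where
  f := fun c => (fR.f c).comp ((rowTc X T U E0).f c) (add_zero 0)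
  dd := fun c => LinearMap.ext fun x => by
    rw [GMap.dd_comp, fR.dd c, (rowTc X T U E0).dd c]
    simp
  nat := fun h x => ((rowTc X T U E0).nat h _).trans (congrArg _ (fR.nat h x))

/-- LOC: the pairing of the rows with entries in `T` and the columns with entries in `F`, evaluated at
a chart, is a quasi-isomorphism to `T ⊗ U`. -/
theorem loc (hW : Proper (TT X.ca)) [Module.Finite X.M T]
    (hE0 : Submodule.span X.M (E0 : Set U) = ⊤) {P : Bim (TT X.ca) (TT X.ca)} (hP : Perf P)
    {w : GMap 0 P (diag (TT X.ca))} (hw : QIso w) {l : X.i} (q : Ptr (LL X.i) l)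
    (R : PB (PA.con X.i (base k)) X.ca.pa) (N : PB X.ca.pa (PA.con X.i (base k)))
    (fR : PBH R (rowT X T)) (hR : ∀ c, Function.Bijective (fR.f c).f)
    (fN : PBH N (colF X U E0)) (hN : ∀ c, Function.Bijective (fN.f c).f)
    (Phi : CHom (bcx (tb (cBL R (LL X.i) (FS.e X.i)) (tb P (cBR N (LL X.i) (FS.e X.i)))))
      (Cx.conc k (T ⊗[X.M] U)))
    (hPhi : ∀ (x : (cBL R (LL X.i) (FS.e X.i)).M) (p : P.M) (y : (cBR N (LL X.i) (FS.e X.i)).M),
      Phi.f (tm (M := cBL R (LL X.i) (FS.e X.i)) (N := tb P (cBR N (LL X.i) (FS.e X.i))) x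
        (tm (M := P) (N := cBR N (LL X.i) (FS.e X.i)) p y)) =
      ∑ e : X.II, (show X.II → T from (fR.f _).f ((ev R.pc q (FS.e X.i)).f x)) e ⊗ₜ[X.M]
        (show colS X (fun e => X.Fs U E0 (X.tw e) ((FS.e X.i).ins l).1) from
          (fN.f _).f ((ev N.pc q (FS.e X.i)).f
            ((cBR N (LL X.i) (FS.e X.i)).l (w.f p) y))).1 e) : Qi Phi := by
  have hζ : QIso (zet w (cBR (colF X U E0) (LL X.i) (FS.e X.i))) := zet_qiso hW hP hw _
  have hG : (cnT X U E0 T).G (zet w (cBR (colF X U E0) (LL X.i) (FS.e X.i))) hζ.1 :=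
    cnT_good T (cn_good_tw hE0 (fun b => tw_good hζ (lflat_tb hP _) b))
  have h4 : Qi (ev (cnT X U E0 T).ro.Z q (FS.e X.i)) := ev_qi _
    (fun {c d} h => LZ_ρ_bij X T U E0 h) q _
  have h5 : Qi (LZ_top X T U E0 ((FS.e X.i).ins l).1) := Qi.of_bij (LZ_top_bij X T U E0 _)
  refine loc_abs (cnT X U E0 T).ro hG q h4 (LZ_top X T U E0 ((FS.e X.i).ins l).1) h5
    (LZ_fR X T U E0 fR) (fun c => ?_) fN hN Phi (fun x p y => ?_)
  · exact (rowTc_bij X T U E0 c).comp (hR c)
  · exact hPhi x p y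

end main

end Pool.Agent.MP_6e5bed_ag_GG
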