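import Pool.Agent.Lib.MP_6e5bed_ag_GG.LZ
import Pool.Agent.Lib.MP_6e5bed_ag_GG.Cbm
import Pool.Agent.Lib.MP_6e5bed_ag_GG.Pmk

set_option autoImplicit false
set_option linter.unusedVariables false
set_option linter.unusedSectionVars false

/-!
# MP_6e5bed_ag, THEOREM G: LOC for bimodules with outer algebras
-/

noncomputable section

namespace Pool.Agent.MP_6e5bed_ag_GG

open Pool.Agent.MP_6e5bed_ag_NC Pool.Agent.MP_6e5bed_ag_PN
open Pool.Agent.MP_6e5bed_ag_NS (Cx CHom concH conc_map)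
open scoped TensorProduct

universe u

variable {k : Type u} [Field k]

/-! ### Restriction of the constant algebra to `k` -/

section rst

variable {ι : Type} {A B : PA k ι} {C : DGA k}

/-- restriction to the base on the left -/
def PBL.rst (M : PB (PA.con ι C) B) : PB (PA.con ι (base k)) B where
  M := fun c => res (DHom.unit C) (DHom.id _) (M.M c)
  ρ := fun {c d} h =>
    gmk ((PA.con ι (base k)).r h) (B.r h) (M.ρ h).f (M.ρ h).deg
      (fun r x => gm_l (M.ρ h) ((DHom.unit C).f r) x) (fun r x => gm_r (M.ρ h) r x)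
  dd := fun {c d} h => gmk_dd _ _ _ _ _ _ (fun x => gm_d (M.dd h) x)
  ρ_id := fun h x => M.ρ_id h x
  ρ_ρ := fun h h' x => M.ρ_ρ h h' x

/-- restriction to the base on the right -/
def PBRm.rst (M : PB A (PA.con ι C)) : PB A (PA.con ι (base k)) where
  M := fun c => res (DHom.id _) (DHom.unit C) (M.M c)
  ρ := fun {c d} h =>
    gmk (A.r h) ((PA.con ι (base k)).r h) (M.ρ h).f (M.ρ h).deg
      (fun r x => gm_l (M.ρ h) r x) (fun r x => gm_r (M.ρ h) ((DHom.unit C).f r) x)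
  dd := fun {c d} h => gmk_dd _ _ _ _ _ _ (fun x => gm_d (M.dd h) x)
  ρ_id := fun h x => M.ρ_id h x
  ρ_ρ := fun h h' x => M.ρ_ρ h h' x

/-- the identity, semilinear on the left -/
def PBL.idb (M : PB (PA.con ι C) B) : PBL (DHom.unit C) (PBL.rst M) M where
  f := fun c => GMap.id _
  dd := fun c => LinearMap.ext (GMap.dd_id)
  nat := fun h x => rfl

/-- the identity, semilinear on the right -/
def PBRm.idb (M : PB A (PA.con ι C)) : PBRm (DHom.unit C) (PBRm.rst M) M where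
  f := fun c => GMap.id _
  dd := fun c => LinearMap.ext (GMap.dd_id)
  nat := fun h x => rfl

end rst

/-! ### LOC -/

section main

variable {X : XD k} {D D' : DGA k} {Xr : PB (PA.con X.i D) X.ca.pa}
  {Yc : PB X.ca.pa (PA.con X.i D')} {T U : Type u} [AddCommGroup T] [Module k T] [Module X.M T]
  [IsScalarTower k X.M T] [AddCommGroup U] [Module k U] [Module X.M U] [IsScalarTower k X.M U]
  {E0 : Submodule k U} {P : Bim (TT X.ca) (TT X.ca)}

/-- the comparison of the tensor products over the base and over the outer algebras -/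
def LgNF (Xr : PB (PA.con X.i D) X.ca.pa) (Yc : PB X.ca.pa (PA.con X.i D'))
    (P : Bim (TT X.ca) (TT X.ca)) :
    GMap 0 (tb (cBL (PBL.rst Xr) (LL X.i) (FS.e X.i))
        (tb P (cBR (PBRm.rst Yc) (LL X.i) (FS.e X.i))))
      (res (DHom.unit D) (DHom.unit D')
        (tb (cBL Xr (LL X.i) (FS.e X.i)) (tb P (cBR Yc (LL X.i) (FS.e X.i))))) :=
  gT (γ := DHom.id (TT X.ca)) ((PBL.idb Xr).gm (LL X.i) (FS.e X.i))
    (gT (γ := DHom.id (TT X.ca)) (idr P) ((PBRm.idb Yc).gm (LL X.i) (FS.e X.i)))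

theorem LgNF_tm (x : (cBL (PBL.rst Xr) (LL X.i) (FS.e X.i)).M) (p : P.M)
    (y : (cBR (PBRm.rst Yc) (LL X.i) (FS.e X.i)).M) :
    (LgNF Xr Yc P).f (tm (M := cBL (PBL.rst Xr) (LL X.i) (FS.e X.i))
      (N := tb P (cBR (PBRm.rst Yc) (LL X.i) (FS.e X.i))) x
      (tm (M := P) (N := cBR (PBRm.rst Yc) (LL X.i) (FS.e X.i)) p y)) =
    tm (M := cBL Xr (LL X.i) (FS.e X.i)) (N := tb P (cBR Yc (LL X.i) (FS.e X.i)))
      (((PBL.idb Xr).gm (LL X.i) (FS.e X.i)).f x)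
      (tm (M := P) (N := cBR Yc (LL X.i) (FS.e X.i)) p
        (((PBRm.idb Yc).gm (LL X.i) (FS.e X.i)).f y)) := by
  have h1 := gT_tm (γ := DHom.id (TT X.ca)) ((PBL.idb Xr).gm (LL X.i) (FS.e X.i))
    (gT (γ := DHom.id (TT X.ca)) (idr P) ((PBRm.idb Yc).gm (LL X.i) (FS.e X.i))) x
    (tm (M := P) (N := cBR (PBRm.rst Yc) (LL X.i) (FS.e X.i)) p y)
  have h2 := gT_tm (γ := DHom.id (TT X.ca)) (idr P)
    ((PBRm.idb Yc).gm (LL X.i) (FS.e X.i)) p y
  exact h1.trans (congrArg (fun z => tm (M := cBL Xr (LL X.i) (FS.e X.i))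
    (N := tb P (cBR Yc (LL X.i) (FS.e X.i))) (((PBL.idb Xr).gm (LL X.i) (FS.e X.i)).f x) z) h2)

theorem LgNF_dd : (LgNF Xr Yc P).dd = 0 := by
  have h1 := (PBL.idb Xr).gm_dd (LL X.i) (FS.e X.i)
  have h2 := (PBRm.idb Yc).gm_dd (LL X.i) (FS.e X.i)
  have h3 := gT_dd (γ := DHom.id (TT X.ca)) (idr P)
    ((PBRm.idb Yc).gm (LL X.i) (FS.e X.i)) (idr_dd P) h2
  exact gT_dd (γ := DHom.id (TT X.ca)) ((PBL.idb Xr).gm (LL X.i) (FS.e X.i))
    (gT (γ := DHom.id (TT X.ca)) (idr P) ((PBRm.idb Yc).gm (LL X.i) (FS.e X.i))) h1 h3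

theorem LgNF_bij : Function.Bijective (LgNF Xr Yc P).f :=
  gT_bij _ _ ((PBL.idb Xr).gm_bij (fun _ => Function.bijective_id) _ _)
    (gT_bij _ _ Function.bijective_id
      ((PBRm.idb Yc).gm_bij (fun _ => Function.bijective_id) _ _))

/-- a map of degree zero as a morphism of complexes -/
def psc {A B : DGA k} {M N : Bim A B} (f : GMap 0 M N) (h : f.dd = 0) : CHom (bcx M) (bcx N) where
  f := f.f
  deg := fun {i x} hx => by
    have h1 := f.deg hx
    rwa [add_zero] at h1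
  d := fun x => GMap.d_f_zero h x

/-- LOC for bimodules with outer algebras. -/
theorem qiso_psi (hW : Proper (TT X.ca)) [Module.Finite X.M T]
    (hE0 : Submodule.span X.M (E0 : Set U) = ⊤) (hP : Perf P)
    {w : GMap 0 P (diag (TT X.ca))} (hw : QIso w) {l : X.i} (q : Ptr (LL X.i) l)
    (fR : PBH (PBL.rst Xr) (rowT X T)) (hR : ∀ c, Function.Bijective (fR.f c).f)
    (fN : PBH (PBRm.rst Yc) (colF X U E0)) (hN : ∀ c, Function.Bijective (fN.f c).f)
    {Zz : Bim D D'} (Pz : BPr (cBL Xr (LL X.i) (FS.e X.i)) (cBR Yc (LL X.i) (FS.e X.i)) Zz)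
    (iz : CHom (bcx Zz) (Cx.conc k (T ⊗[X.M] U))) (hiz : Function.Bijective iz.f)
    (h : ∀ (x : (cBL Xr (LL X.i) (FS.e X.i)).M) (y : (cBR Yc (LL X.i) (FS.e X.i)).M),
      iz.f (Pz.v x y) =
      ∑ e : X.II, (show X.II → T from (fR.f _).f ((ev Xr.pc q (FS.e X.i)).f x)) e ⊗ₜ[X.M]
        (show colS X (fun e => X.Fs U E0 (X.tw e) ((FS.e X.i).ins l).1) from
          (fN.f _).f ((ev Yc.pc q (FS.e X.i)).f y)).1 e) : QIso (Pz.psi w) := by
  let Phi : CHom (bcx (tb (cBL (PBL.rst Xr) (LL X.i) (FS.e X.i))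
      (tb P (cBR (PBRm.rst Yc) (LL X.i) (FS.e X.i))))) (Cx.conc k (T ⊗[X.M] U)) :=
    (gch (LgNF Xr Yc P) LgNF_dd).comp ((psc (Pz.psi w) (Pz.psi_dd w hw.1)).comp iz)
  have hq : Qi Phi := by
    refine loc X T U E0 hW hE0 hP hw q (PBL.rst Xr) (PBRm.rst Yc) fR hR fN hN Phi ?_
    intro x p y
    have e1 : Phi.f (tm (M := cBL (PBL.rst Xr) (LL X.i) (FS.e X.i))
        (N := tb P (cBR (PBRm.rst Yc) (LL X.i) (FS.e X.i))) x
        (tm (M := P) (N := cBR (PBRm.rst Yc) (LL X.i) (FS.e X.i)) p y)) =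
        iz.f (Pz.v (((PBL.idb Xr).gm (LL X.i) (FS.e X.i)).f x)
          ((cBR Yc (LL X.i) (FS.e X.i)).l (w.f p)
            (((PBRm.idb Yc).gm (LL X.i) (FS.e X.i)).f y))) := by
      change iz.f ((Pz.psi w).f ((LgNF Xr Yc P).f _)) = _
      refine congrArg iz.f ?_
      refine (congrArg (Pz.psi w).f (LgNF_tm x p y)).trans ?_
      exact Pz.psi_tm w _ _ _
    have e2 : (cBR Yc (LL X.i) (FS.e X.i)).l (w.f p)
        (((PBRm.idb Yc).gm (LL X.i) (FS.e X.i)).f y) =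
        ((PBRm.idb Yc).gm (LL X.i) (FS.e X.i)).f
          ((cBR (PBRm.rst Yc) (LL X.i) (FS.e X.i)).l (w.f p) y) :=
      (gm_l ((PBRm.idb Yc).gm (LL X.i) (FS.e X.i)) (w.f p) y).symm
    rw [e1, e2, h]
    refine Finset.sum_congr rfl fun e _ => ?_
    have e3 : (ev Xr.pc q (FS.e X.i)).f (((PBL.idb Xr).gm (LL X.i) (FS.e X.i)).f x) =
        (ev (PBL.rst Xr).pc q (FS.e X.i)).f x := ev_nat (PBL.idb Xr).pch q (FS.e X.i) x
    have e4 : (ev Yc.pc q (FS.e X.i)).f (((PBRm.idb Yc).gm (LL X.i) (FS.e X.i)).f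
          ((cBR (PBRm.rst Yc) (LL X.i) (FS.e X.i)).l (w.f p) y)) =
        (ev (PBRm.rst Yc).pc q (FS.e X.i)).f
          ((cBR (PBRm.rst Yc) (LL X.i) (FS.e X.i)).l (w.f p) y) :=
      ev_nat (PBRm.idb Yc).pch q (FS.e X.i) _
    rw [e3, e4]
  have h1 : Qi ((psc (Pz.psi w) (Pz.psi_dd w hw.1)).comp iz) :=
    Qi.of_left (f := gch (LgNF Xr Yc P) LgNF_dd) (h := Phi) (fun x => rfl)
      (Qi.of_bij LgNF_bij) hq
  exact ⟨Pz.psi_dd w hw.1, Qi.of_right (f := psc (Pz.psi w) (Pz.psi_dd w hw.1)) (g := iz)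
    (h := (psc (Pz.psi w) (Pz.psi_dd w hw.1)).comp iz) (fun x => rfl) (Qi.of_bij hiz) h1⟩

end main

end Pool.Agent.MP_6e5bed_ag_GG
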