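import Pool.Agent.Lib.MP_6e5bed_ag_GG.LgN
import Pool.Agent.Lib.MP_6e5bed_ag_GG.LgT
import Pool.Agent.Lib.MP_6e5bed_ag_GG.GQ

set_option autoImplicit false
set_option linter.unusedVariables false
set_option linter.unusedSectionVars false

/-!
# MP_6e5bed_ag, THEOREM G, (8.5): the quasi-isomorphism over the generic point
-/

noncomputable section

namespace Pool.Agent.MP_6e5bed_ag_GG

open Pool.Agent.MP_6e5bed_ag_NC Pool.Agent.MP_6e5bed_ag_PN
open Pool.Agent.MP_6e5bed_ag_NS (Cx CHom concH conc_map)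
open scoped TensorProduct

universe u

attribute [local instance] XD.kbG XD.kbk XD.kbM XD.kbT

variable {k : Type u} [Field k] {i j : Type} [Fintype i] [Fintype j] {A : CA k i} {A' : CA k j}
  {m : Ch i} (g : GD A m) (X : XD k) (L : Type u) [Field L] [Algebra k L]
  [Algebra L g.S] [IsScalarTower k L g.S] [Algebra L X.M] [IsScalarTower k L X.M]

/-! ### Rows -/

/-- the values of the rows -/
def GD.fRf (a : Ch X.i) : (g.nR X L).E (m, a) →ₗ[k] (X.II → X.TT' L g.S) where
  toFun := fun x e => XD.kb (X.inM L g.S) (X.vR g.cone x ⟨le_refl m⟩ e)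
  map_add' := fun x y => rfl
  map_smul' := fun c x => rfl

theorem GD.fRf_apply (a : Ch X.i) (x : (g.nR X L).E (m, a)) (e : X.II) :
    g.fRf X L a x e = XD.kb (X.inM L g.S) (X.vR g.cone x ⟨le_refl m⟩ e) := rfl

theorem GD.fRf_bij (a : Ch X.i) : Function.Bijective (g.fRf X L a) := by
  constructor
  · intro x y hxy
    refine ZE_ext g.cone _ fun h => ?_
    exact funext fun e => (XD.kb (X.inM L g.S)).injective (congrFun hxy e)
  · intro y
    refine ⟨(fun _ => (fun e => (XD.kb (X.inM L g.S)).symm (y e) : X.II → X.KK L g.S) :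
      ZE g.cone (X.rowP (X.KK L g.S) (X.inM L g.S) (X.inS L g.S)).sh (m, a)), funext fun e => ?_⟩
    exact (XD.kb (X.inM L g.S)).apply_symm_apply (y e)

theorem GD.fRf_r (a : Ch X.i) (w : X.AXs a.1) (x : (g.nR X L).E (m, a)) :
    g.fRf X L a (((g.nR X L).kb (m, a)).r w x) =
      rowA (k := k) (X.TT' L g.S) (w : Matrix X.II X.II X.M) (g.fRf X L a x) := by
  funext e'
  rw [GD.fRf_apply, rowA_apply]
  refine (congrArg (fun z : X.II → X.KK L g.S => XD.kb (X.inM L g.S) (z e'))
    (X.vR_r g.cone w x ⟨le_refl m⟩)).trans ?_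
  rw [XD.rowr_apply, map_sum]
  refine Finset.sum_congr rfl fun e _ => ?_
  rw [GD.fRf_apply, XD.smul_kb, X.inM_comm]

/-- The comparison of the rows. -/
def GD.fR : PBH (PBL.rst ((g.nR X L).bp.two.snd m)) (rowT X (X.TT' L g.S)) where
  f := fun a =>
    { f := g.fRf X L a
      deg := fun {i x} hx => by
        rw [add_zero]
        exact conc_map (g.fRf X L a) hx
      map_l := fun b x => by
        rw [Dg.sp_zero]
        refine (congrArg (g.fRf X L a)
          (base_l ((PBL.rst ((g.nR X L).bp.two.snd m)).M a) b x)).trans ?_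
        refine Eq.trans ?_ (rowTM_l X (X.TT' L g.S) a b (g.fRf X L a x)).symm
        exact (g.fRf X L a).map_smul (show k from b) x
      map_r := fun (w : X.AXs a.1) x => g.fRf_r X L a w x }
  dd := fun a => LinearMap.ext fun x => by
    rw [GMap.dd_apply, sg_zero, one_smul, LinearMap.zero_apply, sub_eq_zero]
    exact (map_zero (g.fRf X L a)).symm
  nat := fun _ _ => rfl

variable {W : LPre L A'} (D : E0D W)

/-! ### Columns -/

/-- the values of the columns -/
def E0D.fNf (c' : Ch j) (a : Ch X.i) : (D.n2 X).E (a, c') →ₗ[k]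
    colS X (fun e => X.Fs (X.M ⊗[L] W.E c') (D.im X.M c') (X.tw e) a.1) where
  toFun := fun y => ⟨X.vC W ((D.n2i X).f (a, c') y), fun e =>
    (show (X.vC W ((D.n2i X).f (a, c') y)) ∈ XD.N2N D a.1 c' from y.2 ⟨trivial⟩) e⟩
  map_add' := fun x y => rfl
  map_smul' := fun c x => rfl

theorem E0D.fNf_coe (c' : Ch j) (a : Ch X.i) (y : (D.n2 X).E (a, c')) :
    (D.fNf X L c' a y).1 = X.vC W ((D.n2i X).f (a, c') y) := rfl

theorem E0D.fNf_bij (c' : Ch j) (a : Ch X.i) : Function.Bijective (D.fNf X L c' a) := by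
  constructor
  · intro x y hxy
    refine Subtype.ext (ZE_ext X.cn _ fun h => ?_)
    exact congrArg Subtype.val hxy
  · intro y
    exact ⟨⟨(fun _ => y.1 : ZE X.cn (X.colP W).sh (a, c')), fun h e => y.2 e⟩, Subtype.ext rfl⟩

theorem E0D.fNf_l (c' : Ch j) (a : Ch X.i) (w : X.AXs a.1) (y : (D.n2 X).E (a, c')) :
    (D.fNf X L c' a (((D.n2 X).kb (a, c')).l w y)).1 =
      colA (k := k) (X.M ⊗[L] W.E c') (w : Matrix X.II X.II X.M) (D.fNf X L c' a y).1 := by
  rw [E0D.fNf_coe, E0D.fNf_coe]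
  refine (congrArg (X.vC W) ((D.n2i X).kb_l (a, c') w y)).trans ?_
  exact X.vC_l W w _

/-- The comparison of the columns. -/
def E0D.fN (c' : Ch j) : PBH (PBRm.rst ((D.n2 X).bp.two.fst c'))
    (colF X (X.M ⊗[L] W.E c') (D.im X.M c')) where
  f := fun a =>
    { f := D.fNf X L c' a
      deg := fun {i x} hx => by
        rw [add_zero]
        exact conc_map (V := (D.n2 X).E (a, c')) (W := ↥(colS X (fun e =>
          X.Fs (X.M ⊗[L] W.E c') (D.im X.M c') (X.tw e) a.1))) (D.fNf X L c' a) hx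
      map_l := fun (w : X.AXs a.1) y => by
        rw [Dg.sp_zero]
        exact Subtype.ext (D.fNf_l X L c' a w y)
      map_r := fun b x => by
        refine (congrArg (D.fNf X L c' a)
          (base_r ((PBRm.rst ((D.n2 X).bp.two.fst c')).M a) b x)).trans ?_
        refine Eq.trans ?_ (base_r ((colF X (X.M ⊗[L] W.E c') (D.im X.M c')).M a) b
          (D.fNf X L c' a x)).symm
        exact (D.fNf X L c' a).map_smul (show k from b) x }
  dd := fun a => LinearMap.ext fun x => by
    rw [GMap.dd_apply, sg_zero, one_smul, LinearMap.zero_apply, sub_eq_zero]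
    exact (map_zero (D.fNf X L c' a)).symm
  nat := fun {a b} h y => Subtype.ext
    ((X.colP W).res_id (le_refl c') (D.fNf X L c' a y).1).symm

/-- the section of `S ⊗_L (M ⊗_L W)` as an element of `(S ⊗_L M) ⊗_M (M ⊗_L W)` -/
def GD.izf (c' : Ch j) : (X.sZ g.cone W).E (m, c') →ₗ[k]
    X.TT' L g.S ⊗[X.M] (X.M ⊗[L] W.E c') where
  toFun := fun z => X.tsE L g.S (X.M ⊗[L] W.E c') (z ⟨le_refl m⟩)
  map_add' := fun x y => map_add (X.tsE L g.S (X.M ⊗[L] W.E c')) _ _
  map_smul' := fun c x => map_smul (X.tsE L g.S (X.M ⊗[L] W.E c')) c _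

theorem GD.izf_bij (c' : Ch j) : Function.Bijective (g.izf X L (W := W) c') := by
  constructor
  · intro x y hxy
    refine ZE_ext g.cone _ fun h => ?_
    exact (X.tsE L g.S (X.M ⊗[L] W.E c')).injective hxy
  · intro y
    exact ⟨(fun _ => (X.tsE L g.S (X.M ⊗[L] W.E c')).symm y),
      (X.tsE L g.S (X.M ⊗[L] W.E c')).apply_symm_apply y⟩

end Pool.Agent.MP_6e5bed_ag_GG
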