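import Pool.Agent.Lib.MP_6e5bed_ag_GG.TrnR
import Pool.Agent.Lib.MP_6e5bed_ag_GG.Noe

set_option autoImplicit false
set_option linter.unusedVariables false

/-!
# MP_6e5bed_ag, THEOREM G, section (5.3): the classes of the cohomology bisheaves
-/

noncomputable section

namespace Pool.Agent.MP_6e5bed_ag_GG

open Pool.Agent.MP_6e5bed_ag_NC Pool.Agent.MP_6e5bed_ag_PN
open Pool.Agent.MP_6e5bed_ag_NS (Cx CHom ringH)
open scoped TensorProduct

universe u

variable {k : Type u} [Field k] {i j : Type} [Fintype i] [Fintype j] {A : CA k i} {A' : CA k j}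

/-! ### The graded pieces -/

theorem ρ_add (X : Cx k) (x y : X.V) (m : ℤ) :
    X.dg.ρ (x + y) m = X.dg.ρ x m + X.dg.ρ y m := by
  rw [map_add, Finsupp.add_apply]

theorem ρ_smul (X : Cx k) (c : k) (x : X.V) (m : ℤ) :
    X.dg.ρ (c • x) m = c • X.dg.ρ x m := by
  rw [map_smul, Finsupp.smul_apply]

theorem ρ_of_ne {X : Cx k} {x : X.V} {m n : ℤ} (h : X.dg.IsDeg m x) (hn : n ≠ m) :
    X.dg.ρ x n = 0 := by
  have h' : X.dg.ρ x = Finsupp.single m x := h
  rw [h', Finsupp.single_eq_of_ne hn]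

theorem cyc_add {X : Cx k} {x y : X.V} (hx : X.dg.d x = 0) (hy : X.dg.d y = 0) :
    X.dg.d (x + y) = 0 := by
  rw [map_add, hx, hy, add_zero]

theorem cyc_smul {X : Cx k} (c : k) {x : X.V} (hx : X.dg.d x = 0) : X.dg.d (c • x) = 0 := by
  rw [map_smul, hx, smul_zero]

section piece

variable (F : BPB A A') (hQ : F.QC) (n : ℤ)

/-- the underlying linear map -/
def trHf (p : Ch i × Ch j) : (tr F.bpc n).S p →ₗ[k] (F.H hQ n).E p where
  toFun := fun x => F.cl hQ n ((F.F p).dg.ρ x.1 n) (Dg.isDeg_ρ _ _) (mem_tr.1 x.2).1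
  map_add' := fun x y => CAct.cl_ext (a := F.ca p)
    (h3 := (Dg.isDeg_ρ _ _).add (Dg.isDeg_ρ _ _))
    (h4 := cyc_add (X := bcx (F.F p)) (mem_tr.1 x.2).1 (mem_tr.1 y.2).1)
    (ρ_add (bcx (F.F p)) x.1 y.1 n)
  map_smul' := fun c x => CAct.cl_ext (a := F.ca p)
    (h3 := (Dg.isDeg_ρ _ _).smul c)
    (h4 := cyc_smul (X := bcx (F.F p)) c (mem_tr.1 x.2).1) (ρ_smul (bcx (F.F p)) c x.1 n)

theorem trHf_apply (p : Ch i × Ch j) (x : (tr F.bpc n).S p) : trHf F hQ n p x =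
    F.cl hQ n ((F.F p).dg.ρ x.1 n) (Dg.isDeg_ρ _ _) (mem_tr.1 x.2).1 := rfl

theorem trHf_zero (p : Ch i × Ch j) (x : (tr F.bpc n).S p) : trHf F hQ n p x = 0 ↔
    ∃ y, (F.F p).dg.d y = (F.F p).dg.ρ x.1 n :=
  BPB.cl_eq_zero (h1 := Dg.isDeg_ρ _ _) (h2 := (mem_tr.1 x.2).1)

/-- The map from the truncation to the cohomology. -/
def trH : BPCH (tr F.bpc n).bpc ((F.H hQ n).atn n) where
  f := fun p =>
    { f := trHf F hQ n p
      deg := fun {m x} hx => by
        by_cases hmn : m = n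
        · rw [hmn]
          exact atx_deg _
        · have h1 : trHf F hQ n p x = 0 := by
            refine (trHf_zero F hQ n p x).2 ⟨0, (map_zero _).trans ?_⟩
            have h2 := (GrS.cx_deg (tr F.bpc n) p (x := x)).1 hx
            exact (ρ_of_ne h2 (Ne.symm hmn)).symm
          have h3 : (atx k ((F.H hQ n).E p) n).dg.IsDeg m (0 : (F.H hQ n).E p) :=
            Dg.IsDeg.zero m
          rw [← h1] at h3
          exact h3
      d := fun x => by
        refine (atx_d (V := (F.H hQ n).E p) _).trans ?_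
        refine ((trHf_zero F hQ n p _).2 ⟨(F.F p).dg.ρ x.1 (n - 1), ?_⟩).symm
        exact (ρ_d' (bcx (F.F p)) x.1 n).symm }
  act := fun p b x => CAct.cl_ext (a := F.ca p) (h1 := Dg.isDeg_ρ _ _)
    (h2 := (mem_tr.1 (GrS.mem_act (tr F.bpc n) p b x.1 x.2)).1)
    (h3 := (F.ca p).deg b (Dg.isDeg_ρ _ _)) (h4 := (F.ca p).cyc b (mem_tr.1 x.2).1)
    (bact_ρ (F.F p) b x.1 n)
  nat := fun {p q} h x => CAct.cl_ext (a := F.ca q)
    (h1 := (F.rho h).deg (Dg.isDeg_ρ _ _)) (h2 := chom_cyc (F.rho h) (mem_tr.1 x.2).1)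
    (h3 := Dg.isDeg_ρ _ _) (h4 := (mem_tr.1 (GrS.mem_res (tr F.bpc n) h x.1 x.2)).1)
    (ρ_hom (F.rho h) x.1 n).symm

theorem tr_ex : BPCEx (GrS.ofLE (tr_le' (F := F.bpc) n)) (trH F hQ n) := fun p => by
  refine ⟨fun x y h => Subtype.ext (congrArg (fun z : (tr F.bpc n).S p => z.1) h),
    fun z => ?_, fun x => ?_⟩
  · obtain ⟨x, h1, h2, rfl⟩ := BPB.cl_surj (F := F) (hQ := hQ) z
    have hx : x ∈ (tr F.bpc n).S p := by
      refine mem_tr.2 ⟨?_, fun m hm => ?_⟩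
      · have h3 : (F.F p).dg.ρ x n = x := ρ_self (X := bcx (F.F p)) h1
        exact (congrArg (F.F p).dg.d h3).trans h2
      · exact ρ_of_ne (X := bcx (F.F p)) h1 (by omega)
    exact ⟨⟨x, hx⟩, CAct.cl_ext (a := F.ca p) (h1 := Dg.isDeg_ρ _ _)
      (h2 := (mem_tr.1 hx).1) (h3 := h1) (h4 := h2) (ρ_self (X := bcx (F.F p)) h1)⟩
  · refine (trHf_zero F hQ n p x).trans ⟨fun h => ?_, fun h => ?_⟩
    · exact ⟨⟨x.1, mem_tr'.2 ⟨h, (mem_tr.1 x.2).2⟩⟩, rfl⟩
    · obtain ⟨y, rfl⟩ := h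
      exact (mem_tr'.1 y.2).1

end piece

/-! ### Bounded cohomology -/

/-- The cohomology is zero in the degrees `≤ m` and in the degrees `> n`. -/
def BPB.Bd (F : BPB A A') (m n : ℤ) : Prop := ∀ p : Ch i × Ch j,
  ExIn (bcx (F.F p)) (fun l => l ≤ m) ∧ ExIn (bcx (F.F p)) (fun l => n < l)

section cls

variable {F : BPB A A'} {hQ : F.QC} {m n : ℤ}

theorem tr_low (hB : F.Bd m n) {l : ℤ} (hl : l ≤ m) : Acyc (tr F.bpc l).bpc.bpb.BB :=
  BPC.acyc _ (fun p => tr_acyc (fun l' x h1 h2 h3 => (hB p).1 l' x (h1.trans hl) h2 h3))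

theorem tr_top (hB : F.Bd m n) {l : ℤ} (hl : n ≤ l) :
    ∃ f : GMap 0 (tr F.bpc l).bpc.bpb.BB F.BB, QIso f :=
  ⟨_, BPCH.toB_qiso (tr F.bpc l).incl
    (fun p => tr_qi (fun l' x h1 h2 h3 => (hB p).2 l' x (lt_of_le_of_lt hl h1) h2 h3))⟩

theorem tr_step (F : BPB A A') (l : ℤ) :
    ∃ f : GMap 0 (tr F.bpc (l - 1)).bpc.bpb.BB (tr' F.bpc l).bpc.bpb.BB, QIso f :=
  ⟨_, BPCH.qiso (GrS.ofLE (tr_pred_le l)) (fun p => tr_pred_qi l p)⟩

/-- the truncations have perfect resolutions -/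
theorem tr_hasRes (hB : F.Bd m n) (hR : ∀ l, HasRes (F.H hQ l).bp.BB) (l : ℤ) :
    HasRes (tr F.bpc l).bpc.bpb.BB := by
  rcases le_total l m with hl | hl
  · exact HasRes.of_acyc (tr_low hB hl)
  · induction l, hl using Int.leInduction with
    | base => exact HasRes.of_acyc (tr_low hB le_rfl)
    | succ l hl ih =>
      have h1 := tr_step F (l + 1)
      rw [add_sub_cancel_right] at h1
      obtain ⟨f, hf⟩ := h1
      exact (tr_ex F hQ (l + 1)).ses.mid (ih.of_qiso f hf)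
        ((F.H hQ (l + 1)).atn_res (hR (l + 1)) (l + 1))

theorem BPB.hasRes (hB : F.Bd m n) (hR : ∀ l, HasRes (F.H hQ l).bp.BB) : HasRes F.BB := by
  obtain ⟨f, hf⟩ := tr_top hB (le_refl n)
  exact (tr_hasRes hB hR n).of_qiso f hf

theorem tr_rcls (hB : F.Bd m n) (hR : ∀ l, HasRes (F.H hQ l).bp.BB) (l : ℤ) :
    rcls _ (tr_hasRes hB hR l) = rcls _ (tr_hasRes hB hR (l - 1)) +
      rcls _ ((F.H hQ l).atn_res (hR l) l) := by
  obtain ⟨f, hf⟩ := tr_step F l
  have h' := (tr_hasRes hB hR (l - 1)).of_qiso f hf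
  rw [(tr_ex F hQ l).ses.rcls h' (tr_hasRes hB hR l) ((F.H hQ l).atn_res (hR l) l),
    rcls_qiso (tr_hasRes hB hR (l - 1)) h' f hf]

/-- (5.3) -/
theorem BPB.mem_H0 (hB : F.Bd m n) (hR : ∀ l, HasRes (F.H hQ l).bp.BB)
    {J : Submodule ℚ (K0Q (TT A) (TT A'))} (hF : ∀ h : HasRes F.BB, rcls _ h ∈ J)
    (hJ : ∀ l, l ≠ 0 → rcls _ (hR l) ∈ J) : rcls _ (hR 0) ∈ J := by
  have hJ' : ∀ l, l ≠ 0 → rcls _ ((F.H hQ l).atn_res (hR l) l) ∈ J := fun l hl =>
    ((F.H hQ l).atn_mem (hR l) l).2 (hJ l hl)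
  have hlow : ∀ l, l < 0 → rcls _ (tr_hasRes hB hR l) ∈ J := by
    intro l
    rcases le_total l m with hl | hl
    · intro _
      rw [rcls_acyc (tr_low hB hl)]
      exact zero_mem _
    · induction l, hl using Int.leInduction with
      | base =>
        intro _
        rw [rcls_acyc (tr_low hB le_rfl)]
        exact zero_mem _
      | succ l hl ih =>
        intro hl'
        rw [tr_rcls hB hR (l + 1)]
        refine add_mem ?_ (hJ' _ (by omega))
        have h1 : ∀ a b : ℤ, a = b → rcls _ (tr_hasRes hB hR b) ∈ J →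
            rcls _ (tr_hasRes hB hR a) ∈ J := by
          rintro a _ rfl h
          exact h
        exact h1 _ _ (by ring) (ih (by omega))
  have htop : ∀ l, n ≤ l → rcls _ (tr_hasRes hB hR l) ∈ J := by
    intro l hl
    obtain ⟨f, hf⟩ := tr_top hB hl
    rw [rcls_qiso (tr_hasRes hB hR l) ((tr_hasRes hB hR l).of_qiso f hf) f hf]
    exact hF _
  have hup : ∀ l, 0 ≤ l → rcls _ (tr_hasRes hB hR l) ∈ J := by
    intro l hl
    rcases le_total n l with h | h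
    · exact htop l h
    · induction l, h using Int.leInductionDown with
      | base => exact htop n le_rfl
      | pred l hl' ih =>
        have h1 := ih (by omega)
        rw [tr_rcls hB hR l] at h1
        exact (Submodule.add_mem_iff_left J (hJ' l (by omega))).1 h1
  have h0 := tr_rcls hB hR 0
  have h1 : rcls _ ((F.H hQ 0).atn_res (hR 0) 0) ∈ J := by
    refine (Submodule.add_mem_iff_right J (hlow (0 - 1) (by omega))).1 ?_
    rw [← h0]
    exact hup 0 le_rfl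
  exact ((F.H hQ 0).atn_mem (hR 0) 0).1 h1

end cls

end Pool.Agent.MP_6e5bed_ag_GG
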