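import Pool.Agent.Lib.MP_6e5bed_ag_GG.SI
import Pool.Agent.Lib.MP_6e5bed_ag_GG.Cls
import Pool.Agent.Lib.MP_6e5bed_ag_PN.Two2

set_option autoImplicit false
set_option linter.unusedVariables false

/-!
# MP_6e5bed_ag, THEOREM G: finiteness of the cohomology of coherent bisheaves (text, (4.4))
-/

noncomputable section

namespace Pool.Agent.MP_6e5bed_ag_GG

open Pool.Agent.MP_6e5bed_ag_NC Pool.Agent.MP_6e5bed_ag_NS Pool.Agent.MP_6e5bed_ag_PN

universe u v

variable {k : Type u} [Field k] {i j : Type} [Fintype i] [Fintype j] {A : CA k i} {A' : CA k j}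

theorem finBB_of (h : ∀ b : ℕ, (DAct.triv ((cC ((O2 k i j (-b) (-b)).pc2.push (LL i) (FS.e i))
    (LL j)).X (FS.e j))).FGt) : FinBB A A' := fun E hE =>
  (DAct.finCoh _).1 (fin1_of h (toOb_coh hE))

variable (A A') in
/-- the double Čech complexes in the other order have finite-dimensional cohomology -/
def FinBB2 : Prop := ∀ E : BS A A', E.Coh →
  (cB2' E.bp.two (LL j) (FS.e j) (LL i) (FS.e i)).dg.FinCoh

theorem finBB2_of (h : ∀ b : ℕ, (DAct.triv ((cC ((O2 k i j (-b) (-b)).pc2.push2 (LL j) (FS.e j))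
    (LL i)).X (FS.e i))).FGt) : FinBB2 A A' := fun E hE =>
  (DAct.finCoh _).1 (fin1'_of h (toOb_coh hE))

theorem toOb_push2 (E : BS A A') (c : Ch i) :
    MP_6e5bed_ag_PN.bcx ((E.bp.two.push2 (LL j) (FS.e j)).M c) =
      (cC ((toOb E).pc2.snd c) (LL j)).X (FS.e j) := rfl

theorem toOb_push (E : BS A A') (c' : Ch j) :
    MP_6e5bed_ag_PN.bcx ((E.bp.two.push (LL i) (FS.e i)).M c') =
      (cC ((toOb E).pc2.fst c') (LL i)).X (FS.e i) := rfl

end Pool.Agent.MP_6e5bed_ag_GG
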