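import Pool.Agent.Lib.MP_6e5bed_ag_GG.MnA
import Pool.Agent.Lib.MP_6e5bed_ag_GG.GlB
import Pool.Agent.Lib.MP_6e5bed_ag_GG.Comp
import Pool.Agent.Lib.MP_6e5bed_ag_GG.Asm
import Pool.Agent.Lib.MP_6e5bed_ag_GG.S5
import Pool.Agent.Lib.MP_6e5bed_ag_GG.CohF
import Pool.Agent.Lib.MP_6e5bed_ag_GG.SJ

set_option autoImplicit false
set_option linter.unusedVariables false

/-!
# MP_6e5bed_ag, THEOREM G: the main step of the noetherian induction from its parts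
-/

noncomputable section

namespace Pool.Agent.MP_6e5bed_ag_GG

open Pool.Agent.MP_6e5bed_ag_NC Pool.Agent.MP_6e5bed_ag_PN Pool.Agent.MP_6e5bed_ag_PS
open scoped TensorProduct

universe u

variable {k : Type u} [Field k] {i x : Type} [Fintype i] [Fintype x] {A : CA k i} {B : CA k x}

/-- (5.3) for the composition -/
theorem h53_of {Good : DGA k → Prop} {hF : FinBB A A} {hS : Smooth (TT A)}
    {J : Submodule ℚ (K0Q (TT A) (TT A))} (hJ : JS Good (TT A) ≤ J)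
    {N1 : BS A B} {N2 : BS B A} (h1 : N1.Coh) (h2 : N2.Coh) (hF1 : FinBB2 A B)
    (hF2 : FinBB B A) (hW : SPJ Good (TT B)) {V : Bim (TT B) (TT B)} (hV : Perf V)
    {ω : GMap 0 V (diag (TT B))} (hω : QIso ω) (hQ : (BPB.cmp N1.bx V N2.by').QC)
    (hC : (BPB.cmp N1.bx V N2.by').CohF)
    (h : ∀ n, n ≠ 0 → (clf A A hF hS hS (bs_noe A A) J).cl
      ((BPB.cmp N1.bx V N2.by').H hQ n) = 0) :
    (clf A A hF hS hS (bs_noe A A) J).cl ((BPB.cmp N1.bx V N2.by').H hQ 0) = 0 := by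
  obtain ⟨a, b, hab⟩ := hC.bd
  have hr : ∀ n, HasRes ((BPB.cmp N1.bx V N2.by').H hQ n).bp.BB := fun n =>
    hasRes_BB hF hS hS (hC.coh hQ n)
  refine (clf_eq_zero hF hS hS (bs_noe A A) J (hC.coh hQ 0)).2 ?_
  refine BPB.mem_H0 hab hr (fun h' => hJ ?_) (fun n hn => ?_)
  · exact cmp_mem hW hS N1.bx N2.by' (hF1 N1 h1) (hF2 N2 h2) hV hω h'
  · exact (clf_eq_zero hF hS hS (bs_noe A A) J (hC.coh hQ n)).1 (h n hn)

/-- The main step from its parts. -/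
theorem main_of {Good : DGA k → Prop} {hF : FinBB A A} {hS : Smooth (TT A)}
    {J : Submodule ℚ (K0Q (TT A) (TT A))} (hJ : JS Good (TT A) ≤ J)
    {E : BS A A} {m : Ch i} (hE : E.Coh) (hR : Red E m)
    (ih : ∀ F : BS A A, F.Coh → ann E < ann F →
      (clf A A hF hS hS (bs_noe A A) J).cl F = 0)
    {N1 : BS A B} {N2 : BS B A} (h1 : N1.Coh) (h2 : N2.Coh) (hF1 : FinBB2 A B)
    (hF2 : FinBB B A) (hW : SPJ Good (TT B)) {V : Bim (TT B) (TT B)} (hV : Perf V)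
    {ω : GMap 0 V (diag (TT B))} (hω : QIso ω) (hQ : (BPB.cmp N1.bx V N2.by').QC)
    (hC : (BPB.cmp N1.bx V N2.by').CohF)
    {P : PreS hR.gd.S B} (f : ShH N1 (Zs hR.gd.cone P.sh)) (hf : f.Inj)
    {Z : BS A A} {Ψ : BPH (BPB.cmp N1.bx V N2.by') Z.bp}
    (G : ∀ c', LGD Ψ m c' (sg E m hR.one hR.pr)) {n : ℕ} (hn : 0 < n)
    (θ : ShH Z ((Zs hR.gd.cone hR.gv.V).pow n)) (hθ : θ.Bij) :
    (clf A A hF hS hS (bs_noe A A) J).cl E = 0 :=
  glueM (scls_coh (bs_noe A A)) (clf A A hF hS hS (bs_noe A A) J) hE hR ih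
    (hQ := hQ) (fun n => hC.coh hQ n) (fun n => ann_cmp hR f hf hQ n) G
    (h53_of hJ h1 h2 hF1 hF2 hW hV hω hQ hC) hn θ hθ hR.gv.map
    (fun c' e he => hR.gv.map_hi c' e he) (fun c' z => GV.map_hs hR hR.gv c' z)

end Pool.Agent.MP_6e5bed_ag_GG
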