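import Mathlib

set_option autoImplicit false
set_option linter.unusedVariables false
set_option linter.unusedSectionVars false

/-!
# MP_6e5bed_ag, THEOREM G, (8.3): rows with entries in `S ⊗ M`, columns with entries in `U`
-/

noncomputable section

namespace Pool.Agent.MP_6e5bed_ag_GG

open scoped TensorProduct

universe u

variable (k : Type u) [Field k] (L : Type u) [Field L] [Algebra k L] (S : Type u) [Ring S]
  [Algebra k S] [Algebra L S] [IsScalarTower k L S] (M : Type u) [Field M] [Algebra k M]
  [Algebra L M] [IsScalarTower k L M]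

section

variable (U : Type u) [AddCommGroup U] [Module L U] [Module M U] [IsScalarTower L M U]

/-- the pairing `(s ⊗ u, w) ↦ s ⊗ u w` -/
def rc1 : (S ⊗[L] M) →ₗ[L] U →ₗ[L] S ⊗[L] U :=
  TensorProduct.lift (LinearMap.mk₂ L
    (fun (s : S) (u : M) => (TensorProduct.mk L S U s).comp (Algebra.lsmul L L U u))
    (fun s s' u => LinearMap.ext fun w => by
      change (s + s') ⊗ₜ[L] (u • w) = _
      rw [TensorProduct.add_tmul]
      rfl)
    (fun c s u => LinearMap.ext fun w => by
      change (c • s) ⊗ₜ[L] (u • w) = _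
      rw [← TensorProduct.smul_tmul']
      rfl)
    (fun s u u' => LinearMap.ext fun w => by
      change s ⊗ₜ[L] ((u + u') • w) = _
      rw [add_smul, TensorProduct.tmul_add]
      rfl)
    (fun c s u => LinearMap.ext fun w => by
      change s ⊗ₜ[L] ((c • u) • w) = _
      rw [smul_assoc, TensorProduct.tmul_smul]
      rfl))

theorem rc1_tmul (s : S) (u : M) (w : U) :
    rc1 L S M U (s ⊗ₜ[L] u) w = s ⊗ₜ[L] (u • w) := rfl

theorem rc1_mid (x : S ⊗[L] M) (c : M) (w : U) :
    rc1 L S M U (x * ((1 : S) ⊗ₜ[L] c)) w = rc1 L S M U x (c • w) := by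
  induction x using TensorProduct.induction_on with
  | zero => rw [zero_mul, map_zero, LinearMap.zero_apply, LinearMap.zero_apply]
  | tmul s u =>
    rw [Algebra.TensorProduct.tmul_mul_tmul, mul_one, rc1_tmul, rc1_tmul, mul_smul]
  | add x y hx hy =>
    rw [add_mul, map_add, LinearMap.add_apply, hx, hy, map_add, LinearMap.add_apply]

theorem rc1_left (s : S) (x : S ⊗[L] M) (w : U) :
    rc1 L S M U ((s ⊗ₜ[L] (1 : M)) * x) w = s • rc1 L S M U x w := by
  induction x using TensorProduct.induction_on with
  | zero => rw [mul_zero, map_zero, LinearMap.zero_apply, smul_zero]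
  | tmul s' u =>
    rw [Algebra.TensorProduct.tmul_mul_tmul, one_mul, rc1_tmul, rc1_tmul,
      TensorProduct.smul_tmul', smul_eq_mul]
  | add x y hx hy =>
    rw [mul_add, map_add, LinearMap.add_apply, hx, hy, map_add, LinearMap.add_apply, smul_add]

variable {U}

theorem rc1_nat {U' : Type u} [AddCommGroup U'] [Module L U'] [Module M U'] [IsScalarTower L M U']
    (φ : U →ₗ[L] U') (hφ : ∀ (c : M) (w : U), φ (c • w) = c • φ w) (x : S ⊗[L] M) (w : U) :
    rc1 L S M U' x (φ w) = LinearMap.lTensor S φ (rc1 L S M U x w) := by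
  induction x using TensorProduct.induction_on with
  | zero => rw [map_zero, map_zero, LinearMap.zero_apply, LinearMap.zero_apply, map_zero]
  | tmul s u => rw [rc1_tmul, rc1_tmul, LinearMap.lTensor_tmul, hφ]
  | add x y hx hy =>
    rw [map_add, map_add, LinearMap.add_apply, LinearMap.add_apply, map_add, hx, hy]

end

section

variable (I : Type) [Fintype I] (U : Type u) [AddCommGroup U] [Module k U] [Module L U]
  [Module M U] [IsScalarTower L M U] [IsScalarTower k L U]

/-- rows times columns -/
def rcv : (I → S ⊗[L] M) →ₗ[k] (I → U) →ₗ[k] S ⊗[L] U :=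
  LinearMap.mk₂ k (fun f v => ∑ e, rc1 L S M U (f e) (v e))
    (fun f f' v => by
      rw [← Finset.sum_add_distrib]
      refine Finset.sum_congr rfl fun e _ => ?_
      rw [Pi.add_apply, map_add, LinearMap.add_apply])
    (fun c f v => by
      rw [Finset.smul_sum]
      refine Finset.sum_congr rfl fun e _ => ?_
      rw [Pi.smul_apply, ← algebraMap_smul L c (f e), map_smul, LinearMap.smul_apply,
        algebraMap_smul])
    (fun f v v' => by
      rw [← Finset.sum_add_distrib]
      refine Finset.sum_congr rfl fun e _ => ?_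
      rw [Pi.add_apply, map_add])
    (fun c f v => by
      rw [Finset.smul_sum]
      refine Finset.sum_congr rfl fun e _ => ?_
      rw [Pi.smul_apply, ← algebraMap_smul L c (v e), map_smul, algebraMap_smul])

theorem rcv_apply (f : I → S ⊗[L] M) (v : I → U) :
    rcv k L S M I U f v = ∑ e, rc1 L S M U (f e) (v e) := rfl

theorem rcv_mid (f : I → S ⊗[L] M) (c : Matrix I I M) (v : I → U) :
    rcv k L S M I U (fun e' => ∑ e, f e * ((1 : S) ⊗ₜ[L] c e e')) v =
      rcv k L S M I U f (fun e => ∑ e', c e e' • v e') := by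
  rw [rcv_apply, rcv_apply]
  simp only [map_sum, LinearMap.sum_apply, rc1_mid]
  exact Finset.sum_comm

theorem rcv_left (s : S) (f : I → S ⊗[L] M) (v : I → U) :
    rcv k L S M I U (fun e => (s ⊗ₜ[L] (1 : M)) * f e) v = s • rcv k L S M I U f v := by
  rw [rcv_apply, rcv_apply, Finset.smul_sum]
  exact Finset.sum_congr rfl fun e _ => rc1_left L S M U s (f e) (v e)

variable {U}

theorem rcv_nat {U' : Type u} [AddCommGroup U'] [Module k U'] [Module L U'] [Module M U']
    [IsScalarTower L M U'] [IsScalarTower k L U'] (φ : U →ₗ[L] U')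
    (hφ : ∀ (c : M) (w : U), φ (c • w) = c • φ w) (f : I → S ⊗[L] M) (v : I → U) :
    rcv k L S M I U' f (fun e => φ (v e)) = LinearMap.lTensor S φ (rcv k L S M I U f v) := by
  rw [rcv_apply, rcv_apply, map_sum]
  exact Finset.sum_congr rfl fun e _ => rc1_nat L S M φ hφ (f e) (v e)

end

end Pool.Agent.MP_6e5bed_ag_GG
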