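import Pool.Agent.Lib.MP_6e5bed_ag_GG.Noe

set_option autoImplicit false

/-!
# MP_6e5bed_ag, THEOREM G: the site of the pairs of charts with the algebras `R_c ⊗ R_{c'}`
(text, section 4)
-/

noncomputable section

namespace Pool.Agent.MP_6e5bed_ag_GG

open scoped TensorProduct

universe u

variable (k : Type u) [Field k] {i j : Type} [Fintype i] [Fintype j]

/-- the algebra `R_c ⊗ R_{c'}` -/
abbrev obB (p : Ch i × Ch j) : Type u := RR k p.1.1 ⊗[k] RR k p.2.1

/-- the restriction maps -/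
def obr {p q : Ch i × Ch j} (h : p ≤ q) : obB k p →ₐ[k] obB k q :=
  Algebra.TensorProduct.map (rinc h.1) (rinc h.2)

theorem obr_tmul {p q : Ch i × Ch j} (h : p ≤ q) (a : RR k p.1.1) (a' : RR k p.2.1) :
    obr k h (a ⊗ₜ[k] a') = (rinc h.1 a : RR k q.1.1) ⊗ₜ[k] (rinc h.2 a' : RR k q.2.1) := rfl

/-- the function `x_l / x_g` of the first space -/
def t1 (p : Ch i × Ch j) (l : i) {g : i} (hg : g ∈ p.1.1) : obB k p := tt k l hg ⊗ₜ[k] 1

/-- the function `y_l / y_g` of the second space -/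
def t2 (p : Ch i × Ch j) (l : j) {g : j} (hg : g ∈ p.2.1) : obB k p := 1 ⊗ₜ[k] tt k l hg

theorem rinc_ttS {c c' : Set i} (h : c ⊆ c') (l : i) {g : i} (hg : g ∈ c) :
    (rinc h (tt k l hg) : RR k c') = tt k l (h hg) := rfl

theorem obr_t1 {p q : Ch i × Ch j} (h : p ≤ q) (l : i) {g : i} (hg : g ∈ p.1.1) :
    obr k h (t1 k p l hg) = t1 k q l (h.1 hg) := by
  unfold t1
  rw [obr_tmul, map_one, rinc_ttS]

theorem obr_t2 {p q : Ch i × Ch j} (h : p ≤ q) (l : j) {g : j} (hg : g ∈ p.2.1) :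
    obr k h (t2 k p l hg) = t2 k q l (h.2 hg) := by
  unfold t2
  rw [obr_tmul, map_one, rinc_ttS]

/-- the elements which are inverted -/
def obLoc (p q : Ch i × Ch j) (t : obB k p) : Prop := p ≤ q ∧
  ((∃ (l g : i) (hg : g ∈ p.1.1), q.1.1 ⊆ insert l p.1.1 ∧ q.2 ≤ p.2 ∧ t = t1 k p l hg) ∨
  (∃ (l g : j) (hg : g ∈ p.2.1), q.2.1 ⊆ insert l p.2.1 ∧ q.1 ≤ p.1 ∧ t = t2 k p l hg))

variable (i j)

/-- The site of the pairs of charts, with the algebras `R_c ⊗ R_{c'}`. -/
def ob : Site k where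
  P := Ch i × Ch j
  B := obB k
  r := fun {p q} h => obr k h
  r_id := fun {p} h b => by
    induction b using TensorProduct.induction_on with
    | zero => rw [map_zero]
    | tmul x y => rfl
    | add x y hx hy => rw [map_add, hx, hy]
  r_r := fun {p q s} h h' b => by
    induction b using TensorProduct.induction_on with
    | zero => rw [map_zero, map_zero, map_zero]
    | tmul x y => rfl
    | add x y hx hy => rw [map_add, map_add, map_add, hx, hy]
  Loc := obLoc k
  le := fun h => h.1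
  comm := fun {p q t} h b => mul_comm (G := obB k p) t b

theorem ob_noe : (ob k i j).Noe := fun p => (rr2_noe p.1 p.2 : IsNoetherianRing (obB k p))

variable {i j} {k}

variable {A : CA k i} {A' : CA k j}

theorem bsr_rB {p q : Ch i × Ch j} (h : p ≤ q) (r : obB k p) :
    bsr A A' h (rB A A' p r) = rB A A' q (obr k h r) := by
  induction r using TensorProduct.induction_on with
  | zero => rw [map_zero, map_zero, map_zero, map_zero]
  | add r r' h h' => rw [map_add, map_add, map_add, map_add, h, h']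
  | tmul r r' =>
    rw [rB_tmul, obr_tmul, rB_tmul, bsr_tmul, A.res_R, MulOpposite.unop_op, A'.res_R]

/-- the `R_c ⊗ R_{c'}`-module structure of the sections of a bisheaf -/
@[implicit_reducible]
def obMod (E : BS A A') (p : Ch i × Ch j) : Module (obB k p) (E.E p) :=
  Module.compHom (E.E p) (rB A A' p : obB k p →+* bsB A A' p)

theorem obLoc.bs {p q : Ch i × Ch j} {t : obB k p} (h : obLoc k p q t) :
    bsLoc A A' p q (rB A A' p t) := by
  obtain ⟨h1, ⟨l, g, hg, h2, h3, rfl⟩ | ⟨l, g, hg, h2, h3, rfl⟩⟩ := h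
  · refine ⟨h1, Or.inl ⟨l, g, hg, h2, h3, ?_⟩⟩
    unfold t1
    rw [rB_tmul, map_one, MulOpposite.op_one]
  · refine ⟨h1, Or.inr ⟨l, g, hg, h2, h3, ?_⟩⟩
    unfold t2
    rw [rB_tmul, map_one]

/-- A bisheaf, with the action of the `R_c ⊗ R_{c'}` only. -/
def toOb (E : BS A A') : Sh (ob k i j) where
  E := E.E
  grp := E.grp
  modk := E.modk
  mod := obMod E
  tow := fun p => @IsScalarTower.mk k (obB k p) (E.E p) _ (obMod E p).toSMul _ (fun c r x => by
    change rB A A' p (c • r) • x = c • (rB A A' p r • x)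
    rw [map_smul]
    exact smul_assoc (M := k) (N := bsB A A' p) c (rB A A' p r) x)
  res := E.res
  res_smul := fun {p q} h b x => by
    change E.res h ((rB A A' p b : bsB A A' p) • x) = (rB A A' q (obr k h b) : bsB A A' q) • _
    rw [← bsr_rB]
    exact E.res_smul h _ x
  res_id := E.res_id
  res_res := E.res_res
  surj := fun {p q t} h y => by
    obtain ⟨n, x, hx⟩ := E.surj (h.bs (A := A) (A' := A')) y
    have e : (bsr A A' h.1 (rB A A' p t)) ^ n = rB A A' q (obr k h.1 t ^ n) := by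
      rw [bsr_rB, ← map_pow]
    exact ⟨n, x, hx.trans (congrArg (fun b : bsB A A' q => (show E.E q from b • y)) e)⟩
  inj := fun {p q t} h x hx => by
    obtain ⟨n, hn⟩ := E.inj (h.bs (A := A) (A' := A')) x hx
    have e : rB A A' p ((show obB k p from t) ^ n) = rB A A' p t ^ n := map_pow _ _ _
    exact ⟨n, (congrArg (fun b : bsB A A' p => (show E.E p from b • x)) e).trans hn⟩

theorem fin_of_span {R B M : Type*} [CommRing R] [Ring B] [AddCommGroup M] [Module B M]
    (hM : Module.Finite B M) (f : R →+* B) {I : Type*} [Fintype I] (s : I → B)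
    (hs : ∀ x, ∃ r : I → R, x = ∑ m, f (r m) * s m) :
    ∃ (n : ℕ) (a : Fin n → M), ∀ x : M, ∃ r : I × Fin n → R,
      x = ∑ q, f (r q) • (s q.1 • a q.2) := by
  obtain ⟨l, a, ha⟩ := (Submodule.fg_iff_exists_fin_generating_family).1 hM.fg_top
  refine ⟨l, a, fun x => ?_⟩
  have hx : x ∈ Submodule.span B (Set.range a) := by
    rw [ha]
    exact Submodule.mem_top
  obtain ⟨b, hb⟩ := (Submodule.mem_span_range_iff_exists_fun _).1 hx
  choose r hr using fun q => hs (b q)
  refine ⟨fun q => r q.2 q.1, ?_⟩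
  rw [← hb, Fintype.sum_prod_type_right]
  refine Finset.sum_congr rfl fun q _ => ?_
  conv_lhs => rw [hr q, Finset.sum_smul]
  exact Finset.sum_congr rfl fun u _ => mul_smul _ _ _

theorem fin_comp {R B M : Type*} [CommRing R] [Ring B] [AddCommGroup M] [Module B M]
    (hM : Module.Finite B M) (f : R →+* B) {I : Type*} [Fintype I] (s : I → B)
    (hs : ∀ x, ∃ r : I → R, x = ∑ m, f (r m) * s m) :
    @Module.Finite R M _ _ (Module.compHom M f) := by
  obtain ⟨l, a, ha⟩ := fin_of_span hM f s hs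
  let _ : Module R M := Module.compHom M f
  refine ⟨Submodule.fg_def.2 ⟨Set.range (fun q : I × Fin l => (s q.1 • a q.2 : M)),
    Set.finite_range _, eq_top_iff.2 fun x _ => ?_⟩⟩
  obtain ⟨r, hr⟩ := ha x
  rw [hr]
  exact Submodule.sum_mem _ fun u _ =>
    Submodule.smul_mem _ (r u) (Submodule.subset_span ⟨u, rfl⟩)

theorem toOb_fin' {E : BS A A'} (hE : E.Coh) (p : (bs A A').P) {n m : ℕ}
    (f : obB k p →+* (bs A A').B p) (s : Fin n × Fin m → (bs A A').B p)
    (hs : ∀ x, ∃ r : Fin n × Fin m → obB k p, x = ∑ q, f (r q) * s q) :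
    @Module.Finite (obB k p) (E.E p) _ _ (Module.compHom (E.E p) f) :=
  fin_comp (R := obB k p) (B := (bs A A').B p) (M := E.E p) (hE p) f s hs

theorem toOb_fin {E : BS A A'} (hE : E.Coh) (p : (bs A A').P) :
    @Module.Finite (obB k p) (E.E p) _ _ (obMod E p) := by
  obtain ⟨n, m, s, hs⟩ := rB_span A A' p
  exact toOb_fin' hE p _ s hs

/-- A coherent bisheaf is finitely generated over the `R_c ⊗ R_{c'}`. -/
theorem toOb_coh {E : BS A A'} (hE : E.Coh) : (toOb E).Coh := fun p => toOb_fin hE p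

end Pool.Agent.MP_6e5bed_ag_GG
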