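import Pool.Agent.Lib.MP_6e5bed_ag_GG.SA

set_option autoImplicit false

/-!
# MP_6e5bed_ag, THEOREM G: Laurent polynomials in two sets of variables, the ring `R_c ⊗ R_{c'}`
(text, section 4)
-/

noncomputable section

namespace Pool.Agent.MP_6e5bed_ag_GG

open scoped TensorProduct

universe u

variable (k : Type u) [Field k] (i j : Type)

/-- Laurent polynomials in the `x_l`, `l ∈ i`, and the `y_l`, `l ∈ j` -/
abbrev L2 : Type u := AddMonoidAlgebra k ((i → ℤ) × (j → ℤ))

/-- the inclusion -/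
def i1 : Lau k i →ₐ[k] L2 k i j :=
  AddMonoidAlgebra.mapDomainAlgHom k k (AddMonoidHom.inl (i → ℤ) (j → ℤ))

/-- the inclusion -/
def i2 : Lau k j →ₐ[k] L2 k i j :=
  AddMonoidAlgebra.mapDomainAlgHom k k (AddMonoidHom.inr (i → ℤ) (j → ℤ))

variable {i j}

/-- the monomial -/
def m2 (e : (i → ℤ) × (j → ℤ)) : L2 k i j := AddMonoidAlgebra.single e 1

variable {k}

theorem m2_mul (e e' : (i → ℤ) × (j → ℤ)) : m2 k e * m2 k e' = m2 k (e + e') := by
  unfold m2
  rw [AddMonoidAlgebra.single_mul_single, one_mul]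

theorem m2_zero : m2 k (0 : (i → ℤ) × (j → ℤ)) = 1 := rfl

theorem i1_mon (e : i → ℤ) : i1 k i j (mon k e) = m2 k (e, 0) := by
  unfold i1 mon m2
  exact AddMonoidAlgebra.mapDomain_single

theorem i2_mon (e : j → ℤ) : i2 k i j (mon k e) = m2 k (0, e) := by
  unfold i2 mon m2
  exact AddMonoidAlgebra.mapDomain_single

/-- `Lau ⊗ Lau ≅ L2` -/
def lauE (k : Type u) [Field k] (i j : Type) : Lau k i ⊗[k] Lau k j ≃ₗ[k] L2 k i j :=
  (TensorProduct.congr (AddMonoidAlgebra.coeffLinearEquiv k)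
    (AddMonoidAlgebra.coeffLinearEquiv k)).trans
    ((finsuppTensorFinsupp' k (i → ℤ) (j → ℤ)).trans (AddMonoidAlgebra.coeffLinearEquiv k).symm)

theorem lau_ind {P : Lau k i → Prop} (h0 : P 0) (hadd : ∀ x y, P x → P y → P (x + y))
    (hsm : ∀ (c : k) x, P x → P (c • x)) (hm : ∀ e, P (mon k e)) (x : Lau k i) : P x := by
  have hx : x ∈ AddMonoidAlgebra.supported k k (Set.univ : Set (i → ℤ)) := fun _ _ =>
    Set.mem_univ _
  rw [AddMonoidAlgebra.supported_eq_span_single] at hx
  induction hx using Submodule.span_induction with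
  | mem x hx =>
    obtain ⟨e, he, rfl⟩ := hx
    exact hm e
  | zero => exact h0
  | add x y _ _ hx hy => exact hadd x y hx hy
  | smul c x _ hx => exact hsm c x hx

theorem lauE_apply (x : Lau k i ⊗[k] Lau k j) :
    lauE k i j x = Algebra.TensorProduct.productMap (i1 k i j) (i2 k i j) x := by
  induction x using TensorProduct.induction_on with
  | zero => rw [map_zero, map_zero]
  | add x y hx hy => rw [map_add, map_add, hx, hy]
  | tmul x y =>
    refine lau_ind (P := fun x => lauE k i j (x ⊗ₜ y) =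
      Algebra.TensorProduct.productMap (i1 k i j) (i2 k i j) (x ⊗ₜ y)) ?_ ?_ ?_ ?_ x
    · rw [TensorProduct.zero_tmul, map_zero, map_zero]
    · intro a b ha hb
      rw [TensorProduct.add_tmul, map_add, map_add, ha, hb]
    · intro c a ha
      rw [← TensorProduct.smul_tmul', map_smul, map_smul, ha]
    · intro e
      refine lau_ind (P := fun y => lauE k i j (mon k e ⊗ₜ y) =
        Algebra.TensorProduct.productMap (i1 k i j) (i2 k i j) (mon k e ⊗ₜ y)) ?_ ?_ ?_ ?_ y
      · rw [TensorProduct.tmul_zero, map_zero, map_zero]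
      · intro a b ha hb
        rw [TensorProduct.tmul_add, map_add, map_add, ha, hb]
      · intro c a ha
        rw [TensorProduct.tmul_smul, map_smul, map_smul, ha]
      · intro e'
        rw [Algebra.TensorProduct.productMap_apply_tmul, i1_mon, i2_mon, m2_mul, Prod.mk_add_mk,
          add_zero, zero_add]
        unfold lauE mon m2
        rw [LinearEquiv.trans_apply, LinearEquiv.trans_apply, TensorProduct.congr_tmul]
        change (AddMonoidAlgebra.coeffLinearEquiv k).symm (finsuppTensorFinsupp' k (i → ℤ) (j → ℤ)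
          (Finsupp.single e 1 ⊗ₜ[k] Finsupp.single e' 1)) = _
        rw [finsuppTensorFinsupp'_single_tmul_single, one_mul]
        rfl

variable [Fintype i] [Fintype j]

/-- the map `R_c ⊗ R_{c'} → L2` -/
def pi2 (p : Ch i × Ch j) : obB k p →ₐ[k] L2 k i j :=
  Algebra.TensorProduct.productMap ((i1 k i j).comp (RR k p.1.1).val)
    ((i2 k i j).comp (RR k p.2.1).val)

theorem pi2_tmul (p : Ch i × Ch j) (r : RR k p.1.1) (r' : RR k p.2.1) :
    pi2 p (r ⊗ₜ r') = i1 k i j r * i2 k i j r' := rfl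

theorem pi2_obr {p q : Ch i × Ch j} (h : p ≤ q) (r : obB k p) :
    pi2 q (obr k h r) = pi2 p r := by
  induction r using TensorProduct.induction_on with
  | zero => rw [map_zero, map_zero, map_zero]
  | add r r' h h' => rw [map_add, map_add, map_add, h, h']
  | tmul r r' => rw [obr_tmul, pi2_tmul, pi2_tmul, rinc_coe, rinc_coe]

theorem pi2_inj (p : Ch i × Ch j) : Function.Injective (pi2 (k := k) p) := by
  have h1 : Function.Injective (TensorProduct.map (RR k p.1.1).val.toLinearMap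
      (RR k p.2.1).val.toLinearMap) :=
    TensorProduct.map_injective_of_flat_flat _ _ Subtype.val_injective Subtype.val_injective
  have h2 : ∀ r : obB k p, pi2 p r = lauE k i j (TensorProduct.map (RR k p.1.1).val.toLinearMap
      (RR k p.2.1).val.toLinearMap r) := by
    intro r
    rw [lauE_apply]
    induction r using TensorProduct.induction_on with
    | zero => rw [map_zero, map_zero, map_zero]
    | add r r' h h' => rw [map_add, map_add, map_add, h, h']
    | tmul r r' => rfl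
  intro r r' h
  rw [h2, h2] at h
  exact h1 ((lauE k i j).injective h)

theorem pi2_t1 (p : Ch i × Ch j) (l : i) {g : i} (hg : g ∈ p.1.1) :
    pi2 p (t1 k p l hg) = m2 k (ex l g, 0) := by
  unfold t1
  rw [pi2_tmul, OneMemClass.coe_one, map_one, mul_one]
  exact i1_mon _

theorem pi2_t2 (p : Ch i × Ch j) (l : j) {g : j} (hg : g ∈ p.2.1) :
    pi2 p (t2 k p l hg) = m2 k (0, ex l g) := by
  unfold t2
  rw [pi2_tmul, OneMemClass.coe_one, map_one, one_mul]
  exact i2_mon _

/-- the exponents of bidegree `(d, d')` with poles only along the chart -/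
def Ex2 (d d' : ℤ) (p : Ch i × Ch j) : Set ((i → ℤ) × (j → ℤ)) :=
  {e | IsEx p.1.1 d e.1 ∧ IsEx p.2.1 d' e.2}

theorem Ex2.add {d d' c c' : ℤ} {p : Ch i × Ch j} {e e' : (i → ℤ) × (j → ℤ)}
    (h : e ∈ Ex2 d d' p) (h' : e' ∈ Ex2 c c' p) : e + e' ∈ Ex2 (d + c) (d' + c') p :=
  ⟨h.1.add h'.1, h.2.add h'.2⟩

theorem Ex2_mono {d d' : ℤ} {p q : Ch i × Ch j} (h : p ≤ q) : Ex2 d d' p ⊆ Ex2 d d' q :=
  fun _ he => ⟨⟨he.1.1, fun l hl => he.1.2 l fun hl' => hl (h.1 hl')⟩,
    ⟨he.2.1, fun l hl => he.2.2 l fun hl' => hl (h.2 hl')⟩⟩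

section SS

omit [Fintype i] [Fintype j]

variable (k)

/-- the elements with support in `S` -/
def SS (S : Set ((i → ℤ) × (j → ℤ))) : Submodule k (L2 k i j) :=
  AddMonoidAlgebra.supported k k S

variable {k}

theorem SS_mono {S T : Set ((i → ℤ) × (j → ℤ))} (h : S ⊆ T) : SS k S ≤ SS k T :=
  AddMonoidAlgebra.supported_mono h

theorem m2_mem {S : Set ((i → ℤ) × (j → ℤ))} {e : (i → ℤ) × (j → ℤ)} (h : e ∈ S) :
    m2 k e ∈ SS k S := by
  unfold SS
  rw [AddMonoidAlgebra.supported_eq_span_single]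
  exact Submodule.subset_span ⟨e, h, rfl⟩

theorem SS_ind {S : Set ((i → ℤ) × (j → ℤ))} {P : L2 k i j → Prop} (h0 : P 0)
    (hadd : ∀ x y, P x → P y → P (x + y)) (hsm : ∀ (c : k) x, P x → P (c • x))
    (hm : ∀ e ∈ S, P (m2 k e)) {x : L2 k i j} (hx : x ∈ SS k S) : P x := by
  unfold SS at hx
  rw [AddMonoidAlgebra.supported_eq_span_single] at hx
  induction hx using Submodule.span_induction with
  | mem x hx =>
    obtain ⟨e, he, rfl⟩ := hx
    exact hm e he
  | zero => exact h0
  | add x y _ _ hx hy => exact hadd x y hx hy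
  | smul c x _ hx => exact hsm c x hx

theorem SS_mul {S T U : Set ((i → ℤ) × (j → ℤ))} (h : ∀ e ∈ S, ∀ e' ∈ T, e + e' ∈ U)
    {x y : L2 k i j} (hx : x ∈ SS k S) (hy : y ∈ SS k T) : x * y ∈ SS k U := by
  refine SS_ind (P := fun x => x * y ∈ SS k U) ?_ ?_ ?_ ?_ hx
  · rw [zero_mul]
    exact zero_mem _
  · intro a b ha hb
    rw [add_mul]
    exact add_mem ha hb
  · intro c a ha
    rw [smul_mul_assoc]
    exact Submodule.smul_mem _ _ ha
  · intro e he
    refine SS_ind (P := fun y => m2 k e * y ∈ SS k U) ?_ ?_ ?_ ?_ hy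
    · rw [mul_zero]
      exact zero_mem _
    · intro a b ha hb
      rw [mul_add]
      exact add_mem ha hb
    · intro c a ha
      rw [mul_smul_comm]
      exact Submodule.smul_mem _ _ ha
    · intro e' he'
      rw [m2_mul]
      exact m2_mem (h e he e' he')

end SS

theorem i1_mem {p : Ch i × Ch j} {d : ℤ} {x : Lau k i} (hx : x ∈ OO k d p.1.1) :
    i1 k i j x ∈ SS k (Ex2 d 0 p) := by
  unfold OO at hx
  induction hx using Submodule.span_induction with
  | mem x hx =>
    obtain ⟨e, he, rfl⟩ := hx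
    rw [i1_mon]
    exact m2_mem ⟨he, by simp, fun _ _ => le_rfl⟩
  | zero => rw [map_zero]; exact zero_mem _
  | add x y _ _ hx hy => rw [map_add]; exact add_mem hx hy
  | smul c x _ hx => rw [map_smul]; exact Submodule.smul_mem _ _ hx

theorem i2_mem {p : Ch i × Ch j} {d : ℤ} {x : Lau k j} (hx : x ∈ OO k d p.2.1) :
    i2 k i j x ∈ SS k (Ex2 0 d p) := by
  unfold OO at hx
  induction hx using Submodule.span_induction with
  | mem x hx =>
    obtain ⟨e, he, rfl⟩ := hx
    rw [i2_mon]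
    exact m2_mem ⟨⟨by simp, fun _ _ => le_rfl⟩, he⟩
  | zero => rw [map_zero]; exact zero_mem _
  | add x y _ _ hx hy => rw [map_add]; exact add_mem hx hy
  | smul c x _ hx => rw [map_smul]; exact Submodule.smul_mem _ _ hx

theorem pi2_mem (p : Ch i × Ch j) (r : obB k p) : pi2 p r ∈ SS k (Ex2 0 0 p) := by
  induction r using TensorProduct.induction_on with
  | zero => rw [map_zero]; exact zero_mem _
  | add r r' h h' => rw [map_add]; exact add_mem h h'
  | tmul r r' =>
    rw [pi2_tmul]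
    refine SS_mul (S := Ex2 0 0 p) (T := Ex2 0 0 p) (fun e he e' he' => ?_) (i1_mem r.2)
      (i2_mem r'.2)
    have h := Ex2.add he he'
    rwa [add_zero] at h

theorem pi2_surj (p : Ch i × Ch j) {x : L2 k i j} (hx : x ∈ SS k (Ex2 0 0 p)) :
    ∃ r, pi2 p r = x := by
  refine SS_ind (P := fun x => ∃ r, pi2 p r = x) ⟨0, map_zero _⟩ ?_ ?_ ?_ hx
  · rintro _ _ ⟨r, rfl⟩ ⟨r', rfl⟩
    exact ⟨r + r', map_add _ _ _⟩
  · rintro c _ ⟨r, rfl⟩
    exact ⟨c • r, map_smul _ _ _⟩
  · rintro ⟨e, e'⟩ ⟨he, he'⟩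
    refine ⟨⟨mon k e, mon_mem he⟩ ⊗ₜ ⟨mon k e', mon_mem he'⟩, ?_⟩
    rw [pi2_tmul]
    change i1 k i j (mon k e) * i2 k i j (mon k e') = _
    rw [i1_mon, i2_mon, m2_mul, Prod.mk_add_mk, add_zero, zero_add]

end Pool.Agent.MP_6e5bed_ag_GG
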