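import Pool.Agent.Lib.MP_6e5bed_ag_GG.SD

set_option autoImplicit false

/-!
# MP_6e5bed_ag, THEOREM G: sections extend after a twist (text, (4.1))
-/

noncomputable section

namespace Pool.Agent.MP_6e5bed_ag_GG

open scoped TensorProduct

universe u

variable {k : Type u} [Field k] {i j : Type} [Fintype i] [Fintype j]

/-- the standard affine open sets of the product -/
def U (c : i) (c' : j) : Ch i × Ch j := (Ch.sgl c, Ch.sgl c')

omit [Fintype i] [Fintype j] in
theorem U_le {p : Ch i × Ch j} {c : i} {c' : j} (hc : c ∈ p.1.1) (hc' : c' ∈ p.2.1) :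
    U c c' ≤ p := ⟨Set.singleton_subset_iff.2 hc, Set.singleton_subset_iff.2 hc'⟩

/-- the intersection with a standard affine open set -/
def UU (p : Ch i × Ch j) (a : i) (a' : j) : Ch i × Ch j :=
  (p.1.sup (Ch.sgl a), p.2.sup (Ch.sgl a'))

omit [Fintype i] [Fintype j] in
theorem le_UU (p : Ch i × Ch j) (a : i) (a' : j) : p ≤ UU p a a' :=
  ⟨Set.subset_union_left, Set.subset_union_left⟩

omit [Fintype i] [Fintype j] in
theorem UU_le {p q : Ch i × Ch j} (h : p ≤ q) {a : i} {a' : j} (ha : a ∈ q.1.1)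
    (ha' : a' ∈ q.2.1) : UU p a a' ≤ q :=
  ⟨Set.union_subset h.1 (Set.singleton_subset_iff.2 ha),
    Set.union_subset h.2 (Set.singleton_subset_iff.2 ha')⟩

omit [Fintype i] [Fintype j] in
theorem mem_UU1 (p : Ch i × Ch j) (a : i) (a' : j) : a ∈ (UU p a a').1.1 :=
  Set.mem_union_right _ (Set.mem_singleton a)

omit [Fintype i] [Fintype j] in
theorem mem_UU2 (p : Ch i × Ch j) (a : i) (a' : j) : a' ∈ (UU p a a').2.1 :=
  Set.mem_union_right _ (Set.mem_singleton a')

omit [Fintype i] [Fintype j] in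
theorem UU_sub1 (p : Ch i × Ch j) (a : i) (a' : j) : (UU p a a').1.1 ⊆ insert a p.1.1 := by
  rintro x (hx | hx)
  · exact Or.inr hx
  · exact Or.inl hx

omit [Fintype i] [Fintype j] in
theorem UU_sub2 (p : Ch i × Ch j) (a : i) (a' : j) : (UU p a a').2.1 ⊆ insert a' p.2.1 := by
  rintro x (hx | hx)
  · exact Or.inr hx
  · exact Or.inl hx

/-- A system of sections `s c c'` on the standard affine open sets, the trivialisations of a
section of `E(b, b)`. -/
def Sys (E : Sh (ob k i j)) (b : ℕ) (s : ∀ (c : i) (c' : j), E.E (U c c')) : Prop :=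
  ∀ (p : Ch i × Ch j) (c : i) (hc : c ∈ p.1.1) (c' : j) (hc' : c' ∈ p.2.1) (d : i)
    (hd : d ∈ p.1.1) (d' : j) (hd' : d' ∈ p.2.1),
    tT k p c hd c' hd' ^ b • E.res (U_le hc hc') (s c c') = E.res (U_le hd hd') (s d d')

theorem ob_mul_pow (p : (ob k i j).P) (x y : (ob k i j).B p) (n : ℕ) :
    x ^ n * y ^ n = (x * y) ^ n := by
  have h : Commute x y := ob_comm p x y
  exact (h.mul_pow n).symm

theorem tT_smul {E : Sh (ob k i j)} {p : Ch i × Ch j} (a : i) {b d : i} (hb : b ∈ p.1.1)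
    (hd : d ∈ p.1.1) (a' : j) {b' d' : j} (hb' : b' ∈ p.2.1) (hd' : d' ∈ p.2.1) (n : ℕ)
    (x : E.E p) : tT k p b hd b' hd' ^ n • (tT k p a hb a' hb' ^ n • x) =
      tT k p a hd a' hd' ^ n • x := by
  rw [← mul_smul, ob_mul_pow, tT_comp]

variable (E : Sh (ob k i j))

theorem sys_a (a : i) (a' : j) (e : E.E (U a a')) : ∃ (n : ℕ)
    (s : ∀ (c : i) (c' : j), E.E (U c c')),
    ∀ (p : Ch i × Ch j) (ha : a ∈ p.1.1) (ha' : a' ∈ p.2.1) (c : i) (hc : c ∈ p.1.1) (c' : j)
      (hc' : c' ∈ p.2.1), E.res (U_le hc hc') (s c c') =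
        tT k p a hc a' hc' ^ n • E.res (U_le ha ha') e := by
  classical
  have h1 : ∀ (c : i) (c' : j), ∃ n : ℕ, ∀ m, n ≤ m → ∃ x : E.E (U c c'),
      E.res (le_UU (U c c') a a') x = tT k (UU (U c c') a a') a
        ((le_UU (U c c') a a').1 (Set.mem_singleton c)) a'
        ((le_UU (U c c') a a').2 (Set.mem_singleton c')) ^ m •
        E.res (U_le (mem_UU1 _ a a') (mem_UU2 _ a a')) e := fun c c' =>
    loc2_surj E (le_UU (U c c') a a') (Set.mem_singleton c) (Set.mem_singleton c')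
      (UU_sub1 _ a a') (UU_sub2 _ a a') _
  choose n hn using h1
  let N : ℕ := Finset.univ.sup fun q : i × j => n q.1 q.2
  have h2 : ∀ (c : i) (c' : j), n c c' ≤ N := fun c c' =>
    Finset.le_sup (f := fun q : i × j => n q.1 q.2) (Finset.mem_univ (c, c'))
  choose s hs using fun (c : i) (c' : j) => hn c c' N (h2 c c')
  refine ⟨N, s, fun p ha ha' c hc c' hc' => ?_⟩
  have h3 : UU (U c c') a a' ≤ p := UU_le (U_le hc hc') ha ha'
  have h4 := congrArg (E.res h3) (hs c c')
  rw [E.res_res, E.res_smul, map_pow, tT_res, E.res_res] at h4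
  exact h4

theorem sys_b (a : i) (a' : j) (e : E.E (U a a')) (n : ℕ)
    (s : ∀ (c : i) (c' : j), E.E (U c c'))
    (hs : ∀ (p : Ch i × Ch j) (ha : a ∈ p.1.1) (ha' : a' ∈ p.2.1) (c : i) (hc : c ∈ p.1.1)
      (c' : j) (hc' : c' ∈ p.2.1), E.res (U_le hc hc') (s c c') =
        tT k p a hc a' hc' ^ n • E.res (U_le ha ha') e) :
    ∃ n' : ℕ, ∀ m, n' ≤ m → ∀ (p : Ch i × Ch j) (c : i) (hc : c ∈ p.1.1) (c' : j)
      (hc' : c' ∈ p.2.1) (d : i) (hd : d ∈ p.1.1) (d' : j) (hd' : d' ∈ p.2.1),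
      tT k p a hd a' hd' ^ m • (tT k p c hd c' hd' ^ n • E.res (U_le hc hc') (s c c') -
        E.res (U_le hd hd') (s d d')) = 0 := by
  classical
  have h1 : ∀ (c : i) (c' : j) (d : i) (d' : j), ∃ n' : ℕ, ∀ m, n' ≤ m →
      tT k (UU (U c c') d d') a (mem_UU1 _ d d') a' (mem_UU2 _ d d') ^ m •
        (tT k (UU (U c c') d d') c (mem_UU1 _ d d') c' (mem_UU2 _ d d') ^ n •
          E.res (le_UU (U c c') d d') (s c c') -
        E.res (U_le (mem_UU1 _ d d') (mem_UU2 _ d d')) (s d d')) = 0 := by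
    intro c c' d d'
    refine loc2_inj E (le_UU (UU (U c c') d d') a a') (mem_UU1 _ d d') (mem_UU2 _ d d')
      (UU_sub1 _ a a') (UU_sub2 _ a a') _ ?_
    have e1 := hs (UU (UU (U c c') d d') a a') (mem_UU1 _ a a') (mem_UU2 _ a a') c
      (Set.mem_union_left _ (Set.mem_union_left _ (Set.mem_singleton c))) c'
      (Set.mem_union_left _ (Set.mem_union_left _ (Set.mem_singleton c')))
    have e2 := hs (UU (UU (U c c') d d') a a') (mem_UU1 _ a a') (mem_UU2 _ a a') d
      (Set.mem_union_left _ (mem_UU1 _ d d')) d' (Set.mem_union_left _ (mem_UU2 _ d d'))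
    rw [map_sub, E.res_smul, map_pow, tT_res, E.res_res, E.res_res, e2]
    have e3 := congrArg (fun z => tT k (UU (UU (U c c') d d') a a') c
      ((le_UU _ a a').1 (mem_UU1 _ d d')) c' ((le_UU _ a a').2 (mem_UU2 _ d d')) ^ n • z) e1
    rw [sub_eq_zero]
    exact e3.trans (tT_smul a _ _ a' _ _ n _)
  choose n' hn' using h1
  let N : ℕ := Finset.univ.sup fun q : (i × j) × (i × j) => n' q.1.1 q.1.2 q.2.1 q.2.2
  have h2 : ∀ (c : i) (c' : j) (d : i) (d' : j), n' c c' d d' ≤ N := fun c c' d d' =>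
    Finset.le_sup (f := fun q : (i × j) × (i × j) => n' q.1.1 q.1.2 q.2.1 q.2.2)
      (Finset.mem_univ ((c, c'), (d, d')))
  refine ⟨N, fun m hm p c hc c' hc' d hd d' hd' => ?_⟩
  have h3 : UU (U c c') d d' ≤ p := UU_le (U_le hc hc') hd hd'
  have h4 := congrArg (E.res h3) (hn' c c' d d' m ((h2 c c' d d').trans hm))
  rw [E.res_smul, map_sub, E.res_smul, map_pow, map_pow, tT_res, tT_res, E.res_res, E.res_res,
    map_zero] at h4
  exact h4

/-- Every section on a standard affine open set belongs to a system. -/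
theorem sys_ex (a : i) (a' : j) (e : E.E (U a a')) : ∃ b0 : ℕ, ∀ b, b0 ≤ b →
    ∃ s : ∀ (c : i) (c' : j), E.E (U c c'), Sys E b s ∧ s a a' = e := by
  obtain ⟨n, s, hs⟩ := sys_a E a a' e
  obtain ⟨n', hn'⟩ := sys_b E a a' e n s hs
  refine ⟨n + n', fun b hb => ?_⟩
  have hm : n' ≤ b - n := by omega
  have hbn : b = (b - n) + n := by omega
  refine ⟨fun c c' => tT k (U c c') a (Set.mem_singleton c) a' (Set.mem_singleton c') ^ (b - n) •
    s c c', fun p c hc c' hc' d hd d' hd' => ?_, ?_⟩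
  · have h1 := hn' (b - n) hm p c hc c' hc' d hd d' hd'
    rw [smul_sub, sub_eq_zero] at h1
    rw [E.res_smul, E.res_smul, map_pow, map_pow, tT_res, tT_res, ← h1]
    have h2 : tT k p c hd c' hd' ^ b = tT k p c hd c' hd' ^ n *
        tT k p c hd c' hd' ^ (b - n) := by
      rw [← pow_add, Nat.add_comm]
      exact congrArg (fun z => tT k p c hd c' hd' ^ z) hbn
    rw [h2, mul_smul]
    refine (congrArg (fun z => tT k p c hd c' hd' ^ n • z)
      (tT_smul a hc hd a' hc' hd' (b - n) _)).trans ?_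
    rw [← mul_smul, ob_comm, mul_smul]
  · have h1 := hs (U a a') (Set.mem_singleton a) (Set.mem_singleton a') a (Set.mem_singleton a) a'
      (Set.mem_singleton a')
    rw [tT_self, one_pow, one_smul, E.res_id, E.res_id] at h1
    change tT k (U a a') a (Set.mem_singleton a) a' (Set.mem_singleton a') ^ (b - n) • s a a' = e
    rw [tT_self, one_pow, one_smul, h1]

end Pool.Agent.MP_6e5bed_ag_GG
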