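import Pool.Agent.Lib.MP_6e5bed_ag_GG.SE
import Pool.Agent.Lib.MP_6e5bed_ag_GG.ShA

set_option autoImplicit false

/-!
# MP_6e5bed_ag, THEOREM G: coherent sheaves are quotients of sums of `O(-b) ⊠ O(-b)`
(text, (4.2))
-/

noncomputable section

namespace Pool.Agent.MP_6e5bed_ag_GG

open scoped TensorProduct

universe u

variable {k : Type u} [Field k] {i j : Type} [Fintype i] [Fintype j]

open Classical in
/-- the monomial `x_c^n y_{c'}^n` -/
def mu (k : Type u) [Field k] {i j : Type} (c : i) (c' : j) (n : ℤ) : L2 k i j :=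
  m2 k (Pi.single c n, Pi.single c' n)

omit [Fintype i] [Fintype j] in
theorem mu_add (c : i) (c' : j) (n m : ℤ) : mu k c c' n * mu k c c' m = mu k c c' (n + m) := by
  classical
  unfold mu
  rw [m2_mul, Prod.mk_add_mk, ← Pi.single_add, ← Pi.single_add]

omit [Fintype i] [Fintype j] in
theorem mu_zero (c : i) (c' : j) : mu k c c' 0 = 1 := by
  classical
  unfold mu
  rw [Pi.single_zero, Pi.single_zero]
  rfl

theorem pi2_tT (p : Ch i × Ch j) (c : i) {d : i} (hd : d ∈ p.1.1) (c' : j) {d' : j}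
    (hd' : d' ∈ p.2.1) (n : ℕ) :
    pi2 p (tT k p c hd c' hd' ^ n) * mu k d d' n = mu k c c' n := by
  classical
  have h1 : pi2 p (tT k p c hd c' hd') = m2 k (ex c d, ex c' d') := by
    refine (map_mul (pi2 p) (t1 k p c hd) (t2 k p c' hd')).trans ?_
    rw [pi2_t1, pi2_t2, m2_mul, Prod.mk_add_mk, add_zero, zero_add]
  refine (congrArg (· * mu k d d' n) ((map_pow (pi2 p) (tT k p c hd c' hd') n).trans
    (congrArg (· ^ n) h1))).trans ?_
  unfold mu
  rw [m2_pow, m2_mul]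
  congr 1
  have h2 : ∀ {a : Type} [DecidableEq a] (c d : a),
      n • ex c d + Pi.single d (n : ℤ) = Pi.single c (n : ℤ) := by
    intro a _ c d
    funext x
    unfold ex
    simp only [Pi.add_apply, Pi.smul_apply, Pi.sub_apply, Pi.single_apply, smul_sub]
    by_cases h1 : x = c <;> by_cases h2 : x = d <;> simp [h1, h2]
  exact Prod.ext (h2 c d) (h2 c' d')

theorem mu_mul_mem {p : Ch i × Ch j} {c : i} (hc : c ∈ p.1.1) {c' : j} (hc' : c' ∈ p.2.1)
    {n : ℤ} {x : L2 k i j} (hx : x ∈ SS k (Ex2 (-n) (-n) p)) :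
    mu k c c' n * x ∈ SS k (Ex2 0 0 p) := by
  classical
  unfold mu
  refine SS_mul (S := Ex2 n n p) (fun e he e' he' => ?_)
    (m2_mem ⟨isEx_single hc n, isEx_single hc' n⟩) hx
  have h := Ex2.add he he'
  rwa [add_neg_cancel] at h

variable {E : Sh (ob k i j)} {b : ℕ} {s : ∀ (c : i) (c' : j), E.E (U c c')}

/-- the value of the morphism of a system at a section -/
def Val (s : ∀ (c : i) (c' : j), E.E (U c c')) (b : ℕ) {p : Ch i × Ch j} (x : L2 k i j)
    (y : E.E p) : Prop :=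
  ∀ (c : i) (hc : c ∈ p.1.1) (c' : j) (hc' : c' ∈ p.2.1) (r : (ob k i j).B p),
    pi2 p r = mu k c c' b * x → r • E.res (U_le hc hc') (s c c') = y

theorem Val.of_one (hs : Sys E b s) {p : Ch i × Ch j} {x : L2 k i j} {d : i} (hd : d ∈ p.1.1)
    {d' : j} (hd' : d' ∈ p.2.1) {r : (ob k i j).B p} (hr : pi2 p r = mu k d d' b * x) :
    Val s b x (r • E.res (U_le hd hd') (s d d')) := by
  intro c hc c' hc' r' hr'
  have h1 : r' = r * tT k p c hd c' hd' ^ b := by
    refine pi2_inj p ?_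
    rw [hr', ← pi2_tT p c hd c' hd' b]
    refine Eq.trans ?_ (map_mul (pi2 p) r (tT k p c hd c' hd' ^ b)).symm
    refine Eq.trans ?_ (congrArg (· * pi2 p (tT k p c hd c' hd' ^ b)) hr).symm
    ring
  rw [h1, mul_smul, hs p c hc c' hc' d hd d' hd']

theorem Val.ex (hs : Sys E b s) {p : Ch i × Ch j} {x : L2 k i j}
    (hx : x ∈ SS k (Ex2 (-b) (-b) p)) : ∃ y : E.E p, Val s b x y := by
  obtain ⟨d, hd⟩ := p.1.2.1
  obtain ⟨d', hd'⟩ := p.2.2.1
  obtain ⟨r, hr⟩ := pi2_surj p (mu_mul_mem hd hd' hx)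
  exact ⟨_, Val.of_one hs hd hd' (r := r) hr⟩

theorem Val.unique {p : Ch i × Ch j} {x : L2 k i j} (hx : x ∈ SS k (Ex2 (-b) (-b) p))
    {y y' : E.E p} (h : Val s b x y) (h' : Val s b x y') : y = y' := by
  obtain ⟨d, hd⟩ := p.1.2.1
  obtain ⟨d', hd'⟩ := p.2.2.1
  obtain ⟨r, hr⟩ := pi2_surj p (mu_mul_mem hd hd' hx)
  exact (h d hd d' hd' r hr).symm.trans (h' d hd d' hd' r hr)

/-- the morphism of a system -/
def Sys.fn (hs : Sys E b s) {p : Ch i × Ch j} (x : (O2 k i j (-b) (-b)).E p) : E.E p :=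
  Classical.choose (Val.ex hs (O2.v_mem x))

theorem Sys.fn_val (hs : Sys E b s) {p : Ch i × Ch j} (x : (O2 k i j (-b) (-b)).E p) :
    Val s b (O2.v x) (hs.fn x) := Classical.choose_spec (Val.ex hs (O2.v_mem x))

theorem Sys.fn_eq (hs : Sys E b s) {p : Ch i × Ch j} (x : (O2 k i j (-b) (-b)).E p) {d : i}
    (hd : d ∈ p.1.1) {d' : j} (hd' : d' ∈ p.2.1) {r : (ob k i j).B p}
    (hr : pi2 p r = mu k d d' b * O2.v x) : hs.fn x = r • E.res (U_le hd hd') (s d d') :=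
  Val.unique (O2.v_mem x) (hs.fn_val x) (Val.of_one hs hd hd' hr)

theorem Sys.fn_add (hs : Sys E b s) {p : Ch i × Ch j} (x y : (O2 k i j (-b) (-b)).E p) :
    hs.fn (x + y) = hs.fn x + hs.fn y := by
  obtain ⟨d, hd⟩ := p.1.2.1
  obtain ⟨d', hd'⟩ := p.2.2.1
  obtain ⟨r, hr⟩ := pi2_surj p (mu_mul_mem hd hd' (O2.v_mem x))
  obtain ⟨r', hr'⟩ := pi2_surj p (mu_mul_mem hd hd' (O2.v_mem y))
  have h1 : pi2 p (show obB k p from r + r') = mu k d d' b * O2.v (x + y) := by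
    rw [map_add, hr, hr', O2.v_add, mul_add]
  rw [hs.fn_eq x hd hd' (r := r) hr, hs.fn_eq y hd hd' (r := r') hr',
    hs.fn_eq (x + y) hd hd' (r := r + r') h1]
  exact add_smul (R := (ob k i j).B p) r r' _

theorem Sys.fn_smul (hs : Sys E b s) {p : Ch i × Ch j} (t : (ob k i j).B p)
    (x : (O2 k i j (-b) (-b)).E p) :
    hs.fn (t • x : (O2 k i j (-b) (-b)).E p) = t • hs.fn x := by
  obtain ⟨d, hd⟩ := p.1.2.1
  obtain ⟨d', hd'⟩ := p.2.2.1
  obtain ⟨(r : (ob k i j).B p), hr⟩ := pi2_surj p (mu_mul_mem hd hd' (O2.v_mem x))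
  have h1 : pi2 p (show obB k p from t * r) =
      mu k d d' b * O2.v (t • x : (O2 k i j (-b) (-b)).E p) := by
    refine (map_mul (pi2 p) t r).trans ((congrArg (fun z => pi2 p t * z) hr).trans ?_)
    rw [O2.v_smul]
    ring
  rw [hs.fn_eq x hd hd' (r := r) hr, hs.fn_eq _ hd hd' (r := t * r) h1,
    mul_smul]

theorem Sys.fn_res (hs : Sys E b s) {p q : Ch i × Ch j} (h : p ≤ q)
    (x : (O2 k i j (-b) (-b)).E p) :
    E.res h (hs.fn x) = hs.fn ((O2 k i j (-b) (-b)).res h x) := by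
  obtain ⟨d, hd⟩ := p.1.2.1
  obtain ⟨d', hd'⟩ := p.2.2.1
  obtain ⟨r, hr⟩ := pi2_surj p (mu_mul_mem hd hd' (O2.v_mem x))
  have h1 : pi2 q (obr k h r) = mu k d d' b * O2.v ((O2 k i j (-b) (-b)).res h x) := by
    rw [pi2_obr, hr, O2.v_res]
  rw [hs.fn_eq x hd hd' (r := r) hr, hs.fn_eq _ (h.1 hd) (h.2 hd') (r := obr k h r) h1,
    E.res_smul, E.res_res]
  rfl

/-- The morphism of a system. -/
def Sys.hom (hs : Sys E b s) : ShH (O2 k i j (-b) (-b)) E where
  f := fun p =>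
    { toFun := hs.fn
      map_add' := hs.fn_add
      map_smul' := hs.fn_smul }
  nat := fun h x => hs.fn_res h x

theorem Sys.hom_mem (hs : Sys E b s) (c : i) (c' : j) :
    ∃ x, hs.hom.f (U c c') x = s c c' := by
  classical
  refine ⟨⟨mu k c c' (-b), m2_mem ⟨isEx_single (Set.mem_singleton c) _,
    isEx_single (Set.mem_singleton c') _⟩⟩, ?_⟩
  refine (hs.fn_eq _ (Set.mem_singleton c) (Set.mem_singleton c') (r := 1) ?_).trans ?_
  · refine (map_one (pi2 (U c c'))).trans ?_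
    change 1 = mu k c c' b * mu k c c' (-b)
    rw [mu_add, add_neg_cancel, mu_zero]
  · rw [one_smul, E.res_id]

end Pool.Agent.MP_6e5bed_ag_GG
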