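import Pool.Agent.Lib.MP_6e5bed_ag_GG.SF

set_option autoImplicit false

/-!
# MP_6e5bed_ag, THEOREM G: coherent sheaves are quotients of sums of `O(-b) ⊠ O(-b)`
(text, (4.2))
-/

noncomputable section

namespace Pool.Agent.MP_6e5bed_ag_GG

open scoped TensorProduct

universe u

theorem Sh.gen_step {k : Type u} [Field k] {S : Site k} (E : Sh S) {o p q : S.P} {t : S.B p}
    (h : S.Loc p q t) (u : S.B q) (hu : u * S.r (S.le h) t = 1) (ho : o ≤ p) (hq : o ≤ q)
    (H : ∀ y : E.E p, ∃ (r : S.B p) (x : E.E o), y = r • E.res ho x) (y : E.E q) :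
    ∃ (r : S.B q) (x : E.E o), y = r • E.res hq x := by
  obtain ⟨n, x', hx'⟩ := E.surj h y
  obtain ⟨r, x, rfl⟩ := H x'
  refine ⟨u ^ n * S.r (S.le h) r, x, ?_⟩
  rw [E.res_smul, E.res_res] at hx'
  rw [mul_smul, hx', ← mul_smul, pow_mul_pow_eq_one n hu, one_smul]

variable {k : Type u} [Field k] {i j : Type} [Fintype i] [Fintype j]

theorem t1_inv {p : Ch i × Ch j} {a b : i} (ha : a ∈ p.1.1) (hb : b ∈ p.1.1) :
    t1 k p a hb * t1 k p b ha = 1 := by
  rw [t1_comp]
  unfold t1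
  rw [tt_self]
  rfl

theorem t2_inv {p : Ch i × Ch j} {a b : j} (ha : a ∈ p.2.1) (hb : b ∈ p.2.1) :
    t2 k p a hb * t2 k p b ha = 1 := by
  rw [t2_comp]
  unfold t2
  rw [tt_self]
  rfl

variable (E : Sh (ob k i j))

theorem gen_fst (c : i) (c' : j) : ∀ (L : List i) (a : Ch i), c ∈ a.1 →
    (∀ x ∈ a.1, x = c ∨ x ∈ L) → (∀ x ∈ L, x ∈ a.1) →
    ∀ (h : U c c' ≤ (a, Ch.sgl c')) (y : E.E ((a, Ch.sgl c') : Ch i × Ch j)),
      ∃ (r : (ob k i j).B ((a, Ch.sgl c') : Ch i × Ch j)) (x : E.E (U c c')),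
        y = r • E.res h x
  | [], a, hc, h1, h2, h, y => by
    have e : a = Ch.sgl c := Subtype.ext (Set.Subset.antisymm (fun x hx => by
      rcases h1 x hx with h | h
      · exact h
      · exact absurd h List.not_mem_nil) (Set.singleton_subset_iff.2 hc))
    subst e
    exact ⟨1, y, by rw [one_smul]; exact (E.res_id h y).symm⟩
  | l :: L, a, hc, h1, h2, h, y => by
    let a' : Ch i := ⟨insert c {x | x ∈ L}, Set.insert_nonempty _ _,
      (List.finite_toSet L).insert c⟩
    have ha : a' ≤ a := by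
      rintro x (rfl | hx)
      · exact hc
      · exact h2 x (List.mem_cons_of_mem l hx)
    have hc1 : c ∈ a'.1 := Set.mem_insert c _
    have hl : a.1 ⊆ insert l a'.1 := by
      intro x hx
      rcases h1 x hx with h | h
      · exact Or.inr (Or.inl h)
      · rcases List.mem_cons.1 h with h | h
        · exact Or.inl h
        · exact Or.inr (Or.inr h)
    have hloc : (ob k i j).Loc ((a', Ch.sgl c') : Ch i × Ch j) ((a, Ch.sgl c') : Ch i × Ch j)
        (t1 k (a', Ch.sgl c') l hc1) :=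
      loc_fst (p := ((a', Ch.sgl c') : Ch i × Ch j)) (q := ((a, Ch.sgl c') : Ch i × Ch j))
        ⟨ha, le_rfl⟩ hc1 l hl rfl
    refine E.gen_step hloc (t1 k (a, Ch.sgl c') c (h2 l List.mem_cons_self)) ?_
      (U_le hc1 (Set.mem_singleton c')) h (fun y => ?_) y
    · rw [ob_r, obr_t1]
      exact t1_inv (k := k) (p := ((a, Ch.sgl c') : Ch i × Ch j)) hc (h2 l List.mem_cons_self)
    · exact gen_fst c c' L a' hc1 (fun x hx => hx) (fun x hx => Or.inr hx) _ y

theorem gen_snd (c : i) (c' : j) (a : Ch i) (hc : c ∈ a.1)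
    (H : ∀ (h : U c c' ≤ (a, Ch.sgl c')) (y : E.E ((a, Ch.sgl c') : Ch i × Ch j)),
      ∃ (r : (ob k i j).B ((a, Ch.sgl c') : Ch i × Ch j)) (x : E.E (U c c')),
        y = r • E.res h x) : ∀ (L : List j) (b : Ch j), c' ∈ b.1 →
    (∀ x ∈ b.1, x = c' ∨ x ∈ L) → (∀ x ∈ L, x ∈ b.1) →
    ∀ (h : U c c' ≤ (a, b)) (y : E.E ((a, b) : Ch i × Ch j)),
      ∃ (r : (ob k i j).B ((a, b) : Ch i × Ch j)) (x : E.E (U c c')), y = r • E.res h x
  | [], b, hc', h1, h2, h, y => by
    have e : b = Ch.sgl c' := Subtype.ext (Set.Subset.antisymm (fun x hx => by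
      rcases h1 x hx with h | h
      · exact h
      · exact absurd h List.not_mem_nil) (Set.singleton_subset_iff.2 hc'))
    subst e
    exact H h y
  | l :: L, b, hc', h1, h2, h, y => by
    let b' : Ch j := ⟨insert c' {x | x ∈ L}, Set.insert_nonempty _ _,
      (List.finite_toSet L).insert c'⟩
    have hb : b' ≤ b := by
      rintro x (rfl | hx)
      · exact hc'
      · exact h2 x (List.mem_cons_of_mem l hx)
    have hc1 : c' ∈ b'.1 := Set.mem_insert c' _
    have hl : b.1 ⊆ insert l b'.1 := by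
      intro x hx
      rcases h1 x hx with h | h
      · exact Or.inr (Or.inl h)
      · rcases List.mem_cons.1 h with h | h
        · exact Or.inl h
        · exact Or.inr (Or.inr h)
    have hloc : (ob k i j).Loc ((a, b') : Ch i × Ch j) ((a, b) : Ch i × Ch j)
        (t2 k (a, b') l hc1) := loc_snd ((a, b') : Ch i × Ch j) b hb hc1 l hl
    refine E.gen_step hloc (t2 k (a, b) c' (h2 l List.mem_cons_self)) ?_
      (U_le hc hc1) h (fun y => ?_) y
    · rw [ob_r, obr_t2]
      exact t2_inv (k := k) (p := ((a, b) : Ch i × Ch j)) hc' (h2 l List.mem_cons_self)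
    · exact gen_snd c c' a hc H L b' hc1 (fun x hx => hx) (fun x hx => Or.inr hx) _ y

/-- Every section on a chart is a multiple of the restriction of a section on a standard open
set. -/
theorem gen_all (p : Ch i × Ch j) {c : i} (hc : c ∈ p.1.1) {c' : j} (hc' : c' ∈ p.2.1)
    (y : E.E p) : ∃ (r : (ob k i j).B p) (x : E.E (U c c')), y = r • E.res (U_le hc hc') x := by
  obtain ⟨a, b⟩ := p
  refine gen_snd E c c' a hc (fun h y => ?_) b.2.2.toFinset.toList b hc' ?_ ?_ _ y
  · refine gen_fst E c c' a.2.2.toFinset.toList a hc ?_ ?_ h y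
    · intro x hx
      rw [Finset.mem_toList, Set.Finite.mem_toFinset]
      exact Or.inr hx
    · intro x hx
      rwa [Finset.mem_toList, Set.Finite.mem_toFinset] at hx
  · intro x hx
    rw [Finset.mem_toList, Set.Finite.mem_toFinset]
    exact Or.inr hx
  · intro x hx
    rwa [Finset.mem_toList, Set.Finite.mem_toFinset] at hx

/-- The sum of finitely many morphisms from the same sheaf. -/
def ShH.sum {S : Site k} {P E : Sh S} {n : ℕ} (f : Fin n → ShH P E) : ShH (P.pow n) E where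
  f := fun p => ∑ q, (f q).f p ∘ₗ (LinearMap.proj q : (Fin n → P.E p) →ₗ[S.B p] P.E p)
  nat := fun {p q} h x => by
    rw [LinearMap.sum_apply, LinearMap.sum_apply, map_sum]
    exact Finset.sum_congr rfl fun m _ => (f m).nat h (x m)

theorem ShH.sum_mem {S : Site k} {P E : Sh S} {n : ℕ} (f : Fin n → ShH P E) (m : Fin n) {p : S.P}
    (x : P.E p) : (f m).f p x ∈ LinearMap.range ((ShH.sum f).f p) := by
  classical
  refine ⟨(Pi.single m x : Fin n → P.E p), ?_⟩
  refine (LinearMap.sum_apply _ _ _).trans ?_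
  rw [Finset.sum_eq_single m]
  · change (f m).f p ((Pi.single m x : Fin n → P.E p) m) = _
    rw [Pi.single_eq_same]
  · intro m' _ hm'
    change (f m').f p ((Pi.single m x : Fin n → P.E p) m') = 0
    rw [Pi.single_eq_of_ne hm', map_zero]
  · intro h
    exact absurd (Finset.mem_univ m) h

/-- (4.2): a coherent sheaf is a quotient of a finite sum of copies of `O(-b) ⊠ O(-b)`. -/
theorem exists_surj {E : Sh (ob k i j)} (hE : E.Coh) : ∃ (b n : ℕ)
    (f : ShH ((O2 k i j (-b) (-b)).pow n) E), f.Surj := by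
  classical
  have h1 : ∀ q : i × j, ∃ (l : ℕ) (a : Fin l → E.E (U q.1 q.2)),
      Submodule.span ((ob k i j).B (U q.1 q.2)) (Set.range a) = ⊤ := fun q =>
    (Submodule.fg_iff_exists_fin_generating_family).1 (hE (U q.1 q.2)).fg_top
  choose l a ha using h1
  have h2 : ∀ m : (Σ q : i × j, Fin (l q)), ∃ b0 : ℕ, ∀ b, b0 ≤ b →
      ∃ s : ∀ (c : i) (c' : j), E.E (U c c'), Sys E b s ∧ s m.1.1 m.1.2 = a m.1 m.2 := fun m =>
    sys_ex E m.1.1 m.1.2 (a m.1 m.2)
  choose b0 hb0 using h2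
  let b : ℕ := Finset.univ.sup b0
  have h3 : ∀ m : (Σ q : i × j, Fin (l q)), ∃ s : ∀ (c : i) (c' : j), E.E (U c c'),
      Sys E b s ∧ s m.1.1 m.1.2 = a m.1 m.2 := fun m =>
    hb0 m b (Finset.le_sup (Finset.mem_univ m))
  choose s hs hsa using h3
  let n : ℕ := Fintype.card (Σ q : i × j, Fin (l q))
  let e : Fin n ≃ (Σ q : i × j, Fin (l q)) := (Fintype.equivFin _).symm
  refine ⟨b, n, ShH.sum fun m => (hs (e m)).hom, ?_⟩
  have h4 : ∀ (c : i) (c' : j) (x : E.E (U c c')),
      x ∈ LinearMap.range ((ShH.sum fun m => (hs (e m)).hom).f (U c c')) := by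
    intro c c' x
    have h5 : x ∈ Submodule.span ((ob k i j).B (U c c')) (Set.range (a (c, c'))) := by
      rw [ha (c, c')]
      exact Submodule.mem_top
    refine Submodule.span_le.2 ?_ h5
    rintro _ ⟨m, rfl⟩
    obtain ⟨y, hy⟩ := (hs ⟨(c, c'), m⟩).hom_mem c c'
    rw [hsa ⟨(c, c'), m⟩] at hy
    have h6 := ShH.sum_mem (fun m => (hs (e m)).hom) (e.symm ⟨(c, c'), m⟩) (p := U c c') y
    rw [Equiv.apply_symm_apply] at h6
    exact hy ▸ h6
  intro p y
  obtain ⟨c, hc⟩ := p.1.2.1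
  obtain ⟨c', hc'⟩ := p.2.2.1
  obtain ⟨r, x, rfl⟩ := gen_all E p hc hc' y
  obtain ⟨z, hz⟩ := h4 c c' x
  refine ⟨r • (((O2 k i j (-b) (-b)).pow n).res (U_le hc hc') z), ?_⟩
  rw [map_smul, ← ShH.nat, hz]

end Pool.Agent.MP_6e5bed_ag_GG
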