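import Pool.Agent.Lib.MP_6e5bed_ag_GG.SG
import Pool.Agent.Lib.MP_6e5bed_ag_GG.P2

set_option autoImplicit false

/-!
# MP_6e5bed_ag, THEOREM G: descending induction over the degree (text, (4.4))
-/

noncomputable section

namespace Pool.Agent.MP_6e5bed_ag_GG

open Pool.Agent.MP_6e5bed_ag_NC Pool.Agent.MP_6e5bed_ag_NS Pool.Agent.MP_6e5bed_ag_PN

universe u v

variable {k : Type u} [Field k]

/-- An exact functor from the sheaves to bounded complexes with an action of `D`. -/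
structure Fct (D : Type v) [CommRing D] [Algebra k D] (S : Site k) where
  X : Sh S → Cx k
  a : ∀ E, DAct D (X E)
  map : ∀ {E F : Sh S}, ShH E F → CHom (X E) (X F)
  eqv : ∀ {E F : Sh S} (f : ShH E F), (a E).Eqv (a F) (map f)
  ex : ∀ {E' E F : Sh S} (f : ShH E' E) (g : ShH E F), f.Inj → g.Surj →
    (∀ p x, g.f p x = 0 ↔ ∃ y, f.f p y = x) → Function.Injective (map f).f ∧
      Function.Surjective (map g).f ∧ ∀ x, (map g).f x = 0 ↔ ∃ y, (map f).f y = x
  m : ℕ
  up : ∀ (E : Sh S) (x : (X E).V) (j : ℤ), m < j → (X E).dg.IsDeg j x → x = 0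
  lo : ∀ (E : Sh S) (x : (X E).V) (j : ℤ), j < 0 → (X E).dg.IsDeg j x → x = 0

variable {D : Type v} [CommRing D] [Algebra k D] {S : Site k} (Φ : Fct D S) {E F G : Sh S}

namespace Fct

theorem fg_mid [IsNoetherianRing D] (f : ShH E F) (g : ShH F G) (hf : f.Inj) (hg : g.Surj)
    (h : ∀ p x, g.f p x = 0 ↔ ∃ y, f.f p y = x) {j : ℤ} (h1 : (Φ.a E).FG j)
    (h2 : (Φ.a G).FG j) : (Φ.a F).FG j :=
  DAct.FG.mid (Φ.ex f g hf hg h).1 (Φ.ex f g hf hg h).2.1 (Φ.ex f g hf hg h).2.2 (Φ.eqv f)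
    (Φ.eqv g) h1 h2

theorem fg_right [IsNoetherianRing D] (f : ShH E F) (g : ShH F G) (hf : f.Inj) (hg : g.Surj)
    (h : ∀ p x, g.f p x = 0 ↔ ∃ y, f.f p y = x) {j : ℤ} (h1 : (Φ.a F).FG j)
    (h2 : (Φ.a E).FG (j + 1)) : (Φ.a G).FG j :=
  DAct.FG.right (Φ.ex f g hf hg h).1 (Φ.ex f g hf hg h).2.1 (Φ.ex f g hf hg h).2.2 (Φ.eqv f)
    (Φ.eqv g) h1 h2

/-- the value at a zero sheaf -/
theorem zero (h : ∀ p, Subsingleton (E.E p)) (x : (Φ.X E).V) : x = 0 := by
  have h1 := Φ.ex (ShH.id E) (ShH.id E) (ShH.id_bij E · |>.1) (ShH.id_bij E · |>.2)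
    (fun p x => ⟨fun _ => ⟨x, rfl⟩, fun _ => (h p).elim _ _⟩)
  refine h1.1 ?_
  rw [map_zero]
  exact (h1.2.2 x).2 (h1.2.1 x)

theorem fg_pow [IsNoetherianRing D] {j : ℤ} (hE : (Φ.a E).FG j) :
    ∀ n : ℕ, (Φ.a (E.pow n)).FG j
  | 0 => DAct.FG.of_zero _ fun x _ =>
    Φ.zero (fun p => (inferInstance : Subsingleton (Fin 0 → E.E p))) x
  | n + 1 => by
    let f : ShH E (E.pow (n + 1)) :=
      { f := fun p => LinearMap.pi (Fin.cons LinearMap.id (fun _ => 0))
        nat := fun {p q} h x => by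
          refine funext fun i => ?_
          refine Fin.cases ?_ (fun i => ?_) i
          · rfl
          · change E.res h 0 = 0
            exact map_zero _ }
    let g : ShH (E.pow (n + 1)) (E.pow n) :=
      { f := fun p => LinearMap.pi (fun i => LinearMap.proj i.succ)
        nat := fun _ _ => rfl }
    refine Φ.fg_mid f g ?_ ?_ ?_ hE (fg_pow hE n)
    · intro p x y hxy
      exact congrFun hxy 0
    · intro p x
      exact ⟨Fin.cons 0 x, funext fun i => rfl⟩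
    · intro p x
      constructor
      · intro hx
        refine ⟨x 0, funext fun i => ?_⟩
        refine Fin.cases ?_ (fun i => ?_) i
        · rfl
        · exact (congrFun hx i).symm
      · rintro ⟨y, rfl⟩
        exact funext fun i => rfl

end Fct

/-- (4.4): if the values at the `O(-b) ⊠ O(-b)` have finitely generated cohomology, so have the
values at all coherent sheaves. -/
theorem Fct.fg [IsNoetherianRing D] {i j : Type} [Fintype i] [Fintype j]
    (Φ : Fct D (ob k i j)) (hO : ∀ (b : ℕ) (n : ℤ), (Φ.a (O2 k i j (-b) (-b))).FG n)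
    {E : Sh (ob k i j)} (hE : E.Coh) (n : ℤ) : (Φ.a E).FG n := by
  have h1 : ∀ (t : ℕ) (E : Sh (ob k i j)), E.Coh → ∀ n : ℤ, Φ.m - n < t → (Φ.a E).FG n := by
    intro t
    induction t with
    | zero =>
      intro E hE n hn
      exact DAct.FG.of_zero _ fun x hx => Φ.up E x n (by push_cast at hn; omega) hx
    | succ t ih =>
      intro E hE n hn
      obtain ⟨b, r, f, hf⟩ := exists_surj hE
      refine Φ.fg_right f.ker.incl f f.ker.incl_inj hf (fun p x => ?_) (Φ.fg_pow (hO b n) r)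
        (ih _ (Sh.Coh.sub (ob_noe k i j) ((O2_coh _ _).pow r) f.ker) (n + 1) (by push_cast at hn; omega))
      exact ⟨fun hx => ⟨⟨x, hx⟩, rfl⟩, fun ⟨y, hy⟩ => hy ▸ y.2⟩
  exact h1 ((Φ.m - n).toNat + 1) E hE n (by push_cast; omega)

/-- (4.4) for the whole cohomology. -/
theorem Fct.fgt [IsNoetherianRing D] {i j : Type} [Fintype i] [Fintype j]
    (Φ : Fct D (ob k i j)) (hO : ∀ b : ℕ, (Φ.a (O2 k i j (-b) (-b))).FGt)
    {E : Sh (ob k i j)} (hE : E.Coh) : (Φ.a E).FGt := by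
  refine DAct.FGt.of_FG 0 (Φ.m + 1) (fun n x hx hn => ?_)
    (fun n => Φ.fg (fun b n => DAct.FG.of_FGt (hO b) n) hE n)
  rcases hn with hn | hn
  · exact Φ.lo E x n hn hx
  · exact Φ.up E x n (by omega) hx

end Pool.Agent.MP_6e5bed_ag_GG
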