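import Pool.Agent.Lib.MP_6e5bed_ag_GG.SH
import Pool.Agent.Lib.MP_6e5bed_ag_PN.PDA

set_option autoImplicit false
set_option linter.unusedVariables false

/-!
# MP_6e5bed_ag, THEOREM G: the Čech complexes as exact functors (text, (4.4))
-/

noncomputable section

namespace Pool.Agent.MP_6e5bed_ag_GG

open Pool.Agent.MP_6e5bed_ag_NC Pool.Agent.MP_6e5bed_ag_NS Pool.Agent.MP_6e5bed_ag_PN

universe u v

variable {k : Type u} [Field k] {D : Type v} [CommRing D] [Algebra k D] {S : Site k}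

/-- An exact functor from the sheaves to presheaves of complexes with an action of `D`. -/
structure FctP (D : Type v) [CommRing D] [Algebra k D] (S : Site k) (ι : Type) where
  V : Sh S → PC k ι
  p : ∀ E, PDA D (V E)
  map : ∀ {E F : Sh S}, ShH E F → PCH (V E) (V F)
  eqv : ∀ {E F : Sh S} (f : ShH E F) (c : Ch ι), ((p E).a c).Eqv ((p F).a c) ((map f).f c)
  ex : ∀ {E' E F : Sh S} (f : ShH E' E) (g : ShH E F), f.Inj → g.Surj →
    (∀ p x, g.f p x = 0 ↔ ∃ y, f.f p y = x) → PCEx (map f) (map g)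
  m : ℕ
  up : ∀ (E : Sh S) (c : Ch ι), Up ((V E).X c) m
  lo : ∀ (E : Sh S) (c : Ch ι), Lo ((V E).X c) 0

/-- the Čech complexes -/
def FctP.fct {ι : Type} (Φ : FctP D S ι) (L : List ι) (c : FS ι) : Fct D S where
  X := fun E => (cC (Φ.V E) L).X c
  a := fun E => (Φ.p E).cC L c
  map := fun f => (cH (Φ.map f) L).g c
  eqv := fun f => PDA.cH _ _ (Φ.map f) (Φ.eqv f) L c
  ex := fun f g hf hg h => (Φ.ex f g hf hg h).cC L c
  m := Φ.m + L.length
  up := fun E x n hn hx => cC_up (Φ.up E) L c n x hx (by push_cast at hn; exact hn)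
  lo := fun E x n hn hx => cC_lo (Φ.lo E) L c n x hx hn

variable {i j : Type} [Fintype i] [Fintype j]

variable (k i j) in
/-- the Čech complexes in the first variable -/
def fP1 : FctP k (ob k i j) j where
  V := fun E => E.pc2.push (LL i) (FS.e i)
  p := fun E => PDA.triv _
  map := fun f => f.pc2.push _ _
  eqv := fun f c r x => map_smul ((f.pc2.push (LL i) (FS.e i)).f c).f r x
  ex := fun f g hf hg h => (ShH.pc2Ex hf hg h).push _ _
  m := 0 + (LL i).length
  up := fun E c => by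
    push_cast
    exact cC_up (V := E.pc2.fst c) (fun a => conc_up _) (LL i) (FS.e i)
  lo := fun E c => cC_lo (V := E.pc2.fst c) (fun a => conc_lo _) (LL i) (FS.e i)

variable (k i j) in
/-- the Čech complexes in the second variable -/
def fP1' : FctP k (ob k i j) i where
  V := fun E => E.pc2.push2 (LL j) (FS.e j)
  p := fun E => PDA.triv _
  map := fun f => f.pc2.push2 _ _
  eqv := fun f c r x => map_smul ((f.pc2.push2 (LL j) (FS.e j)).f c).f r x
  ex := fun f g hf hg h => (ShH.pc2Ex hf hg h).push2 _ _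
  m := 0 + (LL j).length
  up := fun E c => by
    push_cast
    exact cC_up (V := E.pc2.snd c) (fun a => conc_up _) (LL j) (FS.e j)
  lo := fun E c => cC_lo (V := E.pc2.snd c) (fun a => conc_lo _) (LL j) (FS.e j)

/-- (F1) for sheaves on the pairs of charts, from the case of the `O(-b) ⊠ O(-b)`. -/
theorem fin1_of (h : ∀ b : ℕ, (DAct.triv ((cC ((O2 k i j (-b) (-b)).pc2.push (LL i) (FS.e i))
    (LL j)).X (FS.e j))).FGt) {E : Sh (ob k i j)} (hE : E.Coh) :
    (DAct.triv ((cC (E.pc2.push (LL i) (FS.e i)) (LL j)).X (FS.e j))).FGt := by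
  rw [PDA.fgt_triv (PDA.triv _)]
  refine ((fP1 k i j).fct (LL j) (FS.e j)).fgt (fun b => ?_) hE
  exact (PDA.fgt_triv (PDA.triv _) _ _).1 (h b)

/-- (F1) in the other order. -/
theorem fin1'_of (h : ∀ b : ℕ, (DAct.triv ((cC ((O2 k i j (-b) (-b)).pc2.push2 (LL j) (FS.e j))
    (LL i)).X (FS.e i))).FGt) {E : Sh (ob k i j)} (hE : E.Coh) :
    (DAct.triv ((cC (E.pc2.push2 (LL j) (FS.e j)) (LL i)).X (FS.e i))).FGt := by
  rw [PDA.fgt_triv (PDA.triv _)]
  refine ((fP1' k i j).fct (LL i) (FS.e i)).fgt (fun b => ?_) hE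
  exact (PDA.fgt_triv (PDA.triv _) _ _).1 (h b)

end Pool.Agent.MP_6e5bed_ag_GG
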