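import Pool.Agent.Lib.MP_6e5bed_ag_GG.SJ
import Pool.Agent.Lib.MP_6e5bed_ag_GG.Cb

set_option autoImplicit false
set_option linter.unusedVariables false

/-!
# MP_6e5bed_ag, THEOREM G: actions on Čech complexes and the module structures of Čech bimodules
-/

noncomputable section

namespace Pool.Agent.MP_6e5bed_ag_GG

open Pool.Agent.MP_6e5bed_ag_NC Pool.Agent.MP_6e5bed_ag_NS Pool.Agent.MP_6e5bed_ag_PN

universe u v

variable {k : Type u} [Field k] {ι : Type} {R : Type u} [Ring R] [Algebra k R] {D : Type v}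
  [CommRing D] [Algebra k D]

/-- The action on the Čech complex is the left multiplication. -/
theorem cBL_act {B : PA k ι} (M : PB (PA.con ι (ring k R)) B) (P : PDA D M.pc) (α : D → R)
    (h : ∀ c r x, (P.a c).φ r x = (M.M c).l (α r) x) : ∀ (L : List ι) (c : FS ι) (r : D)
      (x : (cBL M L c).M), (P.cC L c).φ r x = (cBL M L c).l (α r) x
  | [], c, r, x => rfl
  | l :: L, c, r, x => by
    obtain ⟨⟨x0, x1⟩, ξ⟩ := x
    refine Eq.trans ?_ (cBL_l M l L c (α r) x0 x1 ξ).symm
    refine Prod.ext (Prod.ext (cBL_act M P α h L c r x0) (h _ r x1)) ?_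
    refine (cBL_act M P α h L (c.ins l).fs r ξ).trans ?_
    exact congrArg (fun z => (cBL M L (c.ins l).fs).l z ξ) (ring_s (k := k) (α r)).symm

/-- The action on the Čech complex is the right multiplication. -/
theorem cBR_act {A : PA k ι} (M : PB A (PA.con ι (ring k R))) (P : PDA D M.pc) (α : D → R)
    (h : ∀ c r x, (P.a c).φ r x = (M.M c).r (α r) x) : ∀ (L : List ι) (c : FS ι) (r : D)
      (x : (cBR M L c).M), (P.cC L c).φ r x = (cBR M L c).r (α r) x
  | [], c, r, x => rfl
  | l :: L, c, r, x => by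
    obtain ⟨⟨x0, x1⟩, ξ⟩ := x
    refine Eq.trans ?_ (cBR_r M l L c (α r) x0 x1 ξ).symm
    exact Prod.ext (Prod.ext (cBR_act M P α h L c r x0) (h _ r x1))
      (cBR_act M P α h L (c.ins l).fs r ξ)

end Pool.Agent.MP_6e5bed_ag_GG
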