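import Pool.Agent.Lib.MP_6e5bed_ag_GG.TBs

set_option autoImplicit false
set_option linter.unusedSectionVars false

/-!
# MP_6e5bed_ag, THEOREM G: base change of Čech dg algebras
-/

noncomputable section

namespace Pool.Agent.MP_6e5bed_ag_Pn

open Pool.Agent.MP_6e5bed_ag_SP
open scoped TensorProduct

universe u

section

variable {ν : ℕ} {k K T T' : Type u} [Field k] [Field K] [Algebra k K] [Ring T] [Algebra k T]
  [Ring T'] [Algebra K T'] [Algebra k T'] [IsScalarTower k K T']
  {B B' : Finset (Fin (ν + 1)) → Type u}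
  [∀ I, Ring (B I)] [∀ I, Algebra k (B I)] [∀ I, Ring (B' I)] [∀ I, Algebra K (B' I)]
  [∀ I, Algebra k (B' I)] [∀ I, IsScalarTower k K (B' I)]
  {r : ∀ I J : Finset (Fin (ν + 1)), I ⊆ J → B I →ₐ[k] B J}
  {r' : ∀ I J : Finset (Fin (ν + 1)), I ⊆ J → B' I →ₐ[K] B' J}
  {X : DG k T} {e : T →ₗ[k] ∀ I, B I} {X' : DG K T'} {e' : T' →ₗ[K] ∀ I, B' I}

/-- the components with nonempty index -/
def cpt {k T : Type u} [Field k] [Ring T] [Algebra k T] {B : Finset (Fin (ν + 1)) → Type u}
    [∀ I, Ring (B I)] [∀ I, Algebra k (B I)]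
    {r : ∀ I J : Finset (Fin (ν + 1)), I ⊆ J → B I →ₐ[k] B J} {X : DG k T}
    {e : T →ₗ[k] ∀ I, B I} (h : IsCech r X e) :
    T ≃ₗ[k] ∀ I : {I : Finset (Fin (ν + 1)) // I ≠ ∅}, B I.1 :=
  LinearEquiv.ofBijective
    (LinearMap.pi fun I : {I : Finset (Fin (ν + 1)) // I ≠ ∅} => LinearMap.proj I.1 ∘ₗ e)
    (by
      classical
      constructor
      · intro a b hab
        apply h.inj
        funext I
        by_cases hI : I = ∅
        · subst hI
          rw [(h.range (e a)).1 ⟨a, rfl⟩, (h.range (e b)).1 ⟨b, rfl⟩]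
        · exact congrFun hab ⟨I, hI⟩
      · intro c
        obtain ⟨a, ha⟩ := (h.range fun I => if hI : I ≠ ∅ then c ⟨I, hI⟩ else 0).2
          (dif_neg (by simp))
        refine ⟨a, funext fun I => ?_⟩
        change e a I.1 = c I
        rw [ha]
        exact dif_pos I.2)

theorem cpt_apply {k T : Type u} [Field k] [Ring T] [Algebra k T]
    {B : Finset (Fin (ν + 1)) → Type u}
    [∀ I, Ring (B I)] [∀ I, Algebra k (B I)]
    {r : ∀ I J : Finset (Fin (ν + 1)), I ⊆ J → B I →ₐ[k] B J} {X : DG k T}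
    {e : T →ₗ[k] ∀ I, B I} (h : IsCech r X e) (a : T)
    (I : {I : Finset (Fin (ν + 1)) // I ≠ ∅}) : cpt h a I = e a I.1 := rfl

/-- If the sheaf `B'` over `K` is the base change of the sheaf `B` over `k`, then the Čech dg
algebra of `B'` is the base change of the Čech dg algebra of `B`. -/
theorem cech_bc (h : IsCech r X e) (h' : IsCech r' X' e') (j : ∀ I, B I →ₐ[k] B' I)
    (hj : ∀ I, IsBaseChange K (j I).toLinearMap)
    (hr : ∀ (I J : Finset (Fin (ν + 1))) (hI : I ⊆ J) b, r' I J hI (j I b) = j J (r I J hI b)) :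
    ∃ i : T →ₐ[k] T', IsBc X X' i := by
  classical
  let J : (∀ I : {I : Finset (Fin (ν + 1)) // I ≠ ∅}, B I.1) →ₗ[k]
      ∀ I : {I : Finset (Fin (ν + 1)) // I ≠ ∅}, B' I.1 :=
    LinearMap.pi fun I => (j I.1).toLinearMap ∘ₗ LinearMap.proj I
  let f : T →ₗ[k] T' := ((cpt h').symm.restrictScalars k).toLinearMap ∘ₗ J ∘ₗ (cpt h).toLinearMap
  have hf : ∀ a I, e' (f a) I = j I (e a I) := by
    intro a I
    by_cases hI : I = ∅
    · subst hI
      rw [(h.range (e a)).1 ⟨a, rfl⟩, (h'.range (e' (f a))).1 ⟨f a, rfl⟩, map_zero]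
    · have h1 : cpt h' (f a) = J (cpt h a) := (cpt h').apply_symm_apply _
      exact congrFun h1 ⟨I, hI⟩
  have hone : f 1 = 1 := by
    apply h'.inj
    funext I
    rw [hf, h.one, h'.one]
    split_ifs
    · exact map_one _
    · exact map_zero _
  have hmul : ∀ a b, f (a * b) = f a * f b := fun a b => by
    apply h'.inj
    funext I
    rw [hf, h.mul, h'.mul, map_sum]
    refine Finset.sum_congr rfl fun i _ => ?_
    rw [map_mul, hf, hf, hr, hr]
  refine ⟨AlgHom.ofLinearMap f hone hmul, ?_, ?_, ?_⟩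
  · have h1 : (AlgHom.ofLinearMap f hone hmul).toLinearMap = f := rfl
    rw [h1]
    refine (IsBaseChange.iff_of_equiv_comm (f := J) (f' := f) (cpt h).symm (cpt h').symm ?_).1
      (IsBaseChange.pi _ fun I => hj I.1)
    refine LinearMap.ext fun x => ?_
    change (cpt h').symm (J (cpt h ((cpt h).symm x))) = (cpt h').symm (J x)
    rw [LinearEquiv.apply_symm_apply]
  · intro n a ha
    change f a ∈ X'.gr n
    rw [h'.gr]
    intro I hI
    refine (h.gr n a).1 ha I fun h0 => hI ?_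
    rw [hf, h0, map_zero]
  · intro a
    change X'.d (f a) = f (X.d a)
    apply h'.inj
    funext I
    rw [h'.d, hf, h.d, map_sum]
    refine Finset.sum_congr rfl fun i _ => ?_
    rw [map_zsmul, hf, hr]

end

end Pool.Agent.MP_6e5bed_ag_Pn
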