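import Pool.Agent.Lib.MP_6e5bed_ag_GG.TGK

set_option autoImplicit false
set_option linter.unusedSectionVars false

/-!
# MP_6e5bed_ag, THEOREM G: base change of the sections of `Γ~`
-/

noncomputable section

namespace Pool.Agent.MP_6e5bed_ag_Pn

open MvPolynomial
open scoped TensorProduct

universe u

variable {ν : ℕ} {k Γ : Type u} [Field k] [Ring Γ] [Algebra k Γ]
  [Algebra (MvPolynomial (Fin (ν + 1)) k) Γ] [IsScalarTower k (MvPolynomial (Fin (ν + 1)) k) Γ]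
  {𝒢 : ℕ → Submodule k Γ}

/-- the homogeneous component of degree `m` -/
def prj (h : IsGr ν 𝒢) (m : ℕ) : Γ →ₗ[k] Γ :=
  (𝒢 m).subtype ∘ₗ DirectSum.component k ℕ (fun n => 𝒢 n) m ∘ₗ
    (LinearEquiv.ofBijective (DirectSum.coeLinearMap 𝒢) h.int).symm.toLinearMap

theorem prj_mem (h : IsGr ν 𝒢) (m : ℕ) (a : Γ) : prj h m a ∈ 𝒢 m := Subtype.prop _

theorem prj_of_mem (h : IsGr ν 𝒢) {m : ℕ} {a : Γ} (ha : a ∈ 𝒢 m) : prj h m a = a := by
  have h1 : (LinearEquiv.ofBijective (DirectSum.coeLinearMap 𝒢) h.int).symm a =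
      DirectSum.lof k ℕ (fun n => 𝒢 n) m ⟨a, ha⟩ := by
    rw [LinearEquiv.symm_apply_eq, LinearEquiv.ofBijective_apply, DirectSum.coeLinearMap_lof]
  change ((𝒢 m).subtype (DirectSum.component k ℕ (fun n => 𝒢 n) m
    ((LinearEquiv.ofBijective (DirectSum.coeLinearMap 𝒢) h.int).symm a))) = a
  rw [h1, DirectSum.component.lof_self]
  rfl

variable {B : Finset (Fin (ν + 1)) → Type u} [∀ I, Ring (B I)] [∀ I, Algebra k (B I)]
  {r : ∀ I J : Finset (Fin (ν + 1)), I ⊆ J → B I →ₐ[k] B J}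
  {q : ∀ I : Finset (Fin (ν + 1)), ℕ → Γ → B I}

theorem IsSec.q_smul (h : IsGr ν 𝒢) (hq : IsSec 𝒢 r q) {I : Finset (Fin (ν + 1))} {m : ℕ}
    (c : k) {a : Γ} (ha : a ∈ 𝒢 (m * I.card)) : q I m (c • a) = c • q I m a := by
  have h1 : algebraMap k Γ c ∈ 𝒢 (0 * I.card) := by
    rw [Nat.zero_mul, Algebra.algebraMap_eq_smul_one]
    exact (𝒢 0).smul_mem c h.one
  have h2 := hq.mul I 0 m _ a h1 ha
  rw [Nat.zero_add, hq.const, ← Algebra.smul_def, ← Algebra.smul_def] at h2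
  exact h2

/-- `q` as a linear map -/
def qL (h : IsGr ν 𝒢) (hq : IsSec 𝒢 r q) (I : Finset (Fin (ν + 1))) (m : ℕ) : Γ →ₗ[k] B I where
  toFun := fun a => q I m (prj h (m * I.card) a)
  map_add' := fun a b => by
    rw [map_add, hq.add I m _ _ (prj_mem h _ _) (prj_mem h _ _)]
  map_smul' := fun c a => by
    rw [map_smul, hq.q_smul h c (prj_mem h _ _)]
    rfl

theorem qL_apply (h : IsGr ν 𝒢) (hq : IsSec 𝒢 r q) {I : Finset (Fin (ν + 1))} {m : ℕ} {a : Γ}
    (ha : a ∈ 𝒢 (m * I.card)) : qL h hq I m a = q I m a := by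
  change q I m (prj h (m * I.card) a) = _
  rw [prj_of_mem h ha]

variable (K : Type u) [Field K] [Algebra k K]

/-- the fractions in `K ⊗ B I` -/
def qK (h : IsGr ν 𝒢) (hq : IsSec 𝒢 r q) (I : Finset (Fin (ν + 1))) (m : ℕ) :
    GK k K Γ →ₗ[K] K ⊗[k] B I := (qL h hq I m).baseChange K

/-- the element `c ⊗ a` -/
def tm (c : K) (a : Γ) : GK k K Γ := (c ⊗ₜ[k] a : K ⊗[k] Γ)

theorem qK_tm (h : IsGr ν 𝒢) (hq : IsSec 𝒢 r q) {I : Finset (Fin (ν + 1))} {m : ℕ} {a : Γ}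
    (ha : a ∈ 𝒢 (m * I.card)) (c : K) : qK K h hq I m (tm K c a) = c ⊗ₜ[k] q I m a := by
  rw [← qL_apply h hq ha]
  exact LinearMap.baseChange_tmul _ _ _

/-- the restriction maps -/
def rK (r : ∀ I J : Finset (Fin (ν + 1)), I ⊆ J → B I →ₐ[k] B J) (I J : Finset (Fin (ν + 1)))
    (hIJ : I ⊆ J) : K ⊗[k] B I →ₐ[K] K ⊗[k] B J :=
  Algebra.TensorProduct.map (AlgHom.id K K) (r I J hIJ)

/-- induction over the homogeneous elements of the base change -/
theorem gr_ind {n : ℕ} {P : GK k K Γ → Prop} (h0 : P 0)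
    (h1 : ∀ (c : K) (a : Γ), a ∈ 𝒢 n → P (tm K c a))
    (h2 : ∀ z w, P z → P w → P (z + w)) : ∀ z ∈ GK.gr K 𝒢 n, P z := by
  rintro _ ⟨w, rfl⟩
  induction w using TensorProduct.induction_on with
  | zero => rw [map_zero]; exact h0
  | tmul c a => exact h1 c a.1 a.2
  | add x y hx hy =>
    rw [map_add]
    exact h2 _ _ hx hy

theorem tm_mem {n : ℕ} (c : K) {a : Γ} (ha : a ∈ 𝒢 n) : tm K c a ∈ GK.gr K 𝒢 n :=
  ⟨c ⊗ₜ[k] (⟨a, ha⟩ : 𝒢 n), rfl⟩

theorem tm_mul (c c' : K) (a a' : Γ) : tm (k := k) K c a * tm K c' a' = tm K (c * c') (a * a') :=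
  Algebra.TensorProduct.tmul_mul_tmul _ _ _ _

/-- the action of polynomials with coefficients in `k` -/
theorem map_smul_tm (p : MvPolynomial (Fin (ν + 1)) k) (c : K) (a : Γ) :
    MvPolynomial.map (algebraMap k K) p • tm (k := k) K c a = tm K c (p • a) := by
  have h1 : GK.inc K Γ (algebraMap (MvPolynomial (Fin (ν + 1)) k) Γ p) =
    tm (k := k) K 1 (algebraMap (MvPolynomial (Fin (ν + 1)) k) Γ p) := rfl
  rw [Algebra.smul_def, GK.algebraMap_map, h1, tm_mul, one_mul, ← Algebra.smul_def]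

theorem map_xp (I : Finset (Fin (ν + 1))) (l : ℕ) :
    MvPolynomial.map (algebraMap k K) (xp k I ^ l) = xp K I ^ l := by
  rw [map_pow]
  congr 1
  unfold xp
  rw [map_prod]
  exact Finset.prod_congr rfl fun i _ => MvPolynomial.map_X _ i

theorem xp_smul_tm (I : Finset (Fin (ν + 1))) (l : ℕ) (c : K) (a : Γ) :
    xp K I ^ l • tm (k := k) K c a = tm K c (xp k I ^ l • a) := by
  rw [← map_xp (k := k), map_smul_tm]

theorem qK_step (h : IsGr ν 𝒢) (hq : IsSec 𝒢 r q) {I : Finset (Fin (ν + 1))} {m : ℕ} (l : ℕ) :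
    ∀ z ∈ GK.gr K 𝒢 (m * I.card), qK K h hq I (m + l) (xp K I ^ l • z) = qK K h hq I m z := by
  refine gr_ind K ?_ (fun c a ha => ?_) (fun z w hz hw => ?_)
  · rw [smul_zero, map_zero, map_zero]
  · rw [xp_smul_tm, qK_tm K h hq (xp_mem h ha) c, hq.step_pow h l ha, qK_tm K h hq ha c]
  · rw [smul_add, map_add, map_add, hz, hw]

theorem bc_mul (h : IsGr ν 𝒢) (hq : IsSec 𝒢 r q) {I : Finset (Fin (ν + 1))} {l m : ℕ} :
    ∀ z ∈ GK.gr K 𝒢 (l * I.card), ∀ w ∈ GK.gr K 𝒢 (m * I.card),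
      qK K h hq I (l + m) (z * w) = qK K h hq I l z * qK K h hq I m w := by
  refine gr_ind K ?_ (fun c a ha => ?_) (fun z z' hz hz' w hw => ?_)
  · intro w _
    rw [zero_mul, map_zero, map_zero, zero_mul]
  · refine gr_ind K ?_ (fun c' a' ha' => ?_) (fun w w' hw hw' => ?_)
    · rw [mul_zero, map_zero, map_zero, mul_zero]
    · have h2 : a * a' ∈ 𝒢 ((l + m) * I.card) := by
        rw [Nat.add_mul]
        exact h.mul _ _ _ _ ha ha'
      rw [tm_mul, qK_tm K h hq h2, hq.mul I l m a a' ha ha', qK_tm K h hq ha, qK_tm K h hq ha',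
        Algebra.TensorProduct.tmul_mul_tmul]
    · rw [mul_add, map_add, map_add, mul_add, hw, hw']
  · rw [add_mul, map_add, map_add, add_mul, hz w hw, hz' w hw]

theorem bc_surj (h : IsGr ν 𝒢) (hq : IsSec 𝒢 r q) (I : Finset (Fin (ν + 1)))
    (b : K ⊗[k] B I) : ∃ m, ∃ z ∈ GK.gr K 𝒢 (m * I.card), qK K h hq I m z = b := by
  induction b using TensorProduct.induction_on with
  | zero => exact ⟨0, 0, Submodule.zero_mem _, map_zero _⟩
  | tmul c b =>
    obtain ⟨m, a, ha, rfl⟩ := hq.surj I b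
    exact ⟨m, _, tm_mem K c ha, qK_tm K h hq ha c⟩
  | add x y hx hy =>
    obtain ⟨m, z, hz, rfl⟩ := hx
    obtain ⟨m', w, hw, rfl⟩ := hy
    have hg := GK.isGr K h
    have e1 := xp_mem hg (m := m') hz
    have e2 := xp_mem hg (m := m) hw
    have e3 := qK_step K h hq m w hw
    rw [Nat.add_comm m' m] at e2 e3
    refine ⟨m + m', xp K I ^ m' • z + xp K I ^ m • w, Submodule.add_mem _ e1 e2, ?_⟩
    rw [map_add, qK_step K h hq m' z hz, e3]

omit [IsScalarTower k (MvPolynomial (Fin (ν + 1)) k) Γ]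
  [Algebra (MvPolynomial (Fin (ν + 1)) k) Γ] [Ring Γ] [Algebra k Γ] in
theorem exists_lten {V W : Type u} [AddCommGroup V] [Module k V] [AddCommGroup W] [Module k W]
    (f : V →ₗ[k] W) (x : K ⊗[k] V) (h : LinearMap.lTensor K f x = 0) :
    ∃ y : K ⊗[k] (LinearMap.ker f), LinearMap.lTensor K (LinearMap.ker f).subtype y = x :=
  (Module.Flat.lTensor_exact K (LinearMap.exact_subtype_ker_map f) x).1 h

theorem bc_zero (h : IsGr ν 𝒢) (hq : IsSec 𝒢 r q) {I : Finset (Fin (ν + 1))} {m : ℕ}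
    {z : GK k K Γ} (hz : z ∈ GK.gr K 𝒢 (m * I.card)) (h0 : qK K h hq I m z = 0) :
    ∃ l : ℕ, xp K I ^ l • z = 0 := by
  obtain ⟨w, rfl⟩ := hz
  let f : 𝒢 (m * I.card) →ₗ[k] B I := qL h hq I m ∘ₗ (𝒢 (m * I.card)).subtype
  have h1 : LinearMap.lTensor K f w = 0 := by
    refine Eq.trans ?_ h0
    exact DFunLike.congr_fun (LinearMap.lTensor_comp K (qL h hq I m)
      (𝒢 (m * I.card)).subtype) w
  obtain ⟨v, rfl⟩ := exists_lten K f w h1
  have key : ∀ g : K ⊗[k] (LinearMap.ker f) →+ GK k K Γ, (∀ c a, g (c ⊗ₜ a) = tm K c a.1.1) →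
      ∀ v, ∃ l : ℕ, xp K I ^ l • g v = 0 := by
    intro g hg v
    induction v using TensorProduct.induction_on with
    | zero => exact ⟨0, by rw [map_zero, smul_zero]⟩
    | tmul c a =>
      have h3 : q I m a.1.1 = 0 := by
        rw [← qL_apply h hq a.1.2]
        exact a.2
      obtain ⟨l, hl⟩ := hq.zero I m a.1.1 a.1.2 h3
      refine ⟨l, ?_⟩
      rw [hg, xp_smul_tm]
      have h4 : xp k I ^ l • a.1.1 = 0 := hl
      rw [h4]
      exact TensorProduct.tmul_zero _ _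
    | add x y hx hy =>
      obtain ⟨l, hl⟩ := hx
      obtain ⟨l', hl'⟩ := hy
      refine ⟨l + l', ?_⟩
      rw [map_add, smul_add, pow_add, mul_smul, mul_smul, hl', smul_zero, add_zero,
        ← mul_smul, mul_comm, mul_smul, hl, smul_zero]
  exact key (((𝒢 (m * I.card)).subtype.baseChange K).toAddMonoidHom.comp
    (LinearMap.lTensor K (LinearMap.ker f).subtype).toAddMonoidHom) (fun _ _ => rfl) v

theorem bc_res (h : IsGr ν 𝒢) (hq : IsSec 𝒢 r q) {I J : Finset (Fin (ν + 1))} (hIJ : I ⊆ J)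
    (m : ℕ) : ∀ z ∈ GK.gr K 𝒢 (m * I.card), rK K r I J hIJ (qK K h hq I m z) =
      qK K h hq J m (xp K (J \ I) ^ m • z) := by
  refine gr_ind K ?_ (fun c a ha => ?_) (fun z w hz hw => ?_)
  · rw [smul_zero, map_zero, map_zero, map_zero]
  · rw [xp_smul_tm, qK_tm K h hq (sdiff_mem h hIJ ha), qK_tm K h hq ha]
    change c ⊗ₜ[k] r I J hIJ (q I m a) = _
    rw [hq.res I J hIJ m a ha]
    rfl
  · rw [smul_add, map_add, map_add, map_add, hz, hw]

/-- The base change of the sections. -/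
theorem IsSec.bc (h : IsGr ν 𝒢) (hq : IsSec 𝒢 r q) :
    IsSec (GK.gr K 𝒢) (B := fun I => K ⊗[k] B I) (rK K r) (fun I m => qK K h hq I m) where
  add I m a b _ _ := map_add _ _ _
  mul I l m a b ha hb := bc_mul K h hq a ha b hb
  const I c := by
    have h1 : (1 : Γ) ∈ 𝒢 (0 * I.card) := by
      rw [Nat.zero_mul]
      exact h.one
    have h2 := hq.const I 1
    rw [map_one, map_one] at h2
    refine (qK_tm K h hq h1 c).trans ?_
    rw [h2]
    rfl
  step I m a ha := by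
    have h1 := qK_step K h hq 1 a ha
    rw [pow_one] at h1
    exact h1
  surj I b := bc_surj K h hq I b
  zero I m z hz h0 := bc_zero K h hq hz h0
  res I J hIJ m z hz := bc_res K h hq hIJ m z hz

end Pool.Agent.MP_6e5bed_ag_Pn
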