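import Pool.Agent.Lib.MP_6e5bed_ag_GG.TPhB

set_option autoImplicit false
set_option linter.unusedVariables false
set_option linter.unusedSectionVars false

/-!
# MP_6e5bed_ag, THEOREM G: Čech complexes in components, the differential and the grading
-/

noncomputable section

namespace Pool.Agent.MP_6e5bed_ag_GG

open Pool.Agent.MP_6e5bed_ag_NC Pool.Agent.MP_6e5bed_ag_NS Pool.Agent.MP_6e5bed_ag_PN

universe u

variable {k : Type u} [Field k] {i : Type} [Fintype i] [DecidableEq i] {A : CA k i}
  {J : Type} [LinearOrder J] {σ : i → J}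

theorem dF_ins {l : i} {L : List i} (h : Dec σ (l :: L)) {I : Finset i} (hI : ∀ x ∈ I, x ∈ L)
    (hne : I.Nonempty) (u : Fam A) (d : Ch i) {c : Ch i} (y : A.A c) (hcd : c ≤ d)
    (hy : A.res hcd y = u {l} d) :
    dF σ u (insert l I) d = (-1 : ℤ) ^ I.card • u I d + dF σ (pl A l u) I d +
      augF A c y I d := by
  have hlI := not_mem_of_dec h hI
  have e1 : (insert l I).filter (fun x => σ x < σ l) = I := by
    rw [Finset.filter_insert, if_neg (lt_irrefl _)]
    exact Finset.filter_true_of_mem fun x hx => h.lt (hI x hx)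
  have e2 : (insert l I).erase l = I := Finset.erase_insert hlI
  unfold dF
  rw [Finset.sum_insert hlI, e1, e2, if_neg hne.ne_empty, add_assoc]
  congr 1
  have e3 : ∀ j ∈ I, (insert l I).erase j = insert l (I.erase j) := fun j hj =>
    Finset.erase_insert_of_ne fun e => hlI (e ▸ hj)
  have e4 : ∑ j ∈ I, (if (insert l I).erase j = ∅ then (0 : A.A d) else
      (-1 : ℤ) ^ ((insert l I).filter (fun x => σ x < σ j)).card • u ((insert l I).erase j) d) =
      ∑ j ∈ I, (-1 : ℤ) ^ (I.filter (fun x => σ x < σ j)).card • u (insert l (I.erase j)) d := by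
    refine Finset.sum_congr rfl fun j hj => ?_
    rw [e3 j hj, if_neg (Finset.insert_ne_empty l _), filter_ins_lt h hI hj]
  rw [e4]
  by_cases hc : I.card = 1
  · obtain ⟨z, rfl⟩ := Finset.card_eq_one.1 hc
    rw [augF_of c y {z} d hc hcd, hy, Finset.sum_singleton, Finset.sum_singleton,
      Finset.erase_singleton, if_pos rfl, zero_add, insert_empty_eq,
      Finset.filter_false_of_mem, Finset.card_empty, pow_zero, one_smul]
    intro x hx
    rw [Finset.mem_singleton.1 hx]
    exact lt_irrefl _
  · rw [augF_ne c y I d hc, add_zero]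
    refine Finset.sum_congr rfl fun j hj => ?_
    rw [if_neg]
    · rfl
    · intro he
      have h1 := Finset.card_erase_add_one hj
      rw [he, Finset.card_empty] at h1
      exact hc h1.symm

theorem Phi_d : ∀ (L : List i) (hL : Dec σ L) (c : FS i) (u : Fam A), Cmp A L c u →
    ((cC A.pa.pc L).X c).dg.d (Phi A L c u) = Phi A L c (dF σ u)
  | [], _, c, u, _ => rfl
  | l :: L, hL, c, u, hu => by
    have ih := Phi_d L hL.tail
    have hnd : L.Nodup := hL.tail.nodup
    let y : A.A (c.ins l) := u {l} (c.ins l)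
    have hy : ∀ (d : Ch i) (h : c.ins l ≤ d), A.res h y = u {l} d := fun d h =>
      hu {l} (c.ins l) d h (Finset.singleton_nonempty l) (fun x hx => by
        rw [Finset.mem_singleton.1 hx]
        exact List.mem_cons_self) (Set.subset_insert l c.1) (by
        rw [Finset.coe_singleton, Set.singleton_subset_iff]
        exact Set.mem_insert l c.1)
    rw [Phi_cons]
    refine (co_d _ _ _).trans ?_
    refine Prod.ext (Prod.ext (ih c u hu.tail) ?_) ?_
    · change (0 : A.A (c.ins l)) = dF σ u {l} (c.ins l)
      unfold dF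
      rw [Finset.sum_singleton, Finset.erase_singleton, if_pos rfl]
    · have e1 : ((cC A.pa.pc L).a (c.ins l)).f (u {l} (c.ins l)) =
          Phi A L (c.ins l).fs (augF A (c.ins l) y) := Phi_aug L hnd (c.ins l) y
      have e2 : ((cC A.pa.pc L).ρ (le_ins c l)).f (Phi A L c u) = Phi A L (c.ins l).fs u :=
        Phi_ρ L (le_ins c l) u hu.tail
      change ((cC A.pa.pc L).a (c.ins l)).f (u {l} (c.ins l)) -
          ((cC A.pa.pc L).ρ (le_ins c l)).f (Phi A L c u) -
          ((cC A.pa.pc L).X (c.ins l).fs).dg.d (((cC A.pa.pc L).X (c.ins l).fs).dg.s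
            (Phi A L (c.ins l).fs (pl A l u))) =
        ((cC A.pa.pc L).X (c.ins l).fs).dg.s (Phi A L (c.ins l).fs (pl A l (dF σ u)))
      have e3 : ((cC A.pa.pc L).X (c.ins l).fs).dg.d (((cC A.pa.pc L).X (c.ins l).fs).dg.s
            (Phi A L (c.ins l).fs (pl A l u))) =
          - ((cC A.pa.pc L).X (c.ins l).fs).dg.s (((cC A.pa.pc L).X (c.ins l).fs).dg.d
            (Phi A L (c.ins l).fs (pl A l u))) := by
        rw [Dg.s_d, neg_neg]
      rw [e1, e2, e3, ih _ _ hu.pl, Phi_s L hnd, Phi_s L hnd, sub_neg_eq_add, ← map_sub,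
        ← map_add]
      refine Phi_congr L _ _ _ fun I d hI hIL hc hd => ?_
      have e4 := dF_ins hL hIL hI u d y hc (hy d hc)
      change augF A (c.ins l) y I d - u I d + (-1 : ℤ) ^ (I.card + 1) • dF σ (pl A l u) I d =
        (-1 : ℤ) ^ (I.card + 1) • dF σ u (insert l I) d
      rw [e4, smul_add, smul_add, smul_smul]
      have e5 : (-1 : ℤ) ^ (I.card + 1) * (-1 : ℤ) ^ I.card = -1 := by
        rw [pow_succ, mul_assoc, mul_comm (-1 : ℤ) _, ← mul_assoc, ← mul_pow]
        norm_num
      have e6 : (-1 : ℤ) ^ (I.card + 1) • augF A (c.ins l) y I d = augF A (c.ins l) y I d := by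
        by_cases hc1 : I.card = 1
        · rw [hc1]
          norm_num
        · rw [augF_ne _ y I d hc1, smul_zero]
      rw [e5, e6, neg_smul, one_smul]
      abel

theorem conc_deg_iff {R : Type u} [AddCommGroup R] [Module k R] (m : ℤ) (v : R) :
    (Dg.conc k R).IsDeg m v ↔ m = 0 ∨ v = 0 := by
  refine ⟨Dg.conc_cases, ?_⟩
  rintro (rfl | rfl)
  · exact Dg.conc_deg v
  · exact Dg.IsDeg.zero _

theorem s_deg_iff {V : Type u} [AddCommGroup V] [Module k V] (X : Dg k V) (m : ℤ) (v : V) :
    X.IsDeg m (X.s v) ↔ X.IsDeg m v :=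
  ⟨fun h => by
    have h1 := h.s
    rwa [Dg.s_s] at h1, fun h => h.s⟩

theorem Phi_deg : ∀ (L : List i) (hL : L.Nodup) (c : FS i) (u : Fam A) (m : ℤ),
    ((cC A.pa.pc L).X c).dg.IsDeg m (Phi A L c u) ↔
      ∀ (I : Finset i) (d : Ch i), I.Nonempty → (∀ x ∈ I, x ∈ L) → d.1 = c.1 ∪ ↑I →
        (I.card : ℤ) ≠ m + 1 → u I d = 0
  | [], _, c, u, m => by
    constructor
    · intro _ I d hI hIL
      obtain ⟨x, hx⟩ := hI
      exact absurd (hIL x hx) List.not_mem_nil
    · intro _
      exact Dg.IsDeg.zero _
  | l :: L, hL, c, u, m => by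
    have hl := (List.nodup_cons.1 hL).1
    have hL' := (List.nodup_cons.1 hL).2
    rw [Phi_cons]
    refine (co_deg).trans ?_
    rw [Phi_deg L hL' c u m, s_deg_iff, Phi_deg L hL' _ _ _]
    have e1 : (A.pa.pc.X (c.ins l)).dg.IsDeg m (u {l} (c.ins l)) ↔ m = 0 ∨ u {l} (c.ins l) = 0 :=
      conc_deg_iff (k := k) (R := A.A (c.ins l)) m _
    rw [e1]
    constructor
    · rintro ⟨h0, h1, h2⟩ I d hI hIL hd hc
      by_cases hlI : l ∈ I
      · have hI' : insert l (I.erase l) = I := Finset.insert_erase hlI
        by_cases he : I.erase l = ∅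
        · have h3 : I = {l} := by rw [← hI', he, insert_empty_eq]
          subst h3
          have h4 : d = c.ins l := by
            refine Subtype.ext (hd.trans ?_)
            rw [Finset.coe_singleton, Set.union_singleton]
            rfl
          subst h4
          rcases h1 with rfl | h1
          · exact absurd (by rw [Finset.card_singleton]; rfl) hc
          · exact h1
        · have h3 := h2 (I.erase l) d (Finset.nonempty_iff_ne_empty.2 he) (fun x hx =>
            (List.mem_cons.1 (hIL x (Finset.mem_of_mem_erase hx))).resolve_left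
              (Finset.ne_of_mem_erase hx)) (by
            rw [hd]
            change c.1 ∪ ↑I = insert l c.1 ∪ ↑(I.erase l)
            rw [Set.insert_union, ← Set.union_insert, ← Finset.coe_insert, hI']) (by
            intro h4
            have h5 := Finset.card_erase_add_one hlI
            omega)
          change u (insert l (I.erase l)) d = 0 at h3
          rwa [hI'] at h3
      · exact h0 I d hI (fun x hx => (List.mem_cons.1 (hIL x hx)).resolve_left
          (fun e => hlI (e ▸ hx))) hd hc
    · intro h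
      refine ⟨fun I d hI hIL hd hc => h I d hI (fun x hx => List.mem_cons_of_mem l (hIL x hx)) hd
        hc, ?_, fun I d hI hIL hd hc => ?_⟩
      · by_cases hm : m = 0
        · exact Or.inl hm
        · refine Or.inr (h {l} (c.ins l) (Finset.singleton_nonempty l) (fun x hx => by
            rw [Finset.mem_singleton.1 hx]
            exact List.mem_cons_self) ?_ ?_)
          · rw [Finset.coe_singleton, Set.union_singleton]
            rfl
          · rw [Finset.card_singleton]
            intro h1
            apply hm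
            push_cast at h1
            omega
      · refine h (insert l I) d (Finset.insert_nonempty l I) (fun x hx => ?_) ?_ ?_
        · rcases Finset.mem_insert.1 hx with rfl | hx
          · exact List.mem_cons_self
          · exact List.mem_cons_of_mem l (hIL x hx)
        · rw [hd, Finset.coe_insert]
          change insert l c.1 ∪ ↑I = c.1 ∪ insert l ↑I
          rw [Set.insert_union, Set.union_insert]
        · rw [card_ins hl hIL]
          push_cast
          omega

theorem Phi_inj (L : List i) (hL : L.Nodup) (c : FS i) (u : Fam A) (h : Phi A L c u = 0)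
    (I : Finset i) (d : Ch i) (hI : I.Nonempty) (hIL : ∀ x ∈ I, x ∈ L) (hd : d.1 = c.1 ∪ ↑I) :
    u I d = 0 := by
  refine (Phi_deg L hL c u I.card).1 ?_ I d hI hIL hd (by omega)
  rw [h]
  exact Dg.IsDeg.zero _

/-- the family which is `u0` on the `I` without `l`, `y` on `{l}`, `u1` on the `I ∪ l` -/
def glue (l : i) (c : Ch i) (u0 : Fam A) (y : A.A c) (u1 : Fam A) : Fam A := by
  classical
  exact fun I d => if l ∈ I then (if I.erase l = ∅ then (if h : c ≤ d then A.res h y else 0)
    else u1 (I.erase l) d) else u0 I d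

theorem glue_0 {l : i} {c : Ch i} {u0 : Fam A} {y : A.A c} {u1 : Fam A} {I : Finset i}
    (h : l ∉ I) (d : Ch i) : glue l c u0 y u1 I d = u0 I d := by
  unfold glue
  rw [if_neg h]

theorem glue_1 {l : i} {c : Ch i} {u0 : Fam A} {y : A.A c} {u1 : Fam A} {I : Finset i}
    (h : l ∈ I) (h1 : I.erase l = ∅) (d : Ch i) (hd : c ≤ d) :
    glue l c u0 y u1 I d = A.res hd y := by
  unfold glue
  rw [if_pos h, if_pos h1, dif_pos hd]

theorem glue_2 {l : i} {c : Ch i} {u0 : Fam A} {y : A.A c} {u1 : Fam A} {I : Finset i}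
    (h : l ∈ I) (h1 : I.erase l ≠ ∅) (d : Ch i) :
    glue l c u0 y u1 I d = u1 (I.erase l) d := by
  unfold glue
  rw [if_pos h, if_neg h1]

theorem Phi_surj : ∀ (L : List i) (hL : L.Nodup) (c : FS i) (x : ((cC A.pa.pc L).X c).V),
    ∃ u : Fam A, Cmp A L c u ∧ Phi A L c u = x
  | [], _, c, x => ⟨0, fun I d e h hI hIL => by
      obtain ⟨x, hx⟩ := hI
      exact absurd (hIL x hx) List.not_mem_nil, rfl⟩
  | l :: L, hL, c, x => by
    have hl := (List.nodup_cons.1 hL).1
    have hL' := (List.nodup_cons.1 hL).2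
    obtain ⟨⟨x0, y⟩, ξ⟩ := x
    obtain ⟨u0, h0, rfl⟩ := Phi_surj L hL' c x0
    obtain ⟨u1, h1, hξ⟩ := Phi_surj L hL' (c.ins l).fs (((cC A.pa.pc L).X (c.ins l).fs).dg.s ξ)
    have hy : ∃ y' : A.A (c.ins l), y' = y := ⟨y, rfl⟩
    obtain ⟨y', hy'⟩ := hy
    refine ⟨glue l (c.ins l) u0 y' u1, ?_, ?_⟩
    · intro I d e hde hI hIL hc hd
      by_cases hlI : l ∈ I
      · have hld : l ∈ d.1 := hd hlI
        have hcd : c.ins l ≤ d := Set.insert_subset hld hc
        by_cases he : I.erase l = ∅
        · rw [glue_1 hlI he d hcd, glue_1 hlI he e (hcd.trans hde), A.res_res]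
        · rw [glue_2 hlI he, glue_2 hlI he]
          exact h1 (I.erase l) d e hde (Finset.nonempty_iff_ne_empty.2 he) (fun x hx =>
            (List.mem_cons.1 (hIL x (Finset.mem_of_mem_erase hx))).resolve_left
              (Finset.ne_of_mem_erase hx)) hcd
              ((Finset.coe_subset.2 (Finset.erase_subset l I)).trans hd)
      · rw [glue_0 hlI, glue_0 hlI]
        exact h0 I d e hde hI (fun x hx => (List.mem_cons.1 (hIL x hx)).resolve_left
          (fun e => hlI (e ▸ hx))) hc hd
    · refine Prod.ext (Prod.ext ?_ ?_) ?_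
      · refine Phi_congr L c _ _ fun I d hI hIL hc hd => ?_
        exact glue_0 (fun h => hl (hIL l h)) d
      · refine Eq.trans ?_ hy'
        change glue l (c.ins l) u0 y' u1 {l} (c.ins l) = y'
        rw [glue_1 (Finset.mem_singleton_self l) (Finset.erase_singleton l) _ le_rfl, A.res_id]
      · change ((cC A.pa.pc L).X (c.ins l).fs).dg.s (Phi A L (c.ins l).fs
          (pl A l (glue l (c.ins l) u0 y' u1))) = ξ
        have e1 : Phi A L (c.ins l).fs (pl A l (glue l (c.ins l) u0 y' u1)) =
            Phi A L (c.ins l).fs u1 := by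
          refine Phi_congr L _ _ _ fun I d hI hIL hc hd => ?_
          change glue l (c.ins l) u0 y' u1 (insert l I) d = _
          have hlI : l ∉ I := fun h => hl (hIL l h)
          rw [glue_2 (Finset.mem_insert_self l I) (by
            rw [Finset.erase_insert hlI]
            exact hI.ne_empty), Finset.erase_insert hlI]
        rw [e1, hξ, Dg.s_s]

end Pool.Agent.MP_6e5bed_ag_GG
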