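import Pool.Agent.Lib.MP_6e5bed_ag_GG.TCa
import Pool.Agent.Lib.MP_6e5bed_ag_GG.TPhC
import Pool.Agent.Lib.MP_6e5bed_ag_GG.TBc
import Pool.Agent.Lib.MP_6e5bed_ag_GG.TFr
import Pool.Agent.Lib.MP_6e5bed_ag_SP.RepA

set_option autoImplicit false
set_option linter.unusedVariables false
set_option linter.unusedSectionVars false
set_option linter.style.haveILetI false

/-!
# MP_6e5bed_ag, THEOREM G: the dg algebra `TT (caOf h hq σ)` is the Čech dg algebra
-/

noncomputable section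

namespace Pool.Agent.MP_6e5bed_ag_GG

open MvPolynomial Pool.Agent.MP_6e5bed_ag_Pn Pool.Agent.MP_6e5bed_ag_NC
  Pool.Agent.MP_6e5bed_ag_NS Pool.Agent.MP_6e5bed_ag_PN
open Pool.Agent.MP_6e5bed_ag_SP (DG Rep RA repOf)

universe u

/-! ### Čech dg algebras in terms of bilinear maps -/

section cech

variable {ν : ℕ} {k : Type u} [Field k] {B : Finset (Fin (ν + 1)) → Type u} [∀ I, Ring (B I)]
  [∀ I, Algebra k (B I)] {r : ∀ I J : Finset (Fin (ν + 1)), I ⊆ J → B I →ₐ[k] B J}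

/-- The dg algebra `T` is the Čech dg algebra of `B`, `r`. -/
structure IsCechD (r : ∀ I J : Finset (Fin (ν + 1)), I ⊆ J → B I →ₐ[k] B J) (T : DGA k)
    (e : T.A →ₗ[k] ∀ I, B I) : Prop where
  inj : Function.Injective e
  range : ∀ c : ∀ I, B I, (∃ a, e a = c) ↔ c ∅ = 0
  one : ∀ I, e T.one I = if I.card = 1 then 1 else 0
  mul : ∀ a b I, e (T.mul a b) I = ∑ i ∈ I,
    r (I.filter (· ≤ i)) I (Finset.filter_subset _ _) (e a _) *
      r (I.filter (i ≤ ·)) I (Finset.filter_subset _ _) (e b _)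
  gr : ∀ (m : ℤ) a, T.dg.IsDeg m a ↔ ∀ I, e a I ≠ 0 → (I.card : ℤ) = m + 1
  d : ∀ a I, e (T.dg.d a) I = ∑ i ∈ I, (-1 : ℤ) ^ (I.filter (· < i)).card •
    r (I.erase i) I (Finset.erase_subset i I) (e a _)

theorem cechD_rep {T : Type u} [Ring T] [Algebra k T] {X : DG k T} {e : T →ₗ[k] ∀ I, B I}
    (h : IsCech r X e) {T' : DGA k} {E : T'.A →ₗ[k] ∀ I, B I} (h' : IsCechD r T' E) :
    Nonempty (Rep X T') := by
  have h1 : ∀ v : T, ∃ w : T'.A, E w = e v := fun v => (h'.range _).2 ((h.range _).1 ⟨v, rfl⟩)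
  have h2 : ∀ w : T'.A, ∃ v : T, e v = E w := fun w => (h.range _).2 ((h'.range _).1 ⟨w, rfl⟩)
  choose f hf using h1
  choose f' hf' using h2
  let F : T ≃ₗ[k] T'.A :=
    { toFun := f
      map_add' := fun v w => h'.inj (by rw [map_add, hf, hf, hf, map_add])
      map_smul' := fun s v => h'.inj (by rw [map_smul, hf, hf, map_smul]; rfl)
      invFun := f'
      left_inv := fun v => h.inj (by rw [hf', hf])
      right_inv := fun w => h'.inj (by rw [hf, hf']) }
  have hF : ∀ v, E (F v) = e v := hf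
  refine ⟨⟨F, ?_, fun a b => ?_, ⟨fun n v => ?_, fun v => ?_⟩⟩⟩
  · refine h'.inj (funext fun I => ?_)
    rw [hF, h.one, h'.one]
  · refine h'.inj (funext fun I => ?_)
    rw [hF, h.mul, h'.mul, hF, hF]
  · rw [h'.gr, hF]
    exact h.gr n v
  · refine h'.inj (funext fun I => ?_)
    rw [hF, h'.d, hF]
    exact h.d v I

theorem cechD_of {T' : DGA k} {E : T'.A →ₗ[k] ∀ I, B I} (h' : IsCechD r T' E) :
    ∃ e : RA T' →ₗ[k] ∀ I, B I, IsCech r (DG.of T') e := by
  refine ⟨E ∘ₗ (repOf T').e.toLinearMap, ?_, fun c => ?_, fun I => ?_, fun a b I => ?_,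
    fun m a => ?_, fun a I => ?_⟩
  · exact h'.inj.comp (repOf T').e.injective
  · rw [← h'.range]
    constructor
    · rintro ⟨a, rfl⟩
      exact ⟨_, rfl⟩
    · rintro ⟨a, rfl⟩
      obtain ⟨b, rfl⟩ := (repOf T').e.surjective a
      exact ⟨b, rfl⟩
  · change E ((repOf T').e 1) I = _
    rw [(repOf T').one, h'.one]
  · change E ((repOf T').e (a * b)) I = _
    rw [(repOf T').mul, h'.mul]
    rfl
  · exact ((repOf T').rep.mem m a).trans (h'.gr m _)
  · change E ((repOf T').e ((DG.of T').d a)) I = _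
    refine (congrFun (congrArg E ((repOf T').rep.d a)) I).trans ?_
    rw [h'.d]
    rfl

end cech

/-! ### The unit -/

section one

variable {k : Type u} [Field k] {i : Type} [Fintype i] [DecidableEq i] {A : CA k i}

/-- the family of the unit -/
def oneF (A : CA k i) : Fam A := fun I d => if I.card = 1 then 1 else 0

theorem Phi_one : ∀ (L : List i) (hL : L.Nodup) (c : FS i),
    Phi A L c (oneF A) = cU A.pa L c
  | [], _, c => rfl
  | l :: L, hL, c => by
    refine Prod.ext (Prod.ext (Phi_one L (List.nodup_cons.1 hL).2 c) ?_) ?_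
    · change oneF A {l} (c.ins l) = 1
      unfold oneF
      rw [if_pos (Finset.card_singleton l)]
    · change ((cC A.pa.pc L).X (c.ins l).fs).dg.s (Phi A L (c.ins l).fs (pl A l (oneF A))) = 0
      rw [Phi_zero' L _ (pl A l (oneF A)), map_zero]
      intro I d hI hIL _ _
      change oneF A (insert l I) d = 0
      unfold oneF
      rw [if_neg]
      rw [card_ins (List.nodup_cons.1 hL).1 hIL]
      have := hI.card_pos
      omega

end one

/-! ### The comparison -/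

variable {ν : ℕ} {k Γ : Type u} [Field k] [Ring Γ] [Algebra k Γ]
  [Algebra (MvPolynomial (Fin (ν + 1)) k) Γ] [IsScalarTower k (MvPolynomial (Fin (ν + 1)) k) Γ]
  {𝒢 : ℕ → Submodule k Γ} {i : Type} [Fintype i] [DecidableEq i]
  {B : Finset (Fin (ν + 1)) → Type u} [∀ I, Ring (B I)] [∀ I, Algebra k (B I)]
  {r : ∀ I J : Finset (Fin (ν + 1)), I ⊆ J → B I →ₐ[k] B J}
  {q : ∀ I : Finset (Fin (ν + 1)), ℕ → Γ → B I}

/-- the image of a finite set -/
def mp (σ : i ≃ Fin (ν + 1)) (I : Finset i) : Finset (Fin (ν + 1)) := I.map σ.toEmbedding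

theorem mem_mp {σ : i ≃ Fin (ν + 1)} {I : Finset i} {x : Fin (ν + 1)} :
    x ∈ mp σ I ↔ σ.symm x ∈ I := by
  unfold mp
  rw [Finset.mem_map_equiv]

theorem mp_sub {σ : i ≃ Fin (ν + 1)} {I : Finset i} {c : Set i} :
    mp σ I ⊆ tf σ c ↔ ↑I ⊆ c := by
  constructor
  · intro h x hx
    have h1 : σ x ∈ mp σ I := mem_mp.2 (by rw [Equiv.symm_apply_apply]; exact hx)
    have h2 := mem_tf.1 (h h1)
    rwa [Equiv.symm_apply_apply] at h2
  · intro h x hx
    exact mem_tf.2 (h (mem_mp.1 hx))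

theorem mp_eq {σ : i ≃ Fin (ν + 1)} {I : Finset i} {c : Set i} (h : c = ↑I) :
    mp σ I = tf σ c := by
  ext x
  rw [mem_mp, mem_tf, h]
  rfl

theorem mp_card (σ : i ≃ Fin (ν + 1)) (I : Finset i) : (mp σ I).card = I.card :=
  Finset.card_map _

/-- the preimage of a finite set -/
def mq (σ : i ≃ Fin (ν + 1)) (J : Finset (Fin (ν + 1))) : Finset i := J.map σ.symm.toEmbedding

theorem mem_mq {σ : i ≃ Fin (ν + 1)} {J : Finset (Fin (ν + 1))} {x : i} :
    x ∈ mq σ J ↔ σ x ∈ J := by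
  unfold mq
  rw [Finset.mem_map_equiv]
  rfl

theorem mp_mq (σ : i ≃ Fin (ν + 1)) (J : Finset (Fin (ν + 1))) : mp σ (mq σ J) = J := by
  ext x
  rw [mem_mp, mem_mq, Equiv.apply_symm_apply]

theorem mq_mp (σ : i ≃ Fin (ν + 1)) (I : Finset i) : mq σ (mp σ I) = I := by
  ext x
  rw [mem_mq, mem_mp, Equiv.symm_apply_apply]

/-- the chart of a nonempty finite set -/
def chJ (σ : i ≃ Fin (ν + 1)) (J : Finset (Fin (ν + 1))) (hJ : J.Nonempty) : Ch i :=
  ⟨↑(mq σ J), by
    obtain ⟨x, hx⟩ := hJ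
    exact ⟨σ.symm x, mem_mq.2 (by rw [Equiv.apply_symm_apply]; exact hx)⟩,
    Finset.finite_toSet _⟩

theorem tf_chJ (σ : i ≃ Fin (ν + 1)) (J : Finset (Fin (ν + 1))) (hJ : J.Nonempty) :
    tf σ (chJ σ J hJ).1 = J := by
  have h1 : mp σ (mq σ J) = tf σ (chJ σ J hJ).1 := mp_eq rfl
  rw [← h1, mp_mq]

variable (h : IsGr ν 𝒢) (hq : IsSec 𝒢 r q) (σ : i ≃ Fin (ν + 1))

/-- the family of restrictions of a family of sections -/
def UUt : (∀ I, B I) →ₗ[k] Fam (caOf h hq σ) where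
  toFun := fun a I d => by
    classical
    exact if hI : mp σ I ⊆ tf σ d.1 then r (mp σ I) (tf σ d.1) hI (a (mp σ I)) else 0
  map_add' := fun a b => by
    funext I d
    change (dite _ _ _ : B (tf σ d.1)) = (dite _ _ _ : B (tf σ d.1)) + (dite _ _ _ : B (tf σ d.1))
    by_cases hI : mp σ I ⊆ tf σ d.1
    · rw [dif_pos hI, dif_pos hI, dif_pos hI]
      exact map_add _ _ _
    · rw [dif_neg hI, dif_neg hI, dif_neg hI]
      exact (add_zero (0 : B (tf σ d.1))).symm
  map_smul' := fun s a => by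
    funext I d
    change (dite _ _ _ : B (tf σ d.1)) = s • (dite _ _ _ : B (tf σ d.1))
    by_cases hI : mp σ I ⊆ tf σ d.1
    · rw [dif_pos hI, dif_pos hI]
      exact map_smul _ _ _
    · rw [dif_neg hI, dif_neg hI]
      exact (smul_zero (A := B (tf σ d.1)) s).symm

theorem UUt_apply (a : ∀ I, B I) (I : Finset i) (d : Ch i) (hI : mp σ I ⊆ tf σ d.1) :
    UUt h hq σ a I d = r (mp σ I) (tf σ d.1) hI (a (mp σ I)) := dif_pos hI

theorem UUt_cmp (a : ∀ I, B I) (L : List i) (c : FS i) :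
    Cmp (caOf h hq σ) L c (UUt h hq σ a) := by
  intro I d e hde hI hIL hc hd
  rw [UUt_apply h hq σ a I d (mp_sub.2 hd), UUt_apply h hq σ a I e (mp_sub.2 (hd.trans hde))]
  exact r_r h hq _ _ _

variable (r) in
theorem r_congr {J J' K : Finset (Fin (ν + 1))} (e : J = J') (hJ : J ⊆ K) (hJ' : J' ⊆ K)
    (a : ∀ I, B I) : r J K hJ (a J) = r J' K hJ' (a J') := by
  subst e
  rfl

/-- the element of the Čech dg algebra -/
def E0 (L : List i) : (∀ I, B I) →ₗ[k] (cA (caOf h hq σ).pa L (FS.e i)).A :=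
  Phi (caOf h hq σ) L (FS.e i) ∘ₗ UUt h hq σ

theorem E0_inj {L : List i} (hL : L.Nodup) (hm : ∀ l, l ∈ L) (a : ∀ I, B I) (ha : a ∅ = 0)
    (h0 : E0 h hq σ L a = 0) : a = 0 := by
  funext J
  by_cases hJ : J.Nonempty
  · have h1 := Phi_inj L hL (FS.e i) (UUt h hq σ a) h0 (mq σ J) (chJ σ J hJ) (by
      obtain ⟨x, hx⟩ := hJ
      exact ⟨σ.symm x, mem_mq.2 (by rw [Equiv.apply_symm_apply]; exact hx)⟩)
      (fun x _ => hm x) (Set.empty_union _).symm
    have h2 : mp σ (mq σ J) = tf σ (chJ σ J hJ).1 := mp_eq rfl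
    rw [UUt_apply h hq σ a _ _ h2.le] at h1
    have h3 : r J J (Finset.Subset.refl J) (a J) = 0 := by
      have h4 := congrArg (r (tf σ (chJ σ J hJ).1) J (tf_chJ σ J hJ).le) h1
      have h5 : r (tf σ (chJ σ J hJ).1) J (tf_chJ σ J hJ).le
          (r (mp σ (mq σ J)) (tf σ (chJ σ J hJ).1) h2.le (a (mp σ (mq σ J)))) =
          r (mp σ (mq σ J)) J (mp_mq σ J).le (a (mp σ (mq σ J))) := r_r h hq _ _ _
      rw [← r_congr r (mp_mq σ J) (mp_mq σ J).le (Finset.Subset.refl J) a, ← h5]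
      exact h4.trans (map_zero _)
    rwa [r_self h hq] at h3
  · rw [Finset.not_nonempty_iff_eq_empty.1 hJ, ha]
    rfl

theorem E0_surj {L : List i} (hL : L.Nodup) (x : (cA (caOf h hq σ).pa L (FS.e i)).A) :
    ∃ a : ∀ I, B I, a ∅ = 0 ∧ E0 h hq σ L a = x := by
  classical
  obtain ⟨u, hu, rfl⟩ := Phi_surj (A := caOf h hq σ) L hL (FS.e i) x
  let a : ∀ I, B I := fun J => if hJ : J.Nonempty then
    r (tf σ (chJ σ J hJ).1) J (tf_chJ σ J hJ).le (u (mq σ J) (chJ σ J hJ)) else 0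
  have ha : ∀ J (hJ : J.Nonempty), a J =
    r (tf σ (chJ σ J hJ).1) J (tf_chJ σ J hJ).le (u (mq σ J) (chJ σ J hJ)) :=
      fun J hJ => dif_pos hJ
  refine ⟨a, dif_neg Finset.not_nonempty_empty, ?_⟩
  refine Phi_congr L (FS.e i) _ _ fun I d hI hIL _ hd => ?_
  have hJ : (mp σ I).Nonempty := by
    obtain ⟨x, hx⟩ := hI
    exact ⟨σ x, mem_mp.2 (by rw [Equiv.symm_apply_apply]; exact hx)⟩
  rw [UUt_apply h hq σ a I d (mp_sub.2 hd), ha _ hJ]
  have hcd : chJ σ (mp σ I) hJ ≤ d := by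
    change (↑(mq σ (mp σ I)) : Set i) ⊆ d.1
    rw [mq_mp]
    exact hd
  refine (r_r h hq _ _ _).trans ?_
  have h1 := hu (mq σ (mp σ I)) (chJ σ (mp σ I) hJ) d hcd (by rw [mq_mp]; exact hI)
    (by rw [mq_mp]; exact hIL) (Set.empty_subset _) subset_rfl
  refine Eq.trans h1 ?_
  rw [mq_mp]

theorem E0_one {L : List i} (hL : L.Nodup) :
    E0 h hq σ L (fun I => if I.card = 1 then 1 else 0) = cU (caOf h hq σ).pa L (FS.e i) := by
  rw [← Phi_one L hL]
  refine Phi_congr L (FS.e i) _ _ fun I d hI hIL _ hd => ?_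
  rw [UUt_apply h hq σ _ I d (mp_sub.2 hd)]
  unfold oneF
  rw [mp_card]
  split_ifs
  · exact map_one _
  · exact map_zero _

/-- the cup product of families of sections -/
def cupB (r : ∀ I J : Finset (Fin (ν + 1)), I ⊆ J → B I →ₐ[k] B J) (a b : ∀ I, B I) :
    ∀ I, B I := fun I => ∑ i ∈ I, r (I.filter (· ≤ i)) I (Finset.filter_subset _ _) (a _) *
      r (I.filter (i ≤ ·)) I (Finset.filter_subset _ _) (b _)

theorem E0_mul {L : List i} (hL : Dec σ L) (a b : ∀ I, B I) :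
    (cA (caOf h hq σ).pa L (FS.e i)).mul (E0 h hq σ L a) (E0 h hq σ L b) =
      E0 h hq σ L (cupB r a b) := by
  refine (Phi_mul σ.injective L hL (FS.e i) _ _ (UUt_cmp h hq σ a _ _)
    (UUt_cmp h hq σ b _ _)).trans ?_
  refine Phi_congr L (FS.e i) _ _ fun I d hI hIL _ hd => ?_
  rw [UUt_apply h hq σ (cupB r a b) I d (mp_sub.2 hd)]
  unfold cupB cup
  rw [map_sum]
  unfold mp
  rw [Finset.sum_map]
  refine Finset.sum_congr rfl fun j hj => ?_
  have e1 : (I.map σ.toEmbedding).filter (· ≤ σ.toEmbedding j) =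
      mp σ (I.filter (fun x => σ x ≤ σ j)) := Finset.filter_map
  have e2 : (I.map σ.toEmbedding).filter (σ.toEmbedding j ≤ ·) =
      mp σ (I.filter (fun x => σ j ≤ σ x)) := Finset.filter_map
  have s1 : mp σ (I.filter (fun x => σ x ≤ σ j)) ⊆ tf σ d.1 :=
    mp_sub.2 ((Finset.coe_subset.2 (Finset.filter_subset _ _)).trans hd)
  have s2 : mp σ (I.filter (fun x => σ j ≤ σ x)) ⊆ tf σ d.1 :=
    mp_sub.2 ((Finset.coe_subset.2 (Finset.filter_subset _ _)).trans hd)
  rw [UUt_apply h hq σ a _ d s1, UUt_apply h hq σ b _ d s2, map_mul, r_r h hq, r_r h hq]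
  exact congrArg₂ _ (r_congr r e1 _ _ a).symm (r_congr r e2 _ _ b).symm

/-- the differential of families of sections -/
def difB (r : ∀ I J : Finset (Fin (ν + 1)), I ⊆ J → B I →ₐ[k] B J) (a : ∀ I, B I) :
    ∀ I, B I := fun I => ∑ i ∈ I, (-1 : ℤ) ^ (I.filter (· < i)).card •
    r (I.erase i) I (Finset.erase_subset i I) (a _)

theorem E0_d {L : List i} (hL : Dec σ L) (a : ∀ I, B I) (ha : a ∅ = 0) :
    (cA (caOf h hq σ).pa L (FS.e i)).dg.d (E0 h hq σ L a) = E0 h hq σ L (difB r a) := by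
  refine (Phi_d L hL (FS.e i) _ (UUt_cmp h hq σ a _ _)).trans ?_
  refine Phi_congr L (FS.e i) _ _ fun I d hI hIL _ hd => ?_
  rw [UUt_apply h hq σ (difB r a) I d (mp_sub.2 hd)]
  unfold difB dF
  rw [map_sum]
  unfold mp
  rw [Finset.sum_map]
  refine Finset.sum_congr rfl fun j hj => ?_
  have e1 : (I.map σ.toEmbedding).filter (· < σ.toEmbedding j) =
      mp σ (I.filter (fun x => σ x < σ j)) := Finset.filter_map
  have e2 : (I.map σ.toEmbedding).erase (σ.toEmbedding j) = mp σ (I.erase j) :=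
    (Finset.map_erase _ _ _).symm
  have s1 : mp σ (I.erase j) ⊆ tf σ d.1 :=
    mp_sub.2 ((Finset.coe_subset.2 (Finset.erase_subset _ _)).trans hd)
  have h1 : r ((I.map σ.toEmbedding).erase (σ.toEmbedding j)) (tf σ d.1)
      ((Finset.erase_subset _ _).trans (mp_sub.2 hd)) (a _) =
      r (mp σ (I.erase j)) (tf σ d.1) s1 (a _) := r_congr r e2 _ _ a
  rw [map_zsmul, r_r h hq, h1, e1, mp_card]
  by_cases he : I.erase j = ∅
  · rw [if_pos he]
    have h2 : mp σ (I.erase j) = ∅ := by rw [he]; rfl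
    have h3 : r (mp σ (I.erase j)) (tf σ d.1) s1 (a _) =
      r ∅ (tf σ d.1) (Finset.empty_subset _) (a ∅) := r_congr r h2 _ _ a
    rw [h3, ha, map_zero, smul_zero]
    rfl
  · rw [if_neg he, UUt_apply h hq σ a _ d s1]
    rfl

theorem E0_deg {L : List i} (hL : L.Nodup) (hm : ∀ l, l ∈ L) (a : ∀ I, B I) (ha : a ∅ = 0)
    (m : ℤ) : (cA (caOf h hq σ).pa L (FS.e i)).dg.IsDeg m (E0 h hq σ L a) ↔
      ∀ J, a J ≠ 0 → (J.card : ℤ) = m + 1 := by
  refine (Phi_deg L hL (FS.e i) (UUt h hq σ a) m).trans ?_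
  constructor
  · intro h1 J hJ0
    by_contra hc
    have hJ : J.Nonempty := by
      rw [Finset.nonempty_iff_ne_empty]
      rintro rfl
      exact hJ0 ha
    have hI : (mq σ J).Nonempty := by
      obtain ⟨x, hx⟩ := hJ
      exact ⟨σ.symm x, mem_mq.2 (by rw [Equiv.apply_symm_apply]; exact hx)⟩
    have h2 := h1 (mq σ J) (chJ σ J hJ) hI (fun x _ => hm x) (Set.empty_union _).symm (by
      rw [← mp_card σ, mp_mq]
      exact hc)
    have h3 : mp σ (mq σ J) = tf σ (chJ σ J hJ).1 := mp_eq rfl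
    rw [UUt_apply h hq σ a _ _ h3.le] at h2
    apply hJ0
    have h4 : r J J (Finset.Subset.refl J) (a J) = 0 := by
      have h4 := congrArg (r (tf σ (chJ σ J hJ).1) J (tf_chJ σ J hJ).le) h2
      have h5 : r (tf σ (chJ σ J hJ).1) J (tf_chJ σ J hJ).le
          (r (mp σ (mq σ J)) (tf σ (chJ σ J hJ).1) h3.le (a (mp σ (mq σ J)))) =
          r (mp σ (mq σ J)) J (mp_mq σ J).le (a (mp σ (mq σ J))) := r_r h hq _ _ _
      rw [← r_congr r (mp_mq σ J) (mp_mq σ J).le (Finset.Subset.refl J) a, ← h5]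
      exact h4.trans (map_zero _)
    rwa [r_self h hq] at h4
  · intro h1 I d hI hIL hd hc
    have hd' : (↑I : Set i) ⊆ d.1 := by
      rw [hd]
      exact Set.subset_union_right
    rw [UUt_apply h hq σ a I d (mp_sub.2 hd')]
    have h2 : a (mp σ I) = 0 := by
      by_contra h3
      have h4 := h1 _ h3
      rw [mp_card] at h4
      exact hc h4
    rw [h2, map_zero]
    rfl

/-- The Čech dg algebra `cA` of `Γ~` with respect to the list of all indices in decreasing order is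
the Čech dg algebra of the sections. -/
theorem exists_cechD {L : List i} (hL : Dec σ L) (hm : ∀ l, l ∈ L) :
    ∃ E, IsCechD r (cA (caOf h hq σ).pa L (FS.e i)) E := by
  have hnd := hL.nodup
  choose f hf0 hf using E0_surj h hq σ hnd
  have huniq : ∀ (a : ∀ I, B I) (x), a ∅ = 0 → E0 h hq σ L a = x → f x = a := by
    intro a x ha hx
    have h1 : f x - a = 0 := by
      refine E0_inj h hq σ hnd hm _ ?_ ?_
      · rw [Pi.sub_apply, hf0, ha, sub_zero]
      · rw [map_sub, hf, hx, sub_self]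
    exact sub_eq_zero.1 h1
  let E : (cA (caOf h hq σ).pa L (FS.e i)).A →ₗ[k] ∀ I, B I :=
    { toFun := f
      map_add' := fun x y => huniq _ _ (by rw [Pi.add_apply, hf0, hf0, add_zero])
        (by rw [map_add, hf, hf])
      map_smul' := fun s x => huniq _ _ (by
        rw [Pi.smul_apply, hf0]
        exact smul_zero _) (by
        rw [RingHom.id_apply, map_smul, hf]) }
  refine ⟨E, ?_, fun c => ?_, fun I => ?_, fun a b I => ?_, fun m a => ?_, fun a I => ?_⟩
  · intro x y hxy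
    have hxy' : f x = f y := hxy
    rw [← hf x, ← hf y, hxy']
  · constructor
    · rintro ⟨x, rfl⟩
      exact hf0 x
    · intro hc
      exact ⟨E0 h hq σ L c, huniq _ _ hc rfl⟩
  · have h1 := huniq (fun I => if I.card = 1 then 1 else 0) _ (by
      rw [Finset.card_empty]
      exact if_neg (by norm_num)) (E0_one h hq σ hnd)
    exact congrFun h1 I
  · have h1 := huniq (cupB r (f a) (f b)) ((cA (caOf h hq σ).pa L (FS.e i)).mul a b)
      Finset.sum_empty (by
        rw [← E0_mul h hq σ hL, hf, hf])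
    exact congrFun h1 I
  · have h1 := E0_deg h hq σ hnd hm (f a) (hf0 a) m
    rw [hf] at h1
    exact h1
  · have h1 := huniq (difB r (f a)) ((cA (caOf h hq σ).pa L (FS.e i)).dg.d a)
      Finset.sum_empty (by
        rw [← E0_d h hq σ hL _ (hf0 a), hf])
    exact congrFun h1 I

/-- There is a numbering of the indices for which a given list is decreasing. -/
theorem exists_dec {L : List (Fin (ν + 1))} (hL : L.Nodup) (hm : ∀ l, l ∈ L) :
    ∃ σ : Fin (ν + 1) ≃ Fin (ν + 1), Dec σ L := by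
  have e := hL.getEquivOfForallMemList L hm
  have hlen : L.length = ν + 1 := by
    have h1 := Fintype.card_congr e
    rwa [Fintype.card_fin, Fintype.card_fin] at h1
  let e' := hL.getEquivOfForallMemList L hm
  let σ : Fin (ν + 1) ≃ Fin (ν + 1) := (e'.symm.trans (finCongr hlen)).trans Fin.revPerm
  refine ⟨σ, List.pairwise_iff_get.2 fun a b hab => ?_⟩
  have h1 : ∀ a : Fin L.length, e'.symm (L.get a) = a := fun a => by
    rw [Equiv.symm_apply_eq]
    rfl
  change Fin.rev (finCongr hlen (e'.symm (L.get b))) < Fin.rev (finCongr hlen (e'.symm (L.get a)))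
  rw [h1, h1, Fin.rev_lt_rev]
  exact hab

end Pool.Agent.MP_6e5bed_ag_GG
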