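import Pool.Agent.Lib.MP_6e5bed_ag_GG.TRho

set_option autoImplicit false
set_option linter.unusedVariables false
set_option linter.unusedSectionVars false

/-!
# MP_6e5bed_ag, THEOREM G: dehomogenisation
-/

noncomputable section

namespace Pool.Agent.MP_6e5bed_ag_GG

open MvPolynomial Pool.Agent.MP_6e5bed_ag_Pn

universe u

variable {ν : ℕ} {k Γ : Type u} [Field k] [Ring Γ] [Algebra k Γ]
  [Algebra (MvPolynomial (Fin (ν + 1)) k) Γ] [IsScalarTower k (MvPolynomial (Fin (ν + 1)) k) Γ]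
  {𝒢 : ℕ → Submodule k Γ} {i : Type} [Fintype i] [DecidableEq i]
  {B : Finset (Fin (ν + 1)) → Type u} [∀ I, Ring (B I)] [∀ I, Algebra k (B I)]
  {r : ∀ I J : Finset (Fin (ν + 1)), I ⊆ J → B I →ₐ[k] B J}
  {q : ∀ I : Finset (Fin (ν + 1)), ℕ → Γ → B I}

/-- induction over homogeneous elements -/
theorem hom_ind (h : IsGr ν 𝒢) {P : Γ → Prop} (h1 : ∀ m, ∀ a ∈ 𝒢 m, P a) (h0 : P 0)
    (h2 : ∀ a b, P a → P b → P (a + b)) (a : Γ) : P a := by
  have ha : a ∈ ⨆ m, 𝒢 m := by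
    rw [h.int.submodule_iSup_eq_top]
    trivial
  exact Submodule.iSup_induction 𝒢 (motive := P) ha h1 h0 h2

/-- the exponents `m` on `c` without `g` -/
def eg (σ : i ≃ Fin (ν + 1)) (c : Set i) (g : i) (m : ℕ) (x : Fin (ν + 1)) : ℕ := by
  classical
  exact if σ.symm x ∈ c ∧ σ.symm x ≠ g then m else 0

theorem eg_add (σ : i ≃ Fin (ν + 1)) (c : Set i) (g : i) (m n : ℕ) (x : Fin (ν + 1)) :
    eg σ c g m x + eg σ c g n x = eg σ c g (m + n) x := by
  unfold eg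
  split_ifs <;> rfl

theorem sum_eg (σ : i ≃ Fin (ν + 1)) {c : Set i} {g : i} (hg : g ∈ c) (m : ℕ) :
    ∑ x, eg σ c g m x + m = m * (tf σ c).card := by
  classical
  have h1 : ∀ x, eg σ c g m x = if x ∈ (tf σ c).erase (σ g) then m else 0 := by
    intro x
    unfold eg
    have h2 : (σ.symm x ∈ c ∧ σ.symm x ≠ g) ↔ x ∈ (tf σ c).erase (σ g) := by
      rw [Finset.mem_erase, mem_tf, and_comm, Ne, Ne, Equiv.symm_apply_eq]
    by_cases hx : x ∈ (tf σ c).erase (σ g)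
    · rw [if_pos hx, if_pos (h2.2 hx)]
    · rw [if_neg hx, if_neg (fun hh => hx (h2.1 hh))]
  have h3 : σ g ∈ tf σ c := mem_tf.2 (by rw [Equiv.symm_apply_apply]; exact hg)
  rw [Finset.sum_congr rfl fun x _ => h1 x, Finset.sum_ite_mem, Finset.univ_inter,
    Finset.sum_const, smul_eq_mul, ← Finset.card_erase_add_one h3, Nat.mul_add, Nat.mul_one,
    Nat.mul_comm]

theorem eg_mem (h : IsGr ν 𝒢) (σ : i ≃ Fin (ν + 1)) {c : Set i} {g : i} (hg : g ∈ c) {m : ℕ}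
    {a : Γ} (ha : a ∈ 𝒢 m) : mm k (eg σ c g m) • a ∈ 𝒢 (m * (tf σ c).card) :=
  mm_mem h _ ha (sum_eg σ hg m)

/-- the dehomogenisation of homogeneous elements of degree `m` -/
def dl (h : IsGr ν 𝒢) (hq : IsSec 𝒢 r q) (σ : i ≃ Fin (ν + 1)) {c : Set i} {g : i} (hg : g ∈ c)
    (m : ℕ) : 𝒢 m →ₗ[k] B (tf σ c) where
  toFun := fun a => q (tf σ c) m (mm k (eg σ c g m) • a.1)
  map_add' := fun a b => by
    have h1 : ((a + b : 𝒢 m) : Γ) = a.1 + b.1 := rfl
    rw [h1, smul_add, hq.add _ _ _ _ (eg_mem h σ hg a.2) (eg_mem h σ hg b.2)]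
  map_smul' := fun s a => by
    have h1 : ((s • a : 𝒢 m) : Γ) = s • a.1 := rfl
    rw [h1, smul_comm, hq.q_smul h s (eg_mem h σ hg a.2)]
    rfl

/-- the dehomogenisation as a linear map -/
def dL (h : IsGr ν 𝒢) (hq : IsSec 𝒢 r q) (σ : i ≃ Fin (ν + 1)) {c : Set i} {g : i}
    (hg : g ∈ c) : Γ →ₗ[k] B (tf σ c) :=
  DirectSum.toModule k ℕ (B (tf σ c)) (fun m => dl h hq σ hg m) ∘ₗ
    (LinearEquiv.ofBijective (DirectSum.coeLinearMap 𝒢) h.int).symm.toLinearMap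

theorem dL_apply (h : IsGr ν 𝒢) (hq : IsSec 𝒢 r q) (σ : i ≃ Fin (ν + 1)) {c : Set i} {g : i}
    (hg : g ∈ c) {m : ℕ} {a : Γ} (ha : a ∈ 𝒢 m) :
    dL h hq σ hg a = q (tf σ c) m (mm k (eg σ c g m) • a) := by
  have h1 : (LinearEquiv.ofBijective (DirectSum.coeLinearMap 𝒢) h.int).symm a =
      DirectSum.lof k ℕ (fun n => 𝒢 n) m ⟨a, ha⟩ := by
    rw [LinearEquiv.symm_apply_eq, LinearEquiv.ofBijective_apply, DirectSum.coeLinearMap_lof]
  change DirectSum.toModule k ℕ (B (tf σ c)) (fun m => dl h hq σ hg m)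
    ((LinearEquiv.ofBijective (DirectSum.coeLinearMap 𝒢) h.int).symm a) = _
  rw [h1, DirectSum.toModule_lof]
  rfl

theorem dL_one (h : IsGr ν 𝒢) (hq : IsSec 𝒢 r q) (σ : i ≃ Fin (ν + 1)) {c : Set i} {g : i}
    (hg : g ∈ c) : dL h hq σ hg 1 = 1 := by
  have h1 : mm k (eg σ c g 0) = 1 := by
    rw [← mm_zero (ν := ν)]
    congr 1
    funext x
    unfold eg
    split_ifs <;> rfl
  have h2 := hq.const (tf σ c) 1
  rw [map_one, map_one] at h2
  rw [dL_apply h hq σ hg h.one, h1, one_smul, h2]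

theorem dL_mul (h : IsGr ν 𝒢) (hq : IsSec 𝒢 r q) (σ : i ≃ Fin (ν + 1)) {c : Set i} {g : i}
    (hg : g ∈ c) (a b : Γ) : dL h hq σ hg (a * b) = dL h hq σ hg a * dL h hq σ hg b := by
  revert b
  induction a using hom_ind h with
  | h1 m a ha =>
    intro b
    induction b using hom_ind h with
    | h1 n b hb =>
      rw [dL_apply h hq σ hg ha, dL_apply h hq σ hg hb, dL_apply h hq σ hg (h.mul _ _ _ _ ha hb),
        ← hq.mul _ _ _ _ _ (eg_mem h σ hg ha) (eg_mem h σ hg hb), smul_mul_assoc,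
        mul_smul_comm, ← mul_smul, mm_mul]
      congr 2
      congr 1
      funext x
      exact (eg_add σ c g m n x).symm
    | h0 => rw [mul_zero, map_zero, mul_zero]
    | h2 b b' hb hb' => rw [mul_add, map_add, map_add, mul_add, hb, hb']
  | h0 =>
    intro b
    rw [zero_mul, map_zero, zero_mul]
  | h2 a a' ha ha' =>
    intro b
    rw [add_mul, map_add, map_add, add_mul, ha, ha']

/-- The dehomogenisation `a ↦ a / x_g ^ m`. -/
def deh (h : IsGr ν 𝒢) (hq : IsSec 𝒢 r q) (σ : i ≃ Fin (ν + 1)) {c : Set i} {g : i}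
    (hg : g ∈ c) : Γ →ₐ[k] B (tf σ c) :=
  AlgHom.ofLinearMap (dL h hq σ hg) (dL_one h hq σ hg) (dL_mul h hq σ hg)

theorem deh_apply (h : IsGr ν 𝒢) (hq : IsSec 𝒢 r q) (σ : i ≃ Fin (ν + 1)) {c : Set i} {g : i}
    (hg : g ∈ c) {m : ℕ} {a : Γ} (ha : a ∈ 𝒢 m) :
    deh h hq σ hg a = q (tf σ c) m (mm k (eg σ c g m) • a) := dL_apply h hq σ hg ha

/-- the variables are mapped to the `x_l / x_g` -/
theorem deh_X (h : IsGr ν 𝒢) (hq : IsSec 𝒢 r q) (σ : i ≃ Fin (ν + 1)) {c : Set i} {g : i}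
    (hg : g ∈ c) (x : Fin (ν + 1)) :
    deh h hq σ hg (algebraMap (MvPolynomial (Fin (ν + 1)) k) Γ (X x)) =
      rho h hq σ c (tt k (σ.symm x) hg) := by
  have h1 : NN c (ex (σ.symm x) g) 1 := by
    have h2 := nn_nsmul (c := c) (σ.symm x) hg 1
    rwa [one_smul] at h2
  have h2 : rho h hq σ c (tt k (σ.symm x) hg) = Mq k q σ c (ex (σ.symm x) g) 1 :=
    rho_mon h hq σ (isEx_ex _ hg) h1
  rw [h2, deh_apply h hq σ hg (h.var x)]
  unfold Mq
  rw [Algebra.algebraMap_eq_smul_one, ← mul_smul, ← mm_X, mm_mul]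
  congr 2
  congr 1
  funext y
  have h3 : ex (σ.symm x) g (σ.symm y) = (if y = x then 1 else 0) -
      if σ.symm y = g then 1 else 0 := by
    rw [ex_apply]
    congr 1
    by_cases hy : y = x
    · rw [if_pos hy, if_pos (congrArg σ.symm hy)]
    · rw [if_neg hy, if_neg (fun hh => hy (σ.symm.injective hh))]
  by_cases hy : σ.symm y ∈ c
  · have h4 := eo_pos h1 hy
    rw [h3] at h4
    unfold eg
    by_cases hyg : σ.symm y = g
    · rw [if_neg (fun hh => hh.2 hyg)]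
      rw [if_pos hyg] at h4
      split_ifs at h4 ⊢ <;> omega
    · rw [if_pos ⟨hy, hyg⟩]
      rw [if_neg hyg] at h4
      split_ifs at h4 ⊢ <;> omega
  · have h4 := eo_neg h1 hy
    rw [h3] at h4
    unfold eg
    have hyg : σ.symm y ≠ g := fun hh => hy (by rw [hh]; exact hg)
    rw [if_neg (fun hh => hy hh.1)]
    rw [if_neg hyg] at h4
    split_ifs at h4 ⊢ <;> omega

/-- polynomials -/
theorem deh_algebraMap (h : IsGr ν 𝒢) (hq : IsSec 𝒢 r q) (σ : i ≃ Fin (ν + 1)) {c : Set i}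
    {g : i} (hg : g ∈ c) (p : MvPolynomial (Fin (ν + 1)) k) :
    deh h hq σ hg (algebraMap (MvPolynomial (Fin (ν + 1)) k) Γ p) =
      rho h hq σ c (aeval (fun x => tt k (σ.symm x) hg) p) := by
  induction p using MvPolynomial.induction_on with
  | C s =>
    have h1 : algebraMap (MvPolynomial (Fin (ν + 1)) k) Γ (C s) = algebraMap k Γ s := by
      rw [IsScalarTower.algebraMap_apply k (MvPolynomial (Fin (ν + 1)) k) Γ]
      rfl
    rw [h1, AlgHom.commutes, ← MvPolynomial.algebraMap_eq, AlgHom.commutes, AlgHom.commutes]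
  | add p p' hp hp' => rw [map_add, map_add, map_add, map_add, hp, hp']
  | mul_X p x hp => rw [map_mul, map_mul, map_mul, map_mul, hp, deh_X, aeval_X]

theorem deh_smul (h : IsGr ν 𝒢) (hq : IsSec 𝒢 r q) (σ : i ≃ Fin (ν + 1)) {c : Set i}
    {g : i} (hg : g ∈ c) (p : MvPolynomial (Fin (ν + 1)) k) (a : Γ) :
    deh h hq σ hg (p • a) =
      rho h hq σ c (aeval (fun x => tt k (σ.symm x) hg) p) * deh h hq σ hg a := by
  rw [Algebra.smul_def, map_mul, deh_algebraMap]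

/-- the exponents of `x_c / x_g ^ |c|` -/
def eu (σ : i ≃ Fin (ν + 1)) (c : Set i) (g : i) (m : ℤ) (j : i) : ℤ := by
  classical
  exact (if j ∈ c then m else 0) - if j = g then m * (tf σ c).card else 0

theorem sum_eu (σ : i ≃ Fin (ν + 1)) (c : Set i) (g : i) (m : ℤ) : ∑ j, eu σ c g m j = 0 := by
  classical
  unfold eu
  rw [Finset.sum_sub_distrib, Finset.sum_ite_eq' Finset.univ g, if_pos (Finset.mem_univ g)]
  have h1 : ∑ j : i, (if j ∈ c then m else 0) = ∑ x, if x ∈ tf σ c then m else 0 := by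
    rw [← Equiv.sum_comp σ (fun x => if x ∈ tf σ c then m else 0)]
    refine Finset.sum_congr rfl fun j _ => ?_
    have h2 : σ j ∈ tf σ c ↔ j ∈ c := by rw [mem_tf, Equiv.symm_apply_apply]
    by_cases hj : j ∈ c
    · rw [if_pos hj, if_pos (h2.2 hj)]
    · rw [if_neg hj, if_neg (fun hh => hj (h2.1 hh))]
  rw [h1, Finset.sum_ite_mem, Finset.univ_inter, Finset.sum_const, nsmul_eq_mul, mul_comm,
    sub_self]

theorem isEx_eu (σ : i ≃ Fin (ν + 1)) {c : Set i} {g : i} (hg : g ∈ c) (m : ℤ) :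
    IsEx c 0 (eu σ c g m) := by
  refine ⟨sum_eu σ c g m, fun j hj => ?_⟩
  have hjg : j ≠ g := fun hh => hj (by rw [hh]; exact hg)
  unfold eu
  rw [if_neg hj, if_neg hjg, sub_zero]

theorem nn_eu (σ : i ≃ Fin (ν + 1)) {c : Set i} {g : i} (hg : g ∈ c) (m : ℕ) :
    NN c (eu σ c g m) (m * (tf σ c).card) := by
  refine ⟨(isEx_eu σ hg m).2, fun j hj => ?_⟩
  unfold eu
  rw [if_pos hj]
  push_cast
  have h1 : (0 : ℤ) ≤ m * (tf σ c).card := by positivity
  split_ifs <;> omega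

/-- The dehomogenisation of `a` is a multiple of the fraction `a / x_c ^ m`. -/
theorem q_mul_eu (h : IsGr ν 𝒢) (hq : IsSec 𝒢 r q) (σ : i ≃ Fin (ν + 1)) {c : Set i}
    {g : i} (hg : g ∈ c) {m : ℕ} {a : Γ} (ha : a ∈ 𝒢 (m * (tf σ c).card)) :
    rho h hq σ c ⟨mon k (eu σ c g m), mon_mem (isEx_eu σ hg m)⟩ * q (tf σ c) m a =
      deh h hq σ hg a := by
  classical
  rw [rho_mon h hq σ (isEx_eu σ hg m) (nn_eu σ hg m), Mq_mul_q h hq σ (nn_eu σ hg m)
    (sum_eu σ c g m) ha, deh_apply h hq σ hg ha,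
    ← hq.step_pow h m (eg_mem h σ hg ha), ← mul_smul, xp_mm, mm_mul]
  congr 2
  congr 1
  funext x
  have e1 : eu σ c g m (σ.symm x) = (if σ.symm x ∈ c then (m : ℤ) else 0) -
      if σ.symm x = g then ((m * (tf σ c).card : ℕ) : ℤ) else 0 := by
    unfold eu
    push_cast
    rfl
  by_cases hx : σ.symm x ∈ c
  · have h1 := eo_pos (nn_eu σ hg m) hx
    rw [if_pos (mem_tf.2 hx)]
    rw [e1, if_pos hx] at h1
    unfold eg
    by_cases hxg : σ.symm x = g
    · rw [if_neg (fun hh => hh.2 hxg)]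
      rw [if_pos hxg] at h1
      omega
    · rw [if_pos ⟨hx, hxg⟩]
      rw [if_neg hxg] at h1
      omega
  · have h1 := eo_neg (nn_eu σ hg m) hx
    have hxg : σ.symm x ≠ g := fun hh => hx (by rw [hh]; exact hg)
    rw [if_neg (fun hh => hx (mem_tf.1 hh))]
    rw [e1, if_neg hx, if_neg hxg] at h1
    unfold eg
    rw [if_neg (fun hh => hx hh.1)]
    omega

theorem mon_eu (σ : i ≃ Fin (ν + 1)) {c : Set i} {g : i} (hg : g ∈ c) (m : ℤ) :
    (⟨mon k (eu σ c g (-m)), mon_mem (isEx_eu σ hg (-m))⟩ : RR k c) *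
      ⟨mon k (eu σ c g m), mon_mem (isEx_eu σ hg m)⟩ = 1 := by
  refine Subtype.ext ?_
  change mon k (eu σ c g (-m)) * mon k (eu σ c g m) = mon k 0
  rw [mon_mul]
  congr 1
  funext j
  rw [Pi.add_apply, Pi.zero_apply]
  unfold eu
  split_ifs <;> ring

/-- Every fraction is a multiple of a dehomogenisation. -/
theorem q_eq_deh (h : IsGr ν 𝒢) (hq : IsSec 𝒢 r q) (σ : i ≃ Fin (ν + 1)) {c : Set i}
    {g : i} (hg : g ∈ c) {m : ℕ} {a : Γ} (ha : a ∈ 𝒢 (m * (tf σ c).card)) :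
    q (tf σ c) m a = rho h hq σ c ⟨mon k (eu σ c g (-m)), mon_mem (isEx_eu σ hg (-m))⟩ *
      deh h hq σ hg a := by
  rw [← q_mul_eu h hq σ hg ha, ← mul_assoc, ← map_mul, mon_eu σ hg, map_one, one_mul]

end Pool.Agent.MP_6e5bed_ag_GG
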