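import Pool.Agent.Lib.MP_6e5bed_ag_GG.TCa

set_option autoImplicit false
set_option linter.unusedVariables false
set_option linter.unusedSectionVars false

/-!
# MP_6e5bed_ag, THEOREM G: dehomogenisation to the charts of `caOf h hq σ`
-/

noncomputable section

namespace Pool.Agent.MP_6e5bed_ag_GG

open MvPolynomial Pool.Agent.MP_6e5bed_ag_Pn

universe u

variable {ν : ℕ} {k Γ : Type u} [Field k] [Ring Γ] [Algebra k Γ]
  [Algebra (MvPolynomial (Fin (ν + 1)) k) Γ] [IsScalarTower k (MvPolynomial (Fin (ν + 1)) k) Γ]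
  {𝒢 : ℕ → Submodule k Γ} {i : Type} [Fintype i] [DecidableEq i]
  {B : Finset (Fin (ν + 1)) → Type u} [∀ I, Ring (B I)] [∀ I, Algebra k (B I)]
  {r : ∀ I J : Finset (Fin (ν + 1)), I ⊆ J → B I →ₐ[k] B J}
  {q : ∀ I : Finset (Fin (ν + 1)), ℕ → Γ → B I}

theorem mon_eu' (σ : i ≃ Fin (ν + 1)) {c : Set i} {g : i} (hg : g ∈ c) (m : ℤ) :
    (⟨mon k (eu σ c g m), mon_mem (isEx_eu σ hg m)⟩ : RR k c) *
      ⟨mon k (eu σ c g (-m)), mon_mem (isEx_eu σ hg (-m))⟩ = 1 := by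
  rw [mul_comm]
  exact mon_eu σ hg m

/-- The dehomogenisation `x_g ↦ 1` to the chart `c`, `g ∈ c`. -/
theorem exists_deh (h : IsGr ν 𝒢) (hq : IsSec 𝒢 r q) (σ : i ≃ Fin (ν + 1)) (c : Ch i) {g : i}
    (hg : g ∈ c.1) : ∃ δ : Γ →+* (caOf h hq σ).A c,
      (∀ p : MvPolynomial (Fin (ν + 1)) k, δ (algebraMap (MvPolynomial (Fin (ν + 1)) k) Γ p) =
        algebraMap (RR k c.1) ((caOf h hq σ).A c) (aeval (fun x => tt k (σ.symm x) hg) p)) ∧
      ∀ a : (caOf h hq σ).A c, ∃ f f' : RR k c.1, f' * f = 1 ∧ ∃ b : Γ, a = f • δ b := by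
  refine ⟨(deh h hq σ hg).toRingHom, fun p => deh_algebraMap h hq σ hg p, fun a => ?_⟩
  obtain ⟨m, a, ha, rfl⟩ := hq.surj _ a
  exact ⟨_, _, mon_eu' σ hg m, a, q_eq_deh h hq σ hg ha⟩

/-- The dehomogenisation `x_g ↦ 1` to the chart `{g}` is surjective. -/
theorem exists_deh1 (h : IsGr ν 𝒢) (hq : IsSec 𝒢 r q) (σ : i ≃ Fin (ν + 1)) (g : i) :
    ∃ δ : Γ →+* (caOf h hq σ).A (Ch.sgl g), Function.Surjective δ ∧
      ∀ p : MvPolynomial (Fin (ν + 1)) k, δ (algebraMap (MvPolynomial (Fin (ν + 1)) k) Γ p) =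
        algebraMap (RR k (Ch.sgl g).1) ((caOf h hq σ).A (Ch.sgl g))
          (aeval (fun x => tt k (σ.symm x) (Set.mem_singleton g)) p) := by
  have hg : g ∈ (Ch.sgl g).1 := Set.mem_singleton g
  refine ⟨(deh h hq σ hg).toRingHom, fun a => ?_, fun p => deh_algebraMap h hq σ hg p⟩
  obtain ⟨m, a, ha, rfl⟩ := hq.surj _ a
  refine ⟨a, ?_⟩
  change deh h hq σ hg a = _
  rw [q_eq_deh h hq σ hg ha]
  have h1 : eu σ (Ch.sgl g).1 g (-(m : ℤ)) = 0 := by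
    classical
    have h2 : (tf σ (Ch.sgl g).1).card = 1 := by
      rw [Finset.card_eq_one]
      refine ⟨σ g, ?_⟩
      ext x
      rw [mem_tf, Finset.mem_singleton, ← Equiv.symm_apply_eq]
      exact Set.mem_singleton_iff
    funext j
    unfold eu
    rw [h2]
    by_cases hj : j = g
    · rw [if_pos (show j ∈ (Ch.sgl g).1 from hj), if_pos hj]
      simp
    · rw [if_neg (show j ∉ (Ch.sgl g).1 from hj), if_neg hj]
      simp
  have h3 : (⟨mon k (eu σ (Ch.sgl g).1 g (-(m : ℤ))), mon_mem (isEx_eu σ hg (-m))⟩ :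
      RR k (Ch.sgl g).1) = 1 := by
    refine Subtype.ext ?_
    change mon k (eu σ (Ch.sgl g).1 g (-(m : ℤ))) = 1
    rw [h1]
    rfl
  rw [h3, map_one, one_mul]

end Pool.Agent.MP_6e5bed_ag_GG
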