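import Pool.Agent.Lib.MP_6e5bed_ag_GG.TSec

set_option autoImplicit false
set_option linter.unusedSectionVars false

/-!
# MP_6e5bed_ag, THEOREM G: base change of graded algebras

This is `Lib/MP_6e5bed_ag_NS/GrE.lean`, `GrI.lean` with `ν + 1` variables.
-/

noncomputable section

namespace Pool.Agent.MP_6e5bed_ag_Pn

open MvPolynomial
open scoped TensorProduct

universe u

section

variable {ν : ℕ} {k : Type u} [Field k] (K : Type u) [Field K] [Algebra k K]
  (Γ : Type u) [Ring Γ] [Algebra k Γ] [Algebra (MvPolynomial (Fin (ν + 1)) k) Γ]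
  [IsScalarTower k (MvPolynomial (Fin (ν + 1)) k) Γ]

/-- the base change `K ⊗ Γ` -/
def GK (k : Type u) [Field k] (K : Type u) [Field K] [Algebra k K] (Γ : Type u) [Ring Γ]
    [Algebra k Γ] : Type u := K ⊗[k] Γ

instance : Ring (GK k K Γ) := inferInstanceAs (Ring (K ⊗[k] Γ))

instance : Algebra K (GK k K Γ) := inferInstanceAs (Algebra K (K ⊗[k] Γ))

instance : Algebra k (GK k K Γ) := inferInstanceAs (Algebra k (K ⊗[k] Γ))

instance : IsScalarTower k K (GK k K Γ) := inferInstanceAs (IsScalarTower k K (K ⊗[k] Γ))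

/-- `a ↦ 1 ⊗ a` -/
def GK.inc : Γ →ₐ[k] GK k K Γ := Algebra.TensorProduct.includeRight

/-- the variables are central -/
theorem GK.comm (i : Fin (ν + 1)) (z : GK k K Γ) :
    GK.inc K Γ (algebraMap (MvPolynomial (Fin (ν + 1)) k) Γ (X i)) * z =
      z * GK.inc K Γ (algebraMap (MvPolynomial (Fin (ν + 1)) k) Γ (X i)) := by
  have key : ∀ (x0 : Γ), (∀ b, x0 * b = b * x0) → ∀ w : K ⊗[k] Γ,
      ((1 : K) ⊗ₜ[k] x0 : K ⊗[k] Γ) * w = w * ((1 : K) ⊗ₜ[k] x0) := by
    intro x0 hx w
    induction w using TensorProduct.induction_on with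
    | zero => rw [mul_zero, zero_mul]
    | tmul a b =>
      rw [Algebra.TensorProduct.tmul_mul_tmul, Algebra.TensorProduct.tmul_mul_tmul, one_mul,
        mul_one, hx]
    | add x y hx hy => rw [mul_add, add_mul, hx, hy]
  exact key _ (fun b => Algebra.commutes _ _) z

/-- The structure map `K[x_0, x_1, x_2] → K ⊗ Γ`. -/
theorem GK.exists_map : ∃ θ : MvPolynomial (Fin (ν + 1)) K →ₐ[K] GK k K Γ,
    (∀ p z, θ p * z = z * θ p) ∧
      ∀ i, θ (X i) = GK.inc K Γ (algebraMap (MvPolynomial (Fin (ν + 1)) k) Γ (X i)) := by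
  refine ⟨(Subalgebra.center K (GK k K Γ)).val.comp
    (aeval (fun i => (⟨GK.inc K Γ (algebraMap (MvPolynomial (Fin (ν + 1)) k) Γ (X i)),
      Subalgebra.mem_center_iff.2 fun z => (GK.comm K Γ i z).symm⟩ :
        Subalgebra.center K (GK k K Γ)))), fun p z => ?_, fun i => ?_⟩
  · exact (Subalgebra.mem_center_iff.1 (Subtype.prop
      (aeval (fun i => (⟨GK.inc K Γ (algebraMap (MvPolynomial (Fin (ν + 1)) k) Γ (X i)),
      Subalgebra.mem_center_iff.2 fun z => (GK.comm K Γ i z).symm⟩ :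
        Subalgebra.center K (GK k K Γ))) p)) z).symm
  · rw [AlgHom.comp_apply, aeval_X]
    rfl

instance : Algebra (MvPolynomial (Fin (ν + 1)) K) (GK k K Γ) :=
  (GK.exists_map K Γ).choose.toRingHom.toAlgebra' (GK.exists_map K Γ).choose_spec.1

instance : IsScalarTower K (MvPolynomial (Fin (ν + 1)) K) (GK k K Γ) :=
  ⟨fun s p z => by
    have h1 : (s • p) • z = (GK.exists_map K Γ).choose (s • p) * z := rfl
    have h2 : p • z = (GK.exists_map K Γ).choose p * z := rfl
    rw [h1, h2, map_smul, smul_mul_assoc]⟩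

theorem GK.algebraMap_X (i : Fin (ν + 1)) : algebraMap (MvPolynomial (Fin (ν + 1)) K) (GK k K Γ) (X i) =
    GK.inc K Γ (algebraMap (MvPolynomial (Fin (ν + 1)) k) Γ (X i)) :=
  (GK.exists_map K Γ).choose_spec.2 i

theorem GK.algebraMap_map (p : MvPolynomial (Fin (ν + 1)) k) :
    algebraMap (MvPolynomial (Fin (ν + 1)) K) (GK k K Γ) (MvPolynomial.map (algebraMap k K) p) =
      GK.inc K Γ (algebraMap (MvPolynomial (Fin (ν + 1)) k) Γ p) := by
  induction p using MvPolynomial.induction_on with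
  | C a =>
    rw [MvPolynomial.map_C]
    have h1 : algebraMap (MvPolynomial (Fin (ν + 1)) K) (GK k K Γ) (C (algebraMap k K a)) =
        algebraMap K (GK k K Γ) (algebraMap k K a) :=
      (GK.exists_map K Γ).choose.commutes (algebraMap k K a)
    have h2 : algebraMap (MvPolynomial (Fin (ν + 1)) k) Γ (C a) = algebraMap k Γ a := by
      rw [IsScalarTower.algebraMap_apply k (MvPolynomial (Fin (ν + 1)) k) Γ]
      rfl
    rw [h1, h2, AlgHom.commutes, ← IsScalarTower.algebraMap_apply]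
  | add p q hp hq => rw [map_add, map_add, map_add, map_add, hp, hq]
  | mul_X p i hp =>
    rw [map_mul, map_mul, map_mul, map_mul, hp, MvPolynomial.map_X, GK.algebraMap_X]

variable {Γ} {𝒢 : ℕ → Submodule k Γ}

/-- the grading of `K ⊗ Γ` -/
def GK.gr (𝒢 : ℕ → Submodule k Γ) (n : ℕ) : Submodule K (GK k K Γ) :=
  (𝒢 n).baseChange K

end

section

variable {ν : ℕ} {k : Type u} [Field k] (K : Type u) [Field K] [Algebra k K]
  {Γ : Type u} [Ring Γ] [Algebra k Γ] [Algebra (MvPolynomial (Fin (ν + 1)) k) Γ]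
  [IsScalarTower k (MvPolynomial (Fin (ν + 1)) k) Γ] {𝒢 : ℕ → Submodule k Γ}

omit [Algebra (MvPolynomial (Fin (ν + 1)) k) Γ] [IsScalarTower k (MvPolynomial (Fin (ν + 1)) k) Γ] in
/-- The pieces of the base change of the grading are spanned by the elements `1 ⊗ a`. -/
private theorem GrI_span (n : ℕ) :
    GK.gr K 𝒢 n = Submodule.span K (GK.inc K Γ '' (𝒢 n : Set Γ)) :=
  Submodule.baseChange_eq_span (A := K) (𝒢 n)

omit [Algebra (MvPolynomial (Fin (ν + 1)) k) Γ] [IsScalarTower k (MvPolynomial (Fin (ν + 1)) k) Γ] in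
private theorem GrI_inc {n : ℕ} {a : Γ} (ha : a ∈ 𝒢 n) : GK.inc K Γ a ∈ GK.gr K 𝒢 n := by
  rw [GrI_span]
  exact Submodule.subset_span ⟨a, ha, rfl⟩

omit [IsScalarTower k (MvPolynomial (Fin (ν + 1)) k) Γ] in
private theorem GrI_mul (h : IsGr ν 𝒢) {m n : ℕ} {a b : GK k K Γ} (ha : a ∈ GK.gr K 𝒢 m)
    (hb : b ∈ GK.gr K 𝒢 n) : a * b ∈ GK.gr K 𝒢 (m + n) := by
  rw [GrI_span] at ha hb
  induction ha using Submodule.span_induction with
  | mem x hx =>
    obtain ⟨a, ha, rfl⟩ := hx
    induction hb using Submodule.span_induction with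
    | mem y hy =>
      obtain ⟨b, hb, rfl⟩ := hy
      rw [← map_mul]
      exact GrI_inc K (h.mul _ _ _ _ ha hb)
    | zero => rw [mul_zero]; exact Submodule.zero_mem _
    | add y z _ _ hy hz => rw [mul_add]; exact Submodule.add_mem _ hy hz
    | smul c y _ hy => rw [mul_smul_comm]; exact Submodule.smul_mem _ c hy
  | zero => rw [zero_mul]; exact Submodule.zero_mem _
  | add y z _ _ hy hz => rw [add_mul]; exact Submodule.add_mem _ hy hz
  | smul c y _ hy => rw [smul_mul_assoc]; exact Submodule.smul_mem _ c hy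

omit [Algebra (MvPolynomial (Fin (ν + 1)) k) Γ] [IsScalarTower k (MvPolynomial (Fin (ν + 1)) k) Γ] in
/-- Every element of `K ⊗ Γ` is in the `K`-span of the elements `1 ⊗ a`. -/
private theorem GrI_top : Submodule.span K (Set.range (GK.inc (k := k) K Γ)) = ⊤ := by
  have h1 := Submodule.baseChange_eq_span (A := K) (⊤ : Submodule k Γ)
  rw [Submodule.baseChange_top] at h1
  have h2 : (Submodule.map (TensorProduct.mk k K Γ 1) ⊤ : Set (K ⊗[k] Γ)) =
      Set.range (GK.inc (k := k) K Γ) := by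
    ext z
    constructor
    · rintro ⟨a, -, rfl⟩
      exact ⟨a, rfl⟩
    · rintro ⟨a, rfl⟩
      exact ⟨a, trivial, rfl⟩
  rw [h2] at h1
  exact h1.symm

private theorem GrI_fin (h : IsGr ν 𝒢) :
    Module.Finite (MvPolynomial (Fin (ν + 1)) K) (GK k K Γ) := by
  classical
  obtain ⟨S, hS⟩ := h.fin
  refine ⟨S.image (GK.inc K Γ), ?_⟩
  have h1 : ∀ a : Γ, GK.inc K Γ a ∈ Submodule.span (MvPolynomial (Fin (ν + 1)) K)
      ((S.image (GK.inc K Γ) : Finset (GK k K Γ)) : Set (GK k K Γ)) := by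
    intro a
    have ha : a ∈ Submodule.span (MvPolynomial (Fin (ν + 1)) k) (S : Set Γ) := by
      rw [hS]; trivial
    induction ha using Submodule.span_induction with
    | mem x hx =>
      refine Submodule.subset_span ?_
      rw [Finset.coe_image]
      exact ⟨x, hx, rfl⟩
    | zero => rw [map_zero]; exact Submodule.zero_mem _
    | add y z _ _ hy hz => rw [map_add]; exact Submodule.add_mem _ hy hz
    | smul p y _ hy =>
      rw [Algebra.smul_def, map_mul, ← GK.algebraMap_map, ← Algebra.smul_def]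
      exact Submodule.smul_mem _ _ hy
  rw [eq_top_iff]
  intro z _
  have hz : z ∈ Submodule.span K (Set.range (GK.inc (k := k) K Γ)) := by
    rw [GrI_top]; trivial
  induction hz using Submodule.span_induction with
  | mem x hx =>
    obtain ⟨a, rfl⟩ := hx
    exact h1 a
  | zero => exact Submodule.zero_mem _
  | add y z _ _ hy hz => exact Submodule.add_mem _ (hy trivial) (hz trivial)
  | smul c y _ hy =>
    rw [← algebraMap_smul (MvPolynomial (Fin (ν + 1)) K) c y]
    exact Submodule.smul_mem _ _ (hy trivial)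

theorem GK.isGr (h : IsGr ν 𝒢) : IsGr ν (GK.gr K 𝒢) where
  int := DirectSum.IsInternal.baseChange 𝒢 h.int
  one := by
    rw [← map_one (GK.inc (k := k) K Γ)]
    exact GrI_inc K h.one
  mul _ _ _ _ ha hb := GrI_mul K h ha hb
  var i := by
    rw [GK.algebraMap_X]
    exact GrI_inc K (h.var i)
  fin := GrI_fin K h

end

end Pool.Agent.MP_6e5bed_ag_Pn
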