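import Pool.Agent.Lib.MP_6e5bed_ag_PS.FB
import Pool.Agent.Lib.MP_6e5bed_ag_GG.TGK
import Pool.Agent.Lib.MP_6e5bed_ag_GG.TFa

set_option autoImplicit false

/-!
# MP_6e5bed_ag, THEOREM G: base change of the residue condition (T6)
-/

noncomputable section

namespace Pool.Agent.MP_6e5bed_ag_Pn

open MvPolynomial
open Pool.Agent.MP_6e5bed_ag_GG (AlgC mem_AlgC le_AlgC alg_le AlgC_mono AlgC_AlgC)
open scoped TensorProduct

universe u

section fields

theorem adj_map {k K N Ω : Type u} [Field k] [Field K] [Field N] [Field Ω] [Algebra k N]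
    [Algebra K Ω] (j : k →+* K) (θ : N →+* Ω)
    (h : ∀ c, θ (algebraMap k N c) = algebraMap K Ω (j c)) (S : Set N) (T : Set Ω)
    (hST : ∀ x ∈ S, θ x ∈ IntermediateField.adjoin K T) :
    ∀ x ∈ IntermediateField.adjoin k S, θ x ∈ IntermediateField.adjoin K T := by
  intro x hx
  induction hx using IntermediateField.adjoin_induction with
  | mem x hx => exact hST x hx
  | algebraMap x => rw [h]; exact IntermediateField.algebraMap_mem _ _
  | add x y _ _ hx hy => rw [map_add]; exact add_mem hx hy
  | inv x _ hx => rw [map_inv₀]; exact inv_mem hx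
  | mul x y _ _ hx hy => rw [map_mul]; exact mul_mem hx hy

/-- algebraic elements are mapped to algebraic elements -/
theorem alg_im {A B N Ω : Type u} [Field A] [Field B] [Field N] [Field Ω] [Algebra A N]
    [Algebra B Ω] (i : A →+* B) (θ : N →+* Ω)
    (h : ∀ a, θ (algebraMap A N a) = algebraMap B Ω (i a)) {x : N} (hx : IsAlgebraic A x) :
    IsAlgebraic B (θ x) :=
  hx.ringHom_of_comp_eq i θ i.injective (RingHom.ext fun a => (h a).symm)

theorem alg_adj {k K N Ω : Type u} [Field k] [Field K] [Field N] [Field Ω] [Algebra k N]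
    [Algebra K Ω] (j : k →+* K) (θ : N →+* Ω)
    (h : ∀ c, θ (algebraMap k N c) = algebraMap K Ω (j c)) (r : N) {x : N}
    (hx : IsAlgebraic (IntermediateField.adjoin k {r}) x) :
    IsAlgebraic (IntermediateField.adjoin K {θ r}) (θ x) := by
  have h1 : ∀ a ∈ IntermediateField.adjoin k {r}, θ a ∈ IntermediateField.adjoin K {θ r} :=
    adj_map j θ h _ _ fun x hx => by
      rw [Set.mem_singleton_iff] at hx
      rw [hx]
      exact IntermediateField.mem_adjoin_simple_self K _
  let i : IntermediateField.adjoin k {r} →+* IntermediateField.adjoin K {θ r} :=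
    { toFun := fun a => ⟨θ a.1, h1 a.1 a.2⟩
      map_one' := Subtype.ext (map_one θ)
      map_mul' := fun a b => Subtype.ext (map_mul θ a.1 b.1)
      map_zero' := Subtype.ext (map_zero θ)
      map_add' := fun a b => Subtype.ext (map_add θ a.1 b.1) }
  exact alg_im i θ (fun _ => rfl) hx

/-- Base change of the property `InProd`. -/
theorem InProd.bc {k K Z Z' : Type u} [Field k] [Field K] [Algebra k K] [Algebra.IsAlgebraic k K]
    [Field Z] [Field Z'] (c : k →+* Z) (c' : K →+* Z') (ι : Z →+* Z')
    (hc : ∀ x, ι (c x) = c' (algebraMap k K x))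
    (hgen : ∀ S : Subfield Z', (∀ x, c' x ∈ S) → (∀ z, ι z ∈ S) → ∀ x, x ∈ S)
    (h : InProd c) : InProd c' := by
  obtain ⟨M, hM1, hM2, m, t, φ, hφ, halg, ht, hg⟩ := h
  let _ : Algebra K Z' := c'.toAlgebra
  let _ : Algebra Z M := φ.toAlgebra
  let _ : Algebra Z (AlgebraicClosure Z') := ((algebraMap Z' (AlgebraicClosure Z')).comp ι).toAlgebra
  let _ : Algebra k (AlgebraicClosure Z') :=
    ((algebraMap K (AlgebraicClosure Z')).comp (algebraMap k K)).toAlgebra
  have htow : IsScalarTower k K (AlgebraicClosure Z') := IsScalarTower.of_algebraMap_eq fun _ => rfl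
  have hZM : Algebra.IsAlgebraic Z M := ⟨fun x =>
    (halg x).of_ringHom_of_comp_eq φ.rangeRestrict (RingHom.id M) φ.rangeRestrict_surjective
      Function.injective_id rfl⟩
  let θ : M →ₐ[Z] AlgebraicClosure Z' := IsAlgClosed.lift
  have hθ : ∀ z, θ (φ z) = algebraMap Z' _ (ι z) := fun z => θ.commutes z
  have hKΩ : ∀ x : K, algebraMap K (AlgebraicClosure Z') x = algebraMap Z' _ (c' x) := fun x =>
    IsScalarTower.algebraMap_apply K Z' (AlgebraicClosure Z') x
  have hθk : ∀ x : k, θ (algebraMap k M x) = algebraMap K _ (algebraMap k K x) := by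
    intro x
    rw [← hφ, hθ, hc, hKΩ]
  let θk : M →ₐ[k] AlgebraicClosure Z' := { θ.toRingHom with commutes' := hθk }
  -- the field generated by `K` and the image of `M`
  let N : IntermediateField K (AlgebraicClosure Z') := IntermediateField.adjoin K (Set.range θ)
  have hN : ∀ z, algebraMap Z' (AlgebraicClosure Z') z ∈ N := by
    refine hgen (N.toSubfield.comap (algebraMap Z' (AlgebraicClosure Z'))) (fun x => ?_)
      (fun z => ?_)
    · rw [Subfield.mem_comap, ← hKΩ]
      exact N.algebraMap_mem x
    · rw [Subfield.mem_comap, ← hθ]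
      exact IntermediateField.subset_adjoin _ _ ⟨_, rfl⟩
  have hθN : ∀ x, θ x ∈ N := fun x => IntermediateField.subset_adjoin _ _ ⟨_, rfl⟩
  let φ' : Z' →+* N := (algebraMap Z' (AlgebraicClosure Z')).codRestrict N.toSubfield.toSubring hN
  let θN : M →+* N := θ.toRingHom.codRestrict N.toSubfield.toSubring hθN
  have hθN' : ∀ x, θN (algebraMap k M x) = algebraMap K N (algebraMap k K x) := fun x =>
    Subtype.ext (hθk x)
  refine ⟨N, inferInstance, inferInstance, m, fun i => θN (t i), φ', fun x => ?_, fun x => ?_, ?_, ?_⟩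
  · exact Subtype.ext (hKΩ x).symm
  · have h1 : IsAlgebraic Z' (x : AlgebraicClosure Z') := Algebra.IsAlgebraic.isAlgebraic _
    let f : Z' →+* φ'.range := φ'.rangeRestrict
    have h2 : IsAlgebraic φ'.range (x : AlgebraicClosure Z') :=
      h1.ringHom_of_comp_eq f (RingHom.id _) f.injective rfl
    exact h2.of_ringHom_of_comp_eq (RingHom.id _) N.val Function.surjective_id N.val.injective rfl
  · have h1 : AlgebraicIndependent k (θk ∘ t) := ht.map' θk.injective
    have h2 : AlgebraicIndependent K (θk ∘ t) := h1.extendScalars K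
    have h3 : (θk ∘ t) = N.val ∘ fun i => θN (t i) := rfl
    rw [h3, AlgHom.algebraicIndependent_iff _ N.val.injective] at h2
    exact h2
  · obtain ⟨T, hT⟩ : ∃ T : Set N, T = {x : N | IsAlgebraic K x ∨
        ∃ i, IsAlgebraic (IntermediateField.adjoin K {θN (t i)}) x} := ⟨_, rfl⟩
    rw [← hT]
    have h1 : ∀ x : M, θN x ∈ IntermediateField.adjoin K T := by
      intro x
      refine adj_map (algebraMap k K) θN hθN' {x : M | IsAlgebraic k x ∨
        ∃ i, IsAlgebraic (IntermediateField.adjoin k {t i}) x} T (fun x hx => ?_) x ?_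
      · refine IntermediateField.subset_adjoin _ _ ?_
        rw [hT]
        rcases hx with hx | ⟨i, hx⟩
        · exact Or.inl (alg_im (algebraMap k K) θN hθN' hx)
        · exact Or.inr ⟨i, alg_adj (algebraMap k K) θN hθN' (t i) hx⟩
      · rw [hg]
        trivial
    rw [eq_top_iff]
    rintro ⟨y, hy⟩ -
    have key : ∀ (y : AlgebraicClosure Z') (hy : y ∈ IntermediateField.adjoin K (Set.range θ)),
        (⟨y, hy⟩ : N) ∈ IntermediateField.adjoin K T := by
      intro y hy
      induction hy using IntermediateField.adjoin_induction with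
      | mem x hx =>
        obtain ⟨z, rfl⟩ := hx
        exact h1 z
      | algebraMap x => exact (IntermediateField.adjoin K T).algebraMap_mem x
      | add x y hx hy ihx ihy => exact add_mem ihx ihy
      | inv x hx ih => exact inv_mem ih
      | mul x y hx hy ihx ihy => exact mul_mem ihx ihy
    exact key y hy

/-- The property `InProd` for function fields of points and curves. -/
theorem InProd.curve {K F Z : Type u} [Field K] [Field F] [Algebra K F] [Field Z] [Algebra F Z]
    [Algebra.IsAlgebraic F Z] {ι : Type} (a : ι → F)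
    (hgen : IntermediateField.adjoin K (Set.range a) = ⊤)
    (h : (∀ l, IsAlgebraic K (a l)) ∨ ∃ i, Transcendental K (a i) ∧
      ∀ l, IsAlgebraic (IntermediateField.adjoin K {a i}) (a l)) :
    InProd ((algebraMap F Z).comp (algebraMap K F)) := by
  let _ : Algebra K Z := ((algebraMap F Z).comp (algebraMap K F)).toAlgebra
  have htow : IsScalarTower K F Z := IsScalarTower.of_algebraMap_eq fun _ => rfl
  -- if `N` contains the generators, up to algebraic elements, everything is algebraic over `N`
  have key : ∀ N : IntermediateField K Z, (∀ l, IsAlgebraic N (algebraMap F Z (a l))) →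
      ∀ z : Z, IsAlgebraic N z := by
    intro N hN z
    have h1 : ∀ x : F, algebraMap F Z x ∈ AlgC N := by
      intro x
      have h2 : algebraMap F Z x ∈ IntermediateField.adjoin K (Set.range fun l =>
          algebraMap F Z (a l)) := by
        refine adj_map (RingHom.id K) (algebraMap F Z) (fun c => ?_) (Set.range a) _ ?_ x ?_
        · exact (IsScalarTower.algebraMap_apply K F Z c).symm
        · rintro _ ⟨l, rfl⟩
          exact IntermediateField.subset_adjoin _ _ ⟨l, rfl⟩
        · rw [hgen]
          trivial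
      refine (IntermediateField.adjoin_le_iff.2 ?_) h2
      rintro _ ⟨l, rfl⟩
      exact mem_AlgC.2 (hN l)
    refine AlgC_AlgC ?_
    let f : F →+* AlgC N := (algebraMap F Z).codRestrict (AlgC N).toSubfield.toSubring h1
    have h3 : IsAlgebraic F z := Algebra.IsAlgebraic.isAlgebraic z
    exact h3.ringHom_of_comp_eq f (RingHom.id Z) f.injective rfl
  rcases h with h | ⟨i, hi, h⟩
  · refine ⟨Z, inferInstance, inferInstance, 0, Fin.elim0, RingHom.id Z, fun x => rfl, fun x => ?_,
      ?_, ?_⟩
    · exact isAlgebraic_algebraMap (⟨x, x, rfl⟩ : (RingHom.id Z).range)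
    · rw [algebraicIndependent_empty_type_iff]
      exact (algebraMap K Z).injective
    · rw [eq_top_iff]
      intro x _
      refine IntermediateField.subset_adjoin _ _ (Or.inl ?_)
      have h1 : IsAlgebraic (⊥ : IntermediateField K Z) x := by
        refine key ⊥ (fun l => ?_) x
        exact ((h l).algHom (IsScalarTower.toAlgHom K F Z)).tower_top (⊥ : IntermediateField K Z)
      exact h1.of_ringHom_of_comp_eq (algebraMap K (⊥ : IntermediateField K Z)) (RingHom.id Z)
        (by
          rintro ⟨_, y, rfl⟩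
          exact ⟨y, rfl⟩) Function.injective_id rfl
  · refine ⟨Z, inferInstance, inferInstance, 1, fun _ => algebraMap F Z (a i), RingHom.id Z,
      fun x => rfl, fun x => ?_, ?_, ?_⟩
    · exact isAlgebraic_algebraMap (⟨x, x, rfl⟩ : (RingHom.id Z).range)
    · rw [algebraicIndependent_unique_type_iff]
      exact fun h0 => hi ((isAlgebraic_algHom_iff (IsScalarTower.toAlgHom K F Z)
        (algebraMap F Z).injective).1 h0)
    · rw [eq_top_iff]
      intro x _
      refine IntermediateField.subset_adjoin _ _ (Or.inr ⟨0, ?_⟩)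
      refine key _ (fun l => ?_) x
      exact alg_adj (RingHom.id K) (algebraMap F Z)
        (fun c => (IsScalarTower.algebraMap_apply K F Z c).symm) (a i) (h l)

end fields

section ext

/-- The condition on the centres of all the simple quotients of the residue algebras. -/
def CenC (n : ℕ) (k Γ : Type u) [Field k] [Ring Γ] [Algebra (MvPolynomial (Fin (n + 1)) k) Γ] :
    Prop :=
  ∀ (F Q : Type u) [Field F] [Algebra k F] [Ring Q] [Algebra F Q] [IsSimpleRing Q]
    (a : Fin (n + 1) → F) (j : Fin (n + 1)) (π : Γ →+* Q),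
    a j = 1 → IntermediateField.adjoin k (Set.range a) = ⊤ →
    (∀ p : MvPolynomial (Fin (n + 1)) k, π (algebraMap _ Γ p) = algebraMap F Q (aeval a p)) →
    Submodule.span F (Set.range π) = ⊤ →
    InProd ((algebraMap F (Subalgebra.center F Q)).comp (algebraMap k F))

variable {n : ℕ} {k : Type u} [Field k] (K : Type u) [Field K] [Algebra k K]
  {Γ : Type u} [Ring Γ] [Algebra k Γ] [Algebra (MvPolynomial (Fin (n + 1)) k) Γ]
  [IsScalarTower k (MvPolynomial (Fin (n + 1)) k) Γ]

/-- The `F₀`-form of a simple quotient. -/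
private theorem TFb_form (hf : Module.Finite (MvPolynomial (Fin (n + 1)) k) Γ)
    {F0 F Q : Type u} [Field F0] [Algebra k F0] [Field F] [Algebra K F] [Ring Q] [Algebra F Q]
    [IsSimpleRing Q] [Algebra F0 F] [Algebra F0 Q] [IsScalarTower F0 F Q]
    (a0 : Fin (n + 1) → F0) (a : Fin (n + 1) → F)
    (hι : ∀ p : MvPolynomial (Fin (n + 1)) k, algebraMap F0 F (aeval a0 p) =
      aeval a (MvPolynomial.map (algebraMap k K) p))
    (π : GK k K Γ →+* Q)
    (hπ : ∀ p : MvPolynomial (Fin (n + 1)) K, π (algebraMap _ _ p) = algebraMap F Q (aeval a p))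
    (hs : Submodule.span F (Set.range π) = ⊤) :
    ∃ (P : Subalgebra F0 Q) (g : Γ →+* P), FiniteDimensional F0 P ∧ FiniteDimensional F Q ∧
      IsSimpleRing P ∧
      (∀ p : MvPolynomial (Fin (n + 1)) k, g (algebraMap _ Γ p) = algebraMap F0 P (aeval a0 p)) ∧
      Submodule.span F0 (Set.range g) = ⊤ ∧
      (∀ z : Subalgebra.center F0 P, z.1.1 ∈ Subalgebra.center F Q) ∧
      ∀ y : Q, (∀ x, y * x = x * y) → y ∈ Submodule.span F {b : Q | b ∈ P ∧ ∀ x, b * x = x * b} := by
  let f : Γ →+* Q := π.comp (GK.inc K Γ).toRingHom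
  have hfa : ∀ a, f a = π (GK.inc K Γ a) := fun a => rfl
  have hfp : ∀ p : MvPolynomial (Fin (n + 1)) k, f (algebraMap _ Γ p) =
      algebraMap F0 Q (aeval a0 p) := by
    intro p
    rw [hfa, ← GK.algebraMap_map, hπ, ← hι, ← IsScalarTower.algebraMap_apply]
  have hmul : ∀ x y, x ∈ Submodule.span F0 (Set.range f) →
      y ∈ Submodule.span F0 (Set.range f) → x * y ∈ Submodule.span F0 (Set.range f) := by
    intro x y hx hy
    have h1 : x * y ∈ Submodule.span F0 (Set.range f) * Submodule.span F0 (Set.range f) :=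
      Submodule.mul_mem_mul hx hy
    rw [Submodule.span_mul_span] at h1
    refine Submodule.span_mono ?_ h1
    rintro _ ⟨_, ⟨a, rfl⟩, _, ⟨b, rfl⟩, rfl⟩
    exact ⟨a * b, map_mul f a b⟩
  let P : Subalgebra F0 Q := (Submodule.span F0 (Set.range f)).toSubalgebra
    (Submodule.subset_span ⟨1, map_one f⟩) hmul
  have hPm : ∀ x, x ∈ P ↔ x ∈ Submodule.span F0 (Set.range f) := fun x => Iff.rfl
  obtain ⟨S, hS⟩ := hf.fg_top
  have hle : Submodule.span F0 (Set.range f) ≤ Submodule.span F0 (f '' (S : Set Γ)) := by
    rw [Submodule.span_le]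
    rintro _ ⟨a, rfl⟩
    have ha : a ∈ Submodule.span (MvPolynomial (Fin (n + 1)) k) (S : Set Γ) := by
      rw [hS]
      exact Submodule.mem_top
    induction ha using Submodule.span_induction with
    | mem a ha => exact Submodule.subset_span ⟨a, ha, rfl⟩
    | zero => rw [map_zero]; exact Submodule.zero_mem _
    | add a b _ _ ha hb => rw [map_add]; exact Submodule.add_mem _ ha hb
    | smul p a _ ha =>
      rw [Algebra.smul_def, map_mul, hfp, ← Algebra.smul_def]
      exact Submodule.smul_mem _ _ ha
  have hfin : FiniteDimensional F0 P := by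
    have h2 : FiniteDimensional F0 (Submodule.span F0 (f '' (S : Set Γ))) :=
      FiniteDimensional.span_of_finite _ (S.finite_toSet.image f)
    have h3 : FiniteDimensional F0 (Submodule.span F0 (Set.range f)) :=
      Submodule.finiteDimensional_of_le hle
    exact (Subalgebra.finiteDimensional_toSubmodule (S := P)).1 h3
  have hsp : Submodule.span F (P : Set Q) = ⊤ := by
    rw [eq_top_iff, ← hs, Submodule.span_le]
    rintro _ ⟨z, rfl⟩
    change π z ∈ Submodule.span F (P : Set Q)
    have key : ∀ z : K ⊗[k] Γ, π (z : GK k K Γ) ∈ Submodule.span F (P : Set Q) := by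
      intro z
      induction z using TensorProduct.induction_on with
      | zero =>
        have h1 : π ((0 : K ⊗[k] Γ) : GK k K Γ) = 0 := map_zero π
        rw [h1]
        exact Submodule.zero_mem _
      | add x y hx hy =>
        have h1 : π ((x + y : K ⊗[k] Γ) : GK k K Γ) = π (x : GK k K Γ) + π (y : GK k K Γ) :=
          map_add π _ _
        rw [h1]
        exact Submodule.add_mem _ hx hy
      | tmul c a' =>
        have h1 : ((c ⊗ₜ[k] a' : K ⊗[k] Γ) : GK k K Γ) =
            algebraMap (MvPolynomial (Fin (n + 1)) K) (GK k K Γ) (C c) * GK.inc K Γ a' := by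
          have h2 : algebraMap (MvPolynomial (Fin (n + 1)) K) (GK k K Γ) (C c) =
              algebraMap K (GK k K Γ) c := by
            rw [← MvPolynomial.algebraMap_eq, ← IsScalarTower.algebraMap_apply]
          rw [h2]
          change (c ⊗ₜ[k] a' : K ⊗[k] Γ) = (c ⊗ₜ[k] (1 : Γ)) * ((1 : K) ⊗ₜ[k] a')
          rw [Algebra.TensorProduct.tmul_mul_tmul, mul_one, one_mul]
        have h3 : π ((c ⊗ₜ[k] a' : K ⊗[k] Γ) : GK k K Γ) =
            algebraMap F Q (aeval a (C c)) * f a' := by
          have h4 : π ((c ⊗ₜ[k] a' : K ⊗[k] Γ) : GK k K Γ) =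
              π (algebraMap (MvPolynomial (Fin (n + 1)) K) (GK k K Γ) (C c) * GK.inc K Γ a') :=
            congrArg π h1
          refine h4.trans ((map_mul π _ _).trans ?_)
          rw [hπ, hfa]
        rw [h3, ← Algebra.smul_def]
        exact Submodule.smul_mem _ _ (Submodule.subset_span
          ((hPm _).2 (Submodule.subset_span ⟨a', rfl⟩)))
    exact key z
  have hQ : FiniteDimensional F Q := by
    have h1 : Submodule.span F (f '' (S : Set Γ)) = ⊤ := by
      rw [eq_top_iff, ← hsp, Submodule.span_le]
      intro x hx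
      have h2 : x ∈ Submodule.span F0 (f '' (S : Set Γ)) := hle ((hPm x).1 hx)
      exact Submodule.span_subset_span F0 F _ h2
    have h2 : FiniteDimensional F (Submodule.span F (f '' (S : Set Γ))) :=
      FiniteDimensional.span_of_finite _ (S.finite_toSet.image f)
    rw [h1] at h2
    exact Module.Finite.equiv (Submodule.topEquiv (R := F) (M := Q))
  obtain ⟨hsim, hcen⟩ := Pool.Agent.MP_6e5bed_ag_PS.cen_bc F0 F Q P hfin hsp
  let g : Γ →+* P := f.codRestrict P fun a => (hPm _).2 (Submodule.subset_span ⟨a, rfl⟩)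
  have hgs : Submodule.span F0 (Set.range g) = ⊤ := by
    rw [eq_top_iff]
    rintro ⟨x, hx⟩ -
    have key : ∀ (x : Q) (hx : x ∈ Submodule.span F0 (Set.range f)),
        (⟨x, (hPm x).2 hx⟩ : P) ∈ Submodule.span F0 (Set.range g) := by
      intro x hx
      induction hx using Submodule.span_induction with
      | mem x hx =>
        obtain ⟨a, rfl⟩ := hx
        exact Submodule.subset_span ⟨a, rfl⟩
      | zero => exact Submodule.zero_mem _
      | add x y hx hy ihx ihy => exact Submodule.add_mem _ ihx ihy
      | smul s x hx ih => exact Submodule.smul_mem _ s ih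
    exact key x ((hPm x).1 hx)
  -- the centre of `P` is contained in the centre of `Q`
  have hz : ∀ z : Subalgebra.center F0 P, z.1.1 ∈ Subalgebra.center F Q := by
    intro z
    rw [Subalgebra.mem_center_iff]
    intro x
    have hx : x ∈ Submodule.span F (P : Set Q) := by
      rw [hsp]
      exact Submodule.mem_top
    induction hx using Submodule.span_induction with
    | mem x hx => exact congrArg Subtype.val (Subalgebra.mem_center_iff.1 z.2 ⟨x, hx⟩)
    | zero => rw [mul_zero, zero_mul]
    | add x y _ _ hx hy => rw [mul_add, add_mul, hx, hy]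
    | smul s x _ hx => rw [mul_smul_comm, smul_mul_assoc, hx]
  exact ⟨P, g, hfin, hQ, hsim, fun p => Subtype.ext (hfp p), hgs, hz, hcen⟩

private theorem TFb_field {F Q : Type u} [Field F] [Ring Q] [Algebra F Q] [IsSimpleRing Q] :
    IsField (Subalgebra.center F Q) := by
  have h := IsSimpleRing.isField_center Q
  refine ⟨⟨0, 1, zero_ne_one⟩, mul_comm, fun {a} ha => ?_⟩
  have h1 : (⟨a.1, a.2⟩ : Subring.center Q) ≠ 0 := fun h => ha (Subtype.ext (congrArg Subtype.val h))
  obtain ⟨b, hb⟩ := h.mul_inv_cancel h1
  exact ⟨⟨b.1, b.2⟩, Subtype.ext (congrArg Subtype.val hb)⟩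

/-- Two algebraically independent elements. -/
private theorem TFb_pair {k F : Type u} [Field k] [Field F] [Algebra k F] {x y : F}
    (hx : Transcendental k x) (hy : Transcendental (IntermediateField.adjoin k {x}) y) :
    AlgebraicIndependent k ![x, y] := by
  rw [AlgebraicIndependent.iff_transcendental_adjoin_image (1 : Fin 2)]
  have h0 : ∀ j : {j : Fin 2 // j ≠ 1}, j = ⟨0, by decide⟩ := by
    rintro ⟨j, hj⟩
    fin_cases j
    · rfl
    · exact absurd rfl hj
  let _ : Unique {j : Fin 2 // j ≠ 1} := ⟨⟨⟨0, by decide⟩⟩, h0⟩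
  constructor
  · rw [algebraicIndependent_unique_type_iff]
    exact hx
  · have h1 : ![x, y] '' {(1 : Fin 2)}ᶜ = {x} := by
      ext z
      constructor
      · rintro ⟨j, hj, rfl⟩
        have h2 : j = 0 := congrArg Subtype.val (h0 ⟨j, hj⟩)
        rw [h2]
        rfl
      · rintro rfl
        exact ⟨0, by simp, rfl⟩
    rw [h1]
    exact IntermediateField.transcendental_adjoin_iff.1 hy

/-- THE RESIDUE CONDITION PASSES TO ALGEBRAIC EXTENSIONS OF THE BASE FIELD (T6). -/
theorem CenM.ext [Algebra.IsAlgebraic k K] (hf : Module.Finite (MvPolynomial (Fin (n + 1)) k) Γ)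
    (hc : CenM n k Γ) : CenC n K (GK k K Γ) := by
  intro F Q _ _ _ _ _ a j π hj hgen hπ hs
  let _ : Algebra k F := ((algebraMap K F).comp (algebraMap k K)).toAlgebra
  have htow : IsScalarTower k K F := IsScalarTower.of_algebraMap_eq fun _ => rfl
  let F0 : IntermediateField k F := IntermediateField.adjoin k (Set.range a)
  let a0 : Fin (n + 1) → F0 := fun i => ⟨a i, IntermediateField.subset_adjoin _ _ ⟨i, rfl⟩⟩
  have hι : ∀ p : MvPolynomial (Fin (n + 1)) k, algebraMap F0 F (aeval a0 p) =
      aeval a (MvPolynomial.map (algebraMap k K) p) := by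
    intro p
    rw [MvPolynomial.aeval_map_algebraMap]
    have h1 : (F0.val.comp (aeval a0)) = aeval a := by
      refine MvPolynomial.algHom_ext fun i => ?_
      rw [AlgHom.comp_apply, aeval_X, aeval_X]
      rfl
    exact DFunLike.congr_fun h1 p
  obtain ⟨P, g, hfin, hQ, hsim, hg, hgs, hz, hcen⟩ := TFb_form K hf a0 a hι π hπ hs
  have hgen0 : IntermediateField.adjoin k (Set.range a0) = ⊤ := by
    rw [eq_top_iff]
    rintro ⟨y, hy⟩ -
    have key : ∀ (y : F) (hy : y ∈ IntermediateField.adjoin k (Set.range a)),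
        (⟨y, hy⟩ : F0) ∈ IntermediateField.adjoin k (Set.range a0) := by
      intro y hy
      induction hy using IntermediateField.adjoin_induction with
      | mem x hx =>
        obtain ⟨z, rfl⟩ := hx
        exact IntermediateField.subset_adjoin _ _ ⟨z, rfl⟩
      | algebraMap x => exact (IntermediateField.adjoin k (Set.range a0)).algebraMap_mem x
      | add x y hx hy ihx ihy => exact add_mem ihx ihy
      | inv x hx ih => exact inv_mem ih
      | mul x y hx hy ihx ihy => exact mul_mem ihx ihy
    exact key y hy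
  let _ : Field (Subalgebra.center F Q) := TFb_field.toField
  let _ : Field (Subalgebra.center F0 P) := TFb_field.toField
  by_cases hw : ∃ w : Fin 2 → F0, AlgebraicIndependent k w
  · obtain ⟨w, hw⟩ := hw
    have h1 : InProd ((algebraMap F0 (Subalgebra.center F0 P)).comp (algebraMap k F0)) :=
      hc F0 P a0 j w g (Subtype.ext hj) hgen0 hw hg hgs
    let ι : Subalgebra.center F0 P →+* Subalgebra.center F Q :=
      { toFun := fun z => ⟨z.1.1, hz z⟩
        map_one' := rfl
        map_mul' := fun _ _ => rfl
        map_zero' := rfl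
        map_add' := fun _ _ => rfl }
    refine InProd.bc (K := K) ((algebraMap F0 (Subalgebra.center F0 P)).comp (algebraMap k F0))
      ((algebraMap F (Subalgebra.center F Q)).comp (algebraMap K F)) ι (fun x => ?_) ?_ h1
    · rfl
    · intro S hS1 hS2 y
      have h2 : ∀ x : F, algebraMap F (Subalgebra.center F Q) x ∈ S := by
        intro x
        have hx : x ∈ IntermediateField.adjoin K (Set.range a) := by
          rw [hgen]
          trivial
        induction hx using IntermediateField.adjoin_induction with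
        | mem x hx =>
          obtain ⟨i, rfl⟩ := hx
          exact hS2 (algebraMap F0 (Subalgebra.center F0 P) (a0 i))
        | algebraMap x => exact hS1 x
        | add x y _ _ hx hy => rw [map_add]; exact add_mem hx hy
        | inv x _ hx => rw [map_inv₀]; exact inv_mem hx
        | mul x y _ _ hx hy => rw [map_mul]; exact mul_mem hx hy
      have key : ∀ y ∈ Submodule.span F {b : Q | b ∈ P ∧ ∀ x, b * x = x * b},
          ∃ hy : y ∈ Subalgebra.center F Q, (⟨y, hy⟩ : Subalgebra.center F Q) ∈ S := by
        intro y hy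
        induction hy using Submodule.span_induction with
        | mem b hb =>
          refine ⟨Subalgebra.mem_center_iff.2 fun x => (hb.2 x).symm, ?_⟩
          exact hS2 ⟨⟨b, hb.1⟩, Subalgebra.mem_center_iff.2 fun x => Subtype.ext (hb.2 x.1).symm⟩
        | zero => exact ⟨zero_mem _, S.zero_mem⟩
        | add x y _ _ hx hy =>
          obtain ⟨hx1, hx2⟩ := hx
          obtain ⟨hy1, hy2⟩ := hy
          exact ⟨add_mem hx1 hy1, S.add_mem hx2 hy2⟩
        | smul c x _ hx =>
          obtain ⟨hx1, hx2⟩ := hx
          refine ⟨(Subalgebra.center F Q).smul_mem hx1 c, ?_⟩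
          have h3 : (⟨c • x, (Subalgebra.center F Q).smul_mem hx1 c⟩ : Subalgebra.center F Q) =
              algebraMap F (Subalgebra.center F Q) c * ⟨x, hx1⟩ :=
            Subtype.ext (Algebra.smul_def c x)
          rw [h3]
          exact S.mul_mem (h2 c) hx2
      obtain ⟨h4, h5⟩ := key y.1 (hcen y.1 fun x => (Subalgebra.mem_center_iff.1 y.2 x).symm)
      exact h5
  · have hZ : Algebra.IsAlgebraic F (Subalgebra.center F Q) := inferInstance
    refine InProd.curve a hgen ?_
    by_contra hcon
    push Not at hcon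
    obtain ⟨⟨i, hi⟩, hcon⟩ := hcon
    obtain ⟨l, hl⟩ := hcon i hi
    apply hw
    refine ⟨![a0 i, a0 l], TFb_pair ?_ ?_⟩
    · intro h
      refine hi ?_
      exact alg_im (algebraMap k K) F0.val.toRingHom (fun c => rfl) h
    · intro h
      refine hl ?_
      exact alg_adj (algebraMap k K) F0.val.toRingHom (fun c => rfl) (a0 i) h

end ext

end Pool.Agent.MP_6e5bed_ag_Pn
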