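import Pool.Agent.Lib.MP_6e5bed_ag_GG.CbH

set_option autoImplicit false

/-!
# MP_6e5bed_ag, THEOREM G, section (6.1): localisations at a commutative monoid of operators

`LocS f σ σ'` says that `f : V → V'` behaves like the localisation of `V` at the commutative monoid
`S` which acts by `σ` on `V` and by `σ'` on `V'`. It is stable under cohomology and under tensor
products over a dg algebra.
-/

noncomputable section

namespace Pool.Agent.MP_6e5bed_ag_GG

open Pool.Agent.MP_6e5bed_ag_NC Pool.Agent.MP_6e5bed_ag_PN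
open Pool.Agent.MP_6e5bed_ag_NS (Cx CHom)
open scoped TensorProduct

universe u

/-- `f : V → V'` is injective and surjective up to the operators in `S`. -/
structure LocS {k V V' S : Type*} [CommRing k] [AddCommGroup V] [Module k V] [AddCommGroup V']
    [Module k V'] [CommMonoid S] (f : V →ₗ[k] V') (σ : S → V →ₗ[k] V)
    (σ' : S → V' →ₗ[k] V') : Prop where
  mul : ∀ s t x, σ (s * t) x = σ s (σ t x)
  mul' : ∀ s t x, σ' (s * t) x = σ' s (σ' t x)
  nat : ∀ s x, f (σ s x) = σ' s (f x)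
  surj : ∀ y, ∃ (s : S) (x : V), f x = σ' s y
  inj : ∀ x, f x = 0 → ∃ s : S, σ s x = 0

section lin

variable {k V V' E E' S : Type*} [CommRing k] [AddCommGroup V] [Module k V] [AddCommGroup V']
  [Module k V'] [AddCommGroup E] [Module k E] [AddCommGroup E'] [Module k E'] [CommMonoid S]
  {f : V →ₗ[k] V'} {σ : S → V →ₗ[k] V} {σ' : S → V' →ₗ[k] V'} {g : E →ₗ[k] E'}
  {μ : S → E →ₗ[k] E} {μ' : S → E' →ₗ[k] E'}

/-- the elements which are killed by `S` are closed under addition -/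
theorem torsS_add (hσ : ∀ s t x, σ (s * t) x = σ s (σ t x)) {x y : V}
    (hx : ∃ s : S, σ s x = 0) (hy : ∃ s : S, σ s y = 0) : ∃ s : S, σ s (x + y) = 0 := by
  obtain ⟨s, hs⟩ := hx
  obtain ⟨t, ht⟩ := hy
  refine ⟨s * t, ?_⟩
  rw [map_add, hσ s t y, ht, map_zero, mul_comm, hσ, hs, map_zero, add_zero]

/-- the elements which are in the image up to `S` are closed under addition -/
theorem surjS_add (hσ' : ∀ s t x, σ' (s * t) x = σ' s (σ' t x))
    (h : ∀ s x, f (σ s x) = σ' s (f x)) {y z : V'}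
    (hy : ∃ (s : S) (x : V), f x = σ' s y) (hz : ∃ (s : S) (x : V), f x = σ' s z) :
    ∃ (s : S) (x : V), f x = σ' s (y + z) := by
  obtain ⟨s, x, hx⟩ := hy
  obtain ⟨t, x', hx'⟩ := hz
  refine ⟨s * t, σ t x + σ s x', ?_⟩
  rw [map_add, h, h, hx, hx', map_add, ← hσ' s t z, ← hσ', mul_comm t s]

/-- Cokernels. -/
theorem LocS.coker (h : LocS f σ σ') (h' : LocS g μ μ') {R : E →ₗ[k] V} {R' : E' →ₗ[k] V'}
    (hR : ∀ e, f (R e) = R' (g e)) (hu : ∀ s e, R (μ s e) = σ s (R e))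
    (hu' : ∀ s e, R' (μ' s e) = σ' s (R' e)) {Z Z' : Type*} [AddCommGroup Z] [Module k Z]
    [AddCommGroup Z'] [Module k Z'] {p : V →ₗ[k] Z} {p' : V' →ₗ[k] Z'}
    (hp : Function.Surjective p) (hp' : Function.Surjective p')
    (hk : ∀ x, p x = 0 ↔ ∃ e, R e = x) (hk' : ∀ x, p' x = 0 ↔ ∃ e, R' e = x)
    {F : Z →ₗ[k] Z'} {T : S → Z →ₗ[k] Z} {T' : S → Z' →ₗ[k] Z'} (hF : ∀ x, F (p x) = p' (f x))
    (hT : ∀ s x, T s (p x) = p (σ s x)) (hT' : ∀ s x, T' s (p' x) = p' (σ' s x)) :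
    LocS F T T' := by
  refine ⟨fun s t z => ?_, fun s t z => ?_, fun s z => ?_, fun z => ?_, fun z hz => ?_⟩
  · obtain ⟨x, rfl⟩ := hp z
    rw [hT, hT, hT, h.mul]
  · obtain ⟨x, rfl⟩ := hp' z
    rw [hT', hT', hT', h.mul']
  · obtain ⟨x, rfl⟩ := hp z
    rw [hT, hF, hF, hT', h.nat]
  · obtain ⟨y, rfl⟩ := hp' z
    obtain ⟨n, x, hx⟩ := h.surj y
    exact ⟨n, p x, by rw [hF, hx, hT']⟩
  · obtain ⟨x, rfl⟩ := hp z
    rw [hF, hk'] at hz
    obtain ⟨e', he'⟩ := hz
    obtain ⟨n, e, he⟩ := h'.surj e'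
    have h1 : f (σ n x - R e) = 0 := by
      rw [map_sub, h.nat, hR, he, ← he', hu', sub_self]
    obtain ⟨m, hm⟩ := h.inj _ h1
    refine ⟨m * n, ?_⟩
    rw [hT, hk]
    refine ⟨μ m e, ?_⟩
    rw [map_sub, sub_eq_zero] at hm
    rw [hu, h.mul, hm]

/-- Bijective maps. -/
theorem LocS.of_bij (h : Function.Bijective f) (hm : ∀ s t x, σ (s * t) x = σ s (σ t x))
    (hm' : ∀ s t x, σ' (s * t) x = σ' s (σ' t x)) (hn : ∀ s x, f (σ s x) = σ' s (f x)) :
    LocS f σ σ' :=
  ⟨hm, hm', hn, fun y => by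
    obtain ⟨x, hx⟩ := h.2 y
    exact ⟨1, σ 1 x, by rw [hn, hx]⟩, fun x hx => ⟨1, by
      have h1 : x = 0 := h.1 (by rw [hx, map_zero])
      rw [h1, map_zero]⟩⟩

/-- Powers. -/
theorem LocP.locS {t : V →ₗ[k] V} {t' : V' →ₗ[k] V'} (h : LocP f t t') :
    LocS (S := Multiplicative ℕ) f (fun n => t ^ n.toAdd) (fun n => t' ^ n.toAdd) where
  mul := fun s r x => by
    rw [toAdd_mul, pow_add]
    rfl
  mul' := fun s r x => by
    rw [toAdd_mul, pow_add]
    rfl
  nat := fun s x => h.nat_pow _ x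
  surj := fun y => h.surj y
  inj := fun x hx => h.inj x hx

theorem LocS.locP {t : V →ₗ[k] V} {t' : V' →ₗ[k] V'} (hn : ∀ x, f (t x) = t' (f x))
    (h : LocS (S := Multiplicative ℕ) f (fun n => t ^ n.toAdd) (fun n => t' ^ n.toAdd)) :
    LocP f t t' where
  nat := hn
  surj := fun y => h.surj y
  inj := fun x hx => h.inj x hx

/-- Products. -/
theorem LocS.prodMap {W W' : Type*} [AddCommGroup W] [Module k W] [AddCommGroup W']
    [Module k W'] {f₁ : W →ₗ[k] W'} {τ : S → W →ₗ[k] W} {τ' : S → W' →ₗ[k] W'}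
    (h : LocS f σ σ') (h₁ : LocS f₁ τ τ') :
    LocS (f.prodMap f₁) (fun s => (σ s).prodMap (τ s)) (fun s => (σ' s).prodMap (τ' s)) where
  mul := fun s t x => Prod.ext (h.mul s t x.1) (h₁.mul s t x.2)
  mul' := fun s t x => Prod.ext (h.mul' s t x.1) (h₁.mul' s t x.2)
  nat := fun s x => Prod.ext (h.nat s x.1) (h₁.nat s x.2)
  surj := fun y => by
    obtain ⟨s, x, hx⟩ := h.surj y.1
    obtain ⟨t, z, hz⟩ := h₁.surj y.2
    refine ⟨s * t, (σ t x, τ s z), Prod.ext ?_ ?_⟩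
    · change f (σ t x) = σ' (s * t) y.1
      rw [h.nat, hx, ← h.mul', mul_comm]
    · change f₁ (τ s z) = τ' (s * t) y.2
      rw [h₁.nat, hz, h₁.mul']
  inj := fun x hx => by
    obtain ⟨s, hs⟩ := h.inj x.1 (congrArg Prod.fst hx)
    obtain ⟨t, ht⟩ := h₁.inj x.2 (congrArg Prod.snd hx)
    refine ⟨s * t, Prod.ext ?_ ?_⟩
    · change σ (s * t) x.1 = 0
      rw [mul_comm, h.mul, hs, map_zero]
    · change τ (s * t) x.2 = 0
      rw [h₁.mul, ht, map_zero]

end lin

section field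

variable {k V V' S : Type*} [Field k] [AddCommGroup V] [Module k V] [AddCommGroup V']
  [Module k V'] [CommMonoid S] {f : V →ₗ[k] V'} {σ : S → V →ₗ[k] V} {σ' : S → V' →ₗ[k] V'}

private theorem TLocS_rmul {V : Type*} [AddCommGroup V] [Module k V] {σ : S → V →ₗ[k] V}
    (Q : Type*) [AddCommGroup Q] [Module k Q] (hm : ∀ s t x, σ (s * t) x = σ s (σ t x))
    (s t : S) (x : V ⊗[k] Q) : LinearMap.rTensor Q (σ (s * t)) x =
      LinearMap.rTensor Q (σ s) (LinearMap.rTensor Q (σ t) x) := by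
  have h : σ (s * t) = σ s ∘ₗ σ t := LinearMap.ext (hm s t)
  rw [h, LinearMap.rTensor_comp]
  rfl

private theorem TLocS_lmul {V : Type*} [AddCommGroup V] [Module k V] {σ : S → V →ₗ[k] V}
    (Q : Type*) [AddCommGroup Q] [Module k Q] (hm : ∀ s t x, σ (s * t) x = σ s (σ t x))
    (s t : S) (x : Q ⊗[k] V) : LinearMap.lTensor Q (σ (s * t)) x =
      LinearMap.lTensor Q (σ s) (LinearMap.lTensor Q (σ t) x) := by
  have h : σ (s * t) = σ s ∘ₗ σ t := LinearMap.ext (hm s t)
  rw [h, LinearMap.lTensor_comp]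
  rfl

/-- Tensor products with a vector space, on the right. -/
theorem LocS.rTensor (h : LocS f σ σ') (Q : Type*) [AddCommGroup Q] [Module k Q] :
    LocS (LinearMap.rTensor Q f) (fun s => LinearMap.rTensor Q (σ s))
      (fun s => LinearMap.rTensor Q (σ' s)) := by
  have hn : ∀ s x, LinearMap.rTensor Q f (LinearMap.rTensor Q (σ s) x) =
      LinearMap.rTensor Q (σ' s) (LinearMap.rTensor Q f x) := by
    intro s x
    induction x using TensorProduct.induction_on with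
    | zero => simp only [map_zero]
    | tmul v q => rw [LinearMap.rTensor_tmul, LinearMap.rTensor_tmul, LinearMap.rTensor_tmul,
        LinearMap.rTensor_tmul, h.nat]
    | add x y hx hy => simp only [map_add, hx, hy]
  refine ⟨TLocS_rmul Q h.mul, TLocS_rmul Q h.mul', hn, fun y => ?_, fun x hx => ?_⟩
  · induction y using TensorProduct.induction_on with
    | zero => exact ⟨1, 0, by rw [map_zero, map_zero]⟩
    | tmul v q =>
      obtain ⟨n, x, hx⟩ := h.surj v
      exact ⟨n, x ⊗ₜ q, by rw [LinearMap.rTensor_tmul, LinearMap.rTensor_tmul, hx]⟩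
    | add x y hx hy =>
      exact surjS_add (σ := fun s => LinearMap.rTensor Q (σ s)) (TLocS_rmul Q h.mul') hn hx hy
  · have h1 := Module.Flat.rTensor_exact (M := Q) (f := (LinearMap.ker f).subtype) (g := f)
      (LinearMap.exact_subtype_ker_map f)
    obtain ⟨w, rfl⟩ := (h1 x).1 hx
    clear hx
    induction w using TensorProduct.induction_on with
    | zero => exact ⟨1, by rw [map_zero, map_zero]⟩
    | tmul v q =>
      obtain ⟨n, hv⟩ := h.inj v.1 v.2
      exact ⟨n, by rw [LinearMap.rTensor_tmul, LinearMap.rTensor_tmul,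
        Submodule.subtype_apply, hv, TensorProduct.zero_tmul]⟩
    | add x y hx hy =>
      rw [map_add]
      exact torsS_add (TLocS_rmul Q h.mul) hx hy

/-- Tensor products with a vector space, on the left. -/
theorem LocS.lTensor (h : LocS f σ σ') (Q : Type*) [AddCommGroup Q] [Module k Q] :
    LocS (LinearMap.lTensor Q f) (fun s => LinearMap.lTensor Q (σ s))
      (fun s => LinearMap.lTensor Q (σ' s)) := by
  have hn : ∀ s x, LinearMap.lTensor Q f (LinearMap.lTensor Q (σ s) x) =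
      LinearMap.lTensor Q (σ' s) (LinearMap.lTensor Q f x) := by
    intro s x
    induction x using TensorProduct.induction_on with
    | zero => simp only [map_zero]
    | tmul v q => rw [LinearMap.lTensor_tmul, LinearMap.lTensor_tmul, LinearMap.lTensor_tmul,
        LinearMap.lTensor_tmul, h.nat]
    | add x y hx hy => simp only [map_add, hx, hy]
  refine ⟨TLocS_lmul Q h.mul, TLocS_lmul Q h.mul', hn, fun y => ?_, fun x hx => ?_⟩
  · induction y using TensorProduct.induction_on with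
    | zero => exact ⟨1, 0, by rw [map_zero, map_zero]⟩
    | tmul q v =>
      obtain ⟨n, x, hx⟩ := h.surj v
      exact ⟨n, q ⊗ₜ x, by rw [LinearMap.lTensor_tmul, LinearMap.lTensor_tmul, hx]⟩
    | add x y hx hy =>
      exact surjS_add (σ := fun s => LinearMap.lTensor Q (σ s)) (TLocS_lmul Q h.mul') hn hx hy
  · have h1 := Module.Flat.lTensor_exact (M := Q) (f := (LinearMap.ker f).subtype) (g := f)
      (LinearMap.exact_subtype_ker_map f)
    obtain ⟨w, rfl⟩ := (h1 x).1 hx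
    clear hx
    induction w using TensorProduct.induction_on with
    | zero => exact ⟨1, by rw [map_zero, map_zero]⟩
    | tmul v q =>
      obtain ⟨n, hv⟩ := h.inj q.1 q.2
      exact ⟨n, by rw [LinearMap.lTensor_tmul, LinearMap.lTensor_tmul,
        Submodule.subtype_apply, hv, TensorProduct.tmul_zero]⟩
    | add x y hx hy =>
      rw [map_add]
      exact torsS_add (TLocS_lmul Q h.mul) hx hy

end field

section tb

variable {k : Type u} [Field k] {S : Type*} [CommMonoid S] {A A' W C C' : DGA k}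

/-- (6.1) Tensor products over a dg algebra, first variable. -/
theorem LocS.tbR {X : Bim A W} {X' : Bim A' W} {f : X.M →ₗ[k] X'.M} {σ : S → X.M →ₗ[k] X.M}
    {σ' : S → X'.M →ₗ[k] X'.M} (h : LocS f σ σ') (hf : ∀ w x, f (X.r w x) = X'.r w (f x))
    (ht : ∀ s w x, σ s (X.r w x) = X.r w (σ s x))
    (ht' : ∀ s w x, σ' s (X'.r w x) = X'.r w (σ' s x))
    (Q : Bim W C) {F : (tb X Q).M →ₗ[k] (tb X' Q).M} {T : S → (tb X Q).M →ₗ[k] (tb X Q).M}
    {T' : S → (tb X' Q).M →ₗ[k] (tb X' Q).M} (hF : ∀ x q, F (tm x q) = tm (f x) q)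
    (hT : ∀ s x q, T s (tm x q) = tm (σ s x) q)
    (hT' : ∀ s x q, T' s (tm x q) = tm (σ' s x) q) : LocS F T T' := by
  have hc : ∀ {A₀ A₁ : DGA k} {Y : Bim A₀ W} {Y' : Bim A₁ W} (φ : Y.M →ₗ[k] Y'.M)
      (_ : ∀ w x, φ (Y.r w x) = Y'.r w (φ x)) (e : Y.M ⊗[k] (W.A ⊗[k] Q.M)),
      LinearMap.rTensor Q.M φ (relMap Y Q e) =
        relMap Y' Q (LinearMap.rTensor (W.A ⊗[k] Q.M) φ e) := by
    intro A₀ A₁ Y Y' φ hφ e
    induction e using TensorProduct.induction_on with
    | zero => simp only [map_zero]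
    | add x y hx hy => simp only [map_add, hx, hy]
    | tmul y z =>
      induction z using TensorProduct.induction_on with
      | zero => simp only [TensorProduct.tmul_zero, map_zero]
      | add x y hx hy => simp only [TensorProduct.tmul_add, map_add, hx, hy]
      | tmul w q => rw [LinearMap.rTensor_tmul, relMap_tmul, relMap_tmul, map_sub,
          LinearMap.rTensor_tmul, LinearMap.rTensor_tmul, hφ]
  have hmk : ∀ {A₀ : DGA k} (Y : Bim A₀ W) (x : Y.M ⊗[k] Q.M),
      (rel Y Q).mkQ x = 0 ↔ ∃ e, relMap Y Q e = x := by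
    intro A₀ Y x
    rw [Submodule.mkQ_apply, Submodule.Quotient.mk_eq_zero]
    rfl
  have hall : ∀ {A₀ A₁ : DGA k} {Y : Bim A₀ W} {Y' : Bim A₁ W} (φ : Y.M →ₗ[k] Y'.M)
      (Φ : (tb Y Q).M →ₗ[k] (tb Y' Q).M) (_ : ∀ x q, Φ (tm x q) = tm (φ x) q)
      (x : Y.M ⊗[k] Q.M), Φ ((rel Y Q).mkQ x) = (rel Y' Q).mkQ (LinearMap.rTensor Q.M φ x) := by
    intro A₀ A₁ Y Y' φ Φ hΦ x
    induction x using TensorProduct.induction_on with
    | zero =>
      rw [map_zero, map_zero, map_zero]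
      exact map_zero Φ
    | add x y hx hy =>
      rw [map_add, map_add, map_add, ← hx, ← hy]
      exact map_add Φ _ _
    | tmul y q =>
      rw [LinearMap.rTensor_tmul]
      exact hΦ y q
  exact LocS.coker (h.rTensor Q.M) (h.rTensor (W.A ⊗[k] Q.M)) (R := relMap X Q)
    (R' := relMap X' Q) (hc f hf) (fun s e => (hc (σ s) (ht s) e).symm)
    (fun s e => (hc (σ' s) (ht' s) e).symm)
    (Submodule.mkQ_surjective (rel X Q)) (Submodule.mkQ_surjective (rel X' Q))
    (hmk X) (hmk X') (hall f F hF) (fun s => hall (σ s) (T s) (hT s))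
    (fun s => hall (σ' s) (T' s) (hT' s))

/-- (6.1) Tensor products over a dg algebra, second variable. -/
theorem LocS.tbL {Y : Bim W C} {Y' : Bim W C'} {f : Y.M →ₗ[k] Y'.M} {σ : S → Y.M →ₗ[k] Y.M}
    {σ' : S → Y'.M →ₗ[k] Y'.M} (h : LocS f σ σ') (hf : ∀ w x, f (Y.l w x) = Y'.l w (f x))
    (ht : ∀ s w x, σ s (Y.l w x) = Y.l w (σ s x))
    (ht' : ∀ s w x, σ' s (Y'.l w x) = Y'.l w (σ' s x))
    (Q : Bim A W) {F : (tb Q Y).M →ₗ[k] (tb Q Y').M} {T : S → (tb Q Y).M →ₗ[k] (tb Q Y).M}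
    {T' : S → (tb Q Y').M →ₗ[k] (tb Q Y').M} (hF : ∀ q x, F (tm q x) = tm q (f x))
    (hT : ∀ s q x, T s (tm q x) = tm q (σ s x))
    (hT' : ∀ s q x, T' s (tm q x) = tm q (σ' s x)) : LocS F T T' := by
  have hc : ∀ {C₀ C₁ : DGA k} {Z : Bim W C₀} {Z' : Bim W C₁} (φ : Z.M →ₗ[k] Z'.M)
      (_ : ∀ w x, φ (Z.l w x) = Z'.l w (φ x)) (e : Q.M ⊗[k] (W.A ⊗[k] Z.M)),
      LinearMap.lTensor Q.M φ (relMap Q Z e) =
        relMap Q Z' (LinearMap.lTensor Q.M (LinearMap.lTensor W.A φ) e) := by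
    intro C₀ C₁ Z Z' φ hφ e
    induction e using TensorProduct.induction_on with
    | zero => simp only [map_zero]
    | add x y hx hy => simp only [map_add, hx, hy]
    | tmul y z =>
      induction z using TensorProduct.induction_on with
      | zero => simp only [TensorProduct.tmul_zero, map_zero]
      | add x y hx hy => simp only [TensorProduct.tmul_add, map_add, hx, hy]
      | tmul w q => rw [LinearMap.lTensor_tmul, LinearMap.lTensor_tmul, relMap_tmul, relMap_tmul,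
          map_sub, LinearMap.lTensor_tmul, LinearMap.lTensor_tmul, hφ]
  have hmk : ∀ {C₀ : DGA k} (Z : Bim W C₀) (x : Q.M ⊗[k] Z.M),
      (rel Q Z).mkQ x = 0 ↔ ∃ e, relMap Q Z e = x := by
    intro C₀ Z x
    rw [Submodule.mkQ_apply, Submodule.Quotient.mk_eq_zero]
    rfl
  have hall : ∀ {C₀ C₁ : DGA k} {Z : Bim W C₀} {Z' : Bim W C₁} (φ : Z.M →ₗ[k] Z'.M)
      (Φ : (tb Q Z).M →ₗ[k] (tb Q Z').M) (_ : ∀ q x, Φ (tm q x) = tm q (φ x))
      (x : Q.M ⊗[k] Z.M), Φ ((rel Q Z).mkQ x) = (rel Q Z').mkQ (LinearMap.lTensor Q.M φ x) := by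
    intro C₀ C₁ Z Z' φ Φ hΦ x
    induction x using TensorProduct.induction_on with
    | zero =>
      rw [map_zero, map_zero, map_zero]
      exact map_zero Φ
    | add x y hx hy =>
      rw [map_add, map_add, map_add, ← hx, ← hy]
      exact map_add Φ _ _
    | tmul y q =>
      rw [LinearMap.lTensor_tmul]
      exact hΦ y q
  exact LocS.coker (h.lTensor Q.M) ((h.lTensor W.A).lTensor Q.M) (R := relMap Q Y)
    (R' := relMap Q Y') (hc f hf) (fun s e => (hc (σ s) (ht s) e).symm)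
    (fun s e => (hc (σ' s) (ht' s) e).symm)
    (Submodule.mkQ_surjective (rel Q Y)) (Submodule.mkQ_surjective (rel Q Y'))
    (hmk Y) (hmk Y') (hall f F hF) (fun s => hall (σ s) (T s) (hT s))
    (fun s => hall (σ' s) (T' s) (hT' s))

end tb

/-! ### Cohomology -/

section coh

variable {k : Type u} [CommRing k] {S : Type*} [CommMonoid S] {X Y : Cx k} {f : CHom X Y}
  {σ : S → CHom X X} {σ' : S → CHom Y Y}

/-- Every cocycle of degree `j` is up to `S` the image of one. -/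
theorem LocS.coh_surj (h : LocS f.f (fun s => (σ s).f) (fun s => (σ' s).f)) {j : ℤ} {y : Y.V}
    (h1 : Y.dg.IsDeg j y) (h2 : Y.dg.d y = 0) : ∃ (s : S) (x : X.V), X.dg.IsDeg j x ∧
      X.dg.d x = 0 ∧ f.f x = (σ' s).f y := by
  obtain ⟨n, x, hx⟩ := h.surj y
  obtain ⟨x, hx1, hx⟩ := exists_deg_hom ⟨x, hx⟩ ((σ' n).deg h1)
  have h3 : f.f (X.dg.d x) = 0 := by
    rw [← f.d, hx, (σ' n).d, h2, map_zero]
  obtain ⟨m, hm⟩ := h.inj _ h3
  refine ⟨m * n, (σ m).f x, (σ m).deg hx1, ?_, ?_⟩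
  · rw [(σ m).d, hm]
  · rw [h.mul' m n y]
    exact (h.nat m x).trans (congrArg (σ' m).f hx)

/-- A cocycle whose image is a boundary is a boundary up to `S`. -/
theorem LocS.coh_inj (h : LocS f.f (fun s => (σ s).f) (fun s => (σ' s).f)) {x : X.V} {y : Y.V}
    (hy : Y.dg.d y = f.f x) : ∃ (s : S) (z : X.V), X.dg.d z = (σ s).f x := by
  obtain ⟨n, z, hz⟩ := h.surj y
  have h3 : f.f ((σ n).f x - X.dg.d z) = 0 := by
    rw [map_sub, sub_eq_zero]
    exact (h.nat n x).trans ((congrArg (σ' n).f hy.symm).trans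
      (((σ' n).d y).symm.trans ((congrArg Y.dg.d hz.symm).trans (f.d z))))
  obtain ⟨m, hm⟩ := h.inj _ h3
  refine ⟨m * n, (σ m).f z, ?_⟩
  rw [map_sub, sub_eq_zero] at hm
  rw [(σ m).d, h.mul m n x]
  exact hm.symm

end coh

end Pool.Agent.MP_6e5bed_ag_GG
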