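import Pool.Agent.Lib.MP_6e5bed_ag_GG.TBs
import Pool.Agent.Lib.MP_6e5bed_ag_GG.Defs

set_option autoImplicit false
set_option linter.unusedVariables false
set_option linter.unusedSectionVars false

/-!
# MP_6e5bed_ag, THEOREM G: the coordinate rings act on the sections of `Γ~`
-/

noncomputable section

namespace Pool.Agent.MP_6e5bed_ag_GG

open MvPolynomial Pool.Agent.MP_6e5bed_ag_Pn

universe u

variable {ν : ℕ} {k Γ : Type u} [Field k] [Ring Γ] [Algebra k Γ]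
  [Algebra (MvPolynomial (Fin (ν + 1)) k) Γ] [IsScalarTower k (MvPolynomial (Fin (ν + 1)) k) Γ]
  {𝒢 : ℕ → Submodule k Γ} {i : Type} [Fintype i] [DecidableEq i]

/-- the image of a set of indices -/
def tf (σ : i ≃ Fin (ν + 1)) (c : Set i) : Finset (Fin (ν + 1)) := by
  classical
  exact Finset.univ.filter (fun x => σ.symm x ∈ c)

theorem mem_tf {σ : i ≃ Fin (ν + 1)} {c : Set i} {x : Fin (ν + 1)} :
    x ∈ tf σ c ↔ σ.symm x ∈ c := by
  classical
  unfold tf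
  rw [Finset.mem_filter]
  exact ⟨fun h => h.2, fun h => ⟨Finset.mem_univ x, h⟩⟩

theorem tf_mono {σ : i ≃ Fin (ν + 1)} {c d : Set i} (h : c ⊆ d) : tf σ c ⊆ tf σ d :=
  fun x hx => mem_tf.2 (h (mem_tf.1 hx))

variable (k) in
/-- the monomial with the exponents `f` -/
def mm (f : Fin (ν + 1) → ℕ) : MvPolynomial (Fin (ν + 1)) k := ∏ x, X x ^ f x

theorem mm_mul (f g : Fin (ν + 1) → ℕ) : mm k f * mm k g = mm k (fun x => f x + g x) := by
  unfold mm
  rw [← Finset.prod_mul_distrib]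
  exact Finset.prod_congr rfl fun x _ => (pow_add _ _ _).symm

theorem mm_zero : mm k (fun _ : Fin (ν + 1) => 0) = 1 := by
  unfold mm
  exact Finset.prod_eq_one fun x _ => pow_zero _

theorem mm_X (x : Fin (ν + 1)) : mm k (fun y => if y = x then 1 else 0) = X x := by
  unfold mm
  rw [Finset.prod_eq_single_of_mem x (Finset.mem_univ x)]
  · beta_reduce
    rw [if_pos rfl, pow_one]
  · intro y _ hy
    beta_reduce
    rw [if_neg hy, pow_zero]

theorem xp_mm (I : Finset (Fin (ν + 1))) (m : ℕ) :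
    xp k I ^ m = mm k (fun x => if x ∈ I then m else 0) := by
  unfold xp mm
  rw [← Finset.prod_pow, ← Finset.prod_subset (Finset.subset_univ I)]
  · exact Finset.prod_congr rfl fun x hx => by
      beta_reduce
      rw [if_pos hx]
  · intro x _ hx
    beta_reduce
    rw [if_neg hx, pow_zero]

theorem mm_mem (h : IsGr ν 𝒢) (f : Fin (ν + 1) → ℕ) {m n : ℕ} {a : Γ} (ha : a ∈ 𝒢 m)
    (hn : ∑ x, f x + m = n) : mm k f • a ∈ 𝒢 n := by
  have h1 : (mm k f).IsHomogeneous (∑ x, f x) := by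
    unfold mm
    exact IsHomogeneous.prod _ _ _ fun x _ => by
      have h2 := (isHomogeneous_X k x).pow (f x)
      rwa [one_mul] at h2
  rw [← hn]
  exact h.smul h1 ha

/-- the exponents of `x ^ e` times the power `N` of the product of the variables in `c` -/
def eo (σ : i ≃ Fin (ν + 1)) (c : Set i) (e : i → ℤ) (N : ℕ) (x : Fin (ν + 1)) : ℕ := by
  classical
  exact (e (σ.symm x) + if σ.symm x ∈ c then (N : ℤ) else 0).toNat

/-- the exponents are nonnegative -/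
def NN (c : Set i) (e : i → ℤ) (N : ℕ) : Prop :=
  (∀ j, j ∉ c → 0 ≤ e j) ∧ ∀ j ∈ c, 0 ≤ e j + N

theorem eo_pos {σ : i ≃ Fin (ν + 1)} {c : Set i} {e : i → ℤ} {N : ℕ} (h : NN c e N)
    {x : Fin (ν + 1)} (hx : σ.symm x ∈ c) : (eo σ c e N x : ℤ) = e (σ.symm x) + N := by
  unfold eo
  rw [if_pos hx, Int.toNat_of_nonneg (h.2 _ hx)]

theorem eo_neg {σ : i ≃ Fin (ν + 1)} {c : Set i} {e : i → ℤ} {N : ℕ} (h : NN c e N)
    {x : Fin (ν + 1)} (hx : σ.symm x ∉ c) : (eo σ c e N x : ℤ) = e (σ.symm x) := by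
  unfold eo
  rw [if_neg hx, add_zero, Int.toNat_of_nonneg (h.1 _ hx)]

theorem sum_eo {σ : i ≃ Fin (ν + 1)} {c : Set i} {e : i → ℤ} {N : ℕ} (h : NN c e N)
    (h0 : ∑ j, e j = 0) : ∑ x, eo σ c e N x = N * (tf σ c).card := by
  classical
  have h1 : (∑ x, (eo σ c e N x : ℤ)) = N * (tf σ c).card := by
    have h2 : ∀ x, (eo σ c e N x : ℤ) = e (σ.symm x) + if x ∈ tf σ c then (N : ℤ) else 0 := by
      intro x
      by_cases hx : σ.symm x ∈ c
      · rw [eo_pos h hx, if_pos (mem_tf.2 hx)]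
      · rw [eo_neg h hx, if_neg (fun hh => hx (mem_tf.1 hh)), add_zero]
    rw [Finset.sum_congr rfl fun x _ => h2 x, Finset.sum_add_distrib,
      Equiv.sum_comp σ.symm e, h0, zero_add, Finset.sum_ite_mem, Finset.univ_inter,
      Finset.sum_const, nsmul_eq_mul, mul_comm]
  exact_mod_cast h1

theorem NN.mono {c : Set i} {e : i → ℤ} {N N' : ℕ} (h : NN c e N) (hN : N ≤ N') : NN c e N' :=
  ⟨h.1, fun j hj => by
    have h1 := h.2 j hj
    have h2 : (N : ℤ) ≤ N' := by exact_mod_cast hN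
    omega⟩

theorem NN.sub {c d : Set i} (hcd : c ⊆ d) {e : i → ℤ} {N : ℕ} (h : NN c e N) : NN d e N :=
  ⟨fun j hj => h.1 j fun hh => hj (hcd hh), fun j hj => by
    by_cases hc : j ∈ c
    · exact h.2 j hc
    · have h1 := h.1 j hc
      omega⟩

theorem NN.add {c : Set i} {e e' : i → ℤ} {N N' : ℕ} (h : NN c e N) (h' : NN c e' N') :
    NN c (e + e') (N + N') :=
  ⟨fun j hj => add_nonneg (h.1 j hj) (h'.1 j hj), fun j hj => by
    have h1 := h.2 j hj
    have h2 := h'.2 j hj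
    rw [Pi.add_apply]
    push_cast
    omega⟩

/-- a sufficiently large exponent -/
def Nb (e : i → ℤ) : ℕ := ∑ j, (e j).natAbs

theorem nn_Nb {c : Set i} {e : i → ℤ} (h : IsEx c 0 e) : NN c e (Nb e) :=
  ⟨h.2, fun j _ => by
    have h1 : (e j).natAbs ≤ Nb e :=
      Finset.single_le_sum (f := fun j => (e j).natAbs) (fun _ _ => Nat.zero_le _)
        (Finset.mem_univ j)
    omega⟩

variable {B : Finset (Fin (ν + 1)) → Type u} [∀ I, Ring (B I)] [∀ I, Algebra k (B I)]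
  {r : ∀ I J : Finset (Fin (ν + 1)), I ⊆ J → B I →ₐ[k] B J}
  {q : ∀ I : Finset (Fin (ν + 1)), ℕ → Γ → B I}

variable (k q) in
/-- the fraction `x ^ e`, with the denominator `x_c ^ N` -/
def Mq (σ : i ≃ Fin (ν + 1)) (c : Set i) (e : i → ℤ) (N : ℕ) : B (tf σ c) :=
  q (tf σ c) N (mm k (eo σ c e N) • 1)

theorem Mq_mem (h : IsGr ν 𝒢) (σ : i ≃ Fin (ν + 1)) {c : Set i} {e : i → ℤ} {N : ℕ}
    (he : NN c e N) (h0 : ∑ j, e j = 0) :
    mm k (eo σ c e N) • (1 : Γ) ∈ 𝒢 (N * (tf σ c).card) :=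
  mm_mem h _ h.one (by rw [add_zero, sum_eo he h0])

/-- multiplication of a fraction by `x ^ e` -/
theorem Mq_mul_q (h : IsGr ν 𝒢) (hq : IsSec 𝒢 r q) (σ : i ≃ Fin (ν + 1)) {c : Set i}
    {e : i → ℤ} {N : ℕ} (he : NN c e N) (h0 : ∑ j, e j = 0) {m : ℕ} {a : Γ}
    (ha : a ∈ 𝒢 (m * (tf σ c).card)) :
    Mq k q σ c e N * q (tf σ c) m a = q (tf σ c) (N + m) (mm k (eo σ c e N) • a) := by
  unfold Mq
  rw [← hq.mul _ _ _ _ _ (Mq_mem h σ he h0) ha, smul_mul_assoc, one_mul]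

theorem q_mul_Mq (h : IsGr ν 𝒢) (hq : IsSec 𝒢 r q) (σ : i ≃ Fin (ν + 1)) {c : Set i}
    {e : i → ℤ} {N : ℕ} (he : NN c e N) (h0 : ∑ j, e j = 0) {m : ℕ} {a : Γ}
    (ha : a ∈ 𝒢 (m * (tf σ c).card)) :
    q (tf σ c) m a * Mq k q σ c e N = q (tf σ c) (N + m) (mm k (eo σ c e N) • a) := by
  unfold Mq
  rw [← hq.mul _ _ _ _ _ ha (Mq_mem h σ he h0), mul_smul_comm, mul_one, Nat.add_comm]

theorem Mq_comm (h : IsGr ν 𝒢) (hq : IsSec 𝒢 r q) (σ : i ≃ Fin (ν + 1)) {c : Set i}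
    {e : i → ℤ} {N : ℕ} (he : NN c e N) (h0 : ∑ j, e j = 0) (b : B (tf σ c)) :
    Mq k q σ c e N * b = b * Mq k q σ c e N := by
  obtain ⟨m, a, ha, rfl⟩ := hq.surj _ b
  rw [Mq_mul_q h hq σ he h0 ha, q_mul_Mq h hq σ he h0 ha]

/-- the exponents for a bigger denominator -/
theorem eo_add (σ : i ≃ Fin (ν + 1)) {c : Set i} {e : i → ℤ} {N : ℕ} (he : NN c e N) (m : ℕ) :
    xp k (tf σ c) ^ m * mm k (eo σ c e N) = mm k (eo σ c e (N + m)) := by
  rw [xp_mm, mm_mul]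
  congr 1
  funext x
  by_cases hx : σ.symm x ∈ c
  · have h1 := eo_pos he hx
    have h2 := eo_pos (he.mono (Nat.le_add_right N m)) hx
    rw [if_pos (mem_tf.2 hx)]
    push_cast at h2
    omega
  · have h1 := eo_neg he hx
    have h2 := eo_neg (he.mono (Nat.le_add_right N m)) hx
    rw [if_neg (fun hh => hx (mem_tf.1 hh))]
    omega

theorem Mq_add (h : IsGr ν 𝒢) (hq : IsSec 𝒢 r q) (σ : i ≃ Fin (ν + 1)) {c : Set i}
    {e : i → ℤ} {N : ℕ} (he : NN c e N) (h0 : ∑ j, e j = 0) (m : ℕ) :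
    Mq k q σ c e (N + m) = Mq k q σ c e N := by
  unfold Mq
  rw [← hq.step_pow h m (Mq_mem h σ he h0), ← mul_smul, eo_add σ he m]

/-- the fraction does not depend on the denominator -/
theorem Mq_eq (h : IsGr ν 𝒢) (hq : IsSec 𝒢 r q) (σ : i ≃ Fin (ν + 1)) {c : Set i}
    {e : i → ℤ} {N N' : ℕ} (he : NN c e N) (he' : NN c e N') (h0 : ∑ j, e j = 0) :
    Mq k q σ c e N = Mq k q σ c e N' := by
  rw [← Mq_add h hq σ he h0 N', ← Mq_add h hq σ he' h0 N, Nat.add_comm]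

theorem Mq_mul (h : IsGr ν 𝒢) (hq : IsSec 𝒢 r q) (σ : i ≃ Fin (ν + 1)) {c : Set i}
    {e e' : i → ℤ} {N N' : ℕ} (he : NN c e N) (he' : NN c e' N') (h0 : ∑ j, e j = 0)
    (h0' : ∑ j, e' j = 0) :
    Mq k q σ c e N * Mq k q σ c e' N' = Mq k q σ c (e + e') (N + N') := by
  have h1 := Mq_mul_q h hq σ he h0 (Mq_mem h σ he' h0')
  refine h1.trans ?_
  unfold Mq
  rw [← mul_smul, mm_mul]
  congr 2
  congr 1
  funext x
  by_cases hx : σ.symm x ∈ c
  · have h1 := eo_pos he hx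
    have h2 := eo_pos he' hx
    have h3 := eo_pos (he.add he') hx
    rw [Pi.add_apply] at h3
    push_cast at h3
    omega
  · have h1 := eo_neg he hx
    have h2 := eo_neg he' hx
    have h3 := eo_neg (he.add he') hx
    rw [Pi.add_apply] at h3
    omega

theorem Mq_zero (hq : IsSec 𝒢 r q) (σ : i ≃ Fin (ν + 1)) (c : Set i) : Mq k q σ c 0 0 = 1 := by
  unfold Mq
  have h1 : mm k (eo σ c 0 0) = 1 := by
    rw [← mm_zero (ν := ν)]
    congr 1
    funext x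
    unfold eo
    simp
  have h2 := hq.const (tf σ c) 1
  rw [map_one, map_one] at h2
  rw [h1, one_smul, h2]

/-- restriction -/
theorem Mq_res (h : IsGr ν 𝒢) (hq : IsSec 𝒢 r q) (σ : i ≃ Fin (ν + 1)) {c d : Set i}
    (hcd : c ⊆ d) {e : i → ℤ} {N : ℕ} (he : NN c e N) (h0 : ∑ j, e j = 0) :
    r (tf σ c) (tf σ d) (tf_mono hcd) (Mq k q σ c e N) = Mq k q σ d e N := by
  unfold Mq
  rw [hq.res _ _ _ _ _ (Mq_mem h σ he h0)]
  have h1 : (∏ j ∈ tf σ d \ tf σ c, X j : MvPolynomial (Fin (ν + 1)) k) ^ N =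
    mm k (fun x => if x ∈ tf σ d \ tf σ c then N else 0) := xp_mm _ _
  rw [h1, ← mul_smul, mm_mul]
  congr 2
  congr 1
  funext x
  by_cases hx : σ.symm x ∈ c
  · have h1 := eo_pos he hx
    have h2 := eo_pos (he.sub hcd) (hcd hx)
    rw [if_neg (fun hh => (Finset.mem_sdiff.1 hh).2 (mem_tf.2 hx))]
    omega
  · have h1 := eo_neg he hx
    by_cases hd : σ.symm x ∈ d
    · have h2 := eo_pos (he.sub hcd) hd
      rw [if_pos (Finset.mem_sdiff.2 ⟨mem_tf.2 hd, fun hh => hx (mem_tf.1 hh)⟩)]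
      omega
    · have h2 := eo_neg (he.sub hcd) hd
      rw [if_neg (fun hh => hd (mem_tf.1 (Finset.mem_sdiff.1 hh).1))]
      omega

end Pool.Agent.MP_6e5bed_ag_GG
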