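import Pool.Agent.Lib.MP_6e5bed_ag_GG.TPhi

set_option autoImplicit false
set_option linter.unusedVariables false
set_option linter.unusedSectionVars false

/-!
# MP_6e5bed_ag, THEOREM G: Čech complexes in components, products and differentials
-/

noncomputable section

namespace Pool.Agent.MP_6e5bed_ag_GG

open Pool.Agent.MP_6e5bed_ag_NC Pool.Agent.MP_6e5bed_ag_NS Pool.Agent.MP_6e5bed_ag_PN

universe u

variable {k : Type u} [Field k] {i : Type} [Fintype i] [DecidableEq i] {A : CA k i}
  {J : Type} [LinearOrder J] {σ : i → J}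

/-- the list is strictly decreasing -/
def Dec (σ : i → J) (L : List i) : Prop := L.Pairwise (fun a b => σ b < σ a)

theorem Dec.nodup {L : List i} (h : Dec σ L) : L.Nodup :=
  List.Pairwise.imp (fun {a b} hab => fun e => absurd hab (by rw [e]; exact lt_irrefl _)) h

theorem Dec.tail {l : i} {L : List i} (h : Dec σ (l :: L)) : Dec σ L := (List.pairwise_cons.1 h).2

theorem Dec.lt {l : i} {L : List i} (h : Dec σ (l :: L)) {x : i} (hx : x ∈ L) : σ x < σ l :=
  (List.pairwise_cons.1 h).1 x hx

/-- the cup product of families -/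
def cup (σ : i → J) (u v : Fam A) : Fam A := fun I d =>
  ∑ j ∈ I, u (I.filter (fun x => σ x ≤ σ j)) d * v (I.filter (fun x => σ j ≤ σ x)) d

/-- the differential of families -/
def dF (σ : i → J) (u : Fam A) : Fam A := fun I d =>
  ∑ j ∈ I, if I.erase j = ∅ then 0 else
    (-1 : ℤ) ^ (I.filter (fun x => σ x < σ j)).card • u (I.erase j) d

theorem sum_max {M : Type u} [AddCommGroup M] (hσ : Function.Injective σ) {I : Finset i}
    (hI : I.Nonempty) (f : Finset i → Finset i → M)
    (hf : ∀ S T : Finset i, T.card ≠ 1 → f S T = 0) (y : M)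
    (hy : ∀ j ∈ I, f I {j} = y) :
    ∑ j ∈ I, f (I.filter (fun x => σ x ≤ σ j)) (I.filter (fun x => σ j ≤ σ x)) = y := by
  obtain ⟨m, hm, hmax⟩ := I.exists_max_image σ hI
  rw [Finset.sum_eq_single_of_mem m hm]
  · have h1 : I.filter (fun x => σ x ≤ σ m) = I := Finset.filter_true_of_mem fun x hx => hmax x hx
    have h2 : I.filter (fun x => σ m ≤ σ x) = {m} := by
      ext x
      rw [Finset.mem_filter, Finset.mem_singleton]
      constructor
      · rintro ⟨hx, h⟩
        exact hσ (le_antisymm (hmax x hx) h)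
      · rintro rfl
        exact ⟨hm, le_rfl⟩
    rw [h1, h2]
    exact hy m hm
  · intro j hj hjm
    refine hf _ _ fun hc => hjm ?_
    obtain ⟨z, hz⟩ := Finset.card_eq_one.1 hc
    have h1 : j ∈ I.filter (fun x => σ j ≤ σ x) := Finset.mem_filter.2 ⟨hj, le_rfl⟩
    have h2 : m ∈ I.filter (fun x => σ j ≤ σ x) := Finset.mem_filter.2 ⟨hm, hmax j hj⟩
    rw [hz, Finset.mem_singleton] at h1 h2
    rw [h1, h2]

theorem filter_ins_le {l : i} {L : List i} (h : Dec σ (l :: L)) {I : Finset i}
    (hI : ∀ x ∈ I, x ∈ L) {j : i} (hj : j ∈ I) :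
    (insert l I).filter (fun x => σ x ≤ σ j) = I.filter (fun x => σ x ≤ σ j) := by
  rw [Finset.filter_insert, if_neg (not_le.2 (h.lt (hI j hj)))]

theorem filter_ins_lt {l : i} {L : List i} (h : Dec σ (l :: L)) {I : Finset i}
    (hI : ∀ x ∈ I, x ∈ L) {j : i} (hj : j ∈ I) :
    (insert l I).filter (fun x => σ x < σ j) = I.filter (fun x => σ x < σ j) := by
  rw [Finset.filter_insert, if_neg (not_lt.2 (h.lt (hI j hj)).le)]

theorem filter_ins_ge {l : i} {L : List i} (h : Dec σ (l :: L)) {I : Finset i}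
    (hI : ∀ x ∈ I, x ∈ L) {j : i} (hj : j ∈ I) :
    (insert l I).filter (fun x => σ j ≤ σ x) = insert l (I.filter (fun x => σ j ≤ σ x)) := by
  rw [Finset.filter_insert, if_pos (h.lt (hI j hj)).le]

theorem not_mem_of_dec {l : i} {L : List i} (h : Dec σ (l :: L)) {I : Finset i}
    (hI : ∀ x ∈ I, x ∈ L) : l ∉ I := fun hl => (List.nodup_cons.1 h.nodup).1 (hI l hl)

theorem cup_ins {l : i} {L : List i} (h : Dec σ (l :: L)) (hσ : Function.Injective σ)
    {I : Finset i} (hI : ∀ x ∈ I, x ∈ L) (hne : I.Nonempty) (u v : Fam A) (d : Ch i)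
    {c : Ch i} (y : A.A c) (hcd : c ≤ d) (hy : A.res hcd y = v {l} d) :
    cup σ u v (insert l I) d = cup σ u (pl A l v) I d + cup σ (pl A l u) (augF A c y) I d := by
  have e0 : cup σ (pl A l u) (augF A c y) I d = u (insert l I) d * v {l} d := by
    refine sum_max hσ hne (fun S T => u (insert l S) d * augF A c y T d) (fun S T hT => ?_) _
      (fun j hj => ?_)
    · rw [augF_ne c y T d hT, mul_zero]
    · rw [augF_of c y {j} d (Finset.card_singleton j) hcd, hy]
  have e1 : (insert l I).filter (fun x => σ x ≤ σ l) = insert l I :=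
    Finset.filter_true_of_mem fun x hx => by
      rcases Finset.mem_insert.1 hx with rfl | hx
      · exact le_rfl
      · exact (h.lt (hI x hx)).le
  have e2 : (insert l I).filter (fun x => σ l ≤ σ x) = {l} := by
    rw [Finset.filter_insert, if_pos le_rfl, Finset.filter_false_of_mem, insert_empty_eq]
    exact fun x hx => not_le.2 (h.lt (hI x hx))
  rw [e0]
  unfold cup
  rw [Finset.sum_insert (not_mem_of_dec h hI), e1, e2, add_comm]
  congr 1
  refine Finset.sum_congr rfl fun j hj => ?_
  rw [filter_ins_le h hI hj, filter_ins_ge h hI hj]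
  rfl

theorem Phi_mul (hσ : Function.Injective σ) : ∀ (L : List i) (hL : Dec σ L) (c : FS i)
    (u v : Fam A), Cmp A L c u → Cmp A L c v →
      ((cP A.pa.pp L).q c).m (Phi A L c u) (Phi A L c v) = Phi A L c (cup σ u v)
  | [], _, c, u, v, _, _ => rfl
  | l :: L, hL, c, u, v, hu, hv => by
    have ih := Phi_mul hσ L hL.tail
    refine Prod.ext (Prod.ext (ih c u v hu.tail hv.tail) ?_) ?_
    · change u {l} (c.ins l) * v {l} (c.ins l) = cup σ u v {l} (c.ins l)
      unfold cup
      rw [Finset.sum_singleton, Finset.filter_true_of_mem, Finset.filter_true_of_mem]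
      · intro x hx
        rw [Finset.mem_singleton.1 hx]
      · intro x hx
        rw [Finset.mem_singleton.1 hx]
    · have hle : c ≤ (c.ins l).fs := le_ins c l
      have hu' : Cmp A L (c.ins l).fs u := Cmp.mono hle hu.tail
      have e1 : ((cC A.pa.pc L).ρ (le_ins c l)).f (((cC A.pa.pc L).X c).dg.s (Phi A L c u)) =
          ((cC A.pa.pc L).X (c.ins l).fs).dg.s (Phi A L (c.ins l).fs u) := by
        rw [← CHom.s, Phi_ρ L (le_ins c l) u hu.tail]
      have hnd : L.Nodup := hL.tail.nodup
      let y : A.A (c.ins l) := v {l} (c.ins l)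
      have e2 : ((cC A.pa.pc L).a (c.ins l)).f (v {l} (c.ins l)) =
          ((cC A.pa.pc L).X (c.ins l).fs).dg.s (Phi A L (c.ins l).fs (augF A (c.ins l) y)) := by
        rw [← Phi_aug L hnd (c.ins l) y, CHom.s]
        exact congrArg _ (Dg.conc_s (k := k) (V := A.A (c.ins l)) y).symm
      have hy : ∀ (d : Ch i) (h : c.ins l ≤ d), A.res h y = v {l} d := fun d h =>
        hv {l} (c.ins l) d h (Finset.singleton_nonempty l) (fun x hx => by
          rw [Finset.mem_singleton.1 hx]
          exact List.mem_cons_self) (Set.subset_insert l c.1) (by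
          rw [Finset.coe_singleton, Set.singleton_subset_iff]
          exact Set.mem_insert l c.1)
      have haug : Cmp A L (c.ins l).fs (augF A (c.ins l) y) := by
        intro I d e h hI hIL hc hd
        have h1 : c.ins l ≤ d := hc
        by_cases hc1 : I.card = 1
        · rw [augF_of _ y I d hc1 h1, augF_of _ y I e hc1 (h1.trans h), A.res_res]
        · rw [augF_ne _ y I d hc1, augF_ne _ y I e hc1, map_zero]
      change ((cP A.pa.pp L).q _).m (((cC A.pa.pc L).ρ (le_ins c l)).f
          (((cC A.pa.pc L).X c).dg.s (Phi A L c u)))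
          (((cC A.pa.pc L).X (c.ins l).fs).dg.s (Phi A L (c.ins l).fs (pl A l v))) +
        ((cP A.pa.pp L).q _).m
          (((cC A.pa.pc L).X (c.ins l).fs).dg.s (Phi A L (c.ins l).fs (pl A l u)))
          (((cC A.pa.pc L).a (c.ins l)).f (v {l} (c.ins l))) =
        ((cC A.pa.pc L).X (c.ins l).fs).dg.s (Phi A L (c.ins l).fs (pl A l (cup σ u v)))
      rw [e1, e2, ← CPr.s, ← CPr.s, ih _ _ _ hu' hv.pl, ih _ _ _ hu.pl haug, ← map_add,
        ← map_add]
      congr 1
      refine Phi_congr L _ _ _ fun I d hI hIL hc hd => ?_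
      exact (cup_ins hL hσ hIL hI u v d y hc (hy d hc)).symm

end Pool.Agent.MP_6e5bed_ag_GG
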