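import Pool.Agent.Lib.MP_6e5bed_ag_GG.BB

set_option autoImplicit false
set_option linter.unusedVariables false
set_option linter.unusedSectionVars false

/-!
# MP_6e5bed_ag, THEOREM G: Čech complexes in components

A family `u` consists of elements `u I d` of `A d`, for the finite sets of indices `I` and the
charts `d`; it defines the element `Phi L c u` of the Čech complex with respect to the list `L` on
`c`, with the components `u I (c ∪ I)`, `I ⊆ L` nonempty, up to signs.
-/

noncomputable section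

namespace Pool.Agent.MP_6e5bed_ag_GG

open Pool.Agent.MP_6e5bed_ag_NC Pool.Agent.MP_6e5bed_ag_NS Pool.Agent.MP_6e5bed_ag_PN

universe u

variable {k : Type u} [Field k] {i : Type} [Fintype i] [DecidableEq i]

/-- families of sections -/
abbrev Fam (A : CA k i) : Type u := ∀ (_ : Finset i) (d : Ch i), A.A d

/-- `u ↦ (I ↦ u (I ∪ l))` -/
def pl (A : CA k i) (l : i) : Fam A →ₗ[k] Fam A where
  toFun := fun u I d => u (insert l I) d
  map_add' := fun _ _ => rfl
  map_smul' := fun _ _ => rfl

/-- the component of one index -/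
def ev1 (A : CA k i) (l : i) (d : Ch i) : Fam A →ₗ[k] A.A d where
  toFun := fun u => u {l} d
  map_add' := fun _ _ => rfl
  map_smul' := fun _ _ => rfl

/-- The element of the Čech complex with given components. -/
def Phi (A : CA k i) : ∀ (L : List i) (c : FS i), Fam A →ₗ[k] ((cC A.pa.pc L).X c).V
  | [], _ => 0
  | l :: L, c => LinearMap.prod (LinearMap.prod (Phi A L c) (ev1 A l (c.ins l)))
      (((cC A.pa.pc L).X (c.ins l).fs).dg.s ∘ₗ Phi A L (c.ins l).fs ∘ₗ pl A l)

variable {A : CA k i}

theorem Phi_cons (l : i) (L : List i) (c : FS i) (u : Fam A) :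
    Phi A (l :: L) c u = co.mk ((cC A.pa.pc L).ρ (le_ins c l)) ((cC A.pa.pc L).a (c.ins l))
      (Phi A L c u) (u {l} (c.ins l))
      (((cC A.pa.pc L).X (c.ins l).fs).dg.s (Phi A L (c.ins l).fs (pl A l u))) := rfl

/-- the components only matter for nonempty `I ⊆ L` and `d ⊇ c ∪ I` -/
theorem Phi_congr : ∀ (L : List i) (c : FS i) (u v : Fam A),
    (∀ (I : Finset i) (d : Ch i), I.Nonempty → (∀ x ∈ I, x ∈ L) → c.1 ⊆ d.1 → ↑I ⊆ d.1 →
      u I d = v I d) → Phi A L c u = Phi A L c v
  | [], c, u, v, _ => rfl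
  | l :: L, c, u, v, h => by
    rw [Phi_cons, Phi_cons]
    have h0 : Phi A L c u = Phi A L c v := Phi_congr L c u v fun I d hI hL hc hd =>
      h I d hI (fun x hx => List.mem_cons_of_mem l (hL x hx)) hc hd
    have h1 : u {l} (c.ins l) = v {l} (c.ins l) := h {l} (c.ins l) (Finset.singleton_nonempty l)
      (fun x hx => by
        rw [Finset.mem_singleton.1 hx]
        exact List.mem_cons_self) (Set.subset_insert l c.1) (by
        rw [Finset.coe_singleton, Set.singleton_subset_iff]
        exact Set.mem_insert l c.1)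
    have h2 : Phi A L (c.ins l).fs (pl A l u) = Phi A L (c.ins l).fs (pl A l v) :=
      Phi_congr L _ _ _ fun I d hI hL hc hd => h (insert l I) d (Finset.insert_nonempty l I)
        (fun x hx => by
          rcases Finset.mem_insert.1 hx with rfl | hx
          · exact List.mem_cons_self
          · exact List.mem_cons_of_mem l (hL x hx)) ((Set.subset_insert l c.1).trans hc) (by
        rw [Finset.coe_insert]
        exact Set.insert_subset (hc (Set.mem_insert l c.1)) hd)
    rw [h0, h1, h2]

theorem Phi_zero' (L : List i) (c : FS i) (u : Fam A)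
    (h : ∀ (I : Finset i) (d : Ch i), I.Nonempty → (∀ x ∈ I, x ∈ L) → c.1 ⊆ d.1 → ↑I ⊆ d.1 →
      u I d = 0) : Phi A L c u = 0 := by
  have h1 := Phi_congr L c u 0 h
  rwa [map_zero] at h1

/-- the components are compatible with the restriction maps -/
def Cmp (A : CA k i) (L : List i) (c : FS i) (u : Fam A) : Prop :=
  ∀ (I : Finset i) (d e : Ch i) (h : d ≤ e), I.Nonempty → (∀ x ∈ I, x ∈ L) → c.1 ⊆ d.1 →
    ↑I ⊆ d.1 → A.res h (u I d) = u I e

theorem Cmp.tail {l : i} {L : List i} {c : FS i} {u : Fam A} (h : Cmp A (l :: L) c u) :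
    Cmp A L c u := fun I d e hde hI hL hc hd =>
  h I d e hde hI (fun x hx => List.mem_cons_of_mem l (hL x hx)) hc hd

theorem Cmp.mono {L : List i} {c c' : FS i} (hc : c ≤ c') {u : Fam A} (h : Cmp A L c u) :
    Cmp A L c' u := fun I d e hde hI hL hc' hd => h I d e hde hI hL (fun x hx => hc' (hc hx)) hd

theorem Cmp.pl {l : i} {L : List i} {c : FS i} {u : Fam A} (h : Cmp A (l :: L) c u) :
    Cmp A L (c.ins l).fs (pl A l u) := fun I d e hde hI hL hc hd =>
  h (insert l I) d e hde (Finset.insert_nonempty l I) (fun x hx => by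
    rcases Finset.mem_insert.1 hx with rfl | hx
    · exact List.mem_cons_self
    · exact List.mem_cons_of_mem l (hL x hx)) ((Set.subset_insert l c.1).trans hc) (by
    rw [Finset.coe_insert]
    exact Set.insert_subset (hc (Set.mem_insert l c.1)) hd)

theorem Phi_ρ : ∀ (L : List i) {c d : FS i} (h : c ≤ d) (u : Fam A), Cmp A L c u →
    ((cC A.pa.pc L).ρ h).f (Phi A L c u) = Phi A L d u
  | [], c, d, h, u, _ => rfl
  | l :: L, c, d, h, u, hu => by
    refine Prod.ext (Prod.ext (Phi_ρ L h u hu.tail) ?_) ?_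
    · exact hu {l} (c.ins l) (d.ins l) (ins_mono h l) (Finset.singleton_nonempty l)
        (fun x hx => by
          rw [Finset.mem_singleton.1 hx]
          exact List.mem_cons_self) (Set.subset_insert l c.1) (by
          rw [Finset.coe_singleton, Set.singleton_subset_iff]
          exact Set.mem_insert l c.1)
    · have h1 := Phi_ρ L (fs_mono (ins_mono h l)) (MP_6e5bed_ag_GG.pl A l u) hu.pl
      exact (CHom.s ((cC A.pa.pc L).ρ (fs_mono (ins_mono h l))) _).symm.trans (congrArg _ h1)

/-- the family of the restrictions of `v` -/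
def augF (A : CA k i) (c : Ch i) (v : A.A c) : Fam A := by
  classical
  exact fun I d => if h : I.card = 1 ∧ c ≤ d then A.res h.2 v else 0

theorem augF_of (c : Ch i) (v : A.A c) (I : Finset i) (d : Ch i) (h1 : I.card = 1)
    (h : c ≤ d) : augF A c v I d = A.res h v := by
  unfold augF
  rw [dif_pos ⟨h1, h⟩]

theorem augF_ne (c : Ch i) (v : A.A c) (I : Finset i) (d : Ch i) (h1 : I.card ≠ 1) :
    augF A c v I d = 0 := by
  unfold augF
  rw [dif_neg (fun h => h1 h.1)]

theorem card_ins {l : i} {L : List i} (hl : l ∉ L) {I : Finset i} (hI : ∀ x ∈ I, x ∈ L) :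
    (insert l I).card = I.card + 1 :=
  Finset.card_insert_of_notMem fun h => hl (hI l h)

theorem Phi_aug : ∀ (L : List i) (hL : L.Nodup) (c : Ch i) (v : A.A c),
    ((cC A.pa.pc L).a c).f v = Phi A L (Ch.fs c) (augF A c v)
  | [], _, c, v => rfl
  | l :: L, hL, c, v => by
    refine Prod.ext (Prod.ext (Phi_aug L (List.nodup_cons.1 hL).2 c v) ?_) ?_
    · exact (augF_of c v {l} ((Ch.fs c).ins l) (Finset.card_singleton l) (le_ins' c l)).symm
    · change (0 : ((cC A.pa.pc L).X ((Ch.fs c).ins l).fs).V) =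
        ((cC A.pa.pc L).X ((Ch.fs c).ins l).fs).dg.s (Phi A L ((Ch.fs c).ins l).fs (pl A l (augF A c v)))
      rw [Phi_zero' L _ (pl A l (augF A c v)), map_zero]
      intro I d hI hIL _ _
      refine augF_ne c v (insert l I) d ?_
      rw [card_ins (List.nodup_cons.1 hL).1 hIL]
      have := hI.card_pos
      omega

/-- the signs -/
def sgF (A : CA k i) (u : Fam A) : Fam A := fun I d => (-1 : ℤ) ^ (I.card + 1) • u I d

theorem Phi_s : ∀ (L : List i) (hL : L.Nodup) (c : FS i) (u : Fam A),
    ((cC A.pa.pc L).X c).dg.s (Phi A L c u) = Phi A L c (sgF A u)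
  | [], _, c, u => rfl
  | l :: L, hL, c, u => by
    rw [Phi_cons]
    refine (co_s _ _ _).trans ?_
    have e1 : u {l} (c.ins l) = sgF A u {l} (c.ins l) := by
      unfold sgF
      rw [Finset.card_singleton]
      norm_num
    have e2 : (A.pa.pc.X (c.ins l)).dg.s (u {l} (c.ins l)) = u {l} (c.ins l) :=
      Dg.conc_s (k := k) (V := A.A (c.ins l)) _
    refine Prod.ext (Prod.ext (Phi_s L (List.nodup_cons.1 hL).2 c u) (e2.trans e1)) ?_
    change - ((cC A.pa.pc L).X (c.ins l).fs).dg.s (((cC A.pa.pc L).X (c.ins l).fs).dg.s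
      (Phi A L (c.ins l).fs (pl A l u))) = ((cC A.pa.pc L).X (c.ins l).fs).dg.s
      (Phi A L (c.ins l).fs (pl A l (sgF A u)))
    rw [Phi_s L (List.nodup_cons.1 hL).2, ← map_neg, ← map_neg]
    congr 1
    refine Phi_congr L _ _ _ fun I d hI hIL _ _ => ?_
    change - ((-1 : ℤ) ^ (I.card + 1) • u (insert l I) d) =
      (-1 : ℤ) ^ ((insert l I).card + 1) • u (insert l I) d
    rw [card_ins (List.nodup_cons.1 hL).1 hIL, pow_succ (-1 : ℤ) (I.card + 1), mul_neg_one,
      neg_smul]

end Pool.Agent.MP_6e5bed_ag_GG
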