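import Pool.Agent.Lib.MP_6e5bed_ag_GG.TMo

set_option autoImplicit false
set_option linter.unusedVariables false
set_option linter.unusedSectionVars false

/-!
# MP_6e5bed_ag, THEOREM G: the homomorphism from the coordinate ring of a chart to the sections
-/

noncomputable section

namespace Pool.Agent.MP_6e5bed_ag_GG

open MvPolynomial Pool.Agent.MP_6e5bed_ag_Pn

universe u

section ind

variable {k : Type u} [Field k] {i : Type} [Fintype i]

/-- induction over the coordinate ring -/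
theorem RR_ind {c : Set i} {P : RR k c → Prop}
    (hm : ∀ (e : i → ℤ) (he : IsEx c 0 e), P ⟨mon k e, mon_mem he⟩) (h0 : P 0)
    (ha : ∀ f g, P f → P g → P (f + g)) (hs : ∀ (s : k) f, P f → P (s • f)) (f : RR k c) :
    P f := by
  obtain ⟨f, hf⟩ := f
  have key : ∀ g (hg : g ∈ OO k 0 c), P ⟨g, hg⟩ := by
    intro g hg
    induction hg using Submodule.span_induction with
    | mem x hx =>
      obtain ⟨e, he, rfl⟩ := hx
      exact hm e he
    | zero => exact h0
    | add x y hx hy h1 h2 => exact ha ⟨x, hx⟩ ⟨y, hy⟩ h1 h2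
    | smul s x hx h1 => exact hs s ⟨x, hx⟩ h1
  exact key f hf

/-- the linear map with given values on the monomials -/
def lift1 {V : Type u} [AddCommGroup V] [Module k V] (M : (i → ℤ) → V) : Lau k i →ₗ[k] V where
  toFun := fun f => Finsupp.linearCombination k M f.coeff
  map_add' := fun f g => by rw [AddMonoidAlgebra.coeff_add, map_add]
  map_smul' := fun s f => by rw [AddMonoidAlgebra.coeff_smul, map_smul]; rfl

theorem lift1_mon {V : Type u} [AddCommGroup V] [Module k V] (M : (i → ℤ) → V) (e : i → ℤ) :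
    lift1 M (mon k e) = M e := by
  change Finsupp.linearCombination k M (AddMonoidAlgebra.single e (1 : k)).coeff = M e
  rw [AddMonoidAlgebra.coeff_single, Finsupp.linearCombination_single, one_smul]

end ind

variable {ν : ℕ} {k Γ : Type u} [Field k] [Ring Γ] [Algebra k Γ]
  [Algebra (MvPolynomial (Fin (ν + 1)) k) Γ] [IsScalarTower k (MvPolynomial (Fin (ν + 1)) k) Γ]
  {𝒢 : ℕ → Submodule k Γ} {i : Type} [Fintype i] [DecidableEq i]
  {B : Finset (Fin (ν + 1)) → Type u} [∀ I, Ring (B I)] [∀ I, Algebra k (B I)]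
  {r : ∀ I J : Finset (Fin (ν + 1)), I ⊆ J → B I →ₐ[k] B J}
  {q : ∀ I : Finset (Fin (ν + 1)), ℕ → Γ → B I}

/-- The homomorphism from the coordinate ring to the sections, `x ^ e ↦ x ^ e`. -/
theorem exists_rho (h : IsGr ν 𝒢) (hq : IsSec 𝒢 r q) (σ : i ≃ Fin (ν + 1)) (c : Set i) :
    ∃ ρ : RR k c →ₐ[k] B (tf σ c), (∀ (e : i → ℤ) (he : IsEx c 0 e) (N : ℕ), NN c e N →
      ρ ⟨mon k e, mon_mem he⟩ = Mq k q σ c e N) := by
  let L : RR k c →ₗ[k] B (tf σ c) :=
    lift1 (fun e => Mq k q σ c e (Nb e)) ∘ₗ (RR k c).val.toLinearMap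
  have hL : ∀ (e : i → ℤ) (he : IsEx c 0 e) (N : ℕ), NN c e N →
      L ⟨mon k e, mon_mem he⟩ = Mq k q σ c e N := by
    intro e he N hN
    have h1 : L ⟨mon k e, mon_mem he⟩ = Mq k q σ c e (Nb e) := lift1_mon _ e
    rw [h1]
    exact Mq_eq h hq σ (nn_Nb he) hN he.1
  have h1 : L 1 = 1 := by
    have h2 : IsEx c 0 (0 : i → ℤ) := ⟨by simp, fun _ _ => le_rfl⟩
    have h3 : (1 : RR k c) = ⟨mon k 0, mon_mem h2⟩ := rfl
    rw [h3, hL 0 h2 0 ⟨fun _ _ => le_rfl, fun _ _ => le_rfl⟩, Mq_zero hq]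
  have h2 : ∀ f g, L (f * g) = L f * L g := by
    intro f
    induction f using RR_ind with
    | hm e he =>
      intro g
      induction g using RR_ind with
      | hm e' he' =>
        have h4 : IsEx c 0 (e + e') := by
          have h4 := he.add he'
          rwa [add_zero] at h4
        have h3 : (⟨mon k e, mon_mem he⟩ : RR k c) * ⟨mon k e', mon_mem he'⟩ =
            ⟨mon k (e + e'), mon_mem h4⟩ := Subtype.ext (mon_mul e e')
        rw [h3, hL e he _ (nn_Nb he), hL e' he' _ (nn_Nb he'),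
          hL _ h4 (Nb e + Nb e') ((nn_Nb he).add (nn_Nb he')),
          Mq_mul h hq σ (nn_Nb he) (nn_Nb he') he.1 he'.1]
      | h0 => rw [mul_zero, map_zero, mul_zero]
      | ha f g hf hg => rw [mul_add, map_add, map_add, mul_add, hf, hg]
      | hs s f hf => rw [mul_smul_comm, map_smul, map_smul, mul_smul_comm, hf]
    | h0 =>
      intro g
      rw [zero_mul, map_zero, zero_mul]
    | ha f f' hf hf' =>
      intro g
      rw [add_mul, map_add, map_add, add_mul, hf, hf']
    | hs s f hf =>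
      intro g
      rw [smul_mul_assoc, map_smul, map_smul, smul_mul_assoc, hf]
  exact ⟨AlgHom.ofLinearMap L h1 h2, hL⟩

/-- the homomorphism from the coordinate ring to the sections -/
def rho (h : IsGr ν 𝒢) (hq : IsSec 𝒢 r q) (σ : i ≃ Fin (ν + 1)) (c : Set i) :
    RR k c →ₐ[k] B (tf σ c) := (exists_rho h hq σ c).choose

theorem rho_mon (h : IsGr ν 𝒢) (hq : IsSec 𝒢 r q) (σ : i ≃ Fin (ν + 1)) {c : Set i}
    {e : i → ℤ} (he : IsEx c 0 e) {N : ℕ} (hN : NN c e N) :
    rho h hq σ c ⟨mon k e, mon_mem he⟩ = Mq k q σ c e N :=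
  (exists_rho h hq σ c).choose_spec e he N hN

theorem rho_comm (h : IsGr ν 𝒢) (hq : IsSec 𝒢 r q) (σ : i ≃ Fin (ν + 1)) {c : Set i}
    (f : RR k c) (b : B (tf σ c)) : rho h hq σ c f * b = b * rho h hq σ c f := by
  induction f using RR_ind with
  | hm e he => rw [rho_mon h hq σ he (nn_Nb he), Mq_comm h hq σ (nn_Nb he) he.1]
  | h0 => rw [map_zero, zero_mul, mul_zero]
  | ha f g hf hg => rw [map_add, add_mul, mul_add, hf, hg]
  | hs s f hf => rw [map_smul, smul_mul_assoc, mul_smul_comm, hf]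

theorem rho_res (h : IsGr ν 𝒢) (hq : IsSec 𝒢 r q) (σ : i ≃ Fin (ν + 1)) {c d : Set i}
    (hcd : c ⊆ d) (f : RR k c) :
    r (tf σ c) (tf σ d) (tf_mono hcd) (rho h hq σ c f) = rho h hq σ d (rinc hcd f) := by
  induction f using RR_ind with
  | hm e he =>
    have he' : IsEx d 0 e := ⟨he.1, fun j hj => he.2 j fun hh => hj (hcd hh)⟩
    have h1 : rinc hcd (⟨mon k e, mon_mem he⟩ : RR k c) = ⟨mon k e, mon_mem he'⟩ :=
      Subtype.ext (rinc_coe hcd _)
    rw [h1, rho_mon h hq σ he (nn_Nb he), rho_mon h hq σ he' ((nn_Nb he).sub hcd),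
      Mq_res h hq σ hcd (nn_Nb he) he.1]
  | h0 => rw [map_zero, map_zero, map_zero, map_zero]
  | ha f g hf hg => rw [map_add, map_add, map_add, map_add, hf, hg]
  | hs s f hf => rw [map_smul, map_smul, map_smul, map_smul, hf]

/-- the powers of `x_l / x_g` -/
theorem tt_pow {c : Set i} (l : i) {g : i} (hg : g ∈ c) (n : ℕ) (he : IsEx c 0 (n • ex l g)) :
    tt k l hg ^ n = ⟨mon k (n • ex l g), mon_mem he⟩ := by
  refine Subtype.ext ?_
  change mon k (ex l g) ^ n = mon k (n • ex l g)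
  unfold mon
  rw [AddMonoidAlgebra.single_pow, one_pow]

theorem isEx_nsmul {c : Set i} (l : i) {g : i} (hg : g ∈ c) (n : ℕ) :
    IsEx c 0 (n • ex l g) := by
  have h1 := isEx_ex (c := c) l hg
  refine ⟨?_, fun j hj => ?_⟩
  · simp only [Pi.smul_apply]
    rw [← Finset.smul_sum, h1.1, smul_zero]
  · exact nsmul_nonneg (h1.2 j hj) n

theorem ex_apply (l g j : i) : ex l g j = (if j = l then 1 else 0) - if j = g then 1 else 0 := by
  have h1 : ∀ l : i, (@Pi.single i (fun _ => ℤ) _ (fun a b => Classical.propDecidable (a = b)) l 1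
      : i → ℤ) j = if j = l then 1 else 0 := by
    intro l
    by_cases hl : j = l
    · subst hl
      rw [if_pos rfl]
      exact @Pi.single_eq_same i (fun _ => ℤ) _ (fun a b => Classical.propDecidable (a = b)) j 1
    · rw [if_neg hl]
      exact @Pi.single_eq_of_ne i (fun _ => ℤ) _ (fun a b => Classical.propDecidable (a = b))
        l j hl 1
  unfold ex
  rw [Pi.sub_apply, h1, h1]

theorem nn_nsmul {c : Set i} (l : i) {g : i} (hg : g ∈ c) (n : ℕ) :
    NN c (n • ex l g) n := by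
  refine ⟨(isEx_nsmul l hg n).2, fun j hj => ?_⟩
  rw [Pi.smul_apply, ex_apply, nsmul_eq_mul]
  split_ifs <;> simp

end Pool.Agent.MP_6e5bed_ag_GG
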