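import Pool.Agent.Lib.MP_6e5bed_ag_GG.TGrA

set_option autoImplicit false

/-!
# MP_6e5bed_ag, THEOREM G: the sections of `Γ~`, first properties
-/

noncomputable section

namespace Pool.Agent.MP_6e5bed_ag_Pn

open MvPolynomial Pool.Agent.MP_6e5bed_ag_SP

universe u

variable {ν : ℕ} {k Γ : Type u} [Field k] [Ring Γ] [Algebra k Γ]
  [Algebra (MvPolynomial (Fin (ν + 1)) k) Γ] [IsScalarTower k (MvPolynomial (Fin (ν + 1)) k) Γ]
  {𝒢 : ℕ → Submodule k Γ}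

/-- the product of the coordinates -/
def xp (k : Type u) [Field k] (I : Finset (Fin (ν + 1))) : MvPolynomial (Fin (ν + 1)) k := ∏ i ∈ I, X i

theorem xp_hom (I : Finset (Fin (ν + 1))) : (xp k I).IsHomogeneous I.card := by
  have h1 := IsHomogeneous.prod I (fun i => (X i : MvPolynomial (Fin (ν + 1)) k)) (fun _ => 1)
    (fun i _ => isHomogeneous_X k i)
  rw [Finset.sum_const, smul_eq_mul, mul_one] at h1
  exact h1

theorem xp_pow (I : Finset (Fin (ν + 1))) (n : ℕ) : (xp k I ^ n).IsHomogeneous (n * I.card) := by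
  have h1 := (xp_hom (k := k) I).pow n
  rwa [Nat.mul_comm] at h1

theorem xp_mem (h : IsGr ν 𝒢) {I : Finset (Fin (ν + 1))} {n m : ℕ} {a : Γ}
    (ha : a ∈ 𝒢 (n * I.card)) : xp k I ^ m • a ∈ 𝒢 ((n + m) * I.card) := by
  have h1 := h.smul (xp_pow I m) ha
  rwa [← Nat.add_mul, Nat.add_comm] at h1

variable {B : Finset (Fin (ν + 1)) → Type u} [∀ I, Ring (B I)] [∀ I, Algebra k (B I)]
  {r : ∀ I J : Finset (Fin (ν + 1)), I ⊆ J → B I →ₐ[k] B J}
  {q : ∀ I : Finset (Fin (ν + 1)), ℕ → Γ → B I}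

omit [IsScalarTower k (MvPolynomial (Fin (ν + 1)) k) Γ] in
theorem IsSec.q_zero (hq : IsSec 𝒢 r q) (I : Finset (Fin (ν + 1))) (n : ℕ) : q I n 0 = 0 := by
  have h1 := hq.add I n 0 0 (Submodule.zero_mem _) (Submodule.zero_mem _)
  rw [add_zero] at h1
  exact left_eq_add.1 h1

omit [IsScalarTower k (MvPolynomial (Fin (ν + 1)) k) Γ] in
theorem IsSec.q_sub (hq : IsSec 𝒢 r q) {I : Finset (Fin (ν + 1))} {n : ℕ} {a b : Γ}
    (ha : a ∈ 𝒢 (n * I.card)) (hb : b ∈ 𝒢 (n * I.card)) :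
    q I n (a - b) = q I n a - q I n b := by
  have h1 := hq.add I n (a - b) b (Submodule.sub_mem _ ha hb) hb
  rw [sub_add_cancel] at h1
  rw [h1, add_sub_cancel_right]

theorem IsSec.step_pow (h : IsGr ν 𝒢) (hq : IsSec 𝒢 r q) {I : Finset (Fin (ν + 1))} {n : ℕ} (m : ℕ)
    {a : Γ} (ha : a ∈ 𝒢 (n * I.card)) : q I (n + m) (xp k I ^ m • a) = q I n a := by
  induction m with
  | zero => rw [pow_zero, one_smul, Nat.add_zero]
  | succ m ih =>
    have h1 := hq.step I (n + m) (xp k I ^ m • a) (xp_mem h ha)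
    rw [← ih, ← h1, pow_succ', mul_smul]
    rfl

theorem IsSec.eq_iff (h : IsGr ν 𝒢) (hq : IsSec 𝒢 r q) {I : Finset (Fin (ν + 1))} {n m : ℕ}
    {a b : Γ} (ha : a ∈ 𝒢 (n * I.card)) (hb : b ∈ 𝒢 (m * I.card)) :
    q I n a = q I m b ↔ ∃ l : ℕ, xp k I ^ l • (xp k I ^ m • a - xp k I ^ n • b) = 0 := by
  have h1 := hq.step_pow h m ha
  have h2 := hq.step_pow h n hb
  have hm := xp_mem h (m := m) ha
  have hn := xp_mem h (m := n) hb
  rw [Nat.add_comm m n] at h2 hn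
  constructor
  · intro he
    have h3 := hq.q_sub hm hn
    rw [h1, h2, he, sub_self] at h3
    exact hq.zero I (n + m) _ (Submodule.sub_mem _ hm hn) h3
  · rintro ⟨l, hl⟩
    have h3 := hq.step_pow h l (Submodule.sub_mem _ hm hn)
    rw [hl, hq.q_zero, hq.q_sub hm hn, h1, h2] at h3
    exact (sub_eq_zero.1 h3.symm)

theorem sdiff_mem (h : IsGr ν 𝒢) {I J : Finset (Fin (ν + 1))} (hIJ : I ⊆ J) {n : ℕ} {a : Γ}
    (ha : a ∈ 𝒢 (n * I.card)) : xp k (J \ I) ^ n • a ∈ 𝒢 (n * J.card) := by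
  have h1 := h.smul (xp_pow (J \ I) n) ha
  rwa [← Nat.mul_add, Finset.card_sdiff_add_card_eq_card hIJ] at h1

end Pool.Agent.MP_6e5bed_ag_Pn
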