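import Pool.Agent.Lib.MP_6e5bed_ag_GG.Bpc
import Pool.Agent.Lib.MP_6e5bed_ag_GG.CbT

set_option autoImplicit false
set_option linter.unusedVariables false

/-!
# MP_6e5bed_ag, THEOREM G, section (5.2): subcomplexes and truncations
-/

noncomputable section

namespace Pool.Agent.MP_6e5bed_ag_GG

open Pool.Agent.MP_6e5bed_ag_NC Pool.Agent.MP_6e5bed_ag_PN
open Pool.Agent.MP_6e5bed_ag_NS (Cx CHom ringH)
open scoped TensorProduct

universe u

variable {k : Type u} [Field k] {i j : Type} [Fintype i] [Fintype j] {A : CA k i} {A' : CA k j}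

/-! ### Graded subcomplexes -/

/-- A family of subspaces: the elements of the subcomplex are the elements all whose homogeneous
components of degree `n` are in `P p n`. -/
structure GrS (F : BPC A A') where
  P : ∀ p : Ch i × Ch j, ℤ → Submodule k (F.X p).V
  d : ∀ p n x, x ∈ P p n → (F.X p).dg.d x ∈ P p (n + 1)
  act : ∀ p n b x, x ∈ P p n → (F.a p).φ b x ∈ P p n
  res : ∀ {p q : Ch i × Ch j} (h : p ≤ q) n x, x ∈ P p n → (F.ρ h).f x ∈ P q n

variable {F : BPC A A'}

/-- the subspace -/
def GrS.S (G : GrS F) (p : Ch i × Ch j) : Submodule k (F.X p).V where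
  carrier := {x | ∀ n, (F.X p).dg.ρ x n ∈ G.P p n}
  zero_mem' := fun n => by
    rw [map_zero]
    exact zero_mem _
  add_mem' := fun {x y} hx hy n => by
    rw [map_add]
    exact add_mem (hx n) (hy n)
  smul_mem' := fun c x hx n => by
    rw [map_smul]
    exact Submodule.smul_mem _ _ (hx n)

theorem GrS.mem {G : GrS F} {p : Ch i × Ch j} {x : (F.X p).V} :
    x ∈ G.S p ↔ ∀ n, (F.X p).dg.ρ x n ∈ G.P p n := Iff.rfl

theorem GrS.mem_gr (G : GrS F) (p : Ch i × Ch j) (x : (F.X p).V) (hx : x ∈ G.S p) (n : ℤ) :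
    (F.X p).dg.ρ x n ∈ G.S p := by
  intro m
  rw [(F.X p).dg.ρ_ρ, Finsupp.single_apply]
  split_ifs with h
  · rw [← h]
    exact hx n
  · exact zero_mem _

/-- homogeneous elements -/
theorem GrS.mem_deg {G : GrS F} {p : Ch i × Ch j} {n : ℤ} {x : (F.X p).V}
    (h : (F.X p).dg.IsDeg n x) : x ∈ G.S p ↔ x ∈ G.P p n := by
  constructor
  · intro hx
    have h1 := hx n
    rwa [ρ_self h] at h1
  · intro hx m
    have h' : (F.X p).dg.ρ x = Finsupp.single n x := h
    rw [h', Finsupp.single_apply]
    split_ifs with hm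
    · rw [← hm]
      exact hx
    · exact zero_mem _

theorem GrS.mem_d (G : GrS F) (p : Ch i × Ch j) (x : (F.X p).V) (hx : x ∈ G.S p) :
    (F.X p).dg.d x ∈ G.S p := by
  intro n
  rw [ρ_d']
  have h1 := G.d p (n - 1) _ (hx (n - 1))
  rwa [sub_add_cancel] at h1

theorem ρ_act (F : BPC A A') (p : Ch i × Ch j) (b : bsB A A' p) (x : (F.X p).V) (n : ℤ) :
    (F.X p).dg.ρ ((F.a p).φ b x) n = (F.a p).φ b ((F.X p).dg.ρ x n) :=
  ρ_hom (Y := F.X p) ⟨(F.a p).φ b, (F.a p).deg b, (F.a p).d b⟩ x n

theorem GrS.mem_act (G : GrS F) (p : Ch i × Ch j) (b : bsB A A' p) (x : (F.X p).V)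
    (hx : x ∈ G.S p) : (F.a p).φ b x ∈ G.S p := by
  intro n
  rw [ρ_act]
  exact G.act p n b _ (hx n)

theorem GrS.mem_res (G : GrS F) {p q : Ch i × Ch j} (h : p ≤ q) (x : (F.X p).V)
    (hx : x ∈ G.S p) : (F.ρ h).f x ∈ G.S q := by
  intro n
  rw [ρ_hom]
  exact G.res h n _ (hx n)

/-- the subcomplex -/
def GrS.cx (G : GrS F) (p : Ch i × Ch j) : Cx k where
  V := G.S p
  dg := (F.X p).dg.sub (G.S p) (fun x hx n => G.mem_gr p x hx n) (fun x hx => G.mem_d p x hx)

theorem GrS.cx_deg (G : GrS F) (p : Ch i × Ch j) {n : ℤ} {x : G.S p} :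
    (G.cx p).dg.IsDeg n x ↔ (F.X p).dg.IsDeg n x.1 :=
  Dg.sub_isDeg (F.X p).dg (G.S p) (fun x hx n => G.mem_gr p x hx n)
    (fun x hx => G.mem_d p x hx) x n

/-- the action -/
def GrS.actL (G : GrS F) (p : Ch i × Ch j) : bsB A A' p →ₐ[k] Module.End k (G.S p) where
  toFun := fun b => ((F.a p).φ b).restrict (fun x hx => G.mem_act p b x hx)
  map_one' := LinearMap.ext fun x => Subtype.ext (by
    change (F.a p).φ 1 x.1 = x.1
    rw [map_one]
    rfl)
  map_mul' := fun b c => LinearMap.ext fun x => Subtype.ext (by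
    change (F.a p).φ (b * c) x.1 = (F.a p).φ b ((F.a p).φ c x.1)
    rw [map_mul]
    rfl)
  map_zero' := LinearMap.ext fun x => Subtype.ext (by
    change (F.a p).φ 0 x.1 = 0
    rw [map_zero]
    rfl)
  map_add' := fun b c => LinearMap.ext fun x => Subtype.ext (by
    change (F.a p).φ (b + c) x.1 = (F.a p).φ b x.1 + (F.a p).φ c x.1
    rw [map_add]
    rfl)
  commutes' := fun c => LinearMap.ext fun x => Subtype.ext (by
    change (F.a p).φ (algebraMap k _ c) x.1 = c • x.1
    rw [AlgHom.commutes]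
    rfl)

/-- The subcomplex of a graded family of subspaces. -/
def GrS.bpc (G : GrS F) : BPC A A' where
  X := fun p => G.cx p
  a := fun p =>
    { φ := G.actL p
      deg := fun {n} b {x} hx => by
        have h1 := (G.cx_deg p (x := x)).1 hx
        exact (G.cx_deg p (x := G.actL p b x)).2 ((F.a p).deg b h1)
      d := fun b x => Subtype.ext ((F.a p).d b x.1) }
  ρ := fun {p q} h =>
    { f := (F.ρ h).f.restrict (fun x hx => G.mem_res h x hx)
      deg := fun {n x} hx => by
        have h1 := (G.cx_deg p (x := x)).1 hx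
        exact (G.cx_deg q (x := (F.ρ h).f.restrict (fun x hx => G.mem_res h x hx) x)).2
          ((F.ρ h).deg h1)
      d := fun x => Subtype.ext ((F.ρ h).d x.1) }
  act := fun h b x => Subtype.ext (F.act h b x.1)
  ρ_id := fun h x => Subtype.ext (F.ρ_id h x.1)
  ρ_ρ := fun h h' x => Subtype.ext (F.ρ_ρ h h' x.1)

/-- the inclusion -/
def GrS.incl (G : GrS F) : BPCH G.bpc F where
  f := fun p =>
    { f := (G.S p).subtype
      deg := fun {n x} hx => (G.cx_deg p (x := x)).1 hx
      d := fun x => rfl }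
  act := fun p b x => rfl
  nat := fun h x => rfl

theorem GrS.incl_f (G : GrS F) (p : Ch i × Ch j) (x : G.S p) : (G.incl.f p).f x = x.1 := rfl

theorem GrS.le_mem {G G' : GrS F} (h : ∀ p n, G.P p n ≤ G'.P p n) (p : Ch i × Ch j)
    {x : (F.X p).V} (hx : x ∈ G.S p) : x ∈ G'.S p := fun n => h p n (hx n)

/-- the inclusion -/
def GrS.ofLE {G G' : GrS F} (h : ∀ p n, G.P p n ≤ G'.P p n) : BPCH G.bpc G'.bpc where
  f := fun p =>
    { f := Submodule.inclusion (fun x hx => GrS.le_mem h p hx)
      deg := fun {n x} hx => (G'.cx_deg p).2 ((G.cx_deg p (x := x)).1 hx)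
      d := fun x => rfl }
  act := fun p b x => rfl
  nat := fun h x => rfl

/-! ### Truncations -/

variable (F) in
/-- The truncation: degree `< n` arbitrary, degree `n` closed, degree `> n` zero. -/
def tr (n : ℤ) : GrS F where
  P := fun p m => if m < n then ⊤ else if m = n then LinearMap.ker (F.X p).dg.d else ⊥
  d := fun p m x hx => by
    by_cases h1 : m < n
    · by_cases h2 : m + 1 < n
      · rw [if_pos h2]
        exact Submodule.mem_top
      · have h3 : m + 1 = n := by omega
        rw [if_neg h2, if_pos h3, LinearMap.mem_ker, (F.X p).dg.d_d]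
    · have h2 : ¬ m + 1 < n := by omega
      have h3 : ¬ m + 1 = n := by omega
      rw [if_neg h2, if_neg h3, Submodule.mem_bot]
      rw [if_neg h1] at hx
      split_ifs at hx with h4
      · exact hx
      · rw [(Submodule.mem_bot k).1 hx, map_zero]
  act := fun p m b x hx => by
    split_ifs at hx ⊢ with h1 h2
    · exact Submodule.mem_top
    · rw [LinearMap.mem_ker] at hx ⊢
      rw [(F.a p).d, hx, map_zero]
    · rw [Submodule.mem_bot] at hx ⊢
      rw [hx, map_zero]
  res := fun {p q} h m x hx => by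
    split_ifs at hx ⊢ with h1 h2
    · exact Submodule.mem_top
    · rw [LinearMap.mem_ker] at hx ⊢
      rw [(F.ρ h).d, hx, map_zero]
    · rw [Submodule.mem_bot] at hx ⊢
      rw [hx, map_zero]

variable (F) in
/-- The truncation: degree `< n` arbitrary, degree `n` exact, degree `> n` zero. -/
def tr' (n : ℤ) : GrS F where
  P := fun p m => if m < n then ⊤ else if m = n then LinearMap.range (F.X p).dg.d else ⊥
  d := fun p m x hx => by
    by_cases h1 : m < n
    · by_cases h2 : m + 1 < n
      · rw [if_pos h2]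
        exact Submodule.mem_top
      · have h3 : m + 1 = n := by omega
        rw [if_neg h2, if_pos h3]
        exact ⟨x, rfl⟩
    · have h2 : ¬ m + 1 < n := by omega
      have h3 : ¬ m + 1 = n := by omega
      rw [if_neg h2, if_neg h3, Submodule.mem_bot]
      rw [if_neg h1] at hx
      split_ifs at hx with h4
      · obtain ⟨y, rfl⟩ := hx
        exact (F.X p).dg.d_d y
      · rw [(Submodule.mem_bot k).1 hx, map_zero]
  act := fun p m b x hx => by
    split_ifs at hx ⊢ with h1 h2
    · exact Submodule.mem_top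
    · obtain ⟨y, rfl⟩ := hx
      exact ⟨(F.a p).φ b y, (F.a p).d b y⟩
    · rw [Submodule.mem_bot] at hx ⊢
      rw [hx, map_zero]
  res := fun {p q} h m x hx => by
    split_ifs at hx ⊢ with h1 h2
    · exact Submodule.mem_top
    · obtain ⟨y, rfl⟩ := hx
      exact ⟨(F.ρ h).f y, (F.ρ h).d y⟩
    · rw [Submodule.mem_bot] at hx ⊢
      rw [hx, map_zero]

theorem mem_tr {n : ℤ} {p : Ch i × Ch j} {x : (F.X p).V} : x ∈ (tr F n).S p ↔
    (F.X p).dg.d ((F.X p).dg.ρ x n) = 0 ∧ ∀ m, n < m → (F.X p).dg.ρ x m = 0 := by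
  constructor
  · intro h
    constructor
    · have h1 := h n
      change _ ∈ (if n < n then _ else if n = n then _ else _ : Submodule k (F.X p).V) at h1
      rw [if_neg (lt_irrefl n), if_pos rfl] at h1
      exact h1
    · intro m hm
      have h1 := h m
      change _ ∈ (if m < n then _ else if m = n then _ else _ : Submodule k (F.X p).V) at h1
      rw [if_neg (by omega), if_neg (by omega)] at h1
      exact h1
  · rintro ⟨h1, h2⟩ m
    change _ ∈ (if m < n then _ else if m = n then _ else _ : Submodule k (F.X p).V)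
    split_ifs with h3 h4
    · exact Submodule.mem_top
    · rw [h4]
      exact h1
    · exact h2 m (by omega)

theorem mem_tr' {n : ℤ} {p : Ch i × Ch j} {x : (F.X p).V} : x ∈ (tr' F n).S p ↔
    (∃ y, (F.X p).dg.d y = (F.X p).dg.ρ x n) ∧ ∀ m, n < m → (F.X p).dg.ρ x m = 0 := by
  constructor
  · intro h
    constructor
    · have h1 := h n
      change _ ∈ (if n < n then _ else if n = n then _ else _ : Submodule k (F.X p).V) at h1
      rw [if_neg (lt_irrefl n), if_pos rfl] at h1
      exact h1
    · intro m hm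
      have h1 := h m
      change _ ∈ (if m < n then _ else if m = n then _ else _ : Submodule k (F.X p).V) at h1
      rw [if_neg (by omega), if_neg (by omega)] at h1
      exact h1
  · rintro ⟨h1, h2⟩ m
    change _ ∈ (if m < n then _ else if m = n then _ else _ : Submodule k (F.X p).V)
    split_ifs with h3 h4
    · exact Submodule.mem_top
    · rw [h4]
      exact h1
    · exact h2 m (by omega)

theorem tr_le' (n : ℤ) (p : Ch i × Ch j) (m : ℤ) : (tr' F n).P p m ≤ (tr F n).P p m := by
  change (if m < n then _ else if m = n then _ else _ : Submodule k (F.X p).V) ≤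
    (if m < n then _ else if m = n then _ else _ : Submodule k (F.X p).V)
  split_ifs
  · exact le_rfl
  · rintro _ ⟨y, rfl⟩
    exact (F.X p).dg.d_d y
  · exact le_rfl

theorem tr_pred_le (n : ℤ) (p : Ch i × Ch j) (m : ℤ) :
    (tr F (n - 1)).P p m ≤ (tr' F n).P p m := by
  change (if m < n - 1 then _ else if m = n - 1 then _ else _ : Submodule k (F.X p).V) ≤
    (if m < n then _ else if m = n then _ else _ : Submodule k (F.X p).V)
  by_cases h1 : m < n
  · rw [if_pos h1]
    exact le_top
  · rw [if_neg (by omega : ¬ m < n - 1), if_neg (by omega : ¬ m = n - 1)]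
    exact bot_le

end Pool.Agent.MP_6e5bed_ag_GG
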