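import Pool.Agent.Lib.MP_6e5bed_ag_GG.Trn

set_option autoImplicit false
set_option linter.unusedVariables false

/-!
# MP_6e5bed_ag, THEOREM G, section (5.2): quasi-isomorphisms of truncations
-/

noncomputable section

namespace Pool.Agent.MP_6e5bed_ag_GG

open Pool.Agent.MP_6e5bed_ag_NC Pool.Agent.MP_6e5bed_ag_PN
open Pool.Agent.MP_6e5bed_ag_NS (Cx CHom ringH)
open scoped TensorProduct

universe u

section cq

variable {k : Type u} [CommRing k] {X : Cx k}

open Classical in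
/-- the sum of the components of the degrees with the property `Q` -/
def cq (X : Cx k) (Q : ℤ → Prop) : X.V →ₗ[k] X.V :=
  (Finsupp.lsum k (fun n : ℤ => if Q n then (LinearMap.id : X.V →ₗ[k] X.V) else 0)).comp X.dg.ρ

open Classical in
theorem cq_deg {Q : ℤ → Prop} {n : ℤ} {x : X.V} (h : X.dg.IsDeg n x) :
    cq X Q x = if Q n then x else 0 := by
  have h' : X.dg.ρ x = Finsupp.single n x := h
  unfold cq
  rw [LinearMap.comp_apply, h']
  split_ifs with h1 <;> simp [h1]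

open Classical in
theorem ρ_cq (Q : ℤ → Prop) (x : X.V) (m : ℤ) :
    X.dg.ρ (cq X Q x) m = if Q m then X.dg.ρ x m else 0 := by
  refine X.dg.ind (P := fun x => X.dg.ρ (cq X Q x) m = if Q m then X.dg.ρ x m else 0) ?_ ?_ ?_ x
  · simp only [map_zero, Finsupp.zero_apply, ite_self]
  · intro x y hx hy
    simp only [map_add, Finsupp.add_apply, hx, hy]
    split_ifs
    · rfl
    · rw [add_zero]
  · intro n x hx
    have h' : X.dg.ρ x = Finsupp.single n x := hx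
    rw [cq_deg hx]
    by_cases hn : Q n
    · rw [if_pos hn, h', Finsupp.single_apply]
      by_cases hm : n = m
      · rw [if_pos hm, if_pos (hm ▸ hn)]
      · rw [if_neg hm, ite_self]
    · rw [if_neg hn, map_zero, Finsupp.zero_apply, h', Finsupp.single_apply]
      by_cases hm : n = m
      · rw [if_neg (hm ▸ hn)]
      · rw [if_neg hm, ite_self]

theorem ρ_sub (x y : X.V) (m : ℤ) : X.dg.ρ (x - y) m = X.dg.ρ x m - X.dg.ρ y m := by
  rw [map_sub, Finsupp.sub_apply]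

theorem ρ_ext {x y : X.V} (h : ∀ m, X.dg.ρ x m = X.dg.ρ y m) : x = y := by
  rw [← X.dg.sum_ρ x, ← X.dg.sum_ρ y, Finsupp.ext h]

/-- The exactness in the degrees with the property `Q`. -/
def ExIn (X : Cx k) (Q : ℤ → Prop) : Prop :=
  ∀ m x, Q m → X.dg.IsDeg m x → X.dg.d x = 0 → ∃ y, X.dg.d y = x

theorem ExIn.exists {Q : ℤ → Prop} (h : ExIn X Q) {x : X.V} (hx : X.dg.d x = 0) :
    ∃ z, X.dg.d z = cq X Q x ∧ ∀ m, ¬ Q (m + 1) → X.dg.ρ z m = 0 := by
  classical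
  have h1 : ∀ m, ∃ z, X.dg.IsDeg (m - 1) z ∧ (X.dg.d z = if Q m then X.dg.ρ x m else 0) ∧
      (¬ Q m → z = 0) := by
    intro m
    by_cases hm : Q m
    · obtain ⟨y, hy⟩ := h m _ hm (Dg.isDeg_ρ x m) (ρ_cocyc X hx m).2
      obtain ⟨z, hz, hz'⟩ := exists_deg_d (Dg.isDeg_ρ x m) hy
      exact ⟨z, hz, by rw [if_pos hm, hz'], fun h' => absurd hm h'⟩
    · exact ⟨0, Dg.IsDeg.zero _, by rw [if_neg hm, map_zero], fun _ => rfl⟩
  choose z hz1 hz2 hz3 using h1
  refine ⟨∑ m ∈ (X.dg.ρ x).support, z m, ?_, ?_⟩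
  · rw [map_sum]
    simp only [hz2]
    unfold cq
    rw [LinearMap.comp_apply, Finsupp.lsum_apply, Finsupp.sum]
    refine Finset.sum_congr rfl (fun m _ => ?_)
    split_ifs
    · rfl
    · rfl
  · intro m hm
    rw [map_sum, Finsupp.finsetSum_apply]
    refine Finset.sum_eq_zero (fun l _ => ?_)
    have h' : X.dg.ρ (z l) = Finsupp.single (l - 1) (z l) := hz1 l
    rw [h', Finsupp.single_apply]
    split_ifs with hl
    · refine hz3 l ?_
      have : l = m + 1 := by omega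
      rw [this]
      exact hm
    · rfl

end cq

variable {k : Type u} [Field k] {i j : Type} [Fintype i] [Fintype j] {A : CA k i} {A' : CA k j}
  {F : BPC A A'}

/-- `τ_{n-1} F → τ'_n F` is a quasi-isomorphism. -/
theorem tr_pred_qi (n : ℤ) (p : Ch i × Ch j) : Qi ((GrS.ofLE (tr_pred_le (F := F) n)).f p) := by
  constructor
  · rintro ⟨x, hx⟩ hxd ⟨⟨y, hy⟩, hyx⟩
    have hd : (F.X p).dg.d y = x := congrArg Subtype.val hyx
    have hx' := mem_tr.1 hx
    obtain ⟨⟨w, hw⟩, hy'⟩ := mem_tr'.1 hy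
    have hyn : (F.X p).dg.d ((F.X p).dg.ρ y n) = 0 := by rw [← hw, (F.X p).dg.d_d]
    refine ⟨⟨y - (F.X p).dg.ρ y n, mem_tr.2 ⟨?_, fun m hm => ?_⟩⟩, Subtype.ext ?_⟩
    · rw [ρ_sub, (F.X p).dg.ρ_ρ, Finsupp.single_eq_of_ne (by omega),
        sub_zero]
      have h1 := (F.X p).dg.ρ_d y (n - 1)
      rw [← h1, hd]
      exact hx'.2 _ (by omega)
    · rw [ρ_sub, (F.X p).dg.ρ_ρ]
      by_cases hmn : m = n
      · rw [hmn, Finsupp.single_eq_same, sub_self]
      · rw [Finsupp.single_eq_of_ne hmn, sub_zero]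
        exact hy' m (by omega)
    · change (F.X p).dg.d (y - (F.X p).dg.ρ y n) = x
      rw [map_sub, hyn, sub_zero, hd]
  · rintro ⟨y, hy⟩ hyd
    have hd : (F.X p).dg.d y = 0 := congrArg Subtype.val hyd
    obtain ⟨⟨w, hw⟩, hy'⟩ := mem_tr'.1 hy
    obtain ⟨z, hz, hz'⟩ := exists_deg_d (Dg.isDeg_ρ y n) hw
    refine ⟨⟨y - (F.X p).dg.ρ y n, mem_tr.2 ⟨?_, fun m hm => ?_⟩⟩, Subtype.ext ?_,
      ⟨z, mem_tr'.2 ⟨⟨0, ?_⟩, fun m hm => ?_⟩⟩, Subtype.ext ?_⟩
    · rw [ρ_sub, (F.X p).dg.ρ_ρ, Finsupp.single_eq_of_ne (by omega),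
        sub_zero, ← (F.X p).dg.ρ_d, hd, map_zero, Finsupp.zero_apply]
    · rw [ρ_sub, (F.X p).dg.ρ_ρ]
      by_cases hmn : m = n
      · rw [hmn, Finsupp.single_eq_same, sub_self]
      · rw [Finsupp.single_eq_of_ne hmn, sub_zero]
        exact hy' m (by omega)
    · change (F.X p).dg.d (y - (F.X p).dg.ρ y n) = 0
      rw [map_sub, hd, ← hw, (F.X p).dg.d_d, sub_zero]
    · have h' : (F.X p).dg.ρ z = Finsupp.single (n - 1) z := hz
      rw [h', Finsupp.single_eq_of_ne (by omega), map_zero]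
    · have h' : (F.X p).dg.ρ z = Finsupp.single (n - 1) z := hz
      rw [h', Finsupp.single_eq_of_ne (by omega)]
    · change (F.X p).dg.d z = y - (y - (F.X p).dg.ρ y n)
      rw [hz', sub_sub_cancel]

/-- `τ_n F → F` is a quasi-isomorphism if `F` is exact in the degrees `> n`. -/
theorem tr_qi {n : ℤ} {p : Ch i × Ch j} (h : ExIn (F.X p) (fun m => n < m)) :
    Qi ((tr F n).incl.f p) := by
  classical
  constructor
  · rintro ⟨x, hx⟩ hxd ⟨y, hyx⟩
    have hd : (F.X p).dg.d y = x := hyx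
    have hx' := mem_tr.1 hx
    refine ⟨⟨y - cq (F.X p) (fun m => n < m) y, mem_tr.2 ⟨?_, fun m hm => ?_⟩⟩,
      Subtype.ext ?_⟩
    · rw [ρ_sub, ρ_cq, if_neg (lt_irrefl n), sub_zero, ← (F.X p).dg.ρ_d, hd]
      exact hx'.2 _ (by omega)
    · rw [ρ_sub, ρ_cq, if_pos hm, sub_self]
    · change (F.X p).dg.d (y - cq (F.X p) (fun m => n < m) y) = x
      refine ρ_ext (fun m => ?_)
      rw [ρ_d', ρ_sub, ρ_cq]
      by_cases hm : n < m - 1
      · rw [if_pos hm, sub_self, map_zero, hx'.2 m (by omega)]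
      · rw [if_neg hm, sub_zero, ← ρ_d', hd]
  · intro y hyd
    have hd : (F.X p).dg.d y = 0 := hyd
    obtain ⟨z, hz, -⟩ := h.exists hd
    refine ⟨⟨y - cq (F.X p) (fun m => n < m) y, mem_tr.2 ⟨?_, fun m hm => ?_⟩⟩,
      Subtype.ext ?_, z, ?_⟩
    · rw [ρ_sub, ρ_cq, if_neg (lt_irrefl n), sub_zero, ← (F.X p).dg.ρ_d, hd,
        map_zero, Finsupp.zero_apply]
    · rw [ρ_sub, ρ_cq, if_pos hm, sub_self]
    · change (F.X p).dg.d (y - cq (F.X p) (fun m => n < m) y) = 0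
      rw [← hz, map_sub, hd, (F.X p).dg.d_d, sub_zero]
    · change (F.X p).dg.d z = y - (y - cq (F.X p) (fun m => n < m) y)
      rw [hz, sub_sub_cancel]

/-- `τ_n F` is acyclic if `F` is exact in the degrees `≤ n`. -/
theorem tr_acyc {n : ℤ} {p : Ch i × Ch j} (h : ExIn (F.X p) (fun m => m ≤ n))
    (x : ((tr F n).bpc.X p).V) (hx : ((tr F n).bpc.X p).dg.d x = 0) :
    ∃ y, ((tr F n).bpc.X p).dg.d y = x := by
  classical
  obtain ⟨x, hx'⟩ := x
  have hd : (F.X p).dg.d x = 0 := congrArg Subtype.val hx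
  obtain ⟨z, hz, hz'⟩ := h.exists hd
  refine ⟨⟨z, mem_tr.2 ⟨?_, fun m hm => hz' m (by omega)⟩⟩, Subtype.ext ?_⟩
  · rw [hz' n (by omega), map_zero]
  · change (F.X p).dg.d z = x
    rw [hz]
    refine ρ_ext (fun m => ?_)
    rw [ρ_cq]
    split_ifs with hm
    · rfl
    · exact ((mem_tr.1 hx').2 m (by omega)).symm

end Pool.Agent.MP_6e5bed_ag_GG
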