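import Pool.Agent.Lib.MP_6e5bed_ag_GG.TrnQ
import Pool.Agent.Lib.MP_6e5bed_ag_PN.AugE

set_option autoImplicit false
set_option linter.unusedVariables false

/-!
# MP_6e5bed_ag, THEOREM G, section (5.2): bisheaves in degree `n`, the graded pieces
-/

noncomputable section

namespace Pool.Agent.MP_6e5bed_ag_GG

open Pool.Agent.MP_6e5bed_ag_NC Pool.Agent.MP_6e5bed_ag_PN
open Pool.Agent.MP_6e5bed_ag_NS (Cx CHom ringH)
open scoped TensorProduct

universe u

section atx

variable {k : Type u} [Field k] {V : Type u} [AddCommGroup V] [Module k V] {n : ℤ}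

variable (k V) in
/-- a vector space in degree `n` -/
def atx (n : ℤ) : Cx k := ⟨V, (Dg.conc k V).shift (-n)⟩

theorem atx_deg (v : V) : (atx k V n).dg.IsDeg n v := by
  refine (Dg.shift_deg (X := Dg.conc k V) (n := -n) (i := n) (v := v)).2 ?_
  rw [add_neg_cancel]
  exact Dg.conc_deg v

theorem atx_cases {m : ℤ} {v : V} (h : (atx k V n).dg.IsDeg m v) : m = n ∨ v = 0 := by
  have h1 := (Dg.shift_deg (X := Dg.conc k V) (n := -n) (i := m) (v := v)).1 h
  rcases Dg.conc_cases h1 with h2 | h2
  · left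
    omega
  · exact Or.inr h2

theorem atx_d (v : V) : (atx k V n).dg.d v = 0 := by
  refine (Dg.shift_d (X := Dg.conc k V) (-n) v).trans ?_
  have h1 : (Dg.conc k V).d v = 0 := rfl
  rw [h1, smul_zero]
  rfl

theorem atx_of {W : Type u} [AddCommGroup W] [Module k W] (f : V →ₗ[k] W) {m : ℤ} {v : V}
    (h : (atx k V n).dg.IsDeg m v) : (atx k W n).dg.IsDeg m (f v) := by
  rcases atx_cases h with rfl | rfl
  · exact atx_deg _
  · rw [map_zero]
    exact Dg.IsDeg.zero _

variable (k V) in
/-- the complex of a vector space in degree `n` -/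
def adg (n : ℤ) : Dg k V := (Dg.conc k V).shift (-n)

theorem adg_d (v : V) : (adg k V n).d v = 0 := atx_d v

theorem adg_h (v : V) : (adg k V (n + 1)).d ((LinearMap.id : V →ₗ[k] V) v) =
    - (LinearMap.id : V →ₗ[k] V) ((adg k V n).d v) := by
  rw [adg_d, adg_d, map_zero, neg_zero]

theorem adg_h' {m : ℤ} {v : V} (h : (adg k V n).IsDeg m v) :
    (adg k V (n + 1)).IsDeg (m + 1) ((LinearMap.id : V →ₗ[k] V) v) := by
  rcases atx_cases h with rfl | rfl
  · exact atx_deg (n := m + 1) v
  · exact Dg.IsDeg.zero _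

variable (k V) in
/-- `V → V` in the degrees `n`, `n + 1` -/
def twx (n : ℤ) : Cx k where
  V := V × V
  dg := (adg k V n).prod (adg k V (n + 1)) LinearMap.id adg_h (fun h => adg_h' h)

theorem twx_deg {m : ℤ} {v w : V} : (twx k V n).dg.IsDeg m ((v, w) : V × V) ↔
    (adg k V n).IsDeg m v ∧ (adg k V (n + 1)).IsDeg m w :=
  Dg.prod_deg (hδ := adg_h) (hδ' := fun h => adg_h' h)

theorem twx_d (v w : V) : (twx k V n).dg.d ((v, w) : V × V) = ((0, v) : V × V) := by
  refine Prod.ext (adg_d v) ?_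
  change v + (adg k V (n + 1)).d w = v
  rw [adg_d, add_zero]

theorem twx_acy : Acy (twx k V n) := by
  rintro ⟨v, w⟩ h
  have h1 : ((0, v) : V × V) = 0 := (twx_d v w).symm.trans h
  have h2 : v = 0 := congrArg Prod.snd h1
  exact ⟨(w, 0), (twx_d w 0).trans (by rw [h2])⟩

end atx

variable {k : Type u} [Field k] {i j : Type} [Fintype i] [Fintype j] {A : CA k i} {A' : CA k j}

/-- A bisheaf in degree `n`. -/
def Sh.atn (E : BS A A') (n : ℤ) : BPC A A' where
  X := fun p => atx k (E.E p) n
  a := fun p =>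
    { φ := Algebra.lsmul k k (E.E p)
      deg := fun {m} b {x} hx => atx_of (Algebra.lsmul k k (E.E p) b) hx
      d := fun b x => (atx_d (V := E.E p) (Algebra.lsmul k k (E.E p) b x)).trans
        ((congrArg (Algebra.lsmul k k (E.E p) b) (atx_d x)).trans (map_zero _)).symm }
  ρ := fun {p q} h =>
    { f := E.res h
      deg := fun {m x} hx => atx_of (E.res h) hx
      d := fun x => (atx_d (V := E.E q) (E.res h x)).trans
        ((congrArg (E.res h) (atx_d x)).trans (map_zero _)).symm }
  act := fun h b x => E.res_smul h b x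
  ρ_id := fun h x => E.res_id h x
  ρ_ρ := fun h h' x => E.res_res h h' x

/-- A bisheaf in the degrees `n`, `n + 1`, with the identity as differential. -/
def Sh.twn (E : BS A A') (n : ℤ) : BPC A A' where
  X := fun p => twx k (E.E p) n
  a := fun p =>
    { φ := Algebra.lsmul k k (E.E p × E.E p)
      deg := fun {m} b x hx => by
        obtain ⟨v, w⟩ := x
        have h1 := twx_deg.1 hx
        exact twx_deg.2 ⟨atx_of (Algebra.lsmul k k (E.E p) b) h1.1,
          atx_of (Algebra.lsmul k k (E.E p) b) h1.2⟩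
      d := fun b x => by
        obtain ⟨v, w⟩ := x
        refine (twx_d (b • v) (b • w)).trans ?_
        refine Eq.trans ?_ (congrArg (Algebra.lsmul k k (E.E p × E.E p) b) (twx_d v w)).symm
        exact Prod.ext (smul_zero b).symm rfl }
  ρ := fun {p q} h =>
    { f := (E.res h).prodMap (E.res h)
      deg := fun {m x} hx => by
        obtain ⟨v, w⟩ := x
        have h1 := twx_deg.1 hx
        exact twx_deg.2 ⟨atx_of (E.res h) h1.1, atx_of (E.res h) h1.2⟩
      d := fun x => by
        obtain ⟨v, w⟩ := x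
        refine (twx_d (E.res h v) (E.res h w)).trans ?_
        refine Eq.trans ?_ (congrArg ((E.res h).prodMap (E.res h)) (twx_d v w)).symm
        exact Prod.ext (map_zero (E.res h)).symm rfl }
  act := fun h b x => Prod.ext (E.res_smul h b x.1) (E.res_smul h b x.2)
  ρ_id := fun h x => Prod.ext (E.res_id h x.1) (E.res_id h x.2)
  ρ_ρ := fun h h' x => Prod.ext (E.res_res h h' x.1) (E.res_res h h' x.2)

/-- `E[-n-1] → (E → E)` -/
def Sh.twI (E : BS A A') (n : ℤ) : BPCH (E.atn (n + 1)) (E.twn n) where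
  f := fun p =>
    { f := LinearMap.inr k (E.E p) (E.E p)
      deg := fun {m x} hx => twx_deg.2 ⟨Dg.IsDeg.zero _, hx⟩
      d := fun x => (twx_d 0 x).trans
        ((congrArg (LinearMap.inr k (E.E p) (E.E p)) (atx_d x)).trans (map_zero _)).symm }
  act := fun p b x => Prod.ext (smul_zero b).symm rfl
  nat := fun h x => Prod.ext (map_zero (E.res h)) rfl

/-- `(E → E) → E[-n]` -/
def Sh.twP (E : BS A A') (n : ℤ) : BPCH (E.twn n) (E.atn n) where
  f := fun p =>
    { f := LinearMap.fst k (E.E p) (E.E p)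
      deg := fun {m x} hx => (twx_deg.1 hx).1
      d := fun x => (atx_d x.1).trans (congrArg Prod.fst (twx_d x.1 x.2)).symm }
  act := fun p b x => rfl
  nat := fun h x => rfl

theorem Sh.tw_ex (E : BS A A') (n : ℤ) : BPCEx (E.twI n) (E.twP n) := fun p =>
  ⟨fun x y h => congrArg Prod.snd h, fun x => ⟨(x, 0), rfl⟩, fun x => ⟨fun h =>
    ⟨x.2, Prod.ext h.symm rfl⟩, fun ⟨y, hy⟩ => (congrArg Prod.fst hy).symm⟩⟩

/-- the double Čech complex of acyclic complexes -/
theorem BPC.acyc (F : BPC A A') (h : ∀ p, Acy (F.X p)) : Acyc F.bpb.BB :=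
  cC_acy (fun b => cC_acy (fun a => h (a, b)) (LL i) (FS.e i)) (LL j) (FS.e j)

theorem BPC.acyc_hasRes (F : BPC A A') (h : ∀ p, Acy (F.X p)) : HasRes F.bpb.BB :=
  HasRes.of_acyc (F.acyc h)

/-- the identity `E → E[0]` -/
def Sh.at0 (E : BS A A') : BPH E.bp (E.atn 0).bpb where
  f := fun p =>
    { f := LinearMap.id
      deg := fun {m x} hx => by
        rw [add_zero]
        refine (Dg.shift_deg (X := Dg.conc k (E.E p)) (n := -0) (i := m) (v := x)).2 ?_
        rw [neg_zero, add_zero]
        exact hx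
      map_l := fun b x => by
        rw [ring_sp]
        rfl
      map_r := fun b x => rfl }
  dd := fun p => LinearMap.ext fun x => by
    rw [GMap.dd_apply, sg_zero, one_smul, LinearMap.zero_apply, sub_eq_zero]
    exact atx_d (V := E.E p) x
  nat := fun h x => rfl

theorem Sh.at0_biso (E : BS A A') : BIso E.bp.BB (E.atn 0).bpb.BB :=
  E.at0.biso (fun p => Function.bijective_id)

/-- All shifts of a bisheaf have perfect resolutions, and their classes are equal up to signs. -/
theorem Sh.atn_res (E : BS A A') (h : HasRes E.bp.BB) (n : ℤ) : HasRes (E.atn n).bpb.BB := by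
  have hw : ∀ n, HasRes (E.twn n).bpb.BB := fun n => BPC.acyc_hasRes _ (fun p => twx_acy)
  have h0 : HasRes (E.atn 0).bpb.BB := h.iso E.at0_biso
  induction n using Int.induction_on with
  | zero => exact h0
  | succ n ih => exact (E.tw_ex n).ses.left (hw n) ih
  | pred n ih =>
    have h1 := (E.tw_ex (-(n : ℤ) - 1)).ses
    rw [sub_add_cancel] at h1
    exact h1.right ih (hw _)

theorem Sh.atn_mem (E : BS A A') (h : HasRes E.bp.BB) {J : Submodule ℚ (K0Q (TT A) (TT A'))}
    (n : ℤ) : rcls _ (E.atn_res h n) ∈ J ↔ rcls _ h ∈ J := by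
  have hw : ∀ n, HasRes (E.twn n).bpb.BB := fun n => BPC.acyc_hasRes _ (fun p => twx_acy)
  have h1 : ∀ n, rcls _ (E.atn_res h (n + 1)) = - rcls _ (E.atn_res h n) := by
    intro n
    have h2 := (E.tw_ex n).ses.rcls (E.atn_res h (n + 1)) (hw n) (E.atn_res h n)
    rw [rcls_acyc (BPC.acyc _ (fun p => twx_acy)) (hw n)] at h2
    exact eq_neg_of_add_eq_zero_left h2.symm
  have h3 : ∀ n, rcls _ (E.atn_res h (n + 1)) ∈ J ↔ rcls _ (E.atn_res h n) ∈ J := by
    intro n
    rw [h1, neg_mem_iff]
  have h0 : rcls _ (E.atn_res h 0) ∈ J ↔ rcls _ h ∈ J := by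
    rw [rcls_iso E.at0_biso h (E.atn_res h 0)]
  induction n using Int.induction_on with
  | zero => exact h0
  | succ n ih => exact (h3 n).trans ih
  | pred n ih =>
    have h4 := h3 (-(n : ℤ) - 1)
    refine Iff.trans ?_ (h4.symm.trans (Iff.trans ?_ ih))
    · exact Iff.rfl
    have h5 : ∀ m m' : ℤ, m = m' → (rcls _ (E.atn_res h m) ∈ J ↔ rcls _ (E.atn_res h m') ∈ J) := by
      rintro m _ rfl
      exact Iff.rfl
    exact h5 _ _ (by ring)

end Pool.Agent.MP_6e5bed_ag_GG
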