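import Pool.Agent.Lib.MP_6e5bed_ag_GG.XSpn
import Pool.Agent.Lib.MP_6e5bed_ag_PS.CurB

set_option autoImplicit false
set_option linter.unusedVariables false

/-!
# MP_6e5bed_ag, THEOREM G: X-data, curves
-/

noncomputable section

namespace Pool.Agent.MP_6e5bed_ag_GG

open Pool.Agent.MP_6e5bed_ag_NC Pool.Agent.MP_6e5bed_ag_PS

universe u

variable {k : Type u} [Field k]

/-! ### The charts of a curve -/

/-- `false ↦ 0`, `true ↦ 1` -/
def bF3 (b : Bool) : Fin 3 := if b then 1 else 0

/-- a set of charts as a set of linear forms -/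
def s3 (a : Set Bool) : Finset (Fin 3) :=
  @Finset.filter (Fin 3) (fun j => ∃ b ∈ a, j = bF3 b) (Classical.decPred _) Finset.univ

theorem mem_s3 {a : Set Bool} {j : Fin 3} : j ∈ s3 a ↔ ∃ b ∈ a, j = bF3 b := by
  have h : j ∈ s3 a ↔ j ∈ (Finset.univ : Finset (Fin 3)) ∧ ∃ b ∈ a, j = bF3 b :=
    @Finset.mem_filter _ _ (Classical.decPred _) _ _
  rw [h]
  exact ⟨fun h => h.2, fun h => ⟨Finset.mem_univ _, h⟩⟩

theorem bool_or (b g : Bool) : b = !g ∨ b = g := by
  cases b <;> cases g <;> simp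

theorem s3_mono {a a' : Set Bool} (h : a ⊆ a') : s3 a ⊆ s3 a' := fun j hj => by
  obtain ⟨b, hb, rfl⟩ := mem_s3.1 hj
  exact mem_s3.2 ⟨b, h hb, rfl⟩

theorem mem_s3' {a : Set Bool} {b : Bool} (h : b ∈ a) : bF3 b ∈ s3 a := mem_s3.2 ⟨b, h, rfl⟩

theorem s3_insert (b : Bool) (a : Set Bool) : s3 (insert b a) = insert (bF3 b) (s3 a) := by
  ext j
  rw [Finset.mem_insert, mem_s3, mem_s3]
  constructor
  · rintro ⟨c, hc | hc, rfl⟩
    · rw [hc]
      exact Or.inl rfl
    · exact Or.inr ⟨c, hc, rfl⟩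
  · rintro (rfl | ⟨c, hc, rfl⟩)
    · exact ⟨b, Or.inl rfl, rfl⟩
    · exact ⟨c, Or.inr hc, rfl⟩

theorem s3_empty : s3 ∅ = ∅ := by
  ext j
  rw [mem_s3]
  constructor
  · rintro ⟨c, hc, rfl⟩
    exact absurd hc (Set.notMem_empty _)
  · intro h
    exact absurd h (Finset.notMem_empty _)

theorem s3_singleton (b : Bool) : s3 {b} = {bF3 b} := by
  ext j
  rw [mem_s3, Finset.mem_singleton]
  constructor
  · rintro ⟨c, hc, rfl⟩
    rw [Set.mem_singleton_iff.1 hc]
  · rintro rfl
    exact ⟨b, rfl, rfl⟩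

/-! ### Integral functions -/

theorem SS_zero : SS k 0 = kk k RatFunc.X := by
  unfold SS kk
  refine le_antisymm (Algebra.adjoin_le ?_) (Algebra.adjoin_mono ?_)
  · rintro f ⟨j, rfl⟩
    have hX : (RatFunc.X : RatFunc k) ∈ Algebra.adjoin k {(RatFunc.X : RatFunc k)} :=
      Algebra.subset_adjoin rfl
    have h0 : ell k 0 = 1 := rfl
    rw [h0, div_one]
    fin_cases j
    · exact Subalgebra.one_mem _
    · exact hX
    · exact Subalgebra.sub_mem _ hX (Subalgebra.one_mem _)
  · rintro f rfl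
    refine ⟨1, ?_⟩
    have h0 : ell k 0 = 1 := rfl
    rw [h0, div_one]
    rfl

theorem SS_one : SS k 1 = kk k (RatFunc.X)⁻¹ := by
  have hX : (RatFunc.X : RatFunc k) ≠ 0 := RatFunc.X_ne_zero
  have h1 : ell k 1 = RatFunc.X := rfl
  unfold SS kk
  refine le_antisymm (Algebra.adjoin_le ?_) (Algebra.adjoin_mono ?_)
  · rintro f ⟨j, rfl⟩
    have hX' : (RatFunc.X : RatFunc k)⁻¹ ∈ Algebra.adjoin k {(RatFunc.X : RatFunc k)⁻¹} :=
      Algebra.subset_adjoin rfl
    rw [h1]
    fin_cases j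
    · change (1 : RatFunc k) / RatFunc.X ∈ _
      rw [one_div]
      exact hX'
    · change (RatFunc.X : RatFunc k) / RatFunc.X ∈ _
      rw [div_self hX]
      exact Subalgebra.one_mem _
    · change ((RatFunc.X : RatFunc k) - 1) / RatFunc.X ∈ _
      rw [sub_div, div_self hX, one_div]
      exact Subalgebra.sub_mem _ (Subalgebra.one_mem _) hX'
  · rintro f rfl
    refine ⟨0, ?_⟩
    rw [h1]
    change _ = (1 : RatFunc k) / RatFunc.X
    rw [one_div]

variable (D : FExt k)

private theorem XCur_int {S T : Subalgebra k (RatFunc k)} (h : S = T) (b : D.L) :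
    IsIntegral S b ↔ IsIntegral T b := by
  subst h
  rfl

theorem mem_BM_zero (b : D.L) : b ∈ BM D 0 ↔ b ∈ (LP.OO D).N0 := XCur_int D SS_zero b

theorem mem_BM_one (b : D.L) : b ∈ BM D 1 ↔ b ∈ (LP.OO D).N1 := XCur_int D SS_one b

/-- An integral function on the affine chart is a section of `O(n)` for large `n`. -/
theorem OA_big {f : D.L} (hf : f ∈ BM D 0) : ∃ N : ℕ, ∀ n : ℕ, N ≤ n → f ∈ OA D ∅ (n : ℤ) := by
  choose N hN using fun m => BM_loc hf m
  refine ⟨Finset.univ.sup N, fun n hn m => ⟨0, ?_⟩⟩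
  rw [pow_zero, one_mul]
  have h1 : N m ≤ n := le_trans (Finset.le_sup (Finset.mem_univ m)) hn
  obtain ⟨e, rfl⟩ := Nat.exists_eq_add_of_le h1
  have h2 : el D m ^ (-((N m + e : ℕ) : ℤ)) * f =
      (el D 0 / el D m) ^ e * ((el D 0 / el D m) ^ N m * f) := by
    rw [← mul_assoc, ← pow_add, el_zero, div_pow, one_pow, one_div, zpow_neg, zpow_natCast,
      add_comm]
  rw [h2]
  exact (BM D m).mul_mem (pow_mem (el_div_mem D 0 m) e) (hN m)

theorem curve_frac (u : D.L) : ∃ (n : ℤ) (σ σ' : D.L), σ ∈ OA D ∅ n ∧ σ' ∈ OA D ∅ n ∧ σ ≠ 0 ∧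
    u = σ' / σ := by
  obtain ⟨g, hg, h⟩ := (span_top_iff_X _).1 (LP.OO D).sp0 u
  have h1 : g • u ∈ BM D 0 := (mem_BM_zero D _).2 h
  have h2 : algebraMap (RatFunc k) D.L (g : RatFunc k) ∈ BM D 0 := by
    rw [mem_BM_zero]
    change IsIntegral (kk k RatFunc.X) (algebraMap (kk k RatFunc.X) D.L g)
    exact isIntegral_algebraMap
  obtain ⟨N, hN⟩ := OA_big D h1
  obtain ⟨N', hN'⟩ := OA_big D h2
  have h3 : algebraMap (RatFunc k) D.L (g : RatFunc k) ≠ 0 := by
    rw [Ne, map_eq_zero]
    exact fun h => hg (Subtype.ext h)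
  refine ⟨((max N N' : ℕ) : ℤ), _, _, hN' _ (le_max_right _ _), hN _ (le_max_left _ _), h3, ?_⟩
  rw [eq_div_iff h3]
  have h4 : g • u = algebraMap (RatFunc k) D.L (g : RatFunc k) * u := Algebra.smul_def g u
  rw [h4, mul_comm]

/-! ### The datum -/

/-- the coordinates -/
def cury (b : Bool) : D.Lˣ := Units.mk0 (el D (bF3 b)) (el_ne D _)

theorem cury_div (b c : Bool) : ((cury D b / cury D c : D.Lˣ) : D.L) = el D (bF3 b) / el D (bF3 c) := by
  rw [Units.val_div_eq_div_val]
  rfl

theorem curve_R_mem (a : Set Bool) (r : Lau k Bool) (hr : r ∈ RR k a) :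
    evy (cury D) r ∈ OA D (s3 a) 0 := by
  refine RR_le (evy (cury D)) ((OA D (s3 a) 0).toSubalgebra (one_mem_OA _)
    (fun x y hx hy => CurB_mul0 hx hy)) (fun l g hg => ?_) r hr
  rw [evy_ex, cury_div]
  exact CurB_quo (mem_s3' hg)

theorem curve_loc {a d : Set Bool} {j l : Bool} (hd : d ⊆ insert j a) (hl : l ∈ a) (n : ℤ)
    (u : D.L) (hu : u ∈ OA D (s3 d) n) :
    ∃ m : ℕ, ((cury D j / cury D l : D.Lˣ) : D.L) ^ m * u ∈ OA D (s3 a) n := by
  have h1 : u ∈ OA D (insert (bF3 j) (s3 a)) n := by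
    rw [← s3_insert]
    exact OA_mono (s3_mono hd) n hu
  obtain ⟨m, hm⟩ := OA_loc (mem_s3' hl) h1
  refine ⟨m, ?_⟩
  rw [cury_div]
  exact hm

/-- PROOF. `Algebra.adjoin_induction`; the generator `X` is the value of `x_1 / x_0`. -/
theorem curve_kk0 (g : RatFunc k) (hg : g ∈ kk k RatFunc.X) :
    ∃ r ∈ RR k ({false} : Set Bool), evy (cury D) r = algebraMap (RatFunc k) D.L g := by
  unfold kk at hg
  induction hg using Algebra.adjoin_induction with
  | mem x hx =>
    rw [Set.mem_singleton_iff] at hx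
    subst hx
    refine ⟨mon k (ex true false), mon_mem (isEx_ex _ rfl), ?_⟩
    rw [evy_ex, cury_div]
    change el D 1 / el D 0 = el D 1
    rw [el_zero, div_one]
  | algebraMap c =>
    refine ⟨algebraMap k (Lau k Bool) c, (RR k _).algebraMap_mem c, ?_⟩
    rw [AlgHom.commutes, ← IsScalarTower.algebraMap_apply]
  | add x y _ _ hx hy =>
    obtain ⟨r, hr, e⟩ := hx
    obtain ⟨r', hr', e'⟩ := hy
    exact ⟨r + r', (RR k _).add_mem hr hr', by rw [map_add, map_add, e, e']⟩
  | mul x y _ _ hx hy =>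
    obtain ⟨r, hr, e⟩ := hx
    obtain ⟨r', hr', e'⟩ := hy
    exact ⟨r * r', (RR k _).mul_mem hr hr', by rw [map_mul, map_mul, e, e']⟩

/-- PROOF. `Algebra.adjoin_induction`; the generator `1 / X` is the value of `x_0 / x_1`. -/
theorem curve_kk1 (g : RatFunc k) (hg : g ∈ kk k (RatFunc.X)⁻¹) :
    ∃ r ∈ RR k ({true} : Set Bool), evy (cury D) r = algebraMap (RatFunc k) D.L g := by
  unfold kk at hg
  induction hg using Algebra.adjoin_induction with
  | mem x hx =>
    rw [Set.mem_singleton_iff] at hx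
    subst hx
    refine ⟨mon k (ex false true), mon_mem (isEx_ex _ rfl), ?_⟩
    rw [evy_ex, cury_div]
    change el D 0 / el D 1 = _
    rw [el_zero, one_div, map_inv₀]
    rfl
  | algebraMap c =>
    refine ⟨algebraMap k (Lau k Bool) c, (RR k _).algebraMap_mem c, ?_⟩
    rw [AlgHom.commutes, ← IsScalarTower.algebraMap_apply]
  | add x y _ _ hx hy =>
    obtain ⟨r, hr, e⟩ := hx
    obtain ⟨r', hr', e'⟩ := hy
    exact ⟨r + r', (RR k _).add_mem hr hr', by rw [map_add, map_add, e, e']⟩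
  | mul x y _ _ hx hy =>
    obtain ⟨r, hr, e⟩ := hx
    obtain ⟨r', hr', e'⟩ := hy
    exact ⟨r * r', (RR k _).mul_mem hr hr', by rw [map_mul, map_mul, e, e']⟩

/-- finite generation on the chart of one coordinate -/
theorem curve_fg1 (b : Bool) (n : ℤ) : ∃ S : Finset D.L, (∀ w ∈ S, w ∈ OA D (s3 {b}) n) ∧
    ∀ u ∈ OA D (s3 {b}) n, u ∈ spn (k := k) (cury D) {b} (S : Set D.L) := by
  classical
  cases b with
  | false =>
    obtain ⟨S, hS⟩ := (LP.OO D).fg0
    have hmem : ∀ w : D.L, w ∈ OA D (s3 {false}) n ↔ w ∈ (LP.OO D).N0 := fun w => by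
      rw [← mem_BM_zero, s3_singleton]
      have h := mem_OA_sgl (D := D) (m := 0) (i := n) (f := w)
      rw [el_zero, one_zpow, one_mul] at h
      exact h
    refine ⟨S, fun w hw => ?_, fun u hu => ?_⟩
    · rw [hmem, ← hS]
      exact Submodule.subset_span hw
    · rw [hmem, ← hS] at hu
      induction hu using Submodule.span_induction with
      | mem x hx => exact spn_mem hx
      | zero => exact Submodule.zero_mem _
      | add x y _ _ hx hy => exact Submodule.add_mem _ hx hy
      | smul c x _ hx =>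
        obtain ⟨r, hr, e⟩ := curve_kk0 D (c : RatFunc k) c.2
        have h1 : c • x = evy (cury D) r * x := by
          rw [e]
          exact Algebra.smul_def c x
        rw [h1]
        exact spn_mul hr hx
  | true =>
    obtain ⟨S, hS⟩ := (LP.OO D).fg1
    have hmem : ∀ w : D.L, w ∈ OA D (s3 {true}) n ↔ el D 1 ^ (-n) * w ∈ (LP.OO D).N1 := fun w => by
      rw [← mem_BM_one, s3_singleton]
      exact mem_OA_sgl (D := D) (m := 1) (i := n) (f := w)
    have hn : el D 1 ^ (-n) * el D 1 ^ n = 1 := by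
      rw [← zpow_add₀ (el_ne D 1), neg_add_cancel, zpow_zero]
    have hn' : el D 1 ^ n * el D 1 ^ (-n) = 1 := by rw [mul_comm, hn]
    refine ⟨S.image (fun w => el D 1 ^ n * w), fun w hw => ?_, fun u hu => ?_⟩
    · obtain ⟨v, hv, rfl⟩ := Finset.mem_image.1 hw
      rw [hmem, ← mul_assoc, hn, one_mul, ← hS]
      exact Submodule.subset_span hv
    · rw [hmem] at hu
      have h2 : ∀ x ∈ (LP.OO D).N1, el D 1 ^ n * x ∈
          spn (k := k) (cury D) {true} ((S.image (fun w => el D 1 ^ n * w) : Finset D.L) : Set D.L) := by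
        intro x hx
        rw [← hS] at hx
        induction hx using Submodule.span_induction with
        | mem x hx => exact spn_mem (Finset.mem_coe.2 (Finset.mem_image.2 ⟨x, hx, rfl⟩))
        | zero => rw [mul_zero]; exact Submodule.zero_mem _
        | add x y _ _ hx hy => rw [mul_add]; exact Submodule.add_mem _ hx hy
        | smul c x _ hx =>
          obtain ⟨r, hr, e⟩ := curve_kk1 D (c : RatFunc k) c.2
          have h1 : el D 1 ^ n * (c • x) = evy (cury D) r * (el D 1 ^ n * x) := by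
            rw [e]
            have h3 : c • x = algebraMap (RatFunc k) D.L (c : RatFunc k) * x :=
              Algebra.smul_def c x
            rw [h3]
            ring
          rw [h1]
          exact spn_mul hr hx
      have h3 := h2 _ hu
      rwa [← mul_assoc, hn', one_mul] at h3

theorem curve_fg (n : ℤ) {a : Set Bool} (ha : a.Nonempty) : ∃ S : Finset D.L,
    (∀ w ∈ S, w ∈ OA D (s3 a) n) ∧
    ∀ u ∈ OA D (s3 a) n, u ∈ spn (k := k) (cury D) a (S : Set D.L) := by
  obtain ⟨g, hg⟩ := ha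
  obtain ⟨S, hS, hS'⟩ := curve_fg1 D g n
  have hga : ({g} : Set Bool) ⊆ a := Set.singleton_subset_iff.2 hg
  refine ⟨S, fun w hw => OA_mono (s3_mono hga) n (hS w hw), fun u hu => ?_⟩
  by_cases h : (!g) ∈ a
  · obtain ⟨m, hm⟩ := curve_loc D (a := {g}) (d := a) (j := !g) (l := g)
      (fun b hb => by
        rw [Set.mem_insert_iff, Set.mem_singleton_iff]
        exact bool_or b g) rfl n u hu
    have h1 := spn_mono (k := k) (y := cury D) hga (le_refl (S : Set D.L)) (hS' _ hm)
    have h2 := spn_mul (k := k) (y := cury D) (S := (S : Set D.L)) (tpow_mem_RR (k := k) g h m) h1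
    have h3 : evy (cury D) (mon k (ex g !g) ^ m) *
        (((cury D (!g) / cury D g : D.Lˣ) : D.L) ^ m * u) = u := by
      rw [map_pow, evy_ex, ← mul_assoc, ← mul_pow, ← Units.val_mul, div_mul_div_cancel,
        div_self', Units.val_one, one_pow, one_mul]
    rwa [h3] at h2
  · have h1 : a = {g} := by
      ext b
      rw [Set.mem_singleton_iff]
      constructor
      · intro hb
        by_contra hbg
        exact h ((bool_or b g).resolve_right hbg ▸ hb)
      · rintro rfl
        exact hg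
    rw [h1] at hu ⊢
    exact hS' u hu

/-- A curve with a finite separable morphism to the projective line. -/
def XD.curve : XD k where
  i := Bool
  D := Unit
  M := D.L
  y := cury D
  O := fun b a => OA D (s3 a) (b ())
  s := fun _ => Units.mk0 (el D 1) (el_ne D 1)
  ne := ⟨false⟩
  mono := fun b _ _ h => OA_mono (s3_mono h) _
  one_mem := fun a => one_mem_OA _
  mul_mem := fun hu hv => OA_mul hu hv
  one_mem' := fun r => by
    have h := el_mem_OA (D := D) (s3 ∅) 0
    rw [el_zero] at h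
    exact h
  s_mem := fun r => el_mem_OA (D := D) (s3 ∅) 1
  step := fun r a ha => by
    obtain ⟨g, hg⟩ := ha
    have hb : ∀ b : Unit → ℤ, (b + Pi.single r 1 : Unit → ℤ) () = b () + 1 := fun b => by
      rw [Pi.add_apply, Pi.single_eq_same]
    cases g with
    | false =>
      refine Or.inl fun b => ?_
      have h0 : (0 : Fin 3) ∈ s3 a := mem_s3' hg
      rw [hb]
      refine le_antisymm (fun f hf => ?_) (fun f hf => ?_)
      · have h1 := OA_mul hf (inv_mem_OA (D := D) h0)
        rwa [el_zero, inv_one, mul_one, add_neg_cancel_right] at h1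
      · have h1 := OA_mul hf (el_mem_OA (D := D) (s3 a) 0)
        rwa [el_zero, mul_one] at h1
    | true =>
      refine Or.inr fun b u => ?_
      have h0 : (1 : Fin 3) ∈ s3 a := mem_s3' hg
      rw [hb]
      have h2 : (((Units.mk0 (el D 1) (el_ne D 1))⁻¹ : D.Lˣ) : D.L) = (el D 1)⁻¹ := rfl
      rw [h2]
      constructor
      · intro hf
        have h1 := OA_mul hf (inv_mem_OA (D := D) h0)
        rwa [add_neg_cancel_right, mul_comm] at h1
      · intro hf
        have h1 := OA_mul hf (el_mem_OA (D := D) (s3 a) 1)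
        have h3 : (el D 1)⁻¹ * u * el D 1 = u := by
          have := el_ne D 1
          field_simp
        rwa [h3] at h1
  frac := fun u => by
    obtain ⟨n, σ, σ', h1, h2, h3, h4⟩ := curve_frac D u
    exact ⟨fun _ => n, σ, σ', by rw [s3_empty]; exact h1, by rw [s3_empty]; exact h2, h3, h4⟩
  R_mem := fun a r hr => curve_R_mem D a r hr
  loc := fun _ hd hl b u hu => curve_loc D hd hl (b ()) u hu
  fg := fun b _ ha => curve_fg D (b ()) ha

end Pool.Agent.MP_6e5bed_ag_GG
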