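import Pool.Agent.Lib.MP_6e5bed_ag_GG.XTen
import Pool.Agent.Lib.MP_6e5bed_ag_GG.BB
import Pool.Agent.Lib.MP_6e5bed_ag_PN.KnF

set_option autoImplicit false
set_option linter.unusedVariables false

/-!
# MP_6e5bed_ag, THEOREM G: zigzags of quasi-isomorphisms of dg algebras; the Čech dg algebra of a
product of X-data
-/

noncomputable section

namespace Pool.Agent.MP_6e5bed_ag_GG

open Pool.Agent.MP_6e5bed_ag_NC Pool.Agent.MP_6e5bed_ag_NS Pool.Agent.MP_6e5bed_ag_PN
open Pool.Agent.MP_6e5bed_ag_PS (SPJ dqi_tensor)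
open scoped TensorProduct

universe u

variable {k : Type u} [Field k]

/-- Zigzags of quasi-isomorphisms. -/
inductive QE : DGA k → DGA k → Prop
  | refl (A : DGA k) : QE A A
  | up {A B C : DGA k} (r : DHom B C) : DQI r → QE A B → QE A C
  | down {A B C : DGA k} (r : DHom C B) : DQI r → QE A B → QE A C

theorem QE.trans {A B C : DGA k} (h : QE A B) (h' : QE B C) : QE A C := by
  induction h' with
  | refl => exact h
  | up r hr _ ih => exact QE.up r hr ih
  | down r hr _ ih => exact QE.down r hr ih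

theorem QE.spj {Good : DGA k → Prop} {A B : DGA k} (h : QE A B) (hA : SPJ Good A) :
    SPJ Good B := by
  induction h with
  | refl => exact hA
  | up r hr _ ih => exact ih.up r hr
  | down r hr _ ih => exact ih.down r hr

theorem dqi_id (A : DGA k) : DQI (DHom.id A) := by
  refine ⟨fun x _ hy => ?_, fun y hy => ⟨y, hy, 0, ?_⟩⟩
  · obtain ⟨y, hy⟩ := hy
    exact ⟨y, hy⟩
  · rw [map_zero]
    exact (sub_self y).symm

theorem QE.tensorL {A B : DGA k} (C : DGA k) (h : QE A B) : QE (A.tensor C) (B.tensor C) := by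
  induction h with
  | refl => exact QE.refl _
  | up r hr _ ih => exact QE.up (r.tensor (DHom.id C)) (dqi_tensor hr (dqi_id C)) ih
  | down r hr _ ih => exact QE.down (r.tensor (DHom.id C)) (dqi_tensor hr (dqi_id C)) ih

theorem QE.tensorR {A B : DGA k} (C : DGA k) (h : QE A B) : QE (C.tensor A) (C.tensor B) := by
  induction h with
  | refl => exact QE.refl _
  | up r hr _ ih => exact QE.up ((DHom.id C).tensor r) (dqi_tensor (dqi_id C) hr) ih
  | down r hr _ ih => exact QE.down ((DHom.id C).tensor r) (dqi_tensor (dqi_id C) hr) ih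

theorem QE.tensor {A B A' B' : DGA k} (h : QE A B) (h' : QE A' B') :
    QE (A.tensor A') (B.tensor B') :=
  (h.tensorL A').trans (h'.tensorR B)

namespace XP

variable (P : XP k)

/-- the comparison of the presheaves -/
def krH : PAH (MP_6e5bed_ag_PN.PA.ten (P.X1.ca.pa.pull Prod.fst) (P.X2.ca.pa.pull Prod.snd))
    P.xd.ca.pa where
  f := fun c => P.kr c.1
  nat := fun {c d} h x => P.kr_nat h x

theorem krH_qi (c : Ch (P.X1.i × P.X2.i)) : Qi (dch (P.krH.f c)) := Qi.of_bij (P.krF_bij c.1)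

/-- The Čech dg algebra of the product. -/
theorem qe : QE ((TT P.X1.ca).tensor (TT P.X2.ca)) (TT P.xd.ca) := by
  have h1 := knA_qi P.X1.ca.pa P.X2.ca.pa (LL P.X1.i) (LL P.X2.i) Prod.fst Prod.snd
    (LL P.xd.i) (fun l l' => ⟨(l, l'), mem_LL _, rfl, rfl⟩)
  have h2 := knB_qi P.X1.ca.pa P.X2.ca.pa (LL P.X1.i) (LL P.X2.i) Prod.fst Prod.snd
    (LL P.xd.i) mem_LL mem_LL
  have h3 := P.krH.dqi P.krH_qi (LL P.xd.i) (FS.e _)
  exact QE.up _ h3 (QE.down _ h2 (QE.up _ h1 (QE.refl _)))

end XP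

end Pool.Agent.MP_6e5bed_ag_GG
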