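import Pool.Agent.Lib.MP_6e5bed_ag_GG.XTwo
import Pool.Agent.Lib.MP_6e5bed_ag_GG.XCur
import Pool.Agent.Lib.MP_6e5bed_ag_GG.Xa
import Pool.Agent.Lib.MP_6e5bed_ag_GG.XQe
import Pool.Agent.Lib.MP_6e5bed_ag_PS.VZero

set_option autoImplicit false
set_option linter.unusedVariables false

/-!
# MP_6e5bed_ag, THEOREM G: the Čech dg algebra of the X-datum of a curve
-/

noncomputable section

namespace Pool.Agent.MP_6e5bed_ag_GG

open Pool.Agent.MP_6e5bed_ag_NC Pool.Agent.MP_6e5bed_ag_NS Pool.Agent.MP_6e5bed_ag_PN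
open Pool.Agent.MP_6e5bed_ag_PS (CoH EM mem_EM OA EM_mono emR cospC T1 exists_t1_curve)

universe u

variable {k : Type u} [Field k]

/-- `false ↦ 0`, `true ↦ 1` -/
def f2 (e : Unit → Bool) : Fin 2 := if e () then 1 else 0

/-- the inverse -/
def f2i (p : Fin 2) : Unit → Bool := fun _ => decide (p = 1)

theorem f2i_f2 (e : Unit → Bool) : f2i (f2 e) = e := by
  funext x
  unfold f2i f2
  cases h : e () <;> simp [h]

theorem f2_f2i (p : Fin 2) : f2 (f2i p) = p := by
  unfold f2i f2
  fin_cases p <;> simp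

/-- the bijection of the indices -/
def f2e : (Unit → Bool) ≃ Fin 2 := ⟨f2, f2i, f2i_f2, f2_f2i⟩

variable (D : FExt k)

theorem f2_tw (e e' : Unit → Bool) :
    (((f2 e : Fin 2) : ℕ) : ℤ) - (((f2 e' : Fin 2) : ℕ) : ℤ) =
      ((XD.curve D).tw e - (XD.curve D).tw e' : Unit → ℤ) () := by
  change _ = (if e () then (1 : ℤ) else 0) - (if e' () then (1 : ℤ) else 0)
  unfold f2
  cases e () <;> cases e' () <;> simp

/-- the matrices with the indices `0`, `1` and the sections over a chart -/
def emX (a : Set Bool) {b : Finset (Fin 3)} (h : s3 a = b) :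
    EM D b →ₐ[k] (XD.curve D).AXs a :=
  ((Matrix.reindexAlgEquiv k D.L f2e.symm).toAlgHom.comp (EM D b).val).codRestrict
    ((XD.curve D).AXs a) (fun m e e' => by
      subst h
      have h1 := m.2 (f2 e) (f2 e')
      rw [f2_tw D] at h1
      exact h1)

theorem emX_apply (a : Set Bool) {b : Finset (Fin 3)} (h : s3 a = b) (m : EM D b)
    (e e' : Unit → Bool) : (emX D a h m).1 e e' = m.1 (f2 e) (f2 e') := rfl

theorem emX_bij (a : Set Bool) {b : Finset (Fin 3)} (h : s3 a = b) :
    Function.Bijective (emX D a h) := by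
  subst h
  constructor
  · intro m n hmn
    refine Subtype.ext (Matrix.ext fun p q => ?_)
    have h1 := congrArg (fun z => z.1 (f2i p) (f2i q)) hmn
    change m.1 (f2 (f2i p)) (f2 (f2i q)) = n.1 (f2 (f2i p)) (f2 (f2i q)) at h1
    rwa [f2_f2i, f2_f2i] at h1
  · intro n
    refine ⟨⟨fun p q => n.1 (f2i p) (f2i q), fun p q => ?_⟩, ?_⟩
    · have h1 := n.2 (f2i p) (f2i q)
      have h2 := f2_tw D (f2i p) (f2i q)
      rw [f2_f2i, f2_f2i] at h2
      rw [h2]
      exact h1
    · refine Subtype.ext (Matrix.ext fun e e' => ?_)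
      change n.1 (f2i (f2 e)) (f2i (f2 e')) = n.1 e e'
      rw [f2i_f2, f2i_f2]

theorem bF3_false : bF3 false = 0 := rfl

theorem bF3_true : bF3 true = 1 := rfl

theorem s3_ins1 (l : Bool) : s3 (insert l ∅) = insert (bF3 l) ∅ := by
  rw [s3_insert, s3_empty]

theorem s3_ins2 (l l' : Bool) : s3 (insert l (insert l' ∅)) = insert (bF3 l) (insert (bF3 l') ∅) := by
  rw [s3_insert, s3_ins1]

/-- the comparison for the order `true`, `false` -/
def curvTF : CoH (cospC D ∅) ((XD.curve D).ca.cosp true false) where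
  f0 := emX D (insert false ∅) (s3_ins1 false)
  f1 := emX D (insert true ∅) (s3_ins1 true)
  f01 := emX D (insert false (insert true ∅)) (s3_ins2 false true)
  h0 := fun _ => rfl
  h1 := fun _ => rfl

/-- the comparison for the order `false`, `true` -/
def curvFT : CoH (cswap (cospC D ∅)) ((XD.curve D).ca.cosp false true) where
  f0 := emX D (insert true ∅) (s3_ins1 true)
  f1 := emX D (insert false ∅) (s3_ins1 false)
  f01 := emX D (insert true (insert false ∅)) ((s3_ins2 true false).trans (Finset.insert_comm _ _ _))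
  h0 := fun _ => rfl
  h1 := fun _ => rfl

theorem coh_bij {S T : Cosp k} (f : CoH S T) (h0 : Function.Bijective f.f0)
    (h1 : Function.Bijective f.f1) (h01 : Function.Bijective f.f01) :
    Function.Bijective f.dh.f := (h0.prodMap h1).prodMap h01

theorem curvTF_dqi : DQI (curvTF D).dh :=
  dqi_bij (coh_bij _ (emX_bij D _ (s3_ins1 false)) (emX_bij D _ (s3_ins1 true))
    (emX_bij D _ (s3_ins2 false true)))

theorem curvFT_dqi : DQI (curvFT D).dh :=
  dqi_bij (coh_bij _ (emX_bij D _ (s3_ins1 true)) (emX_bij D _ (s3_ins1 false))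
    (emX_bij D _ ((s3_ins2 true false).trans (Finset.insert_comm _ _ _))))

theorem LL_bool : LL Bool = [true, false] ∨ LL Bool = [false, true] := by
  have h1 : (LL Bool).Perm [true, false] := by
    have h2 : (Finset.univ : Finset Bool) = {true, false} := rfl
    refine (List.perm_ext_iff_of_nodup (Finset.nodup_toList _) (by decide)).2 fun a => ?_
    rw [Finset.mem_toList]
    constructor
    · intro _
      cases a <;> simp
    · intro _
      exact Finset.mem_univ a
  have h2 : (LL Bool).length = 2 := h1.length_eq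
  match hL : LL Bool, h2 with
  | [a, b], _ =>
    rw [hL] at h1
    have hn : ([a, b] : List Bool).Nodup := h1.symm.nodup (by decide)
    cases a <;> cases b
    · exact absurd hn (by decide)
    · exact Or.inr rfl
    · exact Or.inl rfl
    · exact absurd hn (by decide)

/-- The Čech dg algebra of a curve is quasi-isomorphic to a dg algebra of a curve. -/
theorem curve_qe : ∃ W : DGA k, IsCurve W ∧ QE W (TT (XD.curve D).ca) := by
  obtain ⟨W, hW, r, hr⟩ := exists_t1_curve D
  have h1 : QE W (cospC D ∅).cech := QE.down r (dqi_bij hr) (QE.refl W)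
  refine ⟨W, hW, ?_⟩
  have key : ∀ L : List Bool, L = [true, false] ∨ L = [false, true] →
      QE W (cA (XD.curve D).ca.pa L (FS.e Bool)) := by
    rintro L (rfl | rfl)
    · exact QE.up _ (dqi_bij ((XD.curve D).ca.two_bij true false))
        (QE.up _ (curvTF_dqi D) h1)
    · exact QE.up _ (dqi_bij ((XD.curve D).ca.two_bij false true))
        (QE.up _ (curvFT_dqi D) (QE.down _ (mid1_dqi _) (QE.up _ (mid0_dqi _) h1)))
  exact key (LL Bool) LL_bool

end Pool.Agent.MP_6e5bed_ag_GG
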