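import Pool.Agent.Lib.MP_6e5bed_ag_GG.GJ

set_option autoImplicit false
set_option linter.unusedSectionVars false
set_option linter.unusedVariables false

/-!
# MP_6e5bed_ag, THEOREM G: the subsheaf `E0` exists (text, (8.1), after (4.1))

A finitely generated sheaf of modules over `L` with a right action of `A'` is generated by the
sections of the systems `s_c ∈ V_{c}`, `(x_c / x_d)^b s_c = s_d`, that is by finitely many global
sections of twists; their `A'`-span over `k` is `E0`.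
-/

noncomputable section

namespace Pool.Agent.MP_6e5bed_ag_GG

open scoped TensorProduct

universe u

variable {k : Type u} [Field k] {j : Type} [Fintype j] {A' : CA k j}

private theorem XEz_comp {c : Set j} (a : j) {b d : j} (hb : b ∈ c) (hd : d ∈ c) :
    tt k a hb * tt k b hd = tt k a hd := by
  refine Subtype.ext ?_
  change mon k (ex a b) * mon k (ex b d) = mon k (ex a d)
  rw [mon_mul]
  congr 1
  unfold ex
  rw [sub_add_sub_cancel]

private theorem XEz_self {c : Set j} {a : j} (ha : a ∈ c) : tt k a ha = 1 := by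
  refine Subtype.ext ?_
  change mon k (ex a a) = 1
  unfold ex
  rw [sub_self]
  rfl

theorem mem_sgl' (c : j) : c ∈ (Ch.sgl c).1 := Set.mem_singleton c

theorem sgl_le {p : Ch j} {c : j} (hc : c ∈ p.1) : Ch.sgl c ≤ p := Set.singleton_subset_iff.2 hc

namespace LPre

variable {L : Type u} [Field L] [Algebra k L] (W : LPre L A')

/-- multiplication by a function -/
def fn (c : Ch j) (f : RR k c.1) : W.E c →ₗ[L] W.E c :=
  W.r c (MulOpposite.op (algebraMap (RR k c.1) (A'.A c) f))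

theorem fn_def (c : Ch j) (f : RR k c.1) (x : W.E c) :
    W.r c (MulOpposite.op (algebraMap (RR k c.1) (A'.A c) f)) x = W.fn c f x := rfl

theorem fn_mul (c : Ch j) (f g : RR k c.1) (x : W.E c) :
    W.fn c (f * g) x = W.fn c f (W.fn c g x) := by
  unfold fn
  rw [← W.r_mul, ← MulOpposite.op_mul, ← map_mul, mul_comm f g]

theorem fn_one (c : Ch j) (x : W.E c) : W.fn c 1 x = x := by
  unfold fn
  rw [map_one, MulOpposite.op_one, W.r_one]

theorem fn_res {c d : Ch j} (h : c ≤ d) (f : RR k c.1) (x : W.E c) :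
    W.res h (W.fn c f x) = W.fn d (rinc h f) (W.res h x) := by
  unfold fn
  rw [W.res_r, MulOpposite.unop_op, A'.res_R]

theorem fn_r (c : Ch j) (f : RR k c.1) (b : (A'.A c)ᵐᵒᵖ) (x : W.E c) :
    W.fn c f (W.r c b x) = W.r c b (W.fn c f x) := by
  unfold fn
  rw [← W.r_mul, ← W.r_mul]
  congr 2
  refine MulOpposite.unop_injective ?_
  rw [MulOpposite.unop_mul, MulOpposite.unop_mul, MulOpposite.unop_op]
  exact (Algebra.commutes f b.unop).symm

/-- trivialisations of a global section of a twist -/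
structure Sy where
  b : ℕ
  s : ∀ c : j, W.E (Ch.sgl c)
  eq : ∀ (p : Ch j) (c d : j) (hc : c ∈ p.1) (hd : d ∈ p.1),
    W.fn p (tt k c hd ^ b) (W.res (sgl_le hc) (s c)) = W.res (sgl_le hd) (s d)

private theorem sup_sub (c d : j) : ((Ch.sgl c).sup (Ch.sgl d)).1 ⊆ insert d (Ch.sgl c).1 := by
  rintro x (hx | hx)
  · exact Or.inr hx
  · exact Or.inl hx

private theorem sup_sub' (p : Ch j) (d : j) : (p.sup (Ch.sgl d)).1 ⊆ insert d p.1 := by
  rintro x (hx | hx)
  · exact Or.inr hx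
  · exact Or.inl hx

private theorem mem_sup (p : Ch j) (d : j) : d ∈ (p.sup (Ch.sgl d)).1 :=
  Set.mem_union_right _ (Set.mem_singleton d)

private theorem le_sup' (p : Ch j) (d : j) : p ≤ p.sup (Ch.sgl d) := Set.subset_union_left

private theorem sup_le' {p q : Ch j} (h : p ≤ q) {d : j} (hd : d ∈ q.1) :
    p.sup (Ch.sgl d) ≤ q :=
  Set.union_subset h (Set.singleton_subset_iff.2 hd)

theorem sy_a (a : j) (e : W.E (Ch.sgl a)) : ∃ (N : ℕ) (y : ∀ c : j, W.E (Ch.sgl c)),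
    y a = e ∧ ∀ (p : Ch j) (ha : a ∈ p.1) (c : j) (hc : c ∈ p.1), W.res (sgl_le hc) (y c) =
      W.fn p (tt k a hc ^ N) (W.res (sgl_le ha) e) := by
  classical
  have h1 : ∀ c : j, ∃ (n : ℕ) (x : W.E (Ch.sgl c)), W.res (le_sup' (Ch.sgl c) a) x =
      W.fn _ (tt k a (le_sup' (Ch.sgl c) a (mem_sgl' c)) ^ n)
        (W.res (sgl_le (mem_sup (Ch.sgl c) a)) e) := fun c =>
    W.surj (le_sup' (Ch.sgl c) a) (mem_sgl' c) a (sup_sub' _ a) _
  choose n x hx using h1
  obtain ⟨N, hN⟩ : ∃ N : ℕ, ∀ c, n c ≤ N :=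
    ⟨Finset.univ.sup n, fun c => Finset.le_sup (Finset.mem_univ c)⟩
  refine ⟨N, Function.update (fun c => W.fn (Ch.sgl c) (tt k a (mem_sgl' c) ^ (N - n c)) (x c))
    a e, Function.update_self _ _ _, ?_⟩
  intro p ha c hc
  by_cases h : c = a
  · subst h
    rw [Function.update_self, XEz_self, one_pow, fn_one]
  · rw [Function.update_of_ne h]
    have h3 : (Ch.sgl c).sup (Ch.sgl a) ≤ p := sup_le' (sgl_le hc) ha
    have h4 := congrArg (W.res h3) (hx c)
    rw [W.res_res, fn_res, W.res_res, map_pow] at h4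
    rw [fn_res, map_pow]
    have h5 : rinc (sgl_le hc) (tt k a (mem_sgl' c)) = tt k a hc := rfl
    rw [h5]
    refine (congrArg (W.fn p (tt k a hc ^ (N - n c))) h4).trans ?_
    refine (W.fn_mul p _ _ _).symm.trans ?_
    have h6 : tt k a hc ^ (N - n c) * tt k a hc ^ n c = tt k a hc ^ N := by
      rw [← pow_add, Nat.sub_add_cancel (hN c)]
    exact congrArg (fun f => W.fn p f (W.res (sgl_le ha) e)) h6

theorem sy_b (a : j) (e : W.E (Ch.sgl a)) (N : ℕ) (y : ∀ c : j, W.E (Ch.sgl c))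
    (h2 : ∀ (p : Ch j) (ha : a ∈ p.1) (c : j) (hc : c ∈ p.1), W.res (sgl_le hc) (y c) =
      W.fn p (tt k a hc ^ N) (W.res (sgl_le ha) e)) :
    ∃ M : ℕ, ∀ (p : Ch j) (c d : j) (hc : c ∈ p.1) (hd : d ∈ p.1),
      W.fn p (tt k a hd ^ M) (W.fn p (tt k c hd ^ N) (W.res (sgl_le hc) (y c)) -
        W.res (sgl_le hd) (y d)) = 0 := by
  classical
  have h5 : ∀ c d : j, ∃ m : ℕ, W.fn ((Ch.sgl c).sup (Ch.sgl d))
      (tt k a (mem_sup (Ch.sgl c) d) ^ m)
      (W.fn _ (tt k c (mem_sup (Ch.sgl c) d) ^ N) (W.res (le_sup' (Ch.sgl c) d) (y c)) -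
        W.res (sgl_le (mem_sup (Ch.sgl c) d)) (y d)) = 0 := by
    intro c d
    refine W.inj (le_sup' ((Ch.sgl c).sup (Ch.sgl d)) a) (mem_sup (Ch.sgl c) d) a (sup_sub' _ a)
      _ ?_
    have hc : c ∈ (((Ch.sgl c).sup (Ch.sgl d)).sup (Ch.sgl a)).1 :=
      le_sup' _ a (le_sup' (Ch.sgl c) d (Set.mem_singleton c))
    have hd : d ∈ (((Ch.sgl c).sup (Ch.sgl d)).sup (Ch.sgl a)).1 :=
      le_sup' _ a (mem_sup (Ch.sgl c) d)
    rw [map_sub, fn_res, W.res_res, W.res_res, map_pow, sub_eq_zero]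
    have h3 := h2 _ (mem_sup _ a) c hc
    have h4 := h2 _ (mem_sup _ a) d hd
    refine (congrArg (W.fn _ (tt k c hd ^ N)) h3).trans (Eq.trans ?_ h4.symm)
    refine (W.fn_mul _ _ _ _).symm.trans ?_
    have h6 : tt k c hd ^ N * tt k a hc ^ N = tt k a hd ^ N := by
      rw [← mul_pow, mul_comm, XEz_comp]
    exact congrArg (fun f => W.fn _ f (W.res (sgl_le (mem_sup _ a)) e)) h6
  choose m hm using h5
  obtain ⟨M, hM⟩ : ∃ M : ℕ, ∀ c d, m c d ≤ M :=
    ⟨Finset.univ.sup fun q : j × j => m q.1 q.2, fun c d =>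
      Finset.le_sup (f := fun q : j × j => m q.1 q.2) (Finset.mem_univ (c, d))⟩
  refine ⟨M, fun p c d hc hd => ?_⟩
  have h7 := congrArg (W.res (sup_le' (sgl_le hc) hd)) (hm c d)
  rw [fn_res, map_sub, fn_res, W.res_res, W.res_res, map_pow, map_pow, map_zero] at h7
  have h8 := congrArg (W.fn p (tt k a hd ^ (M - m c d))) h7
  rw [map_zero] at h8
  have h6 : tt k a hd ^ (M - m c d) * tt k a hd ^ m c d = tt k a hd ^ M := by
    rw [← pow_add, Nat.sub_add_cancel (hM c d)]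
  rw [← h6]
  exact (W.fn_mul p _ _ _).trans h8

/-- every section extends after a twist -/
theorem exists_sy (a : j) (e : W.E (Ch.sgl a)) : ∃ σ : W.Sy, σ.s a = e := by
  obtain ⟨N, y, hya, h2⟩ := W.sy_a a e
  obtain ⟨M, hM⟩ := W.sy_b a e N y h2
  refine ⟨⟨N + M, fun c => W.fn (Ch.sgl c) (tt k a (mem_sgl' c) ^ M) (y c), ?_⟩, ?_⟩
  · intro p c d hc hd
    have h6 := hM p c d hc hd
    rw [map_sub, sub_eq_zero] at h6
    rw [fn_res, fn_res, map_pow, map_pow]
    have h7 : rinc (sgl_le hc) (tt k a (mem_sgl' c)) = tt k a hc := rfl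
    have h8 : rinc (sgl_le hd) (tt k a (mem_sgl' d)) = tt k a hd := rfl
    rw [h7, h8, ← h6, ← fn_mul, ← fn_mul]
    have h9 : tt k c hd ^ (N + M) * tt k a hc ^ M = tt k a hd ^ M * tt k c hd ^ N := by
      rw [pow_add, mul_assoc, ← mul_pow (tt k c hd), mul_comm (tt k c hd) (tt k a hc), XEz_comp,
        mul_comm]
    rw [h9]
  · change W.fn (Ch.sgl a) (tt k a (mem_sgl' a) ^ M) (y a) = e
    rw [XEz_self, one_pow, fn_one, hya]

/-- finitely many systems generate a subsheaf -/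
def sySpan {F : Type} (σ : F → W.Sy) (p : Ch j) : Submodule k (W.E p) :=
  Submodule.span k {z | ∃ (f : F) (c : j) (hc : c ∈ p.1) (b : (A'.A p)ᵐᵒᵖ),
    z = W.r p b (W.res (sgl_le hc) ((σ f).s c))}

theorem sySpan_eq {F : Type} (σ : F → W.Sy) (p : Ch j) {g : j} (hg : g ∈ p.1) :
    W.sySpan σ p = Submodule.span k {z | ∃ (f : F) (b : (A'.A p)ᵐᵒᵖ),
      z = W.r p b (W.res (sgl_le hg) ((σ f).s g))} := by
  refine le_antisymm (Submodule.span_le.2 ?_) (Submodule.span_mono ?_)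
  · rintro _ ⟨f, c, hc, b, rfl⟩
    refine Submodule.subset_span ⟨f, b * MulOpposite.op
      (algebraMap (RR k p.1) (A'.A p) (tt k g hc ^ (σ f).b)), ?_⟩
    rw [W.r_mul, W.fn_def, (σ f).eq p g c hg hc]
  · rintro _ ⟨f, b, rfl⟩
    exact ⟨f, g, hg, b, rfl⟩

theorem r_smulk (c : Ch j) (b : (A'.A c)ᵐᵒᵖ) (a : k) (x : W.E c) :
    W.r c b (a • x) = a • W.r c b x := by
  rw [← algebraMap_smul L a x, map_smul, algebraMap_smul]

/-- the right action, linear over `k` -/
def rk (c : Ch j) (b : (A'.A c)ᵐᵒᵖ) : W.E c →ₗ[k] W.E c := (W.r c b).restrictScalars k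

theorem sySpan_r {F : Type} (σ : F → W.Sy) (p : Ch j) (b : (A'.A p)ᵐᵒᵖ) (v : W.E p)
    (hv : v ∈ W.sySpan σ p) : W.r p b v ∈ W.sySpan σ p := by
  have h : W.sySpan σ p ≤ (W.sySpan σ p).comap ((W.r p b).restrictScalars k) := by
    refine Submodule.span_le.2 ?_
    rintro _ ⟨f, c, hc, b', rfl⟩
    refine Submodule.subset_span ⟨f, c, hc, b * b', ?_⟩
    rw [W.r_mul]
    rfl
  exact h hv

theorem sySpan_res {F : Type} (σ : F → W.Sy) {p q : Ch j} (h : p ≤ q) (v : W.E p)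
    (hv : v ∈ W.sySpan σ p) : W.res h v ∈ W.sySpan σ q := by
  have h1 : W.sySpan σ p ≤ (W.sySpan σ q).comap ((W.res h).restrictScalars k) := by
    refine Submodule.span_le.2 ?_
    rintro _ ⟨f, c, hc, b', rfl⟩
    refine Submodule.subset_span ⟨f, c, h hc, MulOpposite.op (A'.res h b'.unop), ?_⟩
    change W.res h (W.r p b' _) = _
    rw [W.res_r, W.res_res]
  exact h1 hv

theorem sySpan_sat {F : Type} (σ : F → W.Sy) {c d : Ch j} (h : c ≤ d) {g : j} (hg : g ∈ c.1)
    (l : j) (h2 : d.1 ⊆ insert l c.1) (v : W.E c) (hv : W.res h v ∈ W.sySpan σ d) :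
    ∃ n : ℕ, W.fn c (tt k l hg ^ n) v ∈ W.sySpan σ c := by
  have h1 : ∀ y ∈ W.sySpan σ d, ∃ n : ℕ, ∃ x ∈ W.sySpan σ c,
      W.res h x = W.fn d (tt k l (h hg) ^ n) y := by
    intro y hy
    rw [W.sySpan_eq σ d (h hg)] at hy
    induction hy using Submodule.span_induction with
    | mem y hy =>
      obtain ⟨f, b, rfl⟩ := hy
      obtain ⟨n, b', hb'⟩ := A'.surj h hg l h2 b.unop
      refine ⟨n, W.r c (MulOpposite.op b') (W.res (sgl_le hg) ((σ f).s g)),
        Submodule.subset_span ⟨f, g, hg, _, rfl⟩, ?_⟩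
      rw [W.res_r, W.res_res, MulOpposite.unop_op, hb', Algebra.smul_def]
      unfold fn
      rw [← W.r_mul]
      congr 2
      refine MulOpposite.unop_injective ?_
      rw [MulOpposite.unop_mul, MulOpposite.unop_op, MulOpposite.unop_op]
      exact Algebra.commutes _ _
    | zero => exact ⟨0, 0, zero_mem _, by rw [map_zero, map_zero]⟩
    | add y y' _ _ hy hy' =>
      obtain ⟨n, x, hx, hn⟩ := hy
      obtain ⟨n', x', hx', hn'⟩ := hy'
      refine ⟨n + n', W.fn c (tt k l hg ^ n') x + W.fn c (tt k l hg ^ n) x',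
        add_mem (W.sySpan_r σ c _ _ hx) (W.sySpan_r σ c _ _ hx'), ?_⟩
      rw [map_add, fn_res, fn_res, hn, hn', map_pow, map_pow, map_add]
      change W.fn d (tt k l (h hg) ^ n') _ + W.fn d (tt k l (h hg) ^ n) _ = _
      rw [← fn_mul, ← fn_mul, ← pow_add, ← pow_add, add_comm n' n]
    | smul a y _ hy =>
      obtain ⟨n, x, hx, hn⟩ := hy
      refine ⟨n, a • x, Submodule.smul_mem _ _ hx, ?_⟩
      have e1 : W.res h (a • x) = a • W.res h x := by
        rw [← algebraMap_smul L a x, map_smul, algebraMap_smul]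
      rw [e1, hn]
      exact (W.r_smulk d _ a y).symm
  obtain ⟨n, x, hx, hn⟩ := h1 _ hv
  obtain ⟨m, hm⟩ := W.inj h hg l h2 (x - W.fn c (tt k l hg ^ n) v) (by
    rw [map_sub, hn, fn_res, map_pow, sub_eq_zero]
    rfl)
  refine ⟨m + n, ?_⟩
  rw [W.fn_def, map_sub, sub_eq_zero] at hm
  rw [pow_add, fn_mul, ← hm]
  exact W.sySpan_r σ c _ _ hx

/-- finitely generated on the standard charts -/
def Fg : Prop := ∀ a : j, ∃ s : Finset (W.E (Ch.sgl a)), ∀ v,
  v ∈ Submodule.span L {z | ∃ b, ∃ w ∈ s, z = W.r (Ch.sgl a) b w}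

/-- the span over `L` -/
def spL {F : Type} (σ : F → W.Sy) (c : Ch j) : Submodule L (W.E c) :=
  Submodule.span L (W.sySpan σ c : Set (W.E c))

theorem spL_r {F : Type} (σ : F → W.Sy) (c : Ch j) (b : (A'.A c)ᵐᵒᵖ) (v : W.E c)
    (hv : v ∈ W.spL σ c) : W.r c b v ∈ W.spL σ c := by
  have h : W.spL σ c ≤ (W.spL σ c).comap (W.r c b) :=
    Submodule.span_le.2 fun x hx => Submodule.subset_span (W.sySpan_r σ c b x hx)
  exact h hv

theorem spL_res {F : Type} (σ : F → W.Sy) {c d : Ch j} (h : c ≤ d) (v : W.E c)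
    (hv : v ∈ W.spL σ c) : W.res h v ∈ W.spL σ d := by
  have h : W.spL σ c ≤ (W.spL σ d).comap (W.res h) :=
    Submodule.span_le.2 fun x hx => Submodule.subset_span (W.sySpan_res σ h x hx)
  exact h hv

theorem spL_step {F : Type} (σ : F → W.Sy) {c d : Ch j} (h : c ≤ d) {g : j} (hg : g ∈ c.1)
    (l : j) (hl : l ∈ d.1) (h2 : d.1 ⊆ insert l c.1) (ih : ∀ x : W.E c, x ∈ W.spL σ c)
    (v : W.E d) : v ∈ W.spL σ d := by
  obtain ⟨n, x, hx⟩ := W.surj h hg l h2 v
  have h3 := W.spL_res σ h x (ih x)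
  rw [hx, W.fn_def] at h3
  have h4 : W.fn d (tt k g hl ^ n) (W.fn d (tt k l (h hg) ^ n) v) ∈ W.spL σ d :=
    W.spL_r σ d _ _ h3
  have h5 : tt k g hl ^ n * tt k l (h hg) ^ n = 1 := by
    rw [← mul_pow, XEz_comp, XEz_self, one_pow]
  rw [← fn_mul, h5, fn_one] at h4
  exact h4

/-- induction over the charts -/
theorem _root_.Pool.Agent.MP_6e5bed_ag_GG.Ch.ind_sgl {P : Ch j → Prop} (h0 : ∀ a, P (Ch.sgl a))
    (hs : ∀ (c d : Ch j), c ≤ d → ∀ g : j, g ∈ c.1 → ∀ l : j, l ∈ d.1 → d.1 ⊆ insert l c.1 →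
      P c → P d) (c : Ch j) : P c := by
  classical
  obtain ⟨g, hg⟩ := c.2.1
  have key : ∀ (t : Finset j) (c : Ch j), c.1 = insert g (t : Set j) → P c := by
    intro t
    induction t using Finset.induction_on with
    | empty =>
      intro c hc
      have e1 : c = Ch.sgl g := Subtype.ext (by rw [hc]; simp [Ch.sgl])
      rw [e1]
      exact h0 g
    | insert l t hl ih =>
      intro c hc
      have h' : (insert g (t : Set j)).Nonempty ∧ (insert g (t : Set j)).Finite :=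
        ⟨⟨g, Set.mem_insert _ _⟩, Set.toFinite _⟩
      have hc' : c.1 = insert l (insert g (t : Set j)) := by
        rw [hc, Finset.coe_insert, Set.insert_comm]
      refine hs ⟨insert g (t : Set j), h'⟩ c ?_ g (Set.mem_insert _ _) l ?_ hc'.le (ih _ rfl)
      · change insert g (t : Set j) ⊆ c.1
        rw [hc']
        exact Set.subset_insert _ _
      · rw [hc']
        exact Set.mem_insert _ _
  refine key c.2.2.toFinset c ?_
  rw [Set.Finite.coe_toFinset, Set.insert_eq_of_mem hg]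

theorem exists_E0D (hW : W.Fg) : Nonempty (E0D W) := by
  classical
  choose s hs using hW
  choose τ hτ using fun (a : j) (e : W.E (Ch.sgl a)) => W.exists_sy a e
  let F : Type := Σ a : j, Fin (s a).card
  let σ : F → W.Sy := fun f => τ f.1 ((s f.1).equivFin.symm f.2).1
  have hσ : ∀ (a : j) (w : W.E (Ch.sgl a)), w ∈ s a → ∃ f : F, (σ f).s a = w := by
    intro a w hw
    refine ⟨⟨a, (s a).equivFin ⟨w, hw⟩⟩, ?_⟩
    change (τ a ((s a).equivFin.symm ((s a).equivFin ⟨w, hw⟩)).1).s a = w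
    rw [Equiv.symm_apply_apply]
    exact hτ a w
  refine ⟨{
    E0 := W.sySpan σ
    rs := fun c b v hv => W.sySpan_r σ c b v hv
    mono := fun h v hv => W.sySpan_res σ h v hv
    sat := fun h g hg l h2 v hv => W.sySpan_sat σ h hg l h2 v hv
    fg := ?_
    gen := ?_ }⟩
  · intro c
    obtain ⟨g, hg⟩ := c.2.1
    refine ⟨Finset.univ.image fun f : F => W.res (sgl_le hg) ((σ f).s g), ?_, ?_⟩
    · intro w hw
      obtain ⟨f, _, rfl⟩ := Finset.mem_image.1 hw
      refine Submodule.subset_span ⟨f, g, hg, 1, ?_⟩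
      rw [W.r_one]
    · intro v hv
      rw [W.sySpan_eq σ c hg] at hv
      refine Submodule.span_mono ?_ hv
      rintro _ ⟨f, b, rfl⟩
      exact ⟨b, _, Finset.mem_image_of_mem _ (Finset.mem_univ f), rfl⟩
  · refine Ch.ind_sgl (fun a v => ?_) (fun c d h g hg l hl h2 ih v => W.spL_step σ h hg l hl h2 ih v)
    have h1 : Submodule.span L {z | ∃ b, ∃ w ∈ s a, z = W.r (Ch.sgl a) b w} ≤
        W.spL σ (Ch.sgl a) := by
      refine Submodule.span_mono ?_
      rintro _ ⟨b, w, hw, rfl⟩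
      obtain ⟨f, rfl⟩ := hσ a w hw
      refine Submodule.subset_span ⟨f, a, mem_sgl' a, b, ?_⟩
      rw [W.res_id]
    exact h1 (hs a v)

end LPre

end Pool.Agent.MP_6e5bed_ag_GG
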