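import Pool.Agent.Lib.MP_6e5bed_ag_GG.XSpn

set_option autoImplicit false
set_option linter.unusedVariables false

/-!
# MP_6e5bed_ag, THEOREM G: X-data, products
-/

noncomputable section

namespace Pool.Agent.MP_6e5bed_ag_GG

open scoped TensorProduct

universe u

/-- Two X-data whose function fields are linearly disjoint subfields of a field which they
generate. -/
structure XP (k : Type u) [Field k] where
  X1 : XD k
  X2 : XD k
  N : Type u
  [fld : Field N]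
  [alg : Algebra k N]
  j1 : X1.M →ₐ[k] N
  j2 : X2.M →ₐ[k] N
  inj : Function.Injective (Algebra.TensorProduct.lift j1 j2 (fun _ _ => Commute.all _ _))
  frac : ∀ u : N, ∃ a b : X1.M ⊗[k] X2.M,
    Algebra.TensorProduct.lift j1 j2 (fun _ _ => Commute.all _ _) b ≠ 0 ∧
    u = Algebra.TensorProduct.lift j1 j2 (fun _ _ => Commute.all _ _) a /
      Algebra.TensorProduct.lift j1 j2 (fun _ _ => Commute.all _ _) b

attribute [instance] XP.fld XP.alg

namespace XP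

variable {k : Type u} [Field k] (P : XP k)

/-- the inclusion of the tensor product of the function fields -/
def jj : P.X1.M ⊗[k] P.X2.M →ₐ[k] P.N :=
  Algebra.TensorProduct.lift P.j1 P.j2 (fun _ _ => Commute.all _ _)

theorem jj_tmul (u : P.X1.M) (v : P.X2.M) : P.jj (u ⊗ₜ[k] v) = P.j1 u * P.j2 v :=
  Algebra.TensorProduct.lift_tmul _ _ _ _ _

theorem jj_inj : Function.Injective P.jj := P.inj

/-- the coordinates -/
def y (l : P.X1.i × P.X2.i) : P.Nˣ :=
  Units.map (P.j1 : P.X1.M →* P.N) (P.X1.y l.1) * Units.map (P.j2 : P.X2.M →* P.N) (P.X2.y l.2)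

theorem y_div (l g : P.X1.i × P.X2.i) : ((P.y l / P.y g : P.Nˣ) : P.N) =
    P.j1 ((P.X1.y l.1 / P.X1.y g.1 : P.X1.Mˣ) : P.X1.M) *
      P.j2 ((P.X2.y l.2 / P.X2.y g.2 : P.X2.Mˣ) : P.X2.M) := by
  rw [Units.val_div_eq_div_val, Units.val_div_eq_div_val, Units.val_div_eq_div_val, map_div₀,
    map_div₀, div_mul_div_comm]
  rfl

/-- the sections -/
def O (b : P.X1.D ⊕ P.X2.D → ℤ) (a : Set (P.X1.i × P.X2.i)) : Submodule k P.N :=
  (P.X1.O (b ∘ Sum.inl) (Prod.fst '' a)).map P.j1.toLinearMap *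
    (P.X2.O (b ∘ Sum.inr) (Prod.snd '' a)).map P.j2.toLinearMap

variable {P}

theorem O_mem {b : P.X1.D ⊕ P.X2.D → ℤ} {a : Set (P.X1.i × P.X2.i)} {u : P.X1.M} {v : P.X2.M}
    (hu : u ∈ P.X1.O (b ∘ Sum.inl) (Prod.fst '' a)) (hv : v ∈ P.X2.O (b ∘ Sum.inr) (Prod.snd '' a)) :
    P.j1 u * P.j2 v ∈ P.O b a :=
  Submodule.mul_mem_mul (Submodule.mem_map_of_mem hu) (Submodule.mem_map_of_mem hv)

theorem O_ind {b : P.X1.D ⊕ P.X2.D → ℤ} {a : Set (P.X1.i × P.X2.i)} {C : P.N → Prop}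
    (hm : ∀ u v, u ∈ P.X1.O (b ∘ Sum.inl) (Prod.fst '' a) →
      v ∈ P.X2.O (b ∘ Sum.inr) (Prod.snd '' a) → C (P.j1 u * P.j2 v))
    (ha : ∀ x y, C x → C y → C (x + y)) {w : P.N} (hw : w ∈ P.O b a) : C w := by
  refine Submodule.mul_induction_on hw (fun x hx y hy => ?_) ha
  obtain ⟨u, hu, rfl⟩ := hx
  obtain ⟨v, hv, rfl⟩ := hy
  exact hm u v hu hv

theorem O_mono (b : P.X1.D ⊕ P.X2.D → ℤ) {a a' : Set (P.X1.i × P.X2.i)} (h : a ⊆ a') :
    P.O b a ≤ P.O b a' :=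
  mul_le_mul' (Submodule.map_mono (P.X1.mono _ (Set.image_mono h)))
    (Submodule.map_mono (P.X2.mono _ (Set.image_mono h)))

theorem O_one (a : Set (P.X1.i × P.X2.i)) : (1 : P.N) ∈ P.O 0 a := by
  have h : (1 : P.N) = P.j1 1 * P.j2 1 := by rw [map_one, map_one, one_mul]
  rw [h]
  exact O_mem (P.X1.one_mem _) (P.X2.one_mem _)

theorem O_mul {a : Set (P.X1.i × P.X2.i)} {b b' : P.X1.D ⊕ P.X2.D → ℤ} {w w' : P.N}
    (hw : w ∈ P.O b a) (hw' : w' ∈ P.O b' a) : w * w' ∈ P.O (b + b') a := by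
  refine O_ind (C := fun w => w * w' ∈ P.O (b + b') a) (fun u v hu hv => ?_) (fun x y hx hy => ?_)
    hw
  · refine O_ind (C := fun w' => P.j1 u * P.j2 v * w' ∈ P.O (b + b') a) (fun u' v' hu' hv' => ?_)
      (fun x y hx hy => ?_) hw'
    · rw [mul_mul_mul_comm, ← map_mul, ← map_mul]
      exact O_mem (P.X1.mul_mem hu hu') (P.X2.mul_mem hv hv')
    · rw [mul_add]
      exact Submodule.add_mem _ hx hy
  · rw [add_mul]
    exact Submodule.add_mem _ hx hy

theorem O_mul0 {a : Set (P.X1.i × P.X2.i)} {b : P.X1.D ⊕ P.X2.D → ℤ} {w w' : P.N}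
    (hw : w ∈ P.O 0 a) (hw' : w' ∈ P.O b a) : w * w' ∈ P.O b a := by
  have h := O_mul hw hw'
  rwa [zero_add] at h

theorem O_pow {a : Set (P.X1.i × P.X2.i)} {w : P.N} (hw : w ∈ P.O 0 a) (n : ℕ) :
    w ^ n ∈ P.O 0 a := by
  induction n with
  | zero => rw [pow_zero]; exact O_one a
  | succ n ih => rw [pow_succ]; exact O_mul0 ih hw

/-- multiplication with an element of the first function field -/
theorem O_mul1 {a : Set (P.X1.i × P.X2.i)} {b b' : P.X1.D ⊕ P.X2.D → ℤ} {c : P.X1.M}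
    (hr : b ∘ Sum.inr = b' ∘ Sum.inr) (hc : ∀ u ∈ P.X1.O (b ∘ Sum.inl) (Prod.fst '' a),
      c * u ∈ P.X1.O (b' ∘ Sum.inl) (Prod.fst '' a)) {w : P.N} (hw : w ∈ P.O b a) :
    P.j1 c * w ∈ P.O b' a := by
  refine O_ind (C := fun w => P.j1 c * w ∈ P.O b' a) (fun u v hu hv => ?_) (fun x y hx hy => ?_)
    hw
  · rw [← mul_assoc, ← map_mul]
    exact O_mem (hc u hu) (hr ▸ hv)
  · rw [mul_add]
    exact Submodule.add_mem _ hx hy

/-- multiplication with an element of the second function field -/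
theorem O_mul2 {a : Set (P.X1.i × P.X2.i)} {b b' : P.X1.D ⊕ P.X2.D → ℤ} {c : P.X2.M}
    (hl : b ∘ Sum.inl = b' ∘ Sum.inl) (hc : ∀ u ∈ P.X2.O (b ∘ Sum.inr) (Prod.snd '' a),
      c * u ∈ P.X2.O (b' ∘ Sum.inr) (Prod.snd '' a)) {w : P.N} (hw : w ∈ P.O b a) :
    P.j2 c * w ∈ P.O b' a := by
  refine O_ind (C := fun w => P.j2 c * w ∈ P.O b' a) (fun u v hu hv => ?_) (fun x y hx hy => ?_)
    hw
  · rw [mul_left_comm, ← map_mul]
    exact O_mem (hl ▸ hu) (hc v hv)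
  · rw [mul_add]
    exact Submodule.add_mem _ hx hy

theorem O_t {a : Set (P.X1.i × P.X2.i)} (l : P.X1.i × P.X2.i) {g : P.X1.i × P.X2.i} (hg : g ∈ a) :
    ((P.y l / P.y g : P.Nˣ) : P.N) ∈ P.O 0 a := by
  rw [y_div]
  exact O_mem (XD.t_mem l.1 ⟨g, hg, rfl⟩) (XD.t_mem l.2 ⟨g, hg, rfl⟩)

theorem O_tpow {a : Set (P.X1.i × P.X2.i)} {l g : P.X1.i × P.X2.i} (hg : g ∈ a)
    {b : P.X1.D ⊕ P.X2.D → ℤ} {w : P.N} {n n' : ℕ} (h : n ≤ n')
    (hw : ((P.y l / P.y g : P.Nˣ) : P.N) ^ n * w ∈ P.O b a) :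
    ((P.y l / P.y g : P.Nˣ) : P.N) ^ n' * w ∈ P.O b a := by
  obtain ⟨m, rfl⟩ := Nat.exists_eq_add_of_le h
  rw [add_comm, pow_add, mul_assoc]
  exact O_mul0 (O_pow (O_t l hg) m) hw

theorem O_loc {a d : Set (P.X1.i × P.X2.i)} {j l : P.X1.i × P.X2.i} (had : a ⊆ d)
    (hd : d ⊆ insert j a) (hl : l ∈ a) (b : P.X1.D ⊕ P.X2.D → ℤ) {w : P.N} (hw : w ∈ P.O b d) :
    ∃ n : ℕ, ((P.y j / P.y l : P.Nˣ) : P.N) ^ n * w ∈ P.O b a := by
  refine O_ind (C := fun w => ∃ n : ℕ, ((P.y j / P.y l : P.Nˣ) : P.N) ^ n * w ∈ P.O b a)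
    (fun u v hu hv => ?_) (fun x y hx hy => ?_) hw
  · have h1 : Prod.fst '' d ⊆ insert j.1 (Prod.fst '' a) := by
      rw [← Set.image_insert_eq]
      exact Set.image_mono hd
    have h2 : Prod.snd '' d ⊆ insert j.2 (Prod.snd '' a) := by
      rw [← Set.image_insert_eq]
      exact Set.image_mono hd
    have l1 : l.1 ∈ Prod.fst '' a := ⟨l, hl, rfl⟩
    have l2 : l.2 ∈ Prod.snd '' a := ⟨l, hl, rfl⟩
    obtain ⟨n, hn⟩ := P.X1.loc (Set.image_mono had) h1 l1 _ u hu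
    obtain ⟨m, hm⟩ := P.X2.loc (Set.image_mono had) h2 l2 _ v hv
    refine ⟨max n m, ?_⟩
    rw [y_div, mul_pow, mul_mul_mul_comm, ← map_pow, ← map_pow, ← map_mul, ← map_mul]
    exact O_mem (XD.tpow_mem l1 (le_max_left _ _) hn) (XD.tpow_mem l2 (le_max_right _ _) hm)
  · obtain ⟨n, hn⟩ := hx
    obtain ⟨m, hm⟩ := hy
    refine ⟨max n m, ?_⟩
    rw [mul_add]
    exact Submodule.add_mem _ (O_tpow hl (le_max_left _ _) hn) (O_tpow hl (le_max_right _ _) hm)

theorem O_R (a : Set (P.X1.i × P.X2.i)) (r : Lau k (P.X1.i × P.X2.i)) (hr : r ∈ RR k a) :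
    evy P.y r ∈ P.O 0 a := by
  refine RR_le (evy P.y) ((P.O 0 a).toSubalgebra (O_one a) (fun x y hx hy => O_mul0 hx hy))
    (fun l g hg => ?_) r hr
  rw [evy_ex]
  exact O_t l hg

/-- the functions on the first factor are functions on the product -/
theorem evy_fst {a : Set (P.X1.i × P.X2.i)} (r : Lau k P.X1.i) (hr : r ∈ RR k (Prod.fst '' a)) :
    ∃ r' ∈ RR k a, evy P.y r' = P.j1 (evy P.X1.y r) := by
  have h := RR_le (P.j1.comp (evy P.X1.y)) ((RR k a).map (evy P.y)) (fun l g hg => ?_) r hr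
  · obtain ⟨r', hr', h'⟩ := h
    exact ⟨r', hr', h'⟩
  · obtain ⟨⟨g, g'⟩, hg, rfl⟩ := hg
    refine ⟨mon k (ex (l, g') (g, g')), mon_mem (isEx_ex _ hg), ?_⟩
    change evy P.y (mon k (ex (l, g') (g, g'))) = P.j1 (evy P.X1.y (mon k (ex l g)))
    rw [evy_ex, evy_ex, y_div]
    change _ * P.j2 ((P.X2.y g' / P.X2.y g' : P.X2.Mˣ) : P.X2.M) = _
    rw [div_self', Units.val_one, map_one, mul_one]

/-- the functions on the second factor are functions on the product -/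
theorem evy_snd {a : Set (P.X1.i × P.X2.i)} (r : Lau k P.X2.i) (hr : r ∈ RR k (Prod.snd '' a)) :
    ∃ r' ∈ RR k a, evy P.y r' = P.j2 (evy P.X2.y r) := by
  have h := RR_le (P.j2.comp (evy P.X2.y)) ((RR k a).map (evy P.y)) (fun l g hg => ?_) r hr
  · obtain ⟨r', hr', h'⟩ := h
    exact ⟨r', hr', h'⟩
  · obtain ⟨⟨g, g'⟩, hg, rfl⟩ := hg
    refine ⟨mon k (ex (g, l) (g, g')), mon_mem (isEx_ex _ hg), ?_⟩
    change evy P.y (mon k (ex (g, l) (g, g'))) = P.j2 (evy P.X2.y (mon k (ex l g')))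
    rw [evy_ex, evy_ex, y_div]
    change P.j1 ((P.X1.y g / P.X1.y g : P.X1.Mˣ) : P.X1.M) * _ = _
    rw [div_self', Units.val_one, map_one, one_mul]

theorem O_fg (b : P.X1.D ⊕ P.X2.D → ℤ) {a : Set (P.X1.i × P.X2.i)} (ha : a.Nonempty) :
    ∃ S : Finset P.N, (∀ w ∈ S, w ∈ P.O b a) ∧
      ∀ u ∈ P.O b a, u ∈ spn (k := k) P.y a (S : Set P.N) := by
  classical
  obtain ⟨S, hS, hS'⟩ := P.X1.fg (b ∘ Sum.inl) (ha.image Prod.fst)
  obtain ⟨T, hT, hT'⟩ := P.X2.fg (b ∘ Sum.inr) (ha.image Prod.snd)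
  refine ⟨Finset.image₂ (fun u v => P.j1 u * P.j2 v) S T, fun w hw => ?_, fun w hw => ?_⟩
  · obtain ⟨u, hu, v, hv, rfl⟩ := Finset.mem_image₂.1 hw
    exact O_mem (hS u hu) (hT v hv)
  · refine O_ind (C := fun w => w ∈ spn (k := k) P.y a
      ((Finset.image₂ (fun u v => P.j1 u * P.j2 v) S T : Finset P.N) : Set P.N))
      (fun u v hu hv => ?_) (fun x y hx hy => Submodule.add_mem _ hx hy) hw
    have h1 := hS' u hu
    have h2 := hT' v hv
    clear hw hu
    induction h1 using Submodule.span_induction with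
    | mem x hx =>
      obtain ⟨r, hr, u, hu, rfl⟩ := hx
      obtain ⟨r', hr', e⟩ := evy_fst (P := P) r hr
      rw [map_mul, ← e, mul_assoc]
      refine spn_mul hr' ?_
      clear hv
      induction h2 using Submodule.span_induction with
      | mem x hx =>
        obtain ⟨s, hs, v, hv, rfl⟩ := hx
        obtain ⟨s', hs', e'⟩ := evy_snd (P := P) s hs
        rw [map_mul, ← e', mul_left_comm]
        exact spn_mul hs' (spn_mem (Finset.mem_coe.2 (Finset.mem_image₂.2 ⟨u, hu, v, hv, rfl⟩)))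
      | zero => rw [map_zero, mul_zero]; exact Submodule.zero_mem _
      | add x y _ _ hx hy => rw [map_add, mul_add]; exact Submodule.add_mem _ hx hy
      | smul c x _ hx => rw [map_smul, mul_smul_comm]; exact Submodule.smul_mem _ _ hx
    | zero => rw [map_zero, zero_mul]; exact Submodule.zero_mem _
    | add x y _ _ hx hy => rw [map_add, add_mul]; exact Submodule.add_mem _ hx hy
    | smul c x _ hx => rw [map_smul, smul_mul_assoc]; exact Submodule.smul_mem _ _ hx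

theorem O_den (t : P.X1.M ⊗[k] P.X2.M) : ∃ (b : P.X1.D ⊕ P.X2.D → ℤ) (c : P.N),
    c ∈ P.O b ∅ ∧ c ≠ 0 ∧ c * P.jj t ∈ P.O b ∅ := by
  induction t using TensorProduct.induction_on with
  | zero =>
    refine ⟨0, 1, O_one _, one_ne_zero, ?_⟩
    rw [map_zero, mul_zero]
    exact Submodule.zero_mem _
  | tmul u v =>
    obtain ⟨b, σ, σ', h1, h2, h3, rfl⟩ := P.X1.frac u
    obtain ⟨b', τ, τ', h1', h2', h3', rfl⟩ := P.X2.frac v
    have e1 : Prod.fst '' (∅ : Set (P.X1.i × P.X2.i)) = ∅ := Set.image_empty _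
    have e2 : Prod.snd '' (∅ : Set (P.X1.i × P.X2.i)) = ∅ := Set.image_empty _
    refine ⟨Sum.elim b b', P.j1 σ * P.j2 τ, O_mem (by rw [e1]; exact h1) (by rw [e2]; exact h1'),
      mul_ne_zero ?_ ?_, ?_⟩
    · rw [Ne, map_eq_zero]
      exact h3
    · rw [Ne, map_eq_zero]
      exact h3'
    · rw [jj_tmul, mul_mul_mul_comm, ← map_mul, ← map_mul, mul_div_cancel₀ _ h3,
        mul_div_cancel₀ _ h3']
      exact O_mem (by rw [e1]; exact h2) (by rw [e2]; exact h2')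
  | add x y hx hy =>
    obtain ⟨b, c, h1, h2, h3⟩ := hx
    obtain ⟨b', c', h1', h2', h3'⟩ := hy
    refine ⟨b + b', c * c', O_mul h1 h1', mul_ne_zero h2 h2', ?_⟩
    have e : c * c' * P.jj (x + y) = c * P.jj x * c' + c * (c' * P.jj y) := by
      rw [map_add]
      ring
    rw [e]
    exact Submodule.add_mem _ (O_mul h3 h1') (O_mul h1 h3')

theorem O_frac (u : P.N) : ∃ (b : P.X1.D ⊕ P.X2.D → ℤ) (σ σ' : P.N), σ ∈ P.O b ∅ ∧
    σ' ∈ P.O b ∅ ∧ σ ≠ 0 ∧ u = σ' / σ := by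
  obtain ⟨a, b, hb, hu⟩ := P.frac u
  change P.jj b ≠ 0 at hb
  change u = P.jj a / P.jj b at hu
  obtain ⟨d, c, h1, h2, h3⟩ := O_den (P := P) a
  obtain ⟨d', c', h1', h2', h3'⟩ := O_den (P := P) b
  refine ⟨d + d', c * (c' * P.jj b), c * P.jj a * c', O_mul h1 h3', O_mul h3 h1',
    mul_ne_zero h2 (mul_ne_zero h2' hb), ?_⟩
  rw [hu]
  field_simp

theorem single_inl (b : P.X1.D ⊕ P.X2.D → ℤ) (r : P.X1.D) :
    (b + Pi.single (Sum.inl r) 1) ∘ Sum.inl = b ∘ Sum.inl + Pi.single r 1 := by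
  funext x
  rw [Function.comp_apply, Pi.add_apply, Pi.add_apply, Function.comp_apply, Pi.single_apply,
    Pi.single_apply]
  simp only [Sum.inl.injEq]

theorem single_inl' (b : P.X1.D ⊕ P.X2.D → ℤ) (r : P.X1.D) :
    (b + Pi.single (Sum.inl r) 1) ∘ Sum.inr = b ∘ Sum.inr := by
  funext x
  rw [Function.comp_apply, Pi.add_apply, Function.comp_apply, Pi.single_apply]
  simp

theorem single_inr (b : P.X1.D ⊕ P.X2.D → ℤ) (r : P.X2.D) :
    (b + Pi.single (Sum.inr r) 1) ∘ Sum.inr = b ∘ Sum.inr + Pi.single r 1 := by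
  funext x
  rw [Function.comp_apply, Pi.add_apply, Pi.add_apply, Function.comp_apply, Pi.single_apply,
    Pi.single_apply]
  simp only [Sum.inr.injEq]

theorem single_inr' (b : P.X1.D ⊕ P.X2.D → ℤ) (r : P.X2.D) :
    (b + Pi.single (Sum.inr r) 1) ∘ Sum.inl = b ∘ Sum.inl := by
  funext x
  rw [Function.comp_apply, Pi.add_apply, Function.comp_apply, Pi.single_apply]
  simp

variable (P)

/-- the coordinates of the projective lines -/
def s : P.X1.D ⊕ P.X2.D → P.Nˣ :=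
  Sum.elim (fun r => Units.map (P.j1 : P.X1.M →* P.N) (P.X1.s r))
    (fun r => Units.map (P.j2 : P.X2.M →* P.N) (P.X2.s r))

variable {P}

theorem O_one' (r : P.X1.D ⊕ P.X2.D) : (1 : P.N) ∈ P.O (Pi.single r 1) ∅ := by
  have h : (1 : P.N) = P.j1 1 * P.j2 1 := by rw [map_one, map_one, one_mul]
  rw [h]
  have h1 : (Pi.single r 1 : P.X1.D ⊕ P.X2.D → ℤ) = 0 + Pi.single r 1 := (zero_add _).symm
  have e1 : Prod.fst '' (∅ : Set (P.X1.i × P.X2.i)) = ∅ := Set.image_empty _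
  have e2 : Prod.snd '' (∅ : Set (P.X1.i × P.X2.i)) = ∅ := Set.image_empty _
  rcases r with r | r
  · refine O_mem ?_ ?_
    · rw [h1, single_inl, e1]
      have h2 := P.X1.one_mem' r
      have h3 : (0 : P.X1.D ⊕ P.X2.D → ℤ) ∘ Sum.inl + Pi.single r 1 = Pi.single r 1 := zero_add _
      rw [h3]
      exact h2
    · rw [h1, single_inl', e2]
      exact P.X2.one_mem _
  · refine O_mem ?_ ?_
    · rw [h1, single_inr', e1]
      exact P.X1.one_mem _
    · rw [h1, single_inr, e2]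
      have h2 := P.X2.one_mem' r
      have h3 : (0 : P.X1.D ⊕ P.X2.D → ℤ) ∘ Sum.inr + Pi.single r 1 = Pi.single r 1 := zero_add _
      rw [h3]
      exact h2

theorem O_s (r : P.X1.D ⊕ P.X2.D) : (P.s r : P.N) ∈ P.O (Pi.single r 1) ∅ := by
  have h1 : (Pi.single r 1 : P.X1.D ⊕ P.X2.D → ℤ) = 0 + Pi.single r 1 := (zero_add _).symm
  have e1 : Prod.fst '' (∅ : Set (P.X1.i × P.X2.i)) = ∅ := Set.image_empty _
  have e2 : Prod.snd '' (∅ : Set (P.X1.i × P.X2.i)) = ∅ := Set.image_empty _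
  rcases r with r | r
  · have h : (P.s (Sum.inl r) : P.N) = P.j1 (P.X1.s r) * P.j2 1 := by
      rw [map_one, mul_one]
      rfl
    rw [h]
    refine O_mem ?_ ?_
    · rw [h1, single_inl, e1]
      have h2 := P.X1.s_mem r
      have h3 : (0 : P.X1.D ⊕ P.X2.D → ℤ) ∘ Sum.inl + Pi.single r 1 = Pi.single r 1 := zero_add _
      rw [h3]
      exact h2
    · rw [h1, single_inl', e2]
      exact P.X2.one_mem _
  · have h : (P.s (Sum.inr r) : P.N) = P.j1 1 * P.j2 (P.X2.s r) := by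
      rw [map_one, one_mul]
      rfl
    rw [h]
    refine O_mem ?_ ?_
    · rw [h1, single_inr', e1]
      exact P.X1.one_mem _
    · rw [h1, single_inr, e2]
      have h2 := P.X2.s_mem r
      have h3 : (0 : P.X1.D ⊕ P.X2.D → ℤ) ∘ Sum.inr + Pi.single r 1 = Pi.single r 1 := zero_add _
      rw [h3]
      exact h2

theorem O_step (r : P.X1.D ⊕ P.X2.D) {a : Set (P.X1.i × P.X2.i)} (ha : a.Nonempty) :
    (∀ b, P.O (b + Pi.single r 1) a = P.O b a) ∨
    (∀ b u, u ∈ P.O (b + Pi.single r 1) a ↔ ((P.s r)⁻¹ : P.Nˣ) * u ∈ P.O b a) := by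
  rcases r with r | r
  · rcases P.X1.step r (ha.image Prod.fst) with h | h
    · refine Or.inl fun b => ?_
      unfold O
      rw [single_inl, single_inl', h]
    · refine Or.inr fun b u => ⟨fun hu => ?_, fun hu => ?_⟩
      · have e : (((P.s (Sum.inl r))⁻¹ : P.Nˣ) : P.N) = P.j1 ((P.X1.s r)⁻¹ : P.X1.Mˣ) := by
          rw [Units.val_inv_eq_inv_val, Units.val_inv_eq_inv_val, map_inv₀]
          rfl
        rw [e]
        refine O_mul1 (single_inl' b r) (fun w hw => ?_) hu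
        rw [single_inl] at hw
        exact (h _ _).1 hw
      · have e : u = P.j1 (P.X1.s r) * (((P.s (Sum.inl r))⁻¹ : P.Nˣ) * u) := by
          have e1 : P.j1 (P.X1.s r : P.X1.M) = (P.s (Sum.inl r) : P.N) := rfl
          rw [e1, Units.mul_inv_cancel_left]
        rw [e]
        refine O_mul1 (single_inl' b r).symm (fun w hw => ?_) hu
        rw [single_inl]
        refine (h _ _).2 ?_
        rw [Units.inv_mul_cancel_left]
        exact hw
  · rcases P.X2.step r (ha.image Prod.snd) with h | h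
    · refine Or.inl fun b => ?_
      unfold O
      rw [single_inr, single_inr', h]
    · refine Or.inr fun b u => ⟨fun hu => ?_, fun hu => ?_⟩
      · have e : (((P.s (Sum.inr r))⁻¹ : P.Nˣ) : P.N) = P.j2 ((P.X2.s r)⁻¹ : P.X2.Mˣ) := by
          rw [Units.val_inv_eq_inv_val, Units.val_inv_eq_inv_val, map_inv₀]
          rfl
        rw [e]
        refine O_mul2 (single_inr' b r) (fun w hw => ?_) hu
        rw [single_inr] at hw
        exact (h _ _).1 hw
      · have e : u = P.j2 (P.X2.s r) * (((P.s (Sum.inr r))⁻¹ : P.Nˣ) * u) := by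
          have e1 : P.j2 (P.X2.s r : P.X2.M) = (P.s (Sum.inr r) : P.N) := rfl
          rw [e1, Units.mul_inv_cancel_left]
        rw [e]
        refine O_mul2 (single_inr' b r).symm (fun w hw => ?_) hu
        rw [single_inr]
        refine (h _ _).2 ?_
        rw [Units.inv_mul_cancel_left]
        exact hw

variable (P)

/-- The product. -/
def xd : XD k where
  i := P.X1.i × P.X2.i
  D := P.X1.D ⊕ P.X2.D
  M := P.N
  y := P.y
  O := P.O
  s := P.s
  ne := inferInstance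
  mono := fun b _ _ h => O_mono b h
  one_mem := O_one
  mul_mem := fun hu hv => O_mul hu hv
  one_mem' := O_one'
  s_mem := O_s
  step := fun r _ ha => O_step r ha
  frac := O_frac
  R_mem := O_R
  loc := fun had hd hl b u hu => O_loc had hd hl b hu
  fg := fun b _ ha => O_fg b ha

end XP

end Pool.Agent.MP_6e5bed_ag_GG
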