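import Pool.Agent.Lib.MP_6e5bed_ag_GG.XPr
import Pool.Agent.Lib.MP_6e5bed_ag_GG.Xa
import Pool.Agent.Lib.MP_6e5bed_ag_NC.FBox
import Pool.Agent.Lib.MP_6e5bed_ag_NS.Sh

set_option autoImplicit false
set_option linter.unusedVariables false

/-!
# MP_6e5bed_ag, THEOREM G: the algebra of a product of X-data is a tensor product
-/

noncomputable section

namespace Pool.Agent.MP_6e5bed_ag_GG

open Pool.Agent.MP_6e5bed_ag_NC Pool.Agent.MP_6e5bed_ag_NS
open scoped TensorProduct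

universe u

namespace XP

variable {k : Type u} [Field k] (P : XP k)

/-- the chart of the first factor -/
abbrev c1 (a : Set (P.X1.i × P.X2.i)) : Set P.X1.i := Prod.fst '' a

/-- the chart of the second factor -/
abbrev c2 (a : Set (P.X1.i × P.X2.i)) : Set P.X2.i := Prod.snd '' a

/-- the first component of a twist -/
def e1 (e : P.xd.II) : P.X1.II := fun r => e (Sum.inl r)

/-- the second component of a twist -/
def e2 (e : P.xd.II) : P.X2.II := fun r => e (Sum.inr r)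

variable {P} in
theorem e12_ext {p q : P.xd.II} : p = q ↔ P.e1 p = P.e1 q ∧ P.e2 p = P.e2 q := by
  constructor
  · rintro rfl
    exact ⟨rfl, rfl⟩
  · rintro ⟨h1, h2⟩
    funext x
    rcases x with x | x
    · exact congrFun h1 x
    · exact congrFun h2 x

/-- the twists of the product -/
def e12 : P.xd.II ≃ P.X1.II × P.X2.II where
  toFun := fun e => (P.e1 e, P.e2 e)
  invFun := fun p => Sum.elim p.1 p.2
  left_inv := fun e => e12_ext.2 ⟨rfl, rfl⟩
  right_inv := fun _ => rfl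

theorem kr_mem {a : Set (P.X1.i × P.X2.i)} (m : P.X1.AXs (P.c1 a)) (n : P.X2.AXs (P.c2 a)) :
    (fun e e' : P.xd.II => P.j1 ((m : Matrix P.X1.II P.X1.II P.X1.M) (P.e1 e) (P.e1 e')) *
      P.j2 ((n : Matrix P.X2.II P.X2.II P.X2.M) (P.e2 e) (P.e2 e'))) ∈ P.xd.AXs a :=
  fun e e' => O_mem (P := P) (b := P.xd.tw e - P.xd.tw e') (m.2 _ _) (n.2 _ _)

/-- the comparison on a chart -/
def krF (a : Set (P.X1.i × P.X2.i)) :
    P.X1.AXs (P.c1 a) ⊗[k] P.X2.AXs (P.c2 a) →ₗ[k] P.xd.AXs a :=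
  TensorProduct.lift (LinearMap.mk₂ k (fun (m : P.X1.AXs (P.c1 a)) (n : P.X2.AXs (P.c2 a)) =>
      (⟨_, P.kr_mem m n⟩ : P.xd.AXs a))
    (fun m m' n => Subtype.ext (by
      funext p q
      change P.j1 (m.1 (P.e1 p) (P.e1 q) + m'.1 (P.e1 p) (P.e1 q)) *
          P.j2 (n.1 (P.e2 p) (P.e2 q)) =
        P.j1 (m.1 (P.e1 p) (P.e1 q)) * P.j2 (n.1 (P.e2 p) (P.e2 q)) +
          P.j1 (m'.1 (P.e1 p) (P.e1 q)) * P.j2 (n.1 (P.e2 p) (P.e2 q))
      rw [map_add, add_mul]))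
    (fun s m n => Subtype.ext (by
      funext p q
      change P.j1 (s • m.1 (P.e1 p) (P.e1 q)) * P.j2 (n.1 (P.e2 p) (P.e2 q)) =
        s • (P.j1 (m.1 (P.e1 p) (P.e1 q)) * P.j2 (n.1 (P.e2 p) (P.e2 q)))
      rw [map_smul, smul_mul_assoc]))
    (fun m n n' => Subtype.ext (by
      funext p q
      change P.j1 (m.1 (P.e1 p) (P.e1 q)) *
          P.j2 (n.1 (P.e2 p) (P.e2 q) + n'.1 (P.e2 p) (P.e2 q)) =
        P.j1 (m.1 (P.e1 p) (P.e1 q)) * P.j2 (n.1 (P.e2 p) (P.e2 q)) +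
          P.j1 (m.1 (P.e1 p) (P.e1 q)) * P.j2 (n'.1 (P.e2 p) (P.e2 q))
      rw [map_add, mul_add]))
    (fun s m n => Subtype.ext (by
      funext p q
      change P.j1 (m.1 (P.e1 p) (P.e1 q)) * P.j2 (s • n.1 (P.e2 p) (P.e2 q)) =
        s • (P.j1 (m.1 (P.e1 p) (P.e1 q)) * P.j2 (n.1 (P.e2 p) (P.e2 q)))
      rw [map_smul, mul_smul_comm])))

theorem krF_tmul {a : Set (P.X1.i × P.X2.i)} (m : P.X1.AXs (P.c1 a)) (n : P.X2.AXs (P.c2 a)) :
    P.krF a (m ⊗ₜ[k] n) = (⟨_, P.kr_mem m n⟩ : P.xd.AXs a) :=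
  TensorProduct.lift.tmul m n

theorem krF_apply {a : Set (P.X1.i × P.X2.i)} (m : P.X1.AXs (P.c1 a)) (n : P.X2.AXs (P.c2 a))
    (e e' : P.xd.II) : (P.krF a (m ⊗ₜ[k] n)).1 e e' =
      P.j1 (m.1 (P.e1 e) (P.e1 e')) * P.j2 (n.1 (P.e2 e) (P.e2 e')) := by
  rw [krF_tmul]

theorem krF_deg (a : Set (P.X1.i × P.X2.i)) {i : ℤ}
    {x : P.X1.AXs (P.c1 a) ⊗[k] P.X2.AXs (P.c2 a)}
    (hx : ((MP_6e5bed_ag_NC.ring k (P.X1.AXs (P.c1 a))).tensor
      (MP_6e5bed_ag_NC.ring k (P.X2.AXs (P.c2 a)))).dg.IsDeg i x) :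
    (Dg.conc k (P.xd.AXs a)).IsDeg i (P.krF a x) := by
  have h := Dg.tensor_degMap (X := Dg.conc k (P.X1.AXs (P.c1 a)))
    (Y := Dg.conc k (P.X2.AXs (P.c2 a)))
    (Z := Dg.conc k (P.xd.AXs a)) (n := 0) (P.krF a) (fun i j v w hv hw => by
      rcases Dg.conc_cases hv with rfl | rfl
      · rcases Dg.conc_cases hw with rfl | rfl
        · exact Dg.conc_deg _
        · rw [TensorProduct.tmul_zero, map_zero]
          exact Dg.IsDeg.zero _
      · rw [TensorProduct.zero_tmul, map_zero]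
        exact Dg.IsDeg.zero _) hx
  rwa [add_zero] at h

theorem kr_d (a : Set (P.X1.i × P.X2.i)) (x : P.X1.AXs (P.c1 a) ⊗[k] P.X2.AXs (P.c2 a)) :
    (0 : P.xd.AXs a) = P.krF a (((MP_6e5bed_ag_NC.ring k (P.X1.AXs (P.c1 a))).tensor
      (MP_6e5bed_ag_NC.ring k (P.X2.AXs (P.c2 a)))).dg.d x) := by
  have h : ((Dg.conc k (P.X1.AXs (P.c1 a))).tensor (Dg.conc k (P.X2.AXs (P.c2 a)))).d x = 0 := by
    induction x using TensorProduct.induction_on with
    | zero => exact map_zero _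
    | add x y hx hy => rw [map_add, hx, hy, add_zero]
    | tmul v w =>
      rw [Dg.tensor_d]
      change (0 : P.X1.AXs (P.c1 a)) ⊗ₜ[k] w + _ ⊗ₜ[k] (0 : P.X2.AXs (P.c2 a)) = 0
      rw [TensorProduct.zero_tmul, TensorProduct.tmul_zero, add_zero]
  have h1 : P.krF a (((Dg.conc k (P.X1.AXs (P.c1 a))).tensor
      (Dg.conc k (P.X2.AXs (P.c2 a)))).d x) = 0 := by rw [h, map_zero]
  exact h1.symm

theorem kr_one (a : Set (P.X1.i × P.X2.i)) :
    P.krF a ((1 : P.X1.AXs (P.c1 a)) ⊗ₜ[k] (1 : P.X2.AXs (P.c2 a))) = 1 := by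
  rw [krF_tmul]
  refine Subtype.ext ?_
  funext p q
  change P.j1 ((1 : Matrix P.X1.II P.X1.II P.X1.M) (P.e1 p) (P.e1 q)) *
    P.j2 ((1 : Matrix P.X2.II P.X2.II P.X2.M) (P.e2 p) (P.e2 q)) =
    (1 : Matrix P.xd.II P.xd.II P.N) p q
  rw [Matrix.one_apply, Matrix.one_apply, Matrix.one_apply]
  by_cases h : p = q
  · rw [if_pos h, if_pos (e12_ext.1 h).1, if_pos (e12_ext.1 h).2, map_one, map_one, one_mul]
  · rw [if_neg h]
    by_cases h1 : P.e1 p = P.e1 q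
    · have h2 : ¬ P.e2 p = P.e2 q := fun h2 => h (e12_ext.2 ⟨h1, h2⟩)
      rw [if_neg h2, map_zero, mul_zero]
    · rw [if_neg h1, map_zero, zero_mul]

private theorem XTen_bil {V W U : Type u} [AddCommGroup V] [Module k V] [AddCommGroup W]
    [Module k W] [AddCommGroup U] [Module k U] (F : V ⊗[k] W →ₗ[k] U)
    (ν : V ⊗[k] W →ₗ[k] V ⊗[k] W →ₗ[k] V ⊗[k] W) (μ : U →ₗ[k] U →ₗ[k] U)
    (h : ∀ v w v' w', F (ν (v ⊗ₜ[k] w) (v' ⊗ₜ[k] w')) = μ (F (v ⊗ₜ[k] w)) (F (v' ⊗ₜ[k] w')))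
    (x y : V ⊗[k] W) : F (ν x y) = μ (F x) (F y) := by
  induction x using TensorProduct.induction_on with
  | zero => rw [LinearMap.map_zero₂, map_zero, LinearMap.map_zero₂]
  | add x x' hx hx' => rw [LinearMap.map_add₂, map_add, hx, hx', map_add, LinearMap.map_add₂]
  | tmul m n =>
    induction y using TensorProduct.induction_on with
    | zero => rw [map_zero, map_zero, map_zero]
    | add y y' hy hy' => rw [map_add, map_add, hy, hy', map_add, map_add]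
    | tmul m' n' => exact h m n m' n'

theorem kr_mul (a : Set (P.X1.i × P.X2.i)) (x y : P.X1.AXs (P.c1 a) ⊗[k] P.X2.AXs (P.c2 a)) :
    P.krF a (((MP_6e5bed_ag_NC.ring k (P.X1.AXs (P.c1 a))).tensor
      (MP_6e5bed_ag_NC.ring k (P.X2.AXs (P.c2 a)))).mul x y) =
      (MP_6e5bed_ag_NC.ring k (P.xd.AXs a)).mul (P.krF a x) (P.krF a y) := by
  refine XTen_bil (P.krF a) (((MP_6e5bed_ag_NC.ring k (P.X1.AXs (P.c1 a))).tensor
    (MP_6e5bed_ag_NC.ring k (P.X2.AXs (P.c2 a)))).mul) ((MP_6e5bed_ag_NC.ring k (P.xd.AXs a)).mul)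
    (fun m n m' n' => ?_) x y
  have h1 : ((MP_6e5bed_ag_NC.ring k (P.X1.AXs (P.c1 a))).tensor
      (MP_6e5bed_ag_NC.ring k (P.X2.AXs (P.c2 a)))).mul
      (m ⊗ₜ[k] n) (m' ⊗ₜ[k] n') = (m * m') ⊗ₜ[k] (n * n') :=
    kz_even (Dg.o_of_even (Dg.conc_deg n) Even.zero) m m' n'
  have h2 : P.krF a ((m * m') ⊗ₜ[k] (n * n')) = P.krF a (m ⊗ₜ[k] n) * P.krF a (m' ⊗ₜ[k] n') := by
    refine Subtype.ext ?_
    funext p q
    have e1 : (P.krF a (m ⊗ₜ[k] n) * P.krF a (m' ⊗ₜ[k] n')).1 p q =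
        ∑ r : P.xd.II, (P.krF a (m ⊗ₜ[k] n)).1 p r * (P.krF a (m' ⊗ₜ[k] n')).1 r q :=
      Matrix.mul_apply
    rw [e1, krF_apply]
    have e2 : ∀ r : P.xd.II, (P.krF a (m ⊗ₜ[k] n)).1 p r * (P.krF a (m' ⊗ₜ[k] n')).1 r q =
        P.j1 (m.1 (P.e1 p) (P.e1 r) * m'.1 (P.e1 r) (P.e1 q)) *
        P.j2 (n.1 (P.e2 p) (P.e2 r) * n'.1 (P.e2 r) (P.e2 q)) := fun r => by
      rw [krF_apply, krF_apply, map_mul, map_mul]
      exact mul_mul_mul_comm _ _ _ _
    rw [Finset.sum_congr rfl fun r _ => e2 r]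
    change P.j1 ((m.1 * m'.1) (P.e1 p) (P.e1 q)) *
      P.j2 ((n.1 * n'.1) (P.e2 p) (P.e2 q)) = _
    rw [Matrix.mul_apply, Matrix.mul_apply, map_sum, map_sum, Finset.sum_mul_sum]
    have e3 : ∑ r1 : P.X1.II, ∑ r2 : P.X2.II,
        P.j1 (m.1 (P.e1 p) r1 * m'.1 r1 (P.e1 q)) * P.j2 (n.1 (P.e2 p) r2 * n'.1 r2 (P.e2 q)) =
        ∑ r : P.X1.II × P.X2.II,
        P.j1 (m.1 (P.e1 p) r.1 * m'.1 r.1 (P.e1 q)) *
          P.j2 (n.1 (P.e2 p) r.2 * n'.1 r.2 (P.e2 q)) :=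
      (Fintype.sum_prod_type (fun r : P.X1.II × P.X2.II =>
        P.j1 (m.1 (P.e1 p) r.1 * m'.1 r.1 (P.e1 q)) *
          P.j2 (n.1 (P.e2 p) r.2 * n'.1 r.2 (P.e2 q)))).symm
    rw [e3]
    exact (Equiv.sum_comp P.e12 (fun r : P.X1.II × P.X2.II =>
      P.j1 (m.1 (P.e1 p) r.1 * m'.1 r.1 (P.e1 q)) *
        P.j2 (n.1 (P.e2 p) r.2 * n'.1 r.2 (P.e2 q)))).symm
  exact (congrArg (P.krF a) h1).trans h2

/-- the comparison, as a morphism of dg algebras in degree zero -/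
def kr (a : Set (P.X1.i × P.X2.i)) : DHom ((MP_6e5bed_ag_NC.ring k (P.X1.AXs (P.c1 a))).tensor
    (MP_6e5bed_ag_NC.ring k (P.X2.AXs (P.c2 a)))) (MP_6e5bed_ag_NC.ring k (P.xd.AXs a)) where
  f := P.krF a
  deg := fun {i x} hx => P.krF_deg a hx
  d := fun x => P.kr_d a x
  one := P.kr_one a
  mul := P.kr_mul a

/-- naturality -/
theorem kr_nat {a d : Set (P.X1.i × P.X2.i)} (h : a ⊆ d)
    (x : P.X1.AXs (P.c1 a) ⊗[k] P.X2.AXs (P.c2 a)) :
    Subalgebra.inclusion (P.xd.AXs_mono h) (P.krF a x) = P.krF d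
      (TensorProduct.map
        (Subalgebra.inclusion (P.X1.AXs_mono (Set.image_mono h))).toLinearMap
        (Subalgebra.inclusion (P.X2.AXs_mono (Set.image_mono h))).toLinearMap x) := by
  induction x using TensorProduct.induction_on with
  | zero => rw [map_zero, map_zero, map_zero, map_zero]
  | add x y hx hy => rw [map_add, map_add, hx, hy, map_add, map_add]
  | tmul m n =>
    rw [TensorProduct.map_tmul, krF_tmul, krF_tmul]
    rfl

/-! ### Bijectivity -/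

omit P in
private theorem XTen_coords {L₁ L₂ : Type u} [Field L₁] [Algebra k L₁] [Field L₂] [Algebra k L₂]
    {I J : Type} [Fintype I] [DecidableEq I] [Fintype J] [DecidableEq J]
    (y : Matrix I I L₁ ⊗[k] Matrix J J L₂)
    (h : ∀ (p : I × I) (q : J × J), TensorProduct.map (Matrix.entryLinearMap k L₁ p.1 p.2)
      (Matrix.entryLinearMap k L₂ q.1 q.2) y = 0) : y = 0 := by
  have key : ∀ y : Matrix I I L₁ ⊗[k] Matrix J J L₂,
      y = ∑ p : I × I, ∑ q : J × J,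
        TensorProduct.map (Matrix.singleLinearMap k p.1 p.2)
        (Matrix.singleLinearMap k q.1 q.2) (TensorProduct.map
          (Matrix.entryLinearMap k L₁ p.1 p.2) (Matrix.entryLinearMap k L₂ q.1 q.2) y) := by
    intro y
    induction y using TensorProduct.induction_on with
    | zero => simp
    | add y z hy hz =>
      simp only [map_add, Finset.sum_add_distrib]
      rw [← hy, ← hz]
    | tmul m n =>
      simp only [TensorProduct.map_tmul]
      have e1 : m = ∑ p : I × I, Matrix.single p.1 p.2 (m p.1 p.2) := by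
        rw [Fintype.sum_prod_type]
        exact Matrix.matrix_eq_sum_single m
      have e2 : n = ∑ p : J × J, Matrix.single p.1 p.2 (n p.1 p.2) := by
        rw [Fintype.sum_prod_type]
        exact Matrix.matrix_eq_sum_single n
      change m ⊗ₜ[k] n = ∑ p : I × I, ∑ q : J × J,
        Matrix.single p.1 p.2 (m p.1 p.2) ⊗ₜ[k] Matrix.single q.1 q.2 (n q.1 q.2)
      conv_lhs => rw [e1, e2]
      rw [TensorProduct.sum_tmul]
      exact Finset.sum_congr rfl fun p _ => TensorProduct.tmul_sum _ _ _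
  rw [key y]
  refine Finset.sum_eq_zero fun p _ => Finset.sum_eq_zero fun q _ => ?_
  rw [h, map_zero]

theorem krF_inj (a : Set (P.X1.i × P.X2.i)) : Function.Injective (P.krF a) := by
  rw [injective_iff_map_eq_zero]
  intro x hx
  have hinj : Function.Injective (TensorProduct.map (P.X1.AXs (P.c1 a)).val.toLinearMap
      (P.X2.AXs (P.c2 a)).val.toLinearMap) :=
    TensorProduct.map_injective_of_flat_flat _ _ Subtype.val_injective Subtype.val_injective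
  refine hinj ?_
  rw [map_zero]
  refine XTen_coords _ fun p q => ?_
  refine P.jj_inj ?_
  rw [map_zero]
  have h1 : ∀ x : P.X1.AXs (P.c1 a) ⊗[k] P.X2.AXs (P.c2 a),
      P.jj (TensorProduct.map (Matrix.entryLinearMap k P.X1.M p.1 p.2)
        (Matrix.entryLinearMap k P.X2.M q.1 q.2) (TensorProduct.map
        (P.X1.AXs (P.c1 a)).val.toLinearMap (P.X2.AXs (P.c2 a)).val.toLinearMap x)) =
        (P.krF a x).1 (P.e12.symm (p.1, q.1)) (P.e12.symm (p.2, q.2)) := by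
    intro x
    induction x using TensorProduct.induction_on with
    | zero =>
      rw [map_zero, map_zero, map_zero, map_zero]
      rfl
    | add x y hx hy =>
      rw [map_add, map_add, map_add, hx, hy, map_add]
      rfl
    | tmul m n =>
      rw [TensorProduct.map_tmul, TensorProduct.map_tmul, P.jj_tmul, krF_tmul]
      rfl
  rw [h1, hx]
  rfl

private theorem XTen_single (a : Set (P.X1.i × P.X2.i)) (p q : P.xd.II) {w : P.N}
    (hw : w ∈ P.O (P.xd.tw p - P.xd.tw q) a) :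
    ∃ y : P.X1.AXs (P.c1 a) ⊗[k] P.X2.AXs (P.c2 a), ∀ p' q' : P.xd.II,
      (P.krF a y).1 p' q' = if p' = p ∧ q' = q then w else 0 := by
  refine O_ind (C := fun w => ∃ y : P.X1.AXs (P.c1 a) ⊗[k] P.X2.AXs (P.c2 a),
    ∀ p' q' : P.xd.II, (P.krF a y).1 p' q' = if p' = p ∧ q' = q then w else 0)
    (fun f g hf hg => ?_) (fun x y hx hy => ?_) hw
  · have h1 : Matrix.single (P.e1 p) (P.e1 q) f ∈ P.X1.AXs (P.c1 a) := by
      intro p' q'
      rw [Matrix.single_apply]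
      split_ifs with h
      · rw [← h.1, ← h.2]
        exact hf
      · exact Submodule.zero_mem _
    have h2 : Matrix.single (P.e2 p) (P.e2 q) g ∈ P.X2.AXs (P.c2 a) := by
      intro p' q'
      rw [Matrix.single_apply]
      split_ifs with h
      · rw [← h.1, ← h.2]
        exact hg
      · exact Submodule.zero_mem _
    refine ⟨(⟨_, h1⟩ : P.X1.AXs (P.c1 a)) ⊗ₜ[k] (⟨_, h2⟩ : P.X2.AXs (P.c2 a)), fun p' q' => ?_⟩
    rw [krF_tmul]
    change P.j1 (Matrix.single (P.e1 p) (P.e1 q) f (P.e1 p') (P.e1 q')) *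
      P.j2 (Matrix.single (P.e2 p) (P.e2 q) g (P.e2 p') (P.e2 q')) = _
    rw [Matrix.single_apply, Matrix.single_apply]
    by_cases h : p' = p ∧ q' = q
    · obtain ⟨rfl, rfl⟩ := h
      rw [if_pos ⟨rfl, rfl⟩, if_pos ⟨rfl, rfl⟩, if_pos ⟨rfl, rfl⟩]
    · rw [if_neg h]
      by_cases h3 : P.e1 p = P.e1 p' ∧ P.e1 q = P.e1 q'
      · have h4 : ¬ (P.e2 p = P.e2 p' ∧ P.e2 q = P.e2 q') := fun h4 =>
          h ⟨e12_ext.2 ⟨h3.1.symm, h4.1.symm⟩, e12_ext.2 ⟨h3.2.symm, h4.2.symm⟩⟩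
        rw [if_neg h4, map_zero, mul_zero]
      · rw [if_neg h3, map_zero, zero_mul]
  · obtain ⟨y1, h1⟩ := hx
    obtain ⟨y2, h2⟩ := hy
    refine ⟨y1 + y2, fun p' q' => ?_⟩
    have h3 : (P.krF a (y1 + y2)).1 p' q' = (P.krF a y1).1 p' q' + (P.krF a y2).1 p' q' := by
      rw [map_add]
      rfl
    rw [h3, h1, h2]
    split_ifs
    · rfl
    · exact add_zero _

theorem krF_surj (a : Set (P.X1.i × P.X2.i)) : Function.Surjective (P.krF a) := by
  intro z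
  have h1 : ∀ p q : P.xd.II, ∃ y : P.X1.AXs (P.c1 a) ⊗[k] P.X2.AXs (P.c2 a),
      ∀ p' q' : P.xd.II, (P.krF a y).1 p' q' = if p' = p ∧ q' = q then z.1 p q else 0 :=
    fun p q => P.XTen_single a p q (z.2 p q)
  choose Y hY using h1
  refine ⟨∑ p, ∑ q, Y p q, Subtype.ext ?_⟩
  funext p' q'
  have h2 : (P.krF a (∑ p, ∑ q, Y p q)).1 p' q' = ∑ p, ∑ q, (P.krF a (Y p q)).1 p' q' := by
    let ev : P.xd.AXs a →ₗ[k] P.N :=
      { toFun := fun z => z.1 p' q', map_add' := fun _ _ => rfl, map_smul' := fun _ _ => rfl }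
    change (ev ∘ₗ P.krF a) (∑ p, ∑ q, Y p q) = ∑ p, ∑ q, (ev ∘ₗ P.krF a) (Y p q)
    rw [map_sum]
    exact Finset.sum_congr rfl fun p _ => map_sum _ _ _
  rw [h2]
  simp only [hY]
  rw [Finset.sum_eq_single p', Finset.sum_eq_single q']
  · rw [if_pos ⟨rfl, rfl⟩]
  · intro b _ hb
    rw [if_neg (fun h => hb h.2.symm)]
  · intro h
    exact absurd (Finset.mem_univ _) h
  · intro b _ hb
    refine Finset.sum_eq_zero fun q _ => ?_
    rw [if_neg (fun h => hb h.1.symm)]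
  · intro h
    exact absurd (Finset.mem_univ _) h

theorem krF_bij (a : Set (P.X1.i × P.X2.i)) : Function.Bijective (P.krF a) :=
  ⟨P.krF_inj a, P.krF_surj a⟩

end XP

end Pool.Agent.MP_6e5bed_ag_GG
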