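import Pool.Agent.Lib.MP_6e5bed_ag_GG.XSw
import Pool.Agent.Lib.MP_6e5bed_ag_GG.BB

set_option autoImplicit false
set_option linter.unusedVariables false

/-!
# MP_6e5bed_ag, THEOREM G: the Čech dg algebra of a coherent algebra for two charts
-/

noncomputable section

namespace Pool.Agent.MP_6e5bed_ag_GG

open Pool.Agent.MP_6e5bed_ag_NC Pool.Agent.MP_6e5bed_ag_NS Pool.Agent.MP_6e5bed_ag_PN
open Pool.Agent.MP_6e5bed_ag_PS (CoH)

universe u

variable {k : Type u} [Field k] {i : Type} [Fintype i]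

/-- the cospan of the charts `l1`, `l2` -/
def CA.cosp (A : CA k i) (l1 l2 : i) : Cosp k where
  A0 := A.A ((FS.e i).ins l2)
  A1 := A.A ((FS.e i).ins l1)
  A01 := A.A (((FS.e i).ins l1).fs.ins l2)
  r0 := A.res (ins_mono (le_ins (FS.e i) l1) l2)
  r1 := A.res (le_ins' ((FS.e i).ins l1) l2)

/-- the complex of the list `[l2]` -/
private abbrev XTwo_o (A : CA k i) (l2 : i) (c : FS i) (x : A.A (c.ins l2)) :
    ((cC A.pa.pc [l2]).X c).V :=
  co.mk ((cC A.pa.pc []).ρ (le_ins c l2)) ((cC A.pa.pc []).a (c.ins l2)) PUnit.unit x PUnit.unit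

private theorem XTwo_o_deg (A : CA k i) (l2 : i) (c : FS i) {n : ℤ} {x : A.A (c.ins l2)}
    (hx : (Dg.conc k (A.A (c.ins l2))).IsDeg n x) :
    ((cC A.pa.pc [l2]).X c).dg.IsDeg n (XTwo_o A l2 c x) :=
  co_deg.2 ⟨Dg.IsDeg.zero _, hx, Dg.IsDeg.zero _⟩

/-- the comparison -/
def CA.two (A : CA k i) (l1 l2 : i) :
    DHom (A.cosp l1 l2).cech (cA A.pa [l1, l2] (FS.e i)) where
  f :=
    { toFun := fun x => co.mk ((cC A.pa.pc [l2]).ρ (le_ins (FS.e i) l1))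
        ((cC A.pa.pc [l2]).a ((FS.e i).ins l1))
        (XTwo_o A l2 (FS.e i) x.1.1) x.1.2 (XTwo_o A l2 ((FS.e i).ins l1).fs x.2)
      map_add' := fun x y => rfl
      map_smul' := fun c x => rfl }
  deg := fun {n a} ha => by
    obtain ⟨⟨x0, x1⟩, ξ⟩ : ((A.cosp l1 l2).A0 × (A.cosp l1 l2).A1) × (A.cosp l1 l2).A01 := a
    have ha' : (Dg.two (A.cosp l1 l2).δ).IsDeg n ((x0, x1), ξ) := ha
    refine co_deg.2 ⟨XTwo_o_deg A l2 _ ?_, ?_, XTwo_o_deg A l2 _ ?_⟩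
    · rcases Dg.two_isDeg _ ha' with ⟨rfl, h⟩ | ⟨rfl, h⟩ | ⟨h, h'⟩
      · exact Dg.conc_deg _
      · rw [show x0 = 0 from congrArg Prod.fst h]
        exact Dg.IsDeg.zero _
      · rw [show x0 = 0 from congrArg Prod.fst h]
        exact Dg.IsDeg.zero _
    · rcases Dg.two_isDeg _ ha' with ⟨rfl, h⟩ | ⟨rfl, h⟩ | ⟨h, h'⟩
      · exact Dg.conc_deg _
      · rw [show x1 = 0 from congrArg Prod.snd h]
        exact Dg.IsDeg.zero _
      · rw [show x1 = 0 from congrArg Prod.snd h]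
        exact Dg.IsDeg.zero _
    · rcases Dg.two_isDeg _ ha' with ⟨rfl, h⟩ | ⟨rfl, h⟩ | ⟨h, h'⟩
      · rw [h]
        exact Dg.IsDeg.zero _
      · exact Dg.conc_deg _
      · rw [h']
        exact Dg.IsDeg.zero _
  d := fun a => by
    obtain ⟨⟨x0, x1⟩, ξ⟩ : ((A.cosp l1 l2).A0 × (A.cosp l1 l2).A1) × (A.cosp l1 l2).A01 := a
    refine (co_d _ _ _).trans ?_
    refine Prod.ext (Prod.ext ?_ rfl) ?_
    · exact (co_d _ _ _).trans rfl
    · refine (congrArg (fun z => ((cC A.pa.pc [l2]).a ((FS.e i).ins l1)).f x1 -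
        ((cC A.pa.pc [l2]).ρ (le_ins (FS.e i) l1)).f (XTwo_o A l2 (FS.e i) x0) - z)
        (co_d _ _ _)).trans ?_
      refine Prod.ext (Prod.ext rfl ?_) rfl
      change A.res _ x1 - A.res _ x0 - 0 = A.res _ x1 - A.res _ x0
      rw [sub_zero]
  one := rfl
  mul := fun a b => by
    obtain ⟨⟨x0, x1⟩, ξ⟩ : ((A.cosp l1 l2).A0 × (A.cosp l1 l2).A1) × (A.cosp l1 l2).A01 := a
    obtain ⟨⟨y0, y1⟩, υ⟩ : ((A.cosp l1 l2).A0 × (A.cosp l1 l2).A1) × (A.cosp l1 l2).A01 := b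
    refine Prod.ext (Prod.ext (Prod.ext (Prod.ext rfl rfl) rfl) rfl) (Prod.ext (Prod.ext rfl ?_) rfl)
    have h : ((cC A.pa.pc [l2]).X (FS.e i)).dg.s (XTwo_o A l2 (FS.e i) x0) =
        XTwo_o A l2 (FS.e i) x0 :=
      (co_s _ _ _).trans (Prod.ext (Prod.ext rfl (Dg.conc_s (k := k) x0)) rfl)
    exact congrArg (fun z : ((cC A.pa.pc [l2]).X (FS.e i)).V =>
      ((((cP A.pa.pp [l2]).q ((FS.e i).ins l1).fs).m
        (((cC A.pa.pc [l2]).ρ (le_ins (FS.e i) l1)).f z)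
        (XTwo_o A l2 ((FS.e i).ins l1).fs υ)) +
      (((cP A.pa.pp [l2]).q ((FS.e i).ins l1).fs).m (XTwo_o A l2 ((FS.e i).ins l1).fs ξ)
        (((cC A.pa.pc [l2]).a ((FS.e i).ins l1)).f y1))).1.2) h.symm

theorem CA.two_bij (A : CA k i) (l1 l2 : i) : Function.Bijective (A.two l1 l2).f := by
  constructor
  · intro x y h
    have h1 : x.1.1 = y.1.1 := congrArg (fun z => z.1.1.1.2) h
    have h2 : x.1.2 = y.1.2 := congrArg (fun z => z.1.2) h
    have h3 : x.2 = y.2 := congrArg (fun z => z.2.1.2) h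
    exact Prod.ext (Prod.ext h1 h2) h3
  · intro z
    exact ⟨((z.1.1.1.2, z.1.2), z.2.1.2), rfl⟩

end Pool.Agent.MP_6e5bed_ag_GG
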